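import Pool.Agent.EC.Gam

/-! The first Betti number of `M = H³/Γ` is at least one: `Γ` maps onto `ℤ`. -/

namespace Pool.Agent.EC

namespace Lam

/-- In a commutative group any three elements satisfy the relations of `G`. -/
theorem GRel.of_comm {K : Type*} [CommGroup K] (X Y Z : K) : GRel X Y Z := by
  constructor <;> simp

/-- The three coordinate homomorphisms `G → ℤ`. -/
noncomputable def coordX : G →* Multiplicative ℤ :=
  gLift (GRel.of_comm (Multiplicative.ofAdd 1) 1 1)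
noncomputable def coordY : G →* Multiplicative ℤ :=
  gLift (GRel.of_comm 1 (Multiplicative.ofAdd 1) 1)
noncomputable def coordZ : G →* Multiplicative ℤ :=
  gLift (GRel.of_comm 1 1 (Multiplicative.ofAdd 1))

theorem sig_x : sig ⟨x, x_mem⟩ = pX := gLift_x rel_p
theorem sig_y : sig ⟨y, y_mem⟩ = pY := gLift_y rel_p
theorem sig_z : sig ⟨z, z_mem⟩ = pZ := gLift_z rel_p

theorem perm32_x (t : Tr × Fin 4) : perm32 x t = act 3 (act 0 t) := by
  unfold x; rw [map_mul, Equiv.Perm.mul_apply, perm32_simple, perm32_simple]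
theorem perm32_y (t : Tr × Fin 4) : perm32 y t = act 4 (act 1 t) := by
  unfold y; rw [map_mul, Equiv.Perm.mul_apply, perm32_simple, perm32_simple]
theorem perm32_z (t : Tr × Fin 4) : perm32 z t = act 5 (act 2 t) := by
  unfold z; rw [map_mul, Equiv.Perm.mul_apply, perm32_simple, perm32_simple]

theorem x_mem_Gam : x ∈ Gam := by
  rw [mem_Gam, perm32_x]; decide

theorem y2_mem_Gam : y * y ∈ Gam := by
  rw [mem_Gam, map_mul, Equiv.Perm.mul_apply, perm32_y, perm32_y]; decide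

theorem z4_mem_Gam : z * z * z * z ∈ Gam := by
  rw [mem_Gam]
  simp only [map_mul, Equiv.Perm.mul_apply, perm32_z]; decide

/-- The coordinate homomorphisms on `Γ`. -/
noncomputable def gamX : Gam →* Multiplicative ℤ := coordX.comp (Subgroup.inclusion Gam_le_G)
noncomputable def gamY : Gam →* Multiplicative ℤ := coordY.comp (Subgroup.inclusion Gam_le_G)
noncomputable def gamZ : Gam →* Multiplicative ℤ := coordZ.comp (Subgroup.inclusion Gam_le_G)

theorem gamX_x : gamX ⟨x, x_mem_Gam⟩ = Multiplicative.ofAdd 1 :=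
  gLift_x (GRel.of_comm (Multiplicative.ofAdd 1) 1 1)

/-- `Γ` maps onto `ℤ`, that is, the first Betti number of `H³/Γ` is positive. -/
theorem gamX_surjective : Function.Surjective gamX := by
  intro n
  refine ⟨⟨x, x_mem_Gam⟩ ^ (Multiplicative.toAdd n), ?_⟩
  rw [map_zpow, gamX_x, ← ofAdd_zsmul]
  simp

/-- The images of `x, y², z⁴`: `b₁ = 3`. -/
theorem coord_x : coordX ⟨x, x_mem⟩ = Multiplicative.ofAdd 1 ∧ coordY ⟨x, x_mem⟩ = 1 ∧
    coordZ ⟨x, x_mem⟩ = 1 := ⟨gLift_x _, gLift_x _, gLift_x _⟩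
theorem coord_y : coordX ⟨y, y_mem⟩ = 1 ∧ coordY ⟨y, y_mem⟩ = Multiplicative.ofAdd 1 ∧
    coordZ ⟨y, y_mem⟩ = 1 := ⟨gLift_y _, gLift_y _, gLift_y _⟩
theorem coord_z : coordX ⟨z, z_mem⟩ = 1 ∧ coordY ⟨z, z_mem⟩ = 1 ∧
    coordZ ⟨z, z_mem⟩ = Multiplicative.ofAdd 1 := ⟨gLift_z _, gLift_z _, gLift_z _⟩

end Lam

end Pool.Agent.EC
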