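import Mathlib

/-!
Elementary rigidity for genus two tuples of circle homeomorphisms (lifts to the line).
-/

namespace Pool.Agent.EC.Rigid

open CircleDeg1Lift

/-- The group of lifts: order automorphisms of `ℝ` commuting with `x ↦ x + 1`. -/
abbrev G := CircleDeg1Liftˣ

/-- The translation by one. -/
noncomputable def T : G := translate (Multiplicative.ofAdd (1 : ℝ))

/-- `f` has a fixed point on the line. -/
def HasFix (f : G) : Prop := ∃ x : ℝ, f x = x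

theorem mul_ap (f g : G) (x : ℝ) : (f * g) x = f (g x) := rfl

theorem inv_ap (f : G) (x : ℝ) : f⁻¹ (f x) = x := units_inv_apply_apply f x

theorem ap_inv (f : G) (x : ℝ) : f (f⁻¹ x) = x := units_apply_inv_apply f x

theorem T_ap (x : ℝ) : T x = x + 1 := by
  rw [T, translate_apply, add_comm]

theorem Tz_ap (n : ℤ) (x : ℝ) : (T ^ n) x = x + n := by
  rw [T, ← map_zpow, ← ofAdd_zsmul, translate_apply]
  simp [add_comm]

theorem lt_iff (f : G) {x y : ℝ} : f x < f y ↔ x < y :=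
  (toOrderIso f).lt_iff_lt

theorem le_iff (f : G) {x y : ℝ} : f x ≤ f y ↔ x ≤ y :=
  (toOrderIso f).le_iff_le

theorem inj (f : G) {x y : ℝ} (h : f x = f y) : x = y :=
  (toOrderIso f).injective h

theorem cont (f : G) : Continuous (f : ℝ → ℝ) :=
  (toOrderIso f).continuous

theorem ap_one (f : G) (x : ℝ) : f (x + 1) = f x + 1 := map_add_one _ x

theorem ap_int (f : G) (x : ℝ) (n : ℤ) : f (x + n) = f x + n := map_add_int _ x n

theorem ap_sub_int (f : G) (x : ℝ) (n : ℤ) : f (x - n) = f x - n := map_sub_int _ x n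

theorem ext {f g : G} (h : ∀ x, f x = g x) : f = g :=
  Units.ext (CircleDeg1Lift.ext h)

theorem T_comm (f : G) : T * f = f * T := by
  apply ext; intro x
  rw [mul_ap, mul_ap, T_ap, T_ap, ap_one]

theorem Tz_comm (n : ℤ) (f : G) : T ^ n * f = f * T ^ n := by
  apply ext; intro x
  rw [mul_ap, mul_ap, Tz_ap, Tz_ap, ap_int]

/-- intermediate value -/
theorem ivt (f : G) (r : ℝ) {x y : ℝ} (hx : f x ≤ x + r) (hy : y + r ≤ f y) :
    ∃ z, f z = z + r := by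
  have hc : Continuous fun x => f x - x := (cont f).sub continuous_id
  have := mem_range_of_exists_le_of_exists_ge hc (c := r)
    ⟨x, show f x - x ≤ r by linarith⟩ ⟨y, show r ≤ f y - y by linarith⟩
  obtain ⟨z, hz⟩ := this
  exact ⟨z, by have : f z - z = r := hz
               linarith⟩

/-- intermediate value on an interval -/
theorem ivt_Icc (f : G) {x y : ℝ} (hxy : x ≤ y) (hx : f x ≤ x) (hy : y ≤ f y) :
    ∃ z ∈ Set.Icc x y, f z = z := by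
  have hc : Continuous fun x => f x - x := (cont f).sub continuous_id
  have := intermediate_value_Icc hxy hc.continuousOn
  obtain ⟨z, hz, h⟩ := this (a := 0) ⟨show f x - x ≤ 0 by linarith, show 0 ≤ f y - y by linarith⟩
  exact ⟨z, hz, by have : f z - z = 0 := h
                   linarith⟩

theorem ivt_Icc' (f : G) {x y : ℝ} (hxy : x ≤ y) (hx : x ≤ f x) (hy : f y ≤ y) :
    ∃ z ∈ Set.Icc x y, f z = z := by
  have hc : Continuous fun x => f x - x := (cont f).sub continuous_id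
  have := intermediate_value_Icc' hxy hc.continuousOn
  obtain ⟨z, hz, h⟩ := this (a := 0) ⟨show f y - y ≤ 0 by linarith, show 0 ≤ f x - x by linarith⟩
  exact ⟨z, hz, by have : f z - z = 0 := h
                   linarith⟩

theorem HasFix.inv {f : G} (h : HasFix f) : HasFix f⁻¹ := by
  obtain ⟨x, hx⟩ := h
  exact ⟨x, by conv_lhs => rw [← hx, inv_ap]⟩

theorem HasFix.conj {f : G} (h : HasFix f) (g : G) : HasFix (g * f * g⁻¹) := by
  obtain ⟨x, hx⟩ := h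
  exact ⟨g x, by rw [mul_ap, mul_ap, inv_ap, hx]⟩

theorem HasFix.swap {f g : G} (h : HasFix (f * g)) : HasFix (g * f) := by
  have := h.conj g
  rwa [show g * (f * g) * g⁻¹ = g * f by group] at this

theorem HasFix.lt {f : G} (h : HasFix f) (x : ℝ) : f x < x + 1 := by
  obtain ⟨p, hp⟩ := h
  have h1 : x < p + (⌊x - p⌋ + 1 : ℤ) := by
    have := Int.lt_floor_add_one (x - p)
    push_cast; linarith
  have h2 : f x < f (p + (⌊x - p⌋ + 1 : ℤ)) := (lt_iff f).2 h1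
  rw [ap_int, hp] at h2
  have h3 := Int.floor_le (x - p)
  push_cast at h2
  linarith

theorem HasFix.gt {f : G} (h : HasFix f) (x : ℝ) : x - 1 < f x := by
  have := h.inv.lt (f x)
  rw [inv_ap] at this
  linarith

/-- a fixed point in the half open unit interval to the right of `p` -/
theorem HasFix.near {f : G} (h : HasFix f) (p : ℝ) : ∃ x, p ≤ x ∧ x < p + 1 ∧ f x = x := by
  obtain ⟨q, hq⟩ := h
  refine ⟨q - ⌊q - p⌋, ?_, ?_, ?_⟩
  · have := Int.floor_le (q - p); linarith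
  · have := Int.lt_floor_add_one (q - p); linarith
  · rw [ap_sub_int, hq]

/-- only one lift of a circle homeomorphism has a fixed point -/
theorem HasFix.unique {f : G} {m n : ℤ} (h1 : HasFix (T ^ m * f)) (h2 : HasFix (T ^ n * f)) :
    m = n := by
  have key : ∀ {m n : ℤ}, HasFix (T ^ m * f) → HasFix (T ^ n * f) → m ≤ n := by
    intro m n h1 h2
    obtain ⟨x, hx⟩ := h2
    have h := h1.lt x
    rw [mul_ap, Tz_ap] at h hx
    have : (m : ℝ) < n + 1 := by linarith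
    exact_mod_cast Int.lt_add_one_iff.1 (by exact_mod_cast this)
  exact le_antisymm (key h1 h2) (key h2 h1)

/-! ### The lemma of Eisenbud, Hirsch and Neumann type -/

/-- A commutator is not everywhere at least a translation by one. -/
theorem comm_not_ge (b d : G) (h : ∀ x, x + 1 ≤ (b * d * b⁻¹ * d⁻¹) x) : False := by
  have h1 : ∀ x, d x + 1 ≤ (b * d * b⁻¹) x := by
    intro x
    have := h (d x)
    rwa [mul_ap, inv_ap] at this
  have h2 : ((translate (Multiplicative.ofAdd (1 : ℝ)) * d : G) : CircleDeg1Lift) ≤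
      ((b * d * b⁻¹ : G) : CircleDeg1Lift) := by
    intro x
    have := h1 x
    have e : (translate (Multiplicative.ofAdd (1 : ℝ)) * d : G) x = d x + 1 := by
      rw [mul_ap, translate_apply, add_comm]
    rw [e]; exact this
  have h3 := translationNumber_mono h2
  have h4 : translationNumber ((b * d * b⁻¹ : G) : CircleDeg1Lift) =
      translationNumber (d : CircleDeg1Lift) := by
    have := translationNumber_conj_eq b (d : CircleDeg1Lift)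
    rw [Units.val_mul, Units.val_mul]
    exact this
  have h5 : translationNumber ((translate (Multiplicative.ofAdd (1 : ℝ)) * d : G) : CircleDeg1Lift)
      = 1 + translationNumber (d : CircleDeg1Lift) := by
    rw [Units.val_mul, translationNumber_mul_of_commute, translationNumber_translate]
    have := T_comm d
    rw [T] at this
    exact congrArg Units.val this
  rw [h4, h5] at h3
  linarith

/-- `f` and all its translates by integers have no fixed point: it stays strictly between two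
consecutive integer translations. -/
theorem nofix_bound {f : G} (h : ∀ k : ℤ, ¬ HasFix (T ^ k * f)) :
    ∃ k : ℤ, ∀ x, x + k < f x ∧ f x < x + k + 1 := by
  refine ⟨⌊f 0⌋, fun x => ?_⟩
  have ne : ∀ (k : ℤ) y, f y ≠ y + k := by
    intro k y hy
    refine h (-k) ⟨y, ?_⟩
    rw [mul_ap, Tz_ap, hy]; push_cast; ring
  have a1 : (0 : ℝ) + ⌊f 0⌋ ≤ f 0 := by
    have := Int.floor_le (f 0); linarith
  have a2 : f 0 ≤ (0 : ℝ) + (⌊f 0⌋ + 1 : ℤ) := by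
    have := Int.lt_floor_add_one (f 0); push_cast; linarith
  constructor
  · by_contra hc
    push Not at hc
    obtain ⟨z, hz⟩ := ivt f _ hc a1
    exact ne _ z hz
  · by_contra hc
    push Not at hc
    obtain ⟨z, hz⟩ := ivt f ((⌊f 0⌋ + 1 : ℤ) : ℝ) a2 (y := x) (by push_cast; linarith)
    exact ne _ z hz

/-- bound for a conjugate -/
theorem bound_conj {f : G} {k : ℤ} (h : ∀ x, x + k < f x ∧ f x < x + k + 1) (g : G) :
    ∀ x, x + k < (g * f * g⁻¹) x ∧ (g * f * g⁻¹) x < x + k + 1 := by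
  intro x
  have h1 := h (g⁻¹ x)
  rw [mul_ap, mul_ap]
  constructor
  · have := (lt_iff g).2 h1.1
    rwa [ap_int, ap_inv] at this
  · have := (lt_iff g).2 h1.2
    rwa [ap_one, ap_int, ap_inv] at this

/-- if `a` has no fixed lift, then the commutator moves less than one -/
theorem comm_lt_left {a : G} (h : ∀ k : ℤ, ¬ HasFix (T ^ k * a)) (c : G) (x : ℝ) :
    (a * c * a⁻¹ * c⁻¹) x < x + 1 := by
  obtain ⟨k, hk⟩ := nofix_bound h
  have h2 := bound_conj hk c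
  -- a * (c a⁻¹ c⁻¹)
  set y := (c * a * c⁻¹)⁻¹ x with hy
  have e : (a * c * a⁻¹ * c⁻¹) x = a y := by
    rw [show a * c * a⁻¹ * c⁻¹ = a * (c * a * c⁻¹)⁻¹ by group, mul_ap]
  have h3 := (h2 y).1
  rw [hy, ap_inv, ← hy] at h3
  have := (hk y).2
  rw [e]; linarith

theorem comm_lt_right {c : G} (h : ∀ k : ℤ, ¬ HasFix (T ^ k * c)) (a : G) (x : ℝ) :
    (a * c * a⁻¹ * c⁻¹) x < x + 1 := by
  obtain ⟨k, hk⟩ := nofix_bound h
  have h2 := bound_conj hk a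
  set y := c⁻¹ x with hy
  have e : (a * c * a⁻¹ * c⁻¹) x = (a * c * a⁻¹) y := by
    rw [hy, ← mul_ap]
  have h3 := (hk y).1
  rw [hy, ap_inv, ← hy] at h3
  have := (h2 y).2
  rw [e]; linarith

theorem comm_lt_absurd {a b c d : G}
    (hR : (b * d * b⁻¹ * d⁻¹) * (a * c * a⁻¹ * c⁻¹) = T ^ (2 : ℤ))
    (h : ∀ x, (a * c * a⁻¹ * c⁻¹) x < x + 1) : False := by
  refine comm_not_ge b d fun x => ?_
  set y := (a * c * a⁻¹ * c⁻¹)⁻¹ x with hy
  have h1 := h y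
  rw [hy, ap_inv, ← hy] at h1
  have h2 : (b * d * b⁻¹ * d⁻¹) x = y + 2 := by
    have := congrArg (fun f : G => f y) hR
    simp only [mul_ap, Tz_ap] at this
    have e : a (c (a⁻¹ (c⁻¹ y))) = x := by
      have : (a * c * a⁻¹ * c⁻¹) y = x := by rw [hy, ap_inv]
      simpa only [mul_ap] using this
    rw [e] at this
    push_cast at this
    simpa only [mul_ap] using this
  rw [h2]; linarith

/-- in a maximal genus two tuple, every entry has a lift with a fixed point -/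
theorem M1 {a b c d : G} (hR : (b * d * b⁻¹ * d⁻¹) * (a * c * a⁻¹ * c⁻¹) = T ^ (2 : ℤ)) :
    (∃ k : ℤ, HasFix (T ^ k * a)) ∧ (∃ k : ℤ, HasFix (T ^ k * c)) := by
  constructor
  · by_contra hc
    push Not at hc
    exact comm_lt_absurd hR (comm_lt_left hc c)
  · by_contra hc
    push Not at hc
    exact comm_lt_absurd hR (comm_lt_right hc a)

theorem swap_two {f g : G} (h : f * g = T ^ (2 : ℤ)) : g * f = T ^ (2 : ℤ) := by
  have : g * f = f⁻¹ * (f * g) * f := by group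
  rw [this, h, ← Tz_comm, mul_assoc, inv_mul_cancel, mul_one]

/-- the common point where both commutators translate by one -/
theorem common {a b c d : G} (hR : (b * d * b⁻¹ * d⁻¹) * (a * c * a⁻¹ * c⁻¹) = T ^ (2 : ℤ))
    (ha : HasFix a) (hb : HasFix b) :
    ∃ p, (a * c * a⁻¹ * c⁻¹) p = p + 1 ∧ (b * d * b⁻¹ * d⁻¹) p = p + 1 := by
  obtain ⟨xa, hxa⟩ := ha
  obtain ⟨xb, hxb⟩ := hb
  have key : ∀ {a c : G} {xa : ℝ}, a xa = xa → (a * c * a⁻¹ * c⁻¹) (c xa) < c xa + 1 := by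
    intro a c xa hxa
    have h1 : (a * c * a⁻¹ * c⁻¹) (c xa) = a (c xa) := by
      rw [mul_ap, inv_ap, mul_ap, mul_ap]
      have : a⁻¹ xa = xa := by conv_lhs => rw [← hxa, inv_ap]
      rw [this]
    rw [h1]
    exact HasFix.lt ⟨xa, hxa⟩ _
  have h1 := key (c := d) hxb
  have h2 := key (c := c) hxa
  set w := (a * c * a⁻¹ * c⁻¹) (c xa) with hw
  have h3 : (b * d * b⁻¹ * d⁻¹) w = c xa + 2 := by
    rw [hw, ← mul_ap, hR, Tz_ap]; norm_num
  obtain ⟨p, hp⟩ := ivt (b * d * b⁻¹ * d⁻¹) 1 h1.le (y := w) (by rw [h3]; linarith)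
  refine ⟨p, ?_, hp⟩
  have h4 : ((a * c * a⁻¹ * c⁻¹) * (b * d * b⁻¹ * d⁻¹)) p = (T ^ (2 : ℤ)) p := by
    rw [swap_two hR]
  rw [mul_ap, hp, ap_one, Tz_ap, show ((2 : ℤ) : ℝ) = 2 by norm_num] at h4
  linarith

/-- `a` moves a point where the commutator is a translation by one to the right -/
theorem mv_left {a b : G} (ha : HasFix a) {p : ℝ} (hp : (a * b * a⁻¹ * b⁻¹) p = p + 1) :
    p < a p := by
  by_contra hc
  push Not at hc
  have hq : HasFix (b * a⁻¹ * b⁻¹) := ha.inv.conj b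
  have h1 := hq.lt p
  have h2 : a ((b * a⁻¹ * b⁻¹) p) = p + 1 := by
    rw [← hp, ← mul_ap, show a * (b * a⁻¹ * b⁻¹) = a * b * a⁻¹ * b⁻¹ by group]
  have h3 : a ((b * a⁻¹ * b⁻¹) p) < a (p + 1) := (lt_iff a).2 h1
  rw [ap_one, h2] at h3
  linarith

/-- `b` moves such a point to the left -/
theorem mv_right {a b : G} (hb : HasFix b) {p : ℝ} (hp : (a * b * a⁻¹ * b⁻¹) p = p + 1) :
    b p < p := by
  have hr : HasFix (a * b * a⁻¹) := hb.conj a
  have h2 : (a * b * a⁻¹) (b⁻¹ p) = p + 1 := by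
    rw [← hp, ← mul_ap]
  have h3 : p < b⁻¹ p := by
    by_contra hc
    push Not at hc
    have h4 : (a * b * a⁻¹) (b⁻¹ p) ≤ (a * b * a⁻¹) p := (le_iff _).2 hc
    have h5 := hr.lt p
    rw [h2] at h4
    linarith
  have := (lt_iff b).2 h3
  rwa [ap_inv] at this

/-- fixed points of conjugates of `a` by `b` come after those of `a` -/
theorem ord_left {a b : G} {p : ℝ} (hp : (a * b * a⁻¹ * b⁻¹) p = p + 1)
    {x x1 : ℝ} (hx : a x = x) (hx1 : a x1 = x1) (h1 : x < p + 1)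
    (h2 : p < b x1) : x < b x1 := by
  by_contra hc
  push Not at hc
  have e1 : (b * a⁻¹ * b⁻¹) (b x1) = b x1 := by
    rw [mul_ap, inv_ap, mul_ap]
    congr 1
    conv_lhs => rw [← hx1, inv_ap]
  have e2 : a ((b * a⁻¹ * b⁻¹) p) = p + 1 := by
    rw [← hp, ← mul_ap, show a * (b * a⁻¹ * b⁻¹) = a * b * a⁻¹ * b⁻¹ by group]
  have h3 : (b * a⁻¹ * b⁻¹) p < (b * a⁻¹ * b⁻¹) (b x1) := (lt_iff _).2 h2
  rw [e1] at h3
  have h4 : a ((b * a⁻¹ * b⁻¹) p) < a x := (lt_iff a).2 (by linarith)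
  rw [e2, hx] at h4
  linarith

/-- fixed points of conjugates of `b` by `a` come before those of `b` -/
theorem ord_right {a b : G} {p : ℝ} (hp : (a * b * a⁻¹ * b⁻¹) p = p + 1)
    {y y1 : ℝ} (hy : b y = y) (hy1 : b y1 = y1) (h0 : p < y)
    (h2 : a y1 < p + 1) : a y1 < y := by
  by_contra hc
  push Not at hc
  have e1 : (a * b * a⁻¹) (a y1) = a y1 := by
    rw [mul_ap, inv_ap, mul_ap, hy1]
  have e2 : (a * b * a⁻¹) (b⁻¹ p) = p + 1 := by
    rw [← hp, ← mul_ap]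
  have h3 : b⁻¹ p < y := by
    have := (lt_iff b⁻¹).2 h0
    rwa [show b⁻¹ y = y by conv_lhs => rw [← hy, inv_ap]] at this
  have h4 : (a * b * a⁻¹) (b⁻¹ p) < (a * b * a⁻¹) (a y1) := (lt_iff _).2 (by linarith)
  rw [e1, e2] at h4
  linarith

/-- **M3**: if `a`, `b` have fixed points and their commutator somewhere is a translation by one,
then `a b` has a fixed point. -/
theorem M3_pos {a b : G} (ha : HasFix a) (hb : HasFix b) {p : ℝ}
    (hp : (a * b * a⁻¹ * b⁻¹) p = p + 1) : HasFix (a * b) := by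
  by_contra hno
  have hap := mv_left ha hp
  have hbp := mv_right hb hp
  obtain ⟨x0, hx0, hx0', hx0f⟩ := ha.near p
  obtain ⟨y0, hy0, hy0', hy0f⟩ := hb.near p
  have hx0p : p < x0 := lt_of_le_of_ne hx0 (by rintro rfl; linarith)
  have hy0p : p < y0 := lt_of_le_of_ne hy0 (by rintro rfl; linarith)
  have dich : (∀ x, x < (a * b) x) ∨ (∀ x, (a * b) x < x) := by
    by_contra hc
    push Not at hc
    obtain ⟨⟨x, hx⟩, ⟨y, hy⟩⟩ := hc
    obtain ⟨z, hz⟩ := ivt (a * b) 0 (x := x) (y := y) (by linarith) (by linarith)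
    exact hno ⟨z, by linarith⟩
  rcases dich with h | h
  · -- `b` has a fixed point between `p` and `x0`
    have h1 : x0 < b x0 := by
      have h2 := h x0
      rw [mul_ap] at h2
      have h3 : a x0 < a (b x0) := by rw [hx0f]; exact h2
      exact (lt_iff a).1 h3
    obtain ⟨y, ⟨hy1, hy2⟩, hyf⟩ := ivt_Icc b hx0 hbp.le h1.le
    have hpy : p < y := lt_of_le_of_ne hy1 (by rintro rfl; linarith)
    have h4 : y < a y := by
      have := h y
      rwa [mul_ap, hyf] at this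
    have h5 : a y ≤ x0 := by
      have := (le_iff a).2 hy2
      rwa [hx0f] at this
    have := ord_right hp hyf hyf hpy (by linarith)
    linarith
  · have h1 : a y0 < y0 := by
      have := h y0
      rwa [mul_ap, hy0f] at this
    have h2 : p + 1 < a (p + 1) := by rw [ap_one]; linarith
    obtain ⟨x, ⟨hx1, hx2⟩, hxf⟩ := ivt_Icc a hy0'.le h1.le h2.le
    have hxp : x < p + 1 := lt_of_le_of_ne hx2 (by rintro rfl; linarith)
    have h3 : b x < x := by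
      have h4 := h x
      rw [mul_ap] at h4
      have h5 : a (b x) < a x := by rw [hxf]; exact h4
      exact (lt_iff a).1 h5
    have h4 : y0 ≤ b x := by
      have := (le_iff b).2 hx1
      rwa [hy0f] at this
    have := ord_left hp hxf hxf hxp (by linarith)
    linarith

theorem M3_neg {a b : G} (ha : HasFix a) (hb : HasFix b) {p : ℝ}
    (hp : (a * b * a⁻¹ * b⁻¹) p = p - 1) : HasFix (a * b) := by
  have h : (b * a * b⁻¹ * a⁻¹) (p - 1) = (p - 1) + 1 := by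
    rw [← hp, show b * a * b⁻¹ * a⁻¹ = (a * b * a⁻¹ * b⁻¹)⁻¹ by group, inv_ap, hp]
    ring
  exact (M3_pos hb ha h).swap

/-- the fixed lift of `a c⁻²` -/
theorem M3_sq {a c : G} (ha : HasFix a) (hc : HasFix c) {p : ℝ}
    (hp : (a * c * a⁻¹ * c⁻¹) p = p + 1) : HasFix (a * c⁻¹ * c⁻¹) := by
  -- `[a, c⁻¹] = c⁻¹ [a, c]⁻¹ c`
  have h0 : (a * c⁻¹ * a⁻¹ * c⁻¹⁻¹) (c⁻¹ (p + 1)) = c⁻¹ (p + 1) - 1 := by
    rw [← mul_ap, show a * c⁻¹ * a⁻¹ * c⁻¹⁻¹ * c⁻¹ = c⁻¹ * (a * c * a⁻¹ * c⁻¹)⁻¹ by group,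
      mul_ap]
    conv_lhs => rw [← hp, inv_ap]
    rw [ap_one]; ring
  have h1 : HasFix (a * c⁻¹) := M3_neg ha hc.inv h0
  refine M3_neg h1 hc.inv (p := c⁻¹ (p + 1)) ?_
  rw [show a * c⁻¹ * c⁻¹ * (a * c⁻¹)⁻¹ * c⁻¹⁻¹ = a * c⁻¹ * a⁻¹ * c⁻¹⁻¹ by group]
  exact h0

/-- the fixed lift of `k a k` -/
theorem M3_kak {k a : G} (hk : HasFix k) (ha : HasFix a) {p : ℝ}
    (hp : (k * a * k⁻¹ * a⁻¹) p = p + 1) : HasFix (k * a * k) := by
  have h1 : HasFix (k * a) := M3_pos hk ha hp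
  refine M3_neg h1 hk (p := k (p + 1)) ?_
  rw [show k * a * k * (k * a)⁻¹ * k⁻¹ = k * (k * a * k⁻¹ * a⁻¹)⁻¹ * k⁻¹ by group,
    mul_ap, inv_ap, mul_ap]
  conv_lhs => rw [← hp, inv_ap]
  rw [ap_one]; ring

/-- **M2** -/
theorem M2 {p p' q q' : G} (hp : HasFix p) (hp' : HasFix p') (hq : HasFix q) (hq' : HasFix q')
    (h : p * p' * q * q' = T ^ (2 : ℤ)) : HasFix (T ^ (-1 : ℤ) * (p * q)) := by
  obtain ⟨x, hx⟩ := hq
  obtain ⟨x', hx'⟩ := hq'
  set s := q⁻¹ * p' * q * q' with hs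
  have h1 : (p * q) * s = T ^ (2 : ℤ) := by rw [hs, ← h]; group
  have h2 : (p * q) x < x + 1 := by rw [mul_ap, hx]; exact hp.lt x
  have h3 : s x' < x' + 1 := by
    rw [hs, mul_ap, hx']
    have := (hp'.conj q⁻¹).lt x'
    rwa [inv_inv] at this
  have h4 : (p * q) (s x') = x' + 2 := by
    rw [← mul_ap, h1, Tz_ap]; norm_num
  obtain ⟨z, hz⟩ := ivt (p * q) 1 h2.le (y := s x') (by rw [h4]; linarith)
  refine ⟨z, ?_⟩
  rw [mul_ap, Tz_ap, hz]
  push_cast; ring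

theorem Tz_conj (n : ℤ) (f g : G) : g * (T ^ n * f) * g⁻¹ = T ^ n * (g * f * g⁻¹) := by
  rw [← mul_assoc g, ← Tz_comm]; group

theorem HasFix.Tconj {f : G} {n : ℤ} (h : HasFix (T ^ n * f)) (g : G) :
    HasFix (T ^ n * (g * f * g⁻¹)) := by
  rw [← Tz_conj]; exact h.conj g

theorem HasFix.Tinv {f : G} {n : ℤ} (h : HasFix (T ^ n * f)) : HasFix (T ^ (-n) * f⁻¹) := by
  have := h.inv
  rwa [mul_inv_rev, ← zpow_neg, ← Tz_comm] at this

/-- the word `z⁻⁴` in the first surface -/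
theorem odd_first {a b c d : G}
    (ha : HasFix a) (hb : HasFix b) (hc : HasFix c) (hd : HasFix d)
    (hR : (b * d * b⁻¹ * d⁻¹) * (a * c * a⁻¹ * c⁻¹) = T ^ (2 : ℤ)) :
    HasFix (T ^ (1 : ℤ) * (c * a⁻¹ * d * d * b⁻¹ * c)) := by
  obtain ⟨p, hp1, hp2⟩ := common hR ha hb
  have ha1 := M3_sq ha hc hp1
  have hb1 := M3_sq hb hd hp2
  set a1 := a * c⁻¹ * c⁻¹ with ha1'
  set b1 := b * d⁻¹ * d⁻¹ with hb1'
  have h1 : b1 * (d * b1⁻¹ * d⁻¹) * a1 * (c * a1⁻¹ * c⁻¹) = T ^ (2 : ℤ) := by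
    rw [← hR, ha1', hb1']; group
  have h2 := (M2 hb1 (hb1.inv.conj d) ha1 (ha1.inv.conj c) h1).Tinv.Tconj c⁻¹
  rw [neg_neg] at h2
  rwa [show c⁻¹ * (b1 * a1)⁻¹ * c⁻¹⁻¹ = c * a⁻¹ * d * d * b⁻¹ * c by
    rw [ha1', hb1']; simp only [mul_inv_rev, inv_inv, mul_assoc, inv_mul_cancel_left]] at h2

/-- the word `z'⁻⁴` in the second surface -/
theorem odd_second {a b k e : G}
    (ha : HasFix a) (hb : HasFix b) (hk : HasFix k) (he : HasFix e)
    (hR : (k * a⁻¹ * k⁻¹ * a) * (e * b⁻¹ * e⁻¹ * b) = T ^ (2 : ℤ)) :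
    HasFix (T ^ (-1 : ℤ) * (e * b⁻¹ * e * k * a⁻¹ * k)) := by
  have hR' : (k * a⁻¹ * k⁻¹ * a⁻¹⁻¹) * (e * b⁻¹ * e⁻¹ * b⁻¹⁻¹) = T ^ (2 : ℤ) := by
    rwa [inv_inv, inv_inv]
  obtain ⟨p, hp1, hp2⟩ := common hR' he hk
  have h1 := M3_kak he hb.inv hp1
  have h2 := M3_kak hk ha.inv hp2
  set u1 := k * a⁻¹ * k with hu1
  set u2 := e * b⁻¹ * e with hu2
  have h3 : u1 * (k⁻¹ * u1⁻¹ * k⁻¹⁻¹) * u2 * (e⁻¹ * u2⁻¹ * e⁻¹⁻¹) = T ^ (2 : ℤ) := by
    rw [← hR, hu1, hu2]; group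
  have h4 := (M2 h2 (h2.inv.conj k⁻¹) h1 (h1.inv.conj e⁻¹) h3).Tconj u1⁻¹
  rwa [show u1⁻¹ * (u1 * u2) * u1⁻¹⁻¹ = e * b⁻¹ * e * k * a⁻¹ * k by
    rw [hu1, hu2]; group] at h4

/-- replacing `f` by a lift with a fixed point -/
theorem exists_fix_lift {f : G} (h : ∃ k : ℤ, HasFix (T ^ k * f)) :
    ∃ (k : ℤ) (g : G), HasFix g ∧ f = T ^ k * g := by
  obtain ⟨k, hk⟩ := h
  exact ⟨-k, T ^ k * f, hk, by rw [← mul_assoc, ← zpow_add, neg_add_cancel, zpow_zero, one_mul]⟩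

section central

variable {K : Type*} [Group K]

theorem cen_conj {z : K} (hz : ∀ g, z * g = g * z) (a g : K) :
    (z * a) * g * (z * a)⁻¹ = a * g * a⁻¹ := by
  rw [show z * a * g * (z * a)⁻¹ = z * (a * g * a⁻¹) * z⁻¹ by group, hz]; group

theorem cen_conj' {z : K} (hz : ∀ g, z * g = g * z) (a g : K) :
    a * (z * g) * a⁻¹ = z * (a * g * a⁻¹) := by
  rw [hz g, show a * (g * z) * a⁻¹ = a * g * (z * a⁻¹) by group, hz a⁻¹,
    show a * g * (a⁻¹ * z) = (a * g * a⁻¹) * z by group, ← hz]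

theorem cen_comm {z w : K} (hz : ∀ g, z * g = g * z) (hw : ∀ g, w * g = g * w) (a c : K) :
    (z * a) * (w * c) * (z * a)⁻¹ * (w * c)⁻¹ = a * c * a⁻¹ * c⁻¹ := by
  rw [cen_conj hz, cen_conj' hw, mul_inv_rev,
    show w * (a * c * a⁻¹) * (c⁻¹ * w⁻¹) = w * (a * c * a⁻¹ * c⁻¹) * w⁻¹ by group, hw]
  group

theorem cen_kak {z : K} (hz : ∀ g, z * g = g * z) (k a : K) :
    (z * k) * a * (z * k) = z * z * (k * a * k) := by
  rw [show z * k * a * (z * k) = z * ((k * a * z) * k) by group, ← hz (k * a)]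
  group

/-- the word identity for the surface `S_y` -/
theorem word_id {a b c d k : K} (h : k * a * k⁻¹ = d * b * d⁻¹) :
    ((k⁻¹ * (d * d * b⁻¹ * c)) * ((d * d * b⁻¹ * c)⁻¹ * k⁻¹ * d * c) *
      (k⁻¹ * (d * d * b⁻¹ * c))⁻¹ * ((d * d * b⁻¹ * c)⁻¹ * k⁻¹ * d * c)⁻¹) *
      (c * a⁻¹ * d * d * b⁻¹ * c)⁻¹ =
    ((c * k⁻¹ * d) * b⁻¹ * (c * k⁻¹ * d) * k * a⁻¹ * k)⁻¹ := by
  have hb : b = d⁻¹ * (k * a * k⁻¹) * d := by rw [h]; group
  subst hb
  simp only [mul_inv_rev, inv_inv, mul_assoc, inv_mul_cancel_left, mul_inv_cancel_left,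
    mul_inv_cancel, inv_mul_cancel, mul_one]

/-- the relator of the second surface -/
theorem word_id2 {a b c d k : K} (h : k * a * k⁻¹ = d * b * d⁻¹) :
    (k * a⁻¹ * k⁻¹ * a) * ((c * k⁻¹ * d) * b⁻¹ * (c * k⁻¹ * d)⁻¹ * b) =
    b⁻¹ * ((b * d * b⁻¹ * d⁻¹) * (a * c * a⁻¹ * c⁻¹)) * b := by
  have hb : b = d⁻¹ * (k * a * k⁻¹) * d := by rw [h]; group
  subst hb
  simp only [mul_inv_rev, inv_inv, mul_assoc, inv_mul_cancel_left, mul_inv_cancel_left,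
    mul_inv_cancel, inv_mul_cancel, mul_one]

end central

/-- equality up to a power of `T` -/
def Eqv (f g : G) : Prop := ∃ m : ℤ, f = T ^ m * g

theorem Eqv.rfl' (f : G) : Eqv f f := ⟨0, by simp⟩

theorem Eqv.of_eq {f g : G} (h : f = g) : Eqv f g := ⟨0, by simp [h]⟩

theorem Eqv.T_mul (m : ℤ) (f : G) : Eqv (T ^ m * f) f := ⟨m, rfl⟩

theorem Eqv.symm {f g : G} (h : Eqv f g) : Eqv g f := by
  obtain ⟨m, rfl⟩ := h
  exact ⟨-m, by rw [← mul_assoc, ← zpow_add, neg_add_cancel, zpow_zero, one_mul]⟩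

theorem Eqv.trans {f g h : G} (h1 : Eqv f g) (h2 : Eqv g h) : Eqv f h := by
  obtain ⟨m, rfl⟩ := h1
  obtain ⟨n, rfl⟩ := h2
  exact ⟨m + n, by rw [← mul_assoc, ← zpow_add]⟩

theorem Eqv.mul {f g f' g' : G} (h1 : Eqv f f') (h2 : Eqv g g') : Eqv (f * g) (f' * g') := by
  obtain ⟨m, rfl⟩ := h1
  obtain ⟨n, rfl⟩ := h2
  exact ⟨m + n, by rw [zpow_add, mul_assoc (T ^ m), ← mul_assoc f', ← Tz_comm n f']; group⟩

theorem Eqv.inv {f f' : G} (h1 : Eqv f f') : Eqv f⁻¹ f'⁻¹ := by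
  obtain ⟨m, rfl⟩ := h1
  exact ⟨-m, by rw [mul_inv_rev, ← zpow_neg, Tz_comm]⟩

/-- **Parity theorem.** In a maximal genus two tuple `(be, h2, al, h1)`, with `k` conjugating
`al` to `h2 be h2⁻¹`, and with `x` conjugating the two boundary words of the third surface, the
Euler number of the tuple `(A⁻¹, B, z4, x⁻¹)` is even. -/
theorem even_of_max {al be h1 h2 k x z4 A B : G}
    (hmax : (be * h2 * be⁻¹ * h2⁻¹) * (al * h1 * al⁻¹ * h1⁻¹) = T ^ (2 : ℤ))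
    (hR2 : Eqv (k * al * k⁻¹) (h2 * be * h2⁻¹))
    (hz4 : Eqv z4⁻¹ (h1 * al⁻¹ * h2 * h2 * be⁻¹ * h1))
    (hx : Eqv (x⁻¹ * z4⁻¹ * x)
      ((h1 * k⁻¹ * h2) * be⁻¹ * (h1 * k⁻¹ * h2) * k * al⁻¹ * k))
    (hA : Eqv A⁻¹ (k⁻¹ * (h2 * h2 * be⁻¹ * h1)))
    (hB : Eqv B ((h2 * h2 * be⁻¹ * h1)⁻¹ * k⁻¹ * h2 * h1)) :
    ∃ n : ℤ, (A⁻¹ * B * A⁻¹⁻¹ * B⁻¹) * (z4 * x⁻¹ * z4⁻¹ * x⁻¹⁻¹) = T ^ (2 * n) := by
  obtain ⟨m1, m2⟩ := M1 hmax
  obtain ⟨m3, m4⟩ := M1 (swap_two hmax)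
  obtain ⟨i1, a, ha, rfl⟩ := exists_fix_lift m1
  obtain ⟨i2, c, hc, rfl⟩ := exists_fix_lift m2
  obtain ⟨i3, b, hb, rfl⟩ := exists_fix_lift m3
  obtain ⟨i4, d, hd, rfl⟩ := exists_fix_lift m4
  clear m1 m2 m3 m4
  rw [cen_comm (Tz_comm _) (Tz_comm _), cen_comm (Tz_comm _) (Tz_comm _)] at hmax
  have ea := Eqv.T_mul i1 a
  have ec := Eqv.T_mul i2 c
  have eb := Eqv.T_mul i3 b
  have ed := Eqv.T_mul i4 d
  have hkk : k * a * k⁻¹ = d * b * d⁻¹ := by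
    have h1 : Eqv (k * a * k⁻¹) (d * b * d⁻¹) :=
      (((Eqv.rfl' k).mul ea.symm).mul (Eqv.rfl' k⁻¹)).trans
        (hR2.trans ((ed.mul eb).mul ed.inv))
    obtain ⟨m, hm⟩ := h1
    have h2 : HasFix (T ^ m * (d * b * d⁻¹)) := by rw [← hm]; exact ha.conj k
    have h3 : HasFix (T ^ (0 : ℤ) * (d * b * d⁻¹)) := by
      rw [zpow_zero, one_mul]; exact hb.conj d
    rw [hm, h2.unique h3, zpow_zero, one_mul]
  -- the second surface
  have hmax2 : (k * a⁻¹ * k⁻¹ * a) * ((c * k⁻¹ * d) * b⁻¹ * (c * k⁻¹ * d)⁻¹ * b) =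
      T ^ (2 : ℤ) := by
    rw [word_id2 hkk, hmax, ← Tz_comm, mul_assoc, inv_mul_cancel, mul_one]
  have hmax2' : (k * a⁻¹ * k⁻¹ * a⁻¹⁻¹) * ((c * k⁻¹ * d) * b⁻¹ * (c * k⁻¹ * d)⁻¹ * b⁻¹⁻¹) =
      T ^ (2 : ℤ) := by rw [inv_inv, inv_inv]; exact hmax2
  obtain ⟨l2, e, he, hle⟩ := exists_fix_lift (M1 hmax2').1
  obtain ⟨l1, k0, hk0, hlk⟩ := exists_fix_lift (M1 (swap_two hmax2')).1
  have hmax3 : (k0 * a⁻¹ * k0⁻¹ * a) * (e * b⁻¹ * e⁻¹ * b) = T ^ (2 : ℤ) := by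
    rw [hle, hlk, cen_conj (Tz_comm _), cen_conj (Tz_comm _)] at hmax2
    exact hmax2
  have f1 := odd_first ha hb hc hd hmax
  have f2 := odd_second ha hb hk0 he hmax3
  set W := c * a⁻¹ * d * d * b⁻¹ * c with hW
  set W' := (c * k⁻¹ * d) * b⁻¹ * (c * k⁻¹ * d) * k * a⁻¹ * k with hW'
  have hWW : W' = T ^ (2 * (l1 + l2)) * (e * b⁻¹ * e * k0 * a⁻¹ * k0) := by
    have e1 : (c * k⁻¹ * d) * b⁻¹ * (c * k⁻¹ * d) = T ^ l2 * T ^ l2 * (e * b⁻¹ * e) := by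
      rw [hle, cen_kak (Tz_comm _)]
    have e2 : k * a⁻¹ * k = T ^ l1 * T ^ l1 * (k0 * a⁻¹ * k0) := by
      rw [hlk, cen_kak (Tz_comm _)]
    rw [hW', show (c * k⁻¹ * d) * b⁻¹ * (c * k⁻¹ * d) * k * a⁻¹ * k =
      ((c * k⁻¹ * d) * b⁻¹ * (c * k⁻¹ * d)) * (k * a⁻¹ * k) by simp only [mul_assoc], e1, e2,
      ← zpow_add, ← zpow_add, mul_assoc (T ^ (l2 + l2)), ← mul_assoc (e * b⁻¹ * e),
      ← Tz_comm (l1 + l1), mul_assoc (T ^ (l1 + l1)), ← mul_assoc, ← zpow_add]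
    congr 1
    · congr 1; ring
  have z1 : Eqv z4⁻¹ W := hz4.trans (((((ec.mul ea.inv).mul ed).mul ed).mul eb.inv).mul ec)
  have x1 : Eqv (x⁻¹ * W * x) W' := by
    have q : Eqv (c * k⁻¹ * d) ((T ^ i2 * c) * k⁻¹ * (T ^ i4 * d)) :=
      (ec.symm.mul (Eqv.rfl' _)).mul ed.symm
    exact (((Eqv.rfl' _).mul z1.symm).mul (Eqv.rfl' _)).trans (hx.trans
      (((((q.symm.mul eb.inv).mul q.symm).mul (Eqv.rfl' k)).mul ea.inv).mul (Eqv.rfl' k)))
  obtain ⟨t, ht⟩ := x1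
  have key : t = 2 * (-1 - (l1 + l2)) := by
    have g1 := f1.Tconj x⁻¹
    rw [inv_inv, ht, hWW, ← mul_assoc, ← mul_assoc, ← zpow_add, ← zpow_add] at g1
    have := g1.unique f2
    linarith
  obtain ⟨s, hs⟩ := z1
  have z2 : z4 = T ^ (-s) * W⁻¹ := by
    rw [← inv_inv z4, hs, mul_inv_rev, ← zpow_neg, Tz_comm]
  have hA2 : Eqv A⁻¹ (k⁻¹ * (d * d * b⁻¹ * c)) :=
    hA.trans ((Eqv.rfl' _).mul (((ed.mul ed).mul eb.inv).mul ec))
  have hB2 : Eqv B ((d * d * b⁻¹ * c)⁻¹ * k⁻¹ * d * c) :=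
    hB.trans ((((((ed.mul ed).mul eb.inv).mul ec).inv.mul (Eqv.rfl' _)).mul ed).mul ec)
  obtain ⟨mA, hA3⟩ := hA2
  obtain ⟨mB, hB3⟩ := hB2
  refine ⟨-1 - (l1 + l2), ?_⟩
  have c1 : A⁻¹ * B * A⁻¹⁻¹ * B⁻¹ =
      (k⁻¹ * (d * d * b⁻¹ * c)) * ((d * d * b⁻¹ * c)⁻¹ * k⁻¹ * d * c) *
      (k⁻¹ * (d * d * b⁻¹ * c))⁻¹ * ((d * d * b⁻¹ * c)⁻¹ * k⁻¹ * d * c)⁻¹ := by
    rw [hA3, hB3, cen_comm (Tz_comm _) (Tz_comm _)]
  have c2 : z4 * x⁻¹ * z4⁻¹ * x⁻¹⁻¹ = W⁻¹ * (T ^ t * W') := by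
    have := cen_comm (z := T ^ (-s)) (w := 1) (Tz_comm _) (fun g => by simp) W⁻¹ x⁻¹
    rw [one_mul] at this
    rw [z2, this, inv_inv, inv_inv, mul_assoc, mul_assoc, ← mul_assoc x⁻¹, ht]
  rw [c1, c2, ← mul_assoc, word_id hkk, ← hW', ← mul_assoc, ← Tz_comm, mul_assoc,
    inv_mul_cancel, mul_one, key]

/-! ### The group level -/

section group

variable {Γ : Type*} [Group Γ]

/-- `L` is a system of lifts of a homomorphism of `Γ` to the group of circle homeomorphisms: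
a homomorphism up to powers of `T`. -/
def IsLift (L : Γ → G) : Prop := ∀ g h, Eqv (L (g * h)) (L g * L h)

theorem IsLift.one {L : Γ → G} (hL : IsLift L) : Eqv (L 1) 1 := by
  have := hL 1 1
  rw [one_mul] at this
  have h := this.mul (Eqv.rfl' (L 1)⁻¹)
  rw [mul_inv_cancel, mul_assoc, mul_inv_cancel, mul_one] at h
  exact h.symm

theorem IsLift.inv {L : Γ → G} (hL : IsLift L) (g : Γ) : Eqv (L g⁻¹) (L g)⁻¹ := by
  have := hL g⁻¹ g
  rw [inv_mul_cancel] at this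
  have h := (hL.one.symm.trans this).mul (Eqv.rfl' (L g)⁻¹)
  rw [one_mul, mul_assoc, mul_inv_cancel, mul_one] at h
  exact h.symm

theorem comm_Eqv {a b a' b' : G} (ha : Eqv a a') (hb : Eqv b b') :
    a * b * a⁻¹ * b⁻¹ = a' * b' * a'⁻¹ * b'⁻¹ := by
  obtain ⟨m, rfl⟩ := ha
  obtain ⟨n, rfl⟩ := hb
  exact cen_comm (Tz_comm _) (Tz_comm _) _ _

/-- **Parity theorem, group level.** -/
theorem IsLift.even_of_max {L : Γ → G} (hL : IsLift L) {al be h1 h2 k x z4 A B : Γ}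
    (hR2 : k * al * k⁻¹ = h2 * be * h2⁻¹)
    (hz4 : z4⁻¹ = h1 * al⁻¹ * h2 * h2 * be⁻¹ * h1)
    (hx : x⁻¹ * z4⁻¹ * x = (h1 * k⁻¹ * h2) * be⁻¹ * (h1 * k⁻¹ * h2) * k * al⁻¹ * k)
    (hA : A⁻¹ = k⁻¹ * (h2 * h2 * be⁻¹ * h1))
    (hB : B = (h2 * h2 * be⁻¹ * h1)⁻¹ * k⁻¹ * h2 * h1)
    (hmax : (L be * L h2 * (L be)⁻¹ * (L h2)⁻¹) * (L al * L h1 * (L al)⁻¹ * (L h1)⁻¹) =
      T ^ (2 : ℤ)) :
    ∃ n : ℤ, (L A⁻¹ * L B * (L A⁻¹)⁻¹ * (L B)⁻¹) *
      (L z4 * L x⁻¹ * (L z4)⁻¹ * (L x⁻¹)⁻¹) = T ^ (2 * n) := by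
  have I := fun g => hL.inv g
  have M := fun g h => hL g h
  have mul2 : ∀ {f f' g g' : G}, Eqv f f' → Eqv g g' → Eqv (f * g) (f' * g') :=
    fun h1 h2 => h1.mul h2
  have hE : ∀ {g h : Γ}, g = h → Eqv (L g) (L h) := fun h => Eqv.of_eq (by rw [h])
  have P : Eqv (L (h2 * h2 * be⁻¹ * h1)) (L h2 * L h2 * (L be)⁻¹ * L h1) :=
    (M _ _).trans (mul2 ((M _ _).trans (mul2 (M _ _) (I _))) (Eqv.rfl' _))
  have e : Eqv (L (h1 * k⁻¹ * h2)) (L h1 * (L k)⁻¹ * L h2) :=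
    (M _ _).trans (mul2 ((M _ _).trans (mul2 (Eqv.rfl' _) (I _))) (Eqv.rfl' _))
  have key := Rigid.even_of_max (al := L al) (be := L be) (h1 := L h1) (h2 := L h2) (k := L k)
    (x := L x) (z4 := L z4) (A := L A) (B := L B) hmax ?_ ?_ ?_ ?_ ?_
  · obtain ⟨n, hn⟩ := key
    refine ⟨n, ?_⟩
    rw [← hn, comm_Eqv (I A) (Eqv.rfl' _), comm_Eqv (Eqv.rfl' (L z4)) (I x)]
  · exact ((mul2 (M _ _) (Eqv.rfl' _)).symm.trans ((mul2 (Eqv.rfl' _) (I k)).symm.trans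
      (M _ _).symm)).trans ((hE hR2).trans ((M _ _).trans (mul2 (M _ _) (I _))))
  · exact (I _).symm.trans ((hE hz4).trans ((M _ _).trans (mul2 ((M _ _).trans (mul2
      ((M _ _).trans (mul2 ((M _ _).trans (mul2 ((M _ _).trans (mul2 (Eqv.rfl' _) (I _)))
      (Eqv.rfl' _))) (Eqv.rfl' _))) (I _))) (Eqv.rfl' _))))
  · refine (((mul2 (mul2 (I x).symm (I z4).symm) (Eqv.rfl' (L x)))).trans
      ((mul2 (M _ _).symm (Eqv.rfl' _)).trans (M _ _).symm)).trans ((hE hx).trans ?_)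
    exact (M _ _).trans (mul2 ((M _ _).trans (mul2 ((M _ _).trans (mul2 ((M _ _).trans
      (mul2 ((M _ _).trans (mul2 e (I _))) e)) (Eqv.rfl' _))) (I _))) (Eqv.rfl' _))
  · exact (I _).symm.trans ((hE hA).trans ((M _ _).trans (mul2 (I _) P)))
  · exact (hE hB).trans ((M _ _).trans (mul2 ((M _ _).trans (mul2 ((M _ _).trans (mul2
      ((I _).trans P.inv) (I _))) (Eqv.rfl' _))) (Eqv.rfl' _)))

end group

end Pool.Agent.EC.Rigid
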