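import Pool.Agent.EC.Ext
import Pool.Agent.EC.Rigid

/-!
# Non-realisability: the group level

The parity theorem of `Rigid.lean` for homomorphisms `ρ : Γ → Homeo₊(S¹)`: if the Euler number of
`ρ` on the genus two surface `Sx` is `2`, then its Euler number on the genus two surface `Sy` is
even. Hence a class with the values `2` and `1` is not the real Euler class of any `ρ`.
-/

set_option autoImplicit false

namespace Pool.Agent.EC

open scoped commutatorElement

variable {Γ : Type} [Group Γ]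

theorem lift_surfRel_two {K : Type*} [Group K] (F : Fin 2 × Bool → K) :
    FreeGroup.lift F (SurfRel 2) =
      (F (0, false) * F (0, true) * (F (0, false))⁻¹ * (F (0, true))⁻¹) *
        (F (1, false) * F (1, true) * (F (1, false))⁻¹ * (F (1, true))⁻¹) := by
  rw [ZExt.lift_surfRel, List.ofFn_succ, List.ofFn_succ, List.ofFn_zero, List.prod_cons,
    List.prod_cons, List.prod_nil, mul_one]
  rfl

theorem Rigid_T_eq : Rigid.T = shift := rfl

/-- A system of lifts of a homomorphism to the group of the homeomorphisms of the circle. -/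
theorem isLift_of_cov {ρ : Γ →* HomeoPlus} {L : Γ → CircleDeg1Liftˣ} (hL : ∀ g, cov (L g) = ρ g) :
    Rigid.IsLift L := by
  intro g h
  have h1 : cov (L (g * h)) = cov (L g * L h) := by rw [map_mul, hL, hL, hL, map_mul]
  obtain ⟨n, hn⟩ := (cov_eq_cov_iff _ _).1 h1
  refine ⟨n, ?_⟩
  rw [Rigid_T_eq, hn]
  exact ((shift_zpow_commute n (L g * L h)).eq).symm

/-- **Parity.** A homomorphism to the group of the orientation preserving homeomorphisms of the
circle which is maximal on the genus two surface `Sx` has an even Euler number on `Sy`. -/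
theorem parity (Sx Sy : SurfGroup 2 →* Γ) {al be h1 h2 k x z4 A B : Γ}
    (hR2 : k * al * k⁻¹ = h2 * be * h2⁻¹)
    (hz4 : z4⁻¹ = h1 * al⁻¹ * h2 * h2 * be⁻¹ * h1)
    (hx : x⁻¹ * z4⁻¹ * x = (h1 * k⁻¹ * h2) * be⁻¹ * (h1 * k⁻¹ * h2) * k * al⁻¹ * k)
    (hA : A⁻¹ = k⁻¹ * (h2 * h2 * be⁻¹ * h1))
    (hB : B = (h2 * h2 * be⁻¹ * h1)⁻¹ * k⁻¹ * h2 * h1)
    (hSx0 : Sx (PresentedGroup.of (0, false)) = be) (hSx1 : Sx (PresentedGroup.of (0, true)) = h2)
    (hSx2 : Sx (PresentedGroup.of (1, false)) = al) (hSx3 : Sx (PresentedGroup.of (1, true)) = h1)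
    (hSy0 : Sy (PresentedGroup.of (0, false)) = A⁻¹) (hSy1 : Sy (PresentedGroup.of (0, true)) = B)
    (hSy2 : Sy (PresentedGroup.of (1, false)) = z4)
    (hSy3 : Sy (PresentedGroup.of (1, true)) = x⁻¹)
    (ρ : Γ →* HomeoPlus) (hmax : ZExt.circle.eval (ρ.comp Sx) = 2) :
    Even (ZExt.circle.eval (ρ.comp Sy)) := by
  choose L hL using fun g : Γ => cov_surjective (ρ g)
  have key := (isLift_of_cov hL).even_of_max hR2 hz4 hx hA hB ?_
  · obtain ⟨n, hn⟩ := key
    refine ⟨n, ?_⟩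
    have hn2 : (L A⁻¹ * L B * (L A⁻¹)⁻¹ * (L B)⁻¹) * (L z4 * L x⁻¹ * (L z4)⁻¹ * (L x⁻¹)⁻¹) =
        shift ^ (n + n) := by
      rw [hn, two_mul]
      rfl
    have h3 := ZExt.circle.eval_eq (φ := ρ.comp Sy)
      (F := fun i => L (Sy (PresentedGroup.of i))) (fun i => hL _) (n := n + n) (by
        rw [lift_surfRel_two, hSy0, hSy1, hSy2, hSy3]
        exact hn2)
    exact h3
  · have h4 := ZExt.circle.eval_spec (ρ.comp Sx) (fun i => L (Sx (PresentedGroup.of i)))
      (fun i => hL _)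
    rw [lift_surfRel_two, hSx0, hSx1, hSx2, hSx3, hmax] at h4
    exact h4

/-- A class with the values `2` on `Sx` and `1` on `Sy` is not the real Euler class of an action
on the circle. -/
theorem not_realEq (Sx Sy : SurfGroup 2 →* Γ) {al be h1 h2 k x z4 A B : Γ}
    (hR2 : k * al * k⁻¹ = h2 * be * h2⁻¹)
    (hz4 : z4⁻¹ = h1 * al⁻¹ * h2 * h2 * be⁻¹ * h1)
    (hx : x⁻¹ * z4⁻¹ * x = (h1 * k⁻¹ * h2) * be⁻¹ * (h1 * k⁻¹ * h2) * k * al⁻¹ * k)
    (hA : A⁻¹ = k⁻¹ * (h2 * h2 * be⁻¹ * h1))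
    (hB : B = (h2 * h2 * be⁻¹ * h1)⁻¹ * k⁻¹ * h2 * h1)
    (hSx0 : Sx (PresentedGroup.of (0, false)) = be) (hSx1 : Sx (PresentedGroup.of (0, true)) = h2)
    (hSx2 : Sx (PresentedGroup.of (1, false)) = al) (hSx3 : Sx (PresentedGroup.of (1, true)) = h1)
    (hSy0 : Sy (PresentedGroup.of (0, false)) = A⁻¹) (hSy1 : Sy (PresentedGroup.of (0, true)) = B)
    (hSy2 : Sy (PresentedGroup.of (1, false)) = z4)
    (hSy3 : Sy (PresentedGroup.of (1, true)) = x⁻¹)
    (a : ZExt Γ) (h2x : a.eval Sx = 2) (h1y : a.eval Sy = 1) (ρ : Γ →* HomeoPlus) :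
    ¬ ZExt.RealEq (ZExt.circle.pullback ρ) a := by
  intro h
  have e1 := h.eval_eq Sx
  have e2 := h.eval_eq Sy
  rw [ZExt.eval_pullback, h2x] at e1
  rw [ZExt.eval_pullback, h1y] at e2
  have h5 := parity Sx Sy hR2 hz4 hx hA hB hSx0 hSx1 hSx2 hSx3 hSy0 hSy1 hSy2 hSy3 ρ e1
  rw [e2] at h5
  exact absurd h5 (by decide)

/-! ### Transport along isomorphisms -/

namespace ZExt

variable {G H K : Type} [Group G] [Group H] [Group K]

/-- The pullback of a pullback has the same values as the pullback along the composition. -/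
theorem eval_pullback_pullback (X : ZExt G) (f : H →* G) (h : K →* H) {g : ℕ}
    (φ : SurfGroup g →* K) :
    ((X.pullback f).pullback h).eval φ = (X.pullback (f.comp h)).eval φ := by
  rw [eval_pullback, eval_pullback, eval_pullback]
  rfl

theorem eval_pullback_symm (X : ZExt G) (f : H ≃* G) {g : ℕ} (φ : SurfGroup g →* H) :
    X.eval (f.toMonoidHom.comp φ) = (X.pullback f.toMonoidHom).eval φ :=
  (X.eval_pullback _ _).symm

/-- The projection of the pulled back extension to the extension. -/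
def snd (X : ZExt G) (ρ : H →* G) : (X.pullback ρ).E →* X.E :=
  (MonoidHom.snd H X.E).comp (Subgroup.subtype
    ((ρ.comp (MonoidHom.fst H X.E)).eqLocus (X.π.comp (MonoidHom.snd H X.E))))

/-- An element of the pulled back extension. -/
def pb (X : ZExt G) (ρ : H →* G) (h : H) (e : X.E) (w : ρ h = X.π e) : (X.pullback ρ).E :=
  ⟨(h, e), w⟩

theorem pb_ext (X : ZExt G) (ρ : H →* G) {p q : (X.pullback ρ).E}
    (h1 : (X.pullback ρ).π p = (X.pullback ρ).π q) (h2 : X.snd ρ p = X.snd ρ q) : p = q :=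
  Subtype.ext (Prod.ext h1 h2)

theorem snd_t (X : ZExt G) (ρ : H →* G) : X.snd ρ (X.pullback ρ).t = X.t := rfl

theorem snd_w (X : ZExt G) (ρ : H →* G) (p : (X.pullback ρ).E) :
    ρ ((X.pullback ρ).π p) = X.π (X.snd ρ p) := p.2

theorem π_pb (X : ZExt G) (ρ : H →* G) (h : H) (e : X.E) (w : ρ h = X.π e) :
    (X.pullback ρ).π (X.pb ρ h e w) = h := rfl

theorem snd_pb (X : ZExt G) (ρ : H →* G) (h : H) (e : X.E) (w : ρ h = X.π e) :
    X.snd ρ (X.pb ρ h e w) = e := rfl

/-- Pulled back real equality. -/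
theorem RealEq.pullback {X Y : ZExt G} (h : RealEq X Y) (f : H →* G) :
    RealEq (X.pullback f) (Y.pullback f) := by
  obtain ⟨s, s', c, c', b, hs, hs', hc, hc', hb⟩ := h
  refine ⟨fun g => X.pb f g (s (f g)) (hs (f g)).symm,
    fun g => Y.pb f g (s' (f g)) (hs' (f g)).symm,
    fun g h => c (f g) (f h), fun g h => c' (f g) (f h), fun g => b (f g), fun g => rfl,
    fun g => rfl, fun g h => X.pb_ext f ?_ ?_, fun g h => Y.pb_ext f ?_ ?_, ?_⟩
  · rw [map_mul, map_mul, map_zpow_t, mul_one]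
    rfl
  · rw [map_mul, map_mul, map_zpow, snd_t]
    simp only [snd_pb, map_mul]
    exact hc _ _
  · rw [map_mul, map_mul, map_zpow_t, mul_one]
    rfl
  · rw [map_mul, map_mul, map_zpow, snd_t]
    simp only [snd_pb, map_mul]
    exact hc' _ _
  · intro g h
    show (c (f g) (f h) : ℝ) - c' (f g) (f h) = b (f g) + b (f h) - b (f (g * h))
    rw [map_mul]
    exact hb _ _

end ZExt

/-- Non-realisability is invariant under isomorphisms of the group. -/
theorem not_realEq_transport {G H : Type} [Group G] [Group H] (f : H ≃* G) (a : ZExt G)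
    (h : ∀ ρ : G →* HomeoPlus, ¬ ZExt.RealEq (ZExt.circle.pullback ρ) a) (ρ : H →* HomeoPlus) :
    ¬ ZExt.RealEq (ZExt.circle.pullback ρ) (a.pullback f.toMonoidHom) := by
  rintro ⟨s, s', c, c', b, hs, hs', hc, hc', hb⟩
  apply h (ρ.comp f.symm.toMonoidHom)
  have e : ∀ g : G, f (f.symm g) = g := fun g => f.apply_symm_apply g
  refine ⟨fun g => ZExt.circle.pb (ρ.comp f.symm.toMonoidHom) g
      (ZExt.circle.snd ρ (s (f.symm g))) ?_,
    fun g => a.snd f.toMonoidHom (s' (f.symm g)),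
    fun g h => c (f.symm g) (f.symm h), fun g h => c' (f.symm g) (f.symm h),
    fun g => b (f.symm g), fun g => rfl, ?_, fun g h => ZExt.pb_ext _ _ ?_ ?_, ?_, ?_⟩
  · rw [← ZExt.snd_w, hs]
    rfl
  · intro g
    rw [← ZExt.snd_w, hs']
    exact e g
  · rw [map_mul, map_mul, ZExt.map_zpow_t, mul_one]
    rfl
  · have h1 := congrArg (ZExt.circle.snd ρ) (hc (f.symm g) (f.symm h))
    rw [map_mul, map_mul, map_zpow, ZExt.snd_t, ← map_mul f.symm] at h1
    rw [map_mul, map_mul, map_zpow, ZExt.snd_t]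
    simp only [ZExt.snd_pb]
    exact h1
  · intro g h
    have h1 := congrArg (a.snd f.toMonoidHom) (hc' (f.symm g) (f.symm h))
    rw [map_mul, map_mul, map_zpow, ZExt.snd_t, ← map_mul f.symm] at h1
    exact h1
  · intro g h
    have h1 := hb (f.symm g) (f.symm h)
    rw [← map_mul] at h1
    exact h1

end Pool.Agent.EC
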