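import Pool.Agent.EC.GamGen

/-!
# The closed hyperbolic manifold of the second example (the even class)

`Gam8` is the stabiliser of the point `0` for the action of `G` on eight points in which `x`, `y`,
`z` act by `(1 2 4 7)(5 6)`, `(0 1)(2 5)(3 4)(6 7)`, `(0 1 3 4)(2 6 7 5)`.
-/

set_option autoImplicit false
set_option maxRecDepth 100000

namespace Pool.Agent.EC
namespace Lam

/-- The permutation `(1 2 4 7)(5 6)`. -/
def qX : Equiv.Perm (Fin 8) :=
  ⟨![0, 2, 4, 3, 7, 6, 5, 1], ![0, 7, 1, 3, 2, 6, 5, 4], by decide, by decide⟩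

/-- The permutation `(0 1)(2 5)(3 4)(6 7)`. -/
def qY : Equiv.Perm (Fin 8) :=
  ⟨![1, 0, 5, 4, 3, 2, 7, 6], ![1, 0, 5, 4, 3, 2, 7, 6], by decide, by decide⟩

/-- The permutation `(0 1 3 4)(2 6 7 5)`. -/
def qZ : Equiv.Perm (Fin 8) :=
  ⟨![1, 3, 6, 4, 0, 2, 7, 5], ![4, 0, 5, 1, 3, 7, 2, 6], by decide, by decide⟩

theorem rel_q : GRel qX qY qZ where
  hZ := by ext j; revert j; decide
  hX := by ext j; revert j; decide
  hY := by ext j; revert j; decide
  cX := by ext j; revert j; decide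
  cY := by ext j; revert j; decide
  cZ := by ext j; revert j; decide

/-- The permutation representation of `G` on eight points. -/
noncomputable def sig8 : G →* Equiv.Perm (Fin 8) := gLift rel_q

theorem sig8_x : sig8 ⟨x, x_mem⟩ = qX := gLift_x rel_q
theorem sig8_y : sig8 ⟨y, y_mem⟩ = qY := gLift_y rel_q
theorem sig8_z : sig8 ⟨z, z_mem⟩ = qZ := gLift_z rel_q

/-- The fundamental group of the second example. -/
noncomputable def Gam8 : Subgroup W := stabF rel_q 0

theorem mem_Gam8_iff (w : G) : w.1 ∈ Gam8 ↔ sig8 w 0 = 0 := mem_stabF w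

theorem Gam8_le_G : Gam8 ≤ G := stabF_le _ _

theorem Gam8_finiteIndex : Gam8.FiniteIndex := stabF_finiteIndex _ _

theorem qfX : ∀ f, (qY * qZ⁻¹ * qY⁻¹ * qZ) f ≠ f := by decide
theorem qfY : ∀ f, (qZ * qX⁻¹ * qZ⁻¹ * qX) f ≠ f := by decide
theorem qfZ : ∀ f, (qX * qY⁻¹ * qX⁻¹ * qY) f ≠ f := by decide

theorem Gam8_avoid : Avoid Gam8 := stabF_avoid rel_q 0 qfX qfY qfZ

/-- `Gam8` acts freely on the hyperbolic space. -/
theorem Gam8_free {w : W} (hw : w ∈ Gam8) {p : V4} (hp : p ∈ H3) (h : rho w p = p) : w = 1 :=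
  free_of_avoid Gam8_le_G Gam8_avoid hw hp h

end Lam

/-- The second example is a closed orientable hyperbolic 3-manifold. -/
theorem closedHyp_Gam8 : ClosedHyp (Lam.Gam8.map Lam.rho) :=
  Lam.closedHyp_stabF Lam.rel_q 0 Lam.qfX Lam.qfY Lam.qfZ

/-- Its first Betti number is positive. -/
theorem bettiPos_Gam8 : BettiPos (Lam.Gam8.map Lam.rho) := Lam.bettiPos_stabF Lam.rel_q 0

/-- The isomorphism of `Γ` with its image. -/
noncomputable def gam8Iso : Lam.Gam8 ≃* Lam.Gam8.map Lam.rho :=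
  Lam.Gam8.equivMapOfInjective Lam.rho Lam.rho_injective

theorem gam8Iso_apply (w : Lam.Gam8) : ((gam8Iso w : Lam.Gam8.map Lam.rho) : V4 ≃ₗ[ℝ] V4) =
    Lam.rho w := rfl

end Pool.Agent.EC
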