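import Pool.Agent.EC.Words
import Pool.Agent.EC.Q8
import Pool.Agent.EC.NotReal

/-!
# The second example: lifts of the arrows of the eight point set

A system of lifts `L` over `Gam8` (the stabiliser of `0`) gives lifts `X q`, `Y q`, `Z q` of the
arrows `q ⟶ x q`, `q ⟶ y q`, `q ⟶ z q`.  If `L` is maximal on the two genus two surfaces over the
quadrilateral group, these satisfy the hypotheses of the rigidity theorem.
-/

set_option autoImplicit false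

namespace Pool.Agent.EC.Bridge8

open Lam Words Rigid

/-- `x` in `G` -/
noncomputable def ex : Lam.G := ⟨x, x_mem⟩
/-- `y` in `G` -/
noncomputable def ey : Lam.G := ⟨y, y_mem⟩
/-- `z` in `G` -/
noncomputable def ez : Lam.G := ⟨z, z_mem⟩

theorem sig_ex : sig8 ex = qX := sig8_x
theorem sig_ey : sig8 ey = qY := sig8_y
theorem sig_ez : sig8 ez = qZ := sig8_z

theorem relG8 : GRel ex ey ez where
  hZ := Subtype.ext rel_W.hZ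
  hX := Subtype.ext rel_W.hX
  hY := Subtype.ext rel_W.hY
  cX := Subtype.ext rel_W.cX
  cY := Subtype.ext rel_W.cY
  cZ := Subtype.ext rel_W.cZ

/-- an element of `Gam8` -/
noncomputable def mk8 (w : Lam.G) (h : sig8 w 0 = 0) : Gam8 := ⟨w.1, (mem_Gam8_iff w).2 h⟩

/-- The inclusion of `Gam8`. -/
noncomputable def inc8 : Gam8 →* Lam.G := Subgroup.inclusion Gam8_le_G

theorem inc8_injective : Function.Injective inc8 := Subgroup.inclusion_injective Gam8_le_G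

theorem inc8_mk8 (w : Lam.G) (h : sig8 w 0 = 0) : inc8 (mk8 w h) = w := rfl

/-- the transversal -/
noncomputable def tau : Fin 8 → Lam.G :=
  ![1, ey, ex * ey, ez * ey, ez⁻¹, ey * ex * ey, ey * ex⁻¹ * ey, ex⁻¹ * ey]

theorem sig8_tau (q : Fin 8) : sig8 (tau q) 0 = q := by
  fin_cases q
  · change sig8 1 0 = 0
    rw [map_one]; rfl
  · change sig8 ey 0 = 1
    rw [sig_ey]; decide
  · change sig8 (ex * ey) 0 = 2
    rw [map_mul, sig_ex, sig_ey]; decide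
  · change sig8 (ez * ey) 0 = 3
    rw [map_mul, sig_ez, sig_ey]; decide
  · change sig8 ez⁻¹ 0 = 4
    rw [map_inv, sig_ez]; decide
  · change sig8 (ey * ex * ey) 0 = 5
    rw [map_mul, map_mul, sig_ex, sig_ey]; decide
  · change sig8 (ey * ex⁻¹ * ey) 0 = 6
    rw [map_mul, map_mul, map_inv, sig_ex, sig_ey]; decide
  · change sig8 (ex⁻¹ * ey) 0 = 7
    rw [map_mul, map_inv, sig_ex, sig_ey]; decide

theorem tau_zero : tau 0 = 1 := rfl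

theorem arrow_mem (g : Lam.G) (q : Fin 8) : sig8 ((tau (sig8 g q))⁻¹ * g * tau q) 0 = 0 := by
  rw [map_mul, map_mul, Equiv.Perm.mul_apply, Equiv.Perm.mul_apply, sig8_tau, map_inv,
    Equiv.Perm.inv_eq_iff_eq, sig8_tau]

/-- the arrow `g` from `q` to `g q`, as an element of `Gam8` -/
noncomputable def arrow (g : Lam.G) (q : Fin 8) : Gam8 :=
  mk8 ((tau (sig8 g q))⁻¹ * g * tau q) (arrow_mem g q)

theorem inc8_arrow (g : Lam.G) (q : Fin 8) :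
    inc8 (arrow g q) = (tau (sig8 g q))⁻¹ * g * tau q := rfl

theorem arrow_mul (g h : Lam.G) (q : Fin 8) :
    arrow (g * h) q = arrow g (sig8 h q) * arrow h q := by
  apply inc8_injective
  rw [map_mul, inc8_arrow, inc8_arrow, inc8_arrow, map_mul, Equiv.Perm.mul_apply]
  group

theorem arrow_one (q : Fin 8) : arrow 1 q = 1 := by
  apply inc8_injective
  rw [map_one, inc8_arrow, map_one, Equiv.Perm.one_apply]
  group

theorem arrow_inv (g : Lam.G) (q : Fin 8) : arrow g⁻¹ q = (arrow g (sig8 g⁻¹ q))⁻¹ := by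
  have h := arrow_mul g g⁻¹ q
  rw [mul_inv_cancel, arrow_one] at h
  exact eq_inv_of_mul_eq_one_right h.symm

/-- a system of lifts of the arrows -/
def GLift (A : Lam.G → Fin 8 → Rigid.G) : Prop :=
  ∀ g h q, Eqv (A (g * h) q) (A g (sig8 h q) * A h q)

theorem gLift_of {L : Gam8 → Rigid.G} (hL : IsLift L) : GLift fun g q => L (arrow g q) := by
  intro g h q
  show Eqv (L (arrow (g * h) q)) (L (arrow g (sig8 h q)) * L (arrow h q))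
  rw [arrow_mul]
  exact hL _ _

section GLs

variable {A : Lam.G → Fin 8 → Rigid.G} (hA : GLift A)

include hA

theorem GLift.one (q : Fin 8) : Eqv (A 1 q) 1 := by
  have h1 := hA 1 1 q
  rw [one_mul, map_one, Equiv.Perm.one_apply] at h1
  have h := h1.mul (Eqv.rfl' (A 1 q)⁻¹)
  rw [mul_inv_cancel, mul_assoc, mul_inv_cancel, mul_one] at h
  exact h.symm

theorem GLift.inv (g : Lam.G) (q : Fin 8) : Eqv (A g⁻¹ q) (A g (sig8 g⁻¹ q))⁻¹ := by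
  have h1 := hA g g⁻¹ q
  rw [mul_inv_cancel] at h1
  have h := (Eqv.rfl' (A g (sig8 g⁻¹ q))⁻¹).mul ((hA.one q).symm.trans h1)
  rw [mul_one, inv_mul_cancel_left] at h
  exact h.symm

end GLs

/-- the lift of `P Q⁻¹ P⁻¹ Q` at `q` -/
def uL (p q : Equiv.Perm (Fin 8)) (P Q : Fin 8 → Rigid.G) (j : Fin 8) : Rigid.G :=
  P (q⁻¹ (p⁻¹ (q j))) * (Q (q⁻¹ (p⁻¹ (q j))))⁻¹ * (P (p⁻¹ (q j)))⁻¹ * Q j

theorem GLift.uL {A : Lam.G → Fin 8 → Rigid.G} (hA : GLift A) (g h : Lam.G) (j : Fin 8) :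
    Eqv (A (g * h⁻¹ * g⁻¹ * h) j) (uL (sig8 g) (sig8 h) (A g) (A h) j) := by
  unfold Bridge8.uL
  rw [← map_inv, ← map_inv]
  exact (hA _ _ _).trans (((hA _ _ _).trans (((hA _ _ _).trans ((Eqv.rfl' _).mul
    (hA.inv _ _))).mul (hA.inv _ _))).mul (Eqv.rfl' _))

/-! ### Tuples -/

/-- the two commutators of the surface of a component -/
theorem comp_id {Y0 Y1 Y3 Y4 Z0 Z1 Z3 Z4 U0 U1 U3 U4 : Rigid.G} {s t : ℤ}
    (h0 : U0 = Y4 * Z4⁻¹ * Y0⁻¹ * Z0) (h1 : U1 = Y3 * Z3⁻¹ * Y4⁻¹ * Z1)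
    (h3 : U3 = Y1 * Z1⁻¹ * Y3⁻¹ * Z3) (h4 : U4 = Y0 * Z0⁻¹ * Y1⁻¹ * Z4)
    (e0 : U3 * U0 = T ^ s) (e1 : U4 * U1 = T ^ t) :
    ((U3 * Y4 * Y3 * U0) * (Y1 * Z1⁻¹ * U0) * (U3 * Y4 * Y3 * U0)⁻¹ * (Y1 * Z1⁻¹ * U0)⁻¹) *
      ((Y1 * Y0) * (Z0⁻¹ * Y0) * (Y1 * Y0)⁻¹ * (Z0⁻¹ * Y0)⁻¹) = T ^ (s + t) := by
  have sw : ∀ {f g : Rigid.G} {n : ℤ}, f * g = T ^ n → g * f = T ^ n := by
    intro f g n h
    have : g * f = f⁻¹ * (f * g) * f := by group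
    rw [this, h, ← Tz_comm, mul_assoc, inv_mul_cancel, mul_one]
  have e0' := sw e0
  have e1' := sw e1
  have a3 : Y1 * Z1⁻¹ * Y3⁻¹ = U3 * Z3⁻¹ := by rw [h3]; group
  have c1 : (U3 * Y4 * Y3 * U0) * (Y1 * Z1⁻¹ * U0) * (U3 * Y4 * Y3 * U0)⁻¹ *
      (Y1 * Z1⁻¹ * U0)⁻¹ = U3 * Y4 * U1 * Y1⁻¹ := by
    calc (U3 * Y4 * Y3 * U0) * (Y1 * Z1⁻¹ * U0) * (U3 * Y4 * Y3 * U0)⁻¹ * (Y1 * Z1⁻¹ * U0)⁻¹
        = U3 * Y4 * Y3 * U0 * (Y1 * Z1⁻¹ * Y3⁻¹) * Y4⁻¹ * (U0 * U3)⁻¹ * Z1 * Y1⁻¹ := by group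
      _ = U3 * Y4 * Y3 * (U0 * U3) * Z3⁻¹ * Y4⁻¹ * (U0 * U3)⁻¹ * Z1 * Y1⁻¹ := by
          rw [a3]; group
      _ = U3 * Y4 * Y3 * (T ^ s * (Z3⁻¹ * Y4⁻¹) * (T ^ s)⁻¹) * Z1 * Y1⁻¹ := by
          rw [e0']; group
      _ = U3 * Y4 * Y3 * (Z3⁻¹ * Y4⁻¹) * Z1 * Y1⁻¹ := by
          rw [Tz_comm, mul_assoc (Z3⁻¹ * Y4⁻¹), mul_inv_cancel, mul_one]
      _ = U3 * Y4 * U1 * Y1⁻¹ := by rw [h1]; group
  have a4 : Y0 * Z0⁻¹ * Y1⁻¹ = U4 * Z4⁻¹ := by rw [h4]; group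
  have a0 : Y0⁻¹ * Z0 = Z4 * Y4⁻¹ * U0 := by rw [h0]; group
  have c2 : (Y1 * Y0) * (Z0⁻¹ * Y0) * (Y1 * Y0)⁻¹ * (Z0⁻¹ * Y0)⁻¹ =
      Y1 * U4 * Y4⁻¹ * U0 := by
    calc (Y1 * Y0) * (Z0⁻¹ * Y0) * (Y1 * Y0)⁻¹ * (Z0⁻¹ * Y0)⁻¹
        = Y1 * (Y0 * Z0⁻¹ * Y1⁻¹) * (Y0⁻¹ * Z0) := by group
      _ = Y1 * U4 * Y4⁻¹ * U0 := by rw [a4, a0]; group
  rw [c1, c2]
  calc U3 * Y4 * U1 * Y1⁻¹ * (Y1 * U4 * Y4⁻¹ * U0)
      = U3 * Y4 * (U1 * U4) * Y4⁻¹ * U0 := by group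
    _ = U3 * (Y4 * T ^ t * Y4⁻¹) * U0 := by rw [e1']; group
    _ = T ^ s * T ^ t := by
        rw [← Tz_comm, mul_assoc (T ^ t), mul_inv_cancel, mul_one, ← Tz_comm,
          mul_assoc, e0, Tz_comm]
    _ = T ^ (s + t) := (zpow_add T s t).symm

/-- the fourth power of `z` in a maximal tuple -/
theorem odd_tuple {al be h1 h2 z4 : Rigid.G}
    (hmax : (be * h2 * be⁻¹ * h2⁻¹) * (al * h1 * al⁻¹ * h1⁻¹) = T ^ (2 : ℤ))
    (hz4 : Eqv z4⁻¹ (h1 * al⁻¹ * h2 * h2 * be⁻¹ * h1)) : ∃ k : ℤ, HasFix (T ^ k * z4) := by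
  obtain ⟨m1, m2⟩ := M1 hmax
  obtain ⟨m3, m4⟩ := M1 (swap_two hmax)
  obtain ⟨i1, a, ha, rfl⟩ := exists_fix_lift m1
  obtain ⟨i2, c, hc, rfl⟩ := exists_fix_lift m2
  obtain ⟨i3, b, hb, rfl⟩ := exists_fix_lift m3
  obtain ⟨i4, d, hd, rfl⟩ := exists_fix_lift m4
  clear m1 m2 m3 m4
  rw [cen_comm (Tz_comm _) (Tz_comm _), cen_comm (Tz_comm _) (Tz_comm _)] at hmax
  have ea := Eqv.T_mul i1 a
  have ec := Eqv.T_mul i2 c
  have eb := Eqv.T_mul i3 b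
  have ed := Eqv.T_mul i4 d
  have f1 := odd_first ha hb hc hd hmax
  have z1 : Eqv z4⁻¹ (c * a⁻¹ * d * d * b⁻¹ * c) :=
    hz4.trans (((((ec.mul ea.inv).mul ed).mul ed).mul eb.inv).mul ec)
  obtain ⟨s, hs⟩ := z1
  have f2 : HasFix (T ^ (1 - s) * z4⁻¹) := by
    rw [hs, ← mul_assoc, ← zpow_add, sub_add_cancel]
    exact f1
  have f3 := f2.Tinv
  rw [inv_inv] at f3
  exact ⟨_, f3⟩

/-! ### The two components of the eight points for the quadrilateral group -/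

theorem sig_uu : sig8 (uu ey ez) = qY * qZ⁻¹ * qY⁻¹ * qZ := by
  rw [uu, map_mul, map_mul, map_mul, map_inv, map_inv, sig_ey, sig_ez]

theorem sig_al : sig8 (al ey) = qY * qY := by rw [al, map_mul, sig_ey]

theorem sig_h1 : sig8 (h1 ey ez) = qZ⁻¹ * qY := by rw [h1, map_mul, map_inv, sig_ey, sig_ez]

theorem sig_be : sig8 (be ey ez) = (qY * qZ⁻¹ * qY⁻¹ * qZ) * qY * qY * (qY * qZ⁻¹ * qY⁻¹ * qZ) := by
  rw [be, map_mul, map_mul, map_mul, sig_uu, sig_ey]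

theorem sig_h2 : sig8 (h2 ey ez) = qY * qZ⁻¹ * (qY * qZ⁻¹ * qY⁻¹ * qZ) := by
  rw [h2, map_mul, map_mul, map_inv, sig_uu, sig_ey, sig_ez]

theorem sig_z4 : sig8 (Words.z4 ez) = qZ * qZ * qZ * qZ := by
  rw [Words.z4, map_mul, map_mul, map_mul, sig_ez]

/-- a component: `y = (p0 p1)(p3 p4)`, `z = (p0 p1 p3 p4)` -/
structure Comp (p0 p1 p3 p4 : Fin 8) : Prop where
  y0 : qY p0 = p1
  y1 : qY p1 = p0
  y3 : qY p3 = p4
  y4 : qY p4 = p3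
  z0 : qZ p0 = p1
  z1 : qZ p1 = p3
  z3 : qZ p3 = p4
  z4 : qZ p4 = p0

theorem comp0 : Comp 0 1 3 4 := by constructor <;> decide

theorem comp6 : Comp 6 7 5 2 := by constructor <;> decide

section comp

variable {p0 p1 p3 p4 : Fin 8} (hc : Comp p0 p1 p3 p4)

include hc

theorem Comp.iy1 : qY⁻¹ p1 = p0 := Equiv.Perm.inv_eq_iff_eq.mpr hc.y0.symm
theorem Comp.iy0 : qY⁻¹ p0 = p1 := Equiv.Perm.inv_eq_iff_eq.mpr hc.y1.symm
theorem Comp.iy4 : qY⁻¹ p4 = p3 := Equiv.Perm.inv_eq_iff_eq.mpr hc.y3.symm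
theorem Comp.iy3 : qY⁻¹ p3 = p4 := Equiv.Perm.inv_eq_iff_eq.mpr hc.y4.symm
theorem Comp.iz1 : qZ⁻¹ p1 = p0 := Equiv.Perm.inv_eq_iff_eq.mpr hc.z0.symm
theorem Comp.iz3 : qZ⁻¹ p3 = p1 := Equiv.Perm.inv_eq_iff_eq.mpr hc.z1.symm
theorem Comp.iz4 : qZ⁻¹ p4 = p3 := Equiv.Perm.inv_eq_iff_eq.mpr hc.z3.symm
theorem Comp.iz0 : qZ⁻¹ p0 = p4 := Equiv.Perm.inv_eq_iff_eq.mpr hc.z4.symm

theorem Comp.u0 : (qY * qZ⁻¹ * qY⁻¹ * qZ) p0 = p3 := by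
  rw [Equiv.Perm.mul_apply, Equiv.Perm.mul_apply, Equiv.Perm.mul_apply, hc.z0, hc.iy1, hc.iz0,
    hc.y4]
theorem Comp.u1 : (qY * qZ⁻¹ * qY⁻¹ * qZ) p1 = p4 := by
  rw [Equiv.Perm.mul_apply, Equiv.Perm.mul_apply, Equiv.Perm.mul_apply, hc.z1, hc.iy3, hc.iz4,
    hc.y3]
theorem Comp.u3 : (qY * qZ⁻¹ * qY⁻¹ * qZ) p3 = p0 := by
  rw [Equiv.Perm.mul_apply, Equiv.Perm.mul_apply, Equiv.Perm.mul_apply, hc.z3, hc.iy4, hc.iz3,
    hc.y1]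
theorem Comp.u4 : (qY * qZ⁻¹ * qY⁻¹ * qZ) p4 = p1 := by
  rw [Equiv.Perm.mul_apply, Equiv.Perm.mul_apply, Equiv.Perm.mul_apply, hc.z4, hc.iy0, hc.iz1,
    hc.y0]

theorem Comp.sal : sig8 (al ey) p0 = p0 := by
  rw [sig_al, Equiv.Perm.mul_apply, hc.y0, hc.y1]
theorem Comp.sh1 : sig8 (h1 ey ez) p0 = p0 := by
  rw [sig_h1, Equiv.Perm.mul_apply, hc.y0, hc.iz1]
theorem Comp.sbe : sig8 (be ey ez) p0 = p0 := by
  rw [sig_be, Equiv.Perm.mul_apply, Equiv.Perm.mul_apply, Equiv.Perm.mul_apply, hc.u0, hc.y3,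
    hc.y4, hc.u3]
theorem Comp.sh2 : sig8 (h2 ey ez) p0 = p0 := by
  rw [sig_h2, Equiv.Perm.mul_apply, Equiv.Perm.mul_apply, hc.u0, hc.iz3, hc.y1]
theorem Comp.sz4 : sig8 (Words.z4 ez) p0 = p0 := by
  rw [sig_z4, Equiv.Perm.mul_apply, Equiv.Perm.mul_apply, Equiv.Perm.mul_apply, hc.z0, hc.z1,
    hc.z3, hc.z4]

variable {A : Lam.G → Fin 8 → Rigid.G} (hA : GLift A)

theorem Comp.U0 (Y Z : Fin 8 → Rigid.G) :
    uL qY qZ Y Z p0 = Y p4 * (Z p4)⁻¹ * (Y p0)⁻¹ * Z p0 := by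
  rw [uL, hc.z0, hc.iy1, hc.iz0]
theorem Comp.U1 (Y Z : Fin 8 → Rigid.G) :
    uL qY qZ Y Z p1 = Y p3 * (Z p3)⁻¹ * (Y p4)⁻¹ * Z p1 := by
  rw [uL, hc.z1, hc.iy3, hc.iz4]
theorem Comp.U3 (Y Z : Fin 8 → Rigid.G) :
    uL qY qZ Y Z p3 = Y p1 * (Z p1)⁻¹ * (Y p3)⁻¹ * Z p3 := by
  rw [uL, hc.z3, hc.iy4, hc.iz3]
theorem Comp.U4 (Y Z : Fin 8 → Rigid.G) :
    uL qY qZ Y Z p4 = Y p0 * (Z p0)⁻¹ * (Y p1)⁻¹ * Z p4 := by
  rw [uL, hc.z4, hc.iy0, hc.iz1]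

include hA

omit hc in
theorem GLift.uu (j : Fin 8) : Eqv (A (uu ey ez) j) (Bridge8.uL qY qZ (A ey) (A ez) j) := by
  have h := hA.uL ey ez j
  rw [sig_ey, sig_ez] at h
  exact h

theorem Comp.Aal : Eqv (A (al ey) p0) (A ey p1 * A ey p0) := by
  have h := hA ey ey p0
  rw [sig_ey, hc.y0] at h
  exact h

theorem Comp.Ah1 : Eqv (A (h1 ey ez) p0) ((A ez p0)⁻¹ * A ey p0) := by
  have h := hA ez⁻¹ ey p0
  rw [sig_ey, hc.y0] at h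
  have h2 := hA.inv ez p1
  rw [map_inv, sig_ez, hc.iz1] at h2
  exact h.trans (h2.mul (Eqv.rfl' _))

theorem Comp.Ah2 : Eqv (A (h2 ey ez) p0)
    (A ey p1 * (A ez p1)⁻¹ * Bridge8.uL qY qZ (A ey) (A ez) p0) := by
  have h := hA (ey * ez⁻¹) (Words.uu ey ez) p0
  rw [sig_uu, hc.u0] at h
  have h2 := hA ey ez⁻¹ p3
  rw [map_inv, sig_ez, hc.iz3] at h2
  have h3 := hA.inv ez p3
  rw [map_inv, sig_ez, hc.iz3] at h3
  exact h.trans ((h2.trans ((Eqv.rfl' _).mul h3)).mul (hA.uu p0))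

theorem Comp.Abe : Eqv (A (be ey ez) p0)
    (Bridge8.uL qY qZ (A ey) (A ez) p3 * A ey p4 * A ey p3 *
      Bridge8.uL qY qZ (A ey) (A ez) p0) := by
  have h := hA (Words.uu ey ez * ey * ey) (Words.uu ey ez) p0
  rw [sig_uu, hc.u0] at h
  have h2 := hA (Words.uu ey ez * ey) ey p3
  rw [sig_ey, hc.y3] at h2
  have h3 := hA (Words.uu ey ez) ey p4
  rw [sig_ey, hc.y4] at h3
  exact h.trans ((h2.trans ((h3.trans ((hA.uu p3).mul (Eqv.rfl' _))).mul (Eqv.rfl' _))).mul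
    (hA.uu p0))

theorem Comp.Az4 : Eqv (A (Words.z4 ez) p0) (A ez p4 * A ez p3 * A ez p1 * A ez p0) := by
  have h := hA (ez * ez * ez) ez p0
  rw [sig_ez, hc.z0] at h
  have h2 := hA (ez * ez) ez p1
  rw [sig_ez, hc.z1] at h2
  have h3 := hA ez ez p3
  rw [sig_ez, hc.z3] at h3
  exact h.trans ((h2.trans (h3.mul (Eqv.rfl' _))).mul (Eqv.rfl' _))

/-- the sum of the exponents on a component -/
theorem Comp.sum {t : Fin 8 → ℤ}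
    (ht : ∀ q, Bridge8.uL qY qZ (A ey) (A ez) ((qY * qZ⁻¹ * qY⁻¹ * qZ) q) *
      Bridge8.uL qY qZ (A ey) (A ez) q = T ^ t q)
    (hmax : (A (be ey ez) p0 * A (h2 ey ez) p0 * (A (be ey ez) p0)⁻¹ * (A (h2 ey ez) p0)⁻¹) *
      (A (al ey) p0 * A (h1 ey ez) p0 * (A (al ey) p0)⁻¹ * (A (h1 ey ez) p0)⁻¹) = T ^ (2 : ℤ)) :
    t p0 + t p1 + t p3 + t p4 = 4 := by
  have g0 := ht p0
  rw [hc.u0] at g0
  have g1 := ht p1
  rw [hc.u1] at g1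
  have g3 := ht p3
  rw [hc.u3] at g3
  have g4 := ht p4
  rw [hc.u4] at g4
  have sw : ∀ {f g : Rigid.G} {n : ℤ}, f * g = T ^ n → g * f = T ^ n := by
    intro f g n h
    have : g * f = f⁻¹ * (f * g) * f := by group
    rw [this, h, ← Tz_comm, mul_assoc, inv_mul_cancel, mul_one]
  have hT : ∀ {i j : ℤ}, (T ^ i : Rigid.G) = T ^ j → i = j := by
    intro i j h
    have := congrArg (fun f : Rigid.G => f 0) h
    simp only [Tz_ap, zero_add] at this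
    exact_mod_cast this
  have e3 : t p3 = t p0 := hT (g3.symm.trans (sw g0))
  have e4 : t p4 = t p1 := hT (g4.symm.trans (sw g1))
  rw [comm_Eqv (hc.Abe hA) (hc.Ah2 hA), comm_Eqv (hc.Aal hA) (hc.Ah1 hA),
    comp_id (hc.U0 _ _) (hc.U1 _ _) (hc.U3 _ _) (hc.U4 _ _) g0 g1] at hmax
  have e := hT hmax
  omega

omit hA in
/-- the fourth power of `z` on a component -/
theorem Comp.fix {L : Gam8 → Rigid.G} (hL : IsLift L)
    (hmax : (L (arrow (be ey ez) p0) * L (arrow (h2 ey ez) p0) * (L (arrow (be ey ez) p0))⁻¹ *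
      (L (arrow (h2 ey ez) p0))⁻¹) * (L (arrow (al ey) p0) * L (arrow (h1 ey ez) p0) *
      (L (arrow (al ey) p0))⁻¹ * (L (arrow (h1 ey ez) p0))⁻¹) = T ^ (2 : ℤ)) :
    ∃ k : ℤ, HasFix (T ^ k * (L (arrow ez p4) * L (arrow ez p3) * L (arrow ez p1) *
      L (arrow ez p0))) := by
  have ia : ∀ w : Lam.G, sig8 w p0 = p0 → inc8 (arrow w p0) = (tau p0)⁻¹ * w * tau p0 := by
    intro w hw
    rw [inc8_arrow, hw]
  have hz : (arrow (Words.z4 ez) p0)⁻¹ = arrow (h1 ey ez) p0 * (arrow (al ey) p0)⁻¹ *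
      arrow (h2 ey ez) p0 * arrow (h2 ey ez) p0 * (arrow (be ey ez) p0)⁻¹ *
      arrow (h1 ey ez) p0 := by
    apply inc8_injective
    simp only [map_mul, map_inv]
    rw [ia _ hc.sz4, ia _ hc.sh1, ia _ hc.sal, ia _ hc.sh2, ia _ hc.sbe]
    calc ((tau p0)⁻¹ * Words.z4 ez * tau p0)⁻¹ = (tau p0)⁻¹ * (Words.z4 ez)⁻¹ * tau p0 := by group
      _ = _ := by rw [Rz4 relG8]; group
  have I := fun g => hL.inv g
  have M := fun g h => hL g h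
  have e1 : Eqv (L (arrow (Words.z4 ez) p0))⁻¹ (L (arrow (h1 ey ez) p0) *
      (L (arrow (al ey) p0))⁻¹ * L (arrow (h2 ey ez) p0) * L (arrow (h2 ey ez) p0) *
      (L (arrow (be ey ez) p0))⁻¹ * L (arrow (h1 ey ez) p0)) := by
    refine (I _).symm.trans ?_
    rw [hz]
    exact (M _ _).trans (((M _ _).trans (((M _ _).trans (((M _ _).trans (((M _ _).trans
      ((Eqv.rfl' _).mul (I _))).mul (Eqv.rfl' _))).mul (Eqv.rfl' _))).mul (I _))).mul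
      (Eqv.rfl' _))
  obtain ⟨k, hk⟩ := odd_tuple hmax e1
  obtain ⟨s, hs⟩ := hc.Az4 (gLift_of hL)
  refine ⟨k + s, ?_⟩
  rw [zpow_add, mul_assoc, ← hs]
  exact hk

end comp

/-! ### The hypotheses of the rigidity theorem -/

/-- The lifts of the arrows satisfy the hypotheses of the rigidity theorem. -/
theorem hyps {L : Gam8 → Rigid.G} (hL : IsLift L)
    (hmax0 : (L (arrow (be ey ez) 0) * L (arrow (h2 ey ez) 0) * (L (arrow (be ey ez) 0))⁻¹ *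
      (L (arrow (h2 ey ez) 0))⁻¹) * (L (arrow (al ey) 0) * L (arrow (h1 ey ez) 0) *
      (L (arrow (al ey) 0))⁻¹ * (L (arrow (h1 ey ez) 0))⁻¹) = T ^ (2 : ℤ))
    (hmax6 : (L (arrow (be ey ez) 6) * L (arrow (h2 ey ez) 6) * (L (arrow (be ey ez) 6))⁻¹ *
      (L (arrow (h2 ey ez) 6))⁻¹) * (L (arrow (al ey) 6) * L (arrow (h1 ey ez) 6) *
      (L (arrow (al ey) 6))⁻¹ * (L (arrow (h1 ey ez) 6))⁻¹) = T ^ (2 : ℤ)) :
    let X : Fin 8 → Rigid.G := fun q => L (arrow ex q)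
    let Y : Fin 8 → Rigid.G := fun q => L (arrow ey q)
    let Z : Fin 8 → Rigid.G := fun q => L (arrow ez q)
    let U : Fin 8 → Rigid.G := uL qY qZ Y Z
    let V : Fin 8 → Rigid.G := uL qX qY X Y
    (∃ t : Fin 8 → ℤ, (∀ q, U ((qY * qZ⁻¹ * qY⁻¹ * qZ) q) * U q = T ^ t q) ∧ ∑ q, t q = 8) ∧
    (∃ m : Fin 8 → ℤ, ∀ q, V ((qX * qY⁻¹ * qX⁻¹ * qY) q) * V q = T ^ m q) ∧
    (∀ q, ∃ k : ℤ, V (qZ q) * Z q = T ^ k * (Z ((qX * qY⁻¹ * qX⁻¹ * qY) q) * V q)) ∧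
    (∃ k : ℤ, HasFix (T ^ k * (Z 4 * Z 3 * Z 1 * Z 0))) ∧
    (∃ k : ℤ, HasFix (T ^ k * (Z 5 * Z 7 * Z 6 * Z 2))) := by
  intro X Y Z U V
  have hA := gLift_of hL
  have hU : ∀ j, Eqv (L (arrow (ey * ez⁻¹ * ey⁻¹ * ez) j)) (U j) := by
    intro j
    have h := hA.uL ey ez j
    rw [sig_ey, sig_ez] at h
    exact h
  have hV : ∀ j, Eqv (L (arrow (ex * ey⁻¹ * ex⁻¹ * ey) j)) (V j) := by
    intro j
    have h := hA.uL ex ey j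
    rw [sig_ex, sig_ey] at h
    exact h
  have sU : sig8 (ey * ez⁻¹ * ey⁻¹ * ez) = qY * qZ⁻¹ * qY⁻¹ * qZ := sig_uu
  have sV : sig8 (ex * ey⁻¹ * ex⁻¹ * ey) = qX * qY⁻¹ * qX⁻¹ * qY := by
    rw [map_mul, map_mul, map_mul, map_inv, map_inv, sig_ex, sig_ey]
  have hUU : ∀ q, ∃ n : ℤ, U ((qY * qZ⁻¹ * qY⁻¹ * qZ) q) * U q = T ^ n := by
    intro q
    have h := hA (ey * ez⁻¹ * ey⁻¹ * ez) (ey * ez⁻¹ * ey⁻¹ * ez) q
    rw [sU, relG8.hX] at h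
    obtain ⟨n, hn⟩ := ((hU _).mul (hU _)).symm.trans (h.symm.trans (hA.one q))
    exact ⟨n, by rw [hn, mul_one]⟩
  have hVV : ∀ q, ∃ n : ℤ, V ((qX * qY⁻¹ * qX⁻¹ * qY) q) * V q = T ^ n := by
    intro q
    have h := hA (ex * ey⁻¹ * ex⁻¹ * ey) (ex * ey⁻¹ * ex⁻¹ * ey) q
    rw [sV, relG8.hZ] at h
    obtain ⟨n, hn⟩ := ((hV _).mul (hV _)).symm.trans (h.symm.trans (hA.one q))
    exact ⟨n, by rw [hn, mul_one]⟩
  choose t ht using hUU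
  choose m hm using hVV
  refine ⟨⟨t, ht, ?_⟩, ⟨m, hm⟩, ?_, comp0.fix hL hmax0, ?_⟩
  · have s0 := comp0.sum hA ht hmax0
    have s6 := comp6.sum hA ht hmax6
    simp only [Fin.sum_univ_succ, Fin.sum_univ_zero]
    change t 0 + (t 1 + (t 2 + (t 3 + (t 4 + (t 5 + (t 6 + (t 7 + 0))))))) = 8
    omega
  · intro q
    have h1 := hA (ex * ey⁻¹ * ex⁻¹ * ey) ez q
    have h2 := hA ez (ex * ey⁻¹ * ex⁻¹ * ey) q
    rw [relG8.cZ, sig_ez] at h1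
    rw [sV] at h2
    exact ((hV _).mul (Eqv.rfl' _)).symm.trans (h1.symm.trans (h2.trans
      ((Eqv.rfl' _).mul (hV _))))
  · obtain ⟨k, hk⟩ := comp6.fix hL hmax6
    refine ⟨k, ?_⟩
    -- rotate
    have e : T ^ k * (Z 2 * Z 5 * Z 7 * Z 6) = (T ^ k * Z 2) * (Z 5 * Z 7 * Z 6) := by
      simp only [mul_assoc]
    have h2 : HasFix ((T ^ k * Z 2) * (Z 5 * Z 7 * Z 6)) := by rw [← e]; exact hk
    have h3 := h2.swap
    have e2 : Z 5 * Z 7 * Z 6 * (T ^ k * Z 2) = T ^ k * (Z 5 * Z 7 * Z 6 * Z 2) := by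
      rw [← mul_assoc, ← Tz_comm, mul_assoc]
    rwa [e2] at h3

end Pool.Agent.EC.Bridge8
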