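import Mathlib

/-!
# Orientation preserving homeomorphisms of the circle `ℝ / ℤ` and their lifts to the line

`HomeoPlus` is the group of the homeomorphisms of the circle which preserve the cyclic order.
`cov : CircleDeg1Liftˣ →* HomeoPlus` is the universal covering: surjective, with kernel the
powers of the translation by one, which are central.
-/

set_option autoImplicit false

namespace Pool.Agent.EC

/-- The group of the orientation preserving homeomorphisms of the circle `ℝ / ℤ`: the
homeomorphisms which preserve the cyclic order. -/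
def HomeoPlus : Subgroup (UnitAddCircle ≃ₜ UnitAddCircle) where
  carrier := {f | ∀ a b c, btw (f a) (f b) (f c) ↔ btw a b c}
  mul_mem' := by
    intro f g hf hg a b c
    show btw (f (g a)) (f (g b)) (f (g c)) ↔ _
    rw [hf, hg]
  one_mem' := by
    intro a b c
    exact Iff.rfl
  inv_mem' := by
    intro f hf a b c
    have h := hf (f⁻¹ a) (f⁻¹ b) (f⁻¹ c)
    have e : ∀ x, f (f⁻¹ x) = x := fun x => f.apply_symm_apply x
    rw [e, e, e] at h
    exact h.symm

/-- The translation by one. -/
def shift : CircleDeg1Liftˣ := CircleDeg1Lift.translate (Multiplicative.ofAdd 1)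

theorem shift_apply (x : ℝ) : shift x = x + 1 := by
  rw [shift, CircleDeg1Lift.translate_apply, add_comm]

theorem shift_zpow_apply (n : ℤ) (x : ℝ) : (shift ^ n : CircleDeg1Liftˣ) x = x + n := by
  rw [shift, CircleDeg1Lift.translate_zpow, CircleDeg1Lift.translate_apply, mul_one, add_comm]

theorem units_ext {F G : CircleDeg1Liftˣ} (h : ∀ x, F x = G x) : F = G :=
  Units.ext (CircleDeg1Lift.ext h)

theorem shift_zpow_inj {m n : ℤ} (h : shift ^ m = shift ^ n) : m = n := by
  have h1 := shift_zpow_apply m 0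
  rw [h, shift_zpow_apply] at h1
  have h2 : (m : ℝ) = n := by linarith
  exact_mod_cast h2

theorem shift_commute (F : CircleDeg1Liftˣ) : shift * F = F * shift := by
  apply units_ext
  intro x
  show shift (F x) = F (shift x)
  rw [shift_apply, shift_apply, CircleDeg1Lift.map_add_one]

theorem shift_zpow_commute (n : ℤ) (F : CircleDeg1Liftˣ) : Commute (shift ^ n) F :=
  (show Commute shift F from shift_commute F).zpow_left n

theorem coe_eq_coe {x y : ℝ} : ((x : ℝ) : UnitAddCircle) = (y : UnitAddCircle) ↔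
    ∃ n : ℤ, x = y + n := by
  rw [← sub_eq_zero, ← AddCircle.coe_sub, AddCircle.coe_eq_zero_iff]
  constructor
  · rintro ⟨n, hn⟩
    refine ⟨n, ?_⟩
    rw [zsmul_eq_mul, mul_one] at hn
    linarith
  · rintro ⟨n, hn⟩
    refine ⟨n, ?_⟩
    rw [zsmul_eq_mul, mul_one]
    linarith

/-! ### The covering homomorphism -/

theorem covFun_aux (F : CircleDeg1Liftˣ) {x y : ℝ}
    (h : ((x : ℝ) : UnitAddCircle) = (y : UnitAddCircle)) :
    ((F x : ℝ) : UnitAddCircle) = ((F y : ℝ) : UnitAddCircle) := by
  obtain ⟨n, rfl⟩ := coe_eq_coe.1 h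
  rw [CircleDeg1Lift.map_add_int]
  exact coe_eq_coe.2 ⟨n, rfl⟩

/-- The map of the circle induced by `F`. -/
def covFun (F : CircleDeg1Liftˣ) : UnitAddCircle → UnitAddCircle :=
  Quotient.lift (fun x : ℝ => ((F x : ℝ) : UnitAddCircle))
    (fun _ _ h => covFun_aux F (Quotient.sound h))

theorem covFun_coe (F : CircleDeg1Liftˣ) (x : ℝ) :
    covFun F (x : UnitAddCircle) = ((F x : ℝ) : UnitAddCircle) := rfl

theorem continuous_units (F : CircleDeg1Liftˣ) : Continuous F :=
  (CircleDeg1Lift.toOrderIso F).continuous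

theorem continuous_covFun (F : CircleDeg1Liftˣ) : Continuous (covFun F) :=
  Continuous.quotient_lift ((AddCircle.continuous_mk' 1).comp (continuous_units F)) _

theorem covFun_mul (F G : CircleDeg1Liftˣ) (x : UnitAddCircle) :
    covFun (F * G) x = covFun F (covFun G x) := by
  induction x using QuotientAddGroup.induction_on with
  | H x => rfl

theorem covFun_one (x : UnitAddCircle) : covFun 1 x = x := by
  induction x using QuotientAddGroup.induction_on with
  | H x => rfl

/-- The homeomorphism of the circle induced by `F`. -/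
def covHomeo (F : CircleDeg1Liftˣ) : UnitAddCircle ≃ₜ UnitAddCircle where
  toFun := covFun F
  invFun := covFun F⁻¹
  left_inv := fun x => by rw [← covFun_mul, inv_mul_cancel, covFun_one]
  right_inv := fun x => by rw [← covFun_mul, mul_inv_cancel, covFun_one]
  continuous_toFun := continuous_covFun F
  continuous_invFun := continuous_covFun F⁻¹

theorem units_strictMono (F : CircleDeg1Liftˣ) : StrictMono F :=
  (CircleDeg1Lift.toOrderIso F).strictMono

theorem toIcoMod_units (F : CircleDeg1Liftˣ) (a b : ℝ) :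
    toIcoMod one_pos (F a) (F b) = F (toIcoMod one_pos a b) := by
  obtain ⟨h1, z, hz⟩ := (toIcoMod_eq_iff (one_pos (α := ℝ)) (a := a) (b := b)).1 rfl
  rw [toIcoMod_eq_iff]
  refine ⟨⟨(units_strictMono F).monotone h1.1, ?_⟩, z, ?_⟩
  · rw [← CircleDeg1Lift.map_add_one]
    exact units_strictMono F h1.2
  · conv_lhs => rw [hz]
    rw [zsmul_eq_mul, mul_one, CircleDeg1Lift.map_add_int]

theorem toIocMod_units (F : CircleDeg1Liftˣ) (a b : ℝ) :
    toIocMod one_pos (F a) (F b) = F (toIocMod one_pos a b) := by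
  obtain ⟨h1, z, hz⟩ := (toIocMod_eq_iff (one_pos (α := ℝ)) (a := a) (b := b)).1 rfl
  rw [toIocMod_eq_iff]
  refine ⟨⟨units_strictMono F h1.1, ?_⟩, z, ?_⟩
  · rw [← CircleDeg1Lift.map_add_one]
    exact (units_strictMono F).monotone h1.2
  · conv_lhs => rw [hz]
    rw [zsmul_eq_mul, mul_one, CircleDeg1Lift.map_add_int]

theorem covHomeo_mem (F : CircleDeg1Liftˣ) : covHomeo F ∈ HomeoPlus := by
  intro a b c
  induction a using QuotientAddGroup.induction_on with
  | H a =>
  induction b using QuotientAddGroup.induction_on with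
  | H b =>
  induction c using QuotientAddGroup.induction_on with
  | H c =>
  show btw ((F a : ℝ) : UnitAddCircle) ((F b : ℝ) : UnitAddCircle) ((F c : ℝ) : UnitAddCircle) ↔ _
  rw [QuotientAddGroup.btw_coe_iff, QuotientAddGroup.btw_coe_iff, toIcoMod_units, toIocMod_units]
  exact (units_strictMono F).le_iff_le

/-- The universal covering of the group of orientation preserving homeomorphisms of the circle. -/
def cov : CircleDeg1Liftˣ →* HomeoPlus where
  toFun F := ⟨covHomeo F, covHomeo_mem F⟩
  map_one' := by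
    apply Subtype.ext
    apply Homeomorph.ext
    intro x
    exact covFun_one x
  map_mul' := by
    intro F G
    apply Subtype.ext
    apply Homeomorph.ext
    intro x
    exact covFun_mul F G x

theorem cov_apply_coe (F : CircleDeg1Liftˣ) (x : ℝ) :
    (cov F : UnitAddCircle ≃ₜ UnitAddCircle) (x : UnitAddCircle) = ((F x : ℝ) : UnitAddCircle) :=
  rfl

/-- `F` is a lift of `f`. -/
theorem cov_eq_iff (F : CircleDeg1Liftˣ) (f : HomeoPlus) : cov F = f ↔
    ∀ x : ℝ, (f : UnitAddCircle ≃ₜ UnitAddCircle) (x : UnitAddCircle) =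
      ((F x : ℝ) : UnitAddCircle) := by
  constructor
  · rintro rfl x
    rfl
  · intro h
    apply Subtype.ext
    apply Homeomorph.ext
    intro x
    induction x using QuotientAddGroup.induction_on with
    | H x => exact (h x).symm

theorem cov_shift : cov shift = 1 := by
  rw [cov_eq_iff]
  intro x
  rw [shift_apply]
  exact coe_eq_coe.2 ⟨-1, by push_cast; ring⟩

theorem cov_shift_zpow (n : ℤ) : cov (shift ^ n) = 1 := by
  rw [map_zpow, cov_shift, one_zpow]

/-- The kernel of the covering consists of the powers of the translation by one. -/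
theorem cov_eq_one_iff (F : CircleDeg1Liftˣ) : cov F = 1 ↔ ∃ n : ℤ, F = shift ^ n := by
  constructor
  · intro h
    rw [cov_eq_iff] at h
    have h1 : ∀ x : ℝ, ∃ n : ℤ, F x = x + n := fun x => by
      have h2 := h x
      obtain ⟨n, hn⟩ := coe_eq_coe.1 h2.symm
      exact ⟨n, hn⟩
    obtain ⟨n, hn⟩ := h1 0
    refine ⟨n, units_ext fun x => ?_⟩
    rw [shift_zpow_apply]
    -- the integer valued continuous function `F x - x` is constant
    have hc : Continuous fun x : ℝ => F x - x := (continuous_units F).sub continuous_id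
    have hr : ∀ x : ℝ, ∃ n : ℤ, (F x - x : ℝ) = n := fun x => by
      obtain ⟨m, hm⟩ := h1 x
      exact ⟨m, by rw [hm]; ring⟩
    have key : ∀ x : ℝ, F x - x = F 0 - 0 := by
      intro x
      by_contra hne
      rcases lt_or_gt_of_ne hne with hlt | hlt
      · obtain ⟨m, hm⟩ := hr x
        obtain ⟨k, hk⟩ := hr 0
        rw [hm, hk] at hlt
        have hmk : m + 1 ≤ k := by exact_mod_cast hlt
        have hmem : ((m : ℝ) + 1 / 2) ∈ Set.range fun x : ℝ => F x - x := by
          apply mem_range_of_exists_le_of_exists_ge hc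
          · exact ⟨x, by rw [hm]; linarith⟩
          · refine ⟨0, ?_⟩
            rw [hk]
            have : ((m : ℝ) + 1) ≤ k := by exact_mod_cast hmk
            linarith
        obtain ⟨y, hy⟩ := hmem
        obtain ⟨j, hj⟩ := hr y
        simp only at hy
        rw [hj] at hy
        have h3 : ((2 * j : ℤ) : ℝ) = ((2 * m + 1 : ℤ) : ℝ) := by
          push_cast
          linarith
        have h4 : (2 * j : ℤ) = 2 * m + 1 := by exact_mod_cast h3
        omega
      · obtain ⟨m, hm⟩ := hr x
        obtain ⟨k, hk⟩ := hr 0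
        rw [hm, hk] at hlt
        have hmk : k + 1 ≤ m := by exact_mod_cast hlt
        have hmem : ((k : ℝ) + 1 / 2) ∈ Set.range fun x : ℝ => F x - x := by
          apply mem_range_of_exists_le_of_exists_ge hc
          · exact ⟨0, by rw [hk]; linarith⟩
          · refine ⟨x, ?_⟩
            rw [hm]
            have : ((k : ℝ) + 1) ≤ m := by exact_mod_cast hmk
            linarith
        obtain ⟨y, hy⟩ := hmem
        obtain ⟨j, hj⟩ := hr y
        simp only at hy
        rw [hj] at hy
        have h3 : ((2 * j : ℤ) : ℝ) = ((2 * k + 1 : ℤ) : ℝ) := by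
          push_cast
          linarith
        have h4 : (2 * j : ℤ) = 2 * k + 1 := by exact_mod_cast h3
        omega
    have h5 := key x
    rw [hn] at h5
    linarith
  · rintro ⟨n, rfl⟩
    exact cov_shift_zpow n

theorem cov_eq_cov_iff (F G : CircleDeg1Liftˣ) : cov F = cov G ↔ ∃ n : ℤ, F = G * shift ^ n := by
  constructor
  · intro h
    have h1 : cov (G⁻¹ * F) = 1 := by rw [map_mul, map_inv, h, inv_mul_cancel]
    obtain ⟨n, hn⟩ := (cov_eq_one_iff _).1 h1
    exact ⟨n, by rw [← hn, mul_inv_cancel_left]⟩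
  · rintro ⟨n, rfl⟩
    rw [map_mul, cov_shift_zpow, mul_one]

/-! ### Existence of lifts -/

/-- The values of the lift on `[0, 1)`. -/
noncomputable def liftIco (f : HomeoPlus) (x : ℝ) : ℝ :=
  ((AddCircle.equivIco 1 ((AddCircle.equivIco 1 0
    ((f : UnitAddCircle ≃ₜ UnitAddCircle) 0) : ℝ))
      ((f : UnitAddCircle ≃ₜ UnitAddCircle) (x : UnitAddCircle))) : ℝ)

theorem coe_liftIco (f : HomeoPlus) (x : ℝ) :
    ((liftIco f x : ℝ) : UnitAddCircle) =
      (f : UnitAddCircle ≃ₜ UnitAddCircle) (x : UnitAddCircle) :=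
  AddCircle.coe_equivIco

/-- The value of the lift at zero. -/
noncomputable def lift0 (f : HomeoPlus) : ℝ :=
  (AddCircle.equivIco 1 0 ((f : UnitAddCircle ≃ₜ UnitAddCircle) 0) : ℝ)

theorem liftIco_mem (f : HomeoPlus) (x : ℝ) :
    liftIco f x ∈ Set.Ico (lift0 f) (lift0 f + 1) :=
  (AddCircle.equivIco 1 (lift0 f) ((f : UnitAddCircle ≃ₜ UnitAddCircle) (x : UnitAddCircle))).2

theorem coe_lift0 (f : HomeoPlus) :
    ((lift0 f : ℝ) : UnitAddCircle) = (f : UnitAddCircle ≃ₜ UnitAddCircle) 0 :=
  AddCircle.coe_equivIco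

theorem liftIco_zero (f : HomeoPlus) : liftIco f 0 = lift0 f := by
  have h1 := liftIco_mem f 0
  have h2 : ((liftIco f 0 : ℝ) : UnitAddCircle) = ((lift0 f : ℝ) : UnitAddCircle) := by
    rw [coe_liftIco, coe_lift0]
    rfl
  obtain ⟨n, hn⟩ := coe_eq_coe.1 h2
  rw [hn] at h1
  have h3 : (0 : ℝ) ≤ n := by linarith [h1.1]
  have h4 : (n : ℝ) < 1 := by linarith [h1.2]
  have h5 : n = 0 := by
    have h6 : (0 : ℤ) ≤ n := by exact_mod_cast h3
    have h7 : n < (1 : ℤ) := by exact_mod_cast h4
    omega
  rw [hn, h5]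
  simp

theorem liftIco_strictMonoOn (f : HomeoPlus) : StrictMonoOn (liftIco f) (Set.Ico 0 1) := by
  intro x hx y hy hxy
  have inj : ∀ {s t : ℝ}, s ∈ Set.Ico (0 : ℝ) 1 → t ∈ Set.Ico (0 : ℝ) 1 →
      liftIco f s = liftIco f t → s = t := by
    intro s t hs ht h
    have h1 : (f : UnitAddCircle ≃ₜ UnitAddCircle) (s : UnitAddCircle) =
        (f : UnitAddCircle ≃ₜ UnitAddCircle) (t : UnitAddCircle) := by
      rw [← coe_liftIco, ← coe_liftIco, h]
    have h2 := (f : UnitAddCircle ≃ₜ UnitAddCircle).injective h1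
    obtain ⟨n, hn⟩ := coe_eq_coe.1 h2
    have h3 : (-1 : ℝ) < n := by linarith [hs.1, ht.2]
    have h4 : (n : ℝ) < 1 := by linarith [hs.2, ht.1]
    have h5 : n = 0 := by
      have h6 : (-1 : ℤ) < n := by exact_mod_cast h3
      have h7 : n < (1 : ℤ) := by exact_mod_cast h4
      omega
    rw [hn, h5]
    simp
  have hy0 : 0 < y := lt_of_le_of_lt hx.1 hxy
  have hb : btw ((0 : ℝ) : UnitAddCircle) (x : UnitAddCircle) (y : UnitAddCircle) := by
    rw [QuotientAddGroup.btw_coe_iff]
    have e1 : toIcoMod (one_pos (α := ℝ)) 0 x = x := by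
      rw [toIcoMod_eq_self]
      simpa using hx
    have e2 : toIocMod (one_pos (α := ℝ)) 0 y = y := by
      rw [toIocMod_eq_self]
      exact ⟨hy0, by linarith [hy.2]⟩
    rw [e1, e2]
    exact hxy.le
  have hb' := (f.2 ((0 : ℝ) : UnitAddCircle) (x : UnitAddCircle) (y : UnitAddCircle)).2 hb
  rw [← coe_liftIco, ← coe_liftIco, ← coe_liftIco, QuotientAddGroup.btw_coe_iff, liftIco_zero]
    at hb'
  have e1 : toIcoMod (one_pos (α := ℝ)) (lift0 f) (liftIco f x) = liftIco f x := by
    rw [toIcoMod_eq_self]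
    exact liftIco_mem f x
  have hy1 : lift0 f < liftIco f y := by
    refine lt_of_le_of_ne (liftIco_mem f y).1 fun h => ?_
    rw [← liftIco_zero] at h
    have := inj ⟨le_refl _, one_pos⟩ hy h
    linarith
  have e2 : toIocMod (one_pos (α := ℝ)) (lift0 f) (liftIco f y) = liftIco f y := by
    rw [toIocMod_eq_self]
    exact ⟨hy1, (liftIco_mem f y).2.le⟩
  rw [e1, e2] at hb'
  refine lt_of_le_of_ne hb' fun h => ?_
  have := inj hx hy h
  linarith

/-- The lift. -/
noncomputable def liftFun (f : HomeoPlus) (x : ℝ) : ℝ := liftIco f (Int.fract x) + ⌊x⌋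

theorem liftFun_strictMono (f : HomeoPlus) : StrictMono (liftFun f) := by
  intro x y hxy
  have fx : Int.fract x ∈ Set.Ico (0 : ℝ) 1 := ⟨Int.fract_nonneg x, Int.fract_lt_one x⟩
  have fy : Int.fract y ∈ Set.Ico (0 : ℝ) 1 := ⟨Int.fract_nonneg y, Int.fract_lt_one y⟩
  rcases eq_or_lt_of_le (Int.floor_mono hxy.le) with h | h
  · unfold liftFun
    rw [h]
    have h1 : Int.fract x < Int.fract y := by
      unfold Int.fract
      rw [h]
      linarith
    have h2 := liftIco_strictMonoOn f fx fy h1
    linarith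
  · unfold liftFun
    have h1 := (liftIco_mem f (Int.fract x)).2
    have h2 := (liftIco_mem f (Int.fract y)).1
    have h3 : (⌊x⌋ : ℝ) + 1 ≤ ⌊y⌋ := by exact_mod_cast h
    linarith

theorem coe_liftFun (f : HomeoPlus) (x : ℝ) :
    ((liftFun f x : ℝ) : UnitAddCircle) =
      (f : UnitAddCircle ≃ₜ UnitAddCircle) (x : UnitAddCircle) := by
  have h1 : ((liftFun f x : ℝ) : UnitAddCircle) = ((liftIco f (Int.fract x) : ℝ) : UnitAddCircle) :=
    coe_eq_coe.2 ⟨⌊x⌋, rfl⟩
  have h2 : ((Int.fract x : ℝ) : UnitAddCircle) = (x : UnitAddCircle) :=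
    coe_eq_coe.2 ⟨-⌊x⌋, by unfold Int.fract; push_cast; ring⟩
  rw [h1, coe_liftIco, h2]

theorem liftFun_add_one (f : HomeoPlus) (x : ℝ) : liftFun f (x + 1) = liftFun f x + 1 := by
  unfold liftFun
  rw [Int.fract_add_one, Int.floor_add_one]
  push_cast
  ring

theorem liftFun_add_int (f : HomeoPlus) (x : ℝ) (n : ℤ) :
    liftFun f (x + n) = liftFun f x + n := by
  unfold liftFun
  rw [Int.fract_add_intCast, Int.floor_add_intCast]
  push_cast
  ring

theorem liftFun_surjective (f : HomeoPlus) : Function.Surjective (liftFun f) := by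
  intro y
  obtain ⟨x, hx⟩ := QuotientAddGroup.mk_surjective
    ((f : UnitAddCircle ≃ₜ UnitAddCircle).symm (y : UnitAddCircle))
  have h1 : (f : UnitAddCircle ≃ₜ UnitAddCircle) (x : UnitAddCircle) = (y : UnitAddCircle) := by
    rw [hx]
    exact (f : UnitAddCircle ≃ₜ UnitAddCircle).apply_symm_apply _
  rw [← coe_liftFun] at h1
  obtain ⟨n, hn⟩ := coe_eq_coe.1 h1
  refine ⟨x + (-n : ℤ), ?_⟩
  rw [liftFun_add_int, hn]
  push_cast
  ring

/-- The lift as a degree one map. -/
noncomputable def liftDeg1 (f : HomeoPlus) : CircleDeg1Lift where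
  toFun := liftFun f
  monotone' := (liftFun_strictMono f).monotone
  map_add_one' := liftFun_add_one f

theorem liftDeg1_isUnit (f : HomeoPlus) : IsUnit (liftDeg1 f) :=
  CircleDeg1Lift.isUnit_iff_bijective.2 ⟨(liftFun_strictMono f).injective, liftFun_surjective f⟩

/-- Every orientation preserving homeomorphism of the circle has a lift. -/
theorem cov_surjective : Function.Surjective cov := by
  intro f
  obtain ⟨F, hF⟩ := liftDeg1_isUnit f
  refine ⟨F, ?_⟩
  rw [cov_eq_iff]
  intro x
  have h1 : (F x : ℝ) = liftFun f x := by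
    show (F : CircleDeg1Lift) x = _
    rw [hF]
    rfl
  rw [h1, coe_liftFun]

end Pool.Agent.EC
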