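import Pool.Agent.EC.Lambert

/-! Surface groups, the quadrilateral Coxeter group `W4 = ⟨s_y, s_z, b_y, b_z⟩` and its map to the
Lambert cube group. -/

namespace Pool.Agent.EC

open scoped commutatorElement

/-- The relator `[a₁,b₁]⋯[a_g,b_g]` of the surface group of genus `g`. -/
abbrev SurfRel (g : ℕ) : FreeGroup (Fin g × Bool) :=
  (List.ofFn fun i : Fin g => ⁅FreeGroup.of (i, false), FreeGroup.of (i, true)⁆).prod

/-- The fundamental group of the closed orientable surface of genus `g`. -/
abbrev SurfGroup (g : ℕ) : Type := PresentedGroup {SurfRel g}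

/-- The Coxeter matrix of the quadrilateral group; `0,1,2,3 = s_y, s_z, b_y, b_z`. -/
def N4 : CoxeterMatrix (Fin 4) where
  M := !![1, 2, 0, 2;
          2, 1, 4, 0;
          0, 4, 1, 2;
          2, 0, 2, 1]
  isSymm := by unfold Matrix.IsSymm; decide
  diagonal := by decide
  off_diagonal := by
    intro i j hij
    fin_cases i <;> fin_cases j <;> first | exact absurd rfl hij | (change (_ : ℕ) ≠ 1; decide)

/-- The quadrilateral group. -/
abbrev W4 : Type := N4.Group

/-- The generators `s_y, s_z, b_y, b_z` of the quadrilateral group inside the Lambert cube group. -/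
def iota4 : Fin 4 → Fin 6 := ![1, 2, 4, 5]

theorem N4_iota (i j : Fin 4) : Lam.M (iota4 i) (iota4 j) = N4 i j := by
  fin_cases i <;> fin_cases j <;> rfl

/-- The map `W4 → W` of the quadrilateral group to the Lambert cube group. -/
def j4 : W4 →* Lam.M.Group :=
  N4.toCoxeterSystem.lift ⟨fun i => Lam.M.toCoxeterSystem.simple (iota4 i), fun i j => by
    rw [← N4_iota]
    exact Lam.M.toCoxeterSystem.simple_mul_simple_pow _ _⟩

theorem j4_simple (i : Fin 4) :
    j4 (N4.toCoxeterSystem.simple i) = Lam.M.toCoxeterSystem.simple (iota4 i) :=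
  CoxeterSystem.lift_apply_simple _ _ _

/-- The retraction `W → W4` (kill `s_x` and `b_x`). -/
def retr4 : Lam.M.Group →* W4 :=
  Lam.M.toCoxeterSystem.lift ⟨![1, N4.toCoxeterSystem.simple 0, N4.toCoxeterSystem.simple 1, 1,
    N4.toCoxeterSystem.simple 2, N4.toCoxeterSystem.simple 3], fun i j => by
    have sq : ∀ i, N4.toCoxeterSystem.simple i ^ 2 = 1 := fun i => CoxeterSystem.simple_sq _ i
    have pw : ∀ i j, (N4.toCoxeterSystem.simple i * N4.toCoxeterSystem.simple j) ^ N4 i j = 1 :=
      fun i j => CoxeterSystem.simple_mul_simple_pow _ i j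
    have sq4 : ∀ i, N4.toCoxeterSystem.simple i ^ 4 = 1 := fun i => by
      have := pow_mul (N4.toCoxeterSystem.simple i) 2 2
      rw [sq, one_pow] at this
      exact this
    fin_cases i <;> fin_cases j <;>
      first
        | exact pow_zero _
        | exact one_pow _
        | exact pw 0 0 | exact pw 0 1 | exact pw 0 2 | exact pw 0 3
        | exact pw 1 0 | exact pw 1 1 | exact pw 1 2 | exact pw 1 3
        | exact pw 2 0 | exact pw 2 1 | exact pw 2 2 | exact pw 2 3
        | exact pw 3 0 | exact pw 3 1 | exact pw 3 2 | exact pw 3 3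
        | (change (1 * N4.toCoxeterSystem.simple _) ^ 4 = 1; rw [one_mul]; exact sq4 _)⟩

theorem retr4_j4 (w : W4) : retr4 (j4 w) = w := by
  have : retr4.comp j4 = MonoidHom.id _ := by
    apply N4.toCoxeterSystem.ext_simple
    intro i
    rw [MonoidHom.comp_apply, j4_simple, MonoidHom.id_apply]
    refine (CoxeterSystem.lift_apply_simple _ _ _).trans ?_
    fin_cases i <;> rfl
  exact DFunLike.congr_fun this w

theorem j4_injective : Function.Injective j4 := fun a b h => by
  rw [← retr4_j4 a, h, retr4_j4]

end Pool.Agent.EC
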