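import Pool.Agent.EC.Circle
import Pool.Agent.EC.SurfDefs

/-!
# Central extensions by `ℤ` as elements of `H²(G; ℤ)` and their values on surfaces

* `ZExt G` : the central extensions of `G` by `ℤ`, that is, the elements of `H²(G; ℤ)`.
* `ZExt.circle` : the central extension of the group of the orientation preserving homeomorphisms of
  the circle given by the lifts to the line, that is, the universal Euler class.
* `ZExt.pullback X ρ` : the pulled back class.
* `ZExt.eval X φ` : the value of the class on the surface `φ : π₁(Σ_g) → G`.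
* `ZExt.RealEq X Y` : the two classes are equal in `H²(G; ℝ)`.
-/

set_option autoImplicit false

namespace Pool.Agent.EC

open scoped commutatorElement

/-- A central extension of `G` by the infinite cyclic group generated by `t`. -/
structure ZExt (G : Type) [Group G] where
  /-- the total group -/
  E : Type
  [grp : Group E]
  /-- the projection -/
  π : E →* G
  /-- the generator of the kernel -/
  t : E
  surj : Function.Surjective π
  comm : ∀ e, t * e = e * t
  tker : π t = 1
  ker : ∀ e, π e = 1 → ∃ n : ℤ, e = t ^ n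
  inj : ∀ n : ℤ, t ^ n = 1 → n = 0

attribute [instance] ZExt.grp

namespace ZExt

variable {G H : Type} [Group G] [Group H]

/-- The universal Euler class: the extension of the group of the orientation preserving
homeomorphisms of the circle by its universal covering group. -/
def circle : ZExt HomeoPlus where
  E := CircleDeg1Liftˣ
  π := cov
  t := shift
  surj := cov_surjective
  comm := shift_commute
  tker := cov_shift
  ker := fun e h => (cov_eq_one_iff e).1 h
  inj := fun n h => shift_zpow_inj (m := n) (n := 0) (by rw [h, zpow_zero])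

variable (X : ZExt G)

theorem zpow_inj {m n : ℤ} (h : X.t ^ m = X.t ^ n) : m = n := by
  have h1 : X.t ^ (m - n) = 1 := by rw [zpow_sub, h, mul_inv_cancel]
  have := X.inj _ h1
  omega

theorem commute_zpow (n : ℤ) (e : X.E) : Commute (X.t ^ n) e :=
  (show Commute X.t e from X.comm e).zpow_left n

theorem map_zpow_t (n : ℤ) : X.π (X.t ^ n) = 1 := by
  rw [map_zpow, X.tker, one_zpow]

theorem eq_mul_of_map_eq {e e' : X.E} (h : X.π e = X.π e') : ∃ n : ℤ, e = e' * X.t ^ n := by
  obtain ⟨n, hn⟩ := X.ker (e'⁻¹ * e) (by rw [map_mul, map_inv, h, inv_mul_cancel])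
  exact ⟨n, by rw [← hn, mul_inv_cancel_left]⟩

/-- The pullback of a class along a homomorphism. -/
def pullback (ρ : H →* G) : ZExt H where
  E := ((ρ.comp (MonoidHom.fst H X.E)).eqLocus (X.π.comp (MonoidHom.snd H X.E)) :
    Subgroup (H × X.E))
  π := (MonoidHom.fst H X.E).comp (Subgroup.subtype _)
  t := ⟨(1, X.t), by
    show ρ 1 = X.π X.t
    rw [map_one, X.tker]⟩
  surj := by
    intro h
    obtain ⟨e, he⟩ := X.surj (ρ h)
    exact ⟨⟨(h, e), he.symm⟩, rfl⟩
  comm := by
    rintro ⟨⟨h, e⟩, he⟩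
    apply Subtype.ext
    apply Prod.ext
    · show 1 * h = h * 1
      rw [one_mul, mul_one]
    · exact X.comm e
  tker := rfl
  ker := by
    rintro ⟨⟨h, e⟩, he⟩ h1
    have h2 : h = 1 := h1
    subst h2
    obtain ⟨n, hn⟩ := X.ker e (by
      have h3 : ρ 1 = X.π e := he
      rw [← h3, map_one])
    refine ⟨n, ?_⟩
    apply Subtype.ext
    rw [SubgroupClass.coe_zpow]
    apply Prod.ext
    · show (1 : H) = ((1, X.t) ^ n : H × X.E).1
      rw [Prod.pow_fst, one_zpow]
    · show e = ((1, X.t) ^ n : H × X.E).2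
      rw [Prod.pow_snd, hn]
  inj := by
    intro n h
    apply X.inj
    have h1 := congrArg Subtype.val h
    rw [SubgroupClass.coe_zpow] at h1
    have h2 := congrArg Prod.snd h1
    rw [Prod.pow_snd] at h2
    exact h2

/-! ### The value on a surface -/

theorem lift_eq_of_lifts {g : ℕ} {F F' : Fin g × Bool → X.E}
    (h : ∀ i, X.π (F i) = X.π (F' i)) :
    FreeGroup.lift F (SurfRel g) = FreeGroup.lift F' (SurfRel g) := by
  have h1 : ∀ a b : Fin g × Bool, ⁅F a, F b⁆ = ⁅F' a, F' b⁆ := by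
    intro a b
    obtain ⟨m, hm⟩ := X.eq_mul_of_map_eq (h a)
    obtain ⟨n, hn⟩ := X.eq_mul_of_map_eq (h b)
    have c1 := X.commute_zpow m
    have c2 := X.commute_zpow n
    rw [hm, hn, commutatorElement_def, commutatorElement_def]
    calc F' a * X.t ^ m * (F' b * X.t ^ n) * (F' a * X.t ^ m)⁻¹ * (F' b * X.t ^ n)⁻¹
        = F' a * (X.t ^ m * (F' b * X.t ^ n)) * ((X.t ^ m)⁻¹ * (F' a)⁻¹) *
          ((X.t ^ n)⁻¹ * (F' b)⁻¹) := by group
      _ = F' a * (F' b * X.t ^ n * X.t ^ m) * ((X.t ^ m)⁻¹ * (F' a)⁻¹) *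
          ((X.t ^ n)⁻¹ * (F' b)⁻¹) := by rw [(c1 (F' b * X.t ^ n)).eq]
      _ = F' a * F' b * (X.t ^ n * (F' a)⁻¹) * ((X.t ^ n)⁻¹ * (F' b)⁻¹) := by group
      _ = F' a * F' b * ((F' a)⁻¹ * X.t ^ n) * ((X.t ^ n)⁻¹ * (F' b)⁻¹) := by
        rw [(c2 (F' a)⁻¹).eq]
      _ = F' a * F' b * (F' a)⁻¹ * (F' b)⁻¹ := by group
  have h2 : ∀ K : Fin g × Bool → X.E, FreeGroup.lift K (SurfRel g) =
      (List.ofFn fun i : Fin g => ⁅K (i, false), K (i, true)⁆).prod := by
    intro K
    rw [SurfRel, map_list_prod, List.map_ofFn]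
    congr 2
    funext i
    simp [Function.comp, map_commutatorElement]
  rw [h2, h2]
  congr 2
  funext i
  exact h1 _ _

theorem exists_eval {g : ℕ} (φ : SurfGroup g →* G) :
    ∃ n : ℤ, ∀ F : Fin g × Bool → X.E, (∀ i, X.π (F i) = φ (PresentedGroup.of i)) →
      FreeGroup.lift F (SurfRel g) = X.t ^ n := by
  choose F0 hF0 using fun i : Fin g × Bool => X.surj (φ (PresentedGroup.of i))
  have h1 : X.π (FreeGroup.lift F0 (SurfRel g)) = 1 := by
    have h2 : (X.π.comp (FreeGroup.lift F0)) = φ.comp (PresentedGroup.mk {SurfRel g}) := by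
      ext i
      rw [MonoidHom.comp_apply, FreeGroup.lift_apply_of, hF0]
      rfl
    have h3 := DFunLike.congr_fun h2 (SurfRel g)
    rw [MonoidHom.comp_apply, MonoidHom.comp_apply] at h3
    rw [h3]
    have h4 : PresentedGroup.mk {SurfRel g} (SurfRel g) = 1 :=
      PresentedGroup.one_of_mem (Set.mem_singleton _)
    rw [h4, map_one]
  obtain ⟨n, hn⟩ := X.ker _ h1
  refine ⟨n, fun F hF => ?_⟩
  rw [← hn]
  exact X.lift_eq_of_lifts fun i => by rw [hF, hF0]

/-- The value of the class `X` on the surface `φ`: the integer `n` such that the product of the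
commutators of any lifts of the standard generators is `t ^ n`. -/
noncomputable def eval {g : ℕ} (φ : SurfGroup g →* G) : ℤ := (X.exists_eval φ).choose

theorem eval_spec {g : ℕ} (φ : SurfGroup g →* G) (F : Fin g × Bool → X.E)
    (hF : ∀ i, X.π (F i) = φ (PresentedGroup.of i)) :
    FreeGroup.lift F (SurfRel g) = X.t ^ X.eval φ :=
  (X.exists_eval φ).choose_spec F hF

theorem eval_eq {g : ℕ} {φ : SurfGroup g →* G} {F : Fin g × Bool → X.E}
    (hF : ∀ i, X.π (F i) = φ (PresentedGroup.of i)) {n : ℤ}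
    (h : FreeGroup.lift F (SurfRel g) = X.t ^ n) : X.eval φ = n :=
  X.zpow_inj (by rw [← X.eval_spec φ F hF, h])

theorem lift_surfRel {K : Type*} [Group K] {g : ℕ} (F : Fin g × Bool → K) :
    FreeGroup.lift F (SurfRel g) =
      (List.ofFn fun i : Fin g => ⁅F (i, false), F (i, true)⁆).prod := by
  rw [SurfRel, map_list_prod, List.map_ofFn]
  congr 2
  funext i
  simp [Function.comp, map_commutatorElement]

theorem map_lift {K L : Type*} [Group K] [Group L] {α : Type*} (f : K →* L) (F : α → K)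
    (w : FreeGroup α) : f (FreeGroup.lift F w) = FreeGroup.lift (fun i => f (F i)) w := by
  have : f.comp (FreeGroup.lift F) = FreeGroup.lift (fun i => f (F i)) := by
    ext i
    rw [MonoidHom.comp_apply, FreeGroup.lift_apply_of, FreeGroup.lift_apply_of]
  exact DFunLike.congr_fun this w

theorem eval_pullback {g : ℕ} (ρ : H →* G) (φ : SurfGroup g →* H) :
    (X.pullback ρ).eval φ = X.eval (ρ.comp φ) := by
  choose F hF using fun i : Fin g × Bool => (X.pullback ρ).surj (φ (PresentedGroup.of i))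
  apply (X.pullback ρ).eval_eq hF
  have h1 : ∀ i, X.π ((F i).1.2) = (ρ.comp φ) (PresentedGroup.of i) := by
    intro i
    have h2 : ρ (F i).1.1 = X.π (F i).1.2 := (F i).2
    rw [← h2]
    have h3 : (F i).1.1 = φ (PresentedGroup.of i) := hF i
    rw [h3]
    rfl
  have h4 := X.eval_spec (ρ.comp φ) _ h1
  have h5 : (X.pullback ρ).π (FreeGroup.lift F (SurfRel g)) = 1 := by
    rw [(X.pullback ρ).eval_spec φ F hF, (X.pullback ρ).map_zpow_t]
  apply Subtype.ext
  apply Prod.ext
  · have h6 : (FreeGroup.lift F (SurfRel g)).1.1 = 1 := h5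
    rw [h6]
    have h7 := (X.pullback ρ).map_zpow_t (X.eval (ρ.comp φ))
    exact h7.symm
  · have h8 := map_lift ((MonoidHom.snd H X.E).comp (Subgroup.subtype
      ((ρ.comp (MonoidHom.fst H X.E)).eqLocus (X.π.comp (MonoidHom.snd H X.E))))) F (SurfRel g)
    refine Eq.trans h8 ?_
    refine Eq.trans h4 ?_
    have h9 := map_zpow ((MonoidHom.snd H X.E).comp (Subgroup.subtype
      ((ρ.comp (MonoidHom.fst H X.E)).eqLocus (X.π.comp (MonoidHom.snd H X.E)))))
      (X.pullback ρ).t (X.eval (ρ.comp φ))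
    exact h9.symm

/-! ### Equality with real coefficients -/

/-- The classes of `X` and `Y` have the same image in `H²(G; ℝ)`: for some sections (equivalently,
for all sections) the difference of the two integral cocycles is the coboundary of a real valued
function. -/
def RealEq (X Y : ZExt G) : Prop :=
  ∃ (s : G → X.E) (s' : G → Y.E) (c c' : G → G → ℤ) (b : G → ℝ),
    (∀ g, X.π (s g) = g) ∧ (∀ g, Y.π (s' g) = g) ∧
    (∀ g h, s g * s h = s (g * h) * X.t ^ c g h) ∧
    (∀ g h, s' g * s' h = s' (g * h) * Y.t ^ c' g h) ∧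
    ∀ g h, (c g h : ℝ) - c' g h = b g + b h - b (g * h)

/-- The exponent relative to a section is additive up to the cocycle. -/
theorem exists_exponent (s : G → X.E) (c : G → G → ℤ) (hs : ∀ g, X.π (s g) = g)
    (hc : ∀ g h, s g * s h = s (g * h) * X.t ^ c g h) :
    ∃ m : X.E → ℤ, (∀ e, e = s (X.π e) * X.t ^ m e) ∧
      ∀ e e', m (e * e') = m e + m e' + c (X.π e) (X.π e') := by
  choose m hm using fun e : X.E => X.eq_mul_of_map_eq (e := e) (e' := s (X.π e)) (by rw [hs])
  refine ⟨m, hm, fun e e' => ?_⟩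
  apply X.zpow_inj
  have h1 : s (X.π (e * e')) * X.t ^ m (e * e') =
      s (X.π e) * X.t ^ m e * (s (X.π e') * X.t ^ m e') := by
    rw [← hm, ← hm, ← hm]
  have h2 : s (X.π e) * X.t ^ m e * (s (X.π e') * X.t ^ m e') =
      s (X.π (e * e')) * X.t ^ (m e + m e' + c (X.π e) (X.π e')) := by
    calc s (X.π e) * X.t ^ m e * (s (X.π e') * X.t ^ m e')
        = s (X.π e) * (X.t ^ m e * s (X.π e')) * X.t ^ m e' := by group
      _ = s (X.π e) * s (X.π e') * (X.t ^ m e * X.t ^ m e') := by
        rw [(X.commute_zpow (m e) (s (X.π e'))).eq]; group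
      _ = s (X.π (e * e')) * X.t ^ (m e + m e' + c (X.π e) (X.π e')) := by
        rw [hc, map_mul, mul_assoc, ← zpow_add, ← zpow_add]
        congr 2
        ring
  exact mul_left_cancel (h1.trans h2)

/-- Classes which agree with real coefficients have the same values on all surfaces. -/
theorem RealEq.eval_eq {X Y : ZExt G} (h : RealEq X Y) {g : ℕ} (φ : SurfGroup g →* G) :
    X.eval φ = Y.eval φ := by
  obtain ⟨s, s', c, c', b, hs, hs', hc, hc', hb⟩ := h
  obtain ⟨m, hm, hm2⟩ := X.exists_exponent s c hs hc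
  obtain ⟨m', hm', hm2'⟩ := Y.exists_exponent s' c' hs' hc'
  choose F hF using fun i : Fin g × Bool => X.surj (φ (PresentedGroup.of i))
  choose F' hF' using fun i : Fin g × Bool => Y.surj (φ (PresentedGroup.of i))
  -- the fibre product
  let P : Subgroup (X.E × Y.E) :=
    (X.π.comp (MonoidHom.fst X.E Y.E)).eqLocus (Y.π.comp (MonoidHom.snd X.E Y.E))
  let k : P →* Multiplicative ℝ :=
    MonoidHom.mk' (fun p => Multiplicative.ofAdd ((m p.1.1 : ℝ) - m' p.1.2 + b (X.π p.1.1))) (by
      intro p q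
      have hp : X.π p.1.1 = Y.π p.1.2 := p.2
      have hq : X.π q.1.1 = Y.π q.1.2 := q.2
      rw [← ofAdd_add]
      congr 1
      show (m (p.1.1 * q.1.1) : ℝ) - m' (p.1.2 * q.1.2) + b (X.π (p.1.1 * q.1.1)) = _
      rw [hm2, hm2', map_mul, ← hp, ← hq]
      have h1 := hb (X.π p.1.1) (X.π q.1.1)
      push_cast
      linarith)
  let K : Fin g × Bool → P := fun i => ⟨(F i, F' i), by
    show X.π (F i) = Y.π (F' i)
    rw [hF, hF']⟩
  have e1 : k (FreeGroup.lift K (SurfRel g)) = 1 := by
    rw [lift_surfRel, map_list_prod, List.map_ofFn]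
    apply List.prod_eq_one
    intro x hx
    rw [List.mem_ofFn] at hx
    obtain ⟨i, rfl⟩ := hx
    simp only [Function.comp, map_commutatorElement]
    rw [commutatorElement_eq_one_iff_mul_comm]
    exact mul_comm _ _
  have e2 : (FreeGroup.lift K (SurfRel g)).1.1 = X.t ^ X.eval φ := by
    rw [← X.eval_spec φ F hF]
    exact map_lift ((MonoidHom.fst X.E Y.E).comp P.subtype) K (SurfRel g)
  have e3 : (FreeGroup.lift K (SurfRel g)).1.2 = Y.t ^ Y.eval φ := by
    rw [← Y.eval_spec φ F' hF']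
    exact map_lift ((MonoidHom.snd X.E Y.E).comp P.subtype) K (SurfRel g)
  have e4 : (m (X.t ^ X.eval φ) : ℝ) - m' (Y.t ^ Y.eval φ) + b 1 = 0 := by
    have h1 : Multiplicative.toAdd (k (FreeGroup.lift K (SurfRel g))) = 0 := by rw [e1]; rfl
    have h2 : Multiplicative.toAdd (k (FreeGroup.lift K (SurfRel g))) =
        (m (FreeGroup.lift K (SurfRel g)).1.1 : ℝ) - m' (FreeGroup.lift K (SurfRel g)).1.2 +
          b (X.π (FreeGroup.lift K (SurfRel g)).1.1) := rfl
    rw [h2, e2, e3, X.map_zpow_t] at h1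
    exact h1
  have e5 : (m 1 : ℝ) - m' 1 + b 1 = 0 := by
    have h1 : k 1 = 1 := map_one k
    have h2 : Multiplicative.toAdd (k 1) = 0 := by rw [h1]; rfl
    have h3 : Multiplicative.toAdd (k 1) = (m 1 : ℝ) - m' 1 + b (X.π 1) := rfl
    rw [h3, map_one] at h2
    exact h2
  have e6 : ∀ (Z : ZExt G) (s : G → Z.E) (m : Z.E → ℤ), (∀ e, e = s (Z.π e) * Z.t ^ m e) →
      ∀ n : ℤ, m (Z.t ^ n) = m 1 + n := by
    intro Z s m hm n
    apply Z.zpow_inj
    have h1 := hm (Z.t ^ n)
    have h2 := hm 1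
    rw [map_one] at h2
    rw [Z.map_zpow_t] at h1
    have h3 : s 1 * Z.t ^ m (Z.t ^ n) = s 1 * (Z.t ^ m 1 * Z.t ^ n) := by
      rw [← h1, ← mul_assoc, ← h2, one_mul]
    rw [zpow_add]
    exact mul_left_cancel h3
  rw [e6 X s m hm, e6 Y s' m' hm'] at e4
  push_cast at e4
  have e7 : ((X.eval φ : ℤ) : ℝ) = ((Y.eval φ : ℤ) : ℝ) := by linarith
  exact_mod_cast e7

end ZExt

end Pool.Agent.EC
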