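import Pool.Agent.EC.Lambert

/-! The index-8 subgroup `G` of the Lambert cube group (the fundamental group of the orbifold
`T³` with three rods of cone angle `π`) and its universal property. -/

namespace Pool.Agent.EC

theorem liftable_of_comm {K : Type*} [Group K] {a b : K} (ha : a * a = 1) (hb : b * b = 1)
    (hab : a * b = b * a) : (a * b) ^ 2 = 1 := by
  rw [pow_two]
  calc a * b * (a * b) = a * b * (b * a) := by rw [hab]
    _ = a * (b * b) * a := by simp only [mul_assoc]
    _ = 1 := by rw [hb, mul_one, ha]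

theorem pow_swap {K : Type*} [Group K] {a b : K} (ha : a * a = 1) (hb : b * b = 1) {n : ℕ}
    (h : (a * b) ^ n = 1) : (b * a) ^ n = 1 := by
  have h1 : b * a = (a * b)⁻¹ := by
    rw [mul_inv_rev, ← eq_inv_of_mul_eq_one_left ha, ← eq_inv_of_mul_eq_one_left hb]
  rw [h1, inv_pow, h, inv_one]

namespace Lam

/-- The Coxeter group of the Lambert cube. -/
abbrev W : Type _ := M.Group

/-- Its Coxeter system. -/
abbrev S : CoxeterSystem M W := M.toCoxeterSystem

/-- Criterion for liftability to the Lambert cube group. -/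
theorem liftable_iff {K : Type*} [Group K] (f : Fin 6 → K) (h1 : ∀ i, f i * f i = 1)
    (c01 : f 0 * f 1 = f 1 * f 0) (c02 : f 0 * f 2 = f 2 * f 0) (c12 : f 1 * f 2 = f 2 * f 1)
    (c34 : f 3 * f 4 = f 4 * f 3) (c35 : f 3 * f 5 = f 5 * f 3) (c45 : f 4 * f 5 = f 5 * f 4)
    (c04 : f 0 * f 4 = f 4 * f 0) (c15 : f 1 * f 5 = f 5 * f 1) (c23 : f 2 * f 3 = f 3 * f 2)
    (d05 : (f 0 * f 5) ^ 4 = 1) (d13 : (f 1 * f 3) ^ 4 = 1) (d24 : (f 2 * f 4) ^ 4 = 1) :
    M.IsLiftable f := by
  intro i j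
  have hc : ∀ a b, f a * f b = f b * f a → (f a * f b) ^ 2 = 1 := fun a b h =>
    liftable_of_comm (h1 a) (h1 b) h
  fin_cases i <;> fin_cases j
  all_goals first
    | exact pow_zero _
    | exact (pow_one _).trans (h1 _)
    | exact hc _ _ c01
    | exact hc _ _ c02
    | exact hc _ _ c12
    | exact hc _ _ c34
    | exact hc _ _ c35
    | exact hc _ _ c45
    | exact hc _ _ c04
    | exact hc _ _ c15
    | exact hc _ _ c23
    | exact hc _ _ c01.symm
    | exact hc _ _ c02.symm
    | exact hc _ _ c12.symm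
    | exact hc _ _ c34.symm
    | exact hc _ _ c35.symm
    | exact hc _ _ c45.symm
    | exact hc _ _ c04.symm
    | exact hc _ _ c15.symm
    | exact hc _ _ c23.symm
    | exact d05
    | exact d13
    | exact d24
    | exact pow_swap (h1 _) (h1 _) d05
    | exact pow_swap (h1 _) (h1 _) d13
    | exact pow_swap (h1 _) (h1 _) d24

/-- The translation part `(Z/2)^3`. -/
abbrev Tr : Type := Bool × Bool × Bool

/-- Flip the coordinate of a mirror. -/
def flip : Fin 6 → Tr → Tr :=
  ![fun r => (!r.1, r.2.1, r.2.2), fun r => (r.1, !r.2.1, r.2.2), fun r => (r.1, r.2.1, !r.2.2),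
    fun r => (!r.1, r.2.1, r.2.2), fun r => (r.1, !r.2.1, r.2.2), fun r => (r.1, r.2.1, !r.2.2)]

theorem flip_flip (i : Fin 6) : Function.Involutive (flip i) := by
  intro r
  revert i r; decide

/-- Flips as permutations. -/
def flipP (i : Fin 6) : Equiv.Perm Tr := (flip_flip i).toPerm

theorem flipP_apply (i : Fin 6) (r : Tr) : flipP i r = flip i r := rfl

theorem flipP_liftable : M.IsLiftable flipP := by
  have hc : ∀ a b, flipP a * flipP b = flipP b * flipP a := by
    intro a b
    ext r : 1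
    change flip a (flip b r) = flip b (flip a r)
    revert a b r; decide
  have h1 : ∀ i, flipP i * flipP i = 1 := by
    intro i
    ext r : 1
    exact flip_flip i r
  have h4 : ∀ a b, (flipP a * flipP b) ^ 4 = 1 := by
    intro a b
    rw [show (4 : ℕ) = 2 * 2 from rfl, pow_mul, liftable_of_comm (h1 a) (h1 b) (hc a b), one_pow]
  exact liftable_iff flipP h1 (hc _ _) (hc _ _) (hc _ _) (hc _ _) (hc _ _) (hc _ _) (hc _ _)
    (hc _ _) (hc _ _) (h4 _ _) (h4 _ _) (h4 _ _)

/-- The parity homomorphism `W → (Z/2)^3` (acting on `(Z/2)^3` by translations). -/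
noncomputable def par : W →* Equiv.Perm Tr := S.lift ⟨flipP, flipP_liftable⟩

theorem par_simple (i : Fin 6) : par (S.simple i) = flipP i := S.lift_apply_simple _ i

/-- The index-8 subgroup. -/
noncomputable def G : Subgroup W := par.ker

/-- The generators. -/
noncomputable def x : W := S.simple 3 * S.simple 0
noncomputable def y : W := S.simple 4 * S.simple 1
noncomputable def z : W := S.simple 5 * S.simple 2

theorem mem_G {w : W} : w ∈ G ↔ par w = 1 := Iff.rfl

theorem x_mem : x ∈ G := by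
  rw [mem_G]; unfold x; rw [map_mul, par_simple, par_simple]
  ext r : 1
  change flip 3 (flip 0 r) = r
  revert r; decide
theorem y_mem : y ∈ G := by
  rw [mem_G]; unfold y; rw [map_mul, par_simple, par_simple]
  ext r : 1
  change flip 4 (flip 1 r) = r
  revert r; decide
theorem z_mem : z ∈ G := by
  rw [mem_G]; unfold z; rw [map_mul, par_simple, par_simple]
  ext r : 1
  change flip 5 (flip 2 r) = r
  revert r; decide

section Lift

variable {K : Type*} [Group K]

/-- The twisted letters. -/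
def tw (X p : K) : Bool → Bool → K
  | false, false => X
  | false, true => p * X
  | true, false => X⁻¹
  | true, true => X⁻¹ * p

theorem tw_inv (X p : K) (hp : p * p = 1) (a b : Bool) : tw X p a b * tw X p (!a) b = 1 := by
  cases a <;> cases b <;> simp only [tw, Bool.not_true, Bool.not_false]
  · group
  · calc p * X * (X⁻¹ * p) = p * p := by group
      _ = 1 := hp
  · group
  · calc X⁻¹ * p * (p * X) = X⁻¹ * (p * p) * X := by group
      _ = 1 := by rw [hp]; group

theorem tw_sq (X p : K) (hp : p * p = 1) (a b : Bool) :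
    (tw X p a (!b) * tw X p (!a) b) * (tw X p a (!b) * tw X p (!a) b) = 1 := by
  cases a <;> cases b <;> simp only [tw, Bool.not_true, Bool.not_false]
  · calc p * X * X⁻¹ * (p * X * X⁻¹) = p * p := by group
      _ = 1 := hp
  · calc X * (X⁻¹ * p) * (X * (X⁻¹ * p)) = p * p := by group
      _ = 1 := hp
  · calc X⁻¹ * p * X * (X⁻¹ * p * X) = X⁻¹ * (p * p) * X := by group
      _ = 1 := by rw [hp]; group
  · calc X⁻¹ * (p * X) * (X⁻¹ * (p * X)) = X⁻¹ * (p * p) * X := by group
      _ = 1 := by rw [hp]; group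

theorem tw_comm (X Y p q : K) (hp : p * p = 1) (hXY : p = X * Y⁻¹ * X⁻¹ * Y)
    (hqX : q * X = X * q) (a b c : Bool) :
    tw X p a b * tw Y q b c = tw Y q b c * tw X p a (!b) := by
  have hpi : p = p⁻¹ := eq_inv_of_mul_eq_one_left hp
  have hpi' : p = Y⁻¹ * X * Y * X⁻¹ := by
    rw [hpi, hXY]; group
  have hqX' : q * X⁻¹ = X⁻¹ * q := by
    calc q * X⁻¹ = X⁻¹ * (X * q) * X⁻¹ := by group
      _ = X⁻¹ * (q * X) * X⁻¹ := by rw [hqX]
      _ = X⁻¹ * q := by group
  have e1 : X * Y = Y * (p * X) := by rw [hpi']; group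
  have e2 : X⁻¹ * Y = Y * (X⁻¹ * p) := by rw [hXY]; group
  have e3 : p * X * Y⁻¹ = Y⁻¹ * X := by rw [hpi']; group
  have e4 : X⁻¹ * p * Y⁻¹ = Y⁻¹ * X⁻¹ := by rw [hXY]; group
  cases a <;> cases b <;> cases c <;> simp only [tw, Bool.not_true, Bool.not_false]
  · exact e1
  · calc X * (q * Y) = (X * q) * Y := by group
      _ = q * (X * Y) := by rw [← hqX]; group
      _ = q * Y * (p * X) := by rw [e1]; group
  · exact e3
  · calc p * X * (Y⁻¹ * q) = (p * X * Y⁻¹) * q := by group
      _ = Y⁻¹ * (X * q) := by rw [e3]; group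
      _ = Y⁻¹ * q * X := by rw [← hqX]; group
  · exact e2
  · calc X⁻¹ * (q * Y) = (X⁻¹ * q) * Y := by group
      _ = q * (X⁻¹ * Y) := by rw [← hqX']; group
      _ = q * Y * (X⁻¹ * p) := by rw [e2]; group
  · exact e4
  · calc X⁻¹ * p * (Y⁻¹ * q) = (X⁻¹ * p * Y⁻¹) * q := by group
      _ = Y⁻¹ * (X⁻¹ * q) := by rw [e4]; group
      _ = Y⁻¹ * q * X⁻¹ := by rw [← hqX']; group

/-- The relations of `G`: `u_Z = [X,Y⁻¹]`, `u_X = [Y,Z⁻¹]`, `u_Y = [Z,X⁻¹]` have order two and
commute with the letter of the same name. -/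
structure GRel (X Y Z : K) : Prop where
  hZ : (X * Y⁻¹ * X⁻¹ * Y) * (X * Y⁻¹ * X⁻¹ * Y) = 1
  hX : (Y * Z⁻¹ * Y⁻¹ * Z) * (Y * Z⁻¹ * Y⁻¹ * Z) = 1
  hY : (Z * X⁻¹ * Z⁻¹ * X) * (Z * X⁻¹ * Z⁻¹ * X) = 1
  cX : (Y * Z⁻¹ * Y⁻¹ * Z) * X = X * (Y * Z⁻¹ * Y⁻¹ * Z)
  cY : (Z * X⁻¹ * Z⁻¹ * X) * Y = Y * (Z * X⁻¹ * Z⁻¹ * X)
  cZ : (X * Y⁻¹ * X⁻¹ * Y) * Z = Z * (X * Y⁻¹ * X⁻¹ * Y)

/-- The monomial action on generators, with the three involutions as parameters. -/
def mact (X Y Z p q s : K) (i : Fin 6) (t : Tr × K) : Tr × K :=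
  (flip i t.1, (![1, 1, 1, tw X p (!t.1.1) t.1.2.1, tw Y q (!t.1.2.1) t.1.2.2,
    tw Z s (!t.1.2.2) t.1.1] : Fin 6 → K) i * t.2)

variable {X Y Z p q s : K}

theorem mact_mact (hp : p * p = 1) (hq : q * q = 1) (hs : s * s = 1) (i : Fin 6) :
    Function.Involutive (mact X Y Z p q s i) := by
  rintro ⟨⟨a, b, c⟩, k⟩
  have iX := tw_inv X p hp a b
  have iY := tw_inv Y q hq b c
  have iZ := tw_inv Z s hs c a
  fin_cases i
  · simp [mact, flip]
  · simp [mact, flip]
  · simp [mact, flip]
  · simp [mact, flip, ← mul_assoc, iX]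
  · simp [mact, flip, ← mul_assoc, iY]
  · simp [mact, flip, ← mul_assoc, iZ]

/-- The monomial action as permutations. -/
def mactP (hp : p * p = 1) (hq : q * q = 1) (hs : s * s = 1) (i : Fin 6) :
    Equiv.Perm (Tr × K) := (mact_mact (X := X) (Y := Y) (Z := Z) hp hq hs i).toPerm

theorem mactP_liftable (hp : p * p = 1) (hq : q * q = 1) (hs : s * s = 1)
    (c1 : ∀ a b c, tw X p a b * tw Y q b c = tw Y q b c * tw X p a (!b))
    (c2 : ∀ a b c, tw Y q a b * tw Z s b c = tw Z s b c * tw Y q a (!b))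
    (c3 : ∀ a b c, tw Z s a b * tw X p b c = tw X p b c * tw Z s a (!b)) :
    M.IsLiftable (mactP (X := X) (Y := Y) (Z := Z) hp hq hs) := by
  have comm : ∀ i j, (∀ t, mact X Y Z p q s i (mact X Y Z p q s j t) =
      mact X Y Z p q s j (mact X Y Z p q s i t)) →
      mactP (X := X) (Y := Y) (Z := Z) hp hq hs i * mactP (X := X) (Y := Y) (Z := Z) hp hq hs j =
      mactP (X := X) (Y := Y) (Z := Z) hp hq hs j * mactP (X := X) (Y := Y) (Z := Z) hp hq hs i := by
    intro i j h
    ext t : 1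
    exact h t
  have four : ∀ i j, (∀ t, mact X Y Z p q s i (mact X Y Z p q s j (mact X Y Z p q s i
      (mact X Y Z p q s j (mact X Y Z p q s i (mact X Y Z p q s j (mact X Y Z p q s i
      (mact X Y Z p q s j t))))))) = t) →
      (mactP (X := X) (Y := Y) (Z := Z) hp hq hs i *
        mactP (X := X) (Y := Y) (Z := Z) hp hq hs j) ^ 4 = 1 := by
    intro i j h
    ext t : 1
    rw [show (4 : ℕ) = 3 + 1 from rfl, pow_succ, pow_succ, pow_two]
    exact h t
  have sX := tw_sq X p hp
  have sY := tw_sq Y q hq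
  have sZ := tw_sq Z s hs
  apply liftable_iff
  · intro i
    ext t : 1
    exact mact_mact hp hq hs i t
  · apply comm; rintro ⟨⟨a, b, c⟩, k⟩; simp [mact, flip]
  · apply comm; rintro ⟨⟨a, b, c⟩, k⟩; simp [mact, flip]
  · apply comm; rintro ⟨⟨a, b, c⟩, k⟩; simp [mact, flip]
  · apply comm; rintro ⟨⟨a, b, c⟩, k⟩
    simp only [mact, flip, Matrix.cons_val, Prod.mk.injEq, true_and, ← mul_assoc, Bool.not_not]
    have := c1 (!a) (!b) c
    rw [Bool.not_not] at this
    rw [this]
  · apply comm; rintro ⟨⟨a, b, c⟩, k⟩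
    simp only [mact, flip, Matrix.cons_val, Prod.mk.injEq, true_and, ← mul_assoc, Bool.not_not]
    have := c3 (!c) (!a) b
    rw [Bool.not_not] at this
    rw [this]
  · apply comm; rintro ⟨⟨a, b, c⟩, k⟩
    simp only [mact, flip, Matrix.cons_val, Prod.mk.injEq, true_and, ← mul_assoc, Bool.not_not]
    have := c2 (!b) (!c) a
    rw [Bool.not_not] at this
    rw [this]
  · apply comm; rintro ⟨⟨a, b, c⟩, k⟩; simp [mact, flip]
  · apply comm; rintro ⟨⟨a, b, c⟩, k⟩; simp [mact, flip]
  · apply comm; rintro ⟨⟨a, b, c⟩, k⟩; simp [mact, flip]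
  · apply four; rintro ⟨⟨a, b, c⟩, k⟩
    simp only [mact, flip, Matrix.cons_val, ← mul_assoc, Bool.not_not, one_mul,
      Matrix.cons_val_zero]
    have e := sZ c a
    simp only [← mul_assoc] at e
    rw [e, one_mul]
  · apply four; rintro ⟨⟨a, b, c⟩, k⟩
    simp only [mact, flip, Matrix.cons_val, ← mul_assoc, Bool.not_not, one_mul,
      Matrix.cons_val_one]
    have e := sX a b
    simp only [← mul_assoc] at e
    rw [e, one_mul]
  · apply four; rintro ⟨⟨a, b, c⟩, k⟩
    simp only [mact, flip, Matrix.cons_val, ← mul_assoc, Bool.not_not, one_mul]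
    have e := sY b c
    simp only [← mul_assoc] at e
    rw [e, one_mul]

/-- The monomial representation of `W` attached to elements satisfying the relations of `G`. -/
noncomputable def mono (h : GRel X Y Z) : W →* Equiv.Perm (Tr × K) :=
  S.lift ⟨mactP (X := X) (Y := Y) (Z := Z) h.hZ h.hX h.hY, mactP_liftable h.hZ h.hX h.hY
    (tw_comm X Y _ _ h.hZ rfl h.cX) (tw_comm Y Z _ _ h.hX rfl h.cY) (tw_comm Z X _ _ h.hY rfl h.cZ)⟩

theorem mono_simple (h : GRel X Y Z) (i : Fin 6) (t : Tr × K) :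
    mono h (S.simple i) t = mact X Y Z (X * Y⁻¹ * X⁻¹ * Y) (Y * Z⁻¹ * Y⁻¹ * Z)
      (Z * X⁻¹ * Z⁻¹ * X) i t := by
  have : mono h (S.simple i) = mactP (X := X) (Y := Y) (Z := Z) h.hZ h.hX h.hY i :=
    S.lift_apply_simple _ i
  rw [this]; rfl

theorem mono_fst (h : GRel X Y Z) (w : W) (t : Tr × K) : (mono h w t).1 = par w t.1 := by
  induction w using S.simple_induction_left generalizing t with
  | one => simp
  | mul_simple_left w i ih =>
    rw [map_mul, Equiv.Perm.mul_apply, mono_simple, map_mul, Equiv.Perm.mul_apply, par_simple,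
      flipP_apply, ← ih]
    rfl

theorem mono_right (h : GRel X Y Z) (w : W) (r : Tr) (k : K) :
    mono h w (r, k) = ((mono h w (r, 1)).1, (mono h w (r, 1)).2 * k) := by
  induction w using S.simple_induction_left with
  | one => simp
  | mul_simple_left w i ih =>
    rw [map_mul, Equiv.Perm.mul_apply, Equiv.Perm.mul_apply, ih]
    simp only [mono_simple, mact, mul_assoc]

/-- The homomorphism `G →* K` attached to elements satisfying the relations of `G`. -/
noncomputable def gLift (h : GRel X Y Z) : G →* K where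
  toFun w := (mono h w.1 ((false, false, false), 1)).2
  map_one' := by simp
  map_mul' := by
    rintro ⟨v, hv⟩ ⟨w, hw⟩
    change (mono h (v * w) ((false, false, false), 1)).2 = _
    rw [map_mul, Equiv.Perm.mul_apply]
    have h1 : (mono h w ((false, false, false), (1 : K))).1 = (false, false, false) := by
      rw [mono_fst, mem_G.mp hw]; rfl
    have h2 : mono h w ((false, false, false), (1 : K)) =
        ((false, false, false), (mono h w ((false, false, false), 1)).2) := Prod.ext h1 rfl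
    rw [h2, mono_right]

theorem gLift_x (h : GRel X Y Z) : gLift h ⟨x, x_mem⟩ = X := by
  change (mono h x ((false, false, false), 1)).2 = X
  unfold x
  rw [map_mul, Equiv.Perm.mul_apply, mono_simple, mono_simple]
  simp [mact, flip, tw]

theorem gLift_y (h : GRel X Y Z) : gLift h ⟨y, y_mem⟩ = Y := by
  change (mono h y ((false, false, false), 1)).2 = Y
  unfold y
  rw [map_mul, Equiv.Perm.mul_apply, mono_simple, mono_simple]
  simp [mact, flip, tw]

theorem gLift_z (h : GRel X Y Z) : gLift h ⟨z, z_mem⟩ = Z := by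
  change (mono h z ((false, false, false), 1)).2 = Z
  unfold z
  rw [map_mul, Equiv.Perm.mul_apply, mono_simple, mono_simple]
  simp [mact, flip, tw]

end Lift

/-! ### The relations of `G` in `W`, generation -/

section Rel

theorem comm_assoc {K : Type*} [Semigroup K] {a b : K} (h : a * b = b * a) (c : K) :
    a * (b * c) = b * (a * c) := by rw [← mul_assoc, h, mul_assoc]

theorem sq_assoc {K : Type*} [Monoid K] {a : K} (h : a * a = 1) (c : K) :
    a * (a * c) = c := by rw [← mul_assoc, h, one_mul]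

/-- short names for the six mirrors -/
noncomputable abbrev s (i : Fin 6) : W := S.simple i

theorem s_sq (i : Fin 6) : s i * s i = 1 := S.simple_mul_simple_self i

theorem s_comm (i j : Fin 6) (h : M i j = 2) : s i * s j = s j * s i := by
  have h1 := S.simple_mul_simple_pow i j
  rw [h, pow_two] at h1
  have h2 := eq_inv_of_mul_eq_one_left h1
  rw [mul_inv_rev, S.inv_simple, S.inv_simple] at h2
  exact h2

theorem s_four (i j : Fin 6) (h : M i j = 4) :
    (s i * s j * (s i * s j)) * (s i * s j * (s i * s j)) = 1 := by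
  have h1 := S.simple_mul_simple_pow i j
  rw [h, show (4 : ℕ) = 2 * 2 from rfl, pow_mul, pow_two, pow_two] at h1
  exact h1

theorem x_inv : x⁻¹ = s 0 * s 3 := by unfold x; rw [mul_inv_rev, S.inv_simple, S.inv_simple]
theorem y_inv : y⁻¹ = s 1 * s 4 := by unfold y; rw [mul_inv_rev, S.inv_simple, S.inv_simple]
theorem z_inv : z⁻¹ = s 2 * s 5 := by unfold z; rw [mul_inv_rev, S.inv_simple, S.inv_simple]

/-- `u_Z = [x,y⁻¹] = (b_x s_y)²` -/
theorem uZ_eq : x * y⁻¹ * x⁻¹ * y = s 3 * s 1 * (s 3 * s 1) := by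
  rw [x_inv, y_inv]; unfold x y
  change s 3 * s 0 * (s 1 * s 4) * (s 0 * s 3) * (s 4 * s 1) = _
  simp only [mul_assoc]
  rw [comm_assoc (s_comm 0 1 rfl), comm_assoc (s_comm 0 4 rfl), sq_assoc (s_sq 0),
    comm_assoc (s_comm 4 3 rfl), sq_assoc (s_sq 4)]

/-- `u_X = [y,z⁻¹] = (b_y s_z)²` -/
theorem uX_eq : y * z⁻¹ * y⁻¹ * z = s 4 * s 2 * (s 4 * s 2) := by
  rw [y_inv, z_inv]; unfold y z
  change s 4 * s 1 * (s 2 * s 5) * (s 1 * s 4) * (s 5 * s 2) = _
  simp only [mul_assoc]
  rw [comm_assoc (s_comm 1 2 rfl), comm_assoc (s_comm 1 5 rfl), sq_assoc (s_sq 1),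
    comm_assoc (s_comm 5 4 rfl), sq_assoc (s_sq 5)]

/-- `u_Y = [z,x⁻¹] = (b_z s_x)²` -/
theorem uY_eq : z * x⁻¹ * z⁻¹ * x = s 5 * s 0 * (s 5 * s 0) := by
  rw [z_inv, x_inv]; unfold z x
  change s 5 * s 2 * (s 0 * s 3) * (s 2 * s 5) * (s 3 * s 0) = _
  simp only [mul_assoc]
  rw [comm_assoc (s_comm 2 0 rfl), comm_assoc (s_comm 2 3 rfl), sq_assoc (s_sq 2),
    comm_assoc (s_comm 3 5 rfl), sq_assoc (s_sq 3)]

theorem rel_W : GRel x y z where
  hZ := by rw [uZ_eq]; exact s_four 3 1 rfl
  hX := by rw [uX_eq]; exact s_four 4 2 rfl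
  hY := by rw [uY_eq]; exact s_four 5 0 rfl
  cX := by
    rw [uX_eq]; unfold x
    change s 4 * s 2 * (s 4 * s 2) * (s 3 * s 0) = s 3 * s 0 * (s 4 * s 2 * (s 4 * s 2))
    have e1 : s 3 * s 0 * (s 4 * s 2) = s 4 * s 2 * (s 3 * s 0) := by
      simp only [mul_assoc]
      rw [comm_assoc (s_comm 0 4 rfl), comm_assoc (s_comm 3 4 rfl), s_comm 0 2 rfl,
        comm_assoc (s_comm 3 2 rfl)]
    rw [← mul_assoc (s 3 * s 0), e1, mul_assoc (s 4 * s 2) (s 3 * s 0), e1]
    simp only [mul_assoc]
  cY := by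
    rw [uY_eq]; unfold y
    change s 5 * s 0 * (s 5 * s 0) * (s 4 * s 1) = s 4 * s 1 * (s 5 * s 0 * (s 5 * s 0))
    have e1 : s 4 * s 1 * (s 5 * s 0) = s 5 * s 0 * (s 4 * s 1) := by
      simp only [mul_assoc]
      rw [comm_assoc (s_comm 1 5 rfl), comm_assoc (s_comm 4 5 rfl), s_comm 1 0 rfl,
        comm_assoc (s_comm 4 0 rfl)]
    rw [← mul_assoc (s 4 * s 1), e1, mul_assoc (s 5 * s 0) (s 4 * s 1), e1]
    simp only [mul_assoc]
  cZ := by
    rw [uZ_eq]; unfold z
    change s 3 * s 1 * (s 3 * s 1) * (s 5 * s 2) = s 5 * s 2 * (s 3 * s 1 * (s 3 * s 1))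
    have e1 : s 5 * s 2 * (s 3 * s 1) = s 3 * s 1 * (s 5 * s 2) := by
      simp only [mul_assoc]
      rw [comm_assoc (s_comm 2 3 rfl), comm_assoc (s_comm 5 3 rfl), s_comm 2 1 rfl,
        comm_assoc (s_comm 5 1 rfl)]
    rw [← mul_assoc (s 5 * s 2), e1, mul_assoc (s 3 * s 1) (s 5 * s 2), e1]
    simp only [mul_assoc]

/-- conditional letter -/
def cl {K : Type*} [One K] (g : K) (b : Bool) : K := if b then g else 1

theorem cl_comm {K : Type*} [Group K] {g h : K} (hgh : g * h = h * g) (a b : Bool) (k : K) :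
    cl g a * (cl h b * k) = cl h b * (cl g a * k) := by
  cases a <;> cases b <;> simp [cl, comm_assoc hgh]

/-- The key identity for one letter `b` (abstract form). -/
theorem letter {K : Type*} [Group K] {s0 s1 s2 b : K} (h0 : s0 * s0 = 1) (h1 : s1 * s1 = 1)
    (hb : b * b = 1) (h01 : s0 * s1 = s1 * s0) (h02 : s0 * s2 = s2 * s0)
    (h12 : s1 * s2 = s2 * s1) (hb2 : b * s2 = s2 * b)
    (h4 : (b * s1 * (b * s1)) * (b * s1 * (b * s1)) = 1) (a b' c : Bool) (k : K) :
    b * (cl s0 a * (cl s1 b' * (cl s2 c * k))) =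
      cl s0 (!a) * (cl s1 b' * (cl s2 c * (tw (b * s0) (b * s1 * (b * s1)) (!a) b' * k))) := by
  have i0 : s0⁻¹ = s0 := (eq_inv_of_mul_eq_one_left h0).symm
  have ib : b⁻¹ = b := (eq_inv_of_mul_eq_one_left hb).symm
  have i1 : s1⁻¹ = s1 := (eq_inv_of_mul_eq_one_left h1).symm
  have h5 : b * (s1 * (b * (s1 * b))) = s1 * (b * s1) := by
    have e := eq_inv_of_mul_eq_one_left h4
    simp only [mul_inv_rev, ib, i1] at e
    calc b * (s1 * (b * (s1 * b))) = (b * s1 * (b * s1)) * b := by simp only [mul_assoc]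
      _ = (s1 * b * (s1 * b)) * b := by rw [e]
      _ = s1 * (b * s1) := by simp only [mul_assoc, hb, mul_one]
  have hs2 : ∀ t : K, cl s2 c * (b * t) = b * (cl s2 c * t) := by
    intro t; cases c <;> simp [cl, comm_assoc hb2]
  have hs2' : ∀ t : K, cl s2 c * (s0 * t) = s0 * (cl s2 c * t) := by
    intro t; cases c <;> simp [cl, comm_assoc h02.symm]
  have hs2'' : ∀ t : K, cl s2 c * (s1 * t) = s1 * (cl s2 c * t) := by
    intro t; cases c <;> simp [cl, comm_assoc h12.symm]
  have h5' : ∀ t : K, b * (s1 * (b * (s1 * (b * t)))) = s1 * (b * (s1 * t)) := by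
    intro t
    have := congrArg (fun r => r * t) h5
    simpa only [mul_assoc] using this
  cases a <;> cases b' <;>
    simp only [cl, tw, Bool.not_true, Bool.not_false, if_true, if_false, one_mul, mul_inv_rev,
      i0, ib, mul_assoc, Bool.false_eq_true]
  · change b * (cl s2 c * k) = s0 * (cl s2 c * (s0 * (b * k)))
    rw [hs2', hs2, sq_assoc h0]
  · change b * (s1 * (cl s2 c * k)) =
      s0 * (s1 * (cl s2 c * (s0 * (b * (b * (s1 * (b * (s1 * k))))))))
    rw [sq_assoc hb, hs2', hs2'', hs2, hs2'', comm_assoc h01.symm, sq_assoc h0, sq_assoc h1]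
  · change b * (s0 * (cl s2 c * k)) = cl s2 c * (b * (s0 * k))
    rw [hs2, hs2']
  · change b * (s0 * (s1 * (cl s2 c * k))) =
      s1 * (cl s2 c * (b * (s1 * (b * (s1 * (b * (s0 * k)))))))
    rw [h5', hs2'', hs2, hs2'', hs2', sq_assoc h1, comm_assoc h01]

/-- The standard complement `⟨s_x,s_y,s_z⟩ ≅ (Z/2)^3`. -/
noncomputable def sec (r : Tr) : W := cl (s 0) r.1 * (cl (s 1) r.2.1 * cl (s 2) r.2.2)

/-- Elements of `W` are recovered from the monomial representation: `w · s^r k = s^{r'} k'`. -/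
theorem sec_mono (w : W) (t : Tr × W) :
    w * (sec t.1 * t.2) = sec (mono rel_W w t).1 * (mono rel_W w t).2 := by
  have hx : x = s 3 * s 0 := rfl
  have hy : y = s 4 * s 1 := rfl
  have hz : z = s 5 * s 2 := rfl
  induction w using S.simple_induction_left generalizing t with
  | one => simp
  | mul_simple_left w i ih =>
    rw [mul_assoc, ih, map_mul, Equiv.Perm.mul_apply, mono_simple]
    generalize mono rel_W w t = t'
    obtain ⟨⟨a, b, c⟩, k⟩ := t'
    rw [uX_eq, uY_eq, uZ_eq]
    have c01 := s_comm 0 1 rfl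
    have c02 := s_comm 0 2 rfl
    have c12 := s_comm 1 2 rfl
    fin_cases i
    · change s 0 * (sec (a, b, c) * k) = sec (!a, b, c) * (1 * k)
      cases a <;> simp [sec, cl, mul_assoc, sq_assoc (s_sq 0)]
    · change s 1 * (sec (a, b, c) * k) = sec (a, !b, c) * (1 * k)
      cases a <;> cases b <;> simp [sec, cl, mul_assoc, sq_assoc (s_sq 1), comm_assoc c01.symm]
    · change s 2 * (sec (a, b, c) * k) = sec (a, b, !c) * (1 * k)
      cases a <;> cases b <;> cases c <;> simp [sec, cl, mul_assoc, sq_assoc (s_sq 2),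
        comm_assoc c02.symm, comm_assoc c12.symm]
    · change s 3 * (sec (a, b, c) * k) = sec (!a, b, c) *
        (tw x (s 3 * s 1 * (s 3 * s 1)) (!a) b * k)
      have := letter (s_sq 0) (s_sq 1) (s_sq 3) c01 c02 c12 (s_comm 3 2 rfl) (s_four 3 1 rfl) a b c k
      simp only [sec, mul_assoc] at this ⊢
      rw [hx]; exact this
    · change s 4 * (sec (a, b, c) * k) = sec (a, !b, c) *
        (tw y (s 4 * s 2 * (s 4 * s 2)) (!b) c * k)
      have := letter (s_sq 1) (s_sq 2) (s_sq 4) c12 c01.symm c02.symm (s_comm 4 0 rfl) (s_four 4 2 rfl)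
        b c a k
      simp only [sec, mul_assoc] at this ⊢
      rw [hy]
      have e1 : ∀ (b' : Bool) (k' : W), cl (s 0) a * (cl (s 1) b' * (cl (s 2) c * k')) =
          cl (s 1) b' * (cl (s 2) c * (cl (s 0) a * k')) := by
        intro b' k'
        rw [cl_comm c01, cl_comm c02]
      rw [e1, e1]; exact this
    · change s 5 * (sec (a, b, c) * k) = sec (a, b, !c) *
        (tw z (s 5 * s 0 * (s 5 * s 0)) (!c) a * k)
      have := letter (s_sq 2) (s_sq 0) (s_sq 5) c02.symm c12.symm c01 (s_comm 5 1 rfl)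
        (s_four 5 0 rfl) c a b k
      simp only [sec, mul_assoc] at this ⊢
      rw [hz]
      have e1 : ∀ (c' : Bool) (k' : W), cl (s 0) a * (cl (s 1) b * (cl (s 2) c' * k')) =
          cl (s 2) c' * (cl (s 0) a * (cl (s 1) b * k')) := by
        intro c' k'
        rw [cl_comm c12, cl_comm c02]
      rw [e1, e1]; exact this

/-- `G` is generated by `x, y, z`. -/
theorem G_eq_closure : G = Subgroup.closure {x, y, z} := by
  apply le_antisymm
  · intro w hw
    -- the monomial representation over the subgroup generated by `x, y, z`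
    set H : Subgroup W := Subgroup.closure {x, y, z} with hH
    have hxH : x ∈ H := Subgroup.subset_closure (by simp)
    have hyH : y ∈ H := Subgroup.subset_closure (by simp)
    have hzH : z ∈ H := Subgroup.subset_closure (by simp)
    have hmem : ∀ (v : W) (t : Tr × W), t.2 ∈ H → (mono rel_W v t).2 ∈ H := by
      intro v t ht
      induction v using S.simple_induction_left generalizing t with
      | one => simpa using ht
      | mul_simple_left v i ih =>
        rw [map_mul, Equiv.Perm.mul_apply, mono_simple]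
        have h1 := ih t ht
        generalize mono rel_W v t = t' at h1 ⊢
        obtain ⟨⟨a, b, c⟩, k⟩ := t'
        have h1' : k ∈ H := h1
        have tw_mem : ∀ X p : W, X ∈ H → p ∈ H → ∀ a b, tw X p a b ∈ H := by
          intro X p hX hp a b
          cases a <;> cases b
          · exact hX
          · exact H.mul_mem hp hX
          · exact H.inv_mem hX
          · exact H.mul_mem (H.inv_mem hX) hp
        have hcomm : ∀ X Y : W, X ∈ H → Y ∈ H → X * Y⁻¹ * X⁻¹ * Y ∈ H := fun X Y hX hY =>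
          H.mul_mem (H.mul_mem (H.mul_mem hX (H.inv_mem hY)) (H.inv_mem hX)) hY
        fin_cases i
        · change (1 : W) * k ∈ H; rw [one_mul]; exact h1'
        · change (1 : W) * k ∈ H; rw [one_mul]; exact h1'
        · change (1 : W) * k ∈ H; rw [one_mul]; exact h1'
        · exact H.mul_mem (tw_mem _ _ hxH (hcomm _ _ hxH hyH) _ _) h1'
        · exact H.mul_mem (tw_mem _ _ hyH (hcomm _ _ hyH hzH) _ _) h1'
        · exact H.mul_mem (tw_mem _ _ hzH (hcomm _ _ hzH hxH) _ _) h1'
    have h1 := sec_mono w ((false, false, false), 1)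
    have h2 : (mono rel_W w ((false, false, false), 1)).1 = (false, false, false) := by
      rw [mono_fst, mem_G.mp hw]; rfl
    rw [h2] at h1
    have h3 : sec (false, false, false) = 1 := by simp [sec, cl]
    simp only [h3, mul_one, one_mul] at h1
    rw [h1]
    exact hmem w _ H.one_mem
  · rw [Subgroup.closure_le]
    rintro w (rfl | rfl | rfl)
    · exact x_mem
    · exact y_mem
    · exact z_mem

/-- Homomorphisms out of `G` are determined by the images of `x, y, z`. -/
theorem G_hom_ext {K : Type*} [Group K] {f g : G →* K} (hx : f ⟨x, x_mem⟩ = g ⟨x, x_mem⟩)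
    (hy : f ⟨y, y_mem⟩ = g ⟨y, y_mem⟩) (hz : f ⟨z, z_mem⟩ = g ⟨z, z_mem⟩) : f = g := by
  ext ⟨w, hw⟩
  have key : ∀ v ∈ Subgroup.closure {x, y, z}, ∀ hv : v ∈ G, f ⟨v, hv⟩ = g ⟨v, hv⟩ := by
    intro v hv
    induction hv using Subgroup.closure_induction with
    | mem v hv =>
      intro hv'
      rcases hv with rfl | rfl | rfl
      · exact hx
      · exact hy
      · exact hz
    | one => intro hv'; exact (map_one f).trans (map_one g).symm
    | mul a b ha hb iha ihb =>
      intro hv'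
      have ha' : a ∈ G := by rw [G_eq_closure]; exact ha
      have hb' : b ∈ G := by rw [G_eq_closure]; exact hb
      have e : (⟨a * b, hv'⟩ : G) = ⟨a, ha'⟩ * ⟨b, hb'⟩ := rfl
      rw [e, map_mul, map_mul, iha ha', ihb hb']
    | inv a ha iha =>
      intro hv'
      have ha' : a ∈ G := by rw [G_eq_closure]; exact ha
      have e : (⟨a⁻¹, hv'⟩ : G) = ⟨a, ha'⟩⁻¹ := rfl
      rw [e, map_inv, map_inv, iha ha']
  exact key w (by rw [← G_eq_closure]; exact hw) hw

end Rel

end Lam

end Pool.Agent.EC
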