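import Mathlib

/-! Algebra of the genus 2 surface group inside the orbifold torus group
`⟨y, z | [y, z⁻¹]²⟩` (stabiliser of a point in a transitive action on four points). -/

namespace Pool.Agent.EC.Surf

open scoped commutatorElement

section words
variable {G : Type*} [Group G]

/-- `u = [y, z⁻¹]` -/
def wu (y z : G) : G := y * z⁻¹ * y⁻¹ * z
/-- The four words of the surface tuple (`be`). -/
def wA1 (y z : G) : G := wu y z * y * y * wu y z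
/-- second word (`h2`) -/
def wB1 (y z : G) : G := y * z⁻¹ * wu y z
/-- third word (`al`) -/
def wA2 (y _z : G) : G := y * y
/-- fourth word (`h1`) -/
def wB2 (y z : G) : G := z⁻¹ * y

theorem wu_sq {y z : G} (h : ⁅y, z⁻¹⁆ ^ 2 = 1) : wu y z * wu y z = 1 := by
  rw [← h, pow_two, commutatorElement_def, inv_inv]; rfl

theorem wu_inv {y z : G} (h : ⁅y, z⁻¹⁆ ^ 2 = 1) : (wu y z)⁻¹ = wu y z :=
  inv_eq_of_mul_eq_one_left (wu_sq h)

theorem rel {y z : G} (h : ⁅y, z⁻¹⁆ ^ 2 = 1) :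
    ⁅wA1 y z, wB1 y z⁆ * ⁅wA2 y z, wB2 y z⁆ = 1 := by
  have k1 := wu_inv h
  have k2 := wu_sq h
  have e3 : y * z⁻¹ * y⁻¹ * y⁻¹ * z = wu y z * y⁻¹ * wu y z := by
    have : wu y z * y⁻¹ * wu y z = wu y z * z⁻¹ * y⁻¹ * z := by
      simp [wu, mul_assoc]
    rw [this]; simp [wu, mul_assoc]
  have e : ⁅wA1 y z, wB1 y z⁆ * ⁅wA2 y z, wB2 y z⁆
      = wu y z * y * y * wu y z * (y * z⁻¹ * y⁻¹ * y⁻¹) * ((wu y z)⁻¹ * (wu y z)⁻¹) * (z *
        (y * z⁻¹ * y⁻¹ * y⁻¹ * z)) := by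
    simp only [commutatorElement_def, wA1, wB1, wA2, wB2, mul_inv_rev, inv_inv, mul_assoc,
      mul_inv_cancel_left, inv_mul_cancel_left]
  rw [e, k1, k2, mul_one]
  have e4 : wu y z * y * y * wu y z * (y * z⁻¹ * y⁻¹ * y⁻¹) * (z * (y * z⁻¹ * y⁻¹ * y⁻¹ * z))
      = wu y z * y * y * wu y z * (y * z⁻¹ * y⁻¹ * y⁻¹ * z) * (y * z⁻¹ * y⁻¹ * y⁻¹ * z) := by
    simp only [mul_assoc]
  rw [e4, e3]
  have e5 : wu y z * y * y * wu y z * (wu y z * y⁻¹ * wu y z) * (wu y z * y⁻¹ * wu y z)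
      = wu y z * y * y * (wu y z * wu y z) * y⁻¹ * (wu y z * wu y z) * y⁻¹ * wu y z := by
    simp only [mul_assoc]
  rw [e5, k2, mul_one, mul_one]
  have e6 : wu y z * y * y * y⁻¹ * y⁻¹ * wu y z = wu y z * wu y z := by simp [mul_assoc]
  rw [e6, k2]

end words

section action
variable {P : Type*} [Group P]

/-- forward map of `y` on `P × Fin 4` -/
def fY (a b c : P) : P × Fin 4 → P × Fin 4
  | (h, 0) => (h, 1)
  | (h, 1) => (a * h, 0)
  | (h, 2) => (b * h, 3)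
  | (h, 3) => (c * h, 2)

/-- backward map of `y` -/
def gY (a b c : P) : P × Fin 4 → P × Fin 4
  | (h, 0) => (a⁻¹ * h, 1)
  | (h, 1) => (h, 0)
  | (h, 2) => (c⁻¹ * h, 3)
  | (h, 3) => (b⁻¹ * h, 2)

/-- forward map of `z` -/
def fZ (d e : P) : P × Fin 4 → P × Fin 4
  | (h, 0) => (d * h, 1)
  | (h, 1) => (h, 3)
  | (h, 2) => (h, 0)
  | (h, 3) => (e * h, 2)

/-- backward map of `z` -/
def gZ (d e : P) : P × Fin 4 → P × Fin 4
  | (h, 0) => (h, 2)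
  | (h, 1) => (d⁻¹ * h, 0)
  | (h, 2) => (e⁻¹ * h, 3)
  | (h, 3) => (h, 1)

/-- `y` as a permutation -/
def Yp (a b c : P) : Equiv.Perm (P × Fin 4) where
  toFun := fY a b c
  invFun := gY a b c
  left_inv := by
    rintro ⟨h, i⟩
    fin_cases i <;> simp [fY, gY]
  right_inv := by
    rintro ⟨h, i⟩
    fin_cases i <;> simp [fY, gY]

/-- `z` as a permutation -/
def Zp (d e : P) : Equiv.Perm (P × Fin 4) where
  toFun := fZ d e
  invFun := gZ d e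
  left_inv := by
    rintro ⟨h, i⟩
    fin_cases i <;> simp [fZ, gZ]
  right_inv := by
    rintro ⟨h, i⟩
    fin_cases i <;> simp [fZ, gZ]

theorem Yp_apply (a b c : P) (x) : Yp a b c x = fY a b c x := rfl
theorem Yp_inv_apply (a b c : P) (x) : (Yp a b c)⁻¹ x = gY a b c x := rfl
theorem Zp_apply (d e : P) (x) : Zp d e x = fZ d e x := rfl
theorem Zp_inv_apply (d e : P) (x) : (Zp d e)⁻¹ x = gZ d e x := rfl

theorem YZ_rel {a b c d : P} (hR : c * b * d * a * c⁻¹ * b⁻¹ * d⁻¹ * a⁻¹ = 1) :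
    ⁅Yp a b c, (Zp d (c * a⁻¹ * d⁻¹ * b⁻¹))⁻¹⁆ ^ 2 = 1 := by
  ext1 x
  obtain ⟨h, i⟩ := x
  rw [pow_two, commutatorElement_def, inv_inv]
  simp only [Equiv.Perm.mul_apply, Yp_apply, Yp_inv_apply, Zp_apply, Zp_inv_apply,
    Equiv.Perm.one_apply]
  have e2 : c * (b * (d * (a * (c⁻¹ * (b⁻¹ * (d⁻¹ * (a⁻¹ * h))))))) = h := by
    calc c * (b * (d * (a * (c⁻¹ * (b⁻¹ * (d⁻¹ * (a⁻¹ * h)))))))
        = (c * b * d * a * c⁻¹ * b⁻¹ * d⁻¹ * a⁻¹) * h := by simp only [mul_assoc]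
      _ = h := by rw [hR, one_mul]
  have e1 : d⁻¹ * (a⁻¹ * (c * (b * (d * (a * (c⁻¹ * (b⁻¹ * h))))))) = h := by
    calc d⁻¹ * (a⁻¹ * (c * (b * (d * (a * (c⁻¹ * (b⁻¹ * h)))))))
        = d⁻¹ * (a⁻¹ * ((c * b * d * a * c⁻¹ * b⁻¹ * d⁻¹ * a⁻¹) * (a * (d * h)))) := by
          simp [mul_assoc]
      _ = h := by rw [hR]; simp
  fin_cases i <;> simp [fY, gY, fZ, gZ, mul_assoc, e1, e2]

/-- The action of the four words on the base sheet. -/
theorem wu_act {a b c d e : P} (h : P) :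
    wu (Yp a b c) (Zp d e) (h, 0) = (b * d * h, 3) := by
  simp [wu, Equiv.Perm.mul_apply, Yp_apply, Yp_inv_apply, Zp_apply, Zp_inv_apply, fY, gY, fZ, gZ,
    mul_assoc]

theorem wu_act3 {a b c d e : P} (h : P) :
    wu (Yp a b c) (Zp d e) (h, 3) = (a * c⁻¹ * e * h, 0) := by
  simp [wu, Equiv.Perm.mul_apply, Yp_apply, Yp_inv_apply, Zp_apply, Zp_inv_apply, fY, gY, fZ, gZ,
    mul_assoc]

theorem wA1_act {a b c d : P} (h : P) :
    wA1 (Yp a b c) (Zp d (c * a⁻¹ * d⁻¹ * b⁻¹)) (h, 0) = (d⁻¹ * c * b * d * h, 0) := by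
  simp [wA1, wu, Equiv.Perm.mul_apply, Yp_apply, Yp_inv_apply, Zp_apply, Zp_inv_apply, fY, gY,
    fZ, gZ, mul_assoc]

theorem wB1_act {a b c d e : P} (h : P) :
    wB1 (Yp a b c) (Zp d e) (h, 0) = (a * b * d * h, 0) := by
  simp [wB1, wu, Equiv.Perm.mul_apply, Yp_apply, Yp_inv_apply, Zp_apply, Zp_inv_apply, fY, gY,
    fZ, gZ, mul_assoc]

theorem wA2_act {a b c d e : P} (h : P) :
    wA2 (Yp a b c) (Zp d e) (h, 0) = (a * h, 0) := by
  simp [wA2, Equiv.Perm.mul_apply, Yp_apply, fY]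

theorem wB2_act {a b c d e : P} (h : P) :
    wB2 (Yp a b c) (Zp d e) (h, 0) = (d⁻¹ * h, 0) := by
  simp [wB2, Equiv.Perm.mul_apply, Yp_apply, Zp_inv_apply, fY, gZ]

end action

end Pool.Agent.EC.Surf
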