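import Pool.Agent.EC.ClassD
import Pool.Agent.EC.Ext
import Pool.Agent.EC.Lift
import Pool.Agent.EC.Surf0

/-!
# The class `a`

`exists_class`: an element `X` of `H²(Γ; ℤ)`, `Γ` the stabiliser of `0` in the Lambert cube
group `G`, with `|X.eval φ| ≤ 2 g - 2` for all surfaces `φ`, `X.eval S_x = 2`, `X.eval S_y = 1`.
-/

set_option autoImplicit false

namespace Pool.Agent.EC.Cls

open scoped commutatorElement
open Pool.Agent.helper68.MW
open Pool.Agent.EC.Surf (wu wA1 wB1 wA2 wB2)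

/-! ### Word identities -/

section Words

variable {K : Type*} [Group K]

/-- `[be, h2] [al, h1] = k²` if `u² = k` is central. -/
theorem id_Sx (y z k : K) (hk : ∀ a, Commute k a) (hu : wu y z * wu y z = k) :
    ⁅wA1 y z, wB1 y z⁆ * ⁅wA2 y z, wB2 y z⁆ = k * k := by
  have h1 : z⁻¹ * y⁻¹ * y⁻¹ * z = y⁻¹ * wu y z * (y⁻¹ * wu y z) := by unfold wu; group
  unfold wA1 wB1 wA2 wB2
  generalize wu y z = u at *
  have e1 : ⁅u * y * y * u, y * z⁻¹ * u⁆ = u * y * u * y⁻¹ := by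
    calc ⁅u * y * y * u, y * z⁻¹ * u⁆
        = u * y * y * u * y * (z⁻¹ * y⁻¹ * y⁻¹) * (u * u)⁻¹ * z * y⁻¹ := by
          rw [commutatorElement_def]; group
      _ = u * y * y * u * y * ((z⁻¹ * y⁻¹ * y⁻¹) * k⁻¹) * z * y⁻¹ := by rw [hu]; group
      _ = u * y * y * u * y * (k⁻¹ * (z⁻¹ * y⁻¹ * y⁻¹)) * z * y⁻¹ := by
          rw [((hk (z⁻¹ * y⁻¹ * y⁻¹)).inv_left).eq]
      _ = u * y * y * u * y * k⁻¹ * (z⁻¹ * y⁻¹ * y⁻¹ * z) * y⁻¹ := by group
      _ = u * y * y * (u * y * k⁻¹) * (y⁻¹ * u * (y⁻¹ * u)) * y⁻¹ := by rw [h1]; group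
      _ = u * y * y * (k⁻¹ * (u * y)) * (y⁻¹ * u * (y⁻¹ * u)) * y⁻¹ := by
          rw [((hk (u * y)).inv_left).eq]
      _ = u * y * y * k⁻¹ * (u * u) * y⁻¹ * u * y⁻¹ := by group
      _ = u * y * u * y⁻¹ := by rw [hu]; group
  have e2 : ⁅y * y, z⁻¹ * y⁆ = y * u * y⁻¹ * u := by
    calc ⁅y * y, z⁻¹ * y⁆ = y * y * (z⁻¹ * y⁻¹ * y⁻¹ * z) := by
          rw [commutatorElement_def]; group
      _ = y * u * y⁻¹ * u := by rw [h1]; group
  rw [e1, e2]
  calc u * y * u * y⁻¹ * (y * u * y⁻¹ * u) = u * y * (u * u) * y⁻¹ * u := by group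
    _ = u * (y * k) * y⁻¹ * u := by rw [hu]; group
    _ = u * (k * y) * y⁻¹ * u := by rw [(hk y).eq]
    _ = (u * k) * u := by group
    _ = k * (u * u) := by rw [← (hk u).eq]; group
    _ = k * k := by rw [hu]

/-- `[A⁻¹, B] [z⁴, x⁻¹] = c²` if `v² = c` is central. -/
theorem id_Sy (x z c : K) (hc : ∀ a, Commute c a)
    (hv : (z * x⁻¹ * z⁻¹ * x) * (z * x⁻¹ * z⁻¹ * x) = c) :
    ⁅(z ^ 2 * (z * x⁻¹ * z⁻¹ * x))⁻¹, z * (z ^ 2 * (z * x⁻¹ * z⁻¹ * x)) * z⁻¹⁆ *
      ⁅z ^ 4, x⁻¹⁆ = c * c := by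
  have h1 : ⁅z ^ 4, x⁻¹⁆ = z ^ 3 * (z * x⁻¹ * z⁻¹ * x) * z⁻¹ * (z * x⁻¹ * z⁻¹ * x) * z⁻¹ *
      (z * x⁻¹ * z⁻¹ * x) * z⁻¹ * (z * x⁻¹ * z⁻¹ * x) := by
    rw [commutatorElement_def]; group
  rw [h1]
  clear h1
  generalize z * x⁻¹ * z⁻¹ * x = v at *
  calc ⁅(z ^ 2 * v)⁻¹, z * (z ^ 2 * v) * z⁻¹⁆ * (z ^ 3 * v * z⁻¹ * v * z⁻¹ * v * z⁻¹ * v)
      = v⁻¹ * z * v * z * (v * v) * z⁻¹ * v * z⁻¹ * v := by
        rw [commutatorElement_def]; group
    _ = v⁻¹ * z * v * (z * c) * z⁻¹ * v * z⁻¹ * v := by rw [hv]; group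
    _ = v⁻¹ * z * v * (c * z) * z⁻¹ * v * z⁻¹ * v := by rw [(hc z).eq]
    _ = v⁻¹ * z * (v * c) * v * z⁻¹ * v := by group
    _ = v⁻¹ * z * (c * v) * v * z⁻¹ * v := by rw [(hc v).eq]
    _ = v⁻¹ * (z * c) * (v * v) * z⁻¹ * v := by group
    _ = v⁻¹ * (c * z) * c * z⁻¹ * v := by rw [(hc z).eq, hv]
    _ = v⁻¹ * c * (z * c) * z⁻¹ * v := by group
    _ = v⁻¹ * c * (c * z) * z⁻¹ * v := by rw [(hc z).eq]
    _ = v⁻¹ * (c * (c * v)) := by group
    _ = v⁻¹ * (c * (v * c)) := by rw [(hc v).eq]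
    _ = v⁻¹ * ((c * v) * c) := by group
    _ = v⁻¹ * ((v * c) * c) := by rw [(hc v).eq]
    _ = c * c := by group

/-- central factors do not change a commutator -/
theorem comm_central {a b s t : K} (hs : ∀ a, Commute s a) (ht : ∀ a, Commute t a) :
    ⁅a * s, b * t⁆ = ⁅a, b⁆ := by
  rw [commutatorElement_def, commutatorElement_def]
  calc a * s * (b * t) * (a * s)⁻¹ * (b * t)⁻¹
      = a * (s * (b * t)) * s⁻¹ * a⁻¹ * t⁻¹ * b⁻¹ := by group
    _ = a * b * (t * a⁻¹) * t⁻¹ * b⁻¹ := by rw [(hs (b * t)).eq]; group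
    _ = a * b * a⁻¹ * b⁻¹ := by rw [(ht a⁻¹).eq]; group

end Words

/-! ### The group `Γ` -/

/-- The generators as elements of `G`. -/
noncomputable def xG : Lam.G := ⟨Lam.x, Lam.x_mem⟩
noncomputable def yG : Lam.G := ⟨Lam.y, Lam.y_mem⟩
noncomputable def zG : Lam.G := ⟨Lam.z, Lam.z_mem⟩

/-- The stabiliser of `0`. -/
def stab0 (p4 : Lam.G →* Equiv.Perm (Fin 4)) : Subgroup Lam.G where
  carrier := {g | p4 g 0 = 0}
  one_mem' := by simp
  mul_mem' := by
    intro a b ha hb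
    change p4 (a * b) 0 = 0
    rw [map_mul, Equiv.Perm.mul_apply, hb, ha]
  inv_mem' := by
    intro a ha
    change p4 a⁻¹ 0 = 0
    rw [map_inv, Equiv.Perm.inv_eq_iff_eq]
    exact Eq.symm ha

theorem G_induction {P : Lam.G → Prop} (h1 : P 1) (hx : P xG) (hy : P yG) (hz : P zG)
    (hmul : ∀ a b, P a → P b → P (a * b)) (hinv : ∀ a, P a → P a⁻¹) (g : Lam.G) : P g := by
  let S : Subgroup Lam.G := ⟨⟨⟨{g | P g}, fun {a b} => hmul a b⟩, h1⟩, fun {a} => hinv a⟩
  have h2 : Lam.G ≤ S.map Lam.G.subtype := by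
    conv_lhs => rw [Lam.G_eq_closure]
    rw [Subgroup.closure_le]
    rintro w (rfl | rfl | rfl)
    · exact ⟨xG, hx, rfl⟩
    · exact ⟨yG, hy, rfl⟩
    · exact ⟨zG, hz, rfl⟩
  obtain ⟨g', hg', he⟩ := h2 g.2
  have : g' = g := Subtype.ext he
  rw [← this]
  exact hg'

theorem ps_zpow_apply (n : ℤ) (a : Pt) : (ps ^ n) a = (a.1, a.2 + n) := by
  have hnat : ∀ (n : ℕ) (a : Pt), (ps ^ n) a = (a.1, a.2 + n) := by
    intro n
    induction n with
    | zero => intro a; simp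
    | succ n ih =>
      intro a
      rw [pow_succ', Equiv.Perm.mul_apply, ih]
      change ((1 : Equiv.Perm (Fin 4)) a.1, a.2 + n + 1) = _
      push_cast
      rw [add_assoc]; rfl
  cases n with
  | ofNat n => exact_mod_cast hnat n a
  | negSucc n =>
    rw [zpow_negSucc, Equiv.Perm.inv_eq_iff_eq, hnat]
    apply Prod.ext
    · rfl
    · push_cast
      ring

theorem exists_class (p4 : Lam.G →* Equiv.Perm (Fin 4)) (hpx : p4 xG = px) (hpy : p4 yG = py)
    (hpz : p4 zG = pz) : ∃ X : ZExt (stab0 p4),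
      (∀ g : ℕ, 1 ≤ g → ∀ φ : SurfGroup g →* stab0 p4, |X.eval φ| ≤ 2 * (g : ℤ) - 2) ∧
      (∀ φ : SurfGroup 2 →* stab0 p4,
        (φ (PresentedGroup.of (0, false)) : Lam.G) = wA1 yG zG →
        (φ (PresentedGroup.of (0, true)) : Lam.G) = wB1 yG zG →
        (φ (PresentedGroup.of (1, false)) : Lam.G) = wA2 yG zG →
        (φ (PresentedGroup.of (1, true)) : Lam.G) = wB2 yG zG → X.eval φ = 2) ∧
      (∀ φ : SurfGroup 2 →* stab0 p4,
        (φ (PresentedGroup.of (0, false)) : Lam.G) = (zG ^ 2 * (zG * xG⁻¹ * zG⁻¹ * xG))⁻¹ →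
        (φ (PresentedGroup.of (0, true)) : Lam.G) = zG * (zG ^ 2 * (zG * xG⁻¹ * zG⁻¹ * xG)) * zG⁻¹ →
        (φ (PresentedGroup.of (1, false)) : Lam.G) = zG ^ 4 →
        (φ (PresentedGroup.of (1, true)) : Lam.G) = xG⁻¹ → X.eval φ = 1) := by
  obtain ⟨D, _, δ, X, Y, Z, θ, hδ, hinf, hX, hY, hZ, cX, cY, cZ, tδ, tX, tY, tZ, hMW⟩ := exists_D
  have hn : (Subgroup.zpowers δ).Normal := by
    refine ⟨?_⟩
    rintro _ ⟨m, rfl⟩ g
    refine ⟨m, ?_⟩
    change δ ^ m = g * δ ^ m * g⁻¹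
    rw [← ((hδ g).zpow_left m).eq, mul_inv_cancel_right]
  let q : D →* D ⧸ Subgroup.zpowers δ := QuotientGroup.mk' (Subgroup.zpowers δ)
  have hq1 : ∀ m : ℤ, q (δ ^ m) = 1 := fun m => (QuotientGroup.eq_one_iff _).2 ⟨m, rfl⟩
  have hqe : ∀ d e : D, q d = q e → ∃ m : ℤ, d = e * δ ^ m := by
    intro d e h
    obtain ⟨m, hm⟩ := (QuotientGroup.eq.1 h.symm : e⁻¹ * d ∈ Subgroup.zpowers δ)
    exact ⟨m, by rw [show δ ^ m = e⁻¹ * d from hm, mul_inv_cancel_left]⟩
  have hrel : Lam.GRel (q X) (q Y) (q Z) := by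
    refine ⟨?_, ?_, ?_, ?_, ?_, ?_⟩
    · have := congrArg q hZ
      rw [← zpow_natCast, hq1] at this
      simpa only [map_mul, map_inv] using this
    · have := congrArg q hX
      rw [← zpow_natCast, hq1] at this
      simpa only [map_mul, map_inv] using this
    · have := congrArg q hY
      rw [← zpow_natCast, hq1] at this
      simpa only [map_mul, map_inv] using this
    · have := congrArg q cX
      simpa only [map_mul, map_inv] using this
    · have := congrArg q cY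
      simpa only [map_mul, map_inv] using this
    · have := congrArg q cZ
      simpa only [map_mul, map_inv] using this
  let F : Lam.G →* D ⧸ Subgroup.zpowers δ := Lam.gLift hrel
  have Fx : F xG = q X := Lam.gLift_x hrel
  have Fy : F yG = q Y := Lam.gLift_y hrel
  have Fz : F zG = q Z := Lam.gLift_z hrel
  -- compatibility of the two permutation actions
  have hcompat0 : ∀ g : Lam.G, ∃ d : D, q d = F g ∧ ∀ a, (θ d a).1 = p4 g a.1 := by
    intro g
    induction g using G_induction with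
    | h1 => exact ⟨1, by rw [map_one, map_one], fun a => by simp⟩
    | hx => exact ⟨X, Fx.symm, fun a => by rw [tX, hpx]; rfl⟩
    | hy => exact ⟨Y, Fy.symm, fun a => by rw [tY, hpy]; rfl⟩
    | hz => exact ⟨Z, Fz.symm, fun a => by rw [tZ, hpz]; rfl⟩
    | hmul a b ha hb =>
      obtain ⟨d, hd, hd'⟩ := ha
      obtain ⟨e, he, he'⟩ := hb
      exact ⟨d * e, by rw [map_mul, hd, he, map_mul], fun a => by
        rw [map_mul, Equiv.Perm.mul_apply, hd', he', map_mul, Equiv.Perm.mul_apply]⟩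
    | hinv a ha =>
      obtain ⟨d, hd, hd'⟩ := ha
      refine ⟨d⁻¹, by rw [map_inv, hd, map_inv], fun c => ?_⟩
      have h1 := hd' ((θ d)⁻¹ c)
      rw [show θ d ((θ d)⁻¹ c) = c from (θ d).apply_symm_apply c] at h1
      rw [map_inv, map_inv, h1]
      exact ((p4 a).symm_apply_apply _).symm
  have hcompat : ∀ (d : D) (g : Lam.G), q d = F g → ∀ a, (θ d a).1 = p4 g a.1 := by
    intro d g h a
    obtain ⟨e, he, he'⟩ := hcompat0 g
    obtain ⟨m, rfl⟩ := hqe d e (h.trans he.symm)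
    rw [map_mul, map_zpow, tδ, Equiv.Perm.mul_apply, he', ps_zpow_apply]
  -- the extension
  let E : Subgroup (D × Lam.G) :=
    { carrier := {e | q e.1 = F e.2 ∧ θ e.1 (0, 0) = (0, 0)}
      one_mem' := ⟨by simp, by simp⟩
      mul_mem' := by
        rintro ⟨a, a'⟩ ⟨b, b'⟩ ⟨h1, h2⟩ ⟨h3, h4⟩
        exact ⟨by change q (a * b) = F (a' * b'); rw [map_mul, map_mul, h1, h3],
          by change θ (a * b) (0, 0) = _; rw [map_mul, Equiv.Perm.mul_apply, h4, h2]⟩
      inv_mem' := by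
        rintro ⟨a, a'⟩ ⟨h1, h2⟩
        exact ⟨by change q a⁻¹ = F a'⁻¹; rw [map_inv, map_inv, h1],
          by change θ a⁻¹ (0, 0) = _; rw [map_inv, Equiv.Perm.inv_eq_iff_eq, h2]⟩ }
  have hEm : ∀ e : E, (e : D × Lam.G).2 ∈ stab0 p4 := by
    intro e
    have := hcompat _ _ e.2.1 (0, 0)
    rw [e.2.2] at this
    exact this.symm
  have zp : ∀ (e : E) (n : ℤ), ((e ^ n : E) : D × Lam.G) = ((e : D × Lam.G).1 ^ n, (e : D × Lam.G).2 ^ n) :=
    fun e n => rfl
  let t : E := ⟨(δ ^ (4 : ℤ), 1), by rw [hq1, map_one], by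
    rw [map_zpow, tδ, ps_zpow_apply]; rfl⟩
  let XX : ZExt (stab0 p4) :=
    { E := E
      π := { toFun := fun e => ⟨(e : D × Lam.G).2, hEm e⟩
             map_one' := rfl
             map_mul' := fun _ _ => rfl }
      t := t
      surj := by
        rintro ⟨g, hg⟩
        obtain ⟨d, hd⟩ := QuotientGroup.mk'_surjective (Subgroup.zpowers δ) (F g)
        have h1 := hcompat d g hd (0, 0)
        have hg' : p4 g 0 = 0 := hg
        rw [hg'] at h1
        refine ⟨⟨(δ ^ (-((θ d (0, 0)).2.val : ℤ)) * d, g), ?_, ?_⟩, rfl⟩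
        · change q _ = F g
          rw [map_mul, hq1, one_mul]; exact hd
        · rw [map_mul, map_zpow, tδ, Equiv.Perm.mul_apply, ps_zpow_apply, h1]
          apply Prod.ext
          · rfl
          · push_cast
            simp
      comm := by
        intro e
        apply Subtype.ext
        apply Prod.ext
        · exact ((hδ _).zpow_left 4).eq
        · exact (one_mul _).trans (mul_one _).symm
      tker := rfl
      ker := by
        intro e he
        have h1 : (e : D × Lam.G).2 = 1 := congrArg Subtype.val he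
        have h2 := e.2.1
        rw [h1, map_one, ← map_one q] at h2
        obtain ⟨m, hm⟩ := hqe _ _ h2
        rw [one_mul] at hm
        have h3 := e.2.2
        rw [hm, map_zpow, tδ, ps_zpow_apply] at h3
        have h4 : ((m : ℤ) : ZMod 4) = 0 := by
          have := congrArg Prod.snd h3
          simpa using this
        obtain ⟨n, rfl⟩ := (ZMod.intCast_zmod_eq_zero_iff_dvd m 4).1 h4
        refine ⟨n, ?_⟩
        apply Subtype.ext
        rw [zp]
        apply Prod.ext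
        · rw [hm]
          change _ = (δ ^ (4 : ℤ)) ^ n
          rw [← zpow_mul]; rfl
        · rw [h1]
          exact (one_zpow n).symm
      inj := by
        intro n h
        have h1 : (δ ^ (4 : ℤ)) ^ n = 1 := congrArg (fun e : E => (e : D × Lam.G).1) h
        rw [← zpow_mul] at h1
        have := hinf _ h1
        omega }
  have key : ∀ {g : ℕ} (φ : SurfGroup g →* stab0 p4) (f : Fin g × Bool → D),
      (∀ i, q (f i) = F (φ (PresentedGroup.of i) : Lam.G)) →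
      (List.ofFn fun i : Fin g => ⁅f (i, false), f (i, true)⁆).prod = δ ^ (4 * XX.eval φ) := by
    intro g φ f hf
    choose F0 hF0 using fun i : Fin g × Bool => XX.surj (φ (PresentedGroup.of i))
    have h1 := XX.eval_spec φ F0 hF0
    rw [ZExt.lift_surfRel] at h1
    have h2 := congrArg (fun e : E => (MonoidHom.fst D Lam.G).comp E.subtype e) h1
    change (MonoidHom.fst D Lam.G).comp E.subtype _ = (δ ^ (4 : ℤ)) ^ XX.eval φ at h2
    rw [map_list_prod, List.map_ofFn, ← zpow_mul] at h2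
    rw [← h2]
    congr 2
    funext i
    rw [Function.comp, map_commutatorElement]
    have h3 : ∀ j, ∃ m : ℤ, f j = (F0 j).1.1 * δ ^ m := by
      intro j
      apply hqe
      rw [hf, (F0 j).2.1]
      congr 1
      exact (congrArg Subtype.val (hF0 j)).symm
    obtain ⟨m, hm⟩ := h3 (i, false)
    obtain ⟨n, hn⟩ := h3 (i, true)
    rw [hm, hn]
    exact comm_central (fun a => (hδ a).zpow_left m) (fun a => (hδ a).zpow_left n)
  refine ⟨XX, ?_, ?_, ?_⟩
  · intro g hg φ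
    choose f hf using fun i : Fin g × Bool =>
      QuotientGroup.mk'_surjective (Subgroup.zpowers δ) (F (φ (PresentedGroup.of i) : Lam.G))
    have h1 := key φ f hf
    have h2 := hMW (List.ofFn fun i : Fin g => (f (i, false), f (i, true))) (4 * XX.eval φ) (by
      intro h
      have := congrArg List.length h
      rw [List.length_ofFn, List.length_nil] at this
      omega) (by
      rw [prodComm, List.map_ofFn]
      exact h1)
    rw [List.length_ofFn, abs_mul, abs_of_pos (by norm_num : (0 : ℤ) < 4)] at h2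
    linarith
  · intro φ h1 h2 h3 h4
    have h5 := key φ (fun i => if i.1 = 0 then (if i.2 then wB1 Y Z else wA1 Y Z) else
      (if i.2 then wB2 Y Z else wA2 Y Z)) (by
        rintro ⟨i, b⟩
        fin_cases i <;> cases b
        · change q (wA1 Y Z) = F (φ (PresentedGroup.of (0, false)) : Lam.G)
          rw [h1, wA1, wA1, wu, wu]
          simp only [map_mul, map_inv, Fy, Fz]
        · change q (wB1 Y Z) = F (φ (PresentedGroup.of (0, true)) : Lam.G)
          rw [h2, wB1, wB1, wu, wu]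
          simp only [map_mul, map_inv, Fy, Fz]
        · change q (wA2 Y Z) = F (φ (PresentedGroup.of (1, false)) : Lam.G)
          rw [h3, wA2, wA2]
          simp only [map_mul, Fy]
        · change q (wB2 Y Z) = F (φ (PresentedGroup.of (1, true)) : Lam.G)
          rw [h4, wB2, wB2]
          simp only [map_mul, map_inv, Fy, Fz])
    have h6 : ⁅wA1 Y Z, wB1 Y Z⁆ * ⁅wA2 Y Z, wB2 Y Z⁆ = δ ^ (4 * XX.eval φ) := by
      rw [← h5]; simp [List.ofFn_succ]
    rw [id_Sx Y Z (δ ^ 4) (fun a => (hδ a).pow_left 4) hX, ← pow_add, ← zpow_natCast] at h6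
    have h7 : δ ^ (((4 + 4 : ℕ) : ℤ) - 4 * XX.eval φ) = 1 := by
      rw [zpow_sub, h6, mul_inv_cancel]
    have h8 := hinf _ h7
    push_cast at h8
    omega
  · intro φ h1 h2 h3 h4
    have h5 := key φ (fun i => if i.1 = 0 then (if i.2 then
        Z * (Z ^ 2 * (Z * X⁻¹ * Z⁻¹ * X)) * Z⁻¹ else (Z ^ 2 * (Z * X⁻¹ * Z⁻¹ * X))⁻¹) else
      (if i.2 then X⁻¹ else Z ^ 4)) (by
        rintro ⟨i, b⟩
        fin_cases i <;> cases b
        · change q _ = F (φ (PresentedGroup.of (0, false)) : Lam.G)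
          rw [h1]
          simp only [map_mul, map_inv, map_pow, Fx, Fz]; rfl
        · change q _ = F (φ (PresentedGroup.of (0, true)) : Lam.G)
          rw [h2]
          simp only [map_mul, map_inv, map_pow, Fx, Fz]; rfl
        · change q _ = F (φ (PresentedGroup.of (1, false)) : Lam.G)
          rw [h3]
          simp only [map_pow, Fz]; rfl
        · change q _ = F (φ (PresentedGroup.of (1, true)) : Lam.G)
          rw [h4]
          simp only [map_inv, Fx]; rfl)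
    have h6 : ⁅(Z ^ 2 * (Z * X⁻¹ * Z⁻¹ * X))⁻¹, Z * (Z ^ 2 * (Z * X⁻¹ * Z⁻¹ * X)) * Z⁻¹⁆ *
        ⁅Z ^ 4, X⁻¹⁆ = δ ^ (4 * XX.eval φ) := by
      rw [← h5]; simp [List.ofFn_succ]
    rw [id_Sy X Z (δ ^ 2) (fun a => (hδ a).pow_left 2) hY, ← pow_add, ← zpow_natCast] at h6
    have h7 : δ ^ (((2 + 2 : ℕ) : ℤ) - 4 * XX.eval φ) = 1 := by
      rw [zpow_sub, h6, mul_inv_cancel]
    have h8 := hinf _ h7
    push_cast at h8
    omega

end Pool.Agent.EC.Cls
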