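import Mathlib

/-!
# The surface `S_z` of genus three of the degree eight `G`-set

`x = (1 2 4 7)(5 6)`, `y = (0 1)(2 5)(3 4)(6 7)`.  The words `tS, tE, tL, tR, tB, tP` are loops at the
point `2`; the product of their three commutators is the product of the four relators `u_Z²`.
-/

set_option autoImplicit false

namespace Pool.Agent.EC.Sz8

open scoped commutatorElement

section generic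

variable {K : Type*} [Group K]

theorem tot_eq (S E κ P' b P : K) :
    ⁅S⁻¹, E⁻¹⁆ * ⁅E⁻¹ * κ * b⁻¹, (b * P' * b⁻¹)⁻¹⁆ * ⁅b, P⁻¹⁆ =
      S⁻¹ * E⁻¹ * S * κ * P'⁻¹ * (κ⁻¹ * E * b) * P' * P⁻¹ * b⁻¹ * P := by
  simp only [commutatorElement_def]
  group

/-- The identity for arrows `X q : q → x q`, `Y q : q → y q` of a groupoid with central relators. -/
theorem groupoid_identity (X0 X1 X2 X3 X4 X5 X6 X7 Y0 Y1 Y2 Y3 Y4 Y5 Y6 Y7 ca cb cc cd : K)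
    (za : ∀ g, Commute ca g) (zb : ∀ g, Commute cb g) (zc : ∀ g, Commute cc g)
    (zd : ∀ g, Commute cd g)
    (ha : (X0 * Y0⁻¹ * X1⁻¹ * Y5) * (X6 * Y6⁻¹ * X7⁻¹ * Y0) = ca)
    (hb : (X7 * Y7⁻¹ * X6⁻¹ * Y2) * (X1 * Y1⁻¹ * X0⁻¹ * Y1) = cb)
    (hc : (X3 * Y3⁻¹ * X4⁻¹ * Y6) * (X5 * Y5⁻¹ * X2⁻¹ * Y3) = cc)
    (hd : (X2 * Y2⁻¹ * X5⁻¹ * Y7) * (X4 * Y4⁻¹ * X3⁻¹ * Y4) = cd)
    (S E κ P P' b : K) (hS : S = (X1 * X7) * (Y6 * Y7) * (X1 * X7)⁻¹)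
    (hE : E = (X1 * X7) * (Y6 * (X5 * X6) * Y6⁻¹) * (X1 * X7)⁻¹)
    (hκ : κ = (X1 * X7) * (X4 * X2)) (hP : P = X1 * (Y0 * Y1) * X1⁻¹)
    (hP' : P' = X2⁻¹ * (Y3 * Y4) * X2) (hb1 : b = X1 * X7 * Y6 * X6⁻¹ * Y5⁻¹) :
    ⁅S⁻¹, E⁻¹⁆ * ⁅E⁻¹ * κ * b⁻¹, (b * P' * b⁻¹)⁻¹⁆ * ⁅b, P⁻¹⁆ = ca * cb * cc * cd := by
  -- first pair
  have h0 : X0⁻¹ = (Y0⁻¹ * X1⁻¹ * Y5 * (X6 * Y6⁻¹ * X7⁻¹ * Y0)) * ca⁻¹ := by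
    rw [← ha]; group
  have hab : X1 * X7 * Y7⁻¹ * X6⁻¹ * Y2 * P⁻¹ * b⁻¹ * P = ca * cb := by
    have h1 : X7 * Y7⁻¹ * X6⁻¹ * Y2 * X1 * Y1⁻¹ *
        (Y0⁻¹ * X1⁻¹ * Y5 * (X6 * Y6⁻¹ * X7⁻¹ * Y0)) * Y1 = ca * cb := by
      rw [h0] at hb
      calc X7 * Y7⁻¹ * X6⁻¹ * Y2 * X1 * Y1⁻¹ *
          (Y0⁻¹ * X1⁻¹ * Y5 * (X6 * Y6⁻¹ * X7⁻¹ * Y0)) * Y1
          = X7 * Y7⁻¹ * X6⁻¹ * Y2 * X1 * Y1⁻¹ *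
          (Y0⁻¹ * X1⁻¹ * Y5 * (X6 * Y6⁻¹ * X7⁻¹ * Y0)) * ca⁻¹ * (ca * Y1) := by group
        _ = ((X7 * Y7⁻¹ * X6⁻¹ * Y2) * (X1 * Y1⁻¹ *
          (Y0⁻¹ * X1⁻¹ * Y5 * (X6 * Y6⁻¹ * X7⁻¹ * Y0) * ca⁻¹) * Y1)) * ca := by
            rw [(za Y1).eq]; group
        _ = ca * cb := by rw [hb, (za cb).eq]
    have h2 : X1 * X7 * Y7⁻¹ * X6⁻¹ * Y2 * P⁻¹ * b⁻¹ * P =
        X1 * (X7 * Y7⁻¹ * X6⁻¹ * Y2 * X1 * Y1⁻¹ *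
        (Y0⁻¹ * X1⁻¹ * Y5 * (X6 * Y6⁻¹ * X7⁻¹ * Y0)) * Y1) * X1⁻¹ := by
      rw [hP, hb1]; group
    rw [h2, h1, ← ((za X1).mul_left (zb X1)).eq, mul_inv_cancel_right]
  have h3 : X3⁻¹ = (Y3⁻¹ * X4⁻¹ * Y6 * (X5 * Y5⁻¹ * X2⁻¹ * Y3)) * cc⁻¹ := by
    rw [← hc]; group
  have hb2 : κ⁻¹ * E * b = (Y5 * X5⁻¹ * Y6⁻¹ * X4 * X2)⁻¹ := by
    rw [hκ, hE, hb1]; group
  have hcd : Y2⁻¹ * X5⁻¹ * Y7 * X4 * X2 * P'⁻¹ * (κ⁻¹ * E * b) * P' = cc * cd := by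
    have h1 : X2 * Y2⁻¹ * X5⁻¹ * Y7 * X4 * Y4⁻¹ *
        (Y3⁻¹ * X4⁻¹ * Y6 * (X5 * Y5⁻¹ * X2⁻¹ * Y3)) * Y4 = cc * cd := by
      rw [h3] at hd
      calc X2 * Y2⁻¹ * X5⁻¹ * Y7 * X4 * Y4⁻¹ *
          (Y3⁻¹ * X4⁻¹ * Y6 * (X5 * Y5⁻¹ * X2⁻¹ * Y3)) * Y4
          = X2 * Y2⁻¹ * X5⁻¹ * Y7 * X4 * Y4⁻¹ *
          (Y3⁻¹ * X4⁻¹ * Y6 * (X5 * Y5⁻¹ * X2⁻¹ * Y3)) * cc⁻¹ * (cc * Y4) := by group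
        _ = ((X2 * Y2⁻¹ * X5⁻¹ * Y7) * (X4 * Y4⁻¹ *
          (Y3⁻¹ * X4⁻¹ * Y6 * (X5 * Y5⁻¹ * X2⁻¹ * Y3) * cc⁻¹) * Y4)) * cc := by
            rw [(zc Y4).eq]; group
        _ = cc * cd := by rw [hd, (zc cd).eq]
    have h2 : Y2⁻¹ * X5⁻¹ * Y7 * X4 * X2 * P'⁻¹ * (κ⁻¹ * E * b) * P' =
        X2⁻¹ * (X2 * Y2⁻¹ * X5⁻¹ * Y7 * X4 * Y4⁻¹ *
        (Y3⁻¹ * X4⁻¹ * Y6 * (X5 * Y5⁻¹ * X2⁻¹ * Y3)) * Y4) * X2 := by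
      rw [hb2, hP']; group
    rw [h2, h1, mul_assoc, ((zc X2).mul_left (zd X2)).eq, inv_mul_cancel_left]
  have he : S⁻¹ * E⁻¹ * S * κ = X1 * X7 * Y7⁻¹ * X6⁻¹ * Y2 * (Y2⁻¹ * X5⁻¹ * Y7 * X4 * X2) := by
    rw [hS, hE, hκ]; group
  rw [tot_eq, he]
  calc X1 * X7 * Y7⁻¹ * X6⁻¹ * Y2 * (Y2⁻¹ * X5⁻¹ * Y7 * X4 * X2) * P'⁻¹ * (κ⁻¹ * E * b) * P' *
      P⁻¹ * b⁻¹ * P
      = X1 * X7 * Y7⁻¹ * X6⁻¹ * Y2 * (Y2⁻¹ * X5⁻¹ * Y7 * X4 * X2 * P'⁻¹ * (κ⁻¹ * E * b) * P') *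
      P⁻¹ * b⁻¹ * P := by simp only [mul_assoc]
    _ = X1 * X7 * Y7⁻¹ * X6⁻¹ * Y2 * (cc * cd) * P⁻¹ * b⁻¹ * P := by rw [hcd]
    _ = (cc * cd) * (X1 * X7 * Y7⁻¹ * X6⁻¹ * Y2 * P⁻¹ * b⁻¹ * P) := by
      rw [← ((zc (X1 * X7 * Y7⁻¹ * X6⁻¹ * Y2)).mul_left (zd (X1 * X7 * Y7⁻¹ * X6⁻¹ * Y2))).eq]
      simp only [mul_assoc]
    _ = (cc * cd) * (ca * cb) := by rw [hab]
    _ = (ca * cb) * (cc * cd) := ((zc (ca * cb)).mul_left (zd (ca * cb))).eq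
    _ = ca * cb * cc * cd := by simp only [mul_assoc]

/-! ### The words -/

def wS (x y : K) : K := (x * x) * (y * y) * (x * x)⁻¹
def wE (x y : K) : K := (x * x) * (y * (x * x) * y⁻¹) * (x * x)⁻¹
def wK (x : K) : K := (x * x) * (x * x)
def wP (x y : K) : K := x * (y * y) * x⁻¹
def wQ (x y : K) : K := x⁻¹ * (y * y) * x
def wB (x y : K) : K := x * x * y * x⁻¹ * y⁻¹

/-- The six generators of the surface, loops at `2`. -/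
def g0 (x y : K) : K := (wS x y)⁻¹
def g1 (x y : K) : K := (wE x y)⁻¹
def g2 (x y : K) : K := (wE x y)⁻¹ * wK x * (wB x y)⁻¹
def g3 (x y : K) : K := (wB x y * wQ x y * (wB x y)⁻¹)⁻¹
def g4 (x y : K) : K := wB x y
def g5 (x y : K) : K := (wP x y)⁻¹

theorem word_identity (x y c : K) (hc : ∀ g, Commute c g)
    (h : (x * y⁻¹ * x⁻¹ * y) * (x * y⁻¹ * x⁻¹ * y) = c) :
    ⁅g0 x y, g1 x y⁆ * ⁅g2 x y, g3 x y⁆ * ⁅g4 x y, g5 x y⁆ = c * c * c * c :=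
  groupoid_identity x x x x x x x x y y y y y y y y c c c c hc hc hc hc h h h h
    (wS x y) (wE x y) (wK x) (wP x y) (wQ x y) (wB x y) rfl rfl rfl rfl rfl rfl

/-- Conjugated words. -/
theorem conj_identity (x y c r : K) (hc : ∀ g, Commute c g)
    (h : (x * y⁻¹ * x⁻¹ * y) * (x * y⁻¹ * x⁻¹ * y) = c) :
    ⁅r⁻¹ * g0 x y * r, r⁻¹ * g1 x y * r⁆ * ⁅r⁻¹ * g2 x y * r, r⁻¹ * g3 x y * r⁆ *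
      ⁅r⁻¹ * g4 x y * r, r⁻¹ * g5 x y * r⁆ = c * c * c * c := by
  have h1 : ∀ a b : K, ⁅r⁻¹ * a * r, r⁻¹ * b * r⁆ = r⁻¹ * ⁅a, b⁆ * r := by
    intro a b
    simp only [commutatorElement_def]; group
  rw [h1, h1, h1]
  have h2 := word_identity x y c hc h
  calc r⁻¹ * ⁅g0 x y, g1 x y⁆ * r * (r⁻¹ * ⁅g2 x y, g3 x y⁆ * r) * (r⁻¹ * ⁅g4 x y, g5 x y⁆ * r)
      = r⁻¹ * (⁅g0 x y, g1 x y⁆ * ⁅g2 x y, g3 x y⁆ * ⁅g4 x y, g5 x y⁆) * r := by group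
    _ = c * c * c * c := by
      rw [h2, mul_assoc, ((((hc r).mul_left (hc r)).mul_left (hc r)).mul_left (hc r)).eq,
        inv_mul_cancel_left]

end generic

end Pool.Agent.EC.Sz8
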