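import Pool.Agent.EC.Ext

/-!
# The double of a class

`ZExt.twice X` : the class `2 X ∈ H²(G; ℤ)`, `(twice X).eval φ = 2 * X.eval φ`.
-/

set_option autoImplicit false

namespace Pool.Agent.EC.ZExt

variable {G : Type} [Group G]

/-- The central subgroup `⟨(t, -2)⟩` of `E × ℤ`. -/
def twN (X : ZExt G) : Subgroup (X.E × Multiplicative ℤ) where
  carrier := {p | ∃ j : ℤ, p = (X.t ^ j, Multiplicative.ofAdd (-(2 * j)))}
  one_mem' := ⟨0, Prod.ext (zpow_zero X.t).symm rfl⟩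
  mul_mem' := by
    rintro _ _ ⟨i, rfl⟩ ⟨j, rfl⟩
    refine ⟨i + j, Prod.ext (zpow_add X.t i j).symm ?_⟩
    change Multiplicative.ofAdd _ * Multiplicative.ofAdd _ = Multiplicative.ofAdd _
    rw [← ofAdd_add]
    congr 1
    ring
  inv_mem' := by
    rintro _ ⟨i, rfl⟩
    refine ⟨-i, Prod.ext (zpow_neg X.t i).symm ?_⟩
    change (Multiplicative.ofAdd _)⁻¹ = Multiplicative.ofAdd _
    rw [← ofAdd_neg]
    congr 1
    ring

instance twN_normal (X : ZExt G) : X.twN.Normal where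
  conj_mem := by
    rintro _ ⟨j, rfl⟩ g
    refine ⟨j, Prod.ext ?_ ?_⟩
    · change g.1 * X.t ^ j * g.1⁻¹ = X.t ^ j
      rw [← (X.commute_zpow j g.1).eq, mul_inv_cancel_right]
    · change g.2 * Multiplicative.ofAdd (-(2 * j)) * g.2⁻¹ = Multiplicative.ofAdd (-(2 * j))
      rw [mul_comm, inv_mul_cancel_left]

/-- The class `2 X`: the quotient of `E × ℤ` by `(t, -2)`, with the central element `(1, 1)`. -/
def twice (X : ZExt G) : ZExt G where
  E := (X.E × Multiplicative ℤ) ⧸ X.twN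
  π := QuotientGroup.lift X.twN (X.π.comp (MonoidHom.fst X.E (Multiplicative ℤ))) (by
    rintro _ ⟨j, rfl⟩
    exact X.map_zpow_t j)
  t := QuotientGroup.mk' X.twN (1, Multiplicative.ofAdd 1)
  surj := by
    intro g
    obtain ⟨e, he⟩ := X.surj g
    exact ⟨QuotientGroup.mk' X.twN (e, 1), he⟩
  comm := by
    intro e
    obtain ⟨p, rfl⟩ := QuotientGroup.mk'_surjective X.twN e
    rw [← map_mul, ← map_mul]
    congr 1
    exact Prod.ext ((one_mul _).trans (mul_one _).symm) (mul_comm _ _)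
  tker := X.π.map_one
  ker := by
    intro e he
    obtain ⟨p, rfl⟩ := QuotientGroup.mk'_surjective X.twN e
    obtain ⟨j, hj⟩ := X.ker p.1 he
    refine ⟨Multiplicative.toAdd p.2 + 2 * j, ?_⟩
    rw [← map_zpow]
    apply (QuotientGroup.eq.2 ?_).symm
    refine ⟨j, Prod.ext ?_ ?_⟩
    · change ((1 : X.E) ^ (Multiplicative.toAdd p.2 + 2 * j))⁻¹ * p.1 = X.t ^ j
      rw [one_zpow, inv_one, one_mul, hj]
    · change ((Multiplicative.ofAdd (1 : ℤ)) ^ (Multiplicative.toAdd p.2 + 2 * j))⁻¹ * p.2 =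
        Multiplicative.ofAdd (-(2 * j))
      apply Multiplicative.toAdd.injective
      rw [toAdd_mul, toAdd_inv, toAdd_zpow, toAdd_ofAdd, toAdd_ofAdd]
      simp
  inj := by
    intro n h
    rw [← map_zpow] at h
    obtain ⟨j, hj⟩ := (QuotientGroup.eq_one_iff _).1 h
    have h1 : (1 : X.E) ^ n = X.t ^ j := congrArg Prod.fst hj
    rw [one_zpow] at h1
    have h2 := X.inj j h1.symm
    subst h2
    have h3 : (Multiplicative.ofAdd (1 : ℤ)) ^ n = Multiplicative.ofAdd (-(2 * 0)) :=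
      congrArg Prod.snd hj
    have h4 := congrArg Multiplicative.toAdd h3
    rw [toAdd_zpow, toAdd_ofAdd, toAdd_ofAdd] at h4
    simpa using h4

/-- The map `E → E(2 X)`. -/
def toTwice (X : ZExt G) : X.E →* X.twice.E :=
  (QuotientGroup.mk' X.twN).comp (MonoidHom.inl X.E (Multiplicative ℤ))

theorem toTwice_t (X : ZExt G) : X.toTwice X.t = X.twice.t ^ (2 : ℤ) := by
  change QuotientGroup.mk' X.twN (X.t, 1) = (QuotientGroup.mk' X.twN (1, Multiplicative.ofAdd 1)) ^ (2 : ℤ)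
  rw [← map_zpow]
  apply (QuotientGroup.eq.2 ?_).symm
  refine ⟨1, Prod.ext ?_ ?_⟩
  · change ((1 : X.E) ^ (2 : ℤ))⁻¹ * X.t = X.t ^ (1 : ℤ)
    rw [one_zpow, inv_one, one_mul, zpow_one]
  · rfl

theorem π_toTwice (X : ZExt G) (e : X.E) : X.twice.π (X.toTwice e) = X.π e := rfl

theorem eval_twice (X : ZExt G) {g : ℕ} (φ : SurfGroup g →* G) :
    X.twice.eval φ = 2 * X.eval φ := by
  choose F hF using fun i : Fin g × Bool => X.surj (φ (PresentedGroup.of i))
  apply X.twice.eval_eq (F := fun i => X.toTwice (F i))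
  · intro i
    rw [π_toTwice, hF]
  · rw [← map_lift, X.eval_spec φ F hF, map_zpow, toTwice_t, ← zpow_mul]

end Pool.Agent.EC.ZExt
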