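import Pool.Agent.EC.ClassD8
import Pool.Agent.EC.Class
import Pool.Agent.EC.Twice
import Pool.Agent.EC.Sz8
import Pool.Agent.EC.Q8

/-!
# The class `b` on `Γ = Lam.Gam8`

`exists_class8`: an element `b` of `H²(Γ; ℤ)` with `|b.eval φ| ≤ g - 1` for all surfaces `φ`, and
`b = 1` on the two components of `S_x` and on `S_z`.  The class of the main theorem is `a = 2 b`.
-/

set_option autoImplicit false

namespace Pool.Agent.EC.Cls8

open scoped commutatorElement
open Pool.Agent.helper68.MW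
open Pool.Agent.EC.Surf (wu wA1 wB1 wA2 wB2)
open Pool.Agent.EC.Cls (xG yG zG G_induction id_Sx comm_central)
open Pool.Agent.EC.Sz8 (g0 g1 g2 g3 g4 g5)

theorem ps_zpow_apply (n : ℤ) (a : Pt) : (ps ^ n) a = (a.1, a.2 + n) := by
  have hnat : ∀ (n : ℕ) (a : Pt), (ps ^ n) a = (a.1, a.2 + n) := by
    intro n
    induction n with
    | zero => intro a; simp
    | succ n ih =>
      intro a
      rw [pow_succ', Equiv.Perm.mul_apply, ih]
      change ((1 : Equiv.Perm (Fin 8)) a.1, a.2 + n + 1) = _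
      push_cast
      rw [add_assoc]; rfl
  cases n with
  | ofNat n => exact_mod_cast hnat n a
  | negSucc n =>
    rw [zpow_negSucc, Equiv.Perm.inv_eq_iff_eq, hnat]
    apply Prod.ext
    · rfl
    · push_cast
      ring

/-- The base point change `0 → 6`. -/
noncomputable def r6 : Lam.G := yG * xG⁻¹ * yG
/-- The base point change `0 → 2`. -/
noncomputable def r2 : Lam.G := xG * yG

/-- **The class `b`.** -/
theorem exists_class8 : ∃ b : ZExt Lam.Gam8,
      (∀ g : ℕ, 1 ≤ g → ∀ φ : SurfGroup g →* Lam.Gam8, |b.eval φ| ≤ (g : ℤ) - 1) ∧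
      (∀ (r : Lam.G) (φ : SurfGroup 2 →* Lam.Gam8),
        (φ (PresentedGroup.of (0, false)) : Lam.W) = ((r⁻¹ * wA1 yG zG * r : Lam.G) : Lam.W) →
        (φ (PresentedGroup.of (0, true)) : Lam.W) = ((r⁻¹ * wB1 yG zG * r : Lam.G) : Lam.W) →
        (φ (PresentedGroup.of (1, false)) : Lam.W) = ((r⁻¹ * wA2 yG zG * r : Lam.G) : Lam.W) →
        (φ (PresentedGroup.of (1, true)) : Lam.W) = ((r⁻¹ * wB2 yG zG * r : Lam.G) : Lam.W) →
        b.eval φ = 1) ∧
      (∀ (r : Lam.G) (φ : SurfGroup 3 →* Lam.Gam8),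
        (φ (PresentedGroup.of (0, false)) : Lam.W) = ((r⁻¹ * g0 xG yG * r : Lam.G) : Lam.W) →
        (φ (PresentedGroup.of (0, true)) : Lam.W) = ((r⁻¹ * g1 xG yG * r : Lam.G) : Lam.W) →
        (φ (PresentedGroup.of (1, false)) : Lam.W) = ((r⁻¹ * g2 xG yG * r : Lam.G) : Lam.W) →
        (φ (PresentedGroup.of (1, true)) : Lam.W) = ((r⁻¹ * g3 xG yG * r : Lam.G) : Lam.W) →
        (φ (PresentedGroup.of (2, false)) : Lam.W) = ((r⁻¹ * g4 xG yG * r : Lam.G) : Lam.W) →
        (φ (PresentedGroup.of (2, true)) : Lam.W) = ((r⁻¹ * g5 xG yG * r : Lam.G) : Lam.W) →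
        b.eval φ = 1) := by
  obtain ⟨D, _, δ, X, Y, Z, θ, hδ, hinf, hX, hY, hZ, cX, cY, cZ, tδ, tX, tY, tZ, hMW⟩ := exists_D
  have hn : (Subgroup.zpowers δ).Normal := by
    refine ⟨?_⟩
    rintro _ ⟨m, rfl⟩ g
    refine ⟨m, ?_⟩
    change δ ^ m = g * δ ^ m * g⁻¹
    rw [← ((hδ g).zpow_left m).eq, mul_inv_cancel_right]
  let q : D →* D ⧸ Subgroup.zpowers δ := QuotientGroup.mk' (Subgroup.zpowers δ)
  have hq1 : ∀ m : ℤ, q (δ ^ m) = 1 := fun m => (QuotientGroup.eq_one_iff _).2 ⟨m, rfl⟩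
  have hq11 : q δ = 1 := by have := hq1 1; rwa [zpow_one] at this
  have hqe : ∀ d e : D, q d = q e → ∃ m : ℤ, d = e * δ ^ m := by
    intro d e h
    obtain ⟨m, hm⟩ := (QuotientGroup.eq.1 h.symm : e⁻¹ * d ∈ Subgroup.zpowers δ)
    exact ⟨m, by rw [show δ ^ m = e⁻¹ * d from hm, mul_inv_cancel_left]⟩
  have hrel : Lam.GRel (q X) (q Y) (q Z) := by
    refine ⟨?_, ?_, ?_, ?_, ?_, ?_⟩
    · have := congrArg q hZ
      rw [hq11] at this
      simpa only [map_mul, map_inv] using this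
    · have := congrArg q hX
      rw [← zpow_natCast, hq1] at this
      simpa only [map_mul, map_inv] using this
    · have := congrArg q hY
      rw [hq11] at this
      simpa only [map_mul, map_inv] using this
    · have := congrArg q cX
      simpa only [map_mul, map_inv] using this
    · have := congrArg q cY
      simpa only [map_mul, map_inv] using this
    · have := congrArg q cZ
      simpa only [map_mul, map_inv] using this
  let F : Lam.G →* D ⧸ Subgroup.zpowers δ := Lam.gLift hrel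
  have hpx : Lam.sig8 xG = px := Lam.sig8_x
  have hpy : Lam.sig8 yG = py := Lam.sig8_y
  have hpz : Lam.sig8 zG = pz := Lam.sig8_z
  have Fx : F xG = q X := Lam.gLift_x hrel
  have Fy : F yG = q Y := Lam.gLift_y hrel
  have Fz : F zG = q Z := Lam.gLift_z hrel
  -- compatibility of the two permutation actions
  have hcompat0 : ∀ g : Lam.G, ∃ d : D, q d = F g ∧ ∀ a, (θ d a).1 = Lam.sig8 g a.1 := by
    intro g
    induction g using G_induction with
    | h1 => exact ⟨1, by rw [map_one, map_one], fun a => by simp⟩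
    | hx => exact ⟨X, Fx.symm, fun a => by rw [tX, hpx]; rfl⟩
    | hy => exact ⟨Y, Fy.symm, fun a => by rw [tY, hpy]; rfl⟩
    | hz => exact ⟨Z, Fz.symm, fun a => by rw [tZ, hpz]; rfl⟩
    | hmul a b ha hb =>
      obtain ⟨d, hd, hd'⟩ := ha
      obtain ⟨e, he, he'⟩ := hb
      exact ⟨d * e, by rw [map_mul, hd, he, map_mul], fun a => by
        rw [map_mul, Equiv.Perm.mul_apply, hd', he', map_mul, Equiv.Perm.mul_apply]⟩
    | hinv a ha =>
      obtain ⟨d, hd, hd'⟩ := ha
      refine ⟨d⁻¹, by rw [map_inv, hd, map_inv], fun c => ?_⟩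
      have h1 := hd' ((θ d)⁻¹ c)
      rw [show θ d ((θ d)⁻¹ c) = c from (θ d).apply_symm_apply c] at h1
      rw [map_inv, map_inv, h1]
      exact ((Lam.sig8 a).symm_apply_apply _).symm
  have hcompat : ∀ (d : D) (g : Lam.G), q d = F g → ∀ a, (θ d a).1 = Lam.sig8 g a.1 := by
    intro d g h a
    obtain ⟨e, he, he'⟩ := hcompat0 g
    obtain ⟨m, rfl⟩ := hqe d e (h.trans he.symm)
    rw [map_mul, map_zpow, tδ, Equiv.Perm.mul_apply, he', ps_zpow_apply]
  -- the extension
  let E : Subgroup (D × Lam.G) :=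
    { carrier := {e | q e.1 = F e.2 ∧ θ e.1 (0, 0) = (0, 0)}
      one_mem' := ⟨by simp, by simp⟩
      mul_mem' := by
        rintro ⟨a, a'⟩ ⟨b, b'⟩ ⟨h1, h2⟩ ⟨h3, h4⟩
        exact ⟨by change q (a * b) = F (a' * b'); rw [map_mul, map_mul, h1, h3],
          by change θ (a * b) (0, 0) = _; rw [map_mul, Equiv.Perm.mul_apply, h4, h2]⟩
      inv_mem' := by
        rintro ⟨a, a'⟩ ⟨h1, h2⟩
        exact ⟨by change q a⁻¹ = F a'⁻¹; rw [map_inv, map_inv, h1],
          by change θ a⁻¹ (0, 0) = _; rw [map_inv, Equiv.Perm.inv_eq_iff_eq, h2]⟩ }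
  have hEm : ∀ e : E, ((e : D × Lam.G).2 : Lam.W) ∈ Lam.Gam8 := by
    intro e
    have := hcompat _ _ e.2.1 (0, 0)
    rw [e.2.2] at this
    exact (Lam.mem_Gam8_iff _).2 this.symm
  have zp : ∀ (e : E) (n : ℤ), ((e ^ n : E) : D × Lam.G) = ((e : D × Lam.G).1 ^ n, (e : D × Lam.G).2 ^ n) :=
    fun e n => rfl
  let t : E := ⟨(δ ^ (4 : ℤ), 1), by rw [hq1, map_one], by
    rw [map_zpow, tδ, ps_zpow_apply]; rfl⟩
  let XX : ZExt Lam.Gam8 :=
    { E := E
      π := { toFun := fun e => ⟨((e : D × Lam.G).2 : Lam.W), hEm e⟩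
             map_one' := rfl
             map_mul' := fun _ _ => rfl }
      t := t
      surj := by
        rintro ⟨g', hg0⟩
        obtain ⟨g, rfl⟩ : ∃ g : Lam.G, (g : Lam.W) = g' := ⟨⟨g', Lam.Gam8_le_G hg0⟩, rfl⟩
        have hg : Lam.sig8 g 0 = 0 := (Lam.mem_Gam8_iff g).1 hg0
        obtain ⟨d, hd⟩ := QuotientGroup.mk'_surjective (Subgroup.zpowers δ) (F g)
        have h1 := hcompat d g hd (0, 0)
        have hg' : Lam.sig8 g 0 = 0 := hg
        rw [hg'] at h1
        refine ⟨⟨(δ ^ (-((θ d (0, 0)).2.val : ℤ)) * d, g), ?_, ?_⟩, rfl⟩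
        · change q _ = F g
          rw [map_mul, hq1, one_mul]; exact hd
        · rw [map_mul, map_zpow, tδ, Equiv.Perm.mul_apply, ps_zpow_apply, h1]
          apply Prod.ext
          · rfl
          · push_cast
            simp
      comm := by
        intro e
        apply Subtype.ext
        apply Prod.ext
        · exact ((hδ _).zpow_left 4).eq
        · exact (one_mul _).trans (mul_one _).symm
      tker := rfl
      ker := by
        intro e he
        have h1 : (e : D × Lam.G).2 = 1 := Subtype.ext (congrArg (fun t : Lam.Gam8 => (t : Lam.W)) he)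
        have h2 := e.2.1
        rw [h1, map_one, ← map_one q] at h2
        obtain ⟨m, hm⟩ := hqe _ _ h2
        rw [one_mul] at hm
        have h3 := e.2.2
        rw [hm, map_zpow, tδ, ps_zpow_apply] at h3
        have h4 : ((m : ℤ) : ZMod 4) = 0 := by
          have := congrArg Prod.snd h3
          simpa using this
        obtain ⟨n, rfl⟩ := (ZMod.intCast_zmod_eq_zero_iff_dvd m 4).1 h4
        refine ⟨n, ?_⟩
        apply Subtype.ext
        rw [zp]
        apply Prod.ext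
        · rw [hm]
          change _ = (δ ^ (4 : ℤ)) ^ n
          rw [← zpow_mul]; rfl
        · rw [h1]
          exact (one_zpow n).symm
      inj := by
        intro n h
        have h1 : (δ ^ (4 : ℤ)) ^ n = 1 := congrArg (fun e : E => (e : D × Lam.G).1) h
        rw [← zpow_mul] at h1
        have := hinf _ h1
        omega }
  have key : ∀ {g : ℕ} (φ : SurfGroup g →* Lam.Gam8) (f : Fin g × Bool → D)
      (k : Fin g × Bool → Lam.G), (∀ i, (φ (PresentedGroup.of i) : Lam.W) = k i) →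
      (∀ i, q (f i) = F (k i)) →
      (List.ofFn fun i : Fin g => ⁅f (i, false), f (i, true)⁆).prod = δ ^ (4 * XX.eval φ) := by
    intro g φ f k hk hf
    choose F0 hF0 using fun i : Fin g × Bool => XX.surj (φ (PresentedGroup.of i))
    have h1 := XX.eval_spec φ F0 hF0
    rw [ZExt.lift_surfRel] at h1
    have h2 := congrArg (fun e : E => (MonoidHom.fst D Lam.G).comp E.subtype e) h1
    change (MonoidHom.fst D Lam.G).comp E.subtype _ = (δ ^ (4 : ℤ)) ^ XX.eval φ at h2
    rw [map_list_prod, List.map_ofFn, ← zpow_mul] at h2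
    rw [← h2]
    congr 2
    funext i
    rw [Function.comp, map_commutatorElement]
    have h3 : ∀ j, ∃ m : ℤ, f j = (F0 j).1.1 * δ ^ m := by
      intro j
      apply hqe
      rw [hf, (F0 j).2.1]
      congr 1
      apply Subtype.ext
      rw [← hk]
      exact (congrArg Subtype.val (hF0 j)).symm
    obtain ⟨m, hm⟩ := h3 (i, false)
    obtain ⟨n, hn⟩ := h3 (i, true)
    rw [hm, hn]
    exact comm_central (fun a => (hδ a).zpow_left m) (fun a => (hδ a).zpow_left n)
  refine ⟨XX, ?_, ?_, ?_⟩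
  · intro g hg φ
    let k : Fin g × Bool → Lam.G := fun i =>
      ⟨(φ (PresentedGroup.of i) : Lam.W), Lam.Gam8_le_G (φ (PresentedGroup.of i)).2⟩
    choose f hf using fun i : Fin g × Bool =>
      QuotientGroup.mk'_surjective (Subgroup.zpowers δ) (F (k i))
    have h1 := key φ f k (fun _ => rfl) hf
    have h2 := hMW (List.ofFn fun i : Fin g => (f (i, false), f (i, true))) (4 * XX.eval φ) (by
      intro h
      have := congrArg List.length h
      rw [List.length_ofFn, List.length_nil] at this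
      omega) (by
      rw [prodComm, List.map_ofFn]
      exact h1)
    rw [List.length_ofFn, abs_mul, abs_of_pos (by norm_num : (0 : ℤ) < 4)] at h2
    linarith
  · intro r φ h1 h2 h3 h4
    obtain ⟨R, hR⟩ := QuotientGroup.mk'_surjective (Subgroup.zpowers δ) (F r)
    change q R = F r at hR
    have h5 := key φ (fun i => if i.1 = 0 then (if i.2 then R⁻¹ * wB1 Y Z * R else
      R⁻¹ * wA1 Y Z * R) else (if i.2 then R⁻¹ * wB2 Y Z * R else R⁻¹ * wA2 Y Z * R))
      (fun i => if i.1 = 0 then (if i.2 then r⁻¹ * wB1 yG zG * r else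
      r⁻¹ * wA1 yG zG * r) else (if i.2 then r⁻¹ * wB2 yG zG * r else r⁻¹ * wA2 yG zG * r)) (by
        rintro ⟨i, b⟩
        fin_cases i <;> cases b
        · exact h1
        · exact h2
        · exact h3
        · exact h4) (by
        rintro ⟨i, b⟩
        fin_cases i <;> cases b
        · change q (R⁻¹ * wA1 Y Z * R) = F (r⁻¹ * wA1 yG zG * r)
          simp only [wA1, wu, map_mul, map_inv, Fy, Fz, hR]
        · change q (R⁻¹ * wB1 Y Z * R) = F (r⁻¹ * wB1 yG zG * r)
          simp only [wB1, wu, map_mul, map_inv, Fy, Fz, hR]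
        · change q (R⁻¹ * wA2 Y Z * R) = F (r⁻¹ * wA2 yG zG * r)
          simp only [wA2, map_mul, map_inv, Fy, hR]
        · change q (R⁻¹ * wB2 Y Z * R) = F (r⁻¹ * wB2 yG zG * r)
          simp only [wB2, map_mul, map_inv, Fy, Fz, hR])
    have h6 : ⁅R⁻¹ * wA1 Y Z * R, R⁻¹ * wB1 Y Z * R⁆ * ⁅R⁻¹ * wA2 Y Z * R, R⁻¹ * wB2 Y Z * R⁆ =
        δ ^ (4 * XX.eval φ) := by
      rw [← h5]; simp [List.ofFn_succ]
    have h9 : ∀ a b : D, ⁅R⁻¹ * a * R, R⁻¹ * b * R⁆ = R⁻¹ * ⁅a, b⁆ * R := by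
      intro a b
      simp only [commutatorElement_def]; group
    have h10 : R⁻¹ * (⁅wA1 Y Z, wB1 Y Z⁆ * ⁅wA2 Y Z, wB2 Y Z⁆) * R = δ ^ (4 * XX.eval φ) := by
      rw [← h6, h9, h9]; group
    rw [id_Sx Y Z (δ ^ 2) (fun a => (hδ a).pow_left 2) hX, ← pow_add, mul_assoc,
      ((hδ R).pow_left (2 + 2)).eq, inv_mul_cancel_left, ← zpow_natCast] at h10
    have h7 : δ ^ (((2 + 2 : ℕ) : ℤ) - 4 * XX.eval φ) = 1 := by
      rw [zpow_sub, h10, mul_inv_cancel]
    have h8 := hinf _ h7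
    push_cast at h8
    omega
  · intro r φ h1 h2 h3 h4 h5 h6
    obtain ⟨R, hR⟩ := QuotientGroup.mk'_surjective (Subgroup.zpowers δ) (F r)
    change q R = F r at hR
    have h7 := key φ (fun i => if i.1 = 0 then (if i.2 then R⁻¹ * g1 X Y * R else
      R⁻¹ * g0 X Y * R) else if i.1 = 1 then (if i.2 then R⁻¹ * g3 X Y * R else R⁻¹ * g2 X Y * R)
      else (if i.2 then R⁻¹ * g5 X Y * R else R⁻¹ * g4 X Y * R))
      (fun i => if i.1 = 0 then (if i.2 then r⁻¹ * g1 xG yG * r else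
      r⁻¹ * g0 xG yG * r) else if i.1 = 1 then (if i.2 then r⁻¹ * g3 xG yG * r else
      r⁻¹ * g2 xG yG * r)
      else (if i.2 then r⁻¹ * g5 xG yG * r else r⁻¹ * g4 xG yG * r)) (by
        rintro ⟨i, b⟩
        fin_cases i <;> cases b
        · exact h1
        · exact h2
        · exact h3
        · exact h4
        · exact h5
        · exact h6) (by
        rintro ⟨i, b⟩
        fin_cases i <;> cases b
        · change q (R⁻¹ * g0 X Y * R) = F (r⁻¹ * g0 xG yG * r)
          simp only [g0, Sz8.wS, map_mul, map_inv, Fx, Fy, hR]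
        · change q (R⁻¹ * g1 X Y * R) = F (r⁻¹ * g1 xG yG * r)
          simp only [g1, Sz8.wE, map_mul, map_inv, Fx, Fy, hR]
        · change q (R⁻¹ * g2 X Y * R) = F (r⁻¹ * g2 xG yG * r)
          simp only [g2, Sz8.wE, Sz8.wK, Sz8.wB, map_mul, map_inv, Fx, Fy, hR]
        · change q (R⁻¹ * g3 X Y * R) = F (r⁻¹ * g3 xG yG * r)
          simp only [g3, Sz8.wQ, Sz8.wB, map_mul, map_inv, Fx, Fy, hR]
        · change q (R⁻¹ * g4 X Y * R) = F (r⁻¹ * g4 xG yG * r)
          simp only [g4, Sz8.wB, map_mul, map_inv, Fx, Fy, hR]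
        · change q (R⁻¹ * g5 X Y * R) = F (r⁻¹ * g5 xG yG * r)
          simp only [g5, Sz8.wP, map_mul, map_inv, Fx, Fy, hR])
    have h8 : ⁅R⁻¹ * g0 X Y * R, R⁻¹ * g1 X Y * R⁆ * ⁅R⁻¹ * g2 X Y * R, R⁻¹ * g3 X Y * R⁆ *
        ⁅R⁻¹ * g4 X Y * R, R⁻¹ * g5 X Y * R⁆ = δ ^ (4 * XX.eval φ) := by
      rw [← h7]; simp [List.ofFn_succ, mul_assoc]
    rw [Sz8.conj_identity X Y δ R hδ hZ] at h8
    have h9 : δ ^ ((4 : ℤ) - 4 * XX.eval φ) = 1 := by
      rw [zpow_sub, ← h8]
      have : δ ^ (4 : ℤ) = δ * δ * δ * δ := by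
        rw [show (4 : ℤ) = 1 + 1 + 1 + 1 by norm_num, zpow_add, zpow_add, zpow_add, zpow_one]
      rw [this, mul_inv_cancel]
    have h10 := hinf _ h9
    omega

end Pool.Agent.EC.Cls8
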