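import Pool.Agent.EC.ClassD

/-!
# A central extension of the Lambert cube group and a monomial representation of degree eight

`exists_D`: a group `D` with a central element `δ` of infinite order, elements `X, Y, Z` with
`u_X² = δ²`, `u_Y² = u_Z² = δ`, and a homomorphism to the monomial permutations of
`Fin 8 × ZMod 4`.  A product of `g ≥ 1` commutators of `D` which is `δ ^ m` has
`|m| ≤ 2 (2 g - 2)`.
-/

set_option autoImplicit false

namespace Pool.Agent.EC.Cls8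

open scoped commutatorElement
open Pool.Agent.helper68.MW
open Pool.Agent.EC.Cls (prodComm_map action)

/-- The points `± e_i, ± √-1 e_i`. -/
abbrev Pt : Type := Fin 8 × ZMod 4

/-- A monomial permutation. -/
def mono (p : Equiv.Perm (Fin 8)) (w : Fin 8 → ZMod 4) : Equiv.Perm Pt where
  toFun a := (p a.1, a.2 + w a.1)
  invFun a := (p.symm a.1, a.2 - w (p.symm a.1))
  left_inv a := by simp
  right_inv a := by simp

/-- The permutation `(1 2 4 7)(5 6)`. -/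
def px : Equiv.Perm (Fin 8) := ⟨![0, 2, 4, 3, 7, 6, 5, 1], ![0, 7, 1, 3, 2, 6, 5, 4], by decide, by decide⟩
/-- The permutation `(0 1)(2 5)(3 4)(6 7)`. -/
def py : Equiv.Perm (Fin 8) := ⟨![1, 0, 5, 4, 3, 2, 7, 6], ![1, 0, 5, 4, 3, 2, 7, 6], by decide, by decide⟩
/-- The permutation `(0 1 3 4)(2 6 7 5)`. -/
def pz : Equiv.Perm (Fin 8) := ⟨![1, 3, 6, 4, 0, 2, 7, 5], ![4, 0, 5, 1, 3, 7, 2, 6], by decide, by decide⟩

/-- multiplication by `√-1` -/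
def ps : Equiv.Perm Pt := mono 1 (fun _ => 1)
def mx : Equiv.Perm Pt := mono px ![0, 0, 2, 0, 0, 1, 3, 0]
def my : Equiv.Perm Pt := mono py ![1, 3, 0, 3, 3, 2, 0, 0]
def mz : Equiv.Perm Pt := mono pz ![0, 0, 0, 0, 0, 0, 0, 0]

theorem mx_comm : mx * ps = ps * mx := by
  apply Equiv.ext; intro a; revert a; decide
theorem my_comm : my * ps = ps * my := by
  apply Equiv.ext; intro a; revert a; decide
theorem mz_comm : mz * ps = ps * mz := by
  apply Equiv.ext; intro a; revert a; decide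
theorem ps_four : ps ^ 4 = 1 := by
  apply Equiv.ext; intro a; revert a; decide

theorem m_uX : (my * mz⁻¹ * my⁻¹ * mz) * (my * mz⁻¹ * my⁻¹ * mz) = ps ^ 2 := by
  apply Equiv.ext; intro a; revert a; decide
theorem m_uY : (mz * mx⁻¹ * mz⁻¹ * mx) * (mz * mx⁻¹ * mz⁻¹ * mx) = ps := by
  apply Equiv.ext; intro a; revert a; decide
theorem m_uZ : (mx * my⁻¹ * mx⁻¹ * my) * (mx * my⁻¹ * mx⁻¹ * my) = ps := by
  apply Equiv.ext; intro a; revert a; decide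
theorem m_cX : (my * mz⁻¹ * my⁻¹ * mz) * mx = mx * (my * mz⁻¹ * my⁻¹ * mz) := by
  apply Equiv.ext; intro a; revert a; decide
theorem m_cY : (mz * mx⁻¹ * mz⁻¹ * mx) * my = my * (mz * mx⁻¹ * mz⁻¹ * mx) := by
  apply Equiv.ext; intro a; revert a; decide
theorem m_cZ : (mx * my⁻¹ * mx⁻¹ * my) * mz = mz * (mx * my⁻¹ * mx⁻¹ * my) := by
  apply Equiv.ext; intro a; revert a; decide

/-! ### The group `D` -/

/-- The monomial permutations. -/
abbrev PM : Type := Subgroup.centralizer ({ps} : Set (Equiv.Perm Pt))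

/-- A monomial permutation as an element of `PM`. -/
def toPM (m : Equiv.Perm Pt) (h : m * ps = ps * m) : PM :=
  ⟨m, Subgroup.mem_centralizer_singleton_iff.2 h⟩

def pps : PM := toPM ps rfl
def pmx : PM := toPM mx mx_comm
def pmy : PM := toPM my my_comm
def pmz : PM := toPM mz mz_comm

theorem pm_comm (p : PM) : Commute pps p := by
  apply Subtype.ext
  exact (Subgroup.mem_centralizer_singleton_iff.1 p.2).symm

section Build

variable {A : Type} [Group A]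

/-- The big product. -/
abbrev HH (A : Type) [Group A] : Type := A × A × PM × Multiplicative ℤ

/-- The element `(T^i, T^j, √-1^(i+j), -(i+j))`. -/
def nn (T : A) (i j : ℤ) : HH A := (T ^ i, T ^ j, pps ^ (i + j), Multiplicative.ofAdd (-(i + j)))

theorem nn_mul (T : A) (i j i' j' : ℤ) : nn T i j * nn T i' j' = nn T (i + i') (j + j') := by
  refine Prod.ext (zpow_add T i i').symm (Prod.ext (zpow_add T j j').symm (Prod.ext ?_ ?_))
  · change pps ^ _ * pps ^ _ = pps ^ _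
    rw [← zpow_add]; congr 1; ring
  · change Multiplicative.ofAdd _ * Multiplicative.ofAdd _ = Multiplicative.ofAdd _
    rw [← ofAdd_add]; congr 1; ring

theorem nn_zero (T : A) : nn T 0 0 = 1 := by
  refine Prod.ext (zpow_zero T) (Prod.ext (zpow_zero T) (Prod.ext (zpow_zero _) rfl))

/-- The central subgroup of relations. -/
def NN (T : A) : Subgroup (HH A) where
  carrier := {h | ∃ i j : ℤ, h = nn T i j}
  one_mem' := ⟨0, 0, (nn_zero T).symm⟩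
  mul_mem' := by
    rintro _ _ ⟨i, j, rfl⟩ ⟨i', j', rfl⟩
    exact ⟨_, _, nn_mul T _ _ _ _⟩
  inv_mem' := by
    rintro _ ⟨i, j, rfl⟩
    refine ⟨-i, -j, ?_⟩
    rw [inv_eq_iff_mul_eq_one, nn_mul, add_neg_cancel, add_neg_cancel, nn_zero]

theorem nn_comm {T : A} (hT : ∀ a, Commute T a) (i j : ℤ) (h : HH A) : Commute (nn T i j) h :=
  Prod.ext ((hT h.1).zpow_left i) (Prod.ext ((hT h.2.1).zpow_left j)
    (Prod.ext ((pm_comm h.2.2.1).zpow_left _) (mul_comm _ _)))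

theorem NN_normal {T : A} (hT : ∀ a, Commute T a) : (NN T).Normal where
  conj_mem := by
    rintro _ ⟨i, j, rfl⟩ g
    refine ⟨i, j, ?_⟩
    rw [← (nn_comm hT i j g).eq, mul_assoc, mul_inv_cancel, mul_one]

/-- The homomorphism to the permutations of `Pt`. -/
def th0 (A : Type) [Group A] : HH A →* Equiv.Perm Pt where
  toFun h := h.2.2.1.1 * ps ^ (Multiplicative.toAdd h.2.2.2)
  map_one' := by simp
  map_mul' := by
    intro g h
    change (g.2.2.1.1 * h.2.2.1.1) * ps ^ (Multiplicative.toAdd g.2.2.2 + Multiplicative.toAdd h.2.2.2) = _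
    have h1 : Commute ps h.2.2.1.1 := congrArg Subtype.val (pm_comm h.2.2.1)
    have h2 := (h1.zpow_left (Multiplicative.toAdd g.2.2.2)).eq
    rw [zpow_add, mul_assoc, ← mul_assoc h.2.2.1.1, ← h2]
    simp only [mul_assoc]

theorem th0_nn (T : A) (i j : ℤ) : th0 A (nn T i j) = 1 := by
  change (pps ^ (i + j) : PM).1 * ps ^ (-(i + j)) = 1
  have h1 : ((pps ^ (i + j) : PM) : Equiv.Perm Pt) = ps ^ (i + j) := rfl
  rw [h1, ← zpow_add, add_neg_cancel, zpow_zero]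

theorem build (T X1 Y1 Z1 : A) (hT : ∀ a, Commute T a) (hinf : ∀ n : ℤ, T ^ n = 1 → n = 0)
    (hX : (Y1 * Z1⁻¹ * Y1⁻¹ * Z1) * (Y1 * Z1⁻¹ * Y1⁻¹ * Z1) = T)
    (hY : (Z1 * X1⁻¹ * Z1⁻¹ * X1) * (Z1 * X1⁻¹ * Z1⁻¹ * X1) = T)
    (hZ : X1 * Y1⁻¹ * X1⁻¹ * Y1 = 1)
    (cX : (Y1 * Z1⁻¹ * Y1⁻¹ * Z1) * X1 = X1 * (Y1 * Z1⁻¹ * Y1⁻¹ * Z1))
    (cY : (Z1 * X1⁻¹ * Z1⁻¹ * X1) * Y1 = Y1 * (Z1 * X1⁻¹ * Z1⁻¹ * X1))
    (hMW : ∀ (L : List (A × A)) (n : ℤ), L ≠ [] → prodComm L = T ^ n →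
      |n| ≤ 2 * (L.length : ℤ) - 2) :
    ∃ (D : Type) (_ : Group D) (δ X Y Z : D) (θ : D →* Equiv.Perm Pt),
      (∀ d, Commute δ d) ∧ (∀ m : ℤ, δ ^ m = 1 → m = 0) ∧
      (Y * Z⁻¹ * Y⁻¹ * Z) * (Y * Z⁻¹ * Y⁻¹ * Z) = δ ^ 2 ∧
      (Z * X⁻¹ * Z⁻¹ * X) * (Z * X⁻¹ * Z⁻¹ * X) = δ ∧
      (X * Y⁻¹ * X⁻¹ * Y) * (X * Y⁻¹ * X⁻¹ * Y) = δ ∧
      (Y * Z⁻¹ * Y⁻¹ * Z) * X = X * (Y * Z⁻¹ * Y⁻¹ * Z) ∧
      (Z * X⁻¹ * Z⁻¹ * X) * Y = Y * (Z * X⁻¹ * Z⁻¹ * X) ∧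
      (X * Y⁻¹ * X⁻¹ * Y) * Z = Z * (X * Y⁻¹ * X⁻¹ * Y) ∧
      θ δ = ps ∧ θ X = mx ∧ θ Y = my ∧ θ Z = mz ∧
      (∀ (L : List (D × D)) (m : ℤ), L ≠ [] → prodComm L = δ ^ m →
        |m| ≤ 2 * (2 * (L.length : ℤ) - 2)) := by
  have : (NN T).Normal := NN_normal hT
  let D := HH A ⧸ NN T
  let q : HH A →* D := QuotientGroup.mk' (NN T)
  let δ0 : HH A := (1, 1, 1, Multiplicative.ofAdd 1)
  let X0 : HH A := (X1, Y1, pmx, 1)
  let Y0 : HH A := (Y1, Z1, pmy, 1)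
  let Z0 : HH A := (Z1, X1, pmz, 1)
  have hq : ∀ g h : HH A, (∃ i j : ℤ, g = h * nn T i j) → q g = q h := by
    rintro g h ⟨i, j, rfl⟩
    rw [map_mul]
    have : q (nn T i j) = 1 := (QuotientGroup.eq_one_iff _).2 ⟨i, j, rfl⟩
    rw [this, mul_one]
  have hq' : ∀ g h : HH A, q g = q h → ∃ i j : ℤ, g = h * nn T i j := by
    intro g h hgh
    obtain ⟨i, j, hij⟩ := (QuotientGroup.eq.1 hgh.symm : h⁻¹ * g ∈ NN T)
    exact ⟨i, j, by rw [← hij, mul_inv_cancel_left]⟩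
  have hδ : ∀ m : ℤ, δ0 ^ m = (1, 1, 1, Multiplicative.ofAdd m) := by
    intro m
    refine Prod.ext (one_zpow m) (Prod.ext (one_zpow m) (Prod.ext (one_zpow m) ?_))
    change (Multiplicative.ofAdd (1 : ℤ)) ^ m = Multiplicative.ofAdd m
    rw [← ofAdd_zsmul, smul_eq_mul, mul_one]
  refine ⟨D, inferInstance, q δ0, q X0, q Y0, q Z0, QuotientGroup.lift (NN T) (th0 A) ?_,
    ?_, ?_, ?_, ?_, ?_, ?_, ?_, ?_, ?_, ?_, ?_, ?_, ?_⟩
  · rintro _ ⟨i, j, rfl⟩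
    exact th0_nn T i j
  · intro d
    obtain ⟨h, rfl⟩ := QuotientGroup.mk'_surjective (NN T) d
    have h1 : Commute δ0 h := Prod.ext (Commute.one_left _) (Prod.ext (Commute.one_left _)
      (Prod.ext (Commute.one_left _) (mul_comm _ _)))
    exact h1.map q
  · intro m hm
    rw [← map_zpow, ← map_one q] at hm
    obtain ⟨i, j, hij⟩ := hq' _ _ hm
    rw [hδ, one_mul] at hij
    have h1 := hinf i (congrArg (fun t : HH A => t.1) hij).symm
    have h2 := hinf j (congrArg (fun t : HH A => t.2.1) hij).symm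
    subst h1 h2
    have h3 : m = -(0 + 0) := congrArg (fun t : HH A => Multiplicative.toAdd t.2.2.2) hij
    simpa using h3
  · have h1 : (Y0 * Z0⁻¹ * Y0⁻¹ * Z0) * (Y0 * Z0⁻¹ * Y0⁻¹ * Z0) = δ0 ^ 2 * nn T 1 1 := by
      refine Prod.ext ?_ (Prod.ext ?_ (Prod.ext (Subtype.ext ?_) ?_))
      · change _ = (1 : A) ^ 2 * T ^ (1 : ℤ)
        rw [one_pow, one_mul, zpow_one]; exact hX
      · change _ = (1 : A) ^ 2 * T ^ (1 : ℤ)
        rw [one_pow, one_mul, zpow_one]; exact hY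
      · change _ = (1 : Equiv.Perm Pt) ^ 2 * ps ^ (1 + 1 : ℤ)
        rw [one_pow, one_mul]
        exact m_uX
      · rfl
    have h2 := hq _ _ ⟨1, 1, h1⟩
    simpa only [map_mul, map_inv, map_pow] using h2
  · have h1 : (Z0 * X0⁻¹ * Z0⁻¹ * X0) * (Z0 * X0⁻¹ * Z0⁻¹ * X0) = δ0 * nn T 1 0 := by
      refine Prod.ext ?_ (Prod.ext ?_ (Prod.ext (Subtype.ext ?_) ?_))
      · change _ = (1 : A) * T ^ (1 : ℤ)
        rw [one_mul, zpow_one]; exact hY
      · change _ = (1 : A) * T ^ (0 : ℤ)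
        rw [one_mul, zpow_zero]
        change (X1 * Y1⁻¹ * X1⁻¹ * Y1) * (X1 * Y1⁻¹ * X1⁻¹ * Y1) = 1
        rw [hZ, one_mul]
      · change _ = (1 : Equiv.Perm Pt) * ps ^ (1 + 0 : ℤ)
        rw [one_mul]
        exact m_uY
      · rfl
    have h2 := hq _ _ ⟨1, 0, h1⟩
    simpa only [map_mul, map_inv, map_pow] using h2
  · have h1 : (X0 * Y0⁻¹ * X0⁻¹ * Y0) * (X0 * Y0⁻¹ * X0⁻¹ * Y0) = δ0 * nn T 0 1 := by
      refine Prod.ext ?_ (Prod.ext ?_ (Prod.ext (Subtype.ext ?_) ?_))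
      · change _ = (1 : A) * T ^ (0 : ℤ)
        rw [one_mul, zpow_zero]
        change (X1 * Y1⁻¹ * X1⁻¹ * Y1) * (X1 * Y1⁻¹ * X1⁻¹ * Y1) = 1
        rw [hZ, one_mul]
      · change _ = (1 : A) * T ^ (1 : ℤ)
        rw [one_mul, zpow_one]; exact hX
      · change _ = (1 : Equiv.Perm Pt) * ps ^ (0 + 1 : ℤ)
        rw [one_mul]
        exact m_uZ
      · rfl
    have h2 := hq _ _ ⟨0, 1, h1⟩
    simpa only [map_mul, map_inv, map_pow] using h2
  · have h1 : (Y0 * Z0⁻¹ * Y0⁻¹ * Z0) * X0 = X0 * (Y0 * Z0⁻¹ * Y0⁻¹ * Z0) :=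
      Prod.ext cX (Prod.ext cY (Prod.ext (Subtype.ext m_cX) rfl))
    have h2 := congrArg q h1
    simpa only [map_mul, map_inv] using h2
  · have h3 : (X1 * Y1⁻¹ * X1⁻¹ * Y1) * Z1 = Z1 * (X1 * Y1⁻¹ * X1⁻¹ * Y1) := by
      rw [hZ, one_mul, mul_one]
    have h1 : (Z0 * X0⁻¹ * Z0⁻¹ * X0) * Y0 = Y0 * (Z0 * X0⁻¹ * Z0⁻¹ * X0) :=
      Prod.ext cY (Prod.ext h3 (Prod.ext (Subtype.ext m_cY) rfl))
    have h2 := congrArg q h1
    simpa only [map_mul, map_inv] using h2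
  · have h3 : (X1 * Y1⁻¹ * X1⁻¹ * Y1) * Z1 = Z1 * (X1 * Y1⁻¹ * X1⁻¹ * Y1) := by
      rw [hZ, one_mul, mul_one]
    have h1 : (X0 * Y0⁻¹ * X0⁻¹ * Y0) * Z0 = Z0 * (X0 * Y0⁻¹ * X0⁻¹ * Y0) :=
      Prod.ext h3 (Prod.ext cX (Prod.ext (Subtype.ext m_cZ) rfl))
    have h2 := congrArg q h1
    simpa only [map_mul, map_inv] using h2
  · change (1 : Equiv.Perm Pt) * ps ^ (1 : ℤ) = ps
    rw [one_mul, zpow_one]
  · change mx * ps ^ (0 : ℤ) = mx
    rw [zpow_zero, mul_one]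
  · change my * ps ^ (0 : ℤ) = my
    rw [zpow_zero, mul_one]
  · change mz * ps ^ (0 : ℤ) = mz
    rw [zpow_zero, mul_one]
  · intro L m hL hm
    obtain ⟨L0, rfl⟩ : ∃ L0 : List (HH A × HH A), L0.map (Prod.map q q) = L := by
      refine ⟨L.map (Prod.map Quotient.out Quotient.out), ?_⟩
      rw [List.map_map]
      conv_rhs => rw [← List.map_id L]
      refine List.map_congr_left fun p _ => ?_
      exact Prod.ext (Quotient.out_eq p.1) (Quotient.out_eq p.2)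
    have hL0 : L0 ≠ [] := by
      rintro rfl; exact hL rfl
    rw [← prodComm_map, ← map_zpow] at hm
    obtain ⟨i, j, hij⟩ := hq' _ _ hm
    have h1 : prodComm (L0.map (Prod.map (MonoidHom.fst A _) (MonoidHom.fst A _))) = T ^ i := by
      rw [← prodComm_map, hij, hδ]
      exact one_mul _
    have h2 : prodComm (L0.map (Prod.map ((MonoidHom.fst A _).comp (MonoidHom.snd A _))
        ((MonoidHom.fst A _).comp (MonoidHom.snd A _)))) = T ^ j := by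
      rw [← prodComm_map, hij, hδ]
      exact one_mul _
    have h3 : prodComm (L0.map (Prod.map
        ((MonoidHom.snd PM _).comp ((MonoidHom.snd A _).comp (MonoidHom.snd A _)))
        ((MonoidHom.snd PM _).comp ((MonoidHom.snd A _).comp (MonoidHom.snd A _))))) =
          Multiplicative.ofAdd (m - (i + j)) := by
      rw [← prodComm_map, hij, hδ]
      rfl
    have h4 : ∀ M : List (Multiplicative ℤ × Multiplicative ℤ), prodComm M = 1 := by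
      intro M
      induction M with
      | nil => rfl
      | cons p M ih => rw [prodComm_cons, ih, mul_one, commutatorElement_eq_one_iff_mul_comm, mul_comm]
    rw [h4] at h3
    have h5 : m - (i + j) = 0 := (congrArg Multiplicative.toAdd h3).symm
    have h6 := hMW _ i (by simpa using hL0) h1
    have h7 := hMW _ j (by simpa using hL0) h2
    rw [List.length_map] at h6 h7 ⊢
    rw [abs_le] at h6 h7 ⊢
    constructor <;> linarith [h6.1, h6.2, h7.1, h7.2]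

end Build

/-- **The group `D`.** -/
theorem exists_D : ∃ (D : Type) (_ : Group D) (δ X Y Z : D) (θ : D →* Equiv.Perm Pt),
      (∀ d, Commute δ d) ∧ (∀ m : ℤ, δ ^ m = 1 → m = 0) ∧
      (Y * Z⁻¹ * Y⁻¹ * Z) * (Y * Z⁻¹ * Y⁻¹ * Z) = δ ^ 2 ∧
      (Z * X⁻¹ * Z⁻¹ * X) * (Z * X⁻¹ * Z⁻¹ * X) = δ ∧
      (X * Y⁻¹ * X⁻¹ * Y) * (X * Y⁻¹ * X⁻¹ * Y) = δ ∧
      (Y * Z⁻¹ * Y⁻¹ * Z) * X = X * (Y * Z⁻¹ * Y⁻¹ * Z) ∧
      (Z * X⁻¹ * Z⁻¹ * X) * Y = Y * (Z * X⁻¹ * Z⁻¹ * X) ∧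
      (X * Y⁻¹ * X⁻¹ * Y) * Z = Z * (X * Y⁻¹ * X⁻¹ * Y) ∧
      θ δ = ps ∧ θ X = mx ∧ θ Y = my ∧ θ Z = mz ∧
      (∀ (L : List (D × D)) (m : ℤ), L ≠ [] → prodComm L = δ ^ m →
        |m| ≤ 2 * (2 * (L.length : ℤ) - 2)) := by
  obtain ⟨Λ, _, T, X, Y, Z, hN, hlt, hcof, hTX, hTY, hTZ, hX, hY, hZ, cX, cY⟩ := action
  have hS : IsShift T := ⟨hlt, hcof⟩
  have e1 : ∀ a b : Λ ≃o Λ, ⁅a, b⁻¹⁆ = a * b⁻¹ * a⁻¹ * b := fun a b => by
    rw [commutatorElement_def, inv_inv]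
  have e2 : ∀ a b : Λ ≃o Λ, ⁅a, b⁆ = 1 → b * a = a * b := fun a b h =>
    (commutatorElement_eq_one_iff_mul_comm.1 h).symm
  rw [e1] at hX hY hZ
  have cX' := e2 _ _ cX
  have cY' := e2 _ _ cY
  rw [e1] at cX' cY'
  let A : Subgroup (Λ ≃o Λ) := Subgroup.centralizer {T}
  have mem : ∀ f, Commute T f → f ∈ A := fun f hf => Subgroup.mem_centralizer_singleton_iff.2 hf.symm.eq
  have hmem : ∀ a : A, Commute (a : Λ ≃o Λ) T := fun a => Subgroup.mem_centralizer_singleton_iff.1 a.2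
  refine build (A := A) ⟨T, mem T (Commute.refl T)⟩ ⟨X, mem X hTX⟩ ⟨Y, mem Y hTY⟩ ⟨Z, mem Z hTZ⟩
    (fun a => Subtype.ext (hmem a).symm) ?_ (Subtype.ext hX) (Subtype.ext hY) (Subtype.ext hZ)
    (Subtype.ext cX') (Subtype.ext cY') ?_
  · intro n hn
    obtain ⟨p⟩ := hN
    have h1 : T ^ n = 1 := congrArg Subtype.val hn
    have h2 : (T ^ n) p = (T ^ (0 : ℤ)) p := by rw [h1, zpow_zero]
    exact (hS.strictMono_zpow p).injective h2
  · intro L n hL hn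
    have h1 : prodComm (L.map (Prod.map A.subtype A.subtype)) = T ^ n := by
      rw [← prodComm_map, hn]; rfl
    have h2 := milnorWood hS _ (by
      intro p hp
      obtain ⟨r, hr, rfl⟩ := List.mem_map.1 hp
      exact ⟨hmem r.1, hmem r.2⟩) (by simpa using hL) h1
    rwa [List.length_map] at h2

end Pool.Agent.EC.Cls8
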