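import Pool.Agent.EC.Lift

/-! The manifold group `Γ`: the stabiliser of a point for the action of the Lambert cube group on
`32 = 8 · 4` points. It is torsion free and acts freely, properly and cocompactly on `H³`. -/

namespace Pool.Agent.EC

theorem perm_pow4 {α : Type*} (f g : Equiv.Perm α)
    (h : ∀ t, f (g (f (g (f (g (f (g t))))))) = t) : (f * g) ^ 4 = 1 := by
  ext t : 1
  rw [show (4 : ℕ) = 3 + 1 from rfl, pow_succ, pow_succ, pow_two]
  exact h t

namespace Lam

/-- The twisted table of the action of the six mirrors on the second coordinate. -/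
def tab : Fin 6 → Tr → Fin 4 → Fin 4 :=
  ![fun _ j => j, fun _ j => j, fun _ j => j,
    fun r => if r.2.1 then ![3, 1, 2, 0] else ![0, 2, 1, 3],
    fun r => if r.2.2 then ![2, 3, 0, 1] else ![1, 0, 3, 2],
    fun r => if r.1 == r.2.2 then ![2, 0, 3, 1] else ![1, 3, 0, 2]]

/-- The action of the six mirrors on the 32 points. -/
def act (i : Fin 6) (t : Tr × Fin 4) : Tr × Fin 4 := (flip i t.1, tab i t.1 t.2)

theorem act_act (i : Fin 6) : Function.Involutive (act i) := by
  intro t
  revert i t; decide

/-- The action as permutations. -/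
def actP (i : Fin 6) : Equiv.Perm (Tr × Fin 4) := (act_act i).toPerm

theorem actP_liftable : M.IsLiftable actP := by
  have h1 : ∀ i, actP i * actP i = 1 := by
    intro i; ext t : 1; exact act_act i t
  have comm : ∀ i j, (∀ t, act i (act j t) = act j (act i t)) → actP i * actP j = actP j * actP i := by
    intro i j h; ext t : 1; exact h t
  have four : ∀ i j, (∀ t, act i (act j (act i (act j (act i (act j (act i (act j t))))))) = t) →
      (actP i * actP j) ^ 4 = 1 := by
    intro i j h
    exact perm_pow4 _ _ h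
  apply liftable_iff
  · exact h1
  · apply comm; decide
  · apply comm; decide
  · apply comm; decide
  · apply comm; decide
  · apply comm; decide
  · apply comm; decide
  · apply comm; decide
  · apply comm; decide
  · apply comm; decide
  · apply four; decide
  · apply four; decide
  · apply four; decide

/-- The permutation representation of `W` on 32 points. -/
noncomputable def perm32 : W →* Equiv.Perm (Tr × Fin 4) := S.lift ⟨actP, actP_liftable⟩

theorem perm32_simple (i : Fin 6) (t : Tr × Fin 4) : perm32 (S.simple i) t = act i t := by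
  have : perm32 (S.simple i) = actP i := S.lift_apply_simple _ i
  rw [this]; rfl

/-- The base point. -/
def o : Tr × Fin 4 := ((false, false, false), 0)

/-- The manifold group. -/
noncomputable def Gam : Subgroup W where
  carrier := {w | perm32 w o = o}
  one_mem' := by simp
  mul_mem' := by
    intro a b ha hb
    change perm32 (a * b) o = o
    rw [map_mul, Equiv.Perm.mul_apply, hb, ha]
  inv_mem' := by
    intro a ha
    change perm32 a⁻¹ o = o
    rw [map_inv, Equiv.Perm.inv_eq_iff_eq]
    exact ha.symm

theorem mem_Gam {w : W} : w ∈ Gam ↔ perm32 w o = o := Iff.rfl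

/-- The three permutations. -/
def pX : Equiv.Perm (Fin 4) := ⟨![0, 2, 1, 3], ![0, 2, 1, 3], by decide, by decide⟩
def pY : Equiv.Perm (Fin 4) := ⟨![1, 0, 3, 2], ![1, 0, 3, 2], by decide, by decide⟩
def pZ : Equiv.Perm (Fin 4) := ⟨![1, 3, 0, 2], ![2, 0, 3, 1], by decide, by decide⟩

theorem rel_p : GRel pX pY pZ where
  hZ := by decide
  hX := by decide
  hY := by decide
  cX := by decide
  cY := by decide
  cZ := by decide

/-- The permutation representation of `G` on four points. -/
noncomputable def sig : G →* Equiv.Perm (Fin 4) := gLift rel_p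

theorem coeff_tab (i : Fin 6) (r : Tr) (j : Fin 4) :
    (![1, 1, 1, tw pX (pX * pY⁻¹ * pX⁻¹ * pY) (!r.1) r.2.1, tw pY (pY * pZ⁻¹ * pY⁻¹ * pZ) (!r.2.1) r.2.2,
    tw pZ (pZ * pX⁻¹ * pZ⁻¹ * pX) (!r.2.2) r.1] : Fin 6 → Equiv.Perm (Fin 4)) i j = tab i r j := by
  revert i r j
  decide

theorem mono_perm32 (w : W) (t : Tr × Equiv.Perm (Fin 4)) (j : Fin 4) :
    perm32 w (t.1, t.2 j) = ((mono rel_p w t).1, (mono rel_p w t).2 j) := by
  induction w using S.simple_induction_left with
  | one => simp
  | mul_simple_left w i ih =>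
    rw [map_mul, Equiv.Perm.mul_apply, ih, map_mul, Equiv.Perm.mul_apply, mono_simple,
      perm32_simple]
    generalize mono rel_p w t = t'
    obtain ⟨⟨a, b, c⟩, k⟩ := t'
    simp only [act, mact, Equiv.Perm.mul_apply]
    rw [coeff_tab i (a, b, c) (k j)]

theorem perm32_G (w : G) (j : Fin 4) :
    perm32 w.1 ((false, false, false), j) = ((false, false, false), sig w j) := by
  have h1 := mono_perm32 w.1 ((false, false, false), 1) j
  have h2 : (mono rel_p w.1 ((false, false, false), 1)).1 = (false, false, false) := by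
    rw [mono_fst, mem_G.mp w.2]; rfl
  rw [h2] at h1
  exact h1

theorem perm32_fst (w : W) (t : Tr × Fin 4) : (perm32 w t).1 = par w t.1 := by
  have h := mono_perm32 w (t.1, 1) t.2
  have h1 : (perm32 w t).1 = (mono rel_p w (t.1, 1)).1 := congrArg Prod.fst h
  rw [h1, mono_fst]

/-- `par w` is the translation by `par w 0`. -/
theorem par_translation (w : W) (r : Tr) : par w r =
    (xor r.1 (par w (false, false, false)).1, xor r.2.1 (par w (false, false, false)).2.1,
      xor r.2.2 (par w (false, false, false)).2.2) := by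
  induction w using S.simple_induction_left with
  | one => simp
  | mul_simple_left w i ih =>
    rw [map_mul, Equiv.Perm.mul_apply, Equiv.Perm.mul_apply, ih, par_simple, flipP_apply,
      flipP_apply]
    generalize par w (false, false, false) = q
    clear ih
    revert i r q
    decide

theorem Gam_le_G : Gam ≤ G := by
  intro w hw
  have h1 : par w (false, false, false) = (false, false, false) := by
    have := perm32_fst w o
    rw [mem_Gam.mp hw] at this
    exact this.symm
  rw [mem_G]
  ext r : 1
  rw [par_translation w r, h1]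
  simp

theorem mem_Gam_iff (w : G) : w.1 ∈ Gam ↔ sig w 0 = 0 := by
  rw [mem_Gam]
  unfold o
  rw [perm32_G]
  simp

/-! ### Vertex groups -/

section Dih

variable {K : Type*} [Group K]

/-- The elements of a dihedral group of order eight. -/
def dih8 (a b : K) : Fin 8 → K :=
  ![1, a, b, a * b, b * a, a * b * a, b * a * b, a * b * a * b]

/-- The elements of a Klein four group. -/
def dih4 (a b : K) : Fin 4 → K := ![1, a, b, a * b]

theorem closure_dih8 {a b c w : K} (ha : a * a = 1) (hb : b * b = 1) (hc : c * c = 1)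
    (hac : a * c = c * a) (hbc : b * c = c * b) (h4 : (a * b) ^ 4 = 1)
    (hw : w ∈ Subgroup.closure {a, b, c}) : ∃ k ε, w = dih8 a b k * cl c ε := by
  have ia : a⁻¹ = a := (eq_inv_of_mul_eq_one_left ha).symm
  have ib : b⁻¹ = b := (eq_inv_of_mul_eq_one_left hb).symm
  have ic : c⁻¹ = c := (eq_inv_of_mul_eq_one_left hc).symm
  have hbr : b * a * b * a = a * b * a * b := by
    have h5 : (a * b * a * b) * (a * b * a * b) = 1 := by
      rw [← h4]; simp only [pow_succ, pow_zero, one_mul, mul_assoc]
    have e := eq_inv_of_mul_eq_one_left h5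
    simp only [mul_inv_rev, ia, ib] at e
    rw [e]; simp only [mul_assoc]
  have stepa : ∀ w : K, (∃ k ε, w = dih8 a b k * cl c ε) → ∃ k ε, a * w = dih8 a b k * cl c ε := by
    rintro w ⟨k, ε, rfl⟩
    refine ⟨(![1, 0, 3, 2, 5, 4, 7, 6] : Fin 8 → Fin 8) k, ε, ?_⟩
    rw [← mul_assoc]; congr 1
    fin_cases k
    · change a * 1 = a; rw [mul_one]
    · change a * a = 1; exact ha
    · change a * b = a * b; rfl
    · change a * (a * b) = b; exact sq_assoc ha _
    · change a * (b * a) = a * b * a; rw [mul_assoc]
    · change a * (a * b * a) = b * a; rw [mul_assoc, sq_assoc ha]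
    · change a * (b * a * b) = a * b * a * b; simp only [mul_assoc]
    · change a * (a * b * a * b) = b * a * b; simp only [mul_assoc]; rw [sq_assoc ha]
  have stepb : ∀ w : K, (∃ k ε, w = dih8 a b k * cl c ε) → ∃ k ε, b * w = dih8 a b k * cl c ε := by
    rintro w ⟨k, ε, rfl⟩
    refine ⟨(![2, 4, 0, 6, 1, 7, 3, 5] : Fin 8 → Fin 8) k, ε, ?_⟩
    rw [← mul_assoc]; congr 1
    fin_cases k
    · change b * 1 = b; rw [mul_one]
    · change b * a = b * a; rfl
    · change b * b = 1; exact hb
    · change b * (a * b) = b * a * b; rw [mul_assoc]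
    · change b * (b * a) = a; exact sq_assoc hb _
    · change b * (a * b * a) = a * b * a * b; rw [← hbr]; simp only [mul_assoc]
    · change b * (b * a * b) = a * b; rw [mul_assoc, sq_assoc hb]
    · change b * (a * b * a * b) = a * b * a; rw [← hbr]; simp only [mul_assoc]
      rw [sq_assoc hb]
  have stepc : ∀ w : K, (∃ k ε, w = dih8 a b k * cl c ε) → ∃ k ε, c * w = dih8 a b k * cl c ε := by
    rintro w ⟨k, ε, rfl⟩
    refine ⟨k, !ε, ?_⟩
    have hk : c * dih8 a b k = dih8 a b k * c := by
      fin_cases k
      · change c * 1 = 1 * c; rw [mul_one, one_mul]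
      · exact hac.symm
      · exact hbc.symm
      · change c * (a * b) = a * b * c; rw [mul_assoc, hbc, ← mul_assoc, ← hac, mul_assoc]
      · change c * (b * a) = b * a * c; rw [mul_assoc, hac, ← mul_assoc, ← hbc, mul_assoc]
      · change c * (a * b * a) = a * b * a * c
        simp only [mul_assoc]; rw [hac, comm_assoc hbc, comm_assoc hac]
      · change c * (b * a * b) = b * a * b * c
        simp only [mul_assoc]; rw [hbc, comm_assoc hac, comm_assoc hbc]
      · change c * (a * b * a * b) = a * b * a * b * c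
        simp only [mul_assoc]; rw [hbc, comm_assoc hac, comm_assoc hbc, comm_assoc hac]
    rw [← mul_assoc, hk, mul_assoc]; congr 1
    cases ε <;> simp [cl, hc]
  induction hw using Subgroup.closure_induction_left with
  | one => exact ⟨0, false, by simp [dih8, cl]⟩
  | mul_left x hx y hy ih =>
    rcases hx with rfl | rfl | rfl
    · exact stepa y ih
    · exact stepb y ih
    · exact stepc y ih
  | inv_mul_cancel x hx y hy ih =>
    rcases hx with rfl | rfl | rfl
    · rw [ia]; exact stepa y ih
    · rw [ib]; exact stepb y ih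
    · rw [ic]; exact stepc y ih

theorem closure_dih4 {a b c w : K} (ha : a * a = 1) (hb : b * b = 1) (hc : c * c = 1)
    (hac : a * c = c * a) (hbc : b * c = c * b) (hab : a * b = b * a)
    (hw : w ∈ Subgroup.closure {a, b, c}) : ∃ k ε, w = dih4 a b k * cl c ε := by
  have ia : a⁻¹ = a := (eq_inv_of_mul_eq_one_left ha).symm
  have ib : b⁻¹ = b := (eq_inv_of_mul_eq_one_left hb).symm
  have ic : c⁻¹ = c := (eq_inv_of_mul_eq_one_left hc).symm
  have stepa : ∀ w : K, (∃ k ε, w = dih4 a b k * cl c ε) → ∃ k ε, a * w = dih4 a b k * cl c ε := by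
    rintro w ⟨k, ε, rfl⟩
    refine ⟨(![1, 0, 3, 2] : Fin 4 → Fin 4) k, ε, ?_⟩
    rw [← mul_assoc]; congr 1
    fin_cases k
    · change a * 1 = a; rw [mul_one]
    · change a * a = 1; exact ha
    · change a * b = a * b; rfl
    · change a * (a * b) = b; exact sq_assoc ha _
  have stepb : ∀ w : K, (∃ k ε, w = dih4 a b k * cl c ε) → ∃ k ε, b * w = dih4 a b k * cl c ε := by
    rintro w ⟨k, ε, rfl⟩
    refine ⟨(![2, 3, 0, 1] : Fin 4 → Fin 4) k, ε, ?_⟩
    rw [← mul_assoc]; congr 1
    fin_cases k
    · change b * 1 = b; rw [mul_one]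
    · change b * a = a * b; exact hab.symm
    · change b * b = 1; exact hb
    · change b * (a * b) = a; rw [hab]; exact sq_assoc hb _
  have stepc : ∀ w : K, (∃ k ε, w = dih4 a b k * cl c ε) → ∃ k ε, c * w = dih4 a b k * cl c ε := by
    rintro w ⟨k, ε, rfl⟩
    refine ⟨k, !ε, ?_⟩
    have hk : c * dih4 a b k = dih4 a b k * c := by
      fin_cases k
      · change c * 1 = 1 * c; rw [mul_one, one_mul]
      · exact hac.symm
      · exact hbc.symm
      · change c * (a * b) = a * b * c; rw [mul_assoc, hbc, ← mul_assoc, ← hac, mul_assoc]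
    rw [← mul_assoc, hk, mul_assoc]; congr 1
    cases ε <;> simp [cl, hc]
  induction hw using Subgroup.closure_induction_left with
  | one => exact ⟨0, false, by simp [dih4, cl]⟩
  | mul_left x hx y hy ih =>
    rcases hx with rfl | rfl | rfl
    · exact stepa y ih
    · exact stepb y ih
    · exact stepc y ih
  | inv_mul_cancel x hx y hy ih =>
    rcases hx with rfl | rfl | rfl
    · rw [ia]; exact stepa y ih
    · rw [ib]; exact stepb y ih
    · rw [ic]; exact stepc y ih

end Dih

/-- Words of the dihedral group acting on the 32 points. -/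
def run8 (i j : Fin 6) : Fin 8 → Tr × Fin 4 → Tr × Fin 4 :=
  ![fun t => t, fun t => act i t, fun t => act j t, fun t => act i (act j t),
    fun t => act j (act i t), fun t => act i (act j (act i t)), fun t => act j (act i (act j t)),
    fun t => act i (act j (act i (act j t)))]

def run4 (i j : Fin 6) : Fin 4 → Tr × Fin 4 → Tr × Fin 4 :=
  ![fun t => t, fun t => act i t, fun t => act j t, fun t => act i (act j t)]

def runc (k : Fin 6) : Bool → Tr × Fin 4 → Tr × Fin 4
  | false => fun t => t
  | true => fun t => act k t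

theorem perm32_dih8 (i j k : Fin 6) (n : Fin 8) (ε : Bool) (t : Tr × Fin 4) :
    perm32 (dih8 (s i) (s j) n * cl (s k) ε) t = run8 i j n (runc k ε t) := by
  rw [map_mul, Equiv.Perm.mul_apply]
  have h1 : perm32 (cl (s k) ε) t = runc k ε t := by
    cases ε
    · simp [cl, runc]
    · simp [cl, runc, perm32_simple]
  rw [h1]
  generalize runc k ε t = t'
  fin_cases n <;> simp [dih8, run8, perm32_simple]

theorem perm32_dih4 (i j k : Fin 6) (n : Fin 4) (ε : Bool) (t : Tr × Fin 4) :
    perm32 (dih4 (s i) (s j) n * cl (s k) ε) t = run4 i j n (runc k ε t) := by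
  rw [map_mul, Equiv.Perm.mul_apply]
  have h1 : perm32 (cl (s k) ε) t = runc k ε t := by
    cases ε
    · simp [cl, runc]
    · simp [cl, runc, perm32_simple]
  rw [h1]
  generalize runc k ε t = t'
  fin_cases n <;> simp [dih4, run4, perm32_simple]

/-- A vertex group with an angle `π/4` acts freely on the 32 points. -/
theorem free8 (i j k : Fin 6) (hij : M i j = 4) (hik : M i k = 2) (hjk : M j k = 2)
    (hf : ∀ (n : Fin 8) (ε : Bool) (t : Tr × Fin 4), run8 i j n (runc k ε t) = t →
      n = 0 ∧ ε = false) {w : W} (hw : w ∈ Subgroup.closure {s i, s j, s k}) {t : Tr × Fin 4}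
    (ht : perm32 w t = t) : w = 1 := by
  have h4 : (s i * s j) ^ 4 = 1 := by rw [← hij]; exact S.simple_mul_simple_pow i j
  obtain ⟨n, ε, rfl⟩ := closure_dih8 (s_sq i) (s_sq j) (s_sq k) (s_comm i k hik)
    (s_comm j k hjk) h4 hw
  rw [perm32_dih8] at ht
  obtain ⟨rfl, rfl⟩ := hf n ε t ht
  simp [dih8, cl]

theorem free4 (i j k : Fin 6) (hij : M i j = 2) (hik : M i k = 2) (hjk : M j k = 2)
    (hf : ∀ (n : Fin 4) (ε : Bool) (t : Tr × Fin 4), run4 i j n (runc k ε t) = t →
      n = 0 ∧ ε = false) {w : W} (hw : w ∈ Subgroup.closure {s i, s j, s k}) {t : Tr × Fin 4}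
    (ht : perm32 w t = t) : w = 1 := by
  obtain ⟨n, ε, rfl⟩ := closure_dih4 (s_sq i) (s_sq j) (s_sq k) (s_comm i k hik)
    (s_comm j k hjk) (s_comm i j hij) hw
  rw [perm32_dih4] at ht
  obtain ⟨rfl, rfl⟩ := hf n ε t ht
  simp [dih4, cl]

theorem vfree_000 {w : W} (hw : w ∈ Subgroup.closure {s 0, s 1, s 2}) {t : Tr × Fin 4}
    (ht : perm32 w t = t) : w = 1 := free4 0 1 2 rfl rfl rfl (by decide) hw ht
theorem vfree_111 {w : W} (hw : w ∈ Subgroup.closure {s 3, s 4, s 5}) {t : Tr × Fin 4}
    (ht : perm32 w t = t) : w = 1 := free4 3 4 5 rfl rfl rfl (by decide) hw ht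
theorem vfree_100 {w : W} (hw : w ∈ Subgroup.closure {s 3, s 1, s 2}) {t : Tr × Fin 4}
    (ht : perm32 w t = t) : w = 1 := free8 3 1 2 rfl rfl rfl (by decide) hw ht
theorem vfree_010 {w : W} (hw : w ∈ Subgroup.closure {s 4, s 2, s 0}) {t : Tr × Fin 4}
    (ht : perm32 w t = t) : w = 1 := free8 4 2 0 rfl rfl rfl (by decide) hw ht
theorem vfree_110 {w : W} (hw : w ∈ Subgroup.closure {s 4, s 2, s 3}) {t : Tr × Fin 4}
    (ht : perm32 w t = t) : w = 1 := free8 4 2 3 rfl rfl rfl (by decide) hw ht
theorem vfree_001 {w : W} (hw : w ∈ Subgroup.closure {s 5, s 0, s 1}) {t : Tr × Fin 4}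
    (ht : perm32 w t = t) : w = 1 := free8 5 0 1 rfl rfl rfl (by decide) hw ht
theorem vfree_101 {w : W} (hw : w ∈ Subgroup.closure {s 3, s 1, s 5}) {t : Tr × Fin 4}
    (ht : perm32 w t = t) : w = 1 := free8 3 1 5 rfl rfl rfl (by decide) hw ht
theorem vfree_011 {w : W} (hw : w ∈ Subgroup.closure {s 5, s 0, s 4}) {t : Tr × Fin 4}
    (ht : perm32 w t = t) : w = 1 := free8 5 0 4 rfl rfl rfl (by decide) hw ht

/-- Stabilisers of points of the polyhedron act freely on the 32 points. -/
theorem stab_free {q : V4} (hq : q ∈ L.P) {w : W}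
    (hw : w ∈ Subgroup.closure (S.simple '' {i | lor q (L.e i) = 0})) {t : Tr × Fin 4}
    (ht : perm32 w t = t) : w = 1 := by
  have opp : ∀ i j, M i j = 0 → lor q (L.e i) = 0 → lor q (L.e j) ≠ 0 := by
    intro i j hm hi hj
    exact L.face_meet hq hi hj hm
  have mono' : ∀ A : Set W, (∀ i, lor q (L.e i) = 0 → s i ∈ A) → w ∈ Subgroup.closure A := by
    intro A hA
    refine Subgroup.closure_mono ?_ hw
    rintro _ ⟨i, hi, rfl⟩
    exact hA i hi
  have o03 := opp 0 3 rfl
  have o14 := opp 1 4 rfl
  have o25 := opp 2 5 rfl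
  by_cases h3 : lor q (L.e 3) = 0 <;> by_cases h4 : lor q (L.e 4) = 0 <;>
    by_cases h5 : lor q (L.e 5) = 0
  · refine vfree_111 (mono' _ ?_) ht
    intro i hi
    fin_cases i
    · exact absurd h3 (o03 hi)
    · exact absurd h4 (o14 hi)
    · exact absurd h5 (o25 hi)
    · simp
    · simp
    · simp
  · refine vfree_110 (mono' _ ?_) ht
    intro i hi
    fin_cases i
    · exact absurd h3 (o03 hi)
    · exact absurd h4 (o14 hi)
    · simp
    · simp
    · simp
    · exact absurd hi h5
  · refine vfree_101 (mono' _ ?_) ht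
    intro i hi
    fin_cases i
    · exact absurd h3 (o03 hi)
    · simp
    · exact absurd h5 (o25 hi)
    · simp
    · exact absurd hi h4
    · simp
  · refine vfree_100 (mono' _ ?_) ht
    intro i hi
    fin_cases i
    · exact absurd h3 (o03 hi)
    · simp
    · simp
    · simp
    · exact absurd hi h4
    · exact absurd hi h5
  · refine vfree_011 (mono' _ ?_) ht
    intro i hi
    fin_cases i
    · simp
    · exact absurd h4 (o14 hi)
    · exact absurd h5 (o25 hi)
    · exact absurd hi h3
    · simp
    · simp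
  · refine vfree_010 (mono' _ ?_) ht
    intro i hi
    fin_cases i
    · simp
    · exact absurd h4 (o14 hi)
    · simp
    · exact absurd hi h3
    · simp
    · exact absurd hi h5
  · refine vfree_001 (mono' _ ?_) ht
    intro i hi
    fin_cases i
    · simp
    · simp
    · exact absurd h5 (o25 hi)
    · exact absurd hi h3
    · exact absurd hi h4
    · simp
  · refine vfree_000 (mono' _ ?_) ht
    intro i hi
    fin_cases i
    · simp
    · simp
    · simp
    · exact absurd hi h3
    · exact absurd hi h4
    · exact absurd hi h5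

/-- The geometric representation, on `W`. -/
noncomputable def rho : W →* (V4 ≃ₗ[ℝ] V4) := L.rho

theorem rho_eq (w : W) : rho w = L.rho w := rfl

theorem rho_simple (i : Fin 6) : rho (s i) = reflE (L.e i) (L.he i) := L.rho_simple i

theorem rho_injective : Function.Injective rho := L.rho_injective

theorem rho_mem (w : W) : rho w ∈ Oplus := L.rho_mem w

theorem rho_cover {x : V4} (hx : x ∈ H3) : ∃ w : W, rho w x ∈ L.P := L.cover hx

theorem rho_stab {w : W} {x : V4} (hx : x ∈ L.P) (hwx : rho w x ∈ L.P) :
    rho w x = x ∧ w ∈ Subgroup.closure (S.simple '' {i | lor x (L.e i) = 0}) := L.stab hx hwx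

theorem rho_proper {K : Set V4} (hK : IsCompact K) (hKH : K ⊆ H3) :
    {w : W | ∃ x ∈ K, rho w x ∈ K}.Finite := L.proper hK hKH

/-- `Γ` acts freely on hyperbolic space. -/
theorem Gam_free {w : W} (hw : w ∈ Gam) {p : V4} (hp : p ∈ H3) (hfix : rho w p = p) :
    w = 1 := by
  obtain ⟨u, hu⟩ := rho_cover hp
  have h1 : rho (u * w * u⁻¹) (rho u p) = rho u p := by
    rw [← LinearEquiv.mul_apply, ← map_mul]
    have : u * w * u⁻¹ * u = u * w := by group
    rw [this, map_mul, LinearEquiv.mul_apply, hfix]
  obtain ⟨-, h3⟩ := rho_stab hu (w := u * w * u⁻¹) (by rw [h1]; exact hu)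
  have h4 : perm32 (u * w * u⁻¹) (perm32 u o) = perm32 u o := by
    rw [← Equiv.Perm.mul_apply, ← map_mul]
    have : u * w * u⁻¹ * u = u * w := by group
    rw [this, map_mul, Equiv.Perm.mul_apply, mem_Gam.mp hw]
  have h5 := stab_free hu h3 h4
  calc w = u⁻¹ * (u * w * u⁻¹) * u := by group
    _ = 1 := by rw [h5]; group

/-- `Γ` is torsion free. -/
theorem Gam_torsionFree {w : W} (hw : w ∈ Gam) {n : ℕ} (hn : 0 < n) (hwn : w ^ n = 1) :
    w = 1 := by
  -- the barycentre of the orbit of `c`
  set b : V4 := ∑ k ∈ Finset.range n, rho (w ^ k) L.c with hb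
  have hfix : rho w b = b := by
    rw [hb, map_sum]
    have h1 : ∀ k, rho w (rho (w ^ k) L.c) = rho (w ^ (k + 1)) L.c := by
      intro k; rw [← LinearEquiv.mul_apply, ← map_mul, pow_succ']
    simp only [h1]
    have h3 : ∑ k ∈ Finset.range n, rho (w ^ (k + 1)) L.c + rho (w ^ 0) L.c =
        ∑ k ∈ Finset.range n, rho (w ^ k) L.c + rho (w ^ n) L.c := by
      rw [← Finset.sum_range_succ' (fun k => rho (w ^ k) L.c),
        Finset.sum_range_succ]
    rw [hwn, pow_zero] at h3
    exact add_right_cancel h3
  -- it is future timelike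
  have hb1 : ∀ m : ℕ, 0 < m → FutT (∑ k ∈ Finset.range m, rho (w ^ k) L.c) := by
    intro m hm
    induction m with
    | zero => omega
    | succ m ih =>
      rw [Finset.sum_range_succ]
      have hf := Oplus.fut (rho_mem (w ^ m)) (H3.fut L.hc)
      rcases Nat.eq_zero_or_pos m with rfl | hm'
      · simpa using hf
      · have h3 := ih hm'
        refine ⟨?_, ?_⟩
        · rw [lor_add_left, lor_add_right, lor_add_right]
          have h4 := lor_neg_of_fut h3 hf.1.le hf.2
          have h5 := h3.1
          have h6 := hf.1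
          rw [lor_comm (rho (w ^ m) L.c)]
          linarith
        · simp only [Pi.add_apply]
          linarith [h3.2, hf.2]
  have hbf := hb1 n hn
  rw [← hb] at hbf
  set t := Real.sqrt (-lor b b) with ht
  have ht0 : 0 < t := Real.sqrt_pos.mpr (by linarith [hbf.1])
  have ht2 : t ^ 2 = -lor b b := Real.sq_sqrt (by linarith [hbf.1])
  have hx : t⁻¹ • b ∈ H3 := by
    refine ⟨?_, ?_⟩
    · rw [lor_smul_left, lor_smul_right]
      have : lor b b = -t ^ 2 := by linarith
      rw [this]; field_simp
    · simp only [Pi.smul_apply, smul_eq_mul]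
      have := hbf.2
      positivity
  exact Gam_free hw hx (by rw [map_smul, hfix])

/-- Translates under `Γ` of a compact set cover `H³`. -/
theorem Gam_cocompact : ∃ K : Set V4, IsCompact K ∧ K ⊆ H3 ∧
    ∀ x ∈ H3, ∃ w ∈ Gam, rho w x ∈ K := by
  choose! f hf using fun (t : Tr × Fin 4) (ht : t ∈ Set.range (fun w : W => perm32 w o)) => ht
  set K : Set V4 := ⋃ t ∈ Set.range (fun w : W => perm32 w o), (rho (f t)⁻¹) '' L.P with hK
  refine ⟨K, ?_, ?_, ?_⟩
  · rw [hK]
    apply (Set.toFinite _).isCompact_biUnion
    intro t _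
    exact isCompact_P.image (LinearMap.continuous_of_finiteDimensional
      (rho (f t)⁻¹).toLinearMap)
  · rw [hK]
    intro x hx
    simp only [Set.mem_iUnion] at hx
    obtain ⟨t, _, p, hp, rfl⟩ := hx
    exact Oplus.h3 (rho_mem _) hp.1
  · intro x hx
    obtain ⟨u, hu⟩ := rho_cover hx
    have ht : perm32 u o ∈ Set.range (fun w : W => perm32 w o) := ⟨u, rfl⟩
    refine ⟨(f (perm32 u o))⁻¹ * u, ?_, ?_⟩
    · rw [mem_Gam, map_mul, Equiv.Perm.mul_apply, map_inv, Equiv.Perm.inv_eq_iff_eq]
      exact (hf _ ht).symm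
    · rw [hK]
      simp only [Set.mem_iUnion]
      refine ⟨perm32 u o, ht, rho u x, hu, ?_⟩
      rw [map_mul, LinearEquiv.mul_apply]

/-- `Γ` has finite index in `W`. -/
theorem Gam_finiteIndex : Gam.FiniteIndex := by
  have hinj : Function.Injective (fun q : W ⧸ Gam => Quotient.liftOn' q (fun w => perm32 w o)
      (by
        intro a b hab
        have h1 : a⁻¹ * b ∈ Gam := QuotientGroup.leftRel_apply.mp hab
        have h2 := mem_Gam.mp h1
        rw [map_mul, Equiv.Perm.mul_apply, map_inv, Equiv.Perm.inv_eq_iff_eq] at h2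
        exact h2.symm)) := by
    intro p q
    induction p using QuotientGroup.induction_on with | H a => ?_
    induction q using QuotientGroup.induction_on with | H b => ?_
    intro h
    have h' : perm32 a o = perm32 b o := h
    rw [QuotientGroup.eq, mem_Gam, map_mul, Equiv.Perm.mul_apply, map_inv,
      Equiv.Perm.inv_eq_iff_eq]
    exact h'.symm
  have := Finite.of_injective _ hinj
  exact Subgroup.finiteIndex_of_finite_quotient

/-- The determinant of a reflection. -/
theorem det_refl {e : V4} (he : lor e e = 1) : LinearMap.det (reflL e) = -1 := by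
  let f : Module.Dual ℝ V4 :=
    { toFun := fun x => -(2 * lor x e)
      map_add' := fun a b => by rw [lor_add_left]; ring
      map_smul' := fun a b => by rw [lor_smul_left]; simp only [smul_eq_mul, RingHom.id_apply]; ring }
  have h1 : reflL e = LinearMap.transvection f e := by
    apply LinearMap.ext
    intro y
    rw [reflL_apply, LinearMap.transvection.apply]
    change y - (2 * lor y e) • e = y + (-(2 * lor y e)) • e
    rw [neg_smul, sub_eq_add_neg]
  rw [h1, LinearMap.transvection.det]
  change 1 + -(2 * lor e e) = -1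
  rw [he]; norm_num

/-- Elements of `W` have determinant `(-1)^(number of letters)`. -/
theorem det_rho_simple (i : Fin 6) : LinearMap.det (rho (s i)).toLinearMap = -1 := by
  rw [rho_simple]; exact det_refl (L.he i)

/-- Sign of the translation part. -/
def sgn (r : Tr) : ℝ := (if r.1 then -1 else 1) * (if r.2.1 then -1 else 1) *
  (if r.2.2 then -1 else 1)

theorem det_rho (w : W) : LinearMap.det (rho w).toLinearMap = sgn (par w (false, false, false)) := by
  induction w using S.simple_induction_left with
  | one =>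
    have : (rho 1).toLinearMap = LinearMap.id := by rw [map_one]; rfl
    rw [this, LinearMap.det_id]; simp [sgn]
  | mul_simple_left w i ih =>
    have h1 : (rho (S.simple i * w)).toLinearMap = (rho (s i)).toLinearMap ∘ₗ (rho w).toLinearMap := by
      rw [map_mul]; rfl
    rw [h1, LinearMap.det_comp, ih, det_rho_simple, map_mul, Equiv.Perm.mul_apply, par_simple,
      flipP_apply]
    generalize par w (false, false, false) = r
    obtain ⟨a, b, c⟩ := r
    fin_cases i <;> cases a <;> cases b <;> cases c <;> simp [sgn, flip]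

/-- Elements of `Γ` preserve orientation. -/
theorem det_Gam {w : W} (hw : w ∈ Gam) : LinearMap.det (rho w).toLinearMap = 1 := by
  have h1 := mem_G.mp (Gam_le_G hw)
  rw [det_rho, h1]; simp [sgn]

end Lam

end Pool.Agent.EC
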