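import Pool.Agent.EC.Class
import Pool.Agent.EC.Gam

/-!
# The class `a` on `Γ = Lam.Gam`

`exists_class_Gam`: an element `X` of `H²(Γ; ℤ)` with `|X.eval φ| ≤ 2 g - 2` for all surfaces `φ`,
`X.eval S_x = 2` and `X.eval S_y = 1`.
-/

set_option autoImplicit false

namespace Pool.Agent.EC.Cls

open Pool.Agent.EC.Surf (wu wA1 wB1 wA2 wB2)

/-- `Γ` as the stabiliser of `0` in `G`. -/
noncomputable def gamHom : Lam.Gam →* stab0 Lam.sig where
  toFun w := ⟨⟨w.1, Lam.Gam_le_G w.2⟩, (Lam.mem_Gam_iff _).1 w.2⟩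
  map_one' := rfl
  map_mul' _ _ := rfl

/-- **The class `a`.** -/
theorem exists_class_Gam : ∃ X : ZExt Lam.Gam,
      (∀ g : ℕ, 1 ≤ g → ∀ φ : SurfGroup g →* Lam.Gam, |X.eval φ| ≤ 2 * (g : ℤ) - 2) ∧
      (∀ φ : SurfGroup 2 →* Lam.Gam,
        (φ (PresentedGroup.of (0, false)) : Lam.W) = wA1 Lam.y Lam.z →
        (φ (PresentedGroup.of (0, true)) : Lam.W) = wB1 Lam.y Lam.z →
        (φ (PresentedGroup.of (1, false)) : Lam.W) = wA2 Lam.y Lam.z →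
        (φ (PresentedGroup.of (1, true)) : Lam.W) = wB2 Lam.y Lam.z → X.eval φ = 2) ∧
      (∀ φ : SurfGroup 2 →* Lam.Gam,
        (φ (PresentedGroup.of (0, false)) : Lam.W) =
          (Lam.z ^ 2 * (Lam.z * Lam.x⁻¹ * Lam.z⁻¹ * Lam.x))⁻¹ →
        (φ (PresentedGroup.of (0, true)) : Lam.W) =
          Lam.z * (Lam.z ^ 2 * (Lam.z * Lam.x⁻¹ * Lam.z⁻¹ * Lam.x)) * Lam.z⁻¹ →
        (φ (PresentedGroup.of (1, false)) : Lam.W) = Lam.z ^ 4 →
        (φ (PresentedGroup.of (1, true)) : Lam.W) = Lam.x⁻¹ → X.eval φ = 1) := by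
  obtain ⟨X, h1, h2, h3⟩ := exists_class Lam.sig (Lam.gLift_x Lam.rel_p) (Lam.gLift_y Lam.rel_p)
    (Lam.gLift_z Lam.rel_p)
  refine ⟨X.pullback gamHom, ?_, ?_, ?_⟩
  · intro g hg φ
    rw [ZExt.eval_pullback]
    exact h1 g hg _
  · intro φ a b c d
    rw [ZExt.eval_pullback]
    exact h2 _ (Subtype.ext a) (Subtype.ext b) (Subtype.ext c) (Subtype.ext d)
  · intro φ a b c d
    rw [ZExt.eval_pullback]
    exact h3 _ (Subtype.ext a) (Subtype.ext b) (Subtype.ext c) (Subtype.ext d)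

end Pool.Agent.EC.Cls
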