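import Pool.Agent.EC.Surf
import Pool.Agent.EC.Lift

/-! The range of `theta` is the part of the manifold group lying in the quadrilateral group. -/

namespace Pool.Agent.EC.Surf

theorem j4_y4 : j4 y4 = Lam.y := by
  rw [y4, map_mul, j4_simple, j4_simple]; rfl

theorem j4_z4 : j4 z4 = Lam.z := by
  rw [z4, map_mul, j4_simple, j4_simple]; rfl

/-- a permutation of `Fin 4` -/
def Y0 : Equiv.Perm (Fin 4) := ⟨![1, 0, 3, 2], ![1, 0, 3, 2], by decide, by decide⟩
/-- a permutation of `Fin 4` -/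
def Z0 : Equiv.Perm (Fin 4) := ⟨![1, 3, 0, 2], ![2, 0, 3, 1], by decide, by decide⟩

theorem hom_ext_surf {H : Type*} [Group H] {f g : SurfGroup 2 →* H} (h1 : f gA1 = g gA1)
    (h2 : f gB1 = g gB1) (h3 : f gA2 = g gA2) (h4 : f gB2 = g gB2) : f = g := by
  apply PresentedGroup.ext
  rintro ⟨i, b⟩
  fin_cases i <;> cases b
  · exact h1
  · exact h2
  · exact h3
  · exact h4

theorem j4_y4_mem : j4 y4 ∈ Lam.G := by rw [j4_y4]; exact Lam.y_mem
theorem j4_z4_mem : j4 z4 ∈ Lam.G := by rw [j4_z4]; exact Lam.z_mem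

theorem par_y4 : Lam.par (j4 y4) = 1 := j4_y4_mem
theorem par_z4 : Lam.par (j4 z4) = 1 := j4_z4_mem

theorem par_theta (g : SurfGroup 2) : Lam.par (j4 (theta g)) = 1 := by
  have : (Lam.par.comp (j4.comp theta)) = 1 := by
    apply hom_ext_surf
    · simp [theta_A1, par_y4, par_z4, wA1, wu]
    · simp [theta_B1, par_y4, par_z4, wB1, wu]
    · simp [theta_A2, par_y4, wA2]
    · simp [theta_B2, par_y4, par_z4, wB2]
  exact DFunLike.congr_fun this g

theorem j4_theta_mem (g : SurfGroup 2) : j4 (theta g) ∈ Lam.G := par_theta g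

/-- `theta` as a homomorphism into `G`. -/
noncomputable def thetaG : SurfGroup 2 →* Lam.G := (j4.comp theta).codRestrict Lam.G j4_theta_mem

theorem par_tr (p : Fin 4) : Lam.par (j4 (tr p)) = 1 := by
  fin_cases p
  · simp [tr]
  · exact par_y4
  · change Lam.par (j4 z4⁻¹) = 1
    rw [map_inv, map_inv, par_z4, inv_one]
  · change Lam.par (j4 (z4 * y4)) = 1
    rw [map_mul, map_mul, par_z4, par_y4, one_mul]

theorem par_uu (i j : Bool) : Lam.par (j4 (uu i j)) (false, false, false) = (false, i, j) := by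
  have h1 : Lam.par (j4 (s4 0)) = Lam.flipP 1 := by rw [j4_simple]; exact Lam.par_simple _
  have h2 : Lam.par (j4 (s4 1)) = Lam.flipP 2 := by rw [j4_simple]; exact Lam.par_simple _
  cases i <;> cases j
  · simp [uu]
  · simp only [uu, Bool.false_eq_true, if_false, if_true, one_mul, h2]; decide
  · simp only [uu, Bool.false_eq_true, if_false, if_true, mul_one, h1]; decide
  · simp only [uu, if_true, map_mul, h1, h2]; decide

/-- `y` in `G` -/
noncomputable def yG : Lam.G := ⟨j4 y4, j4_y4_mem⟩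
/-- `z` in `G` -/
noncomputable def zG : Lam.G := ⟨j4 z4, j4_z4_mem⟩

theorem yG_eq : yG = ⟨Lam.y, Lam.y_mem⟩ := Subtype.ext j4_y4
theorem zG_eq : zG = ⟨Lam.z, Lam.z_mem⟩ := Subtype.ext j4_z4

theorem thetaG_A1 : thetaG gA1 = wA1 yG zG := by
  apply Subtype.ext
  change j4 (theta gA1) = Lam.G.subtype (wA1 yG zG)
  rw [theta_A1, map_wA1, map_wA1]; rfl
theorem thetaG_B1 : thetaG gB1 = wB1 yG zG := by
  apply Subtype.ext
  change j4 (theta gB1) = Lam.G.subtype (wB1 yG zG)
  rw [theta_B1, map_wB1, map_wB1]; rfl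
theorem thetaG_A2 : thetaG gA2 = wA2 yG zG := by
  apply Subtype.ext
  change j4 (theta gA2) = Lam.G.subtype (wA2 yG zG)
  rw [theta_A2, map_wA2, map_wA2]; rfl
theorem thetaG_B2 : thetaG gB2 = wB2 yG zG := by
  apply Subtype.ext
  change j4 (theta gB2) = Lam.G.subtype (wB2 yG zG)
  rw [theta_B2, map_wB2, map_wB2]; rfl

/-- the transversal in `G` -/
noncomputable def trG (p : Fin 4) : Lam.G := ⟨j4 (tr p), par_tr p⟩

section
variable (ρ : Lam.G →* Equiv.Perm (Fin 4)) (hy : ρ ⟨Lam.y, Lam.y_mem⟩ = Y0)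
  (hz : ρ ⟨Lam.z, Lam.z_mem⟩ = Z0)
include hy hz

theorem rho_theta (g : SurfGroup 2) : ρ (thetaG g) 0 = 0 := by
  have hy' : ρ yG = Y0 := by rw [yG_eq, hy]
  have hz' : ρ zG = Z0 := by rw [zG_eq, hz]
  let K : Subgroup (SurfGroup 2) :=
    { carrier := {g | ρ (thetaG g) 0 = 0}
      one_mem' := by simp
      mul_mem' := by
        intro a b ha hb
        simp only [Set.mem_ofPred_eq] at ha hb ⊢
        rw [map_mul, map_mul, Equiv.Perm.mul_apply, hb, ha]
      inv_mem' := by
        intro a ha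
        simp only [Set.mem_ofPred_eq] at ha ⊢
        rw [map_inv, map_inv, Equiv.Perm.inv_eq_iff_eq, ha] }
  have hcl : Subgroup.closure (Set.range (PresentedGroup.of : _ → SurfGroup 2)) ≤ K := by
    rw [Subgroup.closure_le]
    rintro _ ⟨⟨i, b⟩, rfl⟩
    fin_cases i <;> cases b
    · change ρ (thetaG gA1) 0 = 0
      rw [thetaG_A1, map_wA1, hy', hz']; decide
    · change ρ (thetaG gB1) 0 = 0
      rw [thetaG_B1, map_wB1, hy', hz']; decide
    · change ρ (thetaG gA2) 0 = 0
      rw [thetaG_A2, map_wA2, hy', hz']; decide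
    · change ρ (thetaG gB2) 0 = 0
      rw [thetaG_B2, map_wB2, hy', hz']; decide
  have : g ∈ K := by
    apply hcl
    rw [PresentedGroup.closure_range_of]
    trivial
  exact this

theorem rho_tr (p : Fin 4) : ρ (trG p) 0 = p := by
  have hy' : ρ yG = Y0 := by rw [yG_eq, hy]
  have hz' : ρ zG = Z0 := by rw [zG_eq, hz]
  fin_cases p
  · have : trG 0 = 1 := Subtype.ext (map_one j4)
    change ρ (trG 0) 0 = 0
    rw [this, map_one]; rfl
  · have : trG 1 = yG := rfl
    change ρ (trG 1) 0 = 1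
    rw [this, hy']; decide
  · have : trG 2 = zG⁻¹ := Subtype.ext (map_inv j4 z4)
    change ρ (trG 2) 0 = 2
    rw [this, map_inv, hz']; decide
  · have : trG 3 = zG * yG := Subtype.ext (map_mul j4 z4 y4)
    change ρ (trG 3) 0 = 3
    rw [this, map_mul, hy', hz']; decide

/-- The range of `theta` is the part of the stabiliser lying in `W4`. -/
theorem mem_range_theta (w : W4) :
    w ∈ theta.range ↔ ∃ hw : j4 w ∈ Lam.G, ρ ⟨j4 w, hw⟩ 0 = 0 := by
  constructor
  · rintro ⟨g, rfl⟩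
    exact ⟨j4_theta_mem g, rho_theta ρ hy hz g⟩
  · rintro ⟨hw, h0⟩
    obtain ⟨⟨⟨h, p⟩, i, j⟩, e⟩ : ∃ t, actW w ((1, 0), false, false) = t := ⟨_, rfl⟩
    have hE : w = uu i j * (tr p * theta h) := by
      have := eq_EV w
      rw [e] at this
      exact this
    have h1 : Lam.par (j4 w) = Lam.par (j4 (uu i j)) := by
      rw [hE, map_mul, map_mul, map_mul, map_mul, par_tr, par_theta, mul_one, mul_one]
    have h2 := par_uu i j
    rw [← h1, show Lam.par (j4 w) = 1 from hw] at h2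
    obtain ⟨rfl, rfl⟩ : i = false ∧ j = false := by
      simpa [Prod.ext_iff, eq_comm] using h2
    have hE2 : w = tr p * theta h := by rw [hE]; simp [uu]
    have h3 : (⟨j4 w, hw⟩ : Lam.G) = trG p * thetaG h :=
      Subtype.ext (by
        change j4 w = j4 (tr p) * j4 (theta h)
        rw [hE2, map_mul])
    rw [h3, map_mul, Equiv.Perm.mul_apply, rho_theta ρ hy hz, rho_tr ρ hy hz] at h0
    refine ⟨h, ?_⟩
    rw [hE2, h0]; simp [tr]

end

end Pool.Agent.EC.Surf
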