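import Pool.Agent.EC.Words
import Pool.Agent.EC.Gam
import Pool.Agent.EC.NotReal
import Pool.Agent.EC.SurfRange

/-! The two genus two surface subgroups `S_x`, `S_y` of the manifold group `Gam`. -/

namespace Pool.Agent.EC.XY

open Lam Words
open Surf hiding uu
open scoped commutatorElement

section map
variable {G H : Type*} [Group G] [Group H] (f : G →* H) (x y z : G)

theorem map_uu : f (Words.uu y z) = Words.uu (f y) (f z) := by simp [Words.uu]
theorem map_vv : f (vv z x) = vv (f z) (f x) := by simp [vv]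
theorem map_al : f (al y) = al (f y) := by simp [al]
theorem map_be : f (be y z) = be (f y) (f z) := by simp [be, map_uu]
theorem map_h1 : f (h1 y z) = h1 (f y) (f z) := by simp [h1]
theorem map_h2 : f (h2 y z) = h2 (f y) (f z) := by simp [h2, map_uu]
theorem map_kk : f (kk x y z) = kk (f x) (f y) (f z) := by simp [kk]
theorem map_z4 : f (Words.z4 z) = Words.z4 (f z) := by simp [Words.z4]
theorem map_AA : f (AA x z) = AA (f x) (f z) := by simp [AA, map_vv]
theorem map_BB : f (BB x z) = BB (f x) (f z) := by simp [BB, map_AA]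

end map

/-- `x` in `G` -/
noncomputable def gx : Lam.G := ⟨x, x_mem⟩
/-- `y` in `G` -/
noncomputable def gy : Lam.G := ⟨y, y_mem⟩
/-- `z` in `G` -/
noncomputable def gz : Lam.G := ⟨z, z_mem⟩

theorem sig_gx : sig gx = pX := gLift_x _
theorem sig_gy : sig gy = pY := gLift_y _
theorem sig_gz : sig gz = pZ := gLift_z _

/-- an element of the manifold group -/
noncomputable def mk (w : Lam.G) (h : sig w 0 = 0) : Gam := ⟨w.1, (mem_Gam_iff w).2 h⟩

theorem relG : GRel gx gy gz where
  hZ := Subtype.ext rel_W.hZ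
  hX := Subtype.ext rel_W.hX
  hY := Subtype.ext rel_W.hY
  cX := Subtype.ext rel_W.cX
  cY := Subtype.ext rel_W.cY
  cZ := Subtype.ext rel_W.cZ

noncomputable def gal : Gam := mk (al gy) (by rw [map_al, sig_gy]; decide)
noncomputable def gbe : Gam := mk (be gy gz) (by rw [map_be, sig_gy, sig_gz]; decide)
noncomputable def gh1 : Gam := mk (h1 gy gz) (by rw [map_h1, sig_gy, sig_gz]; decide)
noncomputable def gh2 : Gam := mk (h2 gy gz) (by rw [map_h2, sig_gy, sig_gz]; decide)
noncomputable def gkk : Gam := mk (kk gx gy gz) (by rw [map_kk, sig_gx, sig_gy, sig_gz]; decide)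
noncomputable def gxx : Gam := mk gx (by rw [sig_gx]; decide)
noncomputable def gz4 : Gam := mk (Words.z4 gz) (by rw [map_z4, sig_gz]; decide)
noncomputable def gA : Gam := mk (AA gx gz) (by rw [map_AA, sig_gx, sig_gz]; decide)
noncomputable def gB : Gam := mk (BB gx gz) (by rw [map_BB, sig_gx, sig_gz]; decide)

/-- The inclusion of the manifold group. -/
noncomputable def inc : Gam →* Lam.G := Subgroup.inclusion Gam_le_G

theorem inc_injective : Function.Injective inc := Subgroup.inclusion_injective Gam_le_G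

theorem inc_mk (w : Lam.G) (h : sig w 0 = 0) : inc (mk w h) = w := rfl

theorem rel_Sx : ⁅gbe, gh2⁆ * ⁅gal, gh1⁆ = 1 := by
  apply inc_injective
  simp only [map_mul, map_commutatorElement, map_one]
  exact R1' relG

theorem rel_Sy : ⁅gA⁻¹, gB⁆ * ⁅gz4, gxx⁻¹⁆ = 1 := by
  apply inc_injective
  simp only [map_mul, map_commutatorElement, map_one, map_inv]
  exact Sy' relG

/-- The surface `S_x`. -/
noncomputable def Sx : SurfGroup 2 →* Gam := surfLift gbe gh2 gal gh1 rel_Sx

/-- The surface `S_y`. -/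
noncomputable def Sy : SurfGroup 2 →* Gam := surfLift gA⁻¹ gB gz4 gxx⁻¹ rel_Sy

theorem Sx0 : Sx (PresentedGroup.of (0, false)) = gbe := surfLift_A1 _ _ _ _ _
theorem Sx1 : Sx (PresentedGroup.of (0, true)) = gh2 := surfLift_B1 _ _ _ _ _
theorem Sx2 : Sx (PresentedGroup.of (1, false)) = gal := surfLift_A2 _ _ _ _ _
theorem Sx3 : Sx (PresentedGroup.of (1, true)) = gh1 := surfLift_B2 _ _ _ _ _
theorem Sy0 : Sy (PresentedGroup.of (0, false)) = gA⁻¹ := surfLift_A1 _ _ _ _ _
theorem Sy1 : Sy (PresentedGroup.of (0, true)) = gB := surfLift_B1 _ _ _ _ _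
theorem Sy2 : Sy (PresentedGroup.of (1, false)) = gz4 := surfLift_A2 _ _ _ _ _
theorem Sy3 : Sy (PresentedGroup.of (1, true)) = gxx⁻¹ := surfLift_B2 _ _ _ _ _

theorem hR2 : gkk * gal * gkk⁻¹ = gh2 * gbe * gh2⁻¹ := by
  apply inc_injective
  simp only [map_mul, map_inv]
  exact R2 relG

theorem hz4 : gz4⁻¹ = gh1 * gal⁻¹ * gh2 * gh2 * gbe⁻¹ * gh1 := by
  apply inc_injective
  simp only [map_mul, map_inv]
  exact Rz4 relG

theorem hx : gxx⁻¹ * gz4⁻¹ * gxx =
    (gh1 * gkk⁻¹ * gh2) * gbe⁻¹ * (gh1 * gkk⁻¹ * gh2) * gkk * gal⁻¹ * gkk := by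
  apply inc_injective
  simp only [map_mul, map_inv]
  exact Rx relG

theorem hA : gA⁻¹ = gkk⁻¹ * (gh2 * gh2 * gbe⁻¹ * gh1) := by
  apply inc_injective
  simp only [map_mul, map_inv]
  exact RA relG

theorem hB : gB = (gh2 * gh2 * gbe⁻¹ * gh1)⁻¹ * gkk⁻¹ * gh2 * gh1 := by
  apply inc_injective
  simp only [map_mul, map_inv]
  exact RB relG

/-- **Non-realisability.** A class of the manifold group with the values `2` on `S_x` and `1` on
`S_y` is not the real Euler class of an action on the circle. -/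
theorem not_realEq_Gam (a : ZExt Gam) (h2 : a.eval Sx = 2) (h1 : a.eval Sy = 1)
    (ρ : Gam →* HomeoPlus) : ¬ ZExt.RealEq (ZExt.circle.pullback ρ) a :=
  not_realEq Sx Sy hR2 hz4 hx hA hB Sx0 Sx1 Sx2 Sx3 Sy0 Sy1 Sy2 Sy3 a h2 h1 ρ

/-- Compatibility with `theta`. -/
theorem Sx_theta : Gam.subtype.comp Sx = j4.comp theta := by
  apply hom_ext_surf
  · change (Sx (PresentedGroup.of (0, false)) : W) = j4 (theta gA1)
    rw [Sx0, theta_A1, map_wA1, j4_y4, j4_z4]
    rfl
  · change (Sx (PresentedGroup.of (0, true)) : W) = j4 (theta gB1)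
    rw [Sx1, theta_B1, map_wB1, j4_y4, j4_z4]
    rfl
  · change (Sx (PresentedGroup.of (1, false)) : W) = j4 (theta gA2)
    rw [Sx2, theta_A2, map_wA2, j4_y4]
    rfl
  · change (Sx (PresentedGroup.of (1, true)) : W) = j4 (theta gB2)
    rw [Sx3, theta_B2, map_wB2, j4_y4, j4_z4]
    rfl

/-- The range of `theta` is the part of the manifold group in the quadrilateral group. -/
theorem theta_range (w : W4) : w ∈ theta.range ↔ j4 w ∈ Gam := by
  rw [mem_range_theta sig (sig_gy.trans (by decide)) (sig_gz.trans (by decide))]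
  constructor
  · rintro ⟨hw, h⟩
    exact (mem_Gam_iff ⟨j4 w, hw⟩).2 h
  · intro h
    exact ⟨Gam_le_G h, (mem_Gam_iff ⟨j4 w, Gam_le_G h⟩).1 h⟩

end Pool.Agent.EC.XY
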