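import Pool.Agent.EC.ClassGam
import Pool.Agent.EC.SurfXY

/-!
# The class `a` and its values on `S_x` and `S_y`
-/

set_option autoImplicit false

namespace Pool.Agent.EC.Cls

open Pool.Agent.EC.Surf (wu wA1 wB1 wA2 wB2)

/-- **The class `a`** on `Γ = Lam.Gam`: dual norm at most one, `a(S_x) = 2`, `a(S_y) = 1`. -/
theorem exists_class_XY : ∃ a : ZExt Lam.Gam,
    (∀ g : ℕ, 1 ≤ g → ∀ φ : SurfGroup g →* Lam.Gam, |a.eval φ| ≤ 2 * (g : ℤ) - 2) ∧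
      a.eval XY.Sx = 2 ∧ a.eval XY.Sy = 1 := by
  obtain ⟨a, h1, h2, h3⟩ := exists_class_Gam
  refine ⟨a, h1, h2 _ ?_ ?_ ?_ ?_, h3 _ ?_ ?_ ?_ ?_⟩
  · rw [XY.Sx0]; rfl
  · rw [XY.Sx1]; rfl
  · rw [XY.Sx2]; rfl
  · rw [XY.Sx3]; rfl
  · rw [XY.Sy0]
    change (Lam.z * Lam.z * (Lam.z * Lam.x⁻¹ * Lam.z⁻¹ * Lam.x))⁻¹ = _
    rw [pow_two]
  · rw [XY.Sy1]
    change Lam.z * (Lam.z * Lam.z * (Lam.z * Lam.x⁻¹ * Lam.z⁻¹ * Lam.x)) * Lam.z⁻¹ = _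
    rw [pow_two]
  · rw [XY.Sy2]
    change Lam.z * Lam.z * Lam.z * Lam.z = _
    rw [pow_succ, pow_succ, pow_two]
  · rw [XY.Sy3]; rfl

end Pool.Agent.EC.Cls
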