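import Pool.Agent.EC.EmbMap

/-! The bicollar of the embedded plane: a one parameter family of disjoint equivariant embeddings
of the hyperbolic plane into hyperbolic space. -/

namespace Pool.Agent.EC

open Real

namespace Quad

/-- The map to the Lambert cube before normalisation; `s > 0` is the parameter of the collar. -/
noncomputable def FC (s : ℝ) (x : V4) : V4 :=
  (l 2 x * l 3 x) • (Lam.vert 0 + s • Lam.vert 1) +
  (l 2 x * l 1 x) • (Lam.vert 4 + s • Lam.vert 5) +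
  (l 0 x * l 3 x) • (Lam.vert 2 + s • Lam.vert 3) +
  (l 0 x * l 1 x) • (Lam.vert 6 + (2 * (Lam.φ - 1) * s) • Lam.vert 7)

theorem FC_lor (s : ℝ) (x : V4) (k : Fin 6) : lor (FC s x) (Lam.e k) =
    l 2 x * l 3 x * (Lam.table 0 k + s * Lam.table 1 k) +
    l 2 x * l 1 x * (Lam.table 4 k + s * Lam.table 5 k) +
    l 0 x * l 3 x * (Lam.table 2 k + s * Lam.table 3 k) +
    l 0 x * l 1 x * (Lam.table 6 k + 2 * (Lam.φ - 1) * s * Lam.table 7 k) := by
  unfold FC
  simp only [lor_add_left, lor_smul_left, Lam.vert_lor]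

theorem FC_lor_0 (s : ℝ) (x : V4) : lor (FC s x) (Lam.e 0) =
    -(s * (l 2 x * l 3 x + l 2 x * l 1 x + (2 - Lam.φ) * (l 0 x * l 3 x) +
      2 * (2 - Lam.φ) * (l 0 x * l 1 x))) := by
  have pp := Lam.pp
  rw [FC_lor]
  simp only [Lam.table, Matrix.of_apply, Matrix.cons_val', Matrix.cons_val_fin_one,
    Matrix.cons_val_zero, Matrix.cons_val_one, Matrix.cons_val]
  linear_combination (-(l 0 x * l 1 x) * 2 * s) * pp

theorem FC_lor_1 (s : ℝ) (x : V4) : lor (FC s x) (Lam.e 1) =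
    -(l 0 x * ((1 + s) * l 3 x + (2 - Lam.φ) * (1 + 2 * s) * l 1 x)) := by
  have pp := Lam.pp
  rw [FC_lor]
  simp only [Lam.table, Matrix.of_apply, Matrix.cons_val', Matrix.cons_val_fin_one,
    Matrix.cons_val_zero, Matrix.cons_val_one, Matrix.cons_val]
  linear_combination (-(l 0 x * l 1 x) * 2 * s) * pp

theorem FC_lor_2 (s : ℝ) (x : V4) : lor (FC s x) (Lam.e 2) =
    -(l 1 x * ((1 + (2 - Lam.φ) * s) * l 2 x + (1 + 2 * (2 - Lam.φ) * s) * l 0 x)) := by
  have pp := Lam.pp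
  rw [FC_lor]
  simp only [Lam.table, Matrix.of_apply, Matrix.cons_val', Matrix.cons_val_fin_one,
    Matrix.cons_val_zero, Matrix.cons_val_one, Matrix.cons_val]
  linear_combination (-(l 0 x * l 1 x) * 2 * s) * pp

theorem FC_lor_3 (s : ℝ) (x : V4) : lor (FC s x) (Lam.e 3) =
    -(Lam.h * Lam.φ * (l 2 x * l 3 x + l 2 x * l 1 x + (2 - Lam.φ) * (l 0 x * l 3 x) +
      2 * (2 - Lam.φ) * (l 0 x * l 1 x))) := by
  have pp := Lam.pp
  rw [FC_lor]
  simp only [Lam.table, Matrix.of_apply, Matrix.cons_val', Matrix.cons_val_fin_one,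
    Matrix.cons_val_zero, Matrix.cons_val_one, Matrix.cons_val]
  linear_combination (-(Lam.h * (l 0 x * l 3 x)) - 2 * Lam.h * (l 0 x * l 1 x)) * pp

theorem FC_lor_4 (s : ℝ) (x : V4) : lor (FC s x) (Lam.e 4) =
    -(l 2 x * (Lam.h * Lam.φ * ((1 + s) * l 3 x + (2 - Lam.φ) * (1 + 2 * s) * l 1 x))) := by
  have pp := Lam.pp
  rw [FC_lor]
  simp only [Lam.table, Matrix.of_apply, Matrix.cons_val', Matrix.cons_val_fin_one,
    Matrix.cons_val_zero, Matrix.cons_val_one, Matrix.cons_val]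
  linear_combination (-(Lam.h * (l 2 x * l 1 x)) * (1 + 2 * s)) * pp

theorem FC_lor_5 (s : ℝ) (x : V4) : lor (FC s x) (Lam.e 5) =
    -(l 3 x * (Lam.h * Lam.φ *
      ((1 + (2 - Lam.φ) * s) * l 2 x + (1 + 2 * (2 - Lam.φ) * s) * l 0 x))) := by
  have pp := Lam.pp
  rw [FC_lor]
  simp only [Lam.table, Matrix.of_apply, Matrix.cons_val', Matrix.cons_val_fin_one,
    Matrix.cons_val_zero, Matrix.cons_val_one, Matrix.cons_val]
  linear_combination (-(Lam.h * (l 2 x * l 3 x)) * s - 2 * Lam.h * (l 0 x * l 3 x) * s) * pp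

/-- The common positive factors. -/
theorem Dy_pos {s : ℝ} (hs : 0 < s) {x : V4} (hx : x ∈ Q4.P) :
    0 < (1 + s) * l 3 x + (2 - Lam.φ) * (1 + 2 * s) * l 1 x := by
  have n1 := l_nonneg hx 1
  have n3 := l_nonneg hx 3
  have s13 := l13_pos hx
  have p2 := Lam.φ_lt
  exact comb_pos (by linarith) (mul_pos (by linarith) (by linarith)) n3 n1 (by linarith)

theorem Dz_pos {s : ℝ} (hs : 0 < s) {x : V4} (hx : x ∈ Q4.P) :
    0 < (1 + (2 - Lam.φ) * s) * l 2 x + (1 + 2 * (2 - Lam.φ) * s) * l 0 x := by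
  have n0 := l_nonneg hx 0
  have n2 := l_nonneg hx 2
  have s02 := l02_pos hx
  have p2 := Lam.φ_lt
  have hc : 0 < (2 - Lam.φ) * s := mul_pos (by linarith) hs
  exact comb_pos (by linarith) (by nlinarith) n2 n0 (by linarith)

theorem Dx_pos {x : V4} (hx : x ∈ Q4.P) :
    0 < l 2 x * l 3 x + l 2 x * l 1 x + (2 - Lam.φ) * (l 0 x * l 3 x) +
      2 * (2 - Lam.φ) * (l 0 x * l 1 x) := by
  have p2 := Lam.φ_lt
  have := wt_pos hx (a := 1) (b := 1) (c := 2 - Lam.φ) (d := 2 * (2 - Lam.φ)) one_pos one_pos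
    (by linarith) (by linarith)
  simpa using this

theorem hφ_pos : 0 < Lam.h * Lam.φ := mul_pos Lam.h_pos (by linarith [Lam.φ_gt])

theorem FutT.add_smul_vert {s : ℝ} (hs : 0 < s) (a b : Fin 8) :
    FutT (Lam.vert a + s • Lam.vert b) :=
  (Lam.cert.hv a).add ((Lam.cert.hv b).smul hs)

theorem FC_fut {s : ℝ} (hs : 0 < s) {x : V4} (hx : x ∈ Q4.P) : FutT (FC s x) := by
  have n0 := l_nonneg hx 0
  have n1 := l_nonneg hx 1
  have n2 := l_nonneg hx 2
  have n3 := l_nonneg hx 3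
  have p1 := Lam.φ_gt
  have h7 : 0 < 2 * (Lam.φ - 1) * s := mul_pos (by linarith) hs
  have h1 : FutZ (FC s x) := by
    unfold FC
    exact (((FutZ.smul (FutT.add_smul_vert hs 0 1) (mul_nonneg n2 n3)).add
      (FutZ.smul (FutT.add_smul_vert hs 4 5) (mul_nonneg n2 n1))).add
      (FutZ.smul (FutT.add_smul_vert hs 2 3) (mul_nonneg n0 n3))).add
      (FutZ.smul (FutT.add_smul_vert h7 6 7) (mul_nonneg n0 n1))
  rcases h1 with h1 | h1
  · exfalso
    have h2 := FC_lor_3 s x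
    rw [h1] at h2
    have h3 : lor (0 : V4) (Lam.e 3) = 0 := by simp [lor]
    rw [h3] at h2
    have h4 := mul_pos hφ_pos (Dx_pos hx)
    linarith
  · exact h1

/-- The image lies in the Lambert cube and meets exactly the mirrors of the sides. -/
theorem FC_sign {s : ℝ} (hs : 0 < s) {x : V4} (hx : x ∈ Q4.P) (k : Fin 6) :
    lor (FC s x) (Lam.e k) ≤ 0 ∧
      (lor (FC s x) (Lam.e k) = 0 → ∃ i, iota4 i = k ∧ lor x (e i) = 0) := by
  have key : ∀ (i : Fin 4) (k : Fin 6) (A : ℝ), iota4 i = k → 0 < A →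
      lor (FC s x) (Lam.e k) = -(l i x * A) →
      lor (FC s x) (Lam.e k) ≤ 0 ∧
        (lor (FC s x) (Lam.e k) = 0 → ∃ i, iota4 i = k ∧ lor x (e i) = 0) := by
    intro i k A hik hA h
    rw [h]
    refine ⟨by have := mul_nonneg (l_nonneg hx i) hA.le; linarith, fun h0 => ⟨i, hik, ?_⟩⟩
    have h1 : l i x * A = 0 := by linarith
    have h2 : l i x = 0 := (mul_eq_zero.mp h1).resolve_right hA.ne'
    unfold l at h2; linarith
  have key' : ∀ (k : Fin 6) (A : ℝ), 0 < A → lor (FC s x) (Lam.e k) = -A →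
      lor (FC s x) (Lam.e k) ≤ 0 ∧
        (lor (FC s x) (Lam.e k) = 0 → ∃ i, iota4 i = k ∧ lor x (e i) = 0) := by
    intro k A hA h
    rw [h]
    exact ⟨by linarith, fun h0 => by linarith⟩
  fin_cases k
  · exact key' 0 _ (mul_pos hs (Dx_pos hx)) (FC_lor_0 s x)
  · exact key 0 1 _ rfl (Dy_pos hs hx) (FC_lor_1 s x)
  · exact key 1 2 _ rfl (Dz_pos hs hx) (FC_lor_2 s x)
  · exact key' 3 _ (mul_pos hφ_pos (Dx_pos hx)) (FC_lor_3 s x)
  · exact key 2 4 _ rfl (mul_pos hφ_pos (Dy_pos hs hx)) (FC_lor_4 s x)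
  · exact key 3 5 _ rfl (mul_pos hφ_pos (Dz_pos hs hx)) (FC_lor_5 s x)

/-- The sides are mapped to the mirrors. -/
theorem FC_side (s : ℝ) {x : V4} (i : Fin 4) (h : lor x (e i) = 0) :
    lor (FC s x) (Lam.e (iota4 i)) = 0 := by
  have h0 : l i x = 0 := by unfold l; rw [h, neg_zero]
  fin_cases i
  · change lor (FC s x) (Lam.e 1) = 0
    rw [FC_lor_1, show l 0 x = 0 from h0, zero_mul, neg_zero]
  · change lor (FC s x) (Lam.e 2) = 0
    rw [FC_lor_2, show l 1 x = 0 from h0, zero_mul, neg_zero]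
  · change lor (FC s x) (Lam.e 4) = 0
    rw [FC_lor_4, show l 2 x = 0 from h0, zero_mul, neg_zero]
  · change lor (FC s x) (Lam.e 5) = 0
    rw [FC_lor_5, show l 3 x = 0 from h0, zero_mul, neg_zero]

/-- The maps of the quadrilateral into the Lambert cube. -/
noncomputable def fC (s : ℝ) (x : V4) : V4 := nrm (FC s x)

theorem fC_mem {s : ℝ} (hs : 0 < s) {x : V4} (hx : x ∈ Q4.P) : fC s x ∈ Lam.L.P := by
  refine ⟨nrm_mem (FC_fut hs hx), fun k => ?_⟩
  change lor (nrm (FC s x)) (Lam.e k) ≤ 0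
  rw [lor_nrm]
  exact mul_nonpos_of_nonneg_of_nonpos (nrm_pos (FC_fut hs hx)).le (FC_sign hs hx k).1

theorem fC_zero {s : ℝ} (hs : 0 < s) {x : V4} (hx : x ∈ Q4.P) {k : Fin 6}
    (h : lor (fC s x) (Lam.e k) = 0) : ∃ i, iota4 i = k ∧ lor x (e i) = 0 := by
  have h1 : lor (nrm (FC s x)) (Lam.e k) = 0 := h
  rw [lor_nrm] at h1
  exact (FC_sign hs hx k).2 ((mul_eq_zero.mp h1).resolve_left (nrm_pos (FC_fut hs hx)).ne')

theorem fC_side (s : ℝ) {x : V4} (i : Fin 4) (h : lor x (e i) = 0) :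
    lor (fC s x) (Lam.e (iota4 i)) = 0 := by
  change lor (nrm (FC s x)) (Lam.e (iota4 i)) = 0
  rw [lor_nrm, FC_side s i h, mul_zero]

/-- A point of the quadrilateral is determined by the ratios of the opposite distances. -/
theorem eq_of_ratio {x y : V4} (hx : x ∈ Q) (hy : y ∈ Q) (b1 : l 3 x * l 1 y = l 3 y * l 1 x)
    (b2 : l 2 x * l 0 y = l 2 y * l 0 x) : x = y := by
  simp only [l, lor_e0, lor_e1, lor_e2, lor_e3] at b1 b2
  have c1 : x 0 * y 2 = y 0 * x 2 := by linarith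
  have hx0 : 0 < x 0 := hx.1.1.2
  have hy0 : 0 < y 0 := hy.1.1.2
  have c2 : x 0 * y 1 = y 0 * x 1 := by
    have c3 : (h * x 2 + x 0) * y 1 = (h * y 2 + y 0) * x 1 := by linarith
    have hp := h_pos
    have h2 := h_sq
    have c4 : (h * x 2 + x 0) * (x 0 * y 1 - y 0 * x 1) = 0 := by
      linear_combination x 0 * c3 + h * x 1 * c1
    have hpos : 0 < h * x 2 + x 0 := by
      have h6 := (hx.1.2 3 : lor x (Q4.e 3) ≤ 0)
      rw [show Q4.e 3 = e 3 from rfl, lor_e3] at h6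
      have : 0 ≤ 2 * (h * x 2) + x 0 := by linarith
      linarith
    have := (mul_eq_zero.mp c4).resolve_left hpos.ne'
    linarith
  have hx3 := hx.2
  have hy3 := hy.2
  have nx := hx.1.1.1
  have ny := hy.1.1.1
  unfold lor at nx ny
  rw [hx3] at nx
  rw [hy3] at ny
  have c5 : x 0 ^ 2 = y 0 ^ 2 := by
    have h7 : (x 0 * y 1) ^ 2 = (y 0 * x 1) ^ 2 := by rw [c2]
    have h8 : (x 0 * y 2) ^ 2 = (y 0 * x 2) ^ 2 := by rw [c1]
    have n1 : x 1 ^ 2 + x 2 ^ 2 = x 0 ^ 2 - 1 := by linarith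
    have n2 : y 1 ^ 2 + y 2 ^ 2 = y 0 ^ 2 - 1 := by linarith
    have h9 : x 0 ^ 2 * (y 0 ^ 2 - 1) = y 0 ^ 2 * (x 0 ^ 2 - 1) := by
      rw [← n1, ← n2]; linear_combination h7 + h8
    linarith
  have c6 : x 0 = y 0 := by
    rcases pow_eq_pow_iff_cases.mp c5 with h | h | ⟨h, -⟩
    · exact absurd h (by norm_num)
    · exact h
    · linarith
  have c7 : x 1 = y 1 := by
    rw [c6] at c2; exact (mul_left_cancel₀ hy0.ne' c2).symm
  have c8 : x 2 = y 2 := by
    rw [c6] at c1; exact (mul_left_cancel₀ hy0.ne' c1).symm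
  ext k
  fin_cases k
  · exact c6
  · exact c7
  · exact c8
  · change x 3 = y 3; rw [hx3, hy3]

theorem ratio {κ κ' A A' D D' a b a' b' : ℝ} (hκ : 0 < κ) (hκ' : 0 < κ') (hA : 0 < A)
    (hD : 0 < D) (hD' : 0 < D') (h1 : κ * (a * D) = κ' * (a' * D'))
    (h2 : κ * (b * (A * D)) = κ' * (b' * (A' * D'))) (hAA : A = A') : b * a' = b' * a := by
  subst hAA
  have h3 : (κ * D) * (κ' * D') * A * (b * a' - b' * a) = 0 := by
    linear_combination (κ' * D' * a') * h2 - (κ' * D' * A * b') * h1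
  have h4 : (0 : ℝ) < (κ * D) * (κ' * D') * A := by positivity
  have := (mul_eq_zero.mp h3).resolve_left h4.ne'
  linarith

/-- Joint injectivity on the quadrilateral. -/
theorem fC_inj {s t : ℝ} (hs : 0 < s) (ht : 0 < t) {x y : V4} (hx : x ∈ Q) (hy : y ∈ Q)
    (hxy : fC s x = fC t y) : s = t ∧ x = y := by
  set κ := (Real.sqrt (-lor (FC s x) (FC s x)))⁻¹ with hκ
  set κ' := (Real.sqrt (-lor (FC t y) (FC t y)))⁻¹ with hκ'
  have k0 : 0 < κ := nrm_pos (FC_fut hs hx.1)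
  have k1 : 0 < κ' := nrm_pos (FC_fut ht hy.1)
  have h1 : ∀ k, κ * lor (FC s x) (Lam.e k) = κ' * lor (FC t y) (Lam.e k) := by
    intro k
    have h2 : lor (nrm (FC s x)) (Lam.e k) = lor (nrm (FC t y)) (Lam.e k) :=
      congrArg (fun z => lor z (Lam.e k)) hxy
    rw [lor_nrm, lor_nrm] at h2
    exact h2
  have g0 := h1 0
  have g1 := h1 1
  have g2 := h1 2
  have g3 := h1 3
  have g4 := h1 4
  have g5 := h1 5
  rw [FC_lor_0, FC_lor_0] at g0
  rw [FC_lor_1, FC_lor_1] at g1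
  rw [FC_lor_2, FC_lor_2] at g2
  rw [FC_lor_3, FC_lor_3] at g3
  rw [FC_lor_4, FC_lor_4] at g4
  rw [FC_lor_5, FC_lor_5] at g5
  have b1 : l 3 x * l 1 y = l 3 y * l 1 x :=
    ratio k0 k1 hφ_pos (Dz_pos hs hx.1) (Dz_pos ht hy.1) (by linarith) (by linarith) rfl
  have b2 : l 2 x * l 0 y = l 2 y * l 0 x :=
    ratio k0 k1 hφ_pos (Dy_pos hs hx.1) (Dy_pos ht hy.1) (by linarith) (by linarith) rfl
  have b3 : 1 * t = 1 * s :=
    ratio (b := 1) (b' := 1) k0 k1 hφ_pos (Dx_pos hx.1) (Dx_pos hy.1) (by linarith)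
      (by linarith) rfl
  exact ⟨by linarith, eq_of_ratio hx hy b1 b2⟩

/-! ### The equivariant extension -/

/-- The stabiliser of a point `x` of the quadrilateral fixes `fC s x`. -/
theorem fixC_of_closure (s : ℝ) {x : V4} {t : Q4.W}
    (ht : t ∈ Subgroup.closure (Q4.S.simple '' {i | lor x (Q4.e i) = 0})) :
    Lam.L.rho (j t) (fC s x) = fC s x := by
  induction ht using Subgroup.closure_induction with
  | mem a ha =>
    obtain ⟨i, hi, rfl⟩ := ha
    rw [j_simple, CP.rho_simple, reflE_apply]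
    have h1 : lor (fC s x) (Lam.L.e (iota4 i)) = 0 := fC_side s i hi
    rw [h1, mul_zero, zero_smul, sub_zero]
  | one => rw [map_one, map_one]; rfl
  | mul a b _ _ ha hb => rw [map_mul, map_mul, LinearEquiv.mul_apply, hb, ha]
  | inv a _ ha =>
    rw [map_inv, map_inv]
    conv_lhs => rw [← ha]
    rw [← LinearEquiv.mul_apply, inv_mul_cancel]; rfl

/-- The equivariant extension of `fC s`. -/
noncomputable def ftC (s : ℝ) (p : V4) : V4 :=
  Lam.L.rho (j (wd p))⁻¹ (fC s (Q4.rho (wd p) p))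

/-- `ftC s` can be computed with any element moving `p` into the quadrilateral. -/
theorem ftC_eq (s : ℝ) {p : V4} (hp : p ∈ H3) {w : Q4.W} (hw : Q4.rho w p ∈ Q4.P) :
    ftC s p = Lam.L.rho (j w)⁻¹ (fC s (Q4.rho w p)) := by
  have h0 := wd_spec hp
  have h1 : Q4.rho (wd p * w⁻¹) (Q4.rho w p) = Q4.rho (wd p) p := by
    rw [← Q4.rho_mul_apply]; congr 2; group
  obtain ⟨h2, h3⟩ := Q4.stab hw (w := wd p * w⁻¹) (by rw [h1]; exact h0)
  have h4 := fixC_of_closure s h3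
  have h5 : Q4.rho (wd p) p = Q4.rho w p := by rw [← h1, h2]
  unfold ftC
  rw [h5]
  conv_lhs => rw [← h4]
  rw [← Lam.L.rho_mul_apply]
  congr 2
  rw [map_mul, map_inv]; group

/-- Equivariance. -/
theorem ftC_equiv (s : ℝ) (g : Q4.W) {p : V4} (hp : p ∈ H3) :
    ftC s (Q4.rho g p) = Lam.L.rho (j g) (ftC s p) := by
  have h0 := wd_spec hp
  have h1 : Q4.rho (wd p * g⁻¹) (Q4.rho g p) = Q4.rho (wd p) p := by
    rw [← Q4.rho_mul_apply]; congr 2; group
  rw [ftC_eq s (Oplus.h3 (Q4.rho_mem g) hp) (w := wd p * g⁻¹) (by rw [h1]; exact h0), h1,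
    ftC_eq s hp h0, ← Lam.L.rho_mul_apply]
  congr 2
  rw [map_mul, map_inv]; group

theorem ftC_mem {s : ℝ} (hs : 0 < s) {p : V4} (hp : p ∈ H3) : ftC s p ∈ H3 :=
  Oplus.h3 (Lam.L.rho_mem _) (fC_mem hs (wd_spec hp)).1

/-- The stabiliser of `fC s b` in the group of the Lambert cube comes from the quadrilateral
group. -/
theorem closureC_lift {s : ℝ} (hs : 0 < s) {b : V4} (hb : b ∈ Q4.P) {δ : Lam.L.W}
    (hδ : δ ∈ Subgroup.closure (Lam.L.S.simple '' {k | lor (fC s b) (Lam.L.e k) = 0})) :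
    ∃ t : Q4.W, j t = δ ∧ Q4.rho t b = b := by
  induction hδ using Subgroup.closure_induction with
  | mem a ha =>
    obtain ⟨k, hk, rfl⟩ := ha
    obtain ⟨i, hi, h0⟩ := fC_zero hs hb hk
    refine ⟨Q4.S.simple i, by rw [j_simple, hi], ?_⟩
    have h1 : lor b (Q4.e i) = 0 := h0
    rw [CP.rho_simple, reflE_apply, h1, mul_zero, zero_smul, sub_zero]
  | one => exact ⟨1, map_one _, by rw [map_one]; rfl⟩
  | mul a c _ _ ha hc =>
    obtain ⟨s, hs, hs'⟩ := ha
    obtain ⟨t, ht, ht'⟩ := hc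
    exact ⟨s * t, by rw [map_mul, hs, ht], by rw [Q4.rho_mul_apply, ht', hs']⟩
  | inv a _ ha =>
    obtain ⟨s, hs, hs'⟩ := ha
    refine ⟨s⁻¹, by rw [map_inv, hs], ?_⟩
    conv_lhs => rw [← hs']
    exact Q4.rho_inv_apply s b

/-- Points of the collar are identified by the group of the Lambert cube only through the
quadrilateral group. -/
theorem ftC_inj {s t : ℝ} (hs : 0 < s) (ht : 0 < t) {p q : V4} (hp : p ∈ H2) (hq : q ∈ H2)
    {γ : Lam.L.W} (h : ftC s p = Lam.L.rho γ (ftC t q)) :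
    s = t ∧ ∃ σ : Q4.W, γ = j σ ∧ p = Q4.rho σ q := by
  set w := wd p with hw
  set u := wd q with hu
  have ha := wd_spec hp.1
  have hb := wd_spec hq.1
  rw [← hw] at ha
  rw [← hu] at hb
  have haQ : Q4.rho w p ∈ Q := ⟨ha, (rho_mem w hp).2⟩
  have hbQ : Q4.rho u q ∈ Q := ⟨hb, (rho_mem u hq).2⟩
  rw [ftC_eq s hp.1 ha, ftC_eq t hq.1 hb] at h
  have h1 : fC s (Q4.rho w p) = Lam.L.rho (j w * γ * (j u)⁻¹) (fC t (Q4.rho u q)) := by
    have h2 := congrArg (Lam.L.rho (j w)) h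
    rw [Lam.L.rho_apply_inv] at h2
    rw [h2, Lam.L.rho_mul_apply, Lam.L.rho_mul_apply]
  obtain ⟨h2, h3⟩ := Lam.L.stab (fC_mem ht hb) (w := j w * γ * (j u)⁻¹) (by
    rw [← h1]; exact fC_mem hs ha)
  obtain ⟨h5, h4⟩ := fC_inj hs ht haQ hbQ (by rw [h1, h2])
  obtain ⟨t', ht', ht''⟩ := closureC_lift ht hb h3
  refine ⟨h5, w⁻¹ * t' * u, ?_, ?_⟩
  · rw [map_mul, map_mul, ht', map_inv]; group
  · rw [Q4.rho_mul_apply, Q4.rho_mul_apply, ht'', ← h4, Q4.rho_inv_apply]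

/-! ### Continuity -/

theorem continuous_FC : Continuous fun z : ℝ × V4 => FC z.1 z.2 := by
  have h0 := (continuous_l 0).comp (continuous_snd (X := ℝ) (Y := V4))
  have h1 := (continuous_l 1).comp (continuous_snd (X := ℝ) (Y := V4))
  have h2 := (continuous_l 2).comp (continuous_snd (X := ℝ) (Y := V4))
  have h3 := (continuous_l 3).comp (continuous_snd (X := ℝ) (Y := V4))
  have hs : Continuous fun z : ℝ × V4 => z.1 := continuous_fst
  unfold FC
  exact ((((h2.mul h3).smul (continuous_const.add (hs.smul continuous_const))).add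
    ((h2.mul h1).smul (continuous_const.add (hs.smul continuous_const)))).add
    ((h0.mul h3).smul (continuous_const.add (hs.smul continuous_const)))).add
    ((h0.mul h1).smul (continuous_const.add ((continuous_const.mul hs).smul continuous_const)))

theorem continuousOn_fC : ContinuousOn (fun z : ℝ × V4 => fC z.1 z.2)
    {z | 0 < z.1 ∧ z.2 ∈ Q4.P} :=
  continuousOn_nrm.comp continuous_FC.continuousOn fun _ hx => FC_fut hx.1 hx.2

/-- The collar is continuous. -/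
theorem continuous_ftC :
    Continuous fun z : {x // x ∈ H2} × ℝ => ftC (Real.exp z.2) z.1.1 := by
  have hlf : LocallyFinite fun w : Q4.W => (Prod.fst : {x // x ∈ H2} × ℝ → _) ⁻¹' piece w :=
    locallyFinite_piece.preimage_continuous continuous_fst
  apply hlf.continuous
  · rw [Set.eq_univ_iff_forall]
    intro p
    exact Set.mem_iUnion.mpr ⟨wd p.1.1, wd_spec p.1.2.1⟩
  · intro w
    exact (isClosed_piece w).preimage continuous_fst
  · intro w
    have h0 : Continuous fun z : {x // x ∈ H2} × ℝ => (Real.exp z.2, Q4.rho w z.1.1) :=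
      (Real.continuous_exp.comp continuous_snd).prodMk
        ((Q4.continuous_rho w).comp (continuous_subtype_val.comp continuous_fst))
    have h1 : ContinuousOn (fun z : {x // x ∈ H2} × ℝ =>
        Lam.L.rho (j w)⁻¹ (fC (Real.exp z.2) (Q4.rho w z.1.1)))
        ((Prod.fst : {x // x ∈ H2} × ℝ → _) ⁻¹' piece w) := by
      have h2 : ContinuousOn (fun z : {x // x ∈ H2} × ℝ => fC (Real.exp z.2) (Q4.rho w z.1.1))
          ((Prod.fst : {x // x ∈ H2} × ℝ → _) ⁻¹' piece w) :=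
        ContinuousOn.comp (g := fun z : ℝ × V4 => fC z.1 z.2)
          (f := fun z : {x // x ∈ H2} × ℝ => (Real.exp z.2, Q4.rho w z.1.1))
          (t := {z | 0 < z.1 ∧ z.2 ∈ Q4.P}) continuousOn_fC h0.continuousOn
          fun z hz => ⟨Real.exp_pos z.2, hz⟩
      exact (Lam.L.continuous_rho (j w)⁻¹).comp_continuousOn h2
    exact h1.congr fun z hz => ftC_eq _ z.1.2.1 hz

/-- The bicollar: an embedding of `(ℝ × ℝ) × ℝ` in hyperbolic space. -/
noncomputable def fRC (p : ℝ × ℝ) (t : ℝ) : V4 := ftC (Real.exp t) (plane.symm p).1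

theorem fRC_mem (p : ℝ × ℝ) (t : ℝ) : fRC p t ∈ H3 :=
  ftC_mem (Real.exp_pos t) (plane.symm p).2.1

theorem continuous_fRC : Continuous fun z : (ℝ × ℝ) × ℝ => fRC z.1 z.2 := by
  have h : Continuous fun z : (ℝ × ℝ) × ℝ => (plane.symm z.1, z.2) :=
    (plane.symm.continuous.comp continuous_fst).prodMk continuous_snd
  exact Continuous.comp (g := fun z : {x // x ∈ H2} × ℝ => ftC (Real.exp z.2) z.1.1)
    (f := fun z : (ℝ × ℝ) × ℝ => (plane.symm z.1, z.2)) continuous_ftC h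

theorem fRC_equiv (w : Q4.W) (p : ℝ × ℝ) (t : ℝ) :
    fRC (actR w p) t = Lam.L.rho (j w) (fRC p t) := by
  unfold fRC
  rw [actR_symm, act4_apply, ftC_equiv _ w (plane.symm p).2.1]

theorem fRC_inj {p q : ℝ × ℝ} {s t : ℝ} {γ : Lam.L.W} (h : fRC p s = Lam.L.rho γ (fRC q t)) :
    s = t ∧ ∃ σ : Q4.W, γ = j σ ∧ p = actR σ q := by
  obtain ⟨h0, σ, h1, h2⟩ := ftC_inj (Real.exp_pos s) (Real.exp_pos t) (plane.symm p).2
    (plane.symm q).2 h
  refine ⟨Real.exp_injective h0, σ, h1, ?_⟩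
  apply plane.symm.injective
  rw [actR_symm]
  exact Subtype.ext h2

end Quad

end Pool.Agent.EC
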