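import Pool.Agent.EC.Quad

/-! The surface carried by the quadrilateral group: an equivariant embedding of the hyperbolic
plane into hyperbolic space which maps the quadrilateral into the Lambert cube, side `i` into the
mirror `iota4 i`. -/

namespace Pool.Agent.EC

open Real

/-- Sums of future timelike vectors. -/
theorem FutT.add {x y : V4} (hx : FutT x) (hy : FutT y) : FutT (x + y) := by
  refine ⟨?_, ?_⟩
  · rw [lor_add_left, lor_add_right, lor_add_right, lor_comm y x]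
    have := lor_neg_of_fut hx hy.1.le hy.2
    linarith [hx.1, hy.1]
  · rw [Pi.add_apply]; exact add_pos hx.2 hy.2

theorem FutT.smul {x : V4} (hx : FutT x) {a : ℝ} (ha : 0 < a) : FutT (a • x) := by
  refine ⟨?_, ?_⟩
  · rw [lor_smul_left, lor_smul_right]
    have := hx.1
    nlinarith [mul_pos ha ha]
  · rw [Pi.smul_apply, smul_eq_mul]; exact mul_pos ha hx.2

/-- zero or future timelike -/
def FutZ (x : V4) : Prop := x = 0 ∨ FutT x

theorem FutZ.add {x y : V4} (hx : FutZ x) (hy : FutZ y) : FutZ (x + y) := by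
  rcases hx with rfl | hx
  · rwa [zero_add]
  · rcases hy with rfl | hy
    · rw [add_zero]; exact Or.inr hx
    · exact Or.inr (hx.add hy)

theorem FutZ.smul {x : V4} (hx : FutT x) {a : ℝ} (ha : 0 ≤ a) : FutZ (a • x) := by
  rcases eq_or_lt_of_le ha with h | h
  · rw [← h, zero_smul]; exact Or.inl rfl
  · exact Or.inr (hx.smul h)

/-- Projection to the hyperboloid. -/
noncomputable def nrm (x : V4) : V4 := (Real.sqrt (-lor x x))⁻¹ • x

theorem nrm_pos {x : V4} (hx : FutT x) : 0 < (Real.sqrt (-lor x x))⁻¹ :=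
  inv_pos.mpr (Real.sqrt_pos.mpr (by linarith [hx.1]))

theorem nrm_mem {x : V4} (hx : FutT x) : nrm x ∈ H3 := by
  have h0 : 0 < -lor x x := by linarith [hx.1]
  refine ⟨?_, ?_⟩
  · unfold nrm
    rw [lor_smul_left, lor_smul_right, ← mul_assoc, ← mul_inv, Real.mul_self_sqrt h0.le]
    have h1 : lor x x ≠ 0 := by linarith [hx.1]
    rw [inv_neg, neg_mul, inv_mul_cancel₀ h1]
  · unfold nrm
    rw [Pi.smul_apply, smul_eq_mul]
    exact mul_pos (nrm_pos hx) hx.2

theorem lor_nrm (x y : V4) : lor (nrm x) y = (Real.sqrt (-lor x x))⁻¹ * lor x y := by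
  unfold nrm; rw [lor_smul_left]

namespace Quad

/-- The hyperbolic plane. -/
def H2 : Set V4 := {x | x ∈ H3 ∧ x 3 = 0}

theorem e_three (i : Fin 4) : e i 3 = 0 := by
  fin_cases i <;> rfl

theorem rho_three (w : Q4.W) : ∀ x : V4, (Q4.rho w x) 3 = x 3 := by
  induction w using Q4.S.simple_induction with
  | simple i =>
    intro x
    rw [Q4.rho_simple, reflE_apply, Pi.sub_apply, Pi.smul_apply]
    change x 3 - _ • (e i 3) = x 3
    rw [e_three, smul_zero, sub_zero]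
  | one => intro x; rw [map_one]; rfl
  | mul a b ha hb => intro x; rw [map_mul, LinearEquiv.mul_apply, ha, hb]

theorem rho_mem (w : Q4.W) {x : V4} (hx : x ∈ H2) : Q4.rho w x ∈ H2 :=
  ⟨Oplus.h3 (Q4.rho_mem w) hx.1, by rw [rho_three]; exact hx.2⟩

/-- The quadrilateral. -/
def Q : Set V4 := {x | x ∈ Q4.P ∧ x 3 = 0}

theorem Q_sub {x : V4} (hx : x ∈ Q) : x ∈ H2 := ⟨hx.1.1, hx.2⟩

/-- Distances (up to a factor) to the sides. -/
noncomputable def l (i : Fin 4) (x : V4) : ℝ := -lor x (e i)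

theorem l_nonneg {x : V4} (hx : x ∈ Q4.P) (i : Fin 4) : 0 ≤ l i x := by
  have : lor x (e i) ≤ 0 := hx.2 i
  unfold l; linarith

theorem l02_pos {x : V4} (hx : x ∈ Q4.P) : 0 < l 0 x + l 2 x := by
  have h0 := l_nonneg hx 0
  have h2 := l_nonneg hx 2
  rcases eq_or_lt_of_le h0 with h | h
  · have hm : Q4.M 0 2 = 0 := rfl
    have hle : lor (Q4.e 0) (Q4.e 2) ≤ -1 := by
      change lor (e 0) (e 2) ≤ -1
      rw [gram]
      change -m ≤ -1
      have mp := m_pos
      have m2 := m_sq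
      nlinarith
    have h3 : lor x (e 0) = 0 := by unfold l at h; linarith
    have h4 : lor x (e 2) < 0 := Q4.disjoint_half hle (H3.fut hx.1) (le_of_eq h3.symm)
    have h5 : 0 < l 2 x := by unfold l; linarith
    linarith
  · linarith

theorem l13_pos {x : V4} (hx : x ∈ Q4.P) : 0 < l 1 x + l 3 x := by
  have h0 := l_nonneg hx 1
  have h2 := l_nonneg hx 3
  rcases eq_or_lt_of_le h0 with h | h'
  · have hle : lor (Q4.e 1) (Q4.e 3) ≤ -1 := by
      change lor (e 1) (e 3) ≤ -1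
      rw [gram]
      change -(2 * Quad.h) ≤ -1
      have hp := h_pos
      have h2 := h_sq
      nlinarith
    have h3 : lor x (e 1) = 0 := by unfold l at h; linarith
    have h4 : lor x (e 3) < 0 := Q4.disjoint_half hle (H3.fut hx.1) (le_of_eq h3.symm)
    have h5 : 0 < l 3 x := by unfold l; linarith
    linarith
  · linarith

/-- The quadrilateral is bounded. -/
theorem Q_bound {x : V4} (hx : x ∈ Q) : x 0 ≤ 2 := by
  obtain ⟨⟨⟨h1, h0⟩, hP⟩, h3⟩ := hx
  have a0 : x 1 ≤ 0 := by have := hP 0; rwa [show Q4.e 0 = e 0 from rfl, lor_e0] at this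
  have a1 : x 2 ≤ 0 := by have := hP 1; rwa [show Q4.e 1 = e 1 from rfl, lor_e1] at this
  have a2 : -(m * x 1) - h * x 2 - x 0 ≤ 0 := by
    have := hP 2; rwa [show Q4.e 2 = e 2 from rfl, lor_e2] at this
  have a3 : -(2 * h * x 2) - x 0 ≤ 0 := by
    have := hP 3; rwa [show Q4.e 3 = e 3 from rfl, lor_e3] at this
  have n : x 1 ^ 2 + x 2 ^ 2 = x 0 ^ 2 - 1 := by
    unfold lor at h1; rw [h3] at h1; nlinarith
  have h2 := h_sq
  have m2 := m_sq
  have hp := h_pos
  have mp := m_pos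
  set u := -x 1 with hu
  set v := -x 2 with hv
  have u0 : 0 ≤ u := by linarith
  have v0 : 0 ≤ v := by linarith
  have b2 : m * u + h * v ≤ x 0 := by rw [hu, hv]; linarith
  have b3 : 2 * h * v ≤ x 0 := by rw [hv]; linarith
  have n' : u ^ 2 + v ^ 2 = x 0 ^ 2 - 1 := by rw [hu, hv]; linarith
  -- (m u)^2 ≤ (x0 - h v)^2, 3/2 (u^2 + v^2) ≤ x0^2
  have c1 : (m * u) ^ 2 ≤ (x 0 - h * v) ^ 2 := by
    apply pow_le_pow_left₀ (mul_nonneg mp.le u0)
    linarith
  have c2 : 3 / 2 * u ^ 2 ≤ x 0 ^ 2 - 2 * h * x 0 * v + 1 / 2 * v ^ 2 := by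
    have : (m * u) ^ 2 = 3 / 2 * u ^ 2 := by rw [mul_pow, m2]
    have h4 : (x 0 - h * v) ^ 2 = x 0 ^ 2 - 2 * h * x 0 * v + h ^ 2 * v ^ 2 := by ring
    rw [this, h4, h2] at c1
    exact c1
  have c3 : 2 * v ^ 2 ≤ 2 * h * x 0 * v := by
    -- v ≤ h x0 since 2 h v ≤ x0 and 2 h^2 = 1
    have : v ≤ h * x 0 := by nlinarith
    nlinarith
  have c4 : 3 / 2 * (x 0 ^ 2 - 1) ≤ x 0 ^ 2 := by rw [← n']; nlinarith
  nlinarith

/-- The four corners: interior points of the edges of the Lambert cube. -/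
noncomputable def v : Fin 4 → V4 :=
  ![Lam.vert 0 + Lam.vert 1, Lam.vert 4 + Lam.vert 5, Lam.vert 2 + Lam.vert 3,
    Lam.vert 6 + Lam.vert 7]

theorem v_fut (a : Fin 4) : FutT (v a) := by
  fin_cases a
  · exact (Lam.cert.hv 0).add (Lam.cert.hv 1)
  · exact (Lam.cert.hv 4).add (Lam.cert.hv 5)
  · exact (Lam.cert.hv 2).add (Lam.cert.hv 3)
  · exact (Lam.cert.hv 6).add (Lam.cert.hv 7)

/-- The weights of the corners. -/
noncomputable def wt (x : V4) : Fin 4 → ℝ :=
  ![l 2 x * l 3 x, l 2 x * l 1 x, l 0 x * l 3 x, l 0 x * l 1 x]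

/-- The map to the Lambert cube before normalisation. -/
noncomputable def F (x : V4) : V4 := ∑ a, wt x a • v a

theorem F_eq (x : V4) : F x = (l 2 x * l 3 x) • v 0 + (l 2 x * l 1 x) • v 1 +
    (l 0 x * l 3 x) • v 2 + (l 0 x * l 1 x) • v 3 := by
  unfold F
  rw [Fin.sum_univ_four]
  rfl

/-- The products of the corners and the normals. -/
noncomputable def T : Matrix (Fin 4) (Fin 6) ℝ :=
  let φ := Lam.φ
  let h := Lam.h
  !![-1, 0, 0, -(h * φ), -(2 * h * φ), h * (1 - 2 * φ);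
     -1, 0, φ - 3, -(h * φ), h * (3 - 3 * φ), 0;
     -(2 - φ), -2, 0, h * (1 - φ), 0, h * (2 - 3 * φ);
     -(φ - 1), -1, -φ, h * (2 - 2 * φ), 0, 0]

theorem v_lor (a : Fin 4) (k : Fin 6) : lor (v a) (Lam.e k) = T a k := by
  fin_cases a <;> fin_cases k <;>
    simp only [v, T, Fin.zero_eta, Fin.mk_one, Fin.reduceFinMk, Matrix.cons_val_zero,
      Matrix.cons_val_one, Matrix.cons_val, lor_add_left, Lam.vert_lor, Lam.table,
      Matrix.of_apply, Matrix.cons_val', Matrix.cons_val_fin_one] <;> ring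

theorem F_lor (x : V4) (k : Fin 6) : lor (F x) (Lam.e k) =
    l 2 x * l 3 x * T 0 k + l 2 x * l 1 x * T 1 k + l 0 x * l 3 x * T 2 k +
      l 0 x * l 1 x * T 3 k := by
  rw [F_eq]
  simp only [lor_add_left, lor_smul_left, v_lor]

theorem wt_sum (x : V4) : l 2 x * l 3 x + l 2 x * l 1 x + l 0 x * l 3 x + l 0 x * l 1 x =
    (l 0 x + l 2 x) * (l 1 x + l 3 x) := by ring

theorem F_fut {x : V4} (hx : x ∈ Q4.P) : FutT (F x) := by
  have n0 := l_nonneg hx 0
  have n1 := l_nonneg hx 1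
  have n2 := l_nonneg hx 2
  have n3 := l_nonneg hx 3
  have h1 : FutZ (F x) := by
    rw [F_eq]
    exact (((FutZ.smul (v_fut 0) (mul_nonneg n2 n3)).add
      (FutZ.smul (v_fut 1) (mul_nonneg n2 n1))).add
      (FutZ.smul (v_fut 2) (mul_nonneg n0 n3))).add
      (FutZ.smul (v_fut 3) (mul_nonneg n0 n1))
  rcases h1 with h1 | h1
  · exfalso
    -- the time coordinate is positive
    have hp : 0 < (l 0 x + l 2 x) * (l 1 x + l 3 x) := mul_pos (l02_pos hx) (l13_pos hx)
    have h2 : (F x) 0 = 0 := by rw [h1]; rfl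
    have key : ∀ a : Fin 4, (v a) 0 = 2 * Lam.g := by
      intro a
      fin_cases a <;>
        simp only [v, Lam.vert, Fin.zero_eta, Fin.mk_one, Fin.reduceFinMk, Matrix.cons_val_zero,
          Matrix.cons_val_one, Matrix.cons_val, Pi.add_apply] <;> ring
    have h3 : (F x) 0 = (l 0 x + l 2 x) * (l 1 x + l 3 x) * (2 * Lam.g) := by
      rw [F_eq]
      simp only [Pi.add_apply, Pi.smul_apply, smul_eq_mul, key]
      ring
    rw [h3] at h2
    have h4 : 0 < (l 0 x + l 2 x) * (l 1 x + l 3 x) * (2 * Lam.g) :=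
      mul_pos hp (by linarith [Lam.g_pos])
    linarith
  · exact h1

theorem F_lor_1 (x : V4) : lor (F x) (Lam.e 1) = -(l 0 x * (2 * l 3 x + l 1 x)) := by
  rw [F_lor]
  simp only [T, Matrix.of_apply, Matrix.cons_val', Matrix.cons_val_fin_one, Matrix.cons_val_zero,
    Matrix.cons_val_one, Matrix.cons_val]
  ring
theorem F_lor_2 (x : V4) : lor (F x) (Lam.e 2) =
    -(l 1 x * ((3 - Lam.φ) * l 2 x + Lam.φ * l 0 x)) := by
  rw [F_lor]
  simp only [T, Matrix.of_apply, Matrix.cons_val', Matrix.cons_val_fin_one, Matrix.cons_val_zero,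
    Matrix.cons_val_one, Matrix.cons_val]
  ring
theorem F_lor_4 (x : V4) : lor (F x) (Lam.e 4) =
    -(l 2 x * (Lam.h * (2 * Lam.φ) * l 3 x + Lam.h * (3 * Lam.φ - 3) * l 1 x)) := by
  rw [F_lor]
  simp only [T, Matrix.of_apply, Matrix.cons_val', Matrix.cons_val_fin_one, Matrix.cons_val_zero,
    Matrix.cons_val_one, Matrix.cons_val]
  ring
theorem F_lor_5 (x : V4) : lor (F x) (Lam.e 5) =
    -(l 3 x * (Lam.h * (2 * Lam.φ - 1) * l 2 x + Lam.h * (3 * Lam.φ - 2) * l 0 x)) := by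
  rw [F_lor]
  simp only [T, Matrix.of_apply, Matrix.cons_val', Matrix.cons_val_fin_one, Matrix.cons_val_zero,
    Matrix.cons_val_one, Matrix.cons_val]
  ring
theorem F_lor_0 (x : V4) : lor (F x) (Lam.e 0) =
    -(l 2 x * l 3 x + l 2 x * l 1 x + (2 - Lam.φ) * (l 0 x * l 3 x) +
      (Lam.φ - 1) * (l 0 x * l 1 x)) := by
  rw [F_lor]
  simp only [T, Matrix.of_apply, Matrix.cons_val', Matrix.cons_val_fin_one, Matrix.cons_val_zero,
    Matrix.cons_val_one, Matrix.cons_val]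
  ring
theorem F_lor_3 (x : V4) : lor (F x) (Lam.e 3) =
    -(Lam.h * (Lam.φ * (l 2 x * l 3 x) + Lam.φ * (l 2 x * l 1 x) + (Lam.φ - 1) * (l 0 x * l 3 x) +
      (2 * Lam.φ - 2) * (l 0 x * l 1 x))) := by
  rw [F_lor]
  simp only [T, Matrix.of_apply, Matrix.cons_val', Matrix.cons_val_fin_one, Matrix.cons_val_zero,
    Matrix.cons_val_one, Matrix.cons_val]
  ring

/-- A positive combination of two non-negative numbers with positive sum. -/
theorem comb_pos {a b s t : ℝ} (ha : 0 < a) (hb : 0 < b) (hs : 0 ≤ s) (ht : 0 ≤ t)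
    (h : 0 < s + t) : 0 < a * s + b * t := by
  rcases eq_or_lt_of_le hs with h1 | h1
  · have : 0 < t := by linarith
    have := mul_pos hb this
    rw [← h1]; linarith
  · have := mul_pos ha h1
    have := mul_nonneg hb.le ht
    linarith

theorem wt_pos {x : V4} (hx : x ∈ Q4.P) {a b c d : ℝ} (ha : 0 < a) (hb : 0 < b) (hc : 0 < c)
    (hd : 0 < d) : 0 < a * (l 2 x * l 3 x) + b * (l 2 x * l 1 x) + c * (l 0 x * l 3 x) +
      d * (l 0 x * l 1 x) := by
  have n0 := l_nonneg hx 0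
  have n1 := l_nonneg hx 1
  have n2 := l_nonneg hx 2
  have n3 := l_nonneg hx 3
  have h1 := wt_sum x
  have h2 : 0 < (l 0 x + l 2 x) * (l 1 x + l 3 x) := mul_pos (l02_pos hx) (l13_pos hx)
  rw [← h1] at h2
  have p1 := mul_nonneg n2 n3
  have p2 := mul_nonneg n2 n1
  have p3 := mul_nonneg n0 n3
  have p4 := mul_nonneg n0 n1
  set μ := min (min a b) (min c d) with hμ
  have hμ0 : 0 < μ := lt_min (lt_min ha hb) (lt_min hc hd)
  have q1 : μ ≤ a := (min_le_left _ _).trans (min_le_left _ _)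
  have q2 : μ ≤ b := (min_le_left _ _).trans (min_le_right _ _)
  have q3 : μ ≤ c := (min_le_right _ _).trans (min_le_left _ _)
  have q4 : μ ≤ d := (min_le_right _ _).trans (min_le_right _ _)
  have := mul_pos hμ0 h2
  nlinarith [mul_le_mul_of_nonneg_right q1 p1, mul_le_mul_of_nonneg_right q2 p2,
    mul_le_mul_of_nonneg_right q3 p3, mul_le_mul_of_nonneg_right q4 p4]

/-- The image lies in the Lambert cube and meets exactly the mirrors of the sides. -/
theorem F_sign {x : V4} (hx : x ∈ Q4.P) (k : Fin 6) :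
    lor (F x) (Lam.e k) ≤ 0 ∧ (lor (F x) (Lam.e k) = 0 → ∃ i, iota4 i = k ∧ lor x (e i) = 0) := by
  have n0 := l_nonneg hx 0
  have n1 := l_nonneg hx 1
  have n2 := l_nonneg hx 2
  have n3 := l_nonneg hx 3
  have s02 := l02_pos hx
  have s13 := l13_pos hx
  have p1 := Lam.φ_gt
  have p2 := Lam.φ_lt
  have hp := Lam.h_pos
  have key : ∀ (i : Fin 4) (k : Fin 6) (A : ℝ), iota4 i = k → 0 < A →
      lor (F x) (Lam.e k) = -(l i x * A) →
      lor (F x) (Lam.e k) ≤ 0 ∧ (lor (F x) (Lam.e k) = 0 → ∃ i, iota4 i = k ∧ lor x (e i) = 0) := by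
    intro i k A hik hA h
    rw [h]
    refine ⟨by have := mul_nonneg (l_nonneg hx i) hA.le; linarith, fun h0 => ⟨i, hik, ?_⟩⟩
    have h1 : l i x * A = 0 := by linarith
    have h2 : l i x = 0 := (mul_eq_zero.mp h1).resolve_right hA.ne'
    unfold l at h2; linarith
  have key' : ∀ (k : Fin 6) (A : ℝ), 0 < A → lor (F x) (Lam.e k) = -A →
      lor (F x) (Lam.e k) ≤ 0 ∧ (lor (F x) (Lam.e k) = 0 → ∃ i, iota4 i = k ∧ lor x (e i) = 0) := by
    intro k A hA h
    rw [h]
    exact ⟨by linarith, fun h0 => by linarith⟩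
  fin_cases k
  · refine key' 0 _ ?_ (F_lor_0 x)
    have := wt_pos hx (a := 1) (b := 1) (c := 2 - Lam.φ) (d := Lam.φ - 1) one_pos one_pos
      (by linarith) (by linarith)
    simpa using this
  · exact key 0 1 _ rfl (by have := comb_pos (a := 2) (b := 1) two_pos one_pos n3 n1
                              (by linarith); linarith) (F_lor_1 x)
  · exact key 1 2 _ rfl (comb_pos (by linarith) (by linarith) n2 n0 (by linarith)) (F_lor_2 x)
  · refine key' 3 _ (mul_pos hp ?_) (F_lor_3 x)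
    exact wt_pos hx (by linarith) (by linarith) (by linarith) (by linarith)
  · exact key 2 4 _ rfl (comb_pos (mul_pos hp (by linarith)) (mul_pos hp (by linarith)) n3 n1
      (by linarith)) (F_lor_4 x)
  · exact key 3 5 _ rfl (comb_pos (mul_pos hp (by linarith)) (mul_pos hp (by linarith)) n2 n0
      (by linarith)) (F_lor_5 x)

/-- The sides are mapped to the mirrors. -/
theorem F_side {x : V4} (i : Fin 4) (h : lor x (e i) = 0) : lor (F x) (Lam.e (iota4 i)) = 0 := by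
  have h0 : l i x = 0 := by unfold l; rw [h, neg_zero]
  fin_cases i
  · change lor (F x) (Lam.e 1) = 0
    rw [F_lor_1, show l 0 x = 0 from h0, zero_mul, neg_zero]
  · change lor (F x) (Lam.e 2) = 0
    rw [F_lor_2, show l 1 x = 0 from h0, zero_mul, neg_zero]
  · change lor (F x) (Lam.e 4) = 0
    rw [F_lor_4, show l 2 x = 0 from h0, zero_mul, neg_zero]
  · change lor (F x) (Lam.e 5) = 0
    rw [F_lor_5, show l 3 x = 0 from h0, zero_mul, neg_zero]

/-- The map of the quadrilateral into the Lambert cube. -/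
noncomputable def f (x : V4) : V4 := nrm (F x)

theorem f_mem {x : V4} (hx : x ∈ Q4.P) : f x ∈ Lam.L.P := by
  refine ⟨nrm_mem (F_fut hx), fun k => ?_⟩
  change lor (nrm (F x)) (Lam.e k) ≤ 0
  rw [lor_nrm]
  exact mul_nonpos_of_nonneg_of_nonpos (nrm_pos (F_fut hx)).le (F_sign hx k).1

theorem f_zero {x : V4} (hx : x ∈ Q4.P) {k : Fin 6} (h : lor (f x) (Lam.e k) = 0) :
    ∃ i, iota4 i = k ∧ lor x (e i) = 0 := by
  have h1 : lor (nrm (F x)) (Lam.e k) = 0 := h
  rw [lor_nrm] at h1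
  exact (F_sign hx k).2 ((mul_eq_zero.mp h1).resolve_left (nrm_pos (F_fut hx)).ne')

theorem f_side {x : V4} (i : Fin 4) (h : lor x (e i) = 0) : lor (f x) (Lam.e (iota4 i)) = 0 := by
  change lor (nrm (F x)) (Lam.e (iota4 i)) = 0
  rw [lor_nrm, F_side i h, mul_zero]

/-- Linear independence of the corners, in coordinates. -/
theorem v_indep {d : Fin 4 → ℝ} (h : d 0 • v 0 + d 1 • v 1 + d 2 • v 2 + d 3 • v 3 = 0) :
    d 0 = 0 ∧ d 1 = 0 ∧ d 2 = 0 ∧ d 3 = 0 := by
  have p1 := Lam.φ_gt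
  have p2 := Lam.φ_sq
  have p3 := Lam.φ_lt
  have q0 := congrFun h 0
  have q1 := congrFun h 1
  have q2 := congrFun h 2
  have q3 := congrFun h 3
  simp only [v, Lam.vert, Matrix.cons_val_zero, Matrix.cons_val_one, Matrix.cons_val,
    Pi.add_apply, Pi.smul_apply, smul_eq_mul, Pi.zero_apply] at q0 q1 q2 q3
  have hg := Lam.g_pos
  have r0 : d 0 + d 1 + d 2 + d 3 = 0 := by
    have : (2 * Lam.g) * (d 0 + d 1 + d 2 + d 3) = 0 := by linarith
    exact (mul_eq_zero.mp this).resolve_left (by linarith)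
  have r2 : 2 * d 2 = -d 3 := by nlinarith
  have r1 : (1 - Lam.φ) * d 2 + (Lam.φ - 2) * d 3 = 0 := by nlinarith
  have r3 : (3 * Lam.φ - 5) * d 3 = 0 := by nlinarith
  have hne : 3 * Lam.φ - 5 ≠ 0 := by
    intro h5
    have : Lam.φ = 5 / 3 := by linarith
    rw [this] at p2; norm_num at p2
  have d3 : d 3 = 0 := (mul_eq_zero.mp r3).resolve_left hne
  have d2 : d 2 = 0 := by rw [d3] at r2; linarith
  have r4 : (Lam.φ - 3) * d 1 = 0 := by rw [d2, d3] at q3; nlinarith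
  have d1 : d 1 = 0 := (mul_eq_zero.mp r4).resolve_left (by linarith)
  exact ⟨by rw [d1, d2, d3] at r0; linarith, d1, d2, d3⟩

/-- Injectivity on the quadrilateral. -/
theorem f_inj {x y : V4} (hx : x ∈ Q) (hy : y ∈ Q) (hxy : f x = f y) : x = y := by
  set κ := (Real.sqrt (-lor (F x) (F x)))⁻¹ with hκ
  set κ' := (Real.sqrt (-lor (F y) (F y)))⁻¹ with hκ'
  have k0 : 0 < κ := nrm_pos (F_fut hx.1)
  have k1 : 0 < κ' := nrm_pos (F_fut hy.1)
  have h1 : κ • F x = κ' • F y := hxy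
  have h2 := v_indep (d := fun a => κ * wt x a - κ' * wt y a) (by
    have h3 : κ • F x - κ' • F y = 0 := sub_eq_zero.mpr h1
    rw [F_eq, F_eq] at h3
    rw [← h3]
    simp only [wt, Matrix.cons_val_zero, Matrix.cons_val_one, Matrix.cons_val]
    module)
  simp only [wt, Matrix.cons_val_zero, Matrix.cons_val_one, Matrix.cons_val] at h2
  obtain ⟨e0, e1, e2, e3⟩ := h2
  have sx02 := l02_pos hx.1
  have sx13 := l13_pos hx.1
  have sy02 := l02_pos hy.1
  have sy13 := l13_pos hy.1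
  -- ratios
  have a1 : κ * ((l 0 x + l 2 x) * l 3 x) = κ' * ((l 0 y + l 2 y) * l 3 y) := by linarith
  have a2 : κ * ((l 0 x + l 2 x) * l 1 x) = κ' * ((l 0 y + l 2 y) * l 1 y) := by linarith
  have a3 : κ * ((l 1 x + l 3 x) * l 0 x) = κ' * ((l 1 y + l 3 y) * l 0 y) := by linarith
  have a4 : κ * ((l 1 x + l 3 x) * l 2 x) = κ' * ((l 1 y + l 3 y) * l 2 y) := by linarith
  have b1 : l 3 x * l 1 y = l 3 y * l 1 x := by
    have hA : 0 < κ * (l 0 x + l 2 x) := mul_pos k0 sx02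
    have hB : 0 < κ' * (l 0 y + l 2 y) := mul_pos k1 sy02
    have h5 : (κ * (l 0 x + l 2 x)) * (κ' * (l 0 y + l 2 y)) * (l 3 x * l 1 y - l 3 y * l 1 x) =
        0 := by
      have : (κ * ((l 0 x + l 2 x) * l 3 x)) * (κ' * ((l 0 y + l 2 y) * l 1 y)) =
          (κ' * ((l 0 y + l 2 y) * l 3 y)) * (κ * ((l 0 x + l 2 x) * l 1 x)) := by
        rw [a1, ← a2]
      linear_combination this
    have := (mul_eq_zero.mp h5).resolve_left (mul_pos hA hB).ne'
    linarith
  have b2 : l 2 x * l 0 y = l 2 y * l 0 x := by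
    have hA : 0 < κ * (l 1 x + l 3 x) := mul_pos k0 sx13
    have hB : 0 < κ' * (l 1 y + l 3 y) := mul_pos k1 sy13
    have h5 : (κ * (l 1 x + l 3 x)) * (κ' * (l 1 y + l 3 y)) * (l 2 x * l 0 y - l 2 y * l 0 x) =
        0 := by
      have : (κ * ((l 1 x + l 3 x) * l 2 x)) * (κ' * ((l 1 y + l 3 y) * l 0 y)) =
          (κ' * ((l 1 y + l 3 y) * l 2 y)) * (κ * ((l 1 x + l 3 x) * l 0 x)) := by
        rw [a4, ← a3]
      linear_combination this
    have := (mul_eq_zero.mp h5).resolve_left (mul_pos hA hB).ne'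
    linarith
  simp only [l, lor_e0, lor_e1, lor_e2, lor_e3] at b1 b2
  have c1 : x 0 * y 2 = y 0 * x 2 := by linarith
  have hx0 : 0 < x 0 := hx.1.1.2
  have hy0 : 0 < y 0 := hy.1.1.2
  have c2 : x 0 * y 1 = y 0 * x 1 := by
    -- (h x2 + x0) y1 = (h y2 + y0) x1, multiply by x0 y0 ... use c1
    have c3 : (h * x 2 + x 0) * y 1 = (h * y 2 + y 0) * x 1 := by linarith
    have hp := h_pos
    have h2 := h_sq
    have c4 : (h * x 2 + x 0) * (x 0 * y 1 - y 0 * x 1) = 0 := by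
      linear_combination x 0 * c3 + h * x 1 * c1
    have hpos : 0 < h * x 2 + x 0 := by
      have h6 := (hx.1.2 3 : lor x (Q4.e 3) ≤ 0)
      rw [show Q4.e 3 = e 3 from rfl, lor_e3] at h6
      have : 0 ≤ 2 * (h * x 2) + x 0 := by linarith
      linarith
    have := (mul_eq_zero.mp c4).resolve_left hpos.ne'
    linarith
  have hx3 := hx.2
  have hy3 := hy.2
  have nx := hx.1.1.1
  have ny := hy.1.1.1
  unfold lor at nx ny
  rw [hx3] at nx
  rw [hy3] at ny
  have c5 : x 0 ^ 2 = y 0 ^ 2 := by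
    have h7 : (x 0 * y 1) ^ 2 = (y 0 * x 1) ^ 2 := by rw [c2]
    have h8 : (x 0 * y 2) ^ 2 = (y 0 * x 2) ^ 2 := by rw [c1]
    have n1 : x 1 ^ 2 + x 2 ^ 2 = x 0 ^ 2 - 1 := by linarith
    have n2 : y 1 ^ 2 + y 2 ^ 2 = y 0 ^ 2 - 1 := by linarith
    have h9 : x 0 ^ 2 * (y 0 ^ 2 - 1) = y 0 ^ 2 * (x 0 ^ 2 - 1) := by
      rw [← n1, ← n2]; linear_combination h7 + h8
    linarith
  have c6 : x 0 = y 0 := by
    rcases pow_eq_pow_iff_cases.mp c5 with h | h | ⟨h, -⟩
    · exact absurd h (by norm_num)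
    · exact h
    · linarith
  have c7 : x 1 = y 1 := by
    rw [c6] at c2; exact (mul_left_cancel₀ hy0.ne' c2).symm
  have c8 : x 2 = y 2 := by
    rw [c6] at c1; exact (mul_left_cancel₀ hy0.ne' c1).symm
  ext k
  fin_cases k
  · exact c6
  · exact c7
  · exact c8
  · change x 3 = y 3; rw [hx3, hy3]

end Quad

end Pool.Agent.EC
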