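import Pool.Agent.EC.Emb

/-! The equivariant embedding `ft : H2 → H3` of the hyperbolic plane, glued from the map `f` of the
quadrilateral by the action of the quadrilateral group. -/

namespace Pool.Agent.EC

open Real

namespace Quad

/-- The stabiliser of a point `x` of the quadrilateral fixes `f x`. -/
theorem fix_of_closure {x : V4} {t : Q4.W}
    (ht : t ∈ Subgroup.closure (Q4.S.simple '' {i | lor x (Q4.e i) = 0})) :
    Lam.L.rho (j t) (f x) = f x := by
  induction ht using Subgroup.closure_induction with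
  | mem a ha =>
    obtain ⟨i, hi, rfl⟩ := ha
    rw [j_simple, CP.rho_simple, reflE_apply]
    have h1 : lor (f x) (Lam.L.e (iota4 i)) = 0 := f_side i hi
    rw [h1, mul_zero, zero_smul, sub_zero]
  | one => rw [map_one, map_one]; rfl
  | mul a b _ _ ha hb => rw [map_mul, map_mul, LinearEquiv.mul_apply, hb, ha]
  | inv a _ ha =>
    rw [map_inv, map_inv]
    conv_lhs => rw [← ha]
    rw [← LinearEquiv.mul_apply, inv_mul_cancel]; rfl

/-- The action of a product. -/
theorem _root_.Pool.Agent.EC.CP.rho_mul_apply {κ : Type*} (R : CP κ) (a b : R.W) (x : V4) :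
    R.rho (a * b) x = R.rho a (R.rho b x) := by
  rw [map_mul, LinearEquiv.mul_apply]

theorem _root_.Pool.Agent.EC.CP.rho_inv_apply {κ : Type*} (R : CP κ) (a : R.W) (x : V4) :
    R.rho a⁻¹ (R.rho a x) = x := by
  rw [← R.rho_mul_apply, inv_mul_cancel, map_one]; rfl

theorem _root_.Pool.Agent.EC.CP.rho_apply_inv {κ : Type*} (R : CP κ) (a : R.W) (x : V4) :
    R.rho a (R.rho a⁻¹ x) = x := by
  rw [← R.rho_mul_apply, mul_inv_cancel, map_one]; rfl

/-- An element moving the point into the quadrilateral. -/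
noncomputable def wd (p : V4) : Q4.W := by
  classical
  exact if h : ∃ w : Q4.W, Q4.rho w p ∈ Q4.P then h.choose else 1

theorem wd_spec {p : V4} (hp : p ∈ H3) : Q4.rho (wd p) p ∈ Q4.P := by
  unfold wd
  rw [dif_pos (Q4.cover hp)]
  exact (Q4.cover hp).choose_spec

/-- The equivariant extension of `f`. -/
noncomputable def ft (p : V4) : V4 := Lam.L.rho (j (wd p))⁻¹ (f (Q4.rho (wd p) p))

/-- `ft` can be computed with any element moving `p` into the quadrilateral. -/
theorem ft_eq {p : V4} (hp : p ∈ H3) {w : Q4.W} (hw : Q4.rho w p ∈ Q4.P) :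
    ft p = Lam.L.rho (j w)⁻¹ (f (Q4.rho w p)) := by
  have h0 := wd_spec hp
  have h1 : Q4.rho (wd p * w⁻¹) (Q4.rho w p) = Q4.rho (wd p) p := by
    rw [← Q4.rho_mul_apply]; congr 2; group
  obtain ⟨h2, h3⟩ := Q4.stab hw (w := wd p * w⁻¹) (by rw [h1]; exact h0)
  have h4 := fix_of_closure h3
  have h5 : Q4.rho (wd p) p = Q4.rho w p := by rw [← h1, h2]
  unfold ft
  rw [h5]
  conv_lhs => rw [← h4]
  rw [← Lam.L.rho_mul_apply]
  congr 2
  rw [map_mul, map_inv]; group

/-- Equivariance. -/
theorem ft_equiv (g : Q4.W) {p : V4} (hp : p ∈ H3) : ft (Q4.rho g p) = Lam.L.rho (j g) (ft p) := by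
  have h0 := wd_spec hp
  have h1 : Q4.rho (wd p * g⁻¹) (Q4.rho g p) = Q4.rho (wd p) p := by
    rw [← Q4.rho_mul_apply]; congr 2; group
  rw [ft_eq (Oplus.h3 (Q4.rho_mem g) hp) (w := wd p * g⁻¹) (by rw [h1]; exact h0), h1,
    ft_eq hp h0, ← Lam.L.rho_mul_apply]
  congr 2
  rw [map_mul, map_inv]; group

theorem ft_mem {p : V4} (hp : p ∈ H3) : ft p ∈ H3 :=
  Oplus.h3 (Lam.L.rho_mem _) (f_mem (wd_spec hp)).1

/-- The stabiliser of `f b` in the group of the Lambert cube comes from the quadrilateral group. -/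
theorem closure_lift {b : V4} (hb : b ∈ Q4.P) {δ : Lam.L.W}
    (hδ : δ ∈ Subgroup.closure (Lam.L.S.simple '' {k | lor (f b) (Lam.L.e k) = 0})) :
    ∃ t : Q4.W, j t = δ ∧ Q4.rho t b = b := by
  induction hδ using Subgroup.closure_induction with
  | mem a ha =>
    obtain ⟨k, hk, rfl⟩ := ha
    obtain ⟨i, hi, h0⟩ := f_zero hb hk
    refine ⟨Q4.S.simple i, by rw [j_simple, hi], ?_⟩
    have h1 : lor b (Q4.e i) = 0 := h0
    rw [CP.rho_simple, reflE_apply, h1, mul_zero, zero_smul, sub_zero]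
  | one => exact ⟨1, map_one _, by rw [map_one]; rfl⟩
  | mul a c _ _ ha hc =>
    obtain ⟨s, hs, hs'⟩ := ha
    obtain ⟨t, ht, ht'⟩ := hc
    exact ⟨s * t, by rw [map_mul, hs, ht], by rw [Q4.rho_mul_apply, ht', hs']⟩
  | inv a _ ha =>
    obtain ⟨s, hs, hs'⟩ := ha
    refine ⟨s⁻¹, by rw [map_inv, hs], ?_⟩
    conv_lhs => rw [← hs']
    exact Q4.rho_inv_apply s b

/-- Points of the image plane are identified by the group of the Lambert cube only through the
quadrilateral group. -/
theorem ft_inj {p q : V4} (hp : p ∈ H2) (hq : q ∈ H2) {γ : Lam.L.W}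
    (h : ft p = Lam.L.rho γ (ft q)) : ∃ s : Q4.W, γ = j s ∧ p = Q4.rho s q := by
  set w := wd p with hw
  set u := wd q with hu
  have ha := wd_spec hp.1
  have hb := wd_spec hq.1
  rw [← hw] at ha
  rw [← hu] at hb
  have haQ : Q4.rho w p ∈ Q := ⟨ha, (rho_mem w hp).2⟩
  have hbQ : Q4.rho u q ∈ Q := ⟨hb, (rho_mem u hq).2⟩
  rw [ft_eq hp.1 ha, ft_eq hq.1 hb] at h
  have h1 : f (Q4.rho w p) = Lam.L.rho (j w * γ * (j u)⁻¹) (f (Q4.rho u q)) := by
    have h2 := congrArg (Lam.L.rho (j w)) h
    rw [Lam.L.rho_apply_inv] at h2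
    rw [h2, Lam.L.rho_mul_apply, Lam.L.rho_mul_apply]
  obtain ⟨h2, h3⟩ := Lam.L.stab (f_mem hb) (w := j w * γ * (j u)⁻¹) (by
    rw [← h1]; exact f_mem ha)
  have h4 : Q4.rho w p = Q4.rho u q := f_inj haQ hbQ (by rw [h1, h2])
  obtain ⟨t, ht, ht'⟩ := closure_lift hb h3
  refine ⟨w⁻¹ * t * u, ?_, ?_⟩
  · rw [map_mul, map_mul, ht, map_inv]; group
  · rw [Q4.rho_mul_apply, Q4.rho_mul_apply, ht', ← h4, Q4.rho_inv_apply]

/-! ### Continuity -/

theorem _root_.Pool.Agent.EC.CP.continuous_rho {κ : Type*} (R : CP κ) (w : R.W) :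
    Continuous fun x : V4 => R.rho w x :=
  (R.rho w).toLinearMap.continuous_of_finiteDimensional

theorem continuous_l (i : Fin 4) : Continuous (l i) := by
  unfold l
  exact (continuous_lor.comp (continuous_id.prodMk continuous_const)).neg

theorem continuous_F : Continuous F := by
  have h : F = fun x => (l 2 x * l 3 x) • v 0 + (l 2 x * l 1 x) • v 1 +
      (l 0 x * l 3 x) • v 2 + (l 0 x * l 1 x) • v 3 := funext F_eq
  rw [h]
  have h0 := continuous_l 0
  have h1 := continuous_l 1
  have h2 := continuous_l 2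
  have h3 := continuous_l 3
  exact ((((h2.mul h3).smul continuous_const).add ((h2.mul h1).smul continuous_const)).add
    ((h0.mul h3).smul continuous_const)).add ((h0.mul h1).smul continuous_const)

theorem continuousOn_nrm : ContinuousOn nrm {x | FutT x} := by
  have key : ContinuousOn (fun x : V4 => (Real.sqrt (-lor x x))⁻¹) {x | FutT x} := by
    apply ContinuousOn.inv₀
    · exact (Real.continuous_sqrt.comp
        (continuous_lor.comp (continuous_id.prodMk continuous_id)).neg).continuousOn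
    · intro x hx
      exact (Real.sqrt_pos.mpr (by linarith [hx.1])).ne'
  exact key.smul continuousOn_id

theorem continuousOn_f : ContinuousOn f Q4.P :=
  continuousOn_nrm.comp continuous_F.continuousOn fun _ hx => F_fut hx

/-- The pieces of the plane. -/
def piece (w : Q4.W) : Set {x // x ∈ H2} := {p | Q4.rho w p.1 ∈ Q4.P}

theorem isClosed_piece (w : Q4.W) : IsClosed (piece w) :=
  Q4.isClosed_P.preimage ((Q4.continuous_rho w).comp continuous_subtype_val)

theorem locallyFinite_piece : LocallyFinite piece := by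
  intro p
  refine ⟨{q | q.1 0 < p.1 0 + 1}, ?_, ?_⟩
  · apply IsOpen.mem_nhds
    · exact isOpen_lt ((continuous_apply 0).comp continuous_subtype_val) continuous_const
    · change p.1 0 < p.1 0 + 1
      linarith
  · apply (Q4.proper (isCompact_ball (max (p.1 0 + 1) 2)) (fun x hx => hx.1)).subset
    rintro w ⟨q, hq1, hq2⟩
    refine ⟨q.1, ⟨q.2.1, le_trans (le_of_lt hq2) (le_max_left _ _)⟩,
      ⟨Oplus.h3 (Q4.rho_mem w) q.2.1, le_trans ?_ (le_max_right _ _)⟩⟩
    exact Q_bound ⟨hq1, (rho_mem w q.2).2⟩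

/-- The embedding is continuous. -/
theorem continuous_ft : Continuous fun p : {x // x ∈ H2} => ft p.1 := by
  apply locallyFinite_piece.continuous
  · rw [Set.eq_univ_iff_forall]
    intro p
    exact Set.mem_iUnion.mpr ⟨wd p.1, wd_spec p.2.1⟩
  · exact isClosed_piece
  · intro w
    have h1 : ContinuousOn (fun p : {x // x ∈ H2} => Lam.L.rho (j w)⁻¹ (f (Q4.rho w p.1)))
        (piece w) := by
      apply (Lam.L.continuous_rho _).comp_continuousOn
      exact continuousOn_f.comp
        ((Q4.continuous_rho w).comp continuous_subtype_val).continuousOn fun p hp => hp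
    exact h1.congr fun p hp => ft_eq p.2.1 hp

/-! ### The plane -/

/-- The plane `H2` is homeomorphic to `ℝ × ℝ`. -/
noncomputable def plane : {x // x ∈ H2} ≃ₜ ℝ × ℝ where
  toFun x := (x.1 1, x.1 2)
  invFun z := ⟨![Real.sqrt (1 + z.1 ^ 2 + z.2 ^ 2), z.1, z.2, 0], by
    have h0 : 0 < 1 + z.1 ^ 2 + z.2 ^ 2 := by positivity
    have h1 := Real.mul_self_sqrt h0.le
    refine ⟨⟨?_, ?_⟩, rfl⟩
    · simp only [lor, Matrix.cons_val_zero, Matrix.cons_val_one, Matrix.cons_val]
      rw [h1]; ring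
    · exact Real.sqrt_pos.mpr h0⟩
  left_inv x := by
    obtain ⟨x, ⟨⟨h1, h0⟩, h3⟩⟩ := x
    apply Subtype.ext
    have h4 : 1 + x 1 ^ 2 + x 2 ^ 2 = x 0 ^ 2 := by
      unfold lor at h1; rw [h3] at h1; linarith
    ext k
    fin_cases k
    · change Real.sqrt (1 + x 1 ^ 2 + x 2 ^ 2) = x 0
      rw [h4, Real.sqrt_sq h0.le]
    · rfl
    · rfl
    · exact h3.symm
  right_inv z := rfl
  continuous_toFun := by
    exact ((continuous_apply 1).comp continuous_subtype_val).prodMk
      ((continuous_apply 2).comp continuous_subtype_val)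
  continuous_invFun := by
    apply Continuous.subtype_mk
    apply continuous_pi
    intro k
    fin_cases k
    · change Continuous fun z : ℝ × ℝ => Real.sqrt (1 + z.1 ^ 2 + z.2 ^ 2)
      fun_prop
    · exact continuous_fst
    · exact continuous_snd
    · exact continuous_const

/-- The action of the quadrilateral group on the plane. -/
noncomputable def act4 : Q4.W →* ({x // x ∈ H2} ≃ₜ {x // x ∈ H2}) where
  toFun w :=
    { toFun := fun p => ⟨Q4.rho w p.1, rho_mem w p.2⟩
      invFun := fun p => ⟨Q4.rho w⁻¹ p.1, rho_mem w⁻¹ p.2⟩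
      left_inv := fun p => Subtype.ext (Q4.rho_inv_apply w p.1)
      right_inv := fun p => Subtype.ext (Q4.rho_apply_inv w p.1)
      continuous_toFun := ((Q4.continuous_rho w).comp continuous_subtype_val).subtype_mk _
      continuous_invFun := ((Q4.continuous_rho w⁻¹).comp continuous_subtype_val).subtype_mk _ }
  map_one' := by
    apply Homeomorph.ext
    intro p
    apply Subtype.ext
    change Q4.rho 1 p.1 = p.1
    rw [map_one]; rfl
  map_mul' a b := by
    apply Homeomorph.ext
    intro p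
    exact Subtype.ext (Q4.rho_mul_apply a b p.1)

theorem act4_apply (w : Q4.W) (p : {x // x ∈ H2}) : (act4 w p).1 = Q4.rho w p.1 := rfl

/-- The action of the quadrilateral group on `ℝ × ℝ`. -/
noncomputable def actR : Q4.W →* ((ℝ × ℝ) ≃ₜ (ℝ × ℝ)) where
  toFun w := (plane.symm.trans (act4 w)).trans plane
  map_one' := by
    apply Homeomorph.ext
    intro p
    change plane (act4 1 (plane.symm p)) = p
    rw [map_one]
    exact plane.apply_symm_apply p
  map_mul' a b := by
    apply Homeomorph.ext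
    intro p
    change plane (act4 (a * b) (plane.symm p)) =
      plane (act4 a (plane.symm (plane (act4 b (plane.symm p)))))
    rw [plane.symm_apply_apply, map_mul]; rfl

theorem actR_symm (w : Q4.W) (p : ℝ × ℝ) : plane.symm (actR w p) = act4 w (plane.symm p) :=
  plane.symm_apply_apply _

/-- The embedding of the plane `ℝ × ℝ` in hyperbolic space. -/
noncomputable def fR (p : ℝ × ℝ) : V4 := ft (plane.symm p).1

theorem fR_mem (p : ℝ × ℝ) : fR p ∈ H3 := ft_mem (plane.symm p).2.1

theorem continuous_fR : Continuous fR := continuous_ft.comp plane.symm.continuous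

theorem fR_equiv (w : Q4.W) (p : ℝ × ℝ) : fR (actR w p) = Lam.L.rho (j w) (fR p) := by
  unfold fR
  rw [actR_symm, act4_apply, ft_equiv w (plane.symm p).2.1]

theorem fR_inj {p q : ℝ × ℝ} {γ : Lam.L.W} (h : fR p = Lam.L.rho γ (fR q)) :
    ∃ s : Q4.W, γ = j s ∧ p = actR s q := by
  obtain ⟨s, h1, h2⟩ := ft_inj (plane.symm p).2 (plane.symm q).2 h
  refine ⟨s, h1, ?_⟩
  apply plane.symm.injective
  rw [actR_symm]
  exact Subtype.ext h2

/-- The action is proper. -/
theorem actR_proper {K : Set (ℝ × ℝ)} (hK : IsCompact K) :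
    {w : Q4.W | ∃ x ∈ K, actR w x ∈ K}.Finite := by
  have h1 : IsCompact ((fun p : ℝ × ℝ => (plane.symm p).1) '' K) :=
    hK.image (continuous_subtype_val.comp plane.symm.continuous)
  apply (Q4.proper h1 (by rintro _ ⟨p, -, rfl⟩; exact (plane.symm p).2.1)).subset
  rintro w ⟨x, hx, hwx⟩
  refine ⟨_, ⟨x, hx, rfl⟩, ⟨actR w x, hwx, ?_⟩⟩
  change (plane.symm (actR w x)).1 = _
  rw [actR_symm]; rfl

/-- The quadrilateral in `ℝ × ℝ`. -/
def QR : Set (ℝ × ℝ) := {p | (plane.symm p).1 ∈ Q}

theorem isCompact_QR : IsCompact QR := by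
  have h1 : IsCompact {x : V4 | x ∈ Q} := by
    apply (isCompact_ball 2).of_isClosed_subset
    · exact Q4.isClosed_P.inter (isClosed_eq (continuous_apply 3) continuous_const)
    · rintro x hx
      exact ⟨hx.1.1, Q_bound hx⟩
  have h2 : IsCompact {x : {x // x ∈ H2} | x.1 ∈ Q} := by
    rw [Subtype.isCompact_iff]
    have : (Subtype.val '' {x : {x // x ∈ H2} | x.1 ∈ Q}) = {x : V4 | x ∈ Q} := by
      ext x
      constructor
      · rintro ⟨y, hy, rfl⟩; exact hy
      · intro hx
        exact ⟨⟨x, Q_sub hx⟩, hx, rfl⟩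
    rw [this]; exact h1
  have h3 : QR = plane '' {x : {x // x ∈ H2} | x.1 ∈ Q} := by
    ext p
    constructor
    · intro hp
      exact ⟨plane.symm p, hp, plane.apply_symm_apply p⟩
    · rintro ⟨x, hx, rfl⟩
      change (plane.symm (plane x)).1 ∈ Q
      rw [plane.symm_apply_apply]; exact hx
  rw [h3]
  exact h2.image plane.continuous

theorem actR_cover (p : ℝ × ℝ) : ∃ w : Q4.W, actR w p ∈ QR := by
  obtain ⟨w, hw⟩ := Q4.cover (plane.symm p).2.1
  refine ⟨w, ?_⟩
  change (plane.symm (actR w p)).1 ∈ Q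
  rw [actR_symm]
  exact ⟨hw, (rho_mem w (plane.symm p).2).2⟩

end Quad

end Pool.Agent.EC
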