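import Pool.Agent.EC.Collar

/-! Embedded closed surfaces in the manifold `H3 / Γ` and the one given by the quadrilateral
group. -/

namespace Pool.Agent.EC

open Real

/-- A closed connected oriented surface of genus `g ≥ 1` embedded in `M = H3 / Γ`, given on the
universal covers, together with a bicollar: `SurfGroup g` acts on the plane `ℝ × ℝ` freely, properly
and cocompactly (so that `S = (ℝ × ℝ) / SurfGroup g` is the closed orientable surface of genus `g`
with fundamental group `SurfGroup g`); `f : (ℝ × ℝ) × ℝ → H3` is continuous and equivariant with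
respect to the homomorphism `φ : SurfGroup g → Γ` (so that it induces a continuous map
`S × ℝ → M`) and this map is injective. The embedded surface is the image of `S × {0}`; it is
bicollared, that is, locally flat and two-sided, so it is not wild. -/
structure EmbSurface (Γ : Subgroup (V4 ≃ₗ[ℝ] V4)) (g : ℕ) where
  /-- the action of the surface group on the universal cover of the surface -/
  act : SurfGroup g →* ((ℝ × ℝ) ≃ₜ (ℝ × ℝ))
  free : ∀ s p, act s p = p → s = 1
  proper : ∀ K : Set (ℝ × ℝ), IsCompact K → {s | ∃ p ∈ K, act s p ∈ K}.Finite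
  cocompact : ∃ K : Set (ℝ × ℝ), IsCompact K ∧ ∀ p, ∃ s, act s p ∈ K
  /-- the homomorphism of fundamental groups -/
  φ : SurfGroup g →* Γ
  /-- the map of the universal covers; the surface is `t = 0` -/
  f : ℝ × ℝ → ℝ → V4
  f_mem : ∀ p t, f p t ∈ H3
  continuous_f : Continuous fun z : (ℝ × ℝ) × ℝ => f z.1 z.2
  equivariant : ∀ s p t, f (act s p) t = (φ s : V4 ≃ₗ[ℝ] V4) (f p t)
  injective : ∀ p q t t', ∀ γ : Γ, f p t = (γ : V4 ≃ₗ[ℝ] V4) (f q t') →
    t = t' ∧ ∃ s, p = act s q

namespace Quad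

theorem j_injective : Function.Injective j := j4_injective

theorem actR_mul (a b : Q4.W) (p : ℝ × ℝ) : actR (a * b) p = actR a (actR b p) := by
  rw [map_mul]; rfl

theorem exists_rep {g : ℕ} (θ : SurfGroup g →* W4) (w : W4) :
    ∃ (c : W4 ⧸ θ.range) (s : SurfGroup g), c.out⁻¹ * w = θ s := by
  obtain ⟨h, hh⟩ := QuotientGroup.mk_out_eq_mul θ.range w
  obtain ⟨s, hs⟩ := h.2
  refine ⟨QuotientGroup.mk w, s⁻¹, ?_⟩
  rw [hh, ← hs, map_inv]; group

/-- The embedded surface given by a subgroup of the quadrilateral group isomorphic to a surface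
group. -/
noncomputable def embSurface {g : ℕ} (Γ : Subgroup Lam.L.W) [Γ.FiniteIndex]
    (hfree : ∀ γ ∈ Γ, ∀ x ∈ H3, Lam.L.rho γ x = x → γ = 1)
    (θ : SurfGroup g →* W4) (hθ : Function.Injective θ) (hr : ∀ w, w ∈ θ.range ↔ j4 w ∈ Γ) :
    EmbSurface (Γ.map Lam.L.rho) g where
  act := actR.comp θ
  free s p h := by
    have h1 : Lam.L.rho (j (θ s)) (fRC p 0) = fRC p 0 := by
      rw [← fRC_equiv]; exact congrArg (fun z => fRC z 0) h
    have h2 := hfree (j (θ s)) ((hr _).mp ⟨s, rfl⟩) (fRC p 0) (fRC_mem p 0) h1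
    exact hθ ((j_injective (h2.trans (map_one j).symm)).trans (map_one θ).symm)
  proper K hK := by
    have h1 := (actR_proper hK).preimage (f := θ) hθ.injOn
    exact h1.subset fun s hs => hs
  cocompact := by
    have hfin : θ.range.FiniteIndex := by
      have h1 : θ.range = Γ.comap j4 := Subgroup.ext hr
      have h3 : Γ.relIndex j4.range ≠ 0 :=
        (inferInstance : (Γ.subgroupOf j4.range).FiniteIndex).index_ne_zero
      exact ⟨by rw [h1, Subgroup.index_comap]; exact h3⟩
    have hfq : Finite (W4 ⧸ θ.range) := Subgroup.finite_quotient_of_finiteIndex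
    refine ⟨⋃ c : W4 ⧸ θ.range, actR c.out⁻¹ '' QR, ?_, ?_⟩
    · exact isCompact_iUnion fun c => isCompact_QR.image (actR _).continuous
    · intro p
      obtain ⟨w, hw⟩ := actR_cover p
      obtain ⟨c, s, hc⟩ := exists_rep θ w
      refine ⟨s, Set.mem_iUnion.mpr ⟨c, ⟨actR w p, hw, ?_⟩⟩⟩
      change actR c.out⁻¹ (actR w p) = actR (θ s) p
      rw [← actR_mul]
      exact congrArg (fun t : Q4.W => actR t p) hc
  φ := (Lam.L.rho.subgroupMap Γ).comp
    ((j.comp θ).codRestrict Γ fun s => (hr _).mp ⟨s, rfl⟩)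
  f := fRC
  f_mem := fRC_mem
  continuous_f := continuous_fRC
  equivariant s p t := fRC_equiv (θ s) p t
  injective p q t t' γ h := by
    obtain ⟨γ, ⟨γ', hγ', rfl⟩⟩ := γ
    obtain ⟨h0, w, h1, h2⟩ := fRC_inj h
    obtain ⟨s, hs⟩ := (hr w).mpr (by rw [h1] at hγ'; exact hγ')
    exact ⟨h0, s, by rw [h2, ← hs]; rfl⟩

end Quad

end Pool.Agent.EC
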