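import Pool.Agent.EC.Betti

/-!
# Closed orientable hyperbolic 3-manifolds `H3 / Γ`
-/

set_option autoImplicit false

namespace Pool.Agent.EC

/-- `M = H3 / Γ` is a closed orientable hyperbolic 3-manifold: `Γ` is a group of orientation
preserving isometries of hyperbolic 3-space `H3` (linear maps of `ℝ^4` which preserve the Lorentzian
form and the upper sheet of the hyperboloid and have determinant `1`) which acts freely, properly
discontinuously and cocompactly. Its fundamental group is `Γ`. -/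
structure ClosedHyp (Γ : Subgroup (V4 ≃ₗ[ℝ] V4)) : Prop where
  /-- the elements preserve the Lorentzian form -/
  form : ∀ γ ∈ Γ, ∀ x y, lor (γ x) (γ y) = lor x y
  /-- the elements preserve the upper sheet of the hyperboloid -/
  sheet : ∀ γ ∈ Γ, ∀ x ∈ H3, γ x ∈ H3
  /-- the elements preserve the orientation -/
  orient : ∀ γ ∈ Γ, LinearMap.det (γ : V4 →ₗ[ℝ] V4) = 1
  /-- the action is free -/
  free : ∀ γ ∈ Γ, ∀ x ∈ H3, γ x = x → γ = 1
  /-- the action is properly discontinuous -/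
  proper : ∀ K : Set V4, IsCompact K → K ⊆ H3 → {γ : V4 ≃ₗ[ℝ] V4 | γ ∈ Γ ∧ ∃ x ∈ K, γ x ∈ K}.Finite
  /-- the quotient is compact -/
  cocompact : ∃ K : Set V4, IsCompact K ∧ K ⊆ H3 ∧ ∀ x ∈ H3, ∃ γ ∈ Γ, γ x ∈ K

/-- The first Betti number of `H3 / Γ` is at least one: `Γ` maps onto `ℤ`. -/
def BettiPos (Γ : Subgroup (V4 ≃ₗ[ℝ] V4)) : Prop :=
  ∃ f : Γ →* Multiplicative ℤ, Function.Surjective f

/-- The example is a closed orientable hyperbolic 3-manifold. -/
theorem closedHyp_Gam : ClosedHyp (Lam.Gam.map Lam.rho) where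
  form := by
    rintro _ ⟨w, -, rfl⟩ x y
    exact Oplus.lor (Lam.rho_mem w) x y
  sheet := by
    rintro _ ⟨w, -, rfl⟩ x hx
    exact Oplus.h3 (Lam.rho_mem w) hx
  orient := by
    rintro _ ⟨w, hw, rfl⟩
    exact Lam.det_Gam hw
  free := by
    rintro _ ⟨w, hw, rfl⟩ x hx h
    rw [Lam.Gam_free hw hx h, map_one]
  proper := by
    intro K hK hKH
    have h1 := (Lam.rho_proper hK hKH).image Lam.rho
    apply h1.subset
    rintro _ ⟨⟨w, hw, rfl⟩, x, hx, hwx⟩
    exact ⟨w, ⟨x, hx, hwx⟩, rfl⟩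
  cocompact := by
    obtain ⟨K, h1, h2, h3⟩ := Lam.Gam_cocompact
    refine ⟨K, h1, h2, fun x hx => ?_⟩
    obtain ⟨w, hw, hwx⟩ := h3 x hx
    exact ⟨Lam.rho w, ⟨w, hw, rfl⟩, hwx⟩

/-- The isomorphism of `Γ` with its image. -/
noncomputable def gamIso : Lam.Gam ≃* Lam.Gam.map Lam.rho :=
  Lam.Gam.equivMapOfInjective Lam.rho Lam.rho_injective

theorem gamIso_apply (w : Lam.Gam) : ((gamIso w : Lam.Gam.map Lam.rho) : V4 ≃ₗ[ℝ] V4) =
    Lam.rho w := rfl

/-- Its first Betti number is positive. -/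
theorem bettiPos_Gam : BettiPos (Lam.Gam.map Lam.rho) :=
  ⟨Lam.gamX.comp gamIso.symm.toMonoidHom, fun n => by
    obtain ⟨w, hw⟩ := Lam.gamX_surjective n
    refine ⟨gamIso w, ?_⟩
    change Lam.gamX (gamIso.symm (gamIso w)) = n
    rw [MulEquiv.symm_apply_apply, hw]⟩

end Pool.Agent.EC
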