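import Pool.Agent.EC.EmbSurf
import Pool.Agent.EC.Ext

/-!
# The Thurston norm and its dual norm for `M = H3 / Γ`

* `Surface Γ` : closed oriented surfaces embedded in `M = H3 / Γ` (disjoint unions of connected ones
  of genus `≥ 1`; sphere components bound balls, they change neither the homology class nor `χ_-`).
* `Surface.chi` : `χ_-`.
* `Surface.pair S X` : the value `⟨X, [S]⟩` of the class `X ∈ H²(M; ℤ)` on `[S] ∈ H_2(M; ℤ)`.
* `Surface.norm S` : the Thurston norm `x([S])`.
* `dualNorm a` : the dual Thurston norm of (the real class of) `a`.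
-/

set_option autoImplicit false

namespace Pool.Agent.EC

variable {Γ : Subgroup (V4 ≃ₗ[ℝ] V4)}

/-- A closed oriented surface without sphere components embedded in `M = H3 / Γ`: finitely many
connected surfaces embedded in `M` whose images are pairwise disjoint. -/
structure Surface (Γ : Subgroup (V4 ≃ₗ[ℝ] V4)) where
  /-- the number of the components -/
  n : ℕ
  /-- the genera of the components -/
  g : Fin n → ℕ
  /-- the components -/
  comp : ∀ i, EmbSurface Γ (g i)
  disjoint : ∀ i j, i ≠ j → ∀ p q, ∀ γ : Γ,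
    (comp i).f p 0 ≠ (γ : V4 ≃ₗ[ℝ] V4) ((comp j).f q 0)

namespace Surface

/-- `χ_-(S)`: the sum of `max(0, -χ) = 2 g - 2` over the components. -/
def chi (S : Surface Γ) : ℕ := ∑ i, (2 * S.g i - 2)

/-- The value of an integral class on (the fundamental class of) the surface. -/
noncomputable def pair (S : Surface Γ) (X : ZExt Γ) : ℤ := ∑ i, X.eval (S.comp i).φ

/-- The surfaces represent the same class of `H_2(M; ℤ)`: all the classes of `H²(M; ℤ)` have the same
values on them (`H_2(M; ℤ)` is free abelian and `H²(M; ℤ) → Hom(H_2(M; ℤ), ℤ)` is surjective). -/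
def Homologous (S S' : Surface Γ) : Prop := ∀ X : ZExt Γ, S.pair X = S'.pair X

/-- The Thurston norm of the class of `S`. -/
noncomputable def norm (S : Surface Γ) : ℕ :=
  sInf {k | ∃ S' : Surface Γ, Homologous S' S ∧ S'.chi = k}

theorem exists_norm (S : Surface Γ) : ∃ S' : Surface Γ, Homologous S' S ∧ S'.chi = S.norm :=
  Nat.sInf_mem (s := {k | ∃ S' : Surface Γ, Homologous S' S ∧ S'.chi = k})
    ⟨S.chi, S, fun _ => rfl, rfl⟩

theorem norm_le_chi (S : Surface Γ) : S.norm ≤ S.chi :=
  Nat.sInf_le ⟨S, fun _ => rfl, rfl⟩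

/-- A connected surface. -/
def single {g : ℕ} (S : EmbSurface Γ g) : Surface Γ where
  n := 1
  g := fun _ => g
  comp := fun _ => S
  disjoint := fun i j h => absurd (Subsingleton.elim i j) h

end Surface

/-- The dual Thurston norm `x^*(a) = sup {⟨a, σ⟩ : σ ∈ H_2(M; ℝ), x(σ) ≤ 1}` of the real class of
`a ∈ H²(M; ℤ)`, computed on the dense set of the rational classes `σ = [S] / n` with
`x(σ) = x([S]) / n ≤ 1`. -/
noncomputable def dualNorm (a : ZExt Γ) : EReal :=
  sSup {r : EReal | ∃ (S : Surface Γ) (n : ℕ), 0 < n ∧ S.norm ≤ n ∧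
    r = (((S.pair a : ℝ) / (n : ℝ) : ℝ) : EReal)}

theorem EmbSurface.genus_pos {g : ℕ} (S : EmbSurface Γ g) : 1 ≤ g := by
  by_contra hg
  have h0 : g = 0 := by omega
  subst h0
  have h1 : ∀ s : SurfGroup 0, s = 1 := by
    intro s
    induction s using PresentedGroup.induction_on with
    | _ w =>
      have : w = 1 := Subsingleton.elim _ _
      rw [this, map_one]
  obtain ⟨K, hK, hcov⟩ := S.cocompact
  have h2 : (Set.univ : Set (ℝ × ℝ)) ⊆ K := by
    intro p _
    obtain ⟨s, hs⟩ := hcov p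
    rw [h1 s, map_one] at hs
    exact hs
  have h3 : IsCompact (Set.univ : Set (ℝ × ℝ)) := by
    rw [Set.univ_subset_iff.mp h2] at hK; exact hK
  exact noncompact_univ (ℝ × ℝ) h3

theorem Surface.pair_le_chi {a : ZExt Γ}
    (hb : ∀ g : ℕ, 1 ≤ g → ∀ φ : SurfGroup g →* Γ, |a.eval φ| ≤ 2 * (g : ℤ) - 2)
    (S : Surface Γ) : S.pair a ≤ S.chi := by
  unfold Surface.pair Surface.chi
  push_cast
  apply Finset.sum_le_sum
  intro i _
  have h1 := (S.comp i).genus_pos
  have h2 := hb _ h1 (S.comp i).φ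
  have h3 := le_trans (le_abs_self _) h2
  have h4 : (((2 * S.g i - 2 : ℕ)) : ℤ) = 2 * (S.g i : ℤ) - 2 := by
    rw [Nat.cast_sub (by omega)]; push_cast; ring
  rw [h4]; exact h3

/-- The dual norm of a class with the Milnor-Wood bound which attains it on an embedded surface of
genus `2`. -/
theorem dualNorm_eq_one {a : ZExt Γ}
    (hb : ∀ g : ℕ, 1 ≤ g → ∀ φ : SurfGroup g →* Γ, |a.eval φ| ≤ 2 * (g : ℤ) - 2)
    (S : EmbSurface Γ 2) (hS : a.eval S.φ = 2) : dualNorm a = 1 := by
  apply le_antisymm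
  · apply sSup_le
    rintro r ⟨S, n, hn, hle, rfl⟩
    obtain ⟨S', h1, h2⟩ := S.exists_norm
    have h3 := S'.pair_le_chi hb
    rw [h1 a, h2] at h3
    have h4 : (S.pair a : ℝ) ≤ (n : ℝ) := by
      have h5 : (S.pair a : ℤ) ≤ (n : ℤ) := le_trans h3 (by exact_mod_cast hle)
      exact_mod_cast h5
    have h5 : (S.pair a : ℝ) / (n : ℝ) ≤ 1 := by
      rw [div_le_one (by exact_mod_cast hn)]; exact h4
    exact_mod_cast h5
  · apply le_sSup
    refine ⟨Surface.single S, 2, by norm_num, (Surface.norm_le_chi _).trans (by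
      change ∑ i : Fin 1, (2 * 2 - 2) ≤ 2
      decide), ?_⟩
    have h1 : (Surface.single S).pair a = 2 := by
      change ∑ i : Fin 1, a.eval S.φ = 2
      rw [Fin.sum_univ_one, hS]
    rw [h1]
    norm_num

end Pool.Agent.EC
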