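import Pool.Agent.EC.ClassXY
import Pool.Agent.EC.Norm
import Pool.Agent.EC.Hyp

set_option autoImplicit false

namespace Pool.Agent.EC

/-- a class on a closed orientable hyperbolic 3-manifold -/
theorem final : ∃ Γ : Subgroup (V4 ≃ₗ[ℝ] V4), ClosedHyp Γ ∧ BettiPos Γ ∧
    ∃ a : ZExt Γ, dualNorm a = 1 ∧
      ∀ ρ : Γ →* HomeoPlus, ¬ ZExt.RealEq (ZExt.circle.pullback ρ) a := by
  obtain ⟨a, hb, hx, hy⟩ := Cls.exists_class_XY
  let Γ := Lam.Gam.map Lam.rho
  let f : Γ ≃* Lam.Gam := gamIso.symm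
  have hfi : (show Subgroup Lam.L.W from Lam.Gam).FiniteIndex := Lam.Gam_finiteIndex
  refine ⟨Γ, closedHyp_Gam, bettiPos_Gam, a.pullback f.toMonoidHom, ?_,
    not_realEq_transport f a (XY.not_realEq_Gam a hx hy)⟩
  let Sx : EmbSurface Γ 2 := @Quad.embSurface 2 Lam.Gam hfi
    (fun γ hγ x hx h => Lam.Gam_free hγ hx h) Surf.theta Surf.theta_injective XY.theta_range
  apply dualNorm_eq_one (S := Sx)
  · intro g hg φ
    rw [ZExt.eval_pullback]
    exact hb g hg _
  · rw [ZExt.eval_pullback]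
    have : f.toMonoidHom.comp Sx.φ = XY.Sx := by
      apply MonoidHom.ext
      intro s
      apply Subtype.ext
      have h1 : ((XY.Sx s : Lam.Gam) : Lam.W) = j4 (Surf.theta s) :=
        DFunLike.congr_fun XY.Sx_theta s
      rw [h1]
      apply Lam.rho_injective
      change Lam.rho (gamIso.symm (Sx.φ s) : Lam.Gam) = _
      rw [← gamIso_apply, MulEquiv.apply_symm_apply]
      rfl
    rw [this, hx]

end Pool.Agent.EC
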