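import Pool.Agent.EC.Q8
import Pool.Agent.EC.SurfRange
import Pool.Agent.EC.SurfXY

/-! The range of `theta` is the part of `Gam8` lying in the quadrilateral group. -/

set_option autoImplicit false

namespace Pool.Agent.EC.Surf

open Lam

/-- The base points of the four sheets. -/
def emb48 : Fin 4 → Fin 8 := ![0, 1, 4, 3]

theorem sig8_yG : sig8 yG = qY := by rw [yG_eq, sig8_y]
theorem sig8_zG : sig8 zG = qZ := by rw [zG_eq, sig8_z]

theorem sig8_theta (g : SurfGroup 2) : sig8 (thetaG g) 0 = 0 := by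
  let K : Subgroup (SurfGroup 2) :=
    { carrier := {g | sig8 (thetaG g) 0 = 0}
      one_mem' := by simp
      mul_mem' := by
        intro a b ha hb
        simp only [Set.mem_ofPred_eq] at ha hb ⊢
        rw [map_mul, map_mul, Equiv.Perm.mul_apply, hb, ha]
      inv_mem' := by
        intro a ha
        simp only [Set.mem_ofPred_eq] at ha ⊢
        rw [map_inv, map_inv, Equiv.Perm.inv_eq_iff_eq, ha] }
  have hcl : Subgroup.closure (Set.range (PresentedGroup.of : _ → SurfGroup 2)) ≤ K := by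
    rw [Subgroup.closure_le]
    rintro _ ⟨⟨i, b⟩, rfl⟩
    fin_cases i <;> cases b
    · change sig8 (thetaG gA1) 0 = 0
      rw [thetaG_A1, map_wA1, sig8_yG, sig8_zG]; decide
    · change sig8 (thetaG gB1) 0 = 0
      rw [thetaG_B1, map_wB1, sig8_yG, sig8_zG]; decide
    · change sig8 (thetaG gA2) 0 = 0
      rw [thetaG_A2, map_wA2, sig8_yG, sig8_zG]; decide
    · change sig8 (thetaG gB2) 0 = 0
      rw [thetaG_B2, map_wB2, sig8_yG, sig8_zG]; decide
  have : g ∈ K := by
    apply hcl
    rw [PresentedGroup.closure_range_of]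
    trivial
  exact this

theorem sig8_tr (p : Fin 4) : sig8 (trG p) 0 = emb48 p := by
  fin_cases p
  · have : trG 0 = 1 := Subtype.ext (map_one j4)
    change sig8 (trG 0) 0 = 0
    rw [this, map_one]; rfl
  · have : trG 1 = yG := rfl
    change sig8 (trG 1) 0 = 1
    rw [this, sig8_yG]; decide
  · have : trG 2 = zG⁻¹ := Subtype.ext (map_inv j4 z4)
    change sig8 (trG 2) 0 = 4
    rw [this, map_inv, sig8_zG]; decide
  · have : trG 3 = zG * yG := Subtype.ext (map_mul j4 z4 y4)
    change sig8 (trG 3) 0 = 3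
    rw [this, map_mul, sig8_yG, sig8_zG]; decide

theorem emb48_eq_zero {p : Fin 4} (h : emb48 p = 0) : p = 0 := by
  revert h; revert p; decide

/-- The range of `theta` is exactly the part of `Gam8` in the quadrilateral group. -/
theorem range_theta_Gam8 (w : W4) : w ∈ theta.range ↔ j4 w ∈ Lam.Gam8 := by
  constructor
  · rintro ⟨g, rfl⟩
    exact (mem_Gam8_iff ⟨j4 (theta g), j4_theta_mem g⟩).mpr (sig8_theta g)
  · intro h
    have hw : j4 w ∈ Lam.G := Lam.Gam8_le_G h
    have h0 : sig8 ⟨j4 w, hw⟩ 0 = 0 := (mem_Gam8_iff ⟨j4 w, hw⟩).mp h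
    obtain ⟨⟨⟨h, p⟩, i, j⟩, e⟩ : ∃ t, actW w ((1, 0), false, false) = t := ⟨_, rfl⟩
    have hE : w = uu i j * (tr p * theta h) := by
      have := eq_EV w
      rw [e] at this
      exact this
    have h1 : Lam.par (j4 w) = Lam.par (j4 (uu i j)) := by
      rw [hE, map_mul, map_mul, map_mul, map_mul, par_tr, par_theta, mul_one, mul_one]
    have h2 := par_uu i j
    rw [← h1, show Lam.par (j4 w) = 1 from hw] at h2
    obtain ⟨rfl, rfl⟩ : i = false ∧ j = false := by
      simpa [Prod.ext_iff, eq_comm] using h2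
    have hE2 : w = tr p * theta h := by rw [hE]; simp [uu]
    have h3 : (⟨j4 w, hw⟩ : Lam.G) = trG p * thetaG h :=
      Subtype.ext (by
        change j4 w = j4 (tr p) * j4 (theta h)
        rw [hE2, map_mul])
    rw [h3, map_mul, Equiv.Perm.mul_apply, sig8_theta, sig8_tr] at h0
    refine ⟨h, ?_⟩
    rw [hE2, emb48_eq_zero h0]; simp [tr]

end Pool.Agent.EC.Surf
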