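import Pool.Agent.EC.Stmt
import Pool.Agent.EC.NotReal
import Pool.Agent.EC.EmbSurf
import Pool.Agent.EC.Hyp
import Pool.Agent.EC.Norm

/-!
# From the working definitions to the definitions of `Stmt.lean`
-/

set_option autoImplicit false

namespace Pool.Agent.EC.Stmt

open Pool.Agent.EC Lam

/-! ### Real Euler classes -/

theorem realEq_of_eulerEq {Γ : Type} [Group Γ] {ρ : Γ →* HomeoPlus} {a : ZExt Γ}
    (h : EulerEq ρ a) : ZExt.RealEq (ZExt.circle.pullback ρ) a := by
  obtain ⟨F, s, c, c', b, hF, hs, hc, hc', hb⟩ := h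
  have hF' : ∀ g, ρ g = ZExt.circle.π (F g) := fun g => ((cov_eq_iff (F g) (ρ g)).2 (hF g)).symm
  refine ⟨fun g => ZExt.circle.pb ρ g (F g) (hF' g), s, c, c', b, fun g => rfl, hs, ?_, hc', hb⟩
  intro g h
  apply ZExt.circle.pb_ext ρ
  · rw [map_mul, map_mul, ZExt.map_zpow_t, mul_one]
    rfl
  · rw [map_mul, map_mul, map_zpow, ZExt.snd_t]
    exact hc g h

/-! ### The dual norm -/

section

variable {Γ : Type} [Group Γ] {A : Γ → Matrix (Fin 4) (Fin 4) ℝ}

theorem exists_norm (S : Surface A) : ∃ S' : Surface A, Homologous S' S ∧ chi S' = norm S :=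
  Nat.sInf_mem (s := {k | ∃ S' : Surface A, Homologous S' S ∧ chi S' = k})
    ⟨chi S, S, fun _ => rfl, rfl⟩

theorem norm_le_chi (S : Surface A) : norm S ≤ chi S :=
  Nat.sInf_le ⟨S, fun _ => rfl, rfl⟩

/-- A connected surface. -/
def single {g : ℕ} (S : EmbSurf A g) : Surface A where
  n := 1
  g := fun _ => g
  comp := fun _ => S
  disjoint := fun i j h => absurd (Subsingleton.elim i j) h

theorem EmbSurf.genus_pos {g : ℕ} (S : EmbSurf A g) : 1 ≤ g := by
  by_contra hg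
  have h0 : g = 0 := by omega
  subst h0
  have h1 : ∀ s : SurfGroup 0, s = 1 := by
    intro s
    induction s using PresentedGroup.induction_on with
    | _ w =>
      have : w = 1 := Subsingleton.elim _ _
      rw [this, map_one]
  obtain ⟨K, hK, hcov⟩ := S.cocompact
  have h2 : (Set.univ : Set (ℝ × ℝ)) ⊆ K := by
    intro p _
    obtain ⟨s, hs⟩ := hcov p
    rw [h1 s, S.act_one] at hs
    exact hs
  have h3 : IsCompact (Set.univ : Set (ℝ × ℝ)) := by
    rw [Set.univ_subset_iff.mp h2] at hK; exact hK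
  exact noncompact_univ (ℝ × ℝ) h3

theorem pair_le_chi {a : ZExt Γ}
    (hb : ∀ g : ℕ, 1 ≤ g → ∀ φ : SurfGroup g →* Γ, |a.eval φ| ≤ 2 * (g : ℤ) - 2)
    (S : Surface A) : pair S a ≤ chi S := by
  unfold pair chi
  push_cast
  apply Finset.sum_le_sum
  intro i _
  have h1 := (S.comp i).genus_pos
  have h2 := hb _ h1 (S.comp i).φ
  have h3 := le_trans (le_abs_self _) h2
  have h4 : (((2 * S.g i - 2 : ℕ)) : ℤ) = 2 * (S.g i : ℤ) - 2 := by
    rw [Nat.cast_sub (by omega)]; push_cast; ring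
  rw [h4]; exact h3

/-- The dual norm of a class with the Milnor-Wood bound which attains it on an embedded surface of
genus `2`. -/
theorem dualNorm_eq_one {a : ZExt Γ}
    (hb : ∀ g : ℕ, 1 ≤ g → ∀ φ : SurfGroup g →* Γ, |a.eval φ| ≤ 2 * (g : ℤ) - 2)
    (S : EmbSurf A 2) (hS : a.eval S.φ = 2) : dualNorm A a = 1 := by
  apply le_antisymm
  · apply sSup_le
    rintro r ⟨S, n, hn, hle, rfl⟩
    obtain ⟨S', h1, h2⟩ := exists_norm S
    have h3 := pair_le_chi hb S'
    rw [h1 a, h2] at h3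
    have h4 : (pair S a : ℝ) ≤ (n : ℝ) := by
      have h5 : (pair S a : ℤ) ≤ (n : ℤ) := le_trans h3 (by exact_mod_cast hle)
      exact_mod_cast h5
    have h5 : (pair S a : ℝ) / (n : ℝ) ≤ 1 := by
      rw [div_le_one (by exact_mod_cast hn)]; exact h4
    exact_mod_cast h5
  · apply le_sSup
    refine ⟨single S, 2, by norm_num, (norm_le_chi _).trans (by
      change ∑ i : Fin 1, (2 * 2 - 2) ≤ 2
      decide), ?_⟩
    have h1 : pair (single S) a = 2 := by
      change ∑ i : Fin 1, a.eval S.φ = 2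
      rw [Fin.sum_univ_one, hS]
    rw [h1]
    norm_num

end

/-! ### The manifolds given by subgroups of the Coxeter group -/

/-- The matrices of the elements of a subgroup. -/
noncomputable def mat (Γ : Subgroup W) (γ : Γ) : Matrix (Fin 4) (Fin 4) ℝ :=
  LinearMap.toMatrix' ((rho γ.1 : V4 ≃ₗ[ℝ] V4) : V4 →ₗ[ℝ] V4)

theorem ap_mat (Γ : Subgroup W) (γ : Γ) (x : V4) : ap (mat Γ γ) x = rho γ.1 x :=
  LinearMap.toMatrix'_mulVec _ _

theorem hypMfd_of_closedHyp {Γ : Subgroup W} (h : EC.ClosedHyp (Γ.map rho)) :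
    HypMfd (mat Γ) where
  one := by
    unfold mat
    rw [Subgroup.coe_one, map_one]
    exact LinearMap.toMatrix'_one
  mul γ δ := by
    unfold mat
    rw [Subgroup.coe_mul, map_mul, ← LinearMap.toMatrix'_mul]
    rfl
  form γ x y := by
    rw [ap_mat, ap_mat]
    exact h.form _ ⟨γ.1, γ.2, rfl⟩ x y
  sheet γ x hx := by
    rw [ap_mat]
    exact h.sheet _ ⟨γ.1, γ.2, rfl⟩ x hx
  orient γ := by
    unfold mat
    rw [LinearMap.det_toMatrix']
    exact h.orient _ ⟨γ.1, γ.2, rfl⟩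
  free γ x hx e := by
    rw [ap_mat] at e
    have h1 := h.free _ ⟨γ.1, γ.2, rfl⟩ x hx e
    exact Subtype.ext (rho_injective (h1.trans (map_one rho).symm))
  proper K hK hKH := by
    have h1 := h.proper K hK hKH
    have h2 := h1.preimage (f := fun γ : Γ => rho γ.1)
      (fun a _ b _ e => Subtype.ext (rho_injective e))
    apply h2.subset
    rintro γ ⟨x, hx, hγ⟩
    rw [ap_mat] at hγ
    exact ⟨⟨γ.1, γ.2, rfl⟩, x, hx, hγ⟩
  cocompact := by
    obtain ⟨K, h1, h2, h3⟩ := h.cocompact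
    refine ⟨K, h1, h2, fun x hx => ?_⟩
    obtain ⟨_, ⟨γ, hγ, rfl⟩, hx'⟩ := h3 x hx
    exact ⟨⟨γ, hγ⟩, by rw [ap_mat]; exact hx'⟩

theorem bettiPos_of {Γ : Subgroup W} (h : EC.BettiPos (Γ.map rho)) : BettiPos Γ := by
  obtain ⟨f, hf⟩ := h
  refine ⟨f.comp (rho.subgroupMap Γ), fun n => ?_⟩
  obtain ⟨⟨_, ⟨γ, hγ, rfl⟩⟩, hn⟩ := hf n
  exact ⟨⟨γ, hγ⟩, hn⟩

/-- The embedded surface given by a subgroup of the quadrilateral group isomorphic to a surface
group. -/
noncomputable def embSurf {g : ℕ} (Γ : Subgroup W) (hfi : Γ.FiniteIndex)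
    (hfree : ∀ γ ∈ Γ, ∀ x ∈ H3, rho γ x = x → γ = 1)
    (θ : SurfGroup g →* W4) (hθ : Function.Injective θ) (hr : ∀ w, w ∈ θ.range ↔ j4 w ∈ Γ) :
    EmbSurf (mat Γ) g :=
  let S := @Quad.embSurface g Γ hfi hfree θ hθ hr
  { act := fun s p => S.act s p
    act_one := fun p => by rw [map_one]; rfl
    act_mul := fun s t p => by rw [map_mul]; rfl
    continuous_act := fun s => (S.act s).continuous
    free := S.free
    proper := S.proper
    cocompact := S.cocompact
    φ := (j4.comp θ).codRestrict Γ fun s => (hr _).mp ⟨s, rfl⟩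
    f := S.f
    f_mem := S.f_mem
    continuous_f := S.continuous_f
    equivariant := fun s p t => by
      rw [ap_mat]
      exact S.equivariant s p t
    injective := fun p q t t' γ h => by
      rw [ap_mat] at h
      exact S.injective p q t t' ⟨rho γ.1, γ.1, γ.2, rfl⟩ h }

theorem embSurf_φ {g : ℕ} (Γ : Subgroup W) (hfi : Γ.FiniteIndex)
    (hfree : ∀ γ ∈ Γ, ∀ x ∈ H3, rho γ x = x → γ = 1)
    (θ : SurfGroup g →* W4) (hθ : Function.Injective θ) (hr : ∀ w, w ∈ θ.range ↔ j4 w ∈ Γ)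
    (s : SurfGroup g) : ((embSurf Γ hfi hfree θ hθ hr).φ s : W) = j4 (θ s) := rfl

end Pool.Agent.EC.Stmt
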