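import Pool.Agent.EC.Class8
import Pool.Agent.EC.Q8Surf
import Pool.Agent.EC.StmtLem

/-!
# Assembly of the even example, with the rigidity theorem as a hypothesis
-/

set_option autoImplicit false

namespace Pool.Agent.EC.Final8

open Pool.Agent.EC Pool.Agent.EC.Stmt
open Pool.Agent.EC.Surf (wA1 wB1 wA2 wB2)
open Pool.Agent.EC.Cls (xG yG zG)
open Pool.Agent.EC.Sz8 (g0 g1 g2 g3 g4 g5)

/-- The embedded surface `S_x`. -/
noncomputable def Sx : EmbSurf (mat Lam.Gam8) 2 := embSurf Lam.Gam8 Lam.Gam8_finiteIndex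
  (fun _ hγ _ hx h => Lam.Gam8_free hγ hx h) Surf.theta Surf.theta_injective Surf.range_theta_Gam8

theorem Sx_val (s : SurfGroup 2) : (Sx.φ s : Lam.W) = (Surf.thetaG s : Lam.G) := rfl

/-- `φ` is the surface with the generators `A₁, B₁, A₂, B₂`, conjugated by `r`. -/
structure IsSx (r : Lam.G) (φ : SurfGroup 2 →* Lam.Gam8) : Prop where
  h0 : (φ (PresentedGroup.of (0, false)) : Lam.W) = ((r⁻¹ * wA1 yG zG * r : Lam.G) : Lam.W)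
  h1 : (φ (PresentedGroup.of (0, true)) : Lam.W) = ((r⁻¹ * wB1 yG zG * r : Lam.G) : Lam.W)
  h2 : (φ (PresentedGroup.of (1, false)) : Lam.W) = ((r⁻¹ * wA2 yG zG * r : Lam.G) : Lam.W)
  h3 : (φ (PresentedGroup.of (1, true)) : Lam.W) = ((r⁻¹ * wB2 yG zG * r : Lam.G) : Lam.W)

/-- `φ` is the surface of genus three with the generators `g0, …, g5`, conjugated by `r`. -/
structure IsSz (r : Lam.G) (φ : SurfGroup 3 →* Lam.Gam8) : Prop where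
  h0 : (φ (PresentedGroup.of (0, false)) : Lam.W) = ((r⁻¹ * g0 xG yG * r : Lam.G) : Lam.W)
  h1 : (φ (PresentedGroup.of (0, true)) : Lam.W) = ((r⁻¹ * g1 xG yG * r : Lam.G) : Lam.W)
  h2 : (φ (PresentedGroup.of (1, false)) : Lam.W) = ((r⁻¹ * g2 xG yG * r : Lam.G) : Lam.W)
  h3 : (φ (PresentedGroup.of (1, true)) : Lam.W) = ((r⁻¹ * g3 xG yG * r : Lam.G) : Lam.W)
  h4 : (φ (PresentedGroup.of (2, false)) : Lam.W) = ((r⁻¹ * g4 xG yG * r : Lam.G) : Lam.W)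
  h5 : (φ (PresentedGroup.of (2, true)) : Lam.W) = ((r⁻¹ * g5 xG yG * r : Lam.G) : Lam.W)

theorem yG_eq' : Surf.yG = yG := Surf.yG_eq
theorem zG_eq' : Surf.zG = zG := Surf.zG_eq

theorem isSx_Sx : IsSx 1 Sx.φ where
  h0 := by
    rw [Sx_val, inv_one, one_mul, mul_one]
    exact congrArg Subtype.val (Surf.thetaG_A1.trans (by rw [yG_eq', zG_eq']))
  h1 := by
    rw [Sx_val, inv_one, one_mul, mul_one]
    exact congrArg Subtype.val (Surf.thetaG_B1.trans (by rw [yG_eq', zG_eq']))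
  h2 := by
    rw [Sx_val, inv_one, one_mul, mul_one]
    exact congrArg Subtype.val (Surf.thetaG_A2.trans (by rw [yG_eq', zG_eq']))
  h3 := by
    rw [Sx_val, inv_one, one_mul, mul_one]
    exact congrArg Subtype.val (Surf.thetaG_B2.trans (by rw [yG_eq', zG_eq']))

/-- **Assembly.** -/
theorem final8' {r r' : Lam.G} {Sx2 : SurfGroup 2 →* Lam.Gam8} {Sz : SurfGroup 3 →* Lam.Gam8}
    (hx2 : IsSx r Sx2) (hz : IsSz r' Sz)
    (key : ∀ ρ : Lam.Gam8 →* HomeoPlus, ZExt.circle.eval (ρ.comp Sx.φ) = 2 →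
      ZExt.circle.eval (ρ.comp Sx2) = 2 → ∃ n : ℤ, ZExt.circle.eval (ρ.comp Sz) = 4 * n) :
    ∃ (Γ : Type) (_ : Group Γ) (A : Γ → Matrix (Fin 4) (Fin 4) ℝ),
    HypMfd A ∧ Stmt.BettiPos Γ ∧ ∃ a : ZExt Γ, Stmt.dualNorm A a = 1 ∧
      (∃ b : ZExt Γ, ∀ (g : ℕ) (φ : SurfGroup g →* Γ), a.eval φ = 2 * b.eval φ) ∧
      (∀ ρ : Γ →* HomeoPlus, ¬ EulerEq ρ a) ∧
      ∀ g : ℕ, 1 ≤ g → ∀ φ : SurfGroup g →* Γ, |a.eval φ| ≤ 2 * (g : ℤ) - 2 := by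
  obtain ⟨b, hb, hbx, hbz⟩ := Cls8.exists_class8
  have h1 := isSx_Sx
  have e1 : b.eval Sx.φ = 1 := hbx 1 _ h1.h0 h1.h1 h1.h2 h1.h3
  have e2 : b.eval Sx2 = 1 := hbx r _ hx2.h0 hx2.h1 hx2.h2 hx2.h3
  have e3 : b.eval Sz = 1 := hbz r' _ hz.h0 hz.h1 hz.h2 hz.h3 hz.h4 hz.h5
  have hb2 : ∀ g : ℕ, 1 ≤ g → ∀ φ : SurfGroup g →* Lam.Gam8,
      |b.twice.eval φ| ≤ 2 * (g : ℤ) - 2 := by
    intro g hg φ
    rw [ZExt.eval_twice, abs_mul, abs_two]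
    have := hb g hg φ
    linarith
  refine ⟨Lam.Gam8, inferInstance, mat Lam.Gam8, hypMfd_of_closedHyp closedHyp_Gam8,
    bettiPos_of bettiPos_Gam8, b.twice, ?_, ⟨b, fun g φ => b.eval_twice φ⟩, fun ρ h => ?_, hb2⟩
  · apply Stmt.dualNorm_eq_one hb2 Sx
    rw [ZExt.eval_twice, e1]
    rfl
  · have hr := realEq_of_eulerEq h
    have f1 := hr.eval_eq Sx.φ
    have f2 := hr.eval_eq Sx2
    have f3 := hr.eval_eq Sz
    rw [ZExt.eval_pullback, ZExt.eval_twice] at f1 f2 f3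
    rw [e1] at f1
    rw [e2] at f2
    rw [e3] at f3
    obtain ⟨n, hn⟩ := key ρ (by rw [f1]; rfl) (by rw [f2]; rfl)
    rw [hn] at f3
    omega

/-- The same with the parity of the values only. -/
theorem final8 {r r' : Lam.G} {Sx2 : SurfGroup 2 →* Lam.Gam8} {Sz : SurfGroup 3 →* Lam.Gam8}
    (hx2 : IsSx r Sx2) (hz : IsSz r' Sz)
    (key : ∀ ρ : Lam.Gam8 →* HomeoPlus, ZExt.circle.eval (ρ.comp Sx.φ) = 2 →
      ZExt.circle.eval (ρ.comp Sx2) = 2 → ∃ n : ℤ, ZExt.circle.eval (ρ.comp Sz) = 4 * n) :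
    ∃ (Γ : Type) (_ : Group Γ) (A : Γ → Matrix (Fin 4) (Fin 4) ℝ),
    HypMfd A ∧ Stmt.BettiPos Γ ∧ ∃ a : ZExt Γ, Stmt.dualNorm A a = 1 ∧
      (∀ g : ℕ, ∀ φ : SurfGroup g →* Γ, Even (a.eval φ)) ∧
      (∀ ρ : Γ →* HomeoPlus, ¬ EulerEq ρ a) ∧
      ∀ g : ℕ, 1 ≤ g → ∀ φ : SurfGroup g →* Γ, |a.eval φ| ≤ 2 * (g : ℤ) - 2 := by
  obtain ⟨Γ, h1, A, h2, h3, a, h4, ⟨b, h5⟩, h6, h7⟩ := final8' hx2 hz key
  exact ⟨Γ, h1, A, h2, h3, a, h4, fun g φ => by rw [h5]; exact even_two_mul _, h6, h7⟩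

end Pool.Agent.EC.Final8
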