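import Pool.Agent.EC.Hyp

/-!
# Finite index subgroups of `G` which avoid the torsion of `G`

Every finite index subgroup `Γ ≤ G` of the orbifold group which contains no conjugate of the three
involutions `u_X, u_Y, u_Z` is the fundamental group of a closed orientable hyperbolic 3-manifold.
-/

set_option autoImplicit false

namespace Pool.Agent.EC

namespace Lam

/-- The three involutions. -/
noncomputable def uX : W := y * z⁻¹ * y⁻¹ * z
noncomputable def uY : W := z * x⁻¹ * z⁻¹ * x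
noncomputable def uZ : W := x * y⁻¹ * x⁻¹ * y

theorem uX_def : uX = s 4 * s 2 * (s 4 * s 2) := uX_eq
theorem uY_def : uY = s 5 * s 0 * (s 5 * s 0) := uY_eq
theorem uZ_def : uZ = s 3 * s 1 * (s 3 * s 1) := uZ_eq

theorem uX_sq : uX * uX = 1 := rel_W.hX
theorem uY_sq : uY * uY = 1 := rel_W.hY
theorem uZ_sq : uZ * uZ = 1 := rel_W.hZ

/-- The subgroup avoids the torsion of `G`. -/
def Avoid (Γ : Subgroup W) : Prop :=
  ∀ g ∈ G, g⁻¹ * uX * g ∉ Γ ∧ g⁻¹ * uY * g ∉ Γ ∧ g⁻¹ * uZ * g ∉ Γ

/-- Every element of `W` is `s^r k` with `k ∈ G`. -/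
theorem exists_sec (w : W) : ∃ (r : Tr) (k : W), k ∈ G ∧ w = sec r * k := by
  have h1 := sec_mono w ((false, false, false), 1)
  have h3 : sec (false, false, false) = 1 := by simp [sec, cl]
  simp only [h3, mul_one] at h1
  refine ⟨_, _, ?_, h1⟩
  -- the second component is in `G`
  have hsec : ∀ r : Tr, par (sec r) (false, false, false) = r := by
    rintro ⟨a, b, c⟩
    have e : ∀ i (b : Bool) (t : Tr), par (cl (s i) b) t = if b then flip i t else t := by
      intro i b t
      cases b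
      · simp [cl]
      · simp only [cl, if_true]
        rw [par_simple, flipP_apply]
    simp only [sec, map_mul, Equiv.Perm.mul_apply, e]
    cases a <;> cases b <;> cases c <;> rfl
  have h4 : (mono rel_W w ((false, false, false), 1)).1 = par w (false, false, false) := by
    rw [mono_fst]
  rw [mem_G]
  ext t : 1
  rw [par_translation]
  set k := (mono rel_W w ((false, false, false), 1)).2
  have h5 : par w (false, false, false) = par (sec (par w (false, false, false)))
      (par k (false, false, false)) := by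
    conv_lhs => rw [h1, h4, map_mul, Equiv.Perm.mul_apply]
  rw [par_translation (sec _), hsec] at h5
  generalize par w (false, false, false) = r at h5
  generalize par k (false, false, false) = q at h5 ⊢
  obtain ⟨a, b, c⟩ := r
  obtain ⟨a', b', c'⟩ := q
  obtain ⟨a'', b'', c''⟩ := t
  simp only [Prod.mk.injEq] at h5
  obtain ⟨e1, e2, e3⟩ := h5
  have f1 : a' = false := by revert e1; cases a <;> cases a' <;> simp
  have f2 : b' = false := by revert e2; cases b <;> cases b' <;> simp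
  have f3 : c' = false := by revert e3; cases c <;> cases c' <;> simp
  subst f1 f2 f3
  simp

/-- Conjugates of `u` by the complement are `G`-conjugates of `u` (abstract form). -/
theorem conj_letter {K : Type*} [Group K] {s0 s1 s2 b t : K} (h1 : s1 * s1 = 1)
    (hb : b * b = 1) (hb2 : b * s2 = s2 * b) (h12 : s1 * s2 = s2 * s1)
    (h4 : (b * s1 * (b * s1)) * (b * s1 * (b * s1)) = 1) (a b' c : Bool)
    (ht : t = cl s0 a * (cl s1 b' * cl s2 c)) (h01 : s0 * s1 = s1 * s0) (h02 : s0 * s2 = s2 * s0) :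
    t⁻¹ * (b * s1 * (b * s1)) * t = (cl (b * s0) a)⁻¹ * (b * s1 * (b * s1)) * cl (b * s0) a := by
  have ib : b⁻¹ = b := (eq_inv_of_mul_eq_one_left hb).symm
  have i1 : s1⁻¹ = s1 := (eq_inv_of_mul_eq_one_left h1).symm
  have hp : b * s1 * (b * s1) = s1 * b * (s1 * b) := by
    have e := eq_inv_of_mul_eq_one_left h4
    simp only [mul_inv_rev, ib, i1] at e
    exact e
  set p := b * s1 * (b * s1) with hpdef
  have c1 : Commute s1 p := by
    change s1 * p = p * s1
    conv_rhs => rw [hp]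
    rw [hpdef]; simp only [mul_assoc]
  have cb : Commute b p := by
    change b * p = p * b
    conv_rhs => rw [hp]
    rw [hpdef]; simp only [mul_assoc, hb, mul_one]
    rw [sq_assoc hb]
  have cb2 : Commute b s2 := hb2
  have c12 : Commute s1 s2 := h12
  have c2 : Commute s2 p := ((cb2.symm.mul_right c12.symm).mul_right
    (cb2.symm.mul_right c12.symm))
  have ct : Commute (cl s1 b' * cl s2 c) p := by
    apply Commute.mul_left
    · cases b'
      · exact Commute.one_left _
      · exact c1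
    · cases c
      · exact Commute.one_left _
      · exact c2
  have ct0 : Commute (cl s1 b' * cl s2 c) s0 := by
    apply Commute.mul_left
    · cases b'
      · exact Commute.one_left _
      · exact h01.symm
    · cases c
      · exact Commute.one_left _
      · exact h02.symm
  subst ht
  set t' := cl s1 b' * cl s2 c
  cases a
  · change (1 * t')⁻¹ * p * (1 * t') = (1 : K)⁻¹ * p * 1
    rw [one_mul, inv_one, one_mul, mul_one, mul_assoc, ← ct.eq, inv_mul_cancel_left]
  · change (s0 * t')⁻¹ * p * (s0 * t') = (b * s0)⁻¹ * p * (b * s0)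
    have e1 : (b * s0)⁻¹ * p * (b * s0) = s0⁻¹ * p * s0 := by
      calc (b * s0)⁻¹ * p * (b * s0) = s0⁻¹ * (b⁻¹ * (p * b)) * s0 := by group
        _ = s0⁻¹ * p * s0 := by rw [← cb.eq, inv_mul_cancel_left]
    have e2 : Commute t' (s0⁻¹ * p * s0) := ((ct0.inv_right.mul_right ct).mul_right ct0)
    rw [e1]
    calc (s0 * t')⁻¹ * p * (s0 * t') = t'⁻¹ * ((s0⁻¹ * p * s0) * t') := by group
      _ = s0⁻¹ * p * s0 := by rw [← e2.eq, inv_mul_cancel_left]

theorem conj_uZ (r : Tr) : ∃ g ∈ G, (sec r)⁻¹ * uZ * sec r = g⁻¹ * uZ * g := by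
  obtain ⟨a, b, c⟩ := r
  refine ⟨cl x a, ?_, ?_⟩
  · cases a
    · exact G.one_mem
    · exact x_mem
  · rw [uZ_def]
    exact conj_letter (s0 := s 0) (s1 := s 1) (s2 := s 2) (b := s 3) (s_sq 1) (s_sq 3)
      (s_comm 3 2 rfl) (s_comm 1 2 rfl) (s_four 3 1 rfl) a b c rfl (s_comm 0 1 rfl)
      (s_comm 0 2 rfl)

theorem conj_uX (r : Tr) : ∃ g ∈ G, (sec r)⁻¹ * uX * sec r = g⁻¹ * uX * g := by
  obtain ⟨a, b, c⟩ := r
  refine ⟨cl y b, ?_, ?_⟩
  · cases b
    · exact G.one_mem
    · exact y_mem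
  · rw [uX_def]
    refine conj_letter (s0 := s 1) (s1 := s 2) (s2 := s 0) (b := s 4) (s_sq 2) (s_sq 4)
      (s_comm 4 0 rfl) (s_comm 2 0 rfl) (s_four 4 2 rfl) b c a ?_ (s_comm 1 2 rfl)
      (s_comm 1 0 rfl)
    change cl (s 0) a * (cl (s 1) b * cl (s 2) c) = _
    have e := cl_comm (s_comm 0 1 rfl) a b (cl (s 2) c)
    have e' := cl_comm (s_comm 0 2 rfl) a c 1
    rw [mul_one, mul_one] at e'
    rw [e, e']

theorem conj_uY (r : Tr) : ∃ g ∈ G, (sec r)⁻¹ * uY * sec r = g⁻¹ * uY * g := by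
  obtain ⟨a, b, c⟩ := r
  refine ⟨cl z c, ?_, ?_⟩
  · cases c
    · exact G.one_mem
    · exact z_mem
  · rw [uY_def]
    refine conj_letter (s0 := s 2) (s1 := s 0) (s2 := s 1) (b := s 5) (s_sq 0) (s_sq 5)
      (s_comm 5 1 rfl) (s_comm 0 1 rfl) (s_four 5 0 rfl) c a b ?_ (s_comm 2 0 rfl)
      (s_comm 2 1 rfl)
    change cl (s 0) a * (cl (s 1) b * cl (s 2) c) = _
    have e := cl_comm (s_comm 1 2 rfl) b c 1
    rw [mul_one, mul_one] at e
    rw [e, cl_comm (s_comm 0 2 rfl)]

/-- No conjugate of the involutions by an element of `W` lies in `Γ`. -/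
theorem Avoid.conj {Γ : Subgroup W} (h : Avoid Γ) (w : W) :
    w⁻¹ * uX * w ∉ Γ ∧ w⁻¹ * uY * w ∉ Γ ∧ w⁻¹ * uZ * w ∉ Γ := by
  obtain ⟨r, k, hk, rfl⟩ := exists_sec w
  have key : ∀ u : W, (∃ g ∈ G, (sec r)⁻¹ * u * sec r = g⁻¹ * u * g) →
      (∀ g ∈ G, g⁻¹ * u * g ∉ Γ) → (sec r * k)⁻¹ * u * (sec r * k) ∉ Γ := by
    rintro u ⟨g, hg, e⟩ hu
    have e1 : (sec r * k)⁻¹ * u * (sec r * k) = (g * k)⁻¹ * u * (g * k) := by
      calc (sec r * k)⁻¹ * u * (sec r * k) = k⁻¹ * ((sec r)⁻¹ * u * sec r) * k := by group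
        _ = k⁻¹ * (g⁻¹ * u * g) * k := by rw [e]
        _ = (g * k)⁻¹ * u * (g * k) := by group
    rw [e1]
    exact hu _ (G.mul_mem hg hk)
  exact ⟨key uX (conj_uX r) fun g hg => (h g hg).1, key uY (conj_uY r) fun g hg => (h g hg).2.1,
    key uZ (conj_uZ r) fun g hg => (h g hg).2.2⟩

/-- The part of a vertex group in `G`: angle `π/4`. -/
theorem vertex8 (i j k : Fin 6) (hij : M i j = 4) (hik : M i k = 2) (hjk : M j k = 2)
    (hpar : ∀ (n : Fin 8) (ε : Bool),
      (run8 i j n (runc k ε ((false, false, false), 0))).1 = (false, false, false) →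
      (n = 0 ∨ n = 7) ∧ ε = false) {w : W} (hw : w ∈ Subgroup.closure {s i, s j, s k})
    (hG : w ∈ G) : w = 1 ∨ w = s i * s j * s i * s j := by
  have h4 : (s i * s j) ^ 4 = 1 := by rw [← hij]; exact S.simple_mul_simple_pow i j
  obtain ⟨n, ε, rfl⟩ := closure_dih8 (s_sq i) (s_sq j) (s_sq k) (s_comm i k hik)
    (s_comm j k hjk) h4 hw
  have h1 := perm32_fst (dih8 (s i) (s j) n * cl (s k) ε) ((false, false, false), 0)
  rw [mem_G.mp hG, perm32_dih8] at h1
  obtain ⟨h2, rfl⟩ := hpar n ε h1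
  rcases h2 with rfl | rfl
  · left; simp [dih8, cl]
  · right; simp [dih8, cl]

theorem vertex4 (i j k : Fin 6) (hij : M i j = 2) (hik : M i k = 2) (hjk : M j k = 2)
    (hpar : ∀ (n : Fin 4) (ε : Bool),
      (run4 i j n (runc k ε ((false, false, false), 0))).1 = (false, false, false) →
      n = 0 ∧ ε = false) {w : W} (hw : w ∈ Subgroup.closure {s i, s j, s k})
    (hG : w ∈ G) : w = 1 := by
  obtain ⟨n, ε, rfl⟩ := closure_dih4 (s_sq i) (s_sq j) (s_sq k) (s_comm i k hik)
    (s_comm j k hjk) (s_comm i j hij) hw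
  have h1 := perm32_fst (dih4 (s i) (s j) n * cl (s k) ε) ((false, false, false), 0)
  rw [mem_G.mp hG, perm32_dih4] at h1
  obtain ⟨rfl, rfl⟩ := hpar n ε h1
  simp [dih4, cl]

/-- The stabilisers of the points of the polyhedron in `G` are generated by an involution. -/
theorem stab_G {q : V4} (hq : q ∈ L.P) {w : W}
    (hw : w ∈ Subgroup.closure (S.simple '' {i | lor q (L.e i) = 0})) (hG : w ∈ G) :
    w = 1 ∨ w = uX ∨ w = uY ∨ w = uZ := by
  have opp : ∀ i j, M i j = 0 → lor q (L.e i) = 0 → lor q (L.e j) ≠ 0 := by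
    intro i j hm hi hj
    exact L.face_meet hq hi hj hm
  have mono' : ∀ A : Set W, (∀ i, lor q (L.e i) = 0 → s i ∈ A) → w ∈ Subgroup.closure A := by
    intro A hA
    refine Subgroup.closure_mono ?_ hw
    rintro _ ⟨i, hi, rfl⟩
    exact hA i hi
  have o03 := opp 0 3 rfl
  have o14 := opp 1 4 rfl
  have o25 := opp 2 5 rfl
  have eX : s 4 * s 2 * s 4 * s 2 = uX := by rw [uX_def]; simp only [mul_assoc]
  have eY : s 5 * s 0 * s 5 * s 0 = uY := by rw [uY_def]; simp only [mul_assoc]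
  have eZ : s 3 * s 1 * s 3 * s 1 = uZ := by rw [uZ_def]; simp only [mul_assoc]
  by_cases h3 : lor q (L.e 3) = 0 <;> by_cases h4 : lor q (L.e 4) = 0 <;>
    by_cases h5 : lor q (L.e 5) = 0
  · have hm : w ∈ Subgroup.closure {s 3, s 4, s 5} := by
      refine mono' _ ?_
      intro i hi
      fin_cases i
      · exact absurd h3 (o03 hi)
      · exact absurd h4 (o14 hi)
      · exact absurd h5 (o25 hi)
      · simp
      · simp
      · simp
    exact Or.inl (vertex4 3 4 5 rfl rfl rfl (by decide) hm hG)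
  · have hm : w ∈ Subgroup.closure {s 4, s 2, s 3} := by
      refine mono' _ ?_
      intro i hi
      fin_cases i
      · exact absurd h3 (o03 hi)
      · exact absurd h4 (o14 hi)
      · simp
      · simp
      · simp
      · exact absurd hi h5
    rcases vertex8 4 2 3 rfl rfl rfl (by decide) hm hG with h | h
    · exact Or.inl h
    · exact Or.inr (Or.inl (h.trans eX))
  · have hm : w ∈ Subgroup.closure {s 3, s 1, s 5} := by
      refine mono' _ ?_
      intro i hi
      fin_cases i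
      · exact absurd h3 (o03 hi)
      · simp
      · exact absurd h5 (o25 hi)
      · simp
      · exact absurd hi h4
      · simp
    rcases vertex8 3 1 5 rfl rfl rfl (by decide) hm hG with h | h
    · exact Or.inl h
    · exact Or.inr (Or.inr (Or.inr (h.trans eZ)))
  · have hm : w ∈ Subgroup.closure {s 3, s 1, s 2} := by
      refine mono' _ ?_
      intro i hi
      fin_cases i
      · exact absurd h3 (o03 hi)
      · simp
      · simp
      · simp
      · exact absurd hi h4
      · exact absurd hi h5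
    rcases vertex8 3 1 2 rfl rfl rfl (by decide) hm hG with h | h
    · exact Or.inl h
    · exact Or.inr (Or.inr (Or.inr (h.trans eZ)))
  · have hm : w ∈ Subgroup.closure {s 5, s 0, s 4} := by
      refine mono' _ ?_
      intro i hi
      fin_cases i
      · simp
      · exact absurd h4 (o14 hi)
      · exact absurd h5 (o25 hi)
      · exact absurd hi h3
      · simp
      · simp
    rcases vertex8 5 0 4 rfl rfl rfl (by decide) hm hG with h | h
    · exact Or.inl h
    · exact Or.inr (Or.inr (Or.inl (h.trans eY)))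
  · have hm : w ∈ Subgroup.closure {s 4, s 2, s 0} := by
      refine mono' _ ?_
      intro i hi
      fin_cases i
      · simp
      · exact absurd h4 (o14 hi)
      · simp
      · exact absurd hi h3
      · simp
      · exact absurd hi h5
    rcases vertex8 4 2 0 rfl rfl rfl (by decide) hm hG with h | h
    · exact Or.inl h
    · exact Or.inr (Or.inl (h.trans eX))
  · have hm : w ∈ Subgroup.closure {s 5, s 0, s 1} := by
      refine mono' _ ?_
      intro i hi
      fin_cases i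
      · simp
      · simp
      · exact absurd h5 (o25 hi)
      · exact absurd hi h3
      · exact absurd hi h4
      · simp
    rcases vertex8 5 0 1 rfl rfl rfl (by decide) hm hG with h | h
    · exact Or.inl h
    · exact Or.inr (Or.inr (Or.inl (h.trans eY)))
  · have hm : w ∈ Subgroup.closure {s 0, s 1, s 2} := by
      refine mono' _ ?_
      intro i hi
      fin_cases i
      · simp
      · simp
      · simp
      · exact absurd hi h3
      · exact absurd hi h4
      · exact absurd hi h5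
    exact Or.inl (vertex4 0 1 2 rfl rfl rfl (by decide) hm hG)

/-- A subgroup of `G` which avoids the torsion acts freely on hyperbolic space. -/
theorem free_of_avoid {Γ : Subgroup W} (hG : Γ ≤ G) (hA : Avoid Γ) {w : W} (hw : w ∈ Γ) {p : V4}
    (hp : p ∈ H3) (hfix : rho w p = p) : w = 1 := by
  obtain ⟨u, hu⟩ := rho_cover hp
  have h1 : rho (u * w * u⁻¹) (rho u p) = rho u p := by
    rw [← LinearEquiv.mul_apply, ← map_mul]
    have : u * w * u⁻¹ * u = u * w := by group
    rw [this, map_mul, LinearEquiv.mul_apply, hfix]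
  obtain ⟨-, h3⟩ := rho_stab hu (w := u * w * u⁻¹) (by rw [h1]; exact hu)
  have h4 : u * w * u⁻¹ ∈ G := by
    have hn : G.Normal := MonoidHom.normal_ker par
    exact hn.conj_mem w (hG hw) u
  obtain ⟨aX, aY, aZ⟩ := hA.conj u
  have e : ∀ v : W, u * w * u⁻¹ = v → u⁻¹ * v * u ∈ Γ := by
    intro v hv
    have : u⁻¹ * v * u = w := by rw [← hv]; group
    rw [this]; exact hw
  rcases stab_G hu h3 h4 with h | h | h | h
  · calc w = u⁻¹ * (u * w * u⁻¹) * u := by group
      _ = 1 := by rw [h]; group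
  · exact absurd (e _ h) aX
  · exact absurd (e _ h) aY
  · exact absurd (e _ h) aZ

/-- Finite index subgroups of `W` act cocompactly. -/
theorem cocompact_of_finiteIndex (Γ : Subgroup W) [Γ.FiniteIndex] :
    ∃ K : Set V4, IsCompact K ∧ K ⊆ H3 ∧ ∀ x ∈ H3, ∃ w ∈ Γ, rho w x ∈ K := by
  have hfin : Finite (W ⧸ Γ) := Subgroup.finite_quotient_of_finiteIndex
  refine ⟨⋃ c : W ⧸ Γ, rho c.out⁻¹ '' L.P, ?_, ?_, ?_⟩
  · exact isCompact_iUnion fun c => isCompact_P.image
      (LinearMap.continuous_of_finiteDimensional (rho c.out⁻¹).toLinearMap)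
  · intro x hx
    rw [Set.mem_iUnion] at hx
    obtain ⟨c, p, hp, rfl⟩ := hx
    exact Oplus.h3 (rho_mem _) hp.1
  · intro x hx
    obtain ⟨u, hu⟩ := rho_cover hx
    obtain ⟨h, hh⟩ := QuotientGroup.mk_out_eq_mul Γ u
    -- `c.out = u * h`
    refine ⟨(QuotientGroup.mk u : W ⧸ Γ).out⁻¹ * u, ?_, ?_⟩
    · rw [hh]
      have : (u * (h : W))⁻¹ * u = (h : W)⁻¹ := by group
      rw [this]
      exact Γ.inv_mem h.2
    · rw [Set.mem_iUnion]
      exact ⟨QuotientGroup.mk u, rho u x, hu, by rw [map_mul]; rfl⟩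

/-- **Closed hyperbolic manifolds from subgroups of `G`.** -/
theorem closedHyp_of_avoid {Γ : Subgroup W} [Γ.FiniteIndex] (hG : Γ ≤ G) (hA : Avoid Γ) :
    ClosedHyp (Γ.map rho) where
  form := by
    rintro _ ⟨w, -, rfl⟩ x y
    exact Oplus.lor (rho_mem w) x y
  sheet := by
    rintro _ ⟨w, -, rfl⟩ x hx
    exact Oplus.h3 (rho_mem w) hx
  orient := by
    rintro _ ⟨w, hw, rfl⟩
    have h1 := mem_G.mp (hG hw)
    change LinearMap.det (rho w).toLinearMap = 1
    rw [det_rho, h1]; simp [sgn]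
  free := by
    rintro _ ⟨w, hw, rfl⟩ x hx h
    rw [free_of_avoid hG hA hw hx h, map_one]
  proper := by
    intro K hK hKH
    have h1 := (rho_proper hK hKH).image rho
    apply h1.subset
    rintro _ ⟨⟨w, hw, rfl⟩, x, hx, hwx⟩
    exact ⟨w, ⟨x, hx, hwx⟩, rfl⟩
  cocompact := by
    obtain ⟨K, h1, h2, h3⟩ := cocompact_of_finiteIndex Γ
    refine ⟨K, h1, h2, fun x hx => ?_⟩
    obtain ⟨w, hw, hwx⟩ := h3 x hx
    exact ⟨rho w, ⟨w, hw, rfl⟩, hwx⟩

/-! ### Stabilisers of points of finite `G`-sets -/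

theorem G_finiteIndex : G.FiniteIndex := by
  have h1 : Finite (W ⧸ par.ker) := Finite.of_injective _ (QuotientGroup.kerLift_injective par)
  exact Subgroup.finiteIndex_of_finite_quotient (H := par.ker)

section Stab

variable {F : Type} {X Y Z : Equiv.Perm F}

/-- The stabiliser in `W` of a point of the `G`-set given by three permutations. -/
noncomputable def stabF (h : GRel X Y Z) (o : F) : Subgroup W :=
  ((MulAction.stabilizer (Equiv.Perm F) o).comap (gLift h)).map G.subtype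

theorem mem_stabF {h : GRel X Y Z} {o : F} (w : G) : w.1 ∈ stabF h o ↔ gLift h w o = o := by
  unfold stabF
  constructor
  · rintro ⟨w', hw', e⟩
    have e' : w' = w := Subtype.ext e
    subst e'
    exact hw'
  · intro hw
    exact ⟨w, hw, rfl⟩

theorem stabF_le (h : GRel X Y Z) (o : F) : stabF h o ≤ G := by
  rintro _ ⟨w, -, rfl⟩
  exact w.2

theorem stabF_finiteIndex [Finite F] (h : GRel X Y Z) (o : F) : (stabF h o).FiniteIndex := by
  have h0 := G_finiteIndex
  have h1 : (MulAction.stabilizer (Equiv.Perm F) o).FiniteIndex :=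
    Subgroup.finiteIndex_of_finite_quotient
  have h2 : ((MulAction.stabilizer (Equiv.Perm F) o).comap (gLift h)).FiniteIndex := by
    refine ⟨?_⟩
    rw [Subgroup.index_comap]
    exact (inferInstance : ((MulAction.stabilizer (Equiv.Perm F) o).subgroupOf
      (gLift h).range).FiniteIndex).index_ne_zero
  refine ⟨?_⟩
  unfold stabF
  rw [Subgroup.index_map_subtype]
  exact mul_ne_zero h2.index_ne_zero h0.index_ne_zero

theorem stabF_avoid (h : GRel X Y Z) (o : F)
    (fX : ∀ f : F, (Y * Z⁻¹ * Y⁻¹ * Z) f ≠ f) (fY : ∀ f : F, (Z * X⁻¹ * Z⁻¹ * X) f ≠ f)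
    (fZ : ∀ f : F, (X * Y⁻¹ * X⁻¹ * Y) f ≠ f) : Avoid (stabF h o) := by
  intro g hg
  have key : ∀ (u : G) (u' : W) (v : Equiv.Perm F), (u : W) = u' → gLift h u = v →
      (∀ f, v f ≠ f) → g⁻¹ * u' * g ∉ stabF h o := by
    intro u u' v hu' huv hv hmem
    have e1 : ((⟨g, hg⟩⁻¹ * u * ⟨g, hg⟩ : G) : W) = g⁻¹ * u' * g := by
      rw [Subgroup.coe_mul, Subgroup.coe_mul, hu', Subgroup.coe_inv]
    rw [← e1] at hmem
    have h1 := (mem_stabF (h := h) (o := o) (⟨g, hg⟩⁻¹ * u * ⟨g, hg⟩)).mp hmem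
    rw [map_mul, map_mul, huv, map_inv, Equiv.Perm.mul_apply, Equiv.Perm.mul_apply,
      Equiv.Perm.inv_eq_iff_eq] at h1
    exact hv _ h1
  have ex := gLift_x h
  have ey := gLift_y h
  have ez := gLift_z h
  have hcoe : ∀ (a b : G), ((a * b⁻¹ * a⁻¹ * b : G) : W) = (a : W) * (b : W)⁻¹ * (a : W)⁻¹ * b := by
    intro a b
    rw [Subgroup.coe_mul, Subgroup.coe_mul, Subgroup.coe_mul, Subgroup.coe_inv, Subgroup.coe_inv]
  have hmap : ∀ (a b : G), gLift h (a * b⁻¹ * a⁻¹ * b) =
      gLift h a * (gLift h b)⁻¹ * (gLift h a)⁻¹ * gLift h b := by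
    intro a b
    rw [map_mul, map_mul, map_mul, map_inv, map_inv]
  refine ⟨key _ _ _ (hcoe ⟨y, y_mem⟩ ⟨z, z_mem⟩) ?_ fX,
    key _ _ _ (hcoe ⟨z, z_mem⟩ ⟨x, x_mem⟩) ?_ fY,
    key _ _ _ (hcoe ⟨x, x_mem⟩ ⟨y, y_mem⟩) ?_ fZ⟩
  · rw [hmap, ey, ez]
  · rw [hmap, ez, ex]
  · rw [hmap, ex, ey]

/-- **The closed hyperbolic manifold of a finite `G`-set.** -/
theorem closedHyp_stabF [Finite F] (h : GRel X Y Z) (o : F)
    (fX : ∀ f : F, (Y * Z⁻¹ * Y⁻¹ * Z) f ≠ f) (fY : ∀ f : F, (Z * X⁻¹ * Z⁻¹ * X) f ≠ f)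
    (fZ : ∀ f : F, (X * Y⁻¹ * X⁻¹ * Y) f ≠ f) : ClosedHyp ((stabF h o).map rho) := by
  have := stabF_finiteIndex h o
  exact closedHyp_of_avoid (stabF_le h o) (stabF_avoid h o fX fY fZ)

/-- A finite index subgroup of `G` has positive first Betti number. -/
theorem bettiPos_of_finiteIndex {Γ : Subgroup W} [Γ.FiniteIndex] (hG : Γ ≤ G) :
    BettiPos (Γ.map rho) := by
  -- the restriction of the coordinate homomorphism has an infinite cyclic image
  let f : Γ →* Multiplicative ℤ := coordX.comp (Subgroup.inclusion hG)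
  obtain ⟨n, hn, hxn⟩ : ∃ n : ℕ, 0 < n ∧ x ^ n ∈ Γ := by
    obtain ⟨n, hn, h⟩ := Subgroup.exists_pow_mem_of_index_ne_zero
      (Subgroup.FiniteIndex.index_ne_zero (H := Γ)) x
    exact ⟨n, hn, h.2⟩
  have hfx : f ⟨x ^ n, hxn⟩ = Multiplicative.ofAdd (n : ℤ) := by
    change coordX ⟨x ^ n, hG hxn⟩ = _
    have e : (⟨x ^ n, hG hxn⟩ : G) = ⟨x, x_mem⟩ ^ n := Subtype.ext (by rw [Subgroup.coe_pow])
    rw [e, map_pow, coord_x.1, ← ofAdd_nsmul]
    simp
  -- divide by the generator of the image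
  let A : AddSubgroup ℤ :=
    { carrier := {k | ∃ γ : Γ, Multiplicative.toAdd (f γ) = k}
      zero_mem' := ⟨1, by rw [map_one]; rfl⟩
      add_mem' := by
        rintro a b ⟨γ, rfl⟩ ⟨δ, rfl⟩
        exact ⟨γ * δ, by rw [map_mul]; rfl⟩
      neg_mem' := by
        rintro a ⟨γ, rfl⟩
        exact ⟨γ⁻¹, by rw [map_inv]; rfl⟩ }
  obtain ⟨a, ha⟩ := Int.subgroup_cyclic A
  have hdvd : ∀ γ : Γ, a ∣ Multiplicative.toAdd (f γ) := by
    intro γ
    have h1 : Multiplicative.toAdd (f γ) ∈ A := ⟨γ, rfl⟩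
    rw [ha, AddSubgroup.mem_closure_singleton] at h1
    obtain ⟨k, hk⟩ := h1
    exact ⟨k, by rw [← hk, smul_eq_mul, mul_comm]⟩
  have ha0 : a ≠ 0 := by
    rintro rfl
    have h1 := hdvd ⟨x ^ n, hxn⟩
    rw [hfx, zero_dvd_iff] at h1
    have : (n : ℤ) = 0 := h1
    omega
  let f' : Γ →* Multiplicative ℤ :=
    { toFun := fun γ => Multiplicative.ofAdd (Multiplicative.toAdd (f γ) / a)
      map_one' := by rw [map_one]; simp
      map_mul' := fun γ δ => by
        rw [map_mul, toAdd_mul, Int.add_ediv_of_dvd_left (hdvd γ), ofAdd_add] }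
  have hf' : Function.Surjective f' := by
    intro k
    have h1 : Multiplicative.toAdd k * a ∈ A := by
      rw [ha, AddSubgroup.mem_closure_singleton]
      exact ⟨Multiplicative.toAdd k, by rw [smul_eq_mul]⟩
    obtain ⟨γ, hγ⟩ := h1
    refine ⟨γ, ?_⟩
    change Multiplicative.ofAdd (Multiplicative.toAdd (f γ) / a) = k
    rw [hγ, Int.mul_ediv_cancel _ ha0]
    rfl
  let e : Γ ≃* Γ.map rho := Γ.equivMapOfInjective rho rho_injective
  refine ⟨f'.comp e.symm.toMonoidHom, fun k => ?_⟩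
  obtain ⟨γ, hγ⟩ := hf' k
  refine ⟨e γ, ?_⟩
  change f' (e.symm (e γ)) = k
  rw [MulEquiv.symm_apply_apply, hγ]

/-- It has positive first Betti number. -/
theorem bettiPos_stabF [Finite F] (h : GRel X Y Z) (o : F) : BettiPos ((stabF h o).map rho) := by
  have := stabF_finiteIndex h o
  exact bettiPos_of_finiteIndex (stabF_le h o)

end Stab

end Lam

end Pool.Agent.EC
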