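import Pool.Agent.EC.Rigid

/-!
# Rigidity of maximal surfaces over a finite `G`-set

General form of the parity theorem: a finite set `Q` with permutations, lifts to the line of the
homeomorphisms of the circle attached to the arrows `q ↦ y q`, `q ↦ z q`, ...
-/

set_option linter.unusedSectionVars false

namespace Pool.Agent.EC.GenRig

open Rigid

variable {Q : Type*}

/-- the product of the lifts along `n` arrows `y` starting at `q` -/
noncomputable def it (y : Equiv.Perm Q) (Y : Q → G) : ℕ → Q → G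
  | 0, _ => 1
  | n + 1, q => it y Y n (y q) * Y q

section it

variable {y : Equiv.Perm Q} {Y : Q → G}

theorem it_zero (q : Q) : it y Y 0 q = 1 := rfl

theorem it_succ (n : ℕ) (q : Q) : it y Y (n + 1) q = it y Y n (y q) * Y q := rfl

theorem it_succ' (n : ℕ) (q : Q) : it y Y (n + 1) q = Y ((y ^ n) q) * it y Y n q := by
  induction n generalizing q with
  | zero => simp [it]
  | succ n ih =>
    rw [it_succ, ih (y q), it_succ n q, ← mul_assoc, pow_succ, Equiv.Perm.mul_apply]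

theorem it_ap_succ (n : ℕ) (q : Q) (x : ℝ) :
    it y Y (n + 1) q x = it y Y n (y q) (Y q x) := rfl

theorem it_one (q : Q) : it y Y 1 q = Y q := by rw [it_succ, it_zero, one_mul]

theorem pow_ap_succ (y : Equiv.Perm Q) (n : ℕ) (q : Q) : (y ^ (n + 1)) q = (y ^ n) (y q) := by
  rw [pow_succ, Equiv.Perm.mul_apply]

/-- a function moved exactly by the lifts -/
theorem it_eq {f : Q → ℝ} (h : ∀ q, Y q (f q) = f (y q)) (n : ℕ) (q : Q) :
    it y Y n q (f q) = f ((y ^ n) q) := by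
  induction n generalizing q with
  | zero => rfl
  | succ n ih => rw [it_ap_succ, h, ih, pow_ap_succ]

theorem it_le {f : Q → ℝ} (h : ∀ q, Y q (f q) ≤ f (y q)) (n : ℕ) (q : Q) :
    it y Y n q (f q) ≤ f ((y ^ n) q) := by
  induction n generalizing q with
  | zero => exact le_rfl
  | succ n ih =>
    rw [it_ap_succ, pow_ap_succ]
    exact ((le_iff _).2 (h q)).trans (ih (y q))

theorem it_lt {f : Q → ℝ} (h : ∀ q, Y q (f q) < f (y q)) (n : ℕ) (q : Q) :
    it y Y (n + 1) q (f q) < f ((y ^ (n + 1)) q) := by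
  rw [it_ap_succ, pow_ap_succ]
  exact ((lt_iff _).2 (h q)).trans_le (it_le (fun q => (h q).le) n (y q))

theorem it_ge {f : Q → ℝ} (h : ∀ q, f (y q) ≤ Y q (f q)) (n : ℕ) (q : Q) :
    f ((y ^ n) q) ≤ it y Y n q (f q) := by
  induction n generalizing q with
  | zero => exact le_rfl
  | succ n ih =>
    rw [it_ap_succ, pow_ap_succ]
    exact (ih (y q)).trans ((le_iff _).2 (h q))

theorem it_gt {f : Q → ℝ} (h : ∀ q, f (y q) < Y q (f q)) (n : ℕ) (q : Q) :
    f ((y ^ (n + 1)) q) < it y Y (n + 1) q (f q) := by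
  rw [it_ap_succ, pow_ap_succ]
  exact (it_ge (fun q => (h q).le) n (y q)).trans_lt ((lt_iff _).2 (h q))

end it

section F

variable [Finite Q] {y : Equiv.Perm Q} {Y : Q → G}

/-- the return map of the `y`-cycle -/
noncomputable def F (y : Equiv.Perm Q) (Y : Q → G) (q : Q) : G := it y Y (orderOf y) q

theorem ord_pos (y : Equiv.Perm Q) : ∃ n, orderOf y = n + 1 :=
  ⟨orderOf y - 1, (Nat.succ_pred_eq_of_pos (orderOf_pos y)).symm⟩

theorem F_eq {f : Q → ℝ} (h : ∀ q, Y q (f q) = f (y q)) (q : Q) : F y Y q (f q) = f q := by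
  rw [F, it_eq h, pow_orderOf_eq_one]; rfl

theorem F_le {f : Q → ℝ} (h : ∀ q, Y q (f q) ≤ f (y q)) (q : Q) : F y Y q (f q) ≤ f q := by
  have := it_le h (orderOf y) q
  rwa [pow_orderOf_eq_one] at this

theorem F_lt {f : Q → ℝ} (h : ∀ q, Y q (f q) < f (y q)) (q : Q) : F y Y q (f q) < f q := by
  obtain ⟨n, hn⟩ := ord_pos y
  have := it_lt h n q
  rwa [← hn, pow_orderOf_eq_one] at this

theorem F_gt {f : Q → ℝ} (h : ∀ q, f (y q) < Y q (f q)) (q : Q) : f q < F y Y q (f q) := by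
  obtain ⟨n, hn⟩ := ord_pos y
  have := it_gt h n q
  rwa [← hn, pow_orderOf_eq_one] at this

theorem F_comm (q : Q) : Y q * F y Y q = F y Y (y q) * Y q := by
  have h1 := it_succ (y := y) (Y := Y) (orderOf y) q
  have h2 := it_succ' (y := y) (Y := Y) (orderOf y) q
  rw [pow_orderOf_eq_one] at h2
  exact h2.symm.trans h1

/-- if `Y f ≤ f ∘ y` and all `f q` are fixed by the return maps, then equality holds -/
theorem eq_of_F {f : Q → ℝ} (h : ∀ q, Y q (f q) ≤ f (y q)) (hF : ∀ q, F y Y q (f q) = f q)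
    (q : Q) : Y q (f q) = f (y q) := by
  obtain ⟨n, hn⟩ := ord_pos y
  refine le_antisymm (h q) (not_lt.1 fun hlt => ?_)
  have h1 : it y Y n (y q) (Y q (f q)) < it y Y n (y q) (f (y q)) := (lt_iff _).2 hlt
  have h2 := it_le h n (y q)
  have h3 := hF q
  rw [F, hn, it_ap_succ] at h3
  rw [← pow_ap_succ, ← hn, pow_orderOf_eq_one] at h2
  rw [h3] at h1
  exact absurd (h1.trans_le h2) (lt_irrefl _)

theorem Fix_Y {q : Q} {x : ℝ} (h : F y Y q x = x) : F y Y (y q) (Y q x) = Y q x := by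
  rw [← mul_ap, ← F_comm, mul_ap, h]

theorem Fix_Yinv {q : Q} {x : ℝ} (h : F y Y (y q) x = x) :
    F y Y q ((Y q)⁻¹ x) = (Y q)⁻¹ x := by
  apply inj (Y q)
  rw [ap_inv, ← mul_ap, F_comm, mul_ap, ap_inv, h]

end F

/-- Relations of a sheet. -/
structure Base [Fintype Q] (y z u : Equiv.Perm Q) (Y Z U : Q → G) : Prop where
  zu : ∀ q, z (u (y q)) = y (z q)
  uu : ∀ q, u (u q) = q
  e1 : ∀ q, Z (u (y q)) * U (y q) * Y q = Y (z q) * Z q
  e2 : ∃ t : Q → ℤ, (∀ q, U (u q) * U q = T ^ (t q)) ∧ ∑ q, t q = Fintype.card Q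

/-- A sheet normalised by a system of base points. -/
structure Sheet [Fintype Q] (y z u : Equiv.Perm Q) (Y Z U : Q → G) (P : Q → ℝ) : Prop
    extends Base y z u Y Z U where
  YP : ∀ q, Y q (P q) = P (y q)
  lo : ∀ q, Z q (P q) ≤ P (z q)
  hi : ∀ q, P (z q) < Z q (P q) + 1

/-- the points `R` -/
noncomputable def RR (z : Equiv.Perm Q) (Z : Q → G) (P : Q → ℝ) (q : Q) : ℝ := (Z q)⁻¹ (P (z q))

/-- the points `S` -/
noncomputable def SS (y z : Equiv.Perm Q) (Y Z : Q → G) (P : Q → ℝ) (q : Q) : ℝ :=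
  Y (y.symm q) (RR z Z P (y.symm q))

section sheet

variable [Fintype Q] {y z u : Equiv.Perm Q} {Y Z U : Q → G} {P : Q → ℝ}

theorem SS_y (p : Q) : SS y z Y Z P (y p) = Y p (RR z Z P p) := by
  rw [SS, Equiv.symm_apply_apply]

theorem Z_RR (q : Q) : Z q (RR z Z P q) = P (z q) := by rw [RR, ap_inv]

theorem Sheet.PR (h : Sheet y z u Y Z U P) (q : Q) : P q ≤ RR z Z P q := by
  have := h.lo q
  rw [← Z_RR (Z := Z) (z := z) (P := P)] at this
  exact (le_iff _).1 this

theorem Sheet.RP (h : Sheet y z u Y Z U P) (q : Q) : RR z Z P q < P q + 1 := by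
  have := h.hi q
  rw [← Z_RR (Z := Z) (z := z) (P := P), ← ap_one] at this
  exact (lt_iff _).1 this

theorem Sheet.PS (h : Sheet y z u Y Z U P) (q : Q) : P q ≤ SS y z Y Z P q := by
  obtain ⟨p, rfl⟩ := y.surjective q
  rw [SS_y, ← h.YP]
  exact (le_iff _).2 (h.PR p)

theorem Sheet.SP (h : Sheet y z u Y Z U P) (q : Q) : SS y z Y Z P q < P q + 1 := by
  obtain ⟨p, rfl⟩ := y.surjective q
  rw [SS_y, ← h.YP, ← ap_one]
  exact (lt_iff _).2 (h.RP p)

theorem Sheet.US (h : Sheet y z u Y Z U P) (q : Q) :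
    U q (SS y z Y Z P q) = RR z Z P (u q) := by
  obtain ⟨p, rfl⟩ := y.surjective q
  apply inj (Z (u (y p)))
  rw [SS_y, Z_RR, h.zu, ← mul_ap, ← mul_ap, h.e1, mul_ap, Z_RR, h.YP]

theorem Sheet.US' (h : Sheet y z u Y Z U P) (q : Q) :
    U (u q) (SS y z Y Z P (u q)) = RR z Z P q := by
  rw [h.US, h.uu]

/-- **Lemma A** -/
theorem Sheet.lemA (h : Sheet y z u Y Z U P) (q : Q) :
    SS y z Y Z P q < RR z Z P q ∧ U q (RR z Z P q) = SS y z Y Z P (u q) + 1 := by
  obtain ⟨t, ht, hsum⟩ := h.e2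
  have UR : ∀ q, U q (RR z Z P q) = SS y z Y Z P (u q) + t (u q) := by
    intro q
    have h1 := ht (u q)
    rw [h.uu] at h1
    rw [← h.US' q, ← mul_ap, h1, Tz_ap]
  have key : ∀ q, t (u q) ≤ 1 ∧ (t (u q) = 1 → SS y z Y Z P q < RR z Z P q) := by
    intro q
    have p1 := h.PR (u q)
    have p2 := h.RP (u q)
    have p3 := h.PS (u q)
    have p4 := h.SP (u q)
    have q1 := h.PR q
    have q2 := h.RP q
    have q3 := h.PS q
    have q4 := h.SP q
    rcases lt_or_ge (SS y z Y Z P q) (RR z Z P q) with hlt | hge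
    · refine ⟨?_, fun _ => hlt⟩
      have h1 : U q (RR z Z P q) < U q (SS y z Y Z P q + 1) := (lt_iff _).2 (by linarith)
      rw [ap_one, UR, h.US] at h1
      have : (t (u q) : ℝ) < 2 := by linarith
      have : t (u q) < 2 := by exact_mod_cast this
      omega
    · have h1 : U q (RR z Z P q) ≤ U q (SS y z Y Z P q) := (le_iff _).2 hge
      rw [UR, h.US] at h1
      have : (t (u q) : ℝ) < 1 := by linarith
      have : t (u q) < 1 := by exact_mod_cast this
      refine ⟨by omega, fun h' => ?_⟩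
      omega
  have all : ∀ q, t q = 1 := by
    have h0 : ∑ q, (1 - t q) = 0 := by
      rw [Finset.sum_sub_distrib, hsum]; simp
    have h1 : ∀ q ∈ Finset.univ, 0 ≤ 1 - t q := by
      intro q _
      have := (key (u q)).1
      rw [h.uu] at this
      omega
    have h2 := (Finset.sum_eq_zero_iff_of_nonneg h1).1 h0
    intro q
    have := h2 q (Finset.mem_univ q)
    omega
  refine ⟨(key q).2 (all _), ?_⟩
  rw [UR, all]; norm_num

/-- left end of the gap -/
noncomputable def aa (y z : Equiv.Perm Q) (Y Z : Q → G) (P : Q → ℝ) (q : Q) : ℝ :=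
  sSup {x | F y Y q x = x ∧ x ≤ RR z Z P q}

/-- right end of the gap -/
noncomputable def bb (y z : Equiv.Perm Q) (Y Z : Q → G) (P : Q → ℝ) (q : Q) : ℝ :=
  sInf {x | F y Y q x = x ∧ RR z Z P q ≤ x}

theorem isClosed_fix (f : G) : IsClosed {x : ℝ | f x = x} :=
  isClosed_eq (cont f) continuous_id

theorem Sheet.FP (h : Sheet y z u Y Z U P) (q : Q) : F y Y q (P q) = P q := F_eq h.YP q

theorem fix_add_int {f : G} {x : ℝ} (h : f x = x) (n : ℤ) : f (x + n) = x + n := by
  rw [ap_int, h]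

theorem fix_add_one {f : G} {x : ℝ} (h : f x = x) : f (x + 1) = x + 1 := by
  rw [ap_one, h]

theorem Sheet.FR_lt (h : Sheet y z u Y Z U P) (q : Q) :
    F y Y q (RR z Z P q) < RR z Z P q :=
  F_lt (f := RR z Z P) (fun p => by rw [← SS_y]; exact (h.lemA (y p)).1) q

theorem Sheet.aa_mem (h : Sheet y z u Y Z U P) (q : Q) :
    F y Y q (aa y z Y Z P q) = aa y z Y Z P q ∧ aa y z Y Z P q ≤ RR z Z P q := by
  have hc : IsClosed {x | F y Y q x = x ∧ x ≤ RR z Z P q} :=
    (isClosed_fix _).inter (isClosed_le continuous_id continuous_const)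
  exact hc.csSup_mem ⟨P q, h.FP q, h.PR q⟩ ⟨RR z Z P q, fun x hx => hx.2⟩

theorem Sheet.bb_mem (h : Sheet y z u Y Z U P) (q : Q) :
    F y Y q (bb y z Y Z P q) = bb y z Y Z P q ∧ RR z Z P q ≤ bb y z Y Z P q := by
  have hc : IsClosed {x | F y Y q x = x ∧ RR z Z P q ≤ x} :=
    (isClosed_fix _).inter (isClosed_le continuous_const continuous_id)
  exact hc.csInf_mem ⟨P q + 1, fix_add_one (h.FP q), (h.RP q).le⟩
    ⟨RR z Z P q, fun x hx => hx.2⟩

theorem Sheet.le_aa (_h : Sheet y z u Y Z U P) {q : Q} {x : ℝ} (hx : F y Y q x = x)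
    (hR : x ≤ RR z Z P q) : x ≤ aa y z Y Z P q :=
  le_csSup ⟨RR z Z P q, fun _ hx => hx.2⟩ ⟨hx, hR⟩

theorem Sheet.bb_le (_h : Sheet y z u Y Z U P) {q : Q} {x : ℝ} (hx : F y Y q x = x)
    (hR : RR z Z P q ≤ x) : bb y z Y Z P q ≤ x :=
  csInf_le ⟨RR z Z P q, fun _ hx => hx.2⟩ ⟨hx, hR⟩

theorem Sheet.aR (h : Sheet y z u Y Z U P) (q : Q) : aa y z Y Z P q < RR z Z P q := by
  obtain ⟨h1, h2⟩ := h.aa_mem q
  refine lt_of_le_of_ne h2 fun e => ?_
  have := h.FR_lt q
  rw [← e, h1] at this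
  exact lt_irrefl _ this

theorem Sheet.Rb (h : Sheet y z u Y Z U P) (q : Q) : RR z Z P q < bb y z Y Z P q := by
  obtain ⟨h1, h2⟩ := h.bb_mem q
  refine lt_of_le_of_ne h2 fun e => ?_
  have := h.FR_lt q
  rw [e, h1] at this
  exact lt_irrefl _ this

theorem Sheet.nofix (h : Sheet y z u Y Z U P) {q : Q} {x : ℝ} (hx : F y Y q x = x)
    (h1 : aa y z Y Z P q < x) (h2 : x < bb y z Y Z P q) : False := by
  rcases le_total x (RR z Z P q) with hl | hl
  · exact absurd (h.le_aa hx hl) (not_le.2 h1)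
  · exact absurd (h.bb_le hx hl) (not_le.2 h2)

theorem Sheet.Pa (h : Sheet y z u Y Z U P) (q : Q) : P q ≤ aa y z Y Z P q :=
  h.le_aa (h.FP q) (h.PR q)

theorem Sheet.bP (h : Sheet y z u Y Z U P) (q : Q) : bb y z Y Z P q ≤ P q + 1 :=
  h.bb_le (fix_add_one (h.FP q)) (h.RP q).le

theorem Sheet.b_le (h : Sheet y z u Y Z U P) (q : Q) : bb y z Y Z P q ≤ aa y z Y Z P q + 1 := by
  have := h.Pa q
  have := h.bP q
  linarith

theorem Sheet.Ya (h : Sheet y z u Y Z U P) (q : Q) :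
    Y q (aa y z Y Z P q) = aa y z Y Z P (y q) := by
  refine eq_of_F (fun q => ?_) (fun q => (h.aa_mem q).1) q
  refine h.le_aa (Fix_Y (h.aa_mem q).1) ?_
  have h1 : Y q (aa y z Y Z P q) ≤ Y q (RR z Z P q) := (le_iff _).2 (h.aa_mem q).2
  rw [← SS_y] at h1
  exact h1.trans (h.lemA (y q)).1.le

theorem Sheet.Yb (h : Sheet y z u Y Z U P) (q : Q) :
    Y q (bb y z Y Z P q) = bb y z Y Z P (y q) := by
  refine eq_of_F (fun q => ?_) (fun q => (h.bb_mem q).1) q
  have h1 : SS y z Y Z P (y q) ≤ bb y z Y Z P (y q) := (h.lemA (y q)).1.le.trans (h.Rb (y q)).le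
  have h2 : RR z Z P q ≤ (Y q)⁻¹ (bb y z Y Z P (y q)) := by
    rw [← le_iff (Y q), ap_inv, ← SS_y]; exact h1
  have h3 := h.bb_le (Fix_Yinv (h.bb_mem (y q)).1) h2
  have h4 := (le_iff (Y q)).2 h3
  rwa [ap_inv] at h4

theorem Sheet.aS (h : Sheet y z u Y Z U P) (q : Q) : aa y z Y Z P q < SS y z Y Z P q := by
  obtain ⟨p, rfl⟩ := y.surjective q
  rw [SS_y, ← h.Ya, lt_iff]
  exact h.aR p

theorem Sheet.Sb (h : Sheet y z u Y Z U P) (q : Q) : SS y z Y Z P q < bb y z Y Z P q :=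
  (h.lemA q).1.trans (h.Rb q)

/-- `U` sends `[b - 1, a]` between `S` and `R`. -/
theorem Sheet.Umap (h : Sheet y z u Y Z U P) {q : Q} {x : ℝ} (h1 : bb y z Y Z P q - 1 ≤ x)
    (h2 : x ≤ aa y z Y Z P q) :
    SS y z Y Z P (u q) < U q x ∧ U q x < RR z Z P (u q) := by
  constructor
  · have h3 : U q (RR z Z P q) < U q (x + 1) :=
      (lt_iff _).2 ((h.Rb q).trans_le (by linarith))
    rw [(h.lemA q).2, ap_one] at h3
    linarith
  · have h3 : U q x < U q (SS y z Y Z P q) := (lt_iff _).2 (h2.trans_lt (h.aS q))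
    rwa [h.US] at h3

/-- uniqueness of gaps -/
theorem gap_unique {f : G} {a b a' b' s : ℝ} (ha : f a = a) (hb : f b = b) (ha' : f a' = a')
    (hb' : f b' = b') (h : ∀ x, f x = x → a < x → x < b → False)
    (h' : ∀ x, f x = x → a' < x → x < b' → False) (h1 : a < s) (h2 : s < b) (h3 : a' < s)
    (h4 : s < b') : a' = a ∧ b' = b := by
  constructor
  · refine le_antisymm (not_lt.1 fun hc => ?_) (not_lt.1 fun hc => ?_)
    · exact h _ ha' hc (h3.trans h2)
    · exact h' _ ha hc (h1.trans h4)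
  · refine le_antisymm (not_lt.1 fun hc => ?_) (not_lt.1 fun hc => ?_)
    · exact h' _ hb (h3.trans h2) hc
    · exact h _ hb' (h1.trans h4) hc

section cover

variable {z' : Equiv.Perm Q} {Z' U' : Q → G} {P' : Q → ℝ}

theorem Sheet.same_of_mem (h : Sheet y z u Y Z U P) (h' : Sheet y z' u Y Z' U' P') {q : Q}
    {s : ℝ} {n : ℤ} (h1 : aa y z Y Z P q < s + n) (h2 : s + n < bb y z Y Z P q)
    (h3 : aa y z' Y Z' P' q < s) (h4 : s < bb y z' Y Z' P' q) :
    aa y z' Y Z' P' q + n = aa y z Y Z P q ∧ bb y z' Y Z' P' q + n = bb y z Y Z P q := by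
  refine gap_unique (f := F y Y q) (s := s + n) (h.aa_mem q).1 (h.bb_mem q).1
    (fix_add_int (h'.aa_mem q).1 n) (fix_add_int (h'.bb_mem q).1 n)
    (fun x hx ha hb => h.nofix hx ha hb) (fun x hx ha hb => ?_) h1 h2 (by linarith)
    (by linarith)
  have hx' := fix_add_int hx (-n)
  push_cast at hx'
  exact h'.nofix (x := x + -n) hx' (by linarith) (by linarith)

/-- **Cover lemma**: the gaps of two sheets agree. -/
theorem Sheet.cover (h : Sheet y z u Y Z U P) (h' : Sheet y z' u Y Z' U' P') {k : Q → ℤ}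
    (hk : ∀ q, U' q = T ^ (k q) * U q) (q : Q) :
    ∃ n : ℤ, aa y z' Y Z' P' q + n = aa y z Y Z P q ∧
      bb y z' Y Z' P' q + n = bb y z Y Z P q := by
  have huu := h.uu
  have step1 : ∀ q, (∃ n : ℤ, aa y z' Y Z' P' q + n = aa y z Y Z P q ∧
      bb y z' Y Z' P' q + n = bb y z Y Z P q) ∨
      (∃ n : ℤ, aa y z' Y Z' P' (u q) + n = aa y z Y Z P (u q) ∧
      bb y z' Y Z' P' (u q) + n = bb y z Y Z P (u q)) := by
    intro q
    set r := RR z' Z' P' q with hr
    set n : ℤ := -⌊r - (bb y z Y Z P q - 1)⌋ with hn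
    have f1 := Int.floor_le (r - (bb y z Y Z P q - 1))
    have f2 := Int.lt_floor_add_one (r - (bb y z Y Z P q - 1))
    have e : ((-n : ℤ) : ℝ) = (⌊r - (bb y z Y Z P q - 1)⌋ : ℤ) := by rw [hn, neg_neg]
    rw [← e] at f1 f2
    push_cast at f1 f2
    rcases lt_or_ge (aa y z Y Z P q) (r + n) with hlt | hge
    · exact Or.inl ⟨n, h.same_of_mem h' hlt (by linarith) (h'.aR q) (h'.Rb q)⟩
    · right
      obtain ⟨m1, m2⟩ := h.Umap (q := q) (x := r + n) (by linarith) hge
      have e1 := (h'.lemA q).2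
      rw [hk, mul_ap, Tz_ap] at e1
      rw [ap_int] at m1 m2
      have e2 : U q r + n = SS y z' Y Z' P' (u q) + ((1 - k q + n : ℤ) : ℝ) := by
        push_cast; linarith
      rw [e2] at m1 m2
      exact ⟨1 - k q + n, h.same_of_mem h' ((h.aS _).trans m1) (m2.trans (h.Rb _))
        (h'.aS _) (h'.Sb _)⟩
  have step2 : ∀ q, (∃ n : ℤ, aa y z' Y Z' P' (u q) + n = aa y z Y Z P (u q) ∧
      bb y z' Y Z' P' (u q) + n = bb y z Y Z P (u q)) →
      (∃ n : ℤ, aa y z' Y Z' P' q + n = aa y z Y Z P q ∧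
      bb y z' Y Z' P' q + n = bb y z Y Z P q) := by
    rintro q ⟨n, ha, hb⟩
    have b1 := h.b_le (u q)
    have b2 := h'.b_le (u q)
    obtain ⟨m1, m2⟩ := h.Umap (q := u q) (x := aa y z Y Z P (u q)) (by linarith) le_rfl
    obtain ⟨m3, m4⟩ := h'.Umap (q := u q) (x := aa y z' Y Z' P' (u q)) (by linarith) le_rfl
    rw [huu] at m1 m2 m3 m4
    rw [← ha, ap_int] at m1 m2
    rw [hk, mul_ap, Tz_ap] at m3 m4
    set s := U (u q) (aa y z' Y Z' P' (u q)) with hs
    refine ⟨n - k (u q), ?_⟩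
    refine h.same_of_mem h' (s := s + k (u q)) (n := n - k (u q)) ?_ ?_ ((h'.aS _).trans m3)
      (m4.trans (h'.Rb _))
    · have := (h.aS q).trans m1
      push_cast; linarith
    · have := m2.trans (h.Rb q)
      push_cast; linarith
  rcases step1 q with h1 | h1
  · exact h1
  · exact step2 q h1

end cover

theorem sum_perm (σ : Equiv.Perm Q) (f : Q → ℤ) : ∑ q, f (σ q) = ∑ q, f q :=
  Equiv.sum_comp σ f

theorem Tmm (a b : ℤ) (f g : G) : (T ^ a * f) * (T ^ b * g) = T ^ (a + b) * (f * g) := by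
  rw [zpow_add, mul_assoc, mul_assoc, ← mul_assoc f, ← Tz_comm b f, mul_assoc]

theorem mTm (b : ℤ) (f g : G) : f * (T ^ b * g) = T ^ b * (f * g) := by
  rw [← mul_assoc, ← Tz_comm, mul_assoc]

/-- change of the lifts `Z` -/
theorem Base.change (h : Base y z u Y Z U) (c : Q → ℤ) :
    Base y z u Y (fun q => T ^ (c q) * Z q) (fun q => T ^ (c (y.symm q) - c (u q)) * U q) where
  zu := h.zu
  uu := h.uu
  e1 q := by
    simp only [Equiv.symm_apply_apply]
    rw [Tmm, show c (u (y q)) + (c q - c (u (y q))) = c q by ring, mul_assoc, h.e1, mTm]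
  e2 := by
    obtain ⟨t, ht, hs⟩ := h.e2
    refine ⟨fun q => t q + (c (y.symm (u q)) - c (u (u q)) + (c (y.symm q) - c (u q))), ?_, ?_⟩
    · intro q
      simp only [Tmm, ht, ← zpow_add]
      congr 1; ring
    · simp only [Finset.sum_add_distrib, Finset.sum_sub_distrib]
      have e1 := sum_perm y.symm c
      have e2 := sum_perm u c
      have e3 := sum_perm u (fun q => c (y.symm q))
      have e4 := sum_perm u (fun q => c (u q))
      rw [e3, e4, e1, e2, hs]; ring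

/-- the normalising exponents -/
noncomputable def cc (z : Equiv.Perm Q) (Z : Q → G) (P : Q → ℝ) (q : Q) : ℤ :=
  ⌊P (z q) - Z q (P q)⌋

/-- normalisation with respect to a system of base points -/
theorem Base.sheet (h : Base y z u Y Z U) (hP : ∀ q, Y q (P q) = P (y q)) :
    Sheet y z u Y (fun q => T ^ (cc z Z P q) * Z q)
      (fun q => T ^ (cc z Z P (y.symm q) - cc z Z P (u q)) * U q) P where
  toBase := h.change _
  YP := hP
  lo q := by
    have := Int.floor_le (P (z q) - Z q (P q))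
    simp only [mul_ap, Tz_ap, cc]
    linarith
  hi q := by
    have := Int.lt_floor_add_one (P (z q) - Z q (P q))
    simp only [mul_ap, Tz_ap, cc]
    linarith

/-- the gap is unchanged by the normalisation with respect to its left end -/
theorem Sheet.canon {z0 : Equiv.Perm Q} {Z0 U0 : Q → G} {P0 : Q → ℝ}
    (h0 : Sheet y z0 u Y Z0 U0 P0) (h : Sheet y z u Y Z U (aa y z0 Y Z0 P0)) {k : Q → ℤ}
    (hk : ∀ q, U q = T ^ (k q) * U0 q) (q : Q) :
    aa y z Y Z (aa y z0 Y Z0 P0) q = aa y z0 Y Z0 P0 q ∧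
      bb y z Y Z (aa y z0 Y Z0 P0) q = bb y z0 Y Z0 P0 q := by
  obtain ⟨n, h1, h2⟩ := h0.cover h hk q
  have h3 := h.Pa q
  have h4 := h.aR q
  have h5 := h.RP q
  have h6 : (n : ℝ) ≤ 0 := by linarith
  have h7 : (-1 : ℝ) < n := by linarith
  have h8 : n ≤ 0 := by exact_mod_cast h6
  have h9 : -1 < n := by exact_mod_cast h7
  have : n = 0 := by omega
  subst this
  simp only [Int.cast_zero, add_zero] at h1 h2
  exact ⟨h1, h2⟩

section direction

theorem Sheet.Z_lt (h : Sheet y z u Y Z U P) (ha : ∀ q, aa y z Y Z P q = P q) (q : Q) :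
    Z q (P q) < P (z q) := by
  rw [← Z_RR (Z := Z) (z := z) (P := P), lt_iff, ← ha]
  exact h.aR q

/-- **Direction lemma** -/
theorem Sheet.dir (h : Sheet y z u Y Z U P) (ha : ∀ q, aa y z Y Z P q = P q) (q : Q) :
    bb y z Y Z P (z q) - 1 ≤ Z q (P q) := by
  set W : Q → ℝ := fun p => Z (z.symm p) (P (z.symm p)) with hW
  have Wz : ∀ q, W (z q) = Z q (P q) := fun q => by
    simp only [hW, Equiv.symm_apply_apply]
  have gt : ∀ p, W (y p) < Y p (W p) := by
    intro p
    obtain ⟨q, rfl⟩ := z.surjective p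
    rw [← h.zu, Wz, Wz, ← mul_ap, ← h.e1, mul_ap, mul_ap, h.YP, lt_iff]
    have h1 := h.b_le (y q)
    obtain ⟨h2, -⟩ := h.Umap (q := y q) (x := P (y q)) (by rw [ha] at h1; linarith)
      (ha _).ge
    have h3 := h.aS (u (y q))
    rw [ha] at h3
    exact h3.trans h2
  have Fgt : ∀ p, W p < F y Y p (W p) := F_gt gt
  by_contra hc
  push Not at hc
  rw [← Wz] at hc
  set p := z q with hp
  have h1 : P p < W p + 1 := by rw [hp, Wz]; exact h.hi q
  have h2 : W p + 1 < bb y z Y Z P p := by linarith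
  have h3 := Fgt p
  have h3' : W p + 1 < F y Y p (W p + 1) := by rw [ap_one]; linarith
  have h4 := h.FR_lt p
  have h5 := h.aR p
  have h6 := h.Rb p
  rw [ha] at h5
  rcases le_total (W p + 1) (RR z Z P p) with hl | hl
  · obtain ⟨x, ⟨hx1, hx2⟩, hx⟩ := ivt_Icc' (F y Y p) hl h3'.le h4.le
    exact h.nofix hx (by rw [ha]; linarith) (by linarith)
  · obtain ⟨x, ⟨hx1, hx2⟩, hx⟩ := ivt_Icc (F y Y p) hl h4.le h3'.le
    exact h.nofix hx (by rw [ha]; linarith) (by linarith)

theorem Sheet.Z_gt (h : Sheet y z u Y Z U P) (ha : ∀ q, aa y z Y Z P q = P q) (q : Q) :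
    bb y z Y Z P (z q) < Z q (bb y z Y Z P q) := by
  have h' := h.toBase.sheet (P := bb y z Y Z P) h.Yb
  obtain ⟨n, h1, h2⟩ := h.cover h' (k := _) (fun _ => rfl) q
  have h3 := h'.aR q
  have h4 := h'.Rb q
  have h5 := Z_RR (Z := fun q => T ^ (cc z Z (bb y z Y Z P) q) * Z q) (z := z)
    (P := bb y z Y Z P) q
  set r := RR z (fun q => T ^ (cc z Z (bb y z Y Z P) q) * Z q) (bb y z Y Z P) q with hr
  simp only [mul_ap, Tz_ap] at h5
  have h6 : aa y z Y Z P q < r + n := by linarith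
  have h7 : r + n < bb y z Y Z P q := by linarith
  have d := h.dir ha q
  have l := h.Z_lt ha q
  rw [ha] at h6
  have e1 : Z q (r + n) = bb y z Y Z P (z q) + ((n - cc z Z (bb y z Y Z P) q : ℤ) : ℝ) := by
    rw [ap_int]; push_cast; linarith
  have g1 := (lt_iff (Z q)).2 h6
  have g2 : Z q (r + n) < Z q (P q + 1) := by
    refine (lt_iff (Z q)).2 ?_
    have := h.b_le q
    rw [ha] at this
    linarith
  rw [e1] at g1 g2
  rw [ap_one] at g2
  have g3 : P (z q) < bb y z Y Z P (z q) := by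
    have := (h.aR (z q)).trans (h.Rb (z q))
    rwa [ha] at this
  have j1 : (-1 : ℝ) < ((n - cc z Z (bb y z Y Z P) q : ℤ) : ℝ) := by linarith
  have j2 : ((n - cc z Z (bb y z Y Z P) q : ℤ) : ℝ) < 1 := by linarith
  have j3 : -1 < n - cc z Z (bb y z Y Z P) q := by exact_mod_cast j1
  have j4 : n - cc z Z (bb y z Y Z P) q < 1 := by exact_mod_cast j2
  have j5 : n - cc z Z (bb y z Y Z P) q = 0 := by omega
  rw [j5, Int.cast_zero, add_zero] at e1
  rw [← e1, lt_iff]
  exact h7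

/-- the return maps of the `z`-cycles have fixed points -/
theorem Sheet.fix (h : Sheet y z u Y Z U P) (ha : ∀ q, aa y z Y Z P q = P q) (q : Q) :
    HasFix (F z Z q) := by
  have h1 : F z Z q (P q) < P q := F_lt (h.Z_lt ha) q
  have h2 := F_gt (f := bb y z Y Z P) (h.Z_gt ha) q
  have h3 : P q ≤ bb y z Y Z P q := by
    have := (h.aR q).trans (h.Rb q)
    rw [ha] at this
    exact this.le
  obtain ⟨x, -, hx⟩ := ivt_Icc (F z Z q) h3 h1.le h2.le
  exact ⟨x, hx⟩

end direction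

end sheet

section exponents

theorem T_cancel {a b : ℤ} {f : G} (h : T ^ a * f = T ^ b * f) : a = b := by
  have := congrArg (fun g : G => g 0) h
  simp only [mul_ap, Tz_ap] at this
  have : (a : ℝ) = b := by linarith
  exact_mod_cast this

theorem it_T {y : Equiv.Perm Q} {Y : Q → G} (c : Q → ℤ) (n : ℕ) (q : Q) :
    it y (fun q => T ^ (c q) * Y q) n q =
      T ^ (∑ i ∈ Finset.range n, c ((y ^ i) q)) * it y Y n q := by
  induction n with
  | zero => simp [it_zero]
  | succ n ih =>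
    rw [it_succ', ih, Tmm, Finset.sum_range_succ, it_succ' (Y := Y), add_comm]

theorem it_conj {x z z' : Equiv.Perm Q} {X Z Z' : Q → G} (hx : ∀ q, x (z' q) = z (x q))
    (h : ∀ q, X (z' q) * Z' q = Z (x q) * X q) (n : ℕ) (q : Q) :
    X ((z' ^ n) q) * it z' Z' n q = it z Z n (x q) * X q := by
  have hp : ∀ n q, x ((z' ^ n) q) = (z ^ n) (x q) := by
    intro n
    induction n with
    | zero => intro q; simp
    | succ n ih => intro q; rw [pow_ap_succ, ih, hx, pow_ap_succ]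
  induction n with
  | zero => simp [it_zero]
  | succ n ih =>
    rw [it_succ', ← mul_assoc, pow_succ', Equiv.Perm.mul_apply, h, mul_assoc, ih, ← mul_assoc,
      it_succ' (y := z), hp]

variable [Fintype Q]

theorem sum_pow (y : Equiv.Perm Q) (c : Q → ℤ) (n : ℕ) :
    ∑ q, ∑ i ∈ Finset.range n, c ((y ^ i) q) = n * ∑ q, c q := by
  rw [Finset.sum_comm]
  simp only [sum_perm]
  simp

/-- conjugate cycles have the same total exponent -/
theorem sum_eq {x z z' : Equiv.Perm Q} {X Z Z' : Q → G} (hx : ∀ q, x (z' q) = z (x q))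
    (h : ∀ q, X (z' q) * Z' q = Z (x q) * X q) {c c' : Q → ℤ}
    (f1 : ∀ q, HasFix (F z (fun q => T ^ (c q) * Z q) q))
    (f2 : ∀ q, HasFix (F z' (fun q => T ^ (c' q) * Z' q) q)) : ∑ q, c' q = ∑ q, c q := by
  have ho : orderOf z' = orderOf z := by
    refine SemiconjBy.orderOf_eq x ?_
    show x * z' = z * x
    ext q
    exact hx q
  have key : ∀ q, ∑ i ∈ Finset.range (orderOf z), c' ((z' ^ i) q) =
      ∑ i ∈ Finset.range (orderOf z), c ((z ^ i) (x q)) := by
    intro q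
    have g1 := f1 (x q)
    have g2 := f2 q
    rw [F, it_T] at g1 g2
    rw [ho] at g2
    have e := it_conj hx h (orderOf z) q
    have e0 : (z' ^ orderOf z) q = q := by rw [← ho, pow_orderOf_eq_one]; rfl
    rw [e0] at e
    have g3 := g2.Tconj (X q)
    rw [e, mul_assoc, mul_inv_cancel, mul_one] at g3
    exact g3.unique g1
  have h1 : ∑ q, ∑ i ∈ Finset.range (orderOf z), c' ((z' ^ i) q) =
      ∑ q, ∑ i ∈ Finset.range (orderOf z), c ((z ^ i) (x q)) :=
    Finset.sum_congr rfl fun q _ => key q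
  rw [sum_pow, sum_perm x (fun q => ∑ i ∈ Finset.range (orderOf z), c ((z ^ i) q)),
    sum_pow] at h1
  have h2 : (orderOf z : ℤ) ≠ 0 := by
    have := orderOf_pos z
    omega
  exact mul_left_cancel₀ h2 h1

/-- The exponents of `V`. -/
theorem m_y {y v : Equiv.Perm Q} {Y V : Q → G} {m κ : Q → ℤ} (vv : ∀ q, v (v q) = q)
    (vy : ∀ q, v (y q) = y (v q)) (H4 : ∀ q, V (v q) * V q = T ^ (m q))
    (H5 : ∀ q, V (y q) * Y q = T ^ (κ q) * (Y (v q) * V q)) (q : Q) :
    m (y q) = m q + κ q + κ (v q) := by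
  have e1 : V (v (y q)) * V (y q) * Y q = T ^ (m (y q)) * Y q := by rw [H4]
  have e2 : V (v (y q)) * V (y q) * Y q = T ^ (m q + κ q + κ (v q)) * Y q := by
    rw [mul_assoc, H5, mTm, ← mul_assoc (V (v (y q))), vy, H5, vv, mul_assoc, mul_assoc, H4,
      ← Tz_comm, ← mul_assoc, ← mul_assoc, ← zpow_add, ← zpow_add]
    congr 2; ring
  exact T_cancel (e1.symm.trans e2)

theorem m_v {v : Equiv.Perm Q} {V : Q → G} {m : Q → ℤ} (vv : ∀ q, v (v q) = q)
    (H4 : ∀ q, V (v q) * V q = T ^ (m q)) (q : Q) : m (v q) = m q := by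
  have h1 := H4 (v q)
  rw [vv] at h1
  have h2 : V q * V (v q) = T ^ (m q) := by
    have : V q * V (v q) = V q * (V (v q) * V q) * (V q)⁻¹ := by group
    rw [this, H4, ← Tz_comm]; group
  have h3 : T ^ (m (v q)) * 1 = T ^ (m q) * 1 := by rw [← h1, h2]
  exact T_cancel h3

/-- Two sheets over the same `y`: the exponents of `V` may be chosen invariant. -/
theorem main0 {x y z z' u v : Equiv.Perm Q} {X Y Z Z' U V : Q → G} {m κ : Q → ℤ} {P : Q → ℝ}
    (h : Base y z u Y Z U) (hz : ∀ q, z' q = v (z q)) (vv : ∀ q, v (v q) = q)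
    (vy : ∀ q, v (y q) = y (v q)) (xz : ∀ q, x (z' q) = z (x q))
    (H3 : ∀ q, V (z q) * Z q = Z' q) (H4 : ∀ q, V (v q) * V q = T ^ (m q))
    (H5 : ∀ q, V (y q) * Y q = T ^ (κ q) * (Y (v q) * V q))
    (H6 : ∀ q, X (z' q) * Z' q = Z (x q) * X q) (hP : ∀ q, Y q (P q) = P (y q)) :
    ∃ m' : Q → ℤ, (∀ q, m' (y q) = m' q) ∧ (∀ q, m' (v q) = m' q) ∧ ∑ q, m' q = ∑ q, m q := by
  have my := m_y vv vy H4 H5
  have mv := m_v vv H4
  have hκ : ∑ q, κ q = 0 := by
    have h1 : ∑ q, m (y q) = ∑ q, (m q + κ q + κ (v q)) := Finset.sum_congr rfl fun q _ => my q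
    rw [sum_perm, Finset.sum_add_distrib, Finset.sum_add_distrib, sum_perm v κ] at h1
    omega
  -- the second sheet
  have h' : Base y z' u Y Z' (fun q => T ^ (-κ (z (y.symm q))) * U q) := by
    refine ⟨fun q => ?_, h.uu, fun q => ?_, ?_⟩
    · rw [hz, hz, h.zu, vy]
    · simp only [Equiv.symm_apply_apply]
      rw [← H3, h.zu, mTm, mul_assoc, mul_assoc, mul_assoc, ← mul_assoc (Z _), h.e1,
        ← mul_assoc (V _), H5, mul_assoc (T ^ _), mul_assoc (Y _), H3, ← mul_assoc,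
        ← zpow_add, neg_add_cancel, zpow_zero, one_mul, hz]
    · obtain ⟨t, ht, hs⟩ := h.e2
      refine ⟨fun q => t q + (-κ (z (y.symm (u q))) + -κ (z (y.symm q))), fun q => ?_, ?_⟩
      · simp only [Tmm, ht, ← zpow_add]
        congr 1; ring
      · have e1 : ∑ q, κ (z (y.symm q)) = ∑ q, κ q := by
          rw [sum_perm y.symm (fun q => κ (z q)), sum_perm z κ]
        have e2 : ∑ q, κ (z (y.symm (u q))) = ∑ q, κ q := by
          rw [sum_perm u (fun q => κ (z (y.symm q))), e1]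
        rw [Finset.sum_add_distrib, Finset.sum_add_distrib, Finset.sum_neg_distrib,
          Finset.sum_neg_distrib, e1, e2, hκ, hs]
        ring
  have s0 := h.sheet hP
  have hYa := s0.Ya
  set a := aa y z Y (fun q => T ^ (cc z Z P q) * Z q) P with ha
  have s1 := h.sheet hYa
  have s2 := h'.sheet hYa
  have k0 : ∀ q, ∃ k : ℤ, (T ^ (cc z Z a (y.symm q) - cc z Z a (u q)) * U q) =
      T ^ k * (T ^ (cc z Z P (y.symm q) - cc z Z P (u q)) * U q) := fun q =>
    ⟨(cc z Z a (y.symm q) - cc z Z a (u q)) - (cc z Z P (y.symm q) - cc z Z P (u q)), by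
      rw [← mul_assoc, ← zpow_add]; congr 2; ring⟩
  have k0' : ∀ q, ∃ k : ℤ, (T ^ (cc z' Z' a (y.symm q) - cc z' Z' a (u q)) *
      (T ^ (-κ (z (y.symm q))) * U q)) =
      T ^ k * (T ^ (cc z Z P (y.symm q) - cc z Z P (u q)) * U q) := fun q =>
    ⟨(cc z' Z' a (y.symm q) - cc z' Z' a (u q)) + (-κ (z (y.symm q))) -
      (cc z Z P (y.symm q) - cc z Z P (u q)), by
      rw [← mul_assoc, ← mul_assoc, ← zpow_add, ← zpow_add]; congr 2; ring⟩
  choose k1 hk1 using k0
  choose k2 hk2 using k0'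
  have c1 := s0.canon s1 hk1
  have c2 := s0.canon s2 hk2
  have f1 := s1.fix (fun q => (c1 q).1)
  have f2 := s2.fix (fun q => (c2 q).1)
  have hc := sum_eq xz H6 f1 f2
  set c := cc z Z a with hc'
  set c' := cc z' Z' a with hc''
  -- the two lifts `U` agree
  have hU : ∀ q, c (y.symm q) - c (u q) = c' (y.symm q) - c' (u q) + -κ (z (y.symm q)) := by
    intro q
    have b1 := s1.b_le q
    have b2 := s2.b_le q
    rw [(c1 q).1] at b1
    rw [(c2 q).1] at b2
    obtain ⟨m1, m2⟩ := s1.Umap (q := q) (x := a q) (by linarith) (c1 q).1.ge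
    obtain ⟨m3, m4⟩ := s2.Umap (q := q) (x := a q) (by linarith) (c2 q).1.ge
    have a1 := s1.aS (u q)
    have a2 := s2.aS (u q)
    have a3 := s1.RP (u q)
    have a4 := s2.RP (u q)
    rw [(c1 (u q)).1] at a1
    rw [(c2 (u q)).1] at a2
    simp only [mul_ap, Tz_ap] at m1 m2 m3 m4
    have r1 : (((c (y.symm q) - c (u q)) - (c' (y.symm q) - c' (u q) + -κ (z (y.symm q))) : ℤ) : ℝ)
        < 1 := by push_cast at m1 m2 m3 m4 ⊢; linarith
    have r2 : (-1 : ℝ) < (((c (y.symm q) - c (u q)) -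
        (c' (y.symm q) - c' (u q) + -κ (z (y.symm q))) : ℤ) : ℝ) := by
      push_cast at m1 m2 m3 m4 ⊢; linarith
    have r3 : (c (y.symm q) - c (u q)) - (c' (y.symm q) - c' (u q) + -κ (z (y.symm q))) < 1 := by
      exact_mod_cast r1
    have r4 : -1 < (c (y.symm q) - c (u q)) -
        (c' (y.symm q) - c' (u q) + -κ (z (y.symm q))) := by exact_mod_cast r2
    omega
  set d : Q → ℤ := fun p => c' (z.symm p) - c (z.symm p) with hd
  have hκd : ∀ p, κ p = d p - d (y p) := by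
    intro p
    obtain ⟨q, rfl⟩ := z.surjective p
    have h1 := hU (y q)
    rw [Equiv.symm_apply_apply] at h1
    have h2 : z.symm (y (z q)) = u (y q) := by rw [← h.zu, Equiv.symm_apply_apply]
    simp only [hd, Equiv.symm_apply_apply, h2]
    omega
  have hsd : ∑ q, d q = 0 := by
    simp only [hd, Finset.sum_sub_distrib]
    rw [sum_perm z.symm c', sum_perm z.symm c, hc, sub_self]
  refine ⟨fun q => m q + d q + d (v q), fun q => ?_, fun q => ?_, ?_⟩
  · have h1 := my q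
    have h2 := hκd q
    have h3 := hκd (v q)
    simp only [vy]
    omega
  · have h1 := mv q
    simp only [vv]
    omega
  · rw [Finset.sum_add_distrib, Finset.sum_add_distrib, sum_perm v d, hsd]
    ring

/-- change of the lifts `Y` -/
theorem Base.changeY {y z u : Equiv.Perm Q} {Y Z U : Q → G} (h : Base y z u Y Z U) (d : Q → ℤ) :
    Base y z u (fun q => T ^ (d q) * Y q) Z
      (fun q => T ^ (d (z (y.symm q)) - d (y.symm q)) * U q) where
  zu := h.zu
  uu := h.uu
  e1 q := by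
    simp only [Equiv.symm_apply_apply]
    rw [mTm, mTm (d (z q) - d q), mul_assoc (T ^ (d (z q) - d q)), h.e1, ← mul_assoc,
      ← zpow_add, add_sub_cancel, mul_assoc]
  e2 := by
    obtain ⟨t, ht, hs⟩ := h.e2
    refine ⟨fun q => t q + (d (z (y.symm (u q))) - d (y.symm (u q)) +
      (d (z (y.symm q)) - d (y.symm q))), ?_, ?_⟩
    · intro q
      simp only [Tmm, ht, ← zpow_add]
      congr 1; ring
    · simp only [Finset.sum_add_distrib, Finset.sum_sub_distrib]
      have e1 := sum_perm y.symm d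
      have e2 := sum_perm u (fun q => d (y.symm q))
      have e3 := sum_perm y.symm (fun q => d (z q))
      have e4 := sum_perm u (fun q => d (z (y.symm q)))
      have e5 := sum_perm z d
      rw [e4, e2, e3, e5, e1, hs]; ring

/-- **Rigidity theorem** over a finite `G`-set. -/
theorem main {x y z z' u v : Equiv.Perm Q} {X Y Z Z' U V : Q → G} {m κ : Q → ℤ} {P : Q → ℝ}
    (h : Base y z u Y Z U) (hz : ∀ q, z' q = v (z q)) (vv : ∀ q, v (v q) = q)
    (vy : ∀ q, v (y q) = y (v q)) (xz : ∀ q, x (z' q) = z (x q))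
    (H3 : ∀ q, V (z q) * Z q = Z' q) (H4 : ∀ q, V (v q) * V q = T ^ (m q))
    (H5 : ∀ q, V (y q) * Y q = T ^ (κ q) * (Y (v q) * V q))
    (H6 : ∀ q, X (z' q) * Z' q = Z (x q) * X q) (hP : ∀ q, ∃ n : ℤ, Y q (P q) = P (y q) + n) :
    ∃ m' : Q → ℤ, (∀ q, m' (y q) = m' q) ∧ (∀ q, m' (v q) = m' q) ∧ ∑ q, m' q = ∑ q, m q := by
  choose d hd using hP
  refine main0 (h.changeY fun q => -d q) hz vv vy xz H3 H4
    (κ := fun q => -d q + κ q - -d (v q)) (P := P) (fun q => ?_) H6 (fun q => ?_)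
  · rw [mTm, H5, mul_assoc (T ^ (-d (v q))), ← mul_assoc (T ^ (-d q)), ← zpow_add,
      ← mul_assoc (T ^ (-d q + κ q - -d (v q))), ← zpow_add, sub_add_cancel]
  · rw [mul_ap, Tz_ap, hd]
    push_cast; ring

end exponents

end Pool.Agent.EC.GenRig
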