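import Pool.Agent.EC.GenRig
import Pool.Agent.EC.Q8

/-!
# The rigidity theorem for the eight point action

If both components of `S_x` are maximal, the Euler number of `S_z` is divisible by four.
-/

set_option maxRecDepth 100000

namespace Pool.Agent.EC.GenRig

open Rigid Lam

/-- the permutation of `u_X = y z⁻¹ y⁻¹ z` -/
def qU : Equiv.Perm (Fin 8) := qY * qZ⁻¹ * qY⁻¹ * qZ

/-- the permutation of `u_Z = x y⁻¹ x⁻¹ y` -/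
def qV : Equiv.Perm (Fin 8) := qX * qY⁻¹ * qX⁻¹ * qY

/-- the lift of `u_X` at `q` -/
noncomputable def UU (Y Z : Fin 8 → Rigid.G) (q : Fin 8) : Rigid.G :=
  Y (qZ⁻¹ (qY⁻¹ (qZ q))) * (Z (qZ⁻¹ (qY⁻¹ (qZ q))))⁻¹ * (Y (qY⁻¹ (qZ q)))⁻¹ * Z q

/-- the lift of `u_Z` at `q` -/
noncomputable def VV (X Y : Fin 8 → Rigid.G) (q : Fin 8) : Rigid.G :=
  X (qY⁻¹ (qX⁻¹ (qY q))) * (Y (qY⁻¹ (qX⁻¹ (qY q))))⁻¹ * (X (qX⁻¹ (qY q)))⁻¹ * Y q

theorem qU_apply (q : Fin 8) : qU q = ![3, 4, 7, 0, 1, 6, 5, 2] q := by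
  revert q; decide

theorem qV_apply (q : Fin 8) : qV q = ![5, 2, 1, 6, 7, 0, 3, 4] q := by
  revert q; decide

theorem qU_qU (q : Fin 8) : qU (qU q) = q := by revert q; decide
theorem qV_qV (q : Fin 8) : qV (qV q) = q := by revert q; decide
theorem qV_qZ (q : Fin 8) : qV (qZ q) = qZ (qV q) := by revert q; decide

/-- a system of base points for a `z`-cycle -/
theorem cycle4 {z0 z1 z2 z3 : Rigid.G} (h : ∃ k : ℤ, HasFix (T ^ k * (z3 * z2 * z1 * z0))) :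
    ∃ (p0 p1 p2 p3 : ℝ) (k : ℤ), z0 p0 = p1 ∧ z1 p1 = p2 ∧ z2 p2 = p3 ∧ z3 p3 = p0 + k := by
  obtain ⟨k, p, hp⟩ := h
  refine ⟨p, z0 p, z1 (z0 p), z2 (z1 (z0 p)), -k, rfl, rfl, rfl, ?_⟩
  rw [mul_ap, Tz_ap, mul_ap, mul_ap, mul_ap] at hp
  push_cast
  linarith

/-- **Rigidity theorem for the eight point action.** -/
theorem q8 {X Y Z : Fin 8 → Rigid.G} {t m : Fin 8 → ℤ}
    (ha : ∀ q, UU Y Z (qU q) * UU Y Z q = T ^ (t q)) (hs : ∑ q, t q = 8)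
    (hb : ∀ q, VV X Y (qV q) * VV X Y q = T ^ (m q))
    (hc : ∀ q, ∃ k : ℤ, VV X Y (qZ q) * Z q = T ^ k * (Z (qV q) * VV X Y q))
    (hd1 : ∃ k : ℤ, HasFix (T ^ k * (Z 4 * Z 3 * Z 1 * Z 0)))
    (hd2 : ∃ k : ℤ, HasFix (T ^ k * (Z 5 * Z 7 * Z 6 * Z 2))) :
    ∃ n : ℤ, ∑ q, m q = 8 * n := by
  obtain ⟨p0, p1, p3, p4, k1, e0, e1, e3, e4⟩ := cycle4 hd1
  obtain ⟨p2, p6, p7, p5, k2, e2, e6, e7, e5⟩ := cycle4 hd2
  choose κ hκ using hc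
  have base : Base qZ⁻¹ qY⁻¹ qU (fun q => (Z (qZ⁻¹ q))⁻¹) (fun q => (Y (qY⁻¹ q))⁻¹)
      (UU Y Z) := by
    refine ⟨?_, qU_qU, fun q => ?_, t, ha, ?_⟩
    · decide
    · have h1 : qZ (qZ⁻¹ q) = q := by simp
      have h2 : qY⁻¹ (qU (qZ⁻¹ q)) = qZ⁻¹ (qY⁻¹ q) := by revert q; decide
      simp only [UU, h1, h2]
      group
    · rw [hs]; simp
  have key := main (x := qX⁻¹) (z' := qX * qY⁻¹ * qX⁻¹) (v := qV)
    (X := fun q => (X (qX⁻¹ q))⁻¹)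
    (Z' := fun q => X (qY⁻¹ (qX⁻¹ q)) * (Y (qY⁻¹ (qX⁻¹ q)))⁻¹ * (X (qX⁻¹ q))⁻¹)
    (V := VV X Y) (m := m) (κ := fun q => -κ (qZ⁻¹ q)) (P := ![p0, p1, p2, p3, p4, p5, p6, p7])
    base ?_ qV_qV ?_ ?_ ?_ hb ?_ ?_ ?_
  · obtain ⟨m', h1, h2, h3⟩ := key
    refine ⟨m' 0, ?_⟩
    rw [← h3]
    have a0 := h1 0
    have a1 := h1 1
    have a3 := h1 3
    have a2 := h1 2
    have a5 := h1 5
    have a6 := h1 6
    have b0 := h2 0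
    rw [show qZ⁻¹ (0 : Fin 8) = 4 by decide] at a0
    rw [show qZ⁻¹ (1 : Fin 8) = 0 by decide] at a1
    rw [show qZ⁻¹ (3 : Fin 8) = 1 by decide] at a3
    rw [show qZ⁻¹ (2 : Fin 8) = 5 by decide] at a2
    rw [show qZ⁻¹ (5 : Fin 8) = 7 by decide] at a5
    rw [show qZ⁻¹ (6 : Fin 8) = 2 by decide] at a6
    rw [show qV (0 : Fin 8) = 5 by decide] at b0
    rw [Fin.sum_univ_eight]
    omega
  · intro q; revert q; decide
  · intro q; revert q; decide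
  · intro q; revert q; decide
  · intro q
    have h1 : qY (qY⁻¹ q) = q := by simp
    simp only [VV, h1]
    group
  · intro q
    have h1 : qZ⁻¹ (qV q) = qV (qZ⁻¹ q) := by revert q; decide
    have h := hκ (qZ⁻¹ q)
    rw [show qZ (qZ⁻¹ q) = q by simp] at h
    have h2 : VV X Y q = T ^ (κ (qZ⁻¹ q)) * (Z (qV (qZ⁻¹ q)) * VV X Y (qZ⁻¹ q)) *
      (Z (qZ⁻¹ q))⁻¹ := by rw [← h]; group
    simp only [h1]
    rw [h2, mul_assoc (T ^ κ _), mTm, ← mul_assoc (T ^ (-κ _)), ← zpow_add, neg_add_cancel,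
      zpow_zero, one_mul]
    group
  · intro q
    have h1 : qX⁻¹ ((qX * qY⁻¹ * qX⁻¹) q) = qY⁻¹ (qX⁻¹ q) := by revert q; decide
    simp only [h1]
    group
  · have hinv : ∀ {f : Rigid.G} {a b : ℝ} {k : ℤ}, f a = b + k → f⁻¹ b = a + (-k : ℤ) := by
      intro f a b k hf
      have : b = f (a + (-k : ℤ)) := by rw [ap_int, hf]; push_cast; ring
      rw [this, inv_ap]
    have hinv0 : ∀ {f : Rigid.G} {a b : ℝ}, f a = b → f⁻¹ b = a + (0 : ℤ) := by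
      intro f a b hf
      rw [← hf, inv_ap]; simp
    intro q
    fin_cases q
    · exact ⟨_, hinv e4⟩
    · exact ⟨_, hinv0 e0⟩
    · exact ⟨_, hinv e5⟩
    · exact ⟨_, hinv0 e1⟩
    · exact ⟨_, hinv0 e3⟩
    · exact ⟨_, hinv0 e7⟩
    · exact ⟨_, hinv0 e2⟩
    · exact ⟨_, hinv0 e6⟩

end Pool.Agent.EC.GenRig
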