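import Pool.Agent.EC.Rap

/-! Discreteness, covering and cocompactness for right-angled reflection groups. -/

namespace Pool.Agent.EC

theorem isClosed_H3 : IsClosed H3 := by
  have : H3 = {x : V4 | lor x x = -1} ∩ {x : V4 | 1 ≤ x 0} := by
    ext x
    constructor
    · rintro ⟨h1, h2⟩
      refine ⟨h1, ?_⟩
      show 1 ≤ x 0
      unfold lor at h1
      nlinarith [sq_nonneg (x 1), sq_nonneg (x 2), sq_nonneg (x 3)]
    · rintro ⟨h1, h2⟩
      exact ⟨h1, lt_of_lt_of_le one_pos h2⟩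
  rw [this]
  apply IsClosed.inter
  · apply isClosed_eq
    · exact continuous_lor.comp (continuous_id.prodMk continuous_id)
    · exact continuous_const
  · exact isClosed_le continuous_const (continuous_apply 0)

/-- Balls (sublevel sets of the time coordinate) in the hyperboloid are compact. -/
theorem isCompact_ball (R : ℝ) : IsCompact {x : V4 | x ∈ H3 ∧ x 0 ≤ R} := by
  apply Metric.isCompact_of_isClosed_isBounded
  · exact isClosed_H3.inter (isClosed_le (continuous_apply 0) continuous_const)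
  · rw [Metric.isBounded_iff_subset_closedBall 0]
    refine ⟨|R|, ?_⟩
    rintro x ⟨⟨h1, h2⟩, h3⟩
    rw [mem_closedBall_zero_iff, pi_norm_le_iff_of_nonneg (abs_nonneg R)]
    have h4 : x 0 ≤ |R| := le_trans h3 (le_abs_self R)
    have h5 : x 1 ^ 2 + x 2 ^ 2 + x 3 ^ 2 = x 0 ^ 2 - 1 := by unfold lor at h1; nlinarith
    intro i
    rw [Real.norm_eq_abs]
    have h6 : x i ^ 2 ≤ x 0 ^ 2 := by
      fin_cases i
      · exact le_refl _
      · change x 1 ^ 2 ≤ _; nlinarith [sq_nonneg (x 2), sq_nonneg (x 3)]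
      · change x 2 ^ 2 ≤ _; nlinarith [sq_nonneg (x 1), sq_nonneg (x 3)]
      · change x 3 ^ 2 ≤ _; nlinarith [sq_nonneg (x 2), sq_nonneg (x 1)]
    have h7 := abs_le_of_sq_le_sq h6 h2.le
    linarith

/-- A uniformly separated family in the hyperboloid meets compact sets in finitely many members. -/
theorem finite_of_sep {α : Type*} (f : α → V4) {η : ℝ} (hη : 0 < η)
    (hf : ∀ a, f a ∈ H3) (hsep : ∀ a b, a ≠ b → lor (f a) (f b) ≤ -(1 + η)) {K : Set V4}
    (hK : IsCompact K) : {a | f a ∈ K}.Finite := by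
  have huc := (hK.prod hK).uniformContinuousOn_of_continuous continuous_lor.continuousOn
  rw [Metric.uniformContinuousOn_iff] at huc
  obtain ⟨ε, hε, h⟩ := huc η hη
  have hdist : ∀ a b, f a ∈ K → f b ∈ K → dist (f a) (f b) < ε → a = b := by
    intro a b ha hb hab
    by_contra hne
    have h1 := h (f a, f b) ⟨ha, hb⟩ (f a, f a) ⟨ha, ha⟩ (by
      rw [Prod.dist_eq]
      simp only [dist_self]
      rw [dist_comm]
      exact max_lt hε hab)
    simp only [Real.dist_eq] at h1
    have h2 := hsep a b hne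
    have h3 : lor (f a) (f a) = -1 := (hf a).1
    rw [h3] at h1
    have := (abs_lt.mp h1).1
    linarith
  obtain ⟨t, -, htf, htc⟩ := hK.finite_cover_balls (half_pos hε)
  have hsub : {a | f a ∈ K} ⊆ ⋃ x ∈ t, {a | f a ∈ K ∧ dist (f a) x < ε / 2} := by
    intro a ha
    have := htc ha
    rw [Set.mem_iUnion₂] at this
    obtain ⟨x, hx, hax⟩ := this
    rw [Set.mem_iUnion₂]
    exact ⟨x, hx, ha, hax⟩
  refine Set.Finite.subset (htf.biUnion fun x _ => ?_) hsub
  apply Set.Subsingleton.finite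
  rintro a ⟨ha, hax⟩ b ⟨hb, hbx⟩
  apply hdist a b ha hb
  calc dist (f a) (f b) ≤ dist (f a) x + dist (f b) x := dist_triangle_right _ _ _
    _ < ε := by linarith

namespace RAP

variable {ι : Type*} (R : RAP ι)

theorem exists_depth [Finite ι] : ∃ δ : ℝ, 0 < δ ∧ ∀ i, EC.lor R.c (R.e i) ≤ -δ := by
  have := Fintype.ofFinite ι
  by_cases hne : Nonempty ι
  · obtain ⟨i0, -, hi0⟩ := Finset.exists_min_image Finset.univ (fun i => -EC.lor R.c (R.e i))
      ⟨Classical.choice hne, Finset.mem_univ _⟩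
    refine ⟨-EC.lor R.c (R.e i0), by linarith [R.hce i0], fun i => ?_⟩
    have := hi0 i (Finset.mem_univ _)
    linarith
  · exact ⟨1, one_pos, fun i => (hne ⟨i⟩).elim⟩

/-- The orbit of `c` is uniformly separated. -/
theorem exists_sep [Finite ι] : ∃ η : ℝ, 0 < η ∧ ∀ w w' : Rac R.G, w ≠ w' →
    EC.lor (R.rho w R.c) (R.rho w' R.c) ≤ -(1 + η) := by
  obtain ⟨δ, hδ, h⟩ := R.exists_depth
  refine ⟨Real.sqrt (1 + δ ^ 2) - 1, ?_, ?_⟩
  · have : 1 < Real.sqrt (1 + δ ^ 2) := by
      rw [Real.lt_sqrt (by norm_num)]; nlinarith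
    linarith
  · intro w w' hne
    have hne' : w'⁻¹ * w ≠ 1 := by
      intro h1; apply hne
      have : w = w' * (w'⁻¹ * w) := by group
      rw [this, h1, mul_one]
    obtain ⟨j, hj⟩ := (racS R.G).exists_leftDescent_of_ne_one hne'
    have h1 := R.cone_pos hj R.c_mem_cone
    have hm : R.rho (w'⁻¹ * w) R.c ∈ H3 := Oplus.h3 (R.rho_mem _) R.hc
    have h2 := lor_sep hm R.hc (R.he j) hδ h1.le (h j)
    have h3 := lor_le_neg_one hm R.hc
    have h4 : EC.lor (R.rho w R.c) (R.rho w' R.c) = EC.lor (R.rho (w'⁻¹ * w) R.c) R.c := by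
      have h5 : R.rho w R.c = R.rho w' (R.rho (w'⁻¹ * w) R.c) := by
        rw [← LinearEquiv.mul_apply, ← map_mul]; congr 2; group
      rw [h5, Oplus.lor (R.rho_mem w')]
    rw [h4]
    set a := EC.lor (R.rho (w'⁻¹ * w) R.c) R.c
    have h6 : Real.sqrt (1 + δ ^ 2) ≤ -a := by
      apply Real.sqrt_le_iff.mpr
      constructor
      · linarith
      · nlinarith
    linarith

theorem finite_orbit [Finite ι] {K : Set V4} (hK : IsCompact K) :
    {w : Rac R.G | R.rho w R.c ∈ K}.Finite := by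
  obtain ⟨η, hη, h⟩ := R.exists_sep
  exact finite_of_sep (fun w => R.rho w R.c) hη (fun w => Oplus.h3 (R.rho_mem w) R.hc) h hK

/-- Proper discontinuity. -/
theorem proper [Finite ι] {K : Set V4} (hK : IsCompact K) (hKH : K ⊆ H3) :
    {w : Rac R.G | ∃ x ∈ K, R.rho w x ∈ K}.Finite := by
  rcases K.eq_empty_or_nonempty with rfl | hne
  · simp
  obtain ⟨a, -, ha⟩ := hK.exists_isMaxOn hne (continuous_apply (0 : Fin 4)).continuousOn
  have hc2 : Continuous fun x : V4 => -EC.lor R.c x :=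
    (continuous_lor.comp (continuous_const.prodMk continuous_id)).neg
  obtain ⟨b, -, hb⟩ := hK.exists_isMaxOn hne hc2.continuousOn
  apply (R.finite_orbit (isCompact_ball (2 * a 0 * -EC.lor R.c b))).subset
  rintro w ⟨x, hx, hwx⟩
  have hz : R.rho w R.c ∈ H3 := Oplus.h3 (R.rho_mem w) R.hc
  refine ⟨hz, ?_⟩
  have h1 := time_bound hz (hKH hwx)
  rw [Oplus.lor (R.rho_mem w)] at h1
  have h2 : (R.rho w x) 0 ≤ a 0 := ha hwx
  have h3 : -EC.lor R.c x ≤ -EC.lor R.c b := hb hx
  have h4 : 0 < (R.rho w x) 0 := (hKH hwx).2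
  have h5 := lor_le_neg_one R.hc (hKH hx)
  calc (R.rho w R.c) 0 ≤ 2 * (R.rho w x) 0 * (-EC.lor R.c x) := h1
    _ ≤ 2 * a 0 * -EC.lor R.c b := by
      apply mul_le_mul (by linarith) h3 (by linarith) (by linarith)

/-- The translates of the polyhedron cover hyperbolic space. -/
theorem cover [Finite ι] {x : V4} (hx : x ∈ H3) : ∃ w : Rac R.G, R.rho w x ∈ R.P := by
  set S : Set (Rac R.G) := {w | -EC.lor (R.rho w x) R.c ≤ -EC.lor x R.c} with hS
  have hfin : S.Finite := by
    have h1 := R.finite_orbit (isCompact_ball (2 * x 0 * (-EC.lor x R.c)))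
    have h2 : ((fun w : Rac R.G => w⁻¹) ⁻¹'
        {w : Rac R.G | R.rho w R.c ∈ {z : V4 | z ∈ H3 ∧ z 0 ≤ 2 * x 0 * (-EC.lor x R.c)}}).Finite :=
      h1.preimage (fun a _ b _ h => inv_injective h)
    apply h2.subset
    intro w hw
    have hz : R.rho w⁻¹ R.c ∈ H3 := Oplus.h3 (R.rho_mem _) R.hc
    refine ⟨hz, ?_⟩
    have h3 := time_bound hz hx
    have h4 : EC.lor (R.rho w⁻¹ R.c) x = EC.lor (R.rho w x) R.c := by
      rw [← Oplus.lor (R.rho_mem w), ← LinearEquiv.mul_apply, ← map_mul, mul_inv_cancel, map_one,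
        lor_comm]
      rfl
    rw [h4] at h3
    have h5 : -EC.lor (R.rho w x) R.c ≤ -EC.lor x R.c := hw
    have := hx.2
    nlinarith
  have hne : S.Nonempty := ⟨1, by rw [hS]; simp⟩
  obtain ⟨w, hw, hmin⟩ := Set.exists_min_image S (fun w => -EC.lor (R.rho w x) R.c) hfin hne
  have hmin' : ∀ w', -EC.lor (R.rho w x) R.c ≤ -EC.lor (R.rho w' x) R.c := by
    intro w'
    by_cases h : w' ∈ S
    · exact hmin w' h
    · have h1 : -EC.lor x R.c < -EC.lor (R.rho w' x) R.c := not_le.mp h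
      exact le_trans hw h1.le
  refine ⟨w, Oplus.h3 (R.rho_mem w) hx, fun i => ?_⟩
  by_contra hcon
  push Not at hcon
  have h1 := hmin' ((racS R.G).simple i * w)
  rw [map_mul, rho_simple, LinearEquiv.mul_apply, reflE_apply, lor_sub_left, lor_smul_left,
    lor_comm (R.e i) R.c] at h1
  have h2 := R.hce i
  nlinarith

theorem isClosed_P : IsClosed R.P := by
  have : R.P = H3 ∩ ⋂ i, {x | EC.lor x (R.e i) ≤ 0} := by
    ext x; simp [P, Set.mem_iInter]
  rw [this]
  refine isClosed_H3.inter (isClosed_iInter fun i => ?_)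
  exact isClosed_le (continuous_lor.comp (continuous_id.prodMk continuous_const)) continuous_const

end RAP

/-- Expansion in an orthogonal frame: time-like `v` and three orthonormal space-like vectors. -/
theorem frame_expand {v e0 e1 e2 : V4} (hv : lor v v < 0) (h0 : lor e0 e0 = 1)
    (h1 : lor e1 e1 = 1) (h2 : lor e2 e2 = 1) (h01 : lor e0 e1 = 0) (h02 : lor e0 e2 = 0)
    (h12 : lor e1 e2 = 0) (hv0 : lor v e0 = 0) (hv1 : lor v e1 = 0) (hv2 : lor v e2 = 0)
    (x : V4) : ∃ a : ℝ, x = a • v + lor x e0 • e0 + lor x e1 • e1 + lor x e2 • e2 := by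
  have hv0' : lor e0 v = 0 := by rw [lor_comm]; exact hv0
  have hv1' : lor e1 v = 0 := by rw [lor_comm]; exact hv1
  have hv2' : lor e2 v = 0 := by rw [lor_comm]; exact hv2
  have h01' : lor e1 e0 = 0 := by rw [lor_comm]; exact h01
  have h02' : lor e2 e0 = 0 := by rw [lor_comm]; exact h02
  have h12' : lor e2 e1 = 0 := by rw [lor_comm]; exact h12
  have hli : LinearIndependent ℝ ![v, e0, e1, e2] := by
    rw [Fintype.linearIndependent_iff]
    intro g hg
    rw [Fin.sum_univ_four] at hg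
    simp only [Matrix.cons_val_zero, Matrix.cons_val_one, Matrix.cons_val] at hg
    have key : ∀ y, g 0 * lor v y + g 1 * lor e0 y + g 2 * lor e1 y + g 3 * lor e2 y = 0 := by
      intro y
      have := congrArg (fun z => lor z y) hg
      simp only [lor_add_left, lor_smul_left] at this
      rw [this]; unfold lor; simp
    have k0 := key v
    have k1 := key e0
    have k2 := key e1
    have k3 := key e2
    rw [hv0', hv1', hv2'] at k0
    rw [hv0, h0, h01', h02'] at k1
    rw [hv1, h01, h1, h12'] at k2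
    rw [hv2, h02, h12, h2] at k3
    intro i
    fin_cases i
    · change g 0 = 0
      have : g 0 * lor v v = 0 := by linarith
      rcases mul_eq_zero.mp this with h | h
      · exact h
      · linarith
    · change g 1 = 0; linarith
    · change g 2 = 0; linarith
    · change g 3 = 0; linarith
  have hspan := hli.span_eq_top_of_card_eq_finrank' (by simp)
  have hx : x ∈ Submodule.span ℝ (Set.range ![v, e0, e1, e2]) := by rw [hspan]; trivial
  rw [Submodule.mem_span_range_iff_exists_fun] at hx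
  obtain ⟨c, hc⟩ := hx
  rw [Fin.sum_univ_four] at hc
  simp only [Matrix.cons_val_zero, Matrix.cons_val_one, Matrix.cons_val] at hc
  refine ⟨c 0, ?_⟩
  have key : ∀ y, c 0 * lor v y + c 1 * lor e0 y + c 2 * lor e1 y + c 3 * lor e2 y = lor x y := by
    intro y
    have := congrArg (fun z => lor z y) hc
    simp only [lor_add_left, lor_smul_left] at this
    exact this
  have k1 := key e0
  have k2 := key e1
  have k3 := key e2
  rw [hv0, h0, h01', h02'] at k1
  rw [hv1, h01, h1, h12'] at k2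
  rw [hv2, h02, h12, h2] at k3
  have c1 : lor x e0 = c 1 := by linarith
  have c2 : lor x e1 = c 2 := by linarith
  have c3 : lor x e2 = c 3 := by linarith
  rw [c1, c2, c3]; exact hc.symm

/-- Vertex certificate of compactness of a right-angled polyhedron. -/
structure VertexCert {ι : Type*} (R : RAP ι) (κ : Type*) where
  /-- the vertices -/
  v : κ → V4
  /-- the three faces through a vertex -/
  J : κ → Fin 3 → ι
  /-- the other end of the edge leaving face `J k a` -/
  nb : κ → Fin 3 → κ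
  hv : ∀ k, FutT (v k)
  hv0 : ∀ k a, lor (v k) (R.e (J k a)) = 0
  hJ : ∀ k a b, a ≠ b → R.G.Adj (J k a) (J k b)
  hnb : ∀ k a, lor (v (nb k a)) (R.e (J k a)) < 0
  hnb0 : ∀ k a b, a ≠ b → lor (v (nb k a)) (R.e (J k b)) = 0

namespace VertexCert

variable {ι κ : Type*} {R : RAP ι} (C : VertexCert R κ)

theorem expand (k : κ) (x : V4) : ∃ a : ℝ, x = a • C.v k + lor x (R.e (C.J k 0)) • R.e (C.J k 0) +
    lor x (R.e (C.J k 1)) • R.e (C.J k 1) + lor x (R.e (C.J k 2)) • R.e (C.J k 2) :=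
  frame_expand (C.hv k).1 (R.he _) (R.he _) (R.he _) (R.hadj _ _ (C.hJ k 0 1 (by decide)))
    (R.hadj _ _ (C.hJ k 0 2 (by decide))) (R.hadj _ _ (C.hJ k 1 2 (by decide)))
    (C.hv0 k 0) (C.hv0 k 1) (C.hv0 k 2) x

/-- Linear functionals on the cone, normalised by the time coordinate, are maximal at a vertex. -/
theorem functional [Finite κ] [Nonempty κ] (f : V4 →ₗ[ℝ] ℝ) :
    ∃ k, ∀ x : V4, (∀ i, lor x (R.e i) ≤ 0) → f x ≤ f (C.v k) / (C.v k) 0 * x 0 := by
  have := Fintype.ofFinite κ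
  obtain ⟨k, -, hk⟩ := Finset.exists_max_image Finset.univ (fun k => f (C.v k) / (C.v k) 0)
    ⟨Classical.arbitrary κ, Finset.mem_univ _⟩
  refine ⟨k, fun x hx => ?_⟩
  set M := f (C.v k) / (C.v k) 0 with hM
  set g : V4 →ₗ[ℝ] ℝ := f - M • LinearMap.proj (R := ℝ) (φ := fun _ : Fin 4 => ℝ) 0 with hg
  have hgx : ∀ z, g z = f z - M * z 0 := fun z => by simp [hg]
  have hpos : 0 < (C.v k) 0 := (C.hv k).2
  have g0 : g (C.v k) = 0 := by
    rw [hgx, hM]; field_simp; ring
  have gneg : ∀ l, g (C.v l) ≤ 0 := by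
    intro l
    have h1 := hk l (Finset.mem_univ _)
    have h2 : 0 < (C.v l) 0 := (C.hv l).2
    rw [hgx]
    have h3 : f (C.v l) ≤ M * (C.v l) 0 := by
      rw [div_le_iff₀ h2] at h1; exact h1
    linarith
  have ge : ∀ a : Fin 3, 0 ≤ g (R.e (C.J k a)) := by
    intro a
    have h1 := gneg (C.nb k a)
    have h2 := C.hnb k a
    obtain ⟨t, ht⟩ := C.expand k (C.v (C.nb k a))
    have h3 : g (C.v (C.nb k a)) = lor (C.v (C.nb k a)) (R.e (C.J k a)) * g (R.e (C.J k a)) := by
      conv_lhs => rw [ht]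
      simp only [map_add, map_smul, g0, smul_eq_mul, mul_zero, zero_add]
      fin_cases a
      · have e1 := C.hnb0 k 0 1 (by decide)
        have e2 := C.hnb0 k 0 2 (by decide)
        simp only [Fin.zero_eta] at *
        rw [e1, e2]; ring
      · have e1 := C.hnb0 k 1 0 (by decide)
        have e2 := C.hnb0 k 1 2 (by decide)
        simp only [Fin.mk_one] at *
        rw [e1, e2]; ring
      · have e1 := C.hnb0 k 2 0 (by decide)
        have e2 := C.hnb0 k 2 1 (by decide)
        simp only [Fin.reduceFinMk] at *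
        rw [e1, e2]; ring
    rw [h3] at h1
    by_contra hcon
    push Not at hcon
    nlinarith
  have hx' : g x ≤ 0 := by
    obtain ⟨t, ht⟩ := C.expand k x
    conv_lhs => rw [ht]
    simp only [map_add, map_smul, g0, smul_eq_mul, mul_zero, zero_add]
    have p0 := mul_nonneg (neg_nonneg.mpr (hx (C.J k 0))) (ge 0)
    have p1 := mul_nonneg (neg_nonneg.mpr (hx (C.J k 1))) (ge 1)
    have p2 := mul_nonneg (neg_nonneg.mpr (hx (C.J k 2))) (ge 2)
    linarith
  rw [hgx] at hx'
  linarith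

include C in
theorem isCompact_P [Finite κ] [Nonempty κ] : IsCompact R.P := by
  have := Fintype.ofFinite κ
  -- the maximal ratio of the vertices
  obtain ⟨m, -, hm⟩ := Finset.exists_max_image Finset.univ
    (fun k => ((C.v k) 1 ^ 2 + (C.v k) 2 ^ 2 + (C.v k) 3 ^ 2) / (C.v k) 0 ^ 2)
    ⟨Classical.arbitrary κ, Finset.mem_univ _⟩
  set τ := ((C.v m) 1 ^ 2 + (C.v m) 2 ^ 2 + (C.v m) 3 ^ 2) / (C.v m) 0 ^ 2 with hτ
  have hτ1 : τ < 1 := by
    have h1 := (C.hv m).1
    have h2 := (C.hv m).2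
    rw [hτ, div_lt_one (by positivity)]
    unfold lor at h1; nlinarith
  have hτ0 : 0 ≤ τ := by rw [hτ]; positivity
  have hle : ∀ k, (C.v k) 1 ^ 2 + (C.v k) 2 ^ 2 + (C.v k) 3 ^ 2 ≤ τ * (C.v k) 0 ^ 2 := by
    intro k
    have h1 := hm k (Finset.mem_univ _)
    have h2 := (C.hv k).2
    rw [div_le_iff₀ (by positivity)] at h1
    exact h1
  apply (isCompact_ball (1 / (1 - τ))).of_isClosed_subset R.isClosed_P
  rintro x ⟨hx, hxe⟩
  refine ⟨hx, ?_⟩
  obtain ⟨hx1, hx0⟩ := hx
  set s := x 1 ^ 2 + x 2 ^ 2 + x 3 ^ 2 with hs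
  have hs1 : s = x 0 ^ 2 - 1 := by unfold lor at hx1; rw [hs]; nlinarith
  let f : V4 →ₗ[ℝ] ℝ :=
    { toFun := fun z => x 1 * z 1 + x 2 * z 2 + x 3 * z 3
      map_add' := fun a b => by simp only [Pi.add_apply]; ring
      map_smul' := fun a b => by simp only [Pi.smul_apply, smul_eq_mul, RingHom.id_apply]; ring }
  obtain ⟨k, hk⟩ := C.functional f
  have h1 := hk x hxe
  have hfx : f x = s := by change x 1 * x 1 + x 2 * x 2 + x 3 * x 3 = s; rw [hs]; ring
  rw [hfx] at h1
  have hv0 := (C.hv k).2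
  set F := f (C.v k) with hF
  have hF2 : F ^ 2 ≤ s * (τ * (C.v k) 0 ^ 2) := by
    have h2 := spatial_cs x (C.v k)
    have h3 := hle k
    have hs0 : 0 ≤ s := by rw [hs]; positivity
    calc F ^ 2 ≤ s * ((C.v k) 1 ^ 2 + (C.v k) 2 ^ 2 + (C.v k) 3 ^ 2) := h2
      _ ≤ s * (τ * (C.v k) 0 ^ 2) := mul_le_mul_of_nonneg_left h3 hs0
  -- s ≤ (F / v0) * x0, so s^2 ≤ (F/v0)^2 x0^2 ≤ s τ x0^2
  have hs0 : 0 ≤ s := by rw [hs]; positivity
  have h4 : s ^ 2 ≤ s * τ * x 0 ^ 2 := by
    have h5 : 0 ≤ F / (C.v k) 0 * x 0 := le_trans hs0 h1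
    have h6 : s ^ 2 ≤ (F / (C.v k) 0 * x 0) ^ 2 := by
      exact pow_le_pow_left₀ hs0 h1 2
    have h7 : (F / (C.v k) 0 * x 0) ^ 2 = F ^ 2 / (C.v k) 0 ^ 2 * x 0 ^ 2 := by
      rw [mul_pow, div_pow]
    have h8 : F ^ 2 / (C.v k) 0 ^ 2 ≤ s * τ := by
      rw [div_le_iff₀ (by positivity)]; linarith
    rw [h7] at h6
    exact le_trans h6 (mul_le_mul_of_nonneg_right h8 (sq_nonneg _))
  have h9 : s ≤ τ * x 0 ^ 2 := by
    rcases eq_or_lt_of_le hs0 with h | h
    · rw [← h]; positivity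
    · by_contra hcon
      push Not at hcon
      nlinarith
  rw [hs1] at h9
  have h10 : x 0 ^ 2 * (1 - τ) ≤ 1 := by linarith
  have h11 : 1 ≤ x 0 := by nlinarith [sq_nonneg (x 1), sq_nonneg (x 2), sq_nonneg (x 3)]
  rw [le_div_iff₀ (by linarith)]
  nlinarith

end VertexCert

end Pool.Agent.EC
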