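import Pool.Agent.EC.Rap
import Pool.Agent.EC.Lat

/-! Coxeter polyhedra in hyperbolic 3-space with dihedral angles `π/2` and `π/4`: the reflection
group is the Coxeter group; it acts faithfully, discretely, and the translates of the polyhedron
cover. -/

namespace Pool.Agent.EC

/-- A Coxeter polyhedron with angles `π/2`, `π/4` (labels `2`, `4`) and label `∞` (coded by `0`)
for pairs of mirrors which do not meet. -/
structure CP (ι : Type*) where
  /-- the Coxeter matrix -/
  M : CoxeterMatrix ι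
  /-- outward unit normals -/
  e : ι → V4
  /-- interior point -/
  c : V4
  he : ∀ i, lor (e i) (e i) = 1
  hM : ∀ i j, i ≠ j → (M i j = 2 ∧ lor (e i) (e j) = 0) ∨
    (M i j = 4 ∧ lor (e i) (e j) < 0 ∧ lor (e i) (e j) ^ 2 = 1 / 2) ∨
    (M i j = 0 ∧ lor (e i) (e j) ≤ -1)
  hc : c ∈ H3
  hce : ∀ i, lor c (e i) < 0

/-- The square of the product of two reflections whose mirrors make the angle `π/4`. -/
theorem refl_sq4 {e f : V4} (he : lor e e = 1) (hf : lor f f = 1) (hef : lor e f ^ 2 = 1 / 2)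
    (x : V4) : reflL e (reflL f (reflL e (reflL f x))) =
      x - (4 * lor x e - 4 * lor x f * lor e f) • e - (4 * lor x f - 4 * lor x e * lor e f) • f := by
  have hfe : lor f e = lor e f := lor_comm f e
  simp only [reflL_apply, lor_sub_left, lor_smul_left, he, hf, hfe]
  set p := lor x e
  set q := lor x f
  set κ := lor e f
  ext k
  simp only [Pi.sub_apply, Pi.smul_apply, smul_eq_mul]
  have h3 : κ ^ 3 = 1 / 2 * κ := by rw [pow_succ, hef]
  ring_nf
  simp only [hef, h3]
  ring

namespace CP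

variable {ι : Type*} (R : CP ι)

/-- The Coxeter group of the polyhedron. -/
abbrev W : Type _ := R.M.Group

/-- Its Coxeter system. -/
abbrev S : CoxeterSystem R.M R.W := R.M.toCoxeterSystem

theorem liftable : R.M.IsLiftable (fun i => reflE (R.e i) (R.he i)) := by
  intro i j
  by_cases hij : i = j
  · subst hij
    rw [R.M.diagonal, pow_one]
    exact LinearEquiv.ext fun x => refl_refl (R.he i) x
  rcases R.hM i j hij with ⟨hm, h0⟩ | ⟨hm, -, h2⟩ | ⟨hm, -⟩
  · rw [hm, pow_two]
    apply LinearEquiv.ext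
    intro x
    have h0' : lor (R.e j) (R.e i) = 0 := by rw [lor_comm]; exact h0
    change reflE (R.e i) (R.he i) (reflE (R.e j) (R.he j)
      (reflE (R.e i) (R.he i) (reflE (R.e j) (R.he j) x))) = x
    simp only [reflE_apply, lor_sub_left, lor_smul_left, h0, h0', R.he]
    ext k
    simp only [Pi.sub_apply, Pi.smul_apply, smul_eq_mul]
    ring
  · rw [hm]
    apply LinearEquiv.ext
    intro x
    have hsq : ∀ y, ((reflE (R.e i) (R.he i) * reflE (R.e j) (R.he j)) ^ 2) y =
        y - (4 * lor y (R.e i) - 4 * lor y (R.e j) * lor (R.e i) (R.e j)) • R.e i -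
          (4 * lor y (R.e j) - 4 * lor y (R.e i) * lor (R.e i) (R.e j)) • R.e j := by
      intro y
      rw [pow_two]
      exact refl_sq4 (R.he i) (R.he j) h2 y
    have h44 : ∀ g : V4 ≃ₗ[ℝ] V4, (g ^ 4) x = (g ^ 2) ((g ^ 2) x) := by
      intro g
      rw [← LinearEquiv.mul_apply, ← pow_add]
    rw [h44]
    change ((reflE (R.e i) (R.he i) * reflE (R.e j) (R.he j)) ^ 2)
      (((reflE (R.e i) (R.he i) * reflE (R.e j) (R.he j)) ^ 2) x) = x
    rw [hsq, hsq]
    have hji : lor (R.e j) (R.e i) = lor (R.e i) (R.e j) := lor_comm _ _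
    simp only [lor_sub_left, lor_smul_left, R.he, hji]
    set κ := lor (R.e i) (R.e j)
    ext k
    simp only [Pi.sub_apply, Pi.smul_apply, smul_eq_mul]
    have h3 : κ ^ 3 = 1 / 2 * κ := by rw [pow_succ, h2]
    ring_nf
    simp only [h2, h3]
    ring
  · rw [hm, pow_zero]

/-- The representation of the Coxeter group by reflections. -/
noncomputable def rho : R.W →* (V4 ≃ₗ[ℝ] V4) :=
  R.S.lift ⟨fun i => reflE (R.e i) (R.he i), R.liftable⟩

theorem rho_simple (i : ι) : R.rho (R.S.simple i) = reflE (R.e i) (R.he i) :=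
  R.S.lift_apply_simple _ i

theorem rho_mem (w : R.W) : R.rho w ∈ Oplus := by
  induction w using R.S.simple_induction with
  | simple i => rw [rho_simple]; exact reflE_mem _
  | one => rw [map_one]; exact Oplus.one_mem
  | mul a b ha hb => rw [map_mul]; exact Oplus.mul_mem ha hb

/-- The open polyhedral cone (future timelike part). -/
def Cone : Set V4 := {x | FutT x ∧ ∀ i, lor x (R.e i) < 0}

/-- The closed polyhedron. -/
def P : Set V4 := {x | x ∈ H3 ∧ ∀ i, lor x (R.e i) ≤ 0}

theorem c_mem_cone : R.c ∈ R.Cone := ⟨H3.fut R.hc, R.hce⟩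

theorem c_mem_P : R.c ∈ R.P := ⟨R.hc, fun i => (R.hce i).le⟩

/-- Opposite half-spaces of mirrors that do not meet are disjoint. -/
theorem disjoint_half {i j : ι} (h1 : lor (R.e i) (R.e j) ≤ -1) {x : V4} (hx : FutT x)
    (hi : 0 ≤ lor x (R.e i)) : lor x (R.e j) < 0 := by
  have hff : lor (R.e i + R.e j) (R.e i + R.e j) ≤ 0 := by
    rw [lor_add_left, lor_add_right, lor_add_right, R.he, R.he, lor_comm (R.e j) (R.e i)]
    linarith
  have hcf : lor R.c (R.e i + R.e j) < 0 := by
    rw [lor_add_right]; linarith [R.hce i, R.hce j]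
  have h2 := pos_of_lor_neg (H3.fut R.hc) hff hcf
  have h3 := lor_neg_of_fut hx hff h2
  rw [lor_add_right] at h3; linarith

/-- Peeling a left descent. -/
theorem peel {w : R.W} {j : ι} (hj : R.S.IsLeftDescent w j) :
    R.S.length (R.S.simple j * w) + 1 = R.S.length w ∧
      w = R.S.simple j * (R.S.simple j * w) ∧ ¬ R.S.IsLeftDescent (R.S.simple j * w) j := by
  have hlen := (R.S.isLeftDescent_iff).mp hj
  have hww : w = R.S.simple j * (R.S.simple j * w) := by
    rw [← mul_assoc, R.S.simple_mul_simple_self, one_mul]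
  refine ⟨hlen, hww, ?_⟩
  intro hcon
  have := (R.S.isLeftDescent_iff).mp hcon
  rw [← hww] at this; omega

theorem rho_mul_simple_apply (j : ι) (w : R.W) (x : V4) :
    R.rho (R.S.simple j * w) x = reflL (R.e j) (R.rho w x) := by
  rw [map_mul, rho_simple]; rfl

theorem simple_comm {i j : ι} (h : R.M i j = 2) :
    R.S.simple i * R.S.simple j = R.S.simple j * R.S.simple i := by
  have h1 := R.S.simple_mul_simple_pow i j
  rw [h, pow_two] at h1
  have h2 := eq_inv_of_mul_eq_one_left h1
  rw [mul_inv_rev, R.S.inv_simple, R.S.inv_simple] at h2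
  exact h2

theorem simple_braid4 {i j : ι} (h : R.M i j = 4) :
    R.S.simple j * (R.S.simple i * (R.S.simple j * R.S.simple i)) =
      R.S.simple i * (R.S.simple j * (R.S.simple i * R.S.simple j)) := by
  have h1 := R.S.simple_mul_simple_pow i j
  rw [h, show (4 : ℕ) = 2 + 2 from rfl, pow_add] at h1
  have h2 := eq_inv_of_mul_eq_one_left h1
  rw [pow_two, mul_inv_rev, mul_inv_rev, R.S.inv_simple, R.S.inv_simple] at h2
  simp only [mul_assoc] at h2
  exact h2.symm

theorem cone_trans_aux (n : ℕ) : ∀ (w : R.W) (i : ι), R.S.length w = n →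
    ¬ R.S.IsLeftDescent w i → ∀ x ∈ R.Cone, lor (R.rho w x) (R.e i) < 0 := by
  induction n using Nat.strong_induction_on with
  | _ n ih =>
  intro w i hn hi x hx
  by_cases hw : w = 1
  · subst hw; rw [map_one]; exact hx.2 i
  obtain ⟨j, hj⟩ := R.S.exists_leftDescent_of_ne_one hw
  have hij : i ≠ j := by rintro rfl; exact hi hj
  obtain ⟨hlen, hww, hj'⟩ := R.peel hj
  set w1 := R.S.simple j * w with hw1
  have h1 := ih (R.S.length w1) (by omega) w1 j rfl hj' x hx
  have h2 : R.rho w x = reflL (R.e j) (R.rho w1 x) := by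
    rw [← R.rho_mul_simple_apply, ← hww]
  have hfut : FutT (R.rho w x) := Oplus.fut (R.rho_mem w) hx.1
  have hni := (R.S.not_isLeftDescent_iff).mp hi
  rcases R.hM i j hij with ⟨hm, h0⟩ | ⟨hm, hneg, hsq⟩ | ⟨hm, hle⟩
  · -- commuting case
    have h3 : ¬ R.S.IsLeftDescent w1 i := by
      intro hcon
      have h4 := (R.S.isLeftDescent_iff).mp hcon
      have h6 : R.S.simple i * w = R.S.simple j * (R.S.simple i * w1) := by
        conv_lhs => rw [hww]
        rw [← mul_assoc, R.simple_comm hm, mul_assoc]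
      have h7 := R.S.length_simple_mul (R.S.simple i * w1) j
      rw [← h6] at h7
      omega
    have h4 := ih (R.S.length w1) (by omega) w1 i rfl h3 x hx
    rw [h2, lor_refl_orth (by rw [lor_comm]; exact h0)]
    exact h4
  · -- label 4
    have hji : lor (R.e j) (R.e i) = lor (R.e i) (R.e j) := lor_comm _ _
    set κ := lor (R.e i) (R.e j) with hκ
    by_cases hd1 : R.S.IsLeftDescent w1 i
    · obtain ⟨hlen2, hww2, hi2⟩ := R.peel hd1
      set w2 := R.S.simple i * w1 with hw2
      have a1 := ih (R.S.length w2) (by omega) w2 i rfl hi2 x hx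
      have e1 : R.rho w1 x = reflL (R.e i) (R.rho w2 x) := by
        rw [← R.rho_mul_simple_apply, ← hww2]
      by_cases hd2 : R.S.IsLeftDescent w2 j
      · obtain ⟨hlen3, hww3, hj3⟩ := R.peel hd2
        set w3 := R.S.simple j * w2 with hw3
        have b1 := ih (R.S.length w3) (by omega) w3 j rfl hj3 x hx
        have e2 : R.rho w2 x = reflL (R.e j) (R.rho w3 x) := by
          rw [← R.rho_mul_simple_apply, ← hww3]
        have hi3 : ¬ R.S.IsLeftDescent w3 i := by
          intro hcon
          obtain ⟨hlen4, hww4, -⟩ := R.peel hcon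
          set w4 := R.S.simple i * w3 with hw4
          have h5 : R.S.simple i * w = R.S.simple j * (R.S.simple i * (R.S.simple j * w4)) := by
            have : w = R.S.simple i * (R.S.simple j * (R.S.simple i * (R.S.simple j * w4))) := by
              conv_lhs => rw [hww, hww2, hww3, hww4]
              have hb := R.simple_braid4 hm
              calc R.S.simple j * (R.S.simple i * (R.S.simple j * (R.S.simple i * w4)))
                  = (R.S.simple j * (R.S.simple i * (R.S.simple j * R.S.simple i))) * w4 := by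
                    simp only [mul_assoc]
                _ = (R.S.simple i * (R.S.simple j * (R.S.simple i * R.S.simple j))) * w4 := by
                    rw [hb]
                _ = _ := by simp only [mul_assoc]
            conv_lhs => rw [this]
            rw [← mul_assoc (R.S.simple i) (R.S.simple i), R.S.simple_mul_simple_self, one_mul]
          have h6 : R.S.length (R.S.simple i * w) ≤ R.S.length w4 + 3 := by
            rw [h5]
            have q1 := R.S.length_simple_mul w4 j
            have q2 := R.S.length_simple_mul (R.S.simple j * w4) i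
            have q3 := R.S.length_simple_mul (R.S.simple i * (R.S.simple j * w4)) j
            omega
          omega
        have b2 := ih (R.S.length w3) (by omega) w3 i rfl hi3 x hx
        -- `w = s_j s_i s_j w3`
        have : lor (R.rho w x) (R.e i) = lor (R.rho w3 x) (R.e i) := by
          rw [h2, e1, e2]
          simp only [reflL_apply, lor_sub_left, lor_smul_left, R.he, hji, ← hκ]
          set p := lor (R.rho w3 x) (R.e i)
          set q := lor (R.rho w3 x) (R.e j)
          have h3 : κ ^ 3 = 1 / 2 * κ := by rw [pow_succ, hsq]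
          ring_nf
          simp only [hsq, h3]
          ring
        rw [this]; exact b2
      · -- `w = s_j s_i w2`
        have b1 := ih (R.S.length w2) (by omega) w2 j rfl hd2 x hx
        have : lor (R.rho w x) (R.e i) = lor (R.rho w2 x) (R.e i) -
            2 * κ * lor (R.rho w2 x) (R.e j) := by
          rw [h2, e1]
          simp only [reflL_apply, lor_sub_left, lor_smul_left, R.he, hji, ← hκ]
          set p := lor (R.rho w2 x) (R.e i)
          set q := lor (R.rho w2 x) (R.e j)
          ring_nf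
          simp only [hsq]
          ring
        rw [this]; nlinarith
    · -- `w = s_j w1`
      have a1 := ih (R.S.length w1) (by omega) w1 i rfl hd1 x hx
      have : lor (R.rho w x) (R.e i) = lor (R.rho w1 x) (R.e i) -
          2 * κ * lor (R.rho w1 x) (R.e j) := by
        rw [h2]
        simp only [reflL_apply, lor_sub_left, lor_smul_left, R.he, hji, ← hκ]
        ring
      rw [this]; nlinarith
  · have h3 : 0 ≤ lor (R.rho w x) (R.e j) := by
      rw [h2, lor_refl_self (R.he j)]; linarith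
    exact R.disjoint_half (by rw [lor_comm]; exact hle) hfut h3

theorem cone_neg {w : R.W} {i : ι} (hi : ¬ R.S.IsLeftDescent w i) {x : V4}
    (hx : x ∈ R.Cone) : lor (R.rho w x) (R.e i) < 0 :=
  R.cone_trans_aux _ w i rfl hi x hx

theorem cone_pos {w : R.W} {i : ι} (hi : R.S.IsLeftDescent w i) {x : V4}
    (hx : x ∈ R.Cone) : 0 < lor (R.rho w x) (R.e i) := by
  obtain ⟨-, hww, hi'⟩ := R.peel hi
  have h1 := R.cone_neg hi' hx
  have h2 : R.rho w x = reflL (R.e i) (R.rho (R.S.simple i * w) x) := by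
    rw [← R.rho_mul_simple_apply, ← hww]
  rw [h2, lor_refl_self (R.he i)]; linarith

/-- The representation is faithful. -/
theorem rho_injective : Function.Injective R.rho := by
  rw [injective_iff_map_eq_one]
  intro w hw
  by_contra hne
  obtain ⟨j, hj⟩ := R.S.exists_leftDescent_of_ne_one hne
  have h1 := R.cone_pos hj R.c_mem_cone
  rw [hw] at h1
  have h2 := R.hce j
  change 0 < lor R.c (R.e j) at h1
  linarith

/-- Closed version: translates of the closed polyhedron. -/
theorem P_nonneg {w : R.W} {i : ι} (hi : R.S.IsLeftDescent w i) {x : V4}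
    (hx : x ∈ R.P) : 0 ≤ lor (R.rho w x) (R.e i) := by
  have key : ∀ t : ℝ, 0 < t → 0 ≤ lor (R.rho w x) (R.e i) + t * lor (R.rho w R.c) (R.e i) := by
    intro t ht
    have hcone : x + t • R.c ∈ R.Cone := by
      refine ⟨⟨?_, ?_⟩, fun j => ?_⟩
      · rw [lor_add_left, lor_add_right, lor_add_right, lor_smul_left, lor_smul_left,
          lor_smul_right, lor_smul_right, hx.1.1, R.hc.1, lor_comm R.c x]
        have := lor_le_neg_one hx.1 R.hc
        nlinarith
      · have h1 := hx.1.2
        have h2 := R.hc.2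
        simp only [Pi.add_apply, Pi.smul_apply, smul_eq_mul]
        positivity
      · rw [lor_add_left, lor_smul_left]
        have h1 := hx.2 j
        have h2 := R.hce j
        nlinarith
    have := (R.cone_pos hi hcone).le
    rwa [map_add, map_smul, lor_add_left, lor_smul_left] at this
  by_contra hcon
  push Not at hcon
  set a := lor (R.rho w x) (R.e i)
  set b := lor (R.rho w R.c) (R.e i)
  have hb : 0 < b := R.cone_pos hi R.c_mem_cone
  have := key (-a / (2 * b)) (by apply div_pos <;> linarith)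
  have h2 : -a / (2 * b) * b = -a / 2 := by field_simp
  rw [h2] at this
  linarith

/-- Points of the closed polyhedron are identified only by their stabiliser. -/
theorem stab_aux (n : ℕ) : ∀ (w : R.W), R.S.length w = n → ∀ x ∈ R.P,
    R.rho w x ∈ R.P →
    R.rho w x = x ∧ w ∈ Subgroup.closure (R.S.simple '' {i | lor x (R.e i) = 0}) := by
  induction n with
  | zero =>
    intro w hw x hx _
    have : w = 1 := (R.S.length_eq_zero_iff).mp hw
    subst this
    exact ⟨by rw [map_one]; rfl, Subgroup.one_mem _⟩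
  | succ n ih =>
    intro w hw x hx hwx
    have hne : w ≠ 1 := by rintro rfl; simp at hw
    obtain ⟨j, hj⟩ := R.S.exists_leftDescent_of_ne_one hne
    have h1 := R.P_nonneg hj hx
    have h2 := hwx.2 j
    have h3 : lor (R.rho w x) (R.e j) = 0 := le_antisymm h2 h1
    obtain ⟨hlen, hww, -⟩ := R.peel hj
    have h4 : R.rho (R.S.simple j * w) x = R.rho w x := by
      rw [map_mul, rho_simple, LinearEquiv.mul_apply, reflE_apply, h3]; simp
    obtain ⟨h5, h6⟩ := ih (R.S.simple j * w) (by omega) x hx (by rw [h4]; exact hwx)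
    have h7 : R.rho w x = x := by rw [← h4, h5]
    refine ⟨h7, ?_⟩
    rw [h7] at h3
    rw [hww]
    exact Subgroup.mul_mem _ (Subgroup.subset_closure ⟨j, h3, rfl⟩) h6

theorem stab {w : R.W} {x : V4} (hx : x ∈ R.P) (hwx : R.rho w x ∈ R.P) :
    R.rho w x = x ∧ w ∈ Subgroup.closure (R.S.simple '' {i | lor x (R.e i) = 0}) :=
  R.stab_aux _ w rfl x hx hwx

/-- Faces through a point of the polyhedron meet pairwise. -/
theorem face_meet {x : V4} (hx : x ∈ R.P) {i j : ι} (hi : lor x (R.e i) = 0)
    (hj : lor x (R.e j) = 0) : R.M i j ≠ 0 := by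
  by_cases hij : i = j
  · subst hij; rw [R.M.diagonal]; decide
  rcases R.hM i j hij with ⟨hm, -⟩ | ⟨hm, -⟩ | ⟨-, hle⟩
  · rw [hm]; decide
  · rw [hm]; decide
  · have := R.disjoint_half hle (H3.fut hx.1) (le_of_eq hi.symm)
    rw [hj] at this
    exact absurd this (lt_irrefl _)

theorem exists_depth [Finite ι] : ∃ δ : ℝ, 0 < δ ∧ ∀ i, lor R.c (R.e i) ≤ -δ := by
  have := Fintype.ofFinite ι
  by_cases hne : Nonempty ι
  · obtain ⟨i0, -, hi0⟩ := Finset.exists_min_image Finset.univ (fun i => -lor R.c (R.e i))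
      ⟨Classical.choice hne, Finset.mem_univ _⟩
    refine ⟨-lor R.c (R.e i0), by linarith [R.hce i0], fun i => ?_⟩
    have := hi0 i (Finset.mem_univ _)
    linarith
  · exact ⟨1, one_pos, fun i => (hne ⟨i⟩).elim⟩

/-- The orbit of `c` is uniformly separated. -/
theorem exists_sep [Finite ι] : ∃ η : ℝ, 0 < η ∧ ∀ w w' : R.W, w ≠ w' →
    lor (R.rho w R.c) (R.rho w' R.c) ≤ -(1 + η) := by
  obtain ⟨δ, hδ, h⟩ := R.exists_depth
  refine ⟨Real.sqrt (1 + δ ^ 2) - 1, ?_, ?_⟩
  · have : 1 < Real.sqrt (1 + δ ^ 2) := by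
      rw [Real.lt_sqrt (by norm_num)]; nlinarith
    linarith
  · intro w w' hne
    have hne' : w'⁻¹ * w ≠ 1 := by
      intro h1; apply hne
      have : w = w' * (w'⁻¹ * w) := by group
      rw [this, h1, mul_one]
    obtain ⟨j, hj⟩ := R.S.exists_leftDescent_of_ne_one hne'
    have h1 := R.cone_pos hj R.c_mem_cone
    have hm : R.rho (w'⁻¹ * w) R.c ∈ H3 := Oplus.h3 (R.rho_mem _) R.hc
    have h2 := lor_sep hm R.hc (R.he j) hδ h1.le (h j)
    have h3 := lor_le_neg_one hm R.hc
    have h4 : lor (R.rho w R.c) (R.rho w' R.c) = lor (R.rho (w'⁻¹ * w) R.c) R.c := by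
      have h5 : R.rho w R.c = R.rho w' (R.rho (w'⁻¹ * w) R.c) := by
        rw [← LinearEquiv.mul_apply, ← map_mul]; congr 2; group
      rw [h5, Oplus.lor (R.rho_mem w')]
    rw [h4]
    set a := lor (R.rho (w'⁻¹ * w) R.c) R.c
    have h6 : Real.sqrt (1 + δ ^ 2) ≤ -a := by
      apply Real.sqrt_le_iff.mpr
      constructor
      · linarith
      · nlinarith
    linarith

theorem finite_orbit [Finite ι] {K : Set V4} (hK : IsCompact K) :
    {w : R.W | R.rho w R.c ∈ K}.Finite := by
  obtain ⟨η, hη, h⟩ := R.exists_sep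
  exact finite_of_sep (fun w => R.rho w R.c) hη (fun w => Oplus.h3 (R.rho_mem w) R.hc) h hK

/-- Proper discontinuity. -/
theorem proper [Finite ι] {K : Set V4} (hK : IsCompact K) (hKH : K ⊆ H3) :
    {w : R.W | ∃ x ∈ K, R.rho w x ∈ K}.Finite := by
  rcases K.eq_empty_or_nonempty with rfl | hne
  · simp
  obtain ⟨a, -, ha⟩ := hK.exists_isMaxOn hne (continuous_apply (0 : Fin 4)).continuousOn
  have hc2 : Continuous fun x : V4 => -lor R.c x :=
    (continuous_lor.comp (continuous_const.prodMk continuous_id)).neg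
  obtain ⟨b, -, hb⟩ := hK.exists_isMaxOn hne hc2.continuousOn
  apply (R.finite_orbit (isCompact_ball (2 * a 0 * -lor R.c b))).subset
  rintro w ⟨x, hx, hwx⟩
  have hz : R.rho w R.c ∈ H3 := Oplus.h3 (R.rho_mem w) R.hc
  refine ⟨hz, ?_⟩
  have h1 := time_bound hz (hKH hwx)
  rw [Oplus.lor (R.rho_mem w)] at h1
  have h2 : (R.rho w x) 0 ≤ a 0 := ha hwx
  have h3 : -lor R.c x ≤ -lor R.c b := hb hx
  have h4 : 0 < (R.rho w x) 0 := (hKH hwx).2
  have h5 := lor_le_neg_one R.hc (hKH hx)
  calc (R.rho w R.c) 0 ≤ 2 * (R.rho w x) 0 * (-lor R.c x) := h1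
    _ ≤ 2 * a 0 * -lor R.c b := by
      apply mul_le_mul (by linarith) h3 (by linarith) (by linarith)

/-- The translates of the polyhedron cover hyperbolic space. -/
theorem cover [Finite ι] {x : V4} (hx : x ∈ H3) : ∃ w : R.W, R.rho w x ∈ R.P := by
  set S : Set R.W := {w | -lor (R.rho w x) R.c ≤ -lor x R.c} with hS
  have hfin : S.Finite := by
    have h1 := R.finite_orbit (isCompact_ball (2 * x 0 * (-lor x R.c)))
    have h2 : ((fun w : R.W => w⁻¹) ⁻¹'
        {w : R.W | R.rho w R.c ∈ {z : V4 | z ∈ H3 ∧ z 0 ≤ 2 * x 0 * (-lor x R.c)}}).Finite :=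
      h1.preimage (fun a _ b _ h => inv_injective h)
    apply h2.subset
    intro w hw
    have hz : R.rho w⁻¹ R.c ∈ H3 := Oplus.h3 (R.rho_mem _) R.hc
    refine ⟨hz, ?_⟩
    have h3 := time_bound hz hx
    have h4 : lor (R.rho w⁻¹ R.c) x = lor (R.rho w x) R.c := by
      rw [← Oplus.lor (R.rho_mem w), ← LinearEquiv.mul_apply, ← map_mul, mul_inv_cancel, map_one,
        lor_comm]
      rfl
    rw [h4] at h3
    have h5 : -lor (R.rho w x) R.c ≤ -lor x R.c := hw
    have := hx.2
    nlinarith
  have hne : S.Nonempty := ⟨1, by rw [hS]; simp⟩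
  obtain ⟨w, hw, hmin⟩ := Set.exists_min_image S (fun w => -lor (R.rho w x) R.c) hfin hne
  have hmin' : ∀ w', -lor (R.rho w x) R.c ≤ -lor (R.rho w' x) R.c := by
    intro w'
    by_cases h : w' ∈ S
    · exact hmin w' h
    · have h1 : -lor x R.c < -lor (R.rho w' x) R.c := not_le.mp h
      exact le_trans hw h1.le
  refine ⟨w, Oplus.h3 (R.rho_mem w) hx, fun i => ?_⟩
  by_contra hcon
  push Not at hcon
  have h1 := hmin' (R.S.simple i * w)
  rw [map_mul, rho_simple, LinearEquiv.mul_apply, reflE_apply, lor_sub_left, lor_smul_left,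
    lor_comm (R.e i) R.c] at h1
  have h2 := R.hce i
  nlinarith

theorem isClosed_P : IsClosed R.P := by
  have : R.P = H3 ∩ ⋂ i, {x | lor x (R.e i) ≤ 0} := by
    ext x; simp [P, Set.mem_iInter]
  rw [this]
  refine isClosed_H3.inter (isClosed_iInter fun i => ?_)
  exact isClosed_le (continuous_lor.comp (continuous_id.prodMk continuous_const)) continuous_const

end CP

/-- Vertex certificate of compactness of a polyhedron. -/
structure VCert {ι : Type*} (e : ι → V4) (κ : Type*) where
  /-- the vertices -/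
  v : κ → V4
  /-- the three faces through a vertex -/
  J : κ → Fin 3 → ι
  /-- the other end of the edge leaving face `J k a` -/
  nb : κ → Fin 3 → κ
  hv : ∀ k, FutT (v k)
  hv0 : ∀ k a, lor (v k) (e (J k a)) = 0
  hnb : ∀ k a, lor (v (nb k a)) (e (J k a)) < 0
  hnb0 : ∀ k a b, a ≠ b → lor (v (nb k a)) (e (J k b)) = 0

namespace VCert

variable {ι κ : Type*} {e : ι → V4} (C : VCert e κ)

theorem expand (k : κ) (x : V4) : ∃ (a : ℝ) (c : Fin 3 → ℝ), x = a • C.v k + ∑ i, c i • C.v (C.nb k i) ∧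
    ∀ i, lor x (e (C.J k i)) = c i * lor (C.v (C.nb k i)) (e (C.J k i)) := by
  have key : ∀ (g : Fin 4 → ℝ) (j : Fin 3), lor (g 0 • C.v k + g 1 • C.v (C.nb k 0) +
      g 2 • C.v (C.nb k 1) + g 3 • C.v (C.nb k 2)) (e (C.J k j)) =
      g j.succ * lor (C.v (C.nb k j)) (e (C.J k j)) := by
    intro g j
    simp only [lor_add_left, lor_smul_left, C.hv0 k j]
    fin_cases j
    · simp only [Fin.zero_eta, Fin.succ_zero_eq_one]
      rw [C.hnb0 k 1 0 (by decide), C.hnb0 k 2 0 (by decide)]; ring
    · simp only [Fin.mk_one, Fin.succ_one_eq_two]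
      rw [C.hnb0 k 0 1 (by decide), C.hnb0 k 2 1 (by decide)]; ring
    · simp only [Fin.reduceFinMk, Fin.reduceSucc]
      rw [C.hnb0 k 0 2 (by decide), C.hnb0 k 1 2 (by decide)]; ring
  have hli : LinearIndependent ℝ ![C.v k, C.v (C.nb k 0), C.v (C.nb k 1), C.v (C.nb k 2)] := by
    rw [Fintype.linearIndependent_iff]
    intro g hg
    rw [Fin.sum_univ_four] at hg
    simp only [Matrix.cons_val_zero, Matrix.cons_val_one, Matrix.cons_val] at hg
    have h1 : ∀ j : Fin 3, g j.succ = 0 := by
      intro j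
      have h2 := key g j
      rw [hg] at h2
      have h3 : lor 0 (e (C.J k j)) = 0 := by unfold lor; simp
      rw [h3] at h2
      rcases mul_eq_zero.mp h2.symm with h | h
      · exact h
      · exact absurd h (ne_of_lt (C.hnb k j))
    have h11 : g 1 = 0 := h1 0
    have h12 : g 2 = 0 := h1 1
    have h13 : g 3 = 0 := h1 2
    rw [h11, h12, h13] at hg
    simp only [zero_smul, add_zero] at hg
    have h0 : g 0 = 0 := by
      rcases smul_eq_zero.mp hg with h | h
      · exact h
      · exfalso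
        have := (C.hv k).2
        rw [h] at this
        simp at this
    intro i
    fin_cases i
    · exact h0
    · exact h11
    · exact h12
    · exact h13
  have hspan := hli.span_eq_top_of_card_eq_finrank' (by simp)
  have hx : x ∈ Submodule.span ℝ (Set.range
      ![C.v k, C.v (C.nb k 0), C.v (C.nb k 1), C.v (C.nb k 2)]) := by rw [hspan]; trivial
  rw [Submodule.mem_span_range_iff_exists_fun] at hx
  obtain ⟨c, hc⟩ := hx
  rw [Fin.sum_univ_four] at hc
  simp only [Matrix.cons_val_zero, Matrix.cons_val_one, Matrix.cons_val] at hc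
  refine ⟨c 0, fun i => c i.succ, ?_, ?_⟩
  · rw [← hc, Fin.sum_univ_three]
    simp only [Fin.succ_zero_eq_one, Fin.succ_one_eq_two, Fin.reduceSucc]
    abel
  · intro i
    rw [← hc, key c i]

/-- Linear functionals on the cone, normalised by the time coordinate, are maximal at a vertex. -/
theorem functional [Finite κ] [Nonempty κ] (f : V4 →ₗ[ℝ] ℝ) :
    ∃ k, ∀ x : V4, (∀ i, lor x (e i) ≤ 0) → f x ≤ f (C.v k) / (C.v k) 0 * x 0 := by
  have := Fintype.ofFinite κ
  obtain ⟨k, -, hk⟩ := Finset.exists_max_image Finset.univ (fun k => f (C.v k) / (C.v k) 0)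
    ⟨Classical.arbitrary κ, Finset.mem_univ _⟩
  refine ⟨k, fun x hx => ?_⟩
  set M := f (C.v k) / (C.v k) 0 with hM
  set g : V4 →ₗ[ℝ] ℝ := f - M • LinearMap.proj (R := ℝ) (φ := fun _ : Fin 4 => ℝ) 0 with hg
  have hgx : ∀ z, g z = f z - M * z 0 := fun z => by simp [hg]
  have hpos : 0 < (C.v k) 0 := (C.hv k).2
  have g0 : g (C.v k) = 0 := by
    rw [hgx, hM]; field_simp; ring
  have gneg : ∀ l, g (C.v l) ≤ 0 := by
    intro l
    have h1 := hk l (Finset.mem_univ _)
    have h2 : 0 < (C.v l) 0 := (C.hv l).2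
    rw [hgx]
    have h3 : f (C.v l) ≤ M * (C.v l) 0 := by
      rw [div_le_iff₀ h2] at h1; exact h1
    linarith
  have hx' : g x ≤ 0 := by
    obtain ⟨t, c, ht, hc⟩ := C.expand k x
    conv_lhs => rw [ht]
    rw [map_add, map_smul, g0, smul_zero, zero_add, map_sum]
    apply Finset.sum_nonpos
    intro i _
    rw [map_smul, smul_eq_mul]
    have h1 := hc i
    have h2 := hx (C.J k i)
    have h3 := C.hnb k i
    have h4 : 0 ≤ c i := by
      by_contra hcon
      push Not at hcon
      have := mul_pos_of_neg_of_neg hcon h3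
      linarith
    exact mul_nonpos_of_nonneg_of_nonpos h4 (gneg _)
  rw [hgx] at hx'
  linarith

include C in
theorem isCompact_poly [Finite κ] [Nonempty κ] :
    ∃ B : ℝ, ∀ x ∈ H3, (∀ i, lor x (e i) ≤ 0) → x 0 ≤ B := by
  have := Fintype.ofFinite κ
  -- the maximal ratio of the vertices
  obtain ⟨m, -, hm⟩ := Finset.exists_max_image Finset.univ
    (fun k => ((C.v k) 1 ^ 2 + (C.v k) 2 ^ 2 + (C.v k) 3 ^ 2) / (C.v k) 0 ^ 2)
    ⟨Classical.arbitrary κ, Finset.mem_univ _⟩
  set τ := ((C.v m) 1 ^ 2 + (C.v m) 2 ^ 2 + (C.v m) 3 ^ 2) / (C.v m) 0 ^ 2 with hτ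
  have hτ1 : τ < 1 := by
    have h1 := (C.hv m).1
    have h2 := (C.hv m).2
    rw [hτ, div_lt_one (by positivity)]
    unfold lor at h1; nlinarith
  have hτ0 : 0 ≤ τ := by rw [hτ]; positivity
  have hle : ∀ k, (C.v k) 1 ^ 2 + (C.v k) 2 ^ 2 + (C.v k) 3 ^ 2 ≤ τ * (C.v k) 0 ^ 2 := by
    intro k
    have h1 := hm k (Finset.mem_univ _)
    have h2 := (C.hv k).2
    rw [div_le_iff₀ (by positivity)] at h1
    exact h1
  refine ⟨1 / (1 - τ), ?_⟩
  rintro x hx hxe
  obtain ⟨hx1, hx0⟩ := hx
  set s := x 1 ^ 2 + x 2 ^ 2 + x 3 ^ 2 with hs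
  have hs1 : s = x 0 ^ 2 - 1 := by unfold lor at hx1; rw [hs]; nlinarith
  let f : V4 →ₗ[ℝ] ℝ :=
    { toFun := fun z => x 1 * z 1 + x 2 * z 2 + x 3 * z 3
      map_add' := fun a b => by simp only [Pi.add_apply]; ring
      map_smul' := fun a b => by simp only [Pi.smul_apply, smul_eq_mul, RingHom.id_apply]; ring }
  obtain ⟨k, hk⟩ := C.functional f
  have h1 := hk x hxe
  have hfx : f x = s := by change x 1 * x 1 + x 2 * x 2 + x 3 * x 3 = s; rw [hs]; ring
  rw [hfx] at h1
  have hv0 := (C.hv k).2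
  set F := f (C.v k) with hF
  have hs0 : 0 ≤ s := by rw [hs]; positivity
  have hF2 : F ^ 2 ≤ s * (τ * (C.v k) 0 ^ 2) := by
    have h2 := spatial_cs x (C.v k)
    have h3 := hle k
    calc F ^ 2 ≤ s * ((C.v k) 1 ^ 2 + (C.v k) 2 ^ 2 + (C.v k) 3 ^ 2) := h2
      _ ≤ s * (τ * (C.v k) 0 ^ 2) := mul_le_mul_of_nonneg_left h3 hs0
  have h4 : s ^ 2 ≤ s * τ * x 0 ^ 2 := by
    have h6 : s ^ 2 ≤ (F / (C.v k) 0 * x 0) ^ 2 := by
      exact pow_le_pow_left₀ hs0 h1 2
    have h7 : (F / (C.v k) 0 * x 0) ^ 2 = F ^ 2 / (C.v k) 0 ^ 2 * x 0 ^ 2 := by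
      rw [mul_pow, div_pow]
    have h8 : F ^ 2 / (C.v k) 0 ^ 2 ≤ s * τ := by
      rw [div_le_iff₀ (by positivity)]; linarith
    rw [h7] at h6
    exact le_trans h6 (mul_le_mul_of_nonneg_right h8 (sq_nonneg _))
  have h9 : s ≤ τ * x 0 ^ 2 := by
    rcases eq_or_lt_of_le hs0 with h | h
    · rw [← h]; positivity
    · by_contra hcon
      push Not at hcon
      nlinarith
  rw [hs1] at h9
  have h10 : x 0 ^ 2 * (1 - τ) ≤ 1 := by linarith
  have h11 : 1 ≤ x 0 := by nlinarith [sq_nonneg (x 1), sq_nonneg (x 2), sq_nonneg (x 3)]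
  rw [le_div_iff₀ (by linarith)]
  nlinarith

end VCert

theorem CP.isCompact_P {ι κ : Type*} (R : CP ι) (C : VCert R.e κ) [Finite κ] [Nonempty κ] :
    IsCompact R.P := by
  obtain ⟨B, hB⟩ := C.isCompact_poly
  apply (isCompact_ball B).of_isClosed_subset R.isClosed_P
  rintro x ⟨hx, hxe⟩
  exact ⟨hx, hB x hx hxe⟩

end Pool.Agent.EC
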