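import Pool.Agent.EC.Final8
import Pool.Agent.EC.Bridge8
import Pool.Agent.EC.GenRig8

/-!
# The second example: the key fact and the final theorem

If a homomorphism `ρ : Gam8 → Homeo₊(S¹)` is maximal on both components of `S_x`, then its Euler
number on the surface `S_z` of genus three is divisible by four.
-/

set_option autoImplicit false
set_option maxRecDepth 100000

namespace Pool.Agent.EC.Key8

open Lam Words Rigid Bridge8
open Pool.Agent.EC.Sz8 (g0 g1 g2 g3 g4 g5 wS wE wK wP wQ wB)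
open scoped commutatorElement

/-! ### Paths -/

/-- `a` is a lift of `g` along the path from `q` to `q'`. -/
def Path (A : Lam.G → Fin 8 → Rigid.G) (g : Lam.G) (q q' : Fin 8) (a : Rigid.G) : Prop :=
  sig8 g q = q' ∧ Eqv (A g q) a

section path

variable {A : Lam.G → Fin 8 → Rigid.G} (hA : GLift A)

include hA

theorem Path.mul {g w : Lam.G} {q q' q'' : Fin 8} {a b : Rigid.G} (h1 : Path A g q' q'' a)
    (h2 : Path A w q q' b) : Path A (g * w) q q'' (a * b) := by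
  refine ⟨?_, ?_⟩
  · rw [map_mul, Equiv.Perm.mul_apply, h2.1, h1.1]
  · have h := hA g w q
    rw [h2.1] at h
    exact h.trans (h1.2.mul h2.2)

theorem Path.inv {g : Lam.G} {q q' : Fin 8} {a : Rigid.G} (h1 : Path A g q q' a) :
    Path A g⁻¹ q' q a⁻¹ := by
  have e : sig8 g⁻¹ q' = q := by
    rw [map_inv, Equiv.Perm.inv_eq_iff_eq, h1.1]
  refine ⟨e, ?_⟩
  have h := hA.inv g q'
  rw [e] at h
  exact h.trans h1.2.inv

omit hA in
theorem Path.x {q q' : Fin 8} (h : qX q = q') : Path A ex q q' (A ex q) :=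
  ⟨by rw [sig_ex]; exact h, Eqv.rfl' _⟩

omit hA in
theorem Path.y {q q' : Fin 8} (h : qY q = q') : Path A ey q q' (A ey q) :=
  ⟨by rw [sig_ey]; exact h, Eqv.rfl' _⟩

theorem path_S : Path A (wS ex ey) 2 2
    ((A ex 1 * A ex 7) * (A ey 6 * A ey 7) * (A ex 1 * A ex 7)⁻¹) := by
  have xx : Path A (ex * ex) 7 2 (A ex 1 * A ex 7) :=
    Path.mul hA (Path.x (q' := 2) (by decide)) (Path.x (by decide))
  have yy : Path A (ey * ey) 7 7 (A ey 6 * A ey 7) :=
    Path.mul hA (Path.y (by decide)) (Path.y (by decide))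
  exact Path.mul hA (Path.mul hA xx yy) (Path.inv hA xx)

theorem path_E : Path A (wE ex ey) 2 2
    ((A ex 1 * A ex 7) * (A ey 6 * (A ex 5 * A ex 6) * (A ey 6)⁻¹) * (A ex 1 * A ex 7)⁻¹) := by
  have xx : Path A (ex * ex) 7 2 (A ex 1 * A ex 7) :=
    Path.mul hA (Path.x (q' := 2) (by decide)) (Path.x (by decide))
  have x56 : Path A (ex * ex) 6 6 (A ex 5 * A ex 6) :=
    Path.mul hA (Path.x (by decide)) (Path.x (by decide))
  have y6 : Path A ey 6 7 (A ey 6) := Path.y (by decide)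
  exact Path.mul hA (Path.mul hA xx (Path.mul hA (Path.mul hA y6 x56) (Path.inv hA y6)))
    (Path.inv hA xx)

theorem path_K : Path A (wK ex) 2 2 ((A ex 1 * A ex 7) * (A ex 4 * A ex 2)) := by
  have xx : Path A (ex * ex) 7 2 (A ex 1 * A ex 7) :=
    Path.mul hA (Path.x (q' := 2) (by decide)) (Path.x (by decide))
  have x42 : Path A (ex * ex) 2 7 (A ex 4 * A ex 2) :=
    Path.mul hA (Path.x (q' := 7) (by decide)) (Path.x (by decide))
  exact Path.mul hA xx x42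

theorem path_P : Path A (wP ex ey) 2 2 (A ex 1 * (A ey 0 * A ey 1) * (A ex 1)⁻¹) := by
  have x1 : Path A ex 1 2 (A ex 1) := Path.x (by decide)
  have yy : Path A (ey * ey) 1 1 (A ey 0 * A ey 1) :=
    Path.mul hA (Path.y (by decide)) (Path.y (by decide))
  exact Path.mul hA (Path.mul hA x1 yy) (Path.inv hA x1)

theorem path_Q : Path A (wQ ex ey) 2 2 ((A ex 2)⁻¹ * (A ey 3 * A ey 4) * A ex 2) := by
  have x2 : Path A ex 2 4 (A ex 2) := Path.x (by decide)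
  have yy : Path A (ey * ey) 4 4 (A ey 3 * A ey 4) :=
    Path.mul hA (Path.y (by decide)) (Path.y (by decide))
  exact Path.mul hA (Path.mul hA (Path.inv hA x2) yy) x2

theorem path_B : Path A (wB ex ey) 2 2
    (A ex 1 * A ex 7 * A ey 6 * (A ex 6)⁻¹ * (A ey 5)⁻¹) := by
  have x1 : Path A ex 1 2 (A ex 1) := Path.x (by decide)
  have x7 : Path A ex 7 1 (A ex 7) := Path.x (by decide)
  have y6 : Path A ey 6 7 (A ey 6) := Path.y (by decide)
  have x6 : Path A ex 6 5 (A ex 6) := Path.x (by decide)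
  have y5 : Path A ey 5 2 (A ey 5) := Path.y (by decide)
  exact Path.mul hA (Path.mul hA (Path.mul hA (Path.mul hA x1 x7) y6) (Path.inv hA x6))
    (Path.inv hA y5)

end path

/-! ### The homomorphisms -/

theorem lift_surfRel_three {K : Type*} [Group K] (F : Fin 3 × Bool → K) :
    FreeGroup.lift F (SurfRel 3) =
      ⁅F (0, false), F (0, true)⁆ * ⁅F (1, false), F (1, true)⁆ *
        ⁅F (2, false), F (2, true)⁆ := by
  rw [ZExt.lift_surfRel, List.ofFn_succ, List.ofFn_succ, List.ofFn_succ, List.ofFn_zero,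
    List.prod_cons, List.prod_cons, List.prod_cons, List.prod_nil, mul_one, ← mul_assoc]
  rfl

/-- A homomorphism out of the surface group of genus three. -/
noncomputable def surfLift3 {K : Type*} [Group K] (f : Fin 3 × Bool → K)
    (h : ⁅f (0, false), f (0, true)⁆ * ⁅f (1, false), f (1, true)⁆ *
      ⁅f (2, false), f (2, true)⁆ = 1) : SurfGroup 3 →* K :=
  PresentedGroup.toGroup (f := f) (by
    intro r hr
    rw [Set.mem_singleton_iff] at hr
    subst hr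
    rw [lift_surfRel_three]
    exact h)

theorem surfLift3_of {K : Type*} [Group K] (f : Fin 3 × Bool → K)
    (h : ⁅f (0, false), f (0, true)⁆ * ⁅f (1, false), f (1, true)⁆ *
      ⁅f (2, false), f (2, true)⁆ = 1) (i : Fin 3 × Bool) :
    surfLift3 f h (PresentedGroup.of i) = f i := PresentedGroup.toGroup.of _

theorem gLift_one : GLift fun _ _ => 1 := fun _ _ _ => Eqv.of_eq (by rw [mul_one])

theorem inc8_arrow_loop {g : Lam.G} {p : Fin 8} (hg : sig8 g p = p) :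
    inc8 (arrow g p) = (tau p)⁻¹ * g * tau p := by
  rw [inc8_arrow, hg]

theorem arrow_val {g : Lam.G} {p : Fin 8} (hg : sig8 g p = p) :
    (arrow g p : W) = (((tau p)⁻¹ * g * tau p : Lam.G) : W) :=
  congrArg Subtype.val (inc8_arrow_loop hg)

theorem eq_arrow {g : Lam.G} {p : Fin 8} (hg : sig8 g p = p) {w : Gam8}
    (h : (w : W) = (((tau p)⁻¹ * g * tau p : Lam.G) : W)) : w = arrow g p :=
  Subtype.ext (h.trans (arrow_val hg).symm)

theorem sS : sig8 (wS ex ey) 2 = 2 := (path_S gLift_one).1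
theorem sE : sig8 (wE ex ey) 2 = 2 := (path_E gLift_one).1
theorem sK : sig8 (wK ex) 2 = 2 := (path_K gLift_one).1
theorem sP : sig8 (wP ex ey) 2 = 2 := (path_P gLift_one).1
theorem sQ : sig8 (wQ ex ey) 2 = 2 := (path_Q gLift_one).1
theorem sB : sig8 (wB ex ey) 2 = 2 := (path_B gLift_one).1

section loops

variable {A : Lam.G → Fin 8 → Rigid.G} (hA : GLift A)

include hA

theorem path_g0 : Path A (g0 ex ey) 2 2
    ((A ex 1 * A ex 7) * (A ey 6 * A ey 7) * (A ex 1 * A ex 7)⁻¹)⁻¹ :=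
  Path.inv hA (path_S hA)

theorem path_g1 : Path A (g1 ex ey) 2 2
    ((A ex 1 * A ex 7) * (A ey 6 * (A ex 5 * A ex 6) * (A ey 6)⁻¹) * (A ex 1 * A ex 7)⁻¹)⁻¹ :=
  Path.inv hA (path_E hA)

theorem path_g2 : Path A (g2 ex ey) 2 2
    (((A ex 1 * A ex 7) * (A ey 6 * (A ex 5 * A ex 6) * (A ey 6)⁻¹) * (A ex 1 * A ex 7)⁻¹)⁻¹ *
      ((A ex 1 * A ex 7) * (A ex 4 * A ex 2)) *
      (A ex 1 * A ex 7 * A ey 6 * (A ex 6)⁻¹ * (A ey 5)⁻¹)⁻¹) :=
  Path.mul hA (Path.mul hA (Path.inv hA (path_E hA)) (path_K hA)) (Path.inv hA (path_B hA))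

theorem path_g3 : Path A (g3 ex ey) 2 2
    ((A ex 1 * A ex 7 * A ey 6 * (A ex 6)⁻¹ * (A ey 5)⁻¹) *
      ((A ex 2)⁻¹ * (A ey 3 * A ey 4) * A ex 2) *
      (A ex 1 * A ex 7 * A ey 6 * (A ex 6)⁻¹ * (A ey 5)⁻¹)⁻¹)⁻¹ :=
  Path.inv hA (Path.mul hA (Path.mul hA (path_B hA) (path_Q hA)) (Path.inv hA (path_B hA)))

theorem path_g4 : Path A (g4 ex ey) 2 2
    (A ex 1 * A ex 7 * A ey 6 * (A ex 6)⁻¹ * (A ey 5)⁻¹) := path_B hA

theorem path_g5 : Path A (g5 ex ey) 2 2 (A ex 1 * (A ey 0 * A ey 1) * (A ex 1)⁻¹)⁻¹ :=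
  Path.inv hA (path_P hA)

end loops

theorem s0 : sig8 (g0 ex ey) 2 = 2 := (path_g0 gLift_one).1
theorem s1 : sig8 (g1 ex ey) 2 = 2 := (path_g1 gLift_one).1
theorem s2 : sig8 (g2 ex ey) 2 = 2 := (path_g2 gLift_one).1
theorem s3 : sig8 (g3 ex ey) 2 = 2 := (path_g3 gLift_one).1
theorem s4 : sig8 (g4 ex ey) 2 = 2 := (path_g4 gLift_one).1
theorem s5 : sig8 (g5 ex ey) 2 = 2 := (path_g5 gLift_one).1

/-- The values of `S_z` on the generators. -/
noncomputable def fz (t : Fin 3 × Bool) : Gam8 :=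
  if t.2 then arrow (![g1 ex ey, g3 ex ey, g5 ex ey] t.1) 2
  else arrow (![g0 ex ey, g2 ex ey, g4 ex ey] t.1) 2

theorem fz0 : fz (0, false) = arrow (g0 ex ey) 2 := rfl
theorem fz1 : fz (0, true) = arrow (g1 ex ey) 2 := rfl
theorem fz2 : fz (1, false) = arrow (g2 ex ey) 2 := rfl
theorem fz3 : fz (1, true) = arrow (g3 ex ey) 2 := rfl
theorem fz4 : fz (2, false) = arrow (g4 ex ey) 2 := rfl
theorem fz5 : fz (2, true) = arrow (g5 ex ey) 2 := rfl

theorem rel_Sz : ⁅fz (0, false), fz (0, true)⁆ * ⁅fz (1, false), fz (1, true)⁆ *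
    ⁅fz (2, false), fz (2, true)⁆ = 1 := by
  apply inc8_injective
  rw [fz0, fz1, fz2, fz3, fz4, fz5]
  simp only [map_mul, map_commutatorElement, map_one]
  rw [inc8_arrow_loop s0, inc8_arrow_loop s1, inc8_arrow_loop s2, inc8_arrow_loop s3,
    inc8_arrow_loop s4, inc8_arrow_loop s5,
    Sz8.conj_identity ex ey 1 (tau 2) (fun g => Commute.one_left g) relG8.hZ]
  simp

/-- The surface `S_z` of genus three. -/
noncomputable def Sz : SurfGroup 3 →* Gam8 := surfLift3 fz rel_Sz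

theorem isSz_Sz : Final8.IsSz (tau 2) Sz where
  h0 := (congrArg Subtype.val ((surfLift3_of fz rel_Sz (0, false)).trans fz0)).trans
    (arrow_val s0)
  h1 := (congrArg Subtype.val ((surfLift3_of fz rel_Sz (0, true)).trans fz1)).trans
    (arrow_val s1)
  h2 := (congrArg Subtype.val ((surfLift3_of fz rel_Sz (1, false)).trans fz2)).trans
    (arrow_val s2)
  h3 := (congrArg Subtype.val ((surfLift3_of fz rel_Sz (1, true)).trans fz3)).trans
    (arrow_val s3)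
  h4 := (congrArg Subtype.val ((surfLift3_of fz rel_Sz (2, false)).trans fz4)).trans
    (arrow_val s4)
  h5 := (congrArg Subtype.val ((surfLift3_of fz rel_Sz (2, true)).trans fz5)).trans
    (arrow_val s5)

theorem rel_Sx2 : ⁅arrow (be ey ez) 6, arrow (h2 ey ez) 6⁆ *
    ⁅arrow (al ey) 6, arrow (h1 ey ez) 6⁆ = 1 := by
  apply inc8_injective
  simp only [map_mul, map_commutatorElement, map_one]
  rw [inc8_arrow_loop comp6.sbe, inc8_arrow_loop comp6.sh2, inc8_arrow_loop comp6.sal,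
    inc8_arrow_loop comp6.sh1]
  have h := R1' relG8
  have hc : ∀ a b : Lam.G, ⁅(tau 6)⁻¹ * a * tau 6, (tau 6)⁻¹ * b * tau 6⁆ =
      (tau 6)⁻¹ * ⁅a, b⁆ * tau 6 := by
    intro a b
    simp only [commutatorElement_def]
    group
  rw [hc, hc]
  calc (tau 6)⁻¹ * ⁅be ey ez, h2 ey ez⁆ * tau 6 * ((tau 6)⁻¹ * ⁅al ey, h1 ey ez⁆ * tau 6)
      = (tau 6)⁻¹ * (⁅be ey ez, h2 ey ez⁆ * ⁅al ey, h1 ey ez⁆) * tau 6 := by group
    _ = 1 := by rw [h, mul_one, inv_mul_cancel]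

/-- The second component of `S_x`. -/
noncomputable def Sx2 : SurfGroup 2 →* Gam8 :=
  Surf.surfLift (arrow (be ey ez) 6) (arrow (h2 ey ez) 6) (arrow (al ey) 6)
    (arrow (h1 ey ez) 6) rel_Sx2

theorem isSx_Sx2 : Final8.IsSx (tau 6) Sx2 where
  h0 := (congrArg Subtype.val (Surf.surfLift_A1 _ _ _ _ rel_Sx2)).trans (arrow_val comp6.sbe)
  h1 := (congrArg Subtype.val (Surf.surfLift_B1 _ _ _ _ rel_Sx2)).trans (arrow_val comp6.sh2)
  h2 := (congrArg Subtype.val (Surf.surfLift_A2 _ _ _ _ rel_Sx2)).trans (arrow_val comp6.sal)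
  h3 := (congrArg Subtype.val (Surf.surfLift_B2 _ _ _ _ rel_Sx2)).trans (arrow_val comp6.sh1)

/-! ### The key fact -/

/-- the relator of a maximal surface -/
theorem max_of {p p1 p3 p4 : Fin 8} (hc : Comp p p1 p3 p4) {φ : SurfGroup 2 →* Gam8}
    (hφ : Final8.IsSx (tau p) φ) {ρ : Gam8 →* HomeoPlus} {L : Gam8 → CircleDeg1Liftˣ}
    (hL : ∀ g, cov (L g) = ρ g) (h : ZExt.circle.eval (ρ.comp φ) = 2) :
    (L (arrow (be ey ez) p) * L (arrow (h2 ey ez) p) * (L (arrow (be ey ez) p))⁻¹ *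
      (L (arrow (h2 ey ez) p))⁻¹) * (L (arrow (al ey) p) * L (arrow (h1 ey ez) p) *
      (L (arrow (al ey) p))⁻¹ * (L (arrow (h1 ey ez) p))⁻¹) = Rigid.T ^ (2 : ℤ) := by
  have h4 := ZExt.circle.eval_spec (ρ.comp φ) (fun i => L (φ (PresentedGroup.of i)))
    (fun i => hL _)
  have h5 := (lift_surfRel_two (fun i => L (φ (PresentedGroup.of i)))).symm.trans h4
  rw [eq_arrow hc.sbe hφ.h0, eq_arrow hc.sh2 hφ.h1, eq_arrow hc.sal hφ.h2,
    eq_arrow hc.sh1 hφ.h3, h] at h5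
  exact h5

/-- **The key fact.** -/
theorem key {Sx1 Sx2 : SurfGroup 2 →* Gam8} {Sz : SurfGroup 3 →* Gam8}
    (h1 : Final8.IsSx (tau 0) Sx1) (h2 : Final8.IsSx (tau 6) Sx2)
    (hz : Final8.IsSz (tau 2) Sz) (ρ : Gam8 →* HomeoPlus)
    (e1 : ZExt.circle.eval (ρ.comp Sx1) = 2) (e2 : ZExt.circle.eval (ρ.comp Sx2) = 2) :
    ∃ n : ℤ, ZExt.circle.eval (ρ.comp Sz) = 4 * n := by
  choose L hL using fun g : Gam8 => cov_surjective (ρ g)
  have hl : IsLift L := isLift_of_cov hL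
  obtain ⟨⟨t, ht, hs⟩, ⟨m, hm⟩, hc, hd1, hd2⟩ :=
    hyps hl (max_of comp0 h1 hL e1) (max_of comp6 h2 hL e2)
  obtain ⟨n, hn⟩ := GenRig.q8 (X := fun q => L (arrow ex q)) (Y := fun q => L (arrow ey q))
    (Z := fun q => L (arrow ez q)) ht hs hm hc hd1 hd2
  refine ⟨n, ?_⟩
  have mv := GenRig.m_v (v := GenRig.qV) (V := GenRig.VV (fun q => L (arrow ex q))
    (fun q => L (arrow ey q))) GenRig.qV_qV hm
  have m0 := mv 0
  have m1 := mv 1
  have m3 := mv 3
  have m4 := mv 4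
  rw [show GenRig.qV 0 = 5 by decide] at m0
  rw [show GenRig.qV 1 = 2 by decide] at m1
  rw [show GenRig.qV 3 = 6 by decide] at m3
  rw [show GenRig.qV 4 = 7 by decide] at m4
  have hsum : m 0 + m 1 + m 3 + m 4 = 4 * n := by
    simp only [Fin.sum_univ_succ, Fin.sum_univ_zero] at hn
    change m 0 + (m 1 + (m 2 + (m 3 + (m 4 + (m 5 + (m 6 + (m 7 + 0))))))) = 8 * n at hn
    omega
  rw [← hsum]
  have hA := gLift_of hl
  have p0 := (path_g0 hA).2
  have p1 := (path_g1 hA).2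
  have p2 := (path_g2 hA).2
  have p3 := (path_g3 hA).2
  have p4 := (path_g4 hA).2
  have p5 := (path_g5 hA).2
  refine ZExt.circle.eval_eq (φ := ρ.comp Sz) (F := fun i => L (Sz (PresentedGroup.of i)))
    (fun i => hL _) ?_
  refine (lift_surfRel_three (fun i => L (Sz (PresentedGroup.of i)))).trans ?_
  rw [eq_arrow s0 hz.h0, eq_arrow s1 hz.h1, eq_arrow s2 hz.h2,
    eq_arrow s3 hz.h3, eq_arrow s4 hz.h4, eq_arrow s5 hz.h5]
  have c : ∀ {a b a' b' : Rigid.G}, Eqv a a' → Eqv b b' → ⁅a, b⁆ = ⁅a', b'⁆ := by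
    intro a b a' b' ha hb
    rw [commutatorElement_def, commutatorElement_def]
    exact comm_Eqv ha hb
  rw [c p0 p1, c p2 p3, c p4 p5]
  have tc : ∀ (k : ℤ) (g : Rigid.G), Commute (Rigid.T ^ k) g := fun k g => Tz_comm k g
  have g0' := hm 0
  have g1' := hm 1
  have g3' := hm 3
  have g4' := hm 4
  have fin := Sz8.groupoid_identity (L (arrow ex 0)) (L (arrow ex 1)) (L (arrow ex 2))
    (L (arrow ex 3)) (L (arrow ex 4)) (L (arrow ex 5)) (L (arrow ex 6)) (L (arrow ex 7))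
    (L (arrow ey 0)) (L (arrow ey 1)) (L (arrow ey 2)) (L (arrow ey 3)) (L (arrow ey 4))
    (L (arrow ey 5)) (L (arrow ey 6)) (L (arrow ey 7)) (Rigid.T ^ m 0) (Rigid.T ^ m 1)
    (Rigid.T ^ m 3) (Rigid.T ^ m 4) (tc _) (tc _) (tc _) (tc _) g0' g1' g3' g4'
    _ _ _ _ _ _ rfl rfl rfl rfl rfl rfl
  refine fin.trans ?_
  rw [zpow_add, zpow_add, zpow_add]
  rfl

open Pool.Agent.EC.Stmt in
/-- **The second example.** -/
theorem evenExample :
    ∃ (Γ : Type) (_ : Group Γ) (A : Γ → Matrix (Fin 4) (Fin 4) ℝ),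
    HypMfd A ∧ Stmt.BettiPos Γ ∧ ∃ a : ZExt Γ, Stmt.dualNorm A a = 1 ∧
      (∀ g : ℕ, ∀ φ : SurfGroup g →* Γ, Even (a.eval φ)) ∧
      (∀ ρ : Γ →* HomeoPlus, ¬ EulerEq ρ a) ∧
      ∀ g : ℕ, 1 ≤ g → ∀ φ : SurfGroup g →* Γ, |a.eval φ| ≤ 2 * (g : ℤ) - 2 :=
  Final8.final8 isSx_Sx2 isSz_Sz (key (tau_zero ▸ Final8.isSx_Sx) isSx_Sx2 isSz_Sz)

end Pool.Agent.EC.Key8
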