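import Pool.Agent.EC.Geo

/-! The Lambert cube with three essential angles `π/4`. -/

namespace Pool.Agent.EC

open Real

namespace Lam

/-- The Coxeter matrix of the Lambert cube: generators `0,1,2 = s_x,s_y,s_z` and
`3,4,5 = b_x,b_y,b_z`. -/
def M : CoxeterMatrix (Fin 6) where
  M := !![1, 2, 2, 0, 2, 4;
          2, 1, 2, 4, 0, 2;
          2, 2, 1, 2, 4, 0;
          0, 4, 2, 1, 2, 2;
          2, 0, 4, 2, 1, 2;
          4, 2, 0, 2, 2, 1]
  isSymm := by unfold Matrix.IsSymm; decide
  diagonal := by decide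
  off_diagonal := by
    intro i j hij
    fin_cases i <;> fin_cases j <;> first | exact absurd rfl hij | (change (_ : ℕ) ≠ 1; decide)

/-- the golden ratio -/
noncomputable def φ : ℝ := Real.goldenRatio

/-- `√φ` -/
noncomputable def g : ℝ := Real.sqrt φ

/-- `1/√2` -/
noncomputable def h : ℝ := Real.sqrt (1 / 2)

theorem φ_sq : φ ^ 2 = φ + 1 := Real.goldenRatio_sq
theorem φ_gt : 1 < φ := Real.one_lt_goldenRatio
theorem φ_lt : φ < 2 := Real.goldenRatio_lt_two
theorem g_sq : g ^ 2 = φ := Real.sq_sqrt (by linarith [φ_gt])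
theorem g_pos : 0 < g := Real.sqrt_pos.mpr (by linarith [φ_gt])
theorem h_sq : h ^ 2 = 1 / 2 := Real.sq_sqrt (by norm_num)
theorem h_pos : 0 < h := Real.sqrt_pos.mpr (by norm_num)

/-- The outward unit normals. -/
noncomputable def e : Fin 6 → V4 :=
  ![![0, 1, 0, 0], ![0, 0, 1, 0], ![0, 0, 0, 1],
    ![h * g, -(h * φ), -h, 0], ![h * g, 0, -(h * φ), -h], ![h * g, -h, 0, -(h * φ)]]

/-- The interior point before normalisation. -/
noncomputable def c0 : V4 := ![g, -(1 / 2), -(1 / 2), -(1 / 2)]

/-- normalisation factor of the interior point -/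
noncomputable def k : ℝ := (Real.sqrt (φ - 3 / 4))⁻¹

theorem k_pos : 0 < k := inv_pos.mpr (Real.sqrt_pos.mpr (by linarith [φ_gt]))
theorem k_sq : k ^ 2 * (φ - 3 / 4) = 1 := by
  have h1 : 0 < φ - 3 / 4 := by linarith [φ_gt]
  unfold k
  rw [inv_pow, Real.sq_sqrt h1.le]
  exact inv_mul_cancel₀ h1.ne'

theorem gg : g * g = φ := by rw [← pow_two]; exact g_sq
theorem hh : h * h = 1 / 2 := by rw [← pow_two]; exact h_sq
theorem pp : φ * φ = φ + 1 := by rw [← pow_two]; exact φ_sq

/-- Gram matrix entries. -/
theorem gram (i j : Fin 6) : lor (e i) (e j) =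
    (!![1, 0, 0, -(h * φ), 0, -h;
        0, 1, 0, -h, -(h * φ), 0;
        0, 0, 1, 0, -h, -(h * φ);
        -(h * φ), -h, 0, 1, 0, 0;
        0, -(h * φ), -h, 0, 1, 0;
        -h, 0, -(h * φ), 0, 0, 1] : Matrix (Fin 6) (Fin 6) ℝ) i j := by
  have h2 := h_sq
  have g2 := g_sq
  have p2 := φ_sq
  fin_cases i <;> fin_cases j <;>
    simp only [e, lor, Fin.zero_eta, Fin.mk_one, Fin.reduceFinMk, Matrix.cons_val_zero,
      Matrix.cons_val_one, Matrix.cons_val, Matrix.of_apply, Matrix.cons_val', Matrix.cons_val_fin_one] <;>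
    first
      | ring1
      | (ring_nf; simp only [h2, g2, p2]; ring1)

/-- The Lambert cube. -/
noncomputable def L : CP (Fin 6) where
  M := M
  e := e
  c := k • c0
  he := by
    intro i
    rw [gram]
    fin_cases i <;> rfl
  hM := by
    intro i j hij
    rw [gram]
    have h2 := h_sq
    have hp := h_pos
    have p1 := φ_gt
    have p2 := φ_sq
    have hφ : 1 ≤ h * φ := by
      have : 1 ≤ (h * φ) ^ 2 := by rw [mul_pow, h2, p2]; linarith
      nlinarith [mul_pos hp (by linarith : (0:ℝ) < φ)]
    fin_cases i <;> fin_cases j <;>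
      first
        | exact absurd rfl hij
        | exact Or.inl ⟨rfl, rfl⟩
        | exact Or.inr (Or.inl ⟨rfl, neg_neg_of_pos hp, by change (-h) ^ 2 = 1 / 2; rw [neg_sq, h2]⟩)
        | exact Or.inr (Or.inr ⟨rfl, neg_le_neg hφ⟩)
  hc := by
    have g2 := g_sq
    have k2 := k_sq
    refine ⟨?_, ?_⟩
    · rw [lor_smul_left, lor_smul_right]
      have : lor c0 c0 = 3 / 4 - φ := by
        simp only [c0, lor, Matrix.cons_val_zero, Matrix.cons_val_one, Matrix.cons_val]
        ring_nf; rw [g2]
      rw [this]; nlinarith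
    · simp only [Pi.smul_apply, smul_eq_mul]
      exact mul_pos k_pos g_pos
  hce := by
    intro i
    rw [lor_smul_left]
    apply mul_neg_of_pos_of_neg k_pos
    have g2 := g_sq
    have hp := h_pos
    have p1 := φ_gt
    have key : h * ((1 - φ) / 2) < 0 := mul_neg_of_pos_of_neg hp (by linarith)
    fin_cases i
    · simp only [e, c0, lor, Fin.zero_eta, Matrix.cons_val_zero, Matrix.cons_val_one,
        Matrix.cons_val]; norm_num
    · simp only [e, c0, lor, Fin.mk_one, Matrix.cons_val_zero, Matrix.cons_val_one,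
        Matrix.cons_val]; norm_num
    · simp only [e, c0, lor, Fin.reduceFinMk, Matrix.cons_val_zero, Matrix.cons_val_one,
        Matrix.cons_val]; norm_num
    · have : lor c0 (e 3) = h * ((1 - φ) / 2) := by
        simp only [e, c0, lor, Matrix.cons_val_zero, Matrix.cons_val_one, Matrix.cons_val]
        ring_nf; rw [g2]; ring
      change lor c0 (e 3) < 0
      rw [this]; exact key
    · have : lor c0 (e 4) = h * ((1 - φ) / 2) := by
        simp only [e, c0, lor, Matrix.cons_val_zero, Matrix.cons_val_one, Matrix.cons_val]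
        ring_nf; rw [g2]; ring
      change lor c0 (e 4) < 0
      rw [this]; exact key
    · have : lor c0 (e 5) = h * ((1 - φ) / 2) := by
        simp only [e, c0, lor, Matrix.cons_val_zero, Matrix.cons_val_one, Matrix.cons_val]
        ring_nf; rw [g2]; ring
      change lor c0 (e 5) < 0
      rw [this]; exact key

/-- The vertices of the Lambert cube, indexed by `Fin 8` (bits: x, y, z). -/
noncomputable def vert : Fin 8 → V4 :=
  ![![g, 0, 0, 0],                                -- 000
    ![g, -1, 0, 0],                               -- 100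
    ![g, 0, -1, 0],                               -- 010
    ![g, -(2 - φ), -1, 0],                        -- 110
    ![g, 0, 0, -1],                               -- 001
    ![g, -1, 0, -(2 - φ)],                        -- 101
    ![g, 0, -(2 - φ), -1],                        -- 011
    ![g, -(φ - 1), -(φ - 1), -(φ - 1)]]           -- 111

/-- The faces through a vertex. -/
def face : Fin 8 → Fin 3 → Fin 6 :=
  ![![0, 1, 2], ![3, 1, 2], ![0, 4, 2], ![3, 4, 2], ![0, 1, 5], ![3, 1, 5], ![0, 4, 5], ![3, 4, 5]]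

/-- Neighbours of a vertex. -/
def nbr : Fin 8 → Fin 3 → Fin 8 :=
  ![![1, 2, 4], ![0, 3, 5], ![3, 0, 6], ![2, 1, 7], ![5, 6, 0], ![4, 7, 1], ![7, 4, 2], ![6, 5, 3]]

/-- The values of the normals on the vertices. -/
noncomputable def table : Matrix (Fin 8) (Fin 6) ℝ :=
  !![0, 0, 0, -(h * φ), -(h * φ), -(h * φ);
     -1, 0, 0, 0, -(h * φ), h * (1 - φ);
     0, -1, 0, h * (1 - φ), 0, -(h * φ);
     -(2 - φ), -1, 0, 0, 0, h * (2 - 2 * φ);
     0, 0, -1, -(h * φ), h * (1 - φ), 0;
     -1, 0, -(2 - φ), 0, h * (2 - 2 * φ), 0;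
     0, -(2 - φ), -1, h * (2 - 2 * φ), 0, 0;
     -(φ - 1), -(φ - 1), -(φ - 1), 0, 0, 0]

theorem vert_lor (k : Fin 8) (i : Fin 6) : lor (vert k) (e i) = table k i := by
  have g2 := g_sq
  have p2 := φ_sq
  fin_cases k <;> fin_cases i <;>
    simp only [e, vert, table, lor, Fin.zero_eta, Fin.mk_one, Fin.reduceFinMk,
      Matrix.cons_val_zero,
      Matrix.cons_val_one, Matrix.cons_val, Matrix.of_apply, Matrix.cons_val',
      Matrix.cons_val_fin_one] <;>
    first
      | ring1
      | (ring_nf; simp only [g2, p2]; ring1)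
      | (ring_nf; simp only [g2])

theorem table_zero (k : Fin 8) (a : Fin 3) : table k (face k a) = 0 := by
  fin_cases k <;> fin_cases a <;> rfl

theorem table_neg (k : Fin 8) (a : Fin 3) : table (nbr k a) (face k a) < 0 := by
  have hp := h_pos
  have p1 := φ_gt
  have p2 := φ_lt
  have q0 : (-1 : ℝ) < 0 := by norm_num
  have q1 : -(h * φ) < 0 := neg_neg_of_pos (mul_pos hp (by linarith))
  have q2 : h * (1 - φ) < 0 := mul_neg_of_pos_of_neg hp (by linarith)
  have q3 : h * (2 - 2 * φ) < 0 := mul_neg_of_pos_of_neg hp (by linarith)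
  have q4 : -(2 - φ) < 0 := by linarith
  have q5 : -(φ - 1) < 0 := by linarith
  fin_cases k <;> fin_cases a <;>
    first | exact q0 | exact q1 | exact q2 | exact q3 | exact q4 | exact q5

theorem table_nbr_zero (k : Fin 8) (a b : Fin 3) (hab : a ≠ b) :
    table (nbr k a) (face k b) = 0 := by
  fin_cases k <;> fin_cases a <;> fin_cases b <;> first | exact absurd rfl hab | rfl

/-- The vertex certificate. -/
noncomputable def cert : VCert L.e (Fin 8) where
  v := vert
  J := face
  nb := nbr
  hv := by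
    have g2 := g_sq
    have gp := g_pos
    have p1 := φ_gt
    have p2 := φ_lt
    have ps := φ_sq
    intro k
    fin_cases k <;>
      refine ⟨?_, gp⟩ <;>
      simp only [vert, lor, Fin.zero_eta, Fin.mk_one, Fin.reduceFinMk, Matrix.cons_val_zero,
        Matrix.cons_val_one, Matrix.cons_val] <;> nlinarith
  hv0 := fun k a => by
    change lor (vert k) (e (face k a)) = 0
    rw [vert_lor, table_zero]
  hnb := fun k a => by
    change lor (vert (nbr k a)) (e (face k a)) < 0
    rw [vert_lor]; exact table_neg k a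
  hnb0 := fun k a b hab => by
    change lor (vert (nbr k a)) (e (face k b)) = 0
    rw [vert_lor]; exact table_nbr_zero k a b hab

/-- The Lambert cube is compact. -/
theorem isCompact_P : IsCompact L.P := L.isCompact_P cert

end Lam

end Pool.Agent.EC
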