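import Mathlib

/-! Lorentzian geometry of `ℝ^(3,1)`: the form `lor`, the hyperboloid `H3`, reflections. -/

namespace Pool.Agent.EC

/-- The ambient space `ℝ^4`. -/
abbrev V4 := Fin 4 → ℝ

/-- The Lorentzian form of signature `(3,1)` (coordinate `0` is the time coordinate). -/
def lor (x y : V4) : ℝ := x 1 * y 1 + x 2 * y 2 + x 3 * y 3 - x 0 * y 0

/-- Hyperbolic 3-space: the upper sheet of the hyperboloid. -/
def H3 : Set V4 := {x | lor x x = -1 ∧ 0 < x 0}

/-- Future timelike vectors. -/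
def FutT (x : V4) : Prop := lor x x < 0 ∧ 0 < x 0

theorem H3.fut {x : V4} (h : x ∈ H3) : FutT x := ⟨by rw [h.1]; norm_num, h.2⟩

theorem lor_comm (x y : V4) : lor x y = lor y x := by unfold lor; ring
theorem lor_add_left (x y z : V4) : lor (x + y) z = lor x z + lor y z := by
  simp only [lor, Pi.add_apply]; ring
theorem lor_add_right (x y z : V4) : lor x (y + z) = lor x y + lor x z := by
  simp only [lor, Pi.add_apply]; ring
theorem lor_sub_left (x y z : V4) : lor (x - y) z = lor x z - lor y z := by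
  simp only [lor, Pi.sub_apply]; ring
theorem lor_sub_right (x y z : V4) : lor x (y - z) = lor x y - lor x z := by
  simp only [lor, Pi.sub_apply]; ring
theorem lor_smul_left (a : ℝ) (x y : V4) : lor (a • x) y = a * lor x y := by
  simp only [lor, Pi.smul_apply, smul_eq_mul]; ring
theorem lor_smul_right (a : ℝ) (x y : V4) : lor x (a • y) = a * lor x y := by
  simp only [lor, Pi.smul_apply, smul_eq_mul]; ring
theorem lor_neg_left (x y : V4) : lor (-x) y = - lor x y := by
  simp only [lor, Pi.neg_apply]; ring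
theorem lor_neg_right (x y : V4) : lor x (-y) = - lor x y := by
  simp only [lor, Pi.neg_apply]; ring

theorem continuous_lor : Continuous (fun p : V4 × V4 => lor p.1 p.2) := by
  unfold lor; fun_prop

/-- Cauchy–Schwarz for the spatial part. -/
theorem spatial_cs (x y : V4) : (x 1 * y 1 + x 2 * y 2 + x 3 * y 3) ^ 2 ≤
    (x 1 ^ 2 + x 2 ^ 2 + x 3 ^ 2) * (y 1 ^ 2 + y 2 ^ 2 + y 3 ^ 2) := by
  nlinarith [sq_nonneg (x 1 * y 2 - x 2 * y 1), sq_nonneg (x 1 * y 3 - x 3 * y 1),
    sq_nonneg (x 2 * y 3 - x 3 * y 2)]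

/-- A future timelike vector and a causal vector with positive time coordinate have negative
product. -/
theorem lor_neg_of_fut {x f : V4} (hx : FutT x) (hf : lor f f ≤ 0) (hf0 : 0 < f 0) :
    lor x f < 0 := by
  obtain ⟨hx1, hx0⟩ := hx
  have h1 : x 1 ^ 2 + x 2 ^ 2 + x 3 ^ 2 < x 0 ^ 2 := by unfold lor at hx1; nlinarith
  have h2 : f 1 ^ 2 + f 2 ^ 2 + f 3 ^ 2 ≤ f 0 ^ 2 := by unfold lor at hf; nlinarith
  have h3 := spatial_cs x f
  have h4 : (x 1 ^ 2 + x 2 ^ 2 + x 3 ^ 2) * (f 1 ^ 2 + f 2 ^ 2 + f 3 ^ 2) < (x 0 * f 0) ^ 2 := by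
    have h5 : 0 ≤ x 1 ^ 2 + x 2 ^ 2 + x 3 ^ 2 := by positivity
    have h6 : 0 < f 0 ^ 2 := by positivity
    calc (x 1 ^ 2 + x 2 ^ 2 + x 3 ^ 2) * (f 1 ^ 2 + f 2 ^ 2 + f 3 ^ 2)
        ≤ (x 1 ^ 2 + x 2 ^ 2 + x 3 ^ 2) * f 0 ^ 2 := mul_le_mul_of_nonneg_left h2 h5
      _ < x 0 ^ 2 * f 0 ^ 2 := mul_lt_mul_of_pos_right h1 h6
      _ = (x 0 * f 0) ^ 2 := by ring
  have h7 : (x 1 * f 1 + x 2 * f 2 + x 3 * f 3) ^ 2 < (x 0 * f 0) ^ 2 := lt_of_le_of_lt h3 h4
  have h8 : 0 < x 0 * f 0 := mul_pos hx0 hf0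
  have h9 := (abs_lt_of_sq_lt_sq h7 h8.le)
  unfold lor
  have := (abs_lt.mp h9).2
  linarith

theorem lor_nonneg_of_past {x f : V4} (hx : FutT x) (hf : lor f f ≤ 0) (hf0 : f 0 ≤ 0) :
    0 ≤ lor x f := by
  rcases lt_or_eq_of_le hf0 with h | h
  · have := lor_neg_of_fut (f := -f) hx (by rw [lor_neg_left, lor_neg_right]; linarith)
      (by simp; exact h)
    rw [lor_neg_right] at this; linarith
  · have h1 : f 1 ^ 2 + f 2 ^ 2 + f 3 ^ 2 ≤ 0 := by unfold lor at hf; rw [h] at hf; nlinarith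
    have e1 : f 1 = 0 := by nlinarith [sq_nonneg (f 1), sq_nonneg (f 2), sq_nonneg (f 3)]
    have e2 : f 2 = 0 := by nlinarith [sq_nonneg (f 1), sq_nonneg (f 2), sq_nonneg (f 3)]
    have e3 : f 3 = 0 := by nlinarith [sq_nonneg (f 1), sq_nonneg (f 2), sq_nonneg (f 3)]
    unfold lor; rw [e1, e2, e3, h]; simp

theorem pos_of_lor_neg {x f : V4} (hx : FutT x) (hf : lor f f ≤ 0) (h : lor x f < 0) :
    0 < f 0 := by
  by_contra h0
  exact absurd (lor_nonneg_of_past hx hf (not_lt.mp h0)) (not_le.mpr h)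

/-- Reversed Cauchy–Schwarz on the hyperboloid. -/
theorem lor_le_neg_one {x y : V4} (hx : x ∈ H3) (hy : y ∈ H3) : lor x y ≤ -1 := by
  have hneg : lor x y < 0 := lor_neg_of_fut (H3.fut hx) (by rw [hy.1]; norm_num) hy.2
  by_contra hcon
  push Not at hcon
  -- consider `y + (lor x y) x`, orthogonal to `x`, with norm `-1 + (lor x y)^2 < 0`
  set t := lor x y with ht
  have hf : lor (y + t • x) (y + t • x) = -1 + t ^ 2 := by
    rw [lor_add_left, lor_add_right, lor_add_right, lor_smul_left, lor_smul_left, lor_smul_right,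
      lor_smul_right, hx.1, hy.1, lor_comm y x, ← ht]; ring
  have hf' : lor (y + t • x) (y + t • x) ≤ 0 := by rw [hf]; nlinarith
  have hxf : lor x (y + t • x) = 0 := by
    rw [lor_add_right, lor_smul_right, hx.1, ← ht]; ring
  rcases lt_trichotomy ((y + t • x) 0) 0 with h | h | h
  · have := lor_neg_of_fut (f := -(y + t • x)) (H3.fut hx)
      (by rw [lor_neg_left, lor_neg_right]; linarith) (by simp only [Pi.neg_apply]; linarith)
    rw [lor_neg_right] at this; linarith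
  · -- then the vector vanishes
    have h1 : (y + t • x) 1 ^ 2 + (y + t • x) 2 ^ 2 + (y + t • x) 3 ^ 2 < 0 := by
      have : lor (y + t • x) (y + t • x) < 0 := by rw [hf]; nlinarith
      unfold lor at this; rw [h] at this; nlinarith
    nlinarith [sq_nonneg ((y + t • x) 1), sq_nonneg ((y + t • x) 2), sq_nonneg ((y + t • x) 3)]
  · have := lor_neg_of_fut (H3.fut hx) hf' h
    linarith

/-- If `x`, `y` are on different sides of the wall `e⊥`, `y` at depth `δ`, then they are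
uniformly apart. -/
theorem lor_sep {x y e : V4} {δ : ℝ} (hx : x ∈ H3) (hy : y ∈ H3) (he : lor e e = 1)
    (hδ : 0 < δ) (hxe : 0 ≤ lor x e) (hye : lor y e ≤ -δ) : (lor x y) ^ 2 ≥ 1 + δ ^ 2 := by
  -- project to the wall
  set a := lor x e with ha
  set b := -lor y e with hb
  have hb' : lor y e = -b := by rw [hb]; ring
  have hbδ : δ ≤ b := by rw [hb]; linarith
  set x' : V4 := x - a • e with hx'
  set y' : V4 := y + b • e with hy'
  have nx : lor x' x' = -(1 + a ^ 2) := by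
    rw [hx', lor_sub_left, lor_sub_right, lor_sub_right, lor_smul_left, lor_smul_left,
      lor_smul_right, lor_smul_right, hx.1, he, lor_comm e x, ← ha]; ring
  have ny : lor y' y' = -(1 + b ^ 2) := by
    rw [hy', lor_add_left, lor_add_right, lor_add_right, lor_smul_left, lor_smul_left,
      lor_smul_right, lor_smul_right, hy.1, he, lor_comm e y, hb']; ring
  have hxy : lor x y = lor x' y' - a * b := by
    rw [hx', hy', lor_sub_left, lor_add_right, lor_add_right, lor_smul_left, lor_smul_left,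
      lor_smul_right, lor_smul_right, he, lor_comm e y, hb', ← ha]; ring
  -- `x'` and `y'` are future timelike
  have fx : lor y x' < 0 := by
    have h1 : lor y x' = lor x y + a * b := by
      rw [hx', lor_sub_right, lor_smul_right, hb', lor_comm y x]; ring
    have h2 : (lor x y) ≤ -1 := lor_le_neg_one hx hy
    -- if `lor y x' ≥ 0` then `x'` is past, but then `lor x x' ≥ 0`, while it is `-(1+a²)`
    by_contra hcon
    push Not at hcon
    have h3 : x' 0 ≤ 0 := by
      by_contra h4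
      exact absurd (lor_neg_of_fut (H3.fut hy) (by rw [nx]; nlinarith) (not_le.mp h4))
        (not_lt.mpr hcon)
    have h5 := lor_nonneg_of_past (H3.fut hx) (f := x') (by rw [nx]; nlinarith) h3
    have h6 : lor x x' = -(1 + a ^ 2) := by
      rw [hx', lor_sub_right, lor_smul_right, hx.1, ← ha]; ring
    nlinarith
  have px : 0 < x' 0 := pos_of_lor_neg (H3.fut hy) (by rw [nx]; nlinarith) fx
  have py : 0 < y' 0 := by
    have h6 : lor y y' = -(1 + b ^ 2) := by
      rw [hy', lor_add_right, lor_smul_right, hy.1, hb']; ring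
    exact pos_of_lor_neg (H3.fut hy) (by rw [ny]; nlinarith) (by rw [h6]; nlinarith)
  -- normalise
  have sx : 0 < 1 + a ^ 2 := by positivity
  have sy : 0 < 1 + b ^ 2 := by positivity
  set p := Real.sqrt (1 + a ^ 2) with hp
  set q := Real.sqrt (1 + b ^ 2) with hq
  have pp : 0 < p := Real.sqrt_pos.mpr sx
  have qp : 0 < q := Real.sqrt_pos.mpr sy
  have psq : p ^ 2 = 1 + a ^ 2 := Real.sq_sqrt sx.le
  have qsq : q ^ 2 = 1 + b ^ 2 := Real.sq_sqrt sy.le
  have hX : (p⁻¹ • x') ∈ H3 := by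
    refine ⟨?_, ?_⟩
    · rw [lor_smul_left, lor_smul_right, nx, ← psq]; field_simp
    · simp only [Pi.smul_apply, smul_eq_mul]; positivity
  have hY : (q⁻¹ • y') ∈ H3 := by
    refine ⟨?_, ?_⟩
    · rw [lor_smul_left, lor_smul_right, ny, ← qsq]; field_simp
    · simp only [Pi.smul_apply, smul_eq_mul]; positivity
  have hXY := lor_le_neg_one hX hY
  rw [lor_smul_left, lor_smul_right] at hXY
  have h8 : lor x' y' ≤ -(p * q) := by
    have : p * q * (p⁻¹ * (q⁻¹ * lor x' y')) ≤ p * q * (-1) :=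
      mul_le_mul_of_nonneg_left hXY (by positivity)
    have h9 : p * q * (p⁻¹ * (q⁻¹ * lor x' y')) = lor x' y' := by field_simp
    rw [h9] at this; linarith
  have h10 : lor x y ≤ -q := by
    have hp1 : 1 ≤ p := by nlinarith [sq_nonneg a]
    have : q ≤ p * q := by nlinarith
    have hab : 0 ≤ a * b := mul_nonneg hxe (le_trans hδ.le hbδ)
    linarith
  nlinarith

/-- Comparison of the time coordinates of two points of the hyperboloid. -/
theorem time_bound {z y : V4} (hz : z ∈ H3) (hy : y ∈ H3) : z 0 ≤ 2 * y 0 * (-lor z y) := by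
  obtain ⟨hz1, hz0⟩ := hz
  obtain ⟨hy1, hy0⟩ := hy
  have h1 : z 1 ^ 2 + z 2 ^ 2 + z 3 ^ 2 = z 0 ^ 2 - 1 := by unfold lor at hz1; nlinarith
  have h2 : y 1 ^ 2 + y 2 ^ 2 + y 3 ^ 2 = y 0 ^ 2 - 1 := by unfold lor at hy1; nlinarith
  have h3 := spatial_cs z y
  set S := z 1 * y 1 + z 2 * y 2 + z 3 * y 3 with hS
  have hl : lor z y = S - z 0 * y 0 := by unfold lor; rw [hS]
  rw [hl]
  have h1z : 0 ≤ z 0 ^ 2 - 1 := by rw [← h1]; positivity
  have h1y : 0 ≤ y 0 ^ 2 - 1 := by rw [← h2]; positivity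
  rw [h1, h2] at h3
  -- S ≤ z0 sqrt(y0^2-1), and sqrt(y0^2-1) ≤ y0 - 1/(2 y0)
  have h4 : (z 0 * (y 0 - 1 / (2 * y 0))) ^ 2 ≥ (z 0 ^ 2 - 1) * (y 0 ^ 2 - 1) := by
    have h5 : (y 0 - 1 / (2 * y 0)) ^ 2 = y 0 ^ 2 - 1 + 1 / (4 * y 0 ^ 2) := by
      field_simp; ring
    rw [mul_pow, h5]
    have h6 : 0 ≤ 1 / (4 * y 0 ^ 2) := by positivity
    nlinarith [mul_nonneg (sq_nonneg (z 0)) h6]
  have h7 : 0 ≤ z 0 * (y 0 - 1 / (2 * y 0)) := by
    apply mul_nonneg hz0.le
    have : 1 / (2 * y 0) ≤ y 0 := by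
      rw [div_le_iff₀ (by positivity)]; nlinarith
    linarith
  have h8 : S ≤ z 0 * (y 0 - 1 / (2 * y 0)) := by
    exact le_trans (le_abs_self S) (abs_le_of_sq_le_sq (by linarith) h7)
  have h9 : z 0 * (y 0 - 1 / (2 * y 0)) = z 0 * y 0 - z 0 / (2 * y 0) := by
    field_simp
  rw [h9] at h8
  have h10 : z 0 / (2 * y 0) ≤ -(S - z 0 * y 0) := by linarith
  rw [div_le_iff₀ (by positivity)] at h10
  linarith

end Pool.Agent.EC
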