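import Pool.Agent.EC.NRBase

/-!
Non-realisability: a system of lifts over the index four subgroup which is maximal on the
surface `S_x` has even Euler number on the surface `S_y`.
-/

namespace EC.NR

open CircleDeg1Lift

/-- equality up to the central translation by `k` -/
def E (k : ℤ) (f g : H) : Prop := f = T ^ k * g

theorem E.mul {k l : ℤ} {f g f' g' : H} (h : E k f g) (h' : E l f' g') :
    E (k + l) (f * f') (g * g') := by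
  unfold E at *
  rw [h, h']
  calc T ^ k * g * (T ^ l * g') = T ^ k * (g * T ^ l) * g' := by group
    _ = T ^ k * (T ^ l * g) * g' := by rw [T_comm l g]
    _ = T ^ (k + l) * (g * g') := by group

theorem E.inv {k : ℤ} {f g : H} (h : E k f g) : E (-k) f⁻¹ g⁻¹ := by
  unfold E at *
  rw [h, mul_inv_rev, ← zpow_neg, T_comm]

theorem E.rfl' {f : H} : E 0 f f := by
  unfold E
  simp

theorem E.of_eq {f g : H} (h : f = g) : E 0 f g := by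
  rw [h]; exact E.rfl'

theorem E.trans {k l : ℤ} {f g h : H} (h1 : E k f g) (h2 : E l g h) : E (k + l) f h := by
  unfold E at *
  rw [h1, h2, zpow_add]
  group

theorem E.symm {k : ℤ} {f g : H} (h : E k f g) : E (-k) g f := by
  unfold E at *
  rw [h]
  group

theorem E.tau {k : ℤ} {f g : H} (h : E k f g) : tau f = k + tau g := by
  unfold E at h
  rw [h, tau_T_mul]

theorem E.cast {k l : ℤ} {f g : H} (h : E k f g) (e : k = l) : E l f g := e ▸ h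

/-- from `f g = T^k` -/
theorem E.of_mul_eq {k : ℤ} {f g : H} (h : f * g = T ^ k) : E k f g⁻¹ := by
  unfold E
  rw [← h]
  group

theorem E.of_mul_eq' {k : ℤ} {f g : H} (h : f * g = T ^ k) : E k g f⁻¹ := by
  unfold E
  have h1 : g = f⁻¹ * T ^ k := by rw [← h]; group
  rw [T_comm]
  exact h1

theorem conj_lt (g f : H) (h : ∃ x, (f : CircleDeg1Lift) x < x + 1) :
    ∃ x, ((g * f * g⁻¹ : H) : CircleDeg1Lift) x < x + 1 := by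
  obtain ⟨x, hx⟩ := h
  refine ⟨(g : CircleDeg1Lift) x, ?_⟩
  rw [mul_app, mul_app, inv_app]
  have := strictMono g hx
  rwa [(g : CircleDeg1Lift).map_add_one] at this

theorem big_pair (P K : H) (hP : ∃ x, (P : CircleDeg1Lift) x < x + 1)
    (hK : ∃ x, (K : CircleDeg1Lift) x < x + 1) (h : P * K = T ^ (2 : ℤ)) : Big P ∧ Big K := by
  have e : ∀ x, (P : CircleDeg1Lift) ((K : CircleDeg1Lift) x) = x + 2 := by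
    intro x
    rw [← mul_app, h, T_zpow_apply]
    norm_num
  constructor
  · obtain ⟨x, hx⟩ := hK
    left
    refine ⟨(K : CircleDeg1Lift) x, ?_⟩
    rw [e]
    linarith
  · obtain ⟨x, hx⟩ := hP
    left
    refine ⟨(P : CircleDeg1Lift) x - 2, ?_⟩
    have h1 : (P : CircleDeg1Lift) ((K : CircleDeg1Lift) ((P : CircleDeg1Lift) x - 2)) =
        (P : CircleDeg1Lift) x := by
      rw [e]; ring
    have h2 : (K : CircleDeg1Lift) ((P : CircleDeg1Lift) x - 2) = x :=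
      (strictMono P).injective h1
    rw [h2]
    linarith

theorem big_of_neg_two (C s : H) (h : ∃ x, (C : CircleDeg1Lift) x < x + 1) (F : H)
    (e : E (-2) F (s * C * s⁻¹)) : Big F := by
  obtain ⟨x, hx⟩ := conj_lt s C h
  right
  refine ⟨x, ?_⟩
  unfold E at e
  rw [e, mul_app, T_zpow_apply]
  push_cast
  have : ((s * C * s⁻¹ : H) : CircleDeg1Lift) x = (↑s * ↑C * ↑s⁻¹ : CircleDeg1Lift) x := rfl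
  rw [← this]
  linarith

theorem Big.of_conj {f g : H} (h : Big (g * f * g⁻¹)) : Big f := by
  have h1 := h.conj g⁻¹
  have e : g⁻¹ * (g * f * g⁻¹) * g⁻¹⁻¹ = f := by group
  rwa [e] at h1

theorem Big.of_inv {f : H} (h : Big f⁻¹) : Big f := by
  have h1 := h.inv
  rwa [inv_inv] at h1

/-- the first surface: both handles are big -/
theorem handles (Y0 Y1 Y2 Y3 Z0 Z1 Z2 Z3 u0 u1 u2 u3 : H) (n1 n2 : ℤ)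
    (hu0 : u0 = Y0 * Z0⁻¹ * Y1⁻¹ * Z1) (hu1 : u1 = Y1 * Z2⁻¹ * Y3⁻¹ * Z3)
    (hu2 : u2 = Y2 * Z1⁻¹ * Y0⁻¹ * Z0) (hu3 : u3 = Y3 * Z3⁻¹ * Y2⁻¹ * Z2)
    (h03 : u0 * u3 = T ^ n1) (h12 : u1 * u2 = T ^ n2) (hn : n1 + n2 = 2) :
    Big ((Y2 * Y3) * (Y3⁻¹ * Z3) * (Y2 * Y3)⁻¹ * (Y3⁻¹ * Z3)⁻¹) ∧
    Big ((Y1 * Y0) * (Y0⁻¹ * Z0) * (Y1 * Y0)⁻¹ * (Y0⁻¹ * Z0)⁻¹) := by
  have e3 : E n1 u3 u0⁻¹ := E.of_mul_eq' h03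
  have e1 : E n2 u1 u2⁻¹ := E.of_mul_eq h12
  have hP : E (0 + n1 + 0 + n2) (Y2 * u3 * Y1⁻¹ * u1) (Y2 * u0⁻¹ * Y1⁻¹ * u2⁻¹) :=
    (((E.rfl' (f := Y2)).mul e3).mul (E.rfl' (f := Y1⁻¹))).mul e1
  have hprod : (Y2 * u3 * Y1⁻¹ * u1) * (u2 * (Y1 * u0 * Y2⁻¹ * u2) * u2⁻¹) = T ^ (2 : ℤ) := by
    unfold E at hP
    rw [hP]
    have : (0 + n1 + 0 + n2 : ℤ) = 2 := by omega
    rw [this]
    group
  have c2 : Y2 * u3 * Y1⁻¹ * u1 =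
      (Y2 * Y3) * (Y3⁻¹ * Z3)⁻¹ * (Y2 * Y3)⁻¹ * ((Y3⁻¹ * Z3)⁻¹)⁻¹ := by
    rw [hu3, hu1]; group
  have c1 : Y1 * u0 * Y2⁻¹ * u2 =
      (Y1 * Y0) * (Y0⁻¹ * Z0)⁻¹ * (Y1 * Y0)⁻¹ * ((Y0⁻¹ * Z0)⁻¹)⁻¹ := by
    rw [hu0, hu2]; group
  have l2 : ∃ x, ((Y2 * u3 * Y1⁻¹ * u1 : H) : CircleDeg1Lift) x < x + 1 := by
    rw [c2]; exact comm_lt _ _
  have l1 : ∃ x, ((Y1 * u0 * Y2⁻¹ * u2 : H) : CircleDeg1Lift) x < x + 1 := by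
    rw [c1]; exact comm_lt _ _
  obtain ⟨b2, b1⟩ := big_pair _ _ l2 (conj_lt u2 _ l1) hprod
  have b1' := b1.of_conj
  rw [c2] at b2
  rw [c1] at b1'
  -- [b, a⁻¹] is conjugate to [b,a]⁻¹
  have k2 : (Y2 * Y3) * (Y3⁻¹ * Z3)⁻¹ * (Y2 * Y3)⁻¹ * ((Y3⁻¹ * Z3)⁻¹)⁻¹ =
      (Y3⁻¹ * Z3)⁻¹ * ((Y2 * Y3) * (Y3⁻¹ * Z3) * (Y2 * Y3)⁻¹ * (Y3⁻¹ * Z3)⁻¹)⁻¹ *
        ((Y3⁻¹ * Z3)⁻¹)⁻¹ := by group
  have k1 : (Y1 * Y0) * (Y0⁻¹ * Z0)⁻¹ * (Y1 * Y0)⁻¹ * ((Y0⁻¹ * Z0)⁻¹)⁻¹ =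
      (Y0⁻¹ * Z0)⁻¹ * ((Y1 * Y0) * (Y0⁻¹ * Z0) * (Y1 * Y0)⁻¹ * (Y0⁻¹ * Z0)⁻¹)⁻¹ *
        ((Y0⁻¹ * Z0)⁻¹)⁻¹ := by group
  rw [k2] at b2
  rw [k1] at b1'
  exact ⟨b2.of_conj.of_inv, b1'.of_conj.of_inv⟩

/-- twice (C) -/
theorem CC (b a : H) (q al : ℤ) (hb : tau b = q) (ha : tau a = al)
    (hB : Big (b * a * b⁻¹ * a⁻¹)) : tau (b * a * a) = (q + 2 * al : ℤ) := by
  have h1 := C b a q al hb ha hB
  have e : (b * a) * a * (b * a)⁻¹ * a⁻¹ = b * a * b⁻¹ * a⁻¹ := by group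
  have h2 := C (b * a) a (q + al) al h1 ha (by rw [e]; exact hB)
  rw [h2]
  congr 1
  ring

/-- the second surface -/
theorem mixed (Y0 Y1 Y2 Y3 W0 W1 W2 W3 U0 U1 U2 U3 : H) (N1 N2 : ℤ)
    (hU0 : U0 = Y0 * W3⁻¹ * Y2⁻¹ * W2) (hU1 : U1 = Y1 * W1⁻¹ * Y0⁻¹ * W0)
    (hU2 : U2 = Y2 * W2⁻¹ * Y3⁻¹ * W3) (hU3 : U3 = Y3 * W0⁻¹ * Y1⁻¹ * W1)
    (h03 : U0 * U3 = T ^ N1) (h12 : U1 * U2 = T ^ N2) (hn : N1 + N2 = 2) :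
    Big ((Y1 * Y0) * ((Y0⁻¹ * W0) * (Y3⁻¹ * W3)) * (Y1 * Y0)⁻¹ *
      ((Y0⁻¹ * W0) * (Y3⁻¹ * W3))⁻¹) ∧
    Big ((Y2 * Y3) * ((Y3⁻¹ * W3) * (Y0⁻¹ * W0)) * (Y2 * Y3)⁻¹ *
      ((Y3⁻¹ * W3) * (Y0⁻¹ * W0))⁻¹) := by
  obtain ⟨s1, hs1⟩ : ∃ s1, s1 = Y0⁻¹ * W0 := ⟨_, rfl⟩
  obtain ⟨s2, hs2⟩ : ∃ s2, s2 = Y3⁻¹ * W3 := ⟨_, rfl⟩
  obtain ⟨g2, hg2⟩ : ∃ g2, g2 = U1⁻¹ * Y1 * U3⁻¹ * Y2⁻¹ := ⟨_, rfl⟩
  obtain ⟨g1, hg1⟩ : ∃ g1, g1 = U2⁻¹ * Y2 * U0⁻¹ * Y1⁻¹ := ⟨_, rfl⟩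
  have e2 : E N2 U1 U2⁻¹ := E.of_mul_eq h12
  have e2' : E N2 U2 U1⁻¹ := E.of_mul_eq' h12
  have e0 : E N1 U3 U0⁻¹ := E.of_mul_eq' h03
  have e0' : E N1 U0 U3⁻¹ := E.of_mul_eq h03
  have G1 : E (-2) g1 (U1 * g2⁻¹ * U1⁻¹) := by
    have h : E (-N2 + 0 + -N1 + 0) g1 (U1 * Y2 * U3 * Y1⁻¹) := by
      rw [hg1]
      exact (((e2.symm).mul (E.rfl' (f := Y2))).mul e0.symm).mul (E.rfl' (f := Y1⁻¹))
    have h2 : U1 * Y2 * U3 * Y1⁻¹ = U1 * g2⁻¹ * U1⁻¹ := by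
      rw [hg2]; group
    rw [h2] at h
    exact h.cast (by omega)
  have G2 : E (-2) g2 (U1⁻¹ * g1⁻¹ * U1) := by
    have h : E (-(-2)) (g1⁻¹) ((U1 * g2⁻¹ * U1⁻¹)⁻¹) := G1.inv
    have h3 := ((E.rfl' (f := U1⁻¹)).mul h).mul (E.rfl' (f := U1))
    have h4 : U1⁻¹ * (U1 * g2⁻¹ * U1⁻¹)⁻¹ * U1 = g2 := by group
    rw [h4] at h3
    exact h3.symm.cast (by omega)
  -- s1 g2 s1⁻¹
  have d1 : (Y1 * Y0) * s1 * (Y2 * Y3)⁻¹ * s1⁻¹ = s1 * g2 * s1⁻¹ := by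
    rw [hg2, hU1, hU3, hs1]; group
  have d2 : (Y2 * Y3) * s2 * (Y1 * Y0)⁻¹ * s2⁻¹ = s2 * g1 * s2⁻¹ := by
    rw [hg1, hU2, hU0, hs2]; group
  have c1 : (Y1 * Y0) * (s1 * s2) * (Y1 * Y0)⁻¹ * (s1 * s2)⁻¹ =
      (s1 * g2 * s1⁻¹) * (s1 * (s2 * g1 * s2⁻¹) * s1⁻¹) := by
    rw [← d1, ← d2]; group
  have c2 : (Y2 * Y3) * (s2 * s1) * (Y2 * Y3)⁻¹ * (s2 * s1)⁻¹ =
      (s2 * g1 * s2⁻¹) * (s2 * (s1 * g2 * s1⁻¹) * s2⁻¹) := by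
    rw [← d1, ← d2]; group
  rw [← hs1, ← hs2]
  constructor
  · rw [c1]
    refine big_of_neg_two (g2 * (s2 * U1) * g2⁻¹ * (s2 * U1)⁻¹) s1 (comm_lt _ _) _ ?_
    have h := ((E.rfl' (f := s1 * g2 * s1⁻¹)).mul
      (((E.rfl' (f := s1)).mul (((E.rfl' (f := s2)).mul G1).mul (E.rfl' (f := s2⁻¹)))).mul
        (E.rfl' (f := s1⁻¹))))
    have h2 : s1 * g2 * s1⁻¹ * (s1 * (s2 * (U1 * g2⁻¹ * U1⁻¹) * s2⁻¹) * s1⁻¹) =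
        s1 * (g2 * (s2 * U1) * g2⁻¹ * (s2 * U1)⁻¹) * s1⁻¹ := by group
    rw [h2] at h
    exact h.cast (by omega)
  · rw [c2]
    refine big_of_neg_two (g1 * (s1 * U1⁻¹) * g1⁻¹ * (s1 * U1⁻¹)⁻¹) s2 (comm_lt _ _) _ ?_
    have h := ((E.rfl' (f := s2 * g1 * s2⁻¹)).mul
      (((E.rfl' (f := s2)).mul (((E.rfl' (f := s1)).mul G2).mul (E.rfl' (f := s1⁻¹)))).mul
        (E.rfl' (f := s2⁻¹))))
    have h2 : s2 * g1 * s2⁻¹ * (s2 * (s1 * (U1⁻¹ * g1⁻¹ * U1) * s1⁻¹) * s2⁻¹) =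
        s2 * (g1 * (s1 * U1⁻¹) * g1⁻¹ * (s1 * U1⁻¹)⁻¹) * s2⁻¹ := by group
    rw [h2] at h
    exact h.cast (by omega)

/-- NON-REALISABILITY in terms of lifts of the twelve Schreier generators. -/
theorem main (X0 X1 X2 X3 Y0 Y1 Y2 Y3 Z0 Z1 Z2 Z3 u0 u1 u2 u3 v0 v1 v2 v3 : H)
    (n1 n2 m1 m2 r0 r1 r2 r3 k0 k3 : ℤ)
    (hu0 : u0 = Y0 * Z0⁻¹ * Y1⁻¹ * Z1) (hu1 : u1 = Y1 * Z2⁻¹ * Y3⁻¹ * Z3)
    (hu2 : u2 = Y2 * Z1⁻¹ * Y0⁻¹ * Z0) (hu3 : u3 = Y3 * Z3⁻¹ * Y2⁻¹ * Z2)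
    (hv0 : v0 = Z0 * X2⁻¹ * Z3⁻¹ * X3) (hv1 : v1 = Z1 * X3⁻¹ * Z1⁻¹ * X1)
    (hv2 : v2 = Z2 * X0⁻¹ * Z2⁻¹ * X2) (hv3 : v3 = Z3 * X1⁻¹ * Z0⁻¹ * X0)
    (h03 : u0 * u3 = T ^ n1) (h12 : u1 * u2 = T ^ n2)
    (g03 : v0 * v3 = T ^ m1) (g12 : v1 * v2 = T ^ m2)
    (y0 : E r0 (v3⁻¹ * Y2⁻¹ * v2) Y1⁻¹) (y3 : E r3 (v0⁻¹ * Y1⁻¹ * v1) Y2⁻¹)
    (y1 : E r1 (v2⁻¹ * Y3⁻¹ * v3) Y0⁻¹) (y2 : E r2 (v1⁻¹ * Y0⁻¹ * v0) Y3⁻¹)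
    (x0 : E k0 (X0⁻¹ * u0 * X3) u0) (x3 : E k3 (X3⁻¹ * u3 * X0) u3)
    (hn : n1 + n2 = 2) : Even (m1 + m2) := by
  -- relations between the exponents
  have hT : ∀ (i j : ℤ), (T ^ i : H) = T ^ j → i = j := by
    intro i j h
    have := congrArg (fun f : H => (f : CircleDeg1Lift) 0) h
    simp only [T_zpow_apply, zero_add] at this
    exact_mod_cast this
  have ev3 : E m1 v3 v0⁻¹ := E.of_mul_eq' g03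
  have ev0 : E m1 v0 v3⁻¹ := E.of_mul_eq g03
  have ev1 : E m2 v1 v2⁻¹ := E.of_mul_eq g12
  have ev2 : E m2 v2 v1⁻¹ := E.of_mul_eq' g12
  have hr : r0 + r3 = m2 - m1 := by
    -- v0⁻¹ (v3⁻¹ Y2⁻¹ v2) v1 = T^{r0} v0⁻¹ Y1⁻¹ v1 = T^{r0+r3} Y2⁻¹
    have h1 : E (r0 + r3) (v0⁻¹ * (v3⁻¹ * Y2⁻¹ * v2) * v1) Y2⁻¹ :=
      ((((E.rfl' (f := v0⁻¹)).mul y0).mul (E.rfl' (f := v1))).trans y3).cast (by ring)
    -- v0⁻¹ v3⁻¹ = T^{-m1}, v2 v1 = T^{m2}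
    have h2 : E (-m1) (v0⁻¹ * v3⁻¹) 1 := by
      have := ((E.rfl' (f := v0⁻¹)).mul ev3.inv)
      have e : v0⁻¹ * v0⁻¹⁻¹ = 1 := by group
      rw [e] at this
      exact this.cast (by ring)
    have h3 : E m2 (v2 * v1) 1 := by
      have := (ev2.mul (E.rfl' (f := v1)))
      have e : v1⁻¹ * v1 = 1 := by group
      rw [e] at this
      exact this.cast (by ring)
    have h4 : E (-m1 + m2) (v0⁻¹ * (v3⁻¹ * Y2⁻¹ * v2) * v1) Y2⁻¹ := by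
      have := (h2.mul (E.rfl' (f := Y2⁻¹))).mul h3
      have e : v0⁻¹ * v3⁻¹ * Y2⁻¹ * (v2 * v1) = v0⁻¹ * (v3⁻¹ * Y2⁻¹ * v2) * v1 := by group
      have e' : 1 * Y2⁻¹ * 1 = Y2⁻¹ := by group
      rw [e, e'] at this
      exact this.cast (by ring)
    unfold E at h1 h4
    rw [h1] at h4
    have := hT _ _ (mul_right_cancel h4)
    omega
  have hr' : r1 + r2 = m1 - m2 := by
    have h1 : E (r1 + r2) (v1⁻¹ * (v2⁻¹ * Y3⁻¹ * v3) * v0) Y3⁻¹ :=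
      ((((E.rfl' (f := v1⁻¹)).mul y1).mul (E.rfl' (f := v0))).trans y2).cast (by ring)
    have h2 : E (-m2) (v1⁻¹ * v2⁻¹) 1 := by
      have := ((E.rfl' (f := v1⁻¹)).mul ev2.inv)
      have e : v1⁻¹ * v1⁻¹⁻¹ = 1 := by group
      rw [e] at this
      exact this.cast (by ring)
    have h3 : E m1 (v3 * v0) 1 := by
      have := (ev3.mul (E.rfl' (f := v0)))
      have e : v0⁻¹ * v0 = 1 := by group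
      rw [e] at this
      exact this.cast (by ring)
    have h4 : E (-m2 + m1) (v1⁻¹ * (v2⁻¹ * Y3⁻¹ * v3) * v0) Y3⁻¹ := by
      have := (h2.mul (E.rfl' (f := Y3⁻¹))).mul h3
      have e : v1⁻¹ * v2⁻¹ * Y3⁻¹ * (v3 * v0) = v1⁻¹ * (v2⁻¹ * Y3⁻¹ * v3) * v0 := by group
      have e' : 1 * Y3⁻¹ * 1 = Y3⁻¹ := by group
      rw [e, e'] at this
      exact this.cast (by ring)
    unfold E at h1 h4
    rw [h1] at h4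
    have := hT _ _ (mul_right_cancel h4)
    omega
  -- the second system
  obtain ⟨W0, hW0⟩ : ∃ W0, W0 = v0 * Z3 := ⟨_, rfl⟩
  obtain ⟨W1, hW1⟩ : ∃ W1, W1 = v1 * Z2 := ⟨_, rfl⟩
  obtain ⟨W2, hW2⟩ : ∃ W2, W2 = v2 * Z1 := ⟨_, rfl⟩
  obtain ⟨W3, hW3⟩ : ∃ W3, W3 = v3 * Z0 := ⟨_, rfl⟩
  obtain ⟨U0, hU0⟩ : ∃ U0, U0 = Y0 * W3⁻¹ * Y2⁻¹ * W2 := ⟨_, rfl⟩
  obtain ⟨U1, hU1⟩ : ∃ U1, U1 = Y1 * W1⁻¹ * Y0⁻¹ * W0 := ⟨_, rfl⟩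
  obtain ⟨U2, hU2⟩ : ∃ U2, U2 = Y2 * W2⁻¹ * Y3⁻¹ * W3 := ⟨_, rfl⟩
  obtain ⟨U3, hU3⟩ : ∃ U3, U3 = Y3 * W0⁻¹ * Y1⁻¹ * W1 := ⟨_, rfl⟩
  have c0 : E r0 U0 u0 := by
    have h := ((E.rfl' (f := Y0 * Z0⁻¹)).mul y0).mul (E.rfl' (f := Z1))
    have e : Y0 * Z0⁻¹ * (v3⁻¹ * Y2⁻¹ * v2) * Z1 = U0 := by
      rw [hU0, hW3, hW2]; group
    have e' : Y0 * Z0⁻¹ * Y1⁻¹ * Z1 = u0 := hu0.symm
    rw [e, e'] at h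
    exact h.cast (by ring)
  have c3 : E r3 U3 u3 := by
    have h := ((E.rfl' (f := Y3 * Z3⁻¹)).mul y3).mul (E.rfl' (f := Z2))
    have e : Y3 * Z3⁻¹ * (v0⁻¹ * Y1⁻¹ * v1) * Z2 = U3 := by
      rw [hU3, hW0, hW1]; group
    have e' : Y3 * Z3⁻¹ * Y2⁻¹ * Z2 = u3 := hu3.symm
    rw [e, e'] at h
    exact h.cast (by ring)
  have c1 : E r2 U1 u1 := by
    have h := ((E.rfl' (f := Y1 * Z2⁻¹)).mul y2).mul (E.rfl' (f := Z3))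
    have e : Y1 * Z2⁻¹ * (v1⁻¹ * Y0⁻¹ * v0) * Z3 = U1 := by
      rw [hU1, hW1, hW0]; group
    have e' : Y1 * Z2⁻¹ * Y3⁻¹ * Z3 = u1 := hu1.symm
    rw [e, e'] at h
    exact h.cast (by ring)
  have c2 : E r1 U2 u2 := by
    have h := ((E.rfl' (f := Y2 * Z1⁻¹)).mul y1).mul (E.rfl' (f := Z0))
    have e : Y2 * Z1⁻¹ * (v2⁻¹ * Y3⁻¹ * v3) * Z0 = U2 := by
      rw [hU2, hW2, hW3]; group
    have e' : Y2 * Z1⁻¹ * Y0⁻¹ * Z0 = u2 := hu2.symm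
    rw [e, e'] at h
    exact h.cast (by ring)
  have H03 : U0 * U3 = T ^ (r0 + r3 + n1) := by
    have h := c0.mul c3
    unfold E at h
    rw [h, h03, ← zpow_add]
  have H12 : U1 * U2 = T ^ (r2 + r1 + n2) := by
    have h := c1.mul c2
    unfold E at h
    rw [h, h12, ← zpow_add]
  -- handles of the first surface
  obtain ⟨Bb, Bb1⟩ := handles Y0 Y1 Y2 Y3 Z0 Z1 Z2 Z3 u0 u1 u2 u3 n1 n2 hu0 hu1 hu2 hu3 h03 h12 hn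
  obtain ⟨q, hq⟩ := M1 _ _ Bb
  obtain ⟨al, hal⟩ := M1' _ _ Bb
  obtain ⟨p, hp⟩ := M1 _ _ Bb1
  obtain ⟨al1, hal1⟩ := M1' _ _ Bb1
  have A2 := CC _ _ q al hq hal Bb
  have A1 := CC _ _ p al1 hp hal1 Bb1
  -- the second surface
  obtain ⟨M1b, M2b⟩ := mixed Y0 Y1 Y2 Y3 W0 W1 W2 W3 U0 U1 U2 U3 (r0 + r3 + n1) (r2 + r1 + n2)
    hU0 hU1 hU2 hU3 H03 H12 (by omega)
  obtain ⟨t, ht⟩ := M1' _ _ M1b
  have ht' : tau ((Y3⁻¹ * W3) * (Y0⁻¹ * W0)) = t := by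
    rw [tau_mul_comm]; exact ht
  have B1 := C _ _ p t hp ht M1b
  have B2 := C _ _ q t hq ht' M2b
  -- (2)
  have a0 : E n1 (u0 * Z3 * Z2) (Z2⁻¹ * (Y2 * Y3 * (Y3⁻¹ * Z3) * (Y3⁻¹ * Z3)) * Z2⁻¹⁻¹) := by
    have h := ((E.of_mul_eq h03).mul (E.rfl' (f := Z3))).mul (E.rfl' (f := Z2))
    have e : u3⁻¹ * Z3 * Z2 = Z2⁻¹ * (Y2 * Y3 * (Y3⁻¹ * Z3) * (Y3⁻¹ * Z3)) * Z2⁻¹⁻¹ := by
      rw [hu3]; group
    rw [e] at h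
    exact h.cast (by ring)
  have a3 : E n1 (u3 * Z0 * Z1) (Z1⁻¹ * (Y1 * Y0 * (Y0⁻¹ * Z0) * (Y0⁻¹ * Z0)) * Z1⁻¹⁻¹) := by
    have h := ((E.of_mul_eq' h03).mul (E.rfl' (f := Z0))).mul (E.rfl' (f := Z1))
    have e : u0⁻¹ * Z0 * Z1 = Z1⁻¹ * (Y1 * Y0 * (Y0⁻¹ * Z0) * (Y0⁻¹ * Z0)) * Z1⁻¹⁻¹ := by
      rw [hu0]; group
    rw [e] at h
    exact h.cast (by ring)
  have ta0 : tau (u0 * Z3 * Z2) = n1 + (q + 2 * al : ℤ) := by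
    rw [a0.tau, tau_conj, A2]
  have ta3 : tau (u3 * Z0 * Z1) = n1 + (p + 2 * al1 : ℤ) := by
    rw [a3.tau, tau_conj, A1]
  -- (4)
  have b0 : E (-r0 + (r0 + r3 + n1)) (u0 * W3 * W1)
      (W1⁻¹ * (Y1 * Y0 * ((Y0⁻¹ * W0) * (Y3⁻¹ * W3))) * W1⁻¹⁻¹) := by
    have h := ((c0.symm.trans (E.of_mul_eq H03)).mul (E.rfl' (f := W3))).mul (E.rfl' (f := W1))
    have e : U3⁻¹ * W3 * W1 =
        W1⁻¹ * (Y1 * Y0 * ((Y0⁻¹ * W0) * (Y3⁻¹ * W3))) * W1⁻¹⁻¹ := by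
      rw [hU3]; group
    rw [e] at h
    exact h.cast (by ring)
  have b3 : E (-r3 + (r0 + r3 + n1)) (u3 * W0 * W2)
      (W2⁻¹ * (Y2 * Y3 * ((Y3⁻¹ * W3) * (Y0⁻¹ * W0))) * W2⁻¹⁻¹) := by
    have h := ((c3.symm.trans (E.of_mul_eq' H03)).mul (E.rfl' (f := W0))).mul (E.rfl' (f := W2))
    have e : U0⁻¹ * W0 * W2 =
        W2⁻¹ * (Y2 * Y3 * ((Y3⁻¹ * W3) * (Y0⁻¹ * W0))) * W2⁻¹⁻¹ := by
      rw [hU0]; group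
    rw [e] at h
    exact h.cast (by ring)
  have tb0 : tau (u0 * W3 * W1) = (-r0 + (r0 + r3 + n1) : ℤ) + (p + t : ℤ) := by
    rw [b0.tau, tau_conj, B1]
  have tb3 : tau (u3 * W0 * W2) = (-r3 + (r0 + r3 + n1) : ℤ) + (q + t : ℤ) := by
    rw [b3.tau, tau_conj, B2]
  -- (5)
  have z3 : E (-m1) (X3⁻¹ * Z3 * X2) W3 := by
    have e : X3⁻¹ * Z3 * X2 = v0⁻¹ * Z0 := by rw [hv0]; group
    rw [e, hW3]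
    exact (ev3.symm.mul (E.rfl' (f := Z0))).cast (by ring)
  have z1 : E (-m2) (X2⁻¹ * Z2 * X0) W1 := by
    have e : X2⁻¹ * Z2 * X0 = v2⁻¹ * Z2 := by rw [hv2]; group
    rw [e, hW1]
    exact (ev1.symm.mul (E.rfl' (f := Z2))).cast (by ring)
  have z0 : E (-m1) (X0⁻¹ * Z0 * X1) W0 := by
    have e : X0⁻¹ * Z0 * X1 = v3⁻¹ * Z3 := by rw [hv3]; group
    rw [e, hW0]
    exact (ev0.symm.mul (E.rfl' (f := Z3))).cast (by ring)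
  have z2 : E (-m2) (X1⁻¹ * Z1 * X3) W2 := by
    have e : X1⁻¹ * Z1 * X3 = v1⁻¹ * Z1 := by rw [hv1]; group
    rw [e, hW2]
    exact (ev2.symm.mul (E.rfl' (f := Z1))).cast (by ring)
  have f0 : E (k0 - m1 - m2) (X0⁻¹ * (u0 * Z3 * Z2) * X0) (u0 * W3 * W1) := by
    have h := (x0.mul z3).mul z1
    have e : X0⁻¹ * u0 * X3 * (X3⁻¹ * Z3 * X2) * (X2⁻¹ * Z2 * X0) =
        X0⁻¹ * (u0 * Z3 * Z2) * X0 := by group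
    rw [e] at h
    exact h.cast (by ring)
  have f3 : E (k3 - m1 - m2) (X3⁻¹ * (u3 * Z0 * Z1) * X3) (u3 * W0 * W2) := by
    have h := (x3.mul z0).mul z2
    have e : X3⁻¹ * u3 * X0 * (X0⁻¹ * Z0 * X1) * (X1⁻¹ * Z1 * X3) =
        X3⁻¹ * (u3 * Z0 * Z1) * X3 := by group
    rw [e] at h
    exact h.cast (by ring)
  have hk : k0 + k3 = 0 := by
    have h := x0.mul x3
    have e : X0⁻¹ * u0 * X3 * (X3⁻¹ * u3 * X0) = X0⁻¹ * (u0 * u3) * X0 := by group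
    rw [e, h03] at h
    have e' : X0⁻¹ * T ^ n1 * X0 = T ^ n1 := by
      rw [mul_assoc, T_comm]; group
    rw [e'] at h
    unfold E at h
    rw [← zpow_add] at h
    have := hT _ _ h
    omega
  have t0 := f0.tau
  rw [tau_conj', ta0, tb0] at t0
  have t3 := f3.tau
  rw [tau_conj', ta3, tb3] at t3
  have t0' : n1 + (q + 2 * al) = (k0 - m1 - m2) + ((-r0 + (r0 + r3 + n1)) + (p + t)) := by
    exact_mod_cast t0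
  have t3' : n1 + (p + 2 * al1) = (k3 - m1 - m2) + ((-r3 + (r0 + r3 + n1)) + (q + t)) := by
    exact_mod_cast t3
  exact ⟨al + al1 + 2 * m1 + m2 - t, by omega⟩

end EC.NR
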