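import Mathlib

/-!
Elementary facts on the group of lifts of circle homeomorphisms, used for the non-realisability
part of the example for MP_a825f6_gt.
-/

namespace EC.NR

open CircleDeg1Lift

/-- lifts of orientation preserving circle homeomorphisms -/
abbrev H := CircleDeg1Liftˣ

/-- the translation by one -/
noncomputable def T : H := translate (Multiplicative.ofAdd 1)

/-- translation number of a lift -/
noncomputable def tau (f : H) : ℝ := translationNumber (f : CircleDeg1Lift)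

theorem cont (f : H) : Continuous ((f : CircleDeg1Lift) : ℝ → ℝ) := by
  have : ((f : CircleDeg1Lift) : ℝ → ℝ) = toOrderIso f := by
    rw [coe_toOrderIso]
  rw [this]
  exact (toOrderIso f).continuous

theorem strictMono (f : H) : StrictMono ((f : CircleDeg1Lift) : ℝ → ℝ) := by
  have : ((f : CircleDeg1Lift) : ℝ → ℝ) = toOrderIso f := by
    rw [coe_toOrderIso]
  rw [this]
  exact (toOrderIso f).strictMono

theorem T_zpow_apply (k : ℤ) (x : ℝ) : ((T ^ k : H) : CircleDeg1Lift) x = x + k := by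
  have h : (T ^ k : H) = translate (Multiplicative.ofAdd ((k : ℤ) * (1 : ℝ))) := by
    rw [T, translate_zpow]
  rw [h, translate_apply, mul_one, add_comm]

theorem T_apply (x : ℝ) : ((T : H) : CircleDeg1Lift) x = x + 1 := by
  have := T_zpow_apply 1 x
  simpa using this

theorem mul_app (f g : H) (x : ℝ) :
    ((f * g : H) : CircleDeg1Lift) x = (f : CircleDeg1Lift) ((g : CircleDeg1Lift) x) := rfl

theorem inv_app (f : H) (x : ℝ) :
    ((f⁻¹ : H) : CircleDeg1Lift) ((f : CircleDeg1Lift) x) = x :=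
  units_inv_apply_apply f x

theorem app_inv (f : H) (x : ℝ) :
    (f : CircleDeg1Lift) (((f⁻¹ : H) : CircleDeg1Lift) x) = x :=
  units_apply_inv_apply f x

theorem T_comm (k : ℤ) (f : H) : T ^ k * f = f * T ^ k := by
  apply Units.ext
  apply CircleDeg1Lift.ext
  intro x
  rw [mul_app, mul_app, T_zpow_apply, T_zpow_apply, map_add_int]

theorem tau_conj (g f : H) : tau (g * f * g⁻¹) = tau f := by
  unfold tau
  exact translationNumber_conj_eq g f

theorem tau_conj' (g f : H) : tau (g⁻¹ * f * g) = tau f := by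
  unfold tau
  exact translationNumber_conj_eq' g f

theorem tau_mul_comm (f g : H) : tau (f * g) = tau (g * f) := by
  have h := tau_conj' f (f * g)
  rw [← h]
  congr 1
  group

theorem tau_T_mul (k : ℤ) (f : H) : tau (T ^ k * f) = k + tau f := by
  have hc : Commute ((T ^ k : H) : CircleDeg1Lift) (f : CircleDeg1Lift) := by
    have := T_comm k f
    have h2 := congrArg (Units.val) this
    exact h2
  unfold tau
  rw [Units.val_mul, translationNumber_mul_of_commute hc]
  congr 1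
  exact translationNumber_of_eq_add_int ((T ^ k : H) : CircleDeg1Lift) (x := 0) (m := k)
    (T_zpow_apply k 0)

theorem tau_int_iff (f : H) (k : ℤ) : tau f = k ↔ ∃ x, (f : CircleDeg1Lift) x = x + k :=
  translationNumber_eq_int_iff (f : CircleDeg1Lift) (cont f)

theorem tau_zero_iff (f : H) : tau f = 0 ↔ ∃ x, (f : CircleDeg1Lift) x = x := by
  have := tau_int_iff f 0
  simpa using this

/-- a lift moving some point by at least one -/
def Big (f : H) : Prop :=
  (∃ x, x + 1 ≤ (f : CircleDeg1Lift) x) ∨ (∃ x, (f : CircleDeg1Lift) x ≤ x - 1)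

theorem Big.inv {f : H} (h : Big f) : Big f⁻¹ := by
  rcases h with ⟨x, hx⟩ | ⟨x, hx⟩
  · right
    refine ⟨(f : CircleDeg1Lift) x, ?_⟩
    rw [inv_app]
    linarith
  · left
    refine ⟨(f : CircleDeg1Lift) x, ?_⟩
    rw [inv_app]
    linarith

theorem Big.conj {f : H} (h : Big f) (g : H) : Big (g * f * g⁻¹) := by
  rcases h with ⟨x, hx⟩ | ⟨x, hx⟩
  · left
    refine ⟨(g : CircleDeg1Lift) x, ?_⟩
    rw [mul_app, mul_app, inv_app]
    have := (g : CircleDeg1Lift).mono hx
    rw [(g : CircleDeg1Lift).map_add_one] at this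
    exact this
  · right
    refine ⟨(g : CircleDeg1Lift) x, ?_⟩
    rw [mul_app, mul_app, inv_app]
    have h1 : (f : CircleDeg1Lift) x + 1 ≤ x := by linarith
    have := (g : CircleDeg1Lift).mono h1
    rw [(g : CircleDeg1Lift).map_add_one] at this
    linarith

/-- commutators move some point by less than one -/
theorem comm_lt (f g : H) : ∃ x, ((f * g * f⁻¹ * g⁻¹ : H) : CircleDeg1Lift) x < x + 1 := by
  by_contra hcon
  push Not at hcon
  -- f g >= T g f
  have h1 : ((T * (g * f) : H) : CircleDeg1Lift) ≤ ((f * g : H) : CircleDeg1Lift) := by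
    intro s
    have := hcon ((g : CircleDeg1Lift) ((f : CircleDeg1Lift) s))
    rw [mul_app, mul_app, mul_app, inv_app, inv_app] at this
    show ((T : H) : CircleDeg1Lift) ((g : CircleDeg1Lift) ((f : CircleDeg1Lift) s)) ≤
      (f : CircleDeg1Lift) ((g : CircleDeg1Lift) s)
    rw [T_apply]
    exact this
  have h2 := translationNumber_mono h1
  have h3 : tau (T * (g * f)) ≤ tau (f * g) := h2
  have h4 := tau_T_mul 1 (g * f)
  rw [zpow_one] at h4
  rw [h4, tau_mul_comm f g] at h3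
  push_cast at h3
  linarith

/-- commutators move some point by more than minus one -/
theorem comm_gt (f g : H) : ∃ x, x - 1 < ((f * g * f⁻¹ * g⁻¹ : H) : CircleDeg1Lift) x := by
  obtain ⟨x, hx⟩ := comm_lt g f
  refine ⟨((g * f * g⁻¹ * f⁻¹ : H) : CircleDeg1Lift) x, ?_⟩
  have : ((f * g * f⁻¹ * g⁻¹ : H) : CircleDeg1Lift)
      (((g * f * g⁻¹ * f⁻¹ : H) : CircleDeg1Lift) x) = x := by
    rw [← mul_app]
    have : (f * g * f⁻¹ * g⁻¹ * (g * f * g⁻¹ * f⁻¹) : H) = 1 := by group
    rw [this]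
    rfl
  rw [this]
  linarith

/-- If no integer is the translation number of `f`, commutators with `f` are small. -/
theorem M1_aux (f g : H) (h : ¬ ∃ k : ℤ, tau f = k) : ¬ Big (f * g * f⁻¹ * g⁻¹) := by
  push Not at h
  have hk : ∀ k : ℤ, ∀ x, (f : CircleDeg1Lift) x ≠ x + k := by
    intro k x hx
    exact h k ((tau_int_iff f k).2 ⟨x, hx⟩)
  set k0 : ℤ := ⌊tau f⌋ with hk0
  have hlt : (k0 : ℝ) < tau f := lt_of_le_of_ne (Int.floor_le _) (fun e => h k0 e.symm)
  have hgt : tau f < ((k0 + 1 : ℤ) : ℝ) := by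
    push_cast
    exact Int.lt_floor_add_one _
  have A : ∀ x, x + k0 < (f : CircleDeg1Lift) x := fun x =>
    lt_map_of_int_lt_translationNumber _ hlt x
  have B : ∀ x, (f : CircleDeg1Lift) x < x + (k0 + 1 : ℤ) := fun x =>
    map_lt_of_translationNumber_lt_int _ hgt x
  -- inverse of f
  have A' : ∀ x, ((f⁻¹ : H) : CircleDeg1Lift) x < x - k0 := by
    intro x
    have := A (((f⁻¹ : H) : CircleDeg1Lift) x)
    rw [app_inv] at this
    linarith
  have B' : ∀ x, x - (k0 + 1 : ℤ) < ((f⁻¹ : H) : CircleDeg1Lift) x := by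
    intro x
    have := B (((f⁻¹ : H) : CircleDeg1Lift) x)
    rw [app_inv] at this
    linarith
  have C : ∀ y, ((g * f⁻¹ * g⁻¹ : H) : CircleDeg1Lift) y < y - k0 := by
    intro y
    rw [mul_app, mul_app]
    have h1 := strictMono g (A' (((g⁻¹ : H) : CircleDeg1Lift) y))
    rw [map_sub_int, app_inv] at h1
    exact h1
  have D : ∀ y, y - (k0 + 1 : ℤ) < ((g * f⁻¹ * g⁻¹ : H) : CircleDeg1Lift) y := by
    intro y
    rw [mul_app, mul_app]
    have h1 := strictMono g (B' (((g⁻¹ : H) : CircleDeg1Lift) y))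
    rw [map_sub_int, app_inv] at h1
    exact h1
  have e : (f * g * f⁻¹ * g⁻¹ : H) = f * (g * f⁻¹ * g⁻¹) := by group
  rw [e]
  rintro (⟨x, hx⟩ | ⟨x, hx⟩)
  · rw [mul_app] at hx
    have h1 := B (((g * f⁻¹ * g⁻¹ : H) : CircleDeg1Lift) x)
    have h2 := C x
    rw [Int.cast_add, Int.cast_one] at h1
    linarith
  · rw [mul_app] at hx
    have h1 := A (((g * f⁻¹ * g⁻¹ : H) : CircleDeg1Lift) x)
    have h2 := D x
    rw [Int.cast_add, Int.cast_one] at h2
    linarith

theorem comm_inv (f g : H) : (f * g * f⁻¹ * g⁻¹)⁻¹ = g * f * g⁻¹ * f⁻¹ := by group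

theorem M1 (f g : H) (h : Big (f * g * f⁻¹ * g⁻¹)) : ∃ k : ℤ, tau f = k := by
  by_contra hc
  exact M1_aux f g hc h

theorem M1' (f g : H) (h : Big (f * g * f⁻¹ * g⁻¹)) : ∃ k : ℤ, tau g = k := by
  apply M1 g f
  rw [← comm_inv]
  exact h.inv

/-- core of (C) -/
theorem C_core (f g : H) (hf : ∃ x, (f : CircleDeg1Lift) x = x)
    (hg : ∃ x, (g : CircleDeg1Lift) x = x)
    (hpos : ∀ t, t < (f : CircleDeg1Lift) ((g : CircleDeg1Lift) t)) (s : ℝ) :
    (f : CircleDeg1Lift) ((g : CircleDeg1Lift) s) < (g : CircleDeg1Lift) ((f : CircleDeg1Lift) s) + 1 := by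
  obtain ⟨q0, hq0⟩ := hf
  obtain ⟨p0, hp0⟩ := hg
  -- g f > id
  have hpos' : ∀ t, t < (g : CircleDeg1Lift) ((f : CircleDeg1Lift) t) := by
    intro t
    have h1 := hpos ((f : CircleDeg1Lift) t)
    exact (strictMono f).lt_iff_lt.1 h1
  by_contra hcon
  push Not at hcon
  rcases le_or_gt s ((f : CircleDeg1Lift) s) with hs | hs
  · -- f (g s) < g s + 1
    have h1 : (g : CircleDeg1Lift) s ≤ (g : CircleDeg1Lift) ((f : CircleDeg1Lift) s) :=
      (g : CircleDeg1Lift).mono hs
    set y := (g : CircleDeg1Lift) s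
    -- fixed point q of f with y <= q < y + 1
    set k : ℤ := ⌈y - q0⌉ with hk
    have hk1 : y - q0 ≤ k := Int.le_ceil _
    have hk2 : (k : ℝ) < y - q0 + 1 := Int.ceil_lt_add_one _
    have hfix : (f : CircleDeg1Lift) (q0 + k) = q0 + k := by
      rw [map_add_int, hq0]
    have h2 : (f : CircleDeg1Lift) y ≤ q0 + k := by
      rw [← hfix]
      exact (f : CircleDeg1Lift).mono (by linarith)
    linarith
  · -- f s < s
    set k : ℤ := ⌊(f : CircleDeg1Lift) s - p0⌋ with hk
    have hk1 : (k : ℝ) ≤ (f : CircleDeg1Lift) s - p0 := Int.floor_le _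
    have hk2 : (f : CircleDeg1Lift) s - p0 < k + 1 := Int.lt_floor_add_one _
    set p := p0 + k with hp
    have hpfix : (g : CircleDeg1Lift) p = p := by
      rw [hp, map_add_int, hp0]
    have hp1 : p ≤ (f : CircleDeg1Lift) s := by linarith
    have hp2 : (f : CircleDeg1Lift) s < p + 1 := by linarith
    have hfp : p < (f : CircleDeg1Lift) p := by
      have := hpos p
      rwa [hpfix] at this
    have hps : p ≤ s := by linarith
    have hs1 : s < p + 1 := by
      by_contra hc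
      push Not at hc
      have h1 := (f : CircleDeg1Lift).mono hc
      rw [(f : CircleDeg1Lift).map_add_one] at h1
      linarith
    -- f-fixed point q in [p, s]
    have hivt : ∃ q ∈ Set.Icc p s, (f : CircleDeg1Lift) q - q = 0 := by
      have hcont : ContinuousOn (fun q => (f : CircleDeg1Lift) q - q) (Set.Icc p s) :=
        ((cont f).sub continuous_id).continuousOn
      have := intermediate_value_Icc' hps hcont
      have h0 : (0 : ℝ) ∈ Set.Icc ((f : CircleDeg1Lift) s - s) ((f : CircleDeg1Lift) p - p) :=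
        ⟨by linarith, by linarith⟩
      obtain ⟨q, hq, hq'⟩ := this h0
      exact ⟨q, hq, hq'⟩
    obtain ⟨q, ⟨hq1, hq2⟩, hq3⟩ := hivt
    have hqf : (f : CircleDeg1Lift) q = q := by linarith
    have hgs : (g : CircleDeg1Lift) s < q + 1 := by
      have h1 := strictMono g hs1
      rw [(g : CircleDeg1Lift).map_add_one, hpfix] at h1
      linarith
    have h2 := strictMono f hgs
    rw [(f : CircleDeg1Lift).map_add_one, hqf] at h2
    have h3 := hpos' s
    linarith

theorem small_of_pos (f g : H) (hf : ∃ x, (f : CircleDeg1Lift) x = x)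
    (hg : ∃ x, (g : CircleDeg1Lift) x = x)
    (hpos : ∀ t, t < (f : CircleDeg1Lift) ((g : CircleDeg1Lift) t)) :
    ¬ Big (f * g * f⁻¹ * g⁻¹) := by
  have hpos' : ∀ t, t < (g : CircleDeg1Lift) ((f : CircleDeg1Lift) t) := by
    intro t
    have h1 := hpos ((f : CircleDeg1Lift) t)
    exact (strictMono f).lt_iff_lt.1 h1
  have key1 := C_core f g hf hg hpos
  have key2 := C_core g f hg hf hpos'
  have e : ∀ x, ((f * g * f⁻¹ * g⁻¹ : H) : CircleDeg1Lift) x =
      (f : CircleDeg1Lift) ((g : CircleDeg1Lift)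
        (((f⁻¹ : H) : CircleDeg1Lift) (((g⁻¹ : H) : CircleDeg1Lift) x))) := fun x => rfl
  rintro (⟨x, hx⟩ | ⟨x, hx⟩)
  · rw [e] at hx
    have h1 := key1 (((f⁻¹ : H) : CircleDeg1Lift) (((g⁻¹ : H) : CircleDeg1Lift) x))
    rw [app_inv, app_inv] at h1
    linarith
  · rw [e] at hx
    have h1 := key2 (((f⁻¹ : H) : CircleDeg1Lift) (((g⁻¹ : H) : CircleDeg1Lift) x))
    rw [app_inv, app_inv] at h1
    linarith

theorem C0 (f g : H) (hf : tau f = 0) (hg : tau g = 0) (hB : Big (f * g * f⁻¹ * g⁻¹)) :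
    tau (f * g) = 0 := by
  rw [tau_zero_iff] at hf hg ⊢
  by_contra hno
  push Not at hno
  -- continuity: sign is constant
  have hc : Continuous (fun x => ((f * g : H) : CircleDeg1Lift) x - x) :=
    (cont (f * g)).sub continuous_id
  have hsign : (∀ t, t < ((f * g : H) : CircleDeg1Lift) t) ∨
      (∀ t, ((f * g : H) : CircleDeg1Lift) t < t) := by
    by_contra hc2
    push Not at hc2
    obtain ⟨⟨a, ha⟩, ⟨b, hb⟩⟩ := hc2
    have h0 : (0 : ℝ) ∈ Set.range (fun x => ((f * g : H) : CircleDeg1Lift) x - x) := by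
      have := mem_range_of_exists_le_of_exists_ge hc (c := (0 : ℝ)) ⟨a, by linarith⟩ ⟨b, by linarith⟩
      exact this
    obtain ⟨x, hx⟩ := h0
    exact hno x (by simpa [sub_eq_zero] using hx)
  rcases hsign with h | h
  · exact small_of_pos f g hf hg h hB
  · -- pass to inverses
    have hf' : ∃ x, ((f⁻¹ : H) : CircleDeg1Lift) x = x := by
      obtain ⟨x, hx⟩ := hf
      exact ⟨x, by conv_lhs => rw [← hx, inv_app]⟩
    have hg' : ∃ x, ((g⁻¹ : H) : CircleDeg1Lift) x = x := by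
      obtain ⟨x, hx⟩ := hg
      exact ⟨x, by conv_lhs => rw [← hx, inv_app]⟩
    have hpos : ∀ t, t < ((g⁻¹ : H) : CircleDeg1Lift) (((f⁻¹ : H) : CircleDeg1Lift) t) := by
      intro t
      have h1 := h (((g⁻¹ : H) : CircleDeg1Lift) (((f⁻¹ : H) : CircleDeg1Lift) t))
      rw [mul_app, app_inv, app_inv] at h1
      exact h1
    refine small_of_pos g⁻¹ f⁻¹ hg' hf' hpos ?_
    have e : (g⁻¹ * f⁻¹ * g⁻¹⁻¹ * f⁻¹⁻¹ : H) = (f * g)⁻¹ * (f * g * f⁻¹ * g⁻¹)⁻¹ * ((f * g)⁻¹)⁻¹ := by
      group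
    rw [e]
    exact hB.inv.conj _

/-- (C) -/
theorem C (f g : H) (k l : ℤ) (hf : tau f = k) (hg : tau g = l)
    (hB : Big (f * g * f⁻¹ * g⁻¹)) : tau (f * g) = (k + l : ℤ) := by
  have h1 : tau (T ^ (-k) * f) = 0 := by
    rw [tau_T_mul, hf]; push_cast; ring
  have h2 : tau (T ^ (-l) * g) = 0 := by
    rw [tau_T_mul, hg]; push_cast; ring
  have e1 : (T ^ (-k) * f) * (T ^ (-l) * g) * (T ^ (-k) * f)⁻¹ * (T ^ (-l) * g)⁻¹ =
      f * g * f⁻¹ * g⁻¹ := by
    rw [mul_inv_rev, mul_inv_rev]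
    have c1 := T_comm (-k) f
    have c2 := T_comm (-l) g
    have c3 := T_comm (-k) (T ^ (-l) * g)
    rw [c2, c1]
    have c4 : T ^ (-k) * (g * T ^ (-l)) = (g * T ^ (-l)) * T ^ (-k) := T_comm _ _
    calc f * T ^ (-k) * (g * T ^ (-l)) * (f⁻¹ * (T ^ (-k))⁻¹) * (g⁻¹ * (T ^ (-l))⁻¹)
        = f * (T ^ (-k) * (g * T ^ (-l))) * (f⁻¹ * (T ^ (-k))⁻¹) * (g⁻¹ * (T ^ (-l))⁻¹) := by
          group
      _ = f * (g * T ^ (-l) * T ^ (-k)) * (f⁻¹ * (T ^ (-k))⁻¹) * (g⁻¹ * (T ^ (-l))⁻¹) := by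
          rw [c4]
      _ = f * g * ((T ^ (-l - k)) * f⁻¹) * T ^ k * g⁻¹ * T ^ l := by
          group
      _ = f * g * (f⁻¹ * T ^ (-l - k)) * T ^ k * g⁻¹ * T ^ l := by
          rw [T_comm (-l - k) f⁻¹]
      _ = f * g * f⁻¹ * (T ^ (-l) * g⁻¹) * T ^ l := by
          group
      _ = f * g * f⁻¹ * (g⁻¹ * T ^ (-l)) * T ^ l := by
          rw [T_comm (-l) g⁻¹]
      _ = f * g * f⁻¹ * g⁻¹ := by
          group
  have h3 := C0 (T ^ (-k) * f) (T ^ (-l) * g) h1 h2 (by rw [e1]; exact hB)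
  have e2 : (T ^ (-k) * f) * (T ^ (-l) * g) = T ^ (-(k + l)) * (f * g) := by
    have c1 := T_comm (-l) f
    calc (T ^ (-k) * f) * (T ^ (-l) * g) = T ^ (-k) * (f * T ^ (-l)) * g := by group
      _ = T ^ (-k) * (T ^ (-l) * f) * g := by rw [c1]
      _ = T ^ (-(k + l)) * (f * g) := by group
  rw [e2, tau_T_mul] at h3
  push_cast at h3 ⊢
  linarith

end EC.NR
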