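import Pool.Agent.EC.SurfDefs

/-! The Lambert quadrilateral (angles `π/2, π/2, π/2, π/4`) in the hyperbolic plane
`{x ∈ H3 | x 3 = 0}` and its reflection group; the homomorphism to the group of the Lambert cube. -/

namespace Pool.Agent.EC

open Real

namespace Quad

/-- `√(3/2)` -/
noncomputable def m : ℝ := Real.sqrt (3 / 2)

theorem m_sq : m ^ 2 = 3 / 2 := Real.sq_sqrt (by norm_num)
theorem m_pos : 0 < m := Real.sqrt_pos.mpr (by norm_num)

/-- `1/√2` -/
noncomputable def h : ℝ := Real.sqrt (1 / 2)

theorem h_sq : h ^ 2 = 1 / 2 := Real.sq_sqrt (by norm_num)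
theorem h_pos : 0 < h := Real.sqrt_pos.mpr (by norm_num)

/-- The outward unit normals. -/
noncomputable def e : Fin 4 → V4 :=
  ![![0, 1, 0, 0], ![0, 0, 1, 0], ![1, -m, -h, 0], ![1, 0, -(2 * h), 0]]

/-- The values of the form on the normals. -/
theorem lor_e (x : V4) (i : Fin 4) : lor x (e i) =
    ![x 1, x 2, -(m * x 1) - h * x 2 - x 0, -(2 * h * x 2) - x 0] i := by
  fin_cases i <;>
    simp only [e, lor, Fin.zero_eta, Fin.mk_one, Fin.reduceFinMk, Matrix.cons_val_zero,
      Matrix.cons_val_one, Matrix.cons_val] <;> ring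

theorem lor_e0 (x : V4) : lor x (e 0) = x 1 := lor_e x 0
theorem lor_e1 (x : V4) : lor x (e 1) = x 2 := lor_e x 1
theorem lor_e2 (x : V4) : lor x (e 2) = -(m * x 1) - h * x 2 - x 0 := lor_e x 2
theorem lor_e3 (x : V4) : lor x (e 3) = -(2 * h * x 2) - x 0 := lor_e x 3

/-- The interior point. -/
noncomputable def c : V4 := ![33 / 31, -(8 / 31), -(8 / 31), 0]

theorem gram (i j : Fin 4) : lor (e i) (e j) =
    (!![1, 0, -m, 0;
        0, 1, -h, -(2 * h);
        -m, -h, 1, 0;
        0, -(2 * h), 0, 1] : Matrix (Fin 4) (Fin 4) ℝ) i j := by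
  have h2 := h_sq
  have m2 := m_sq
  fin_cases i <;> fin_cases j <;>
    simp only [e, lor, Fin.zero_eta, Fin.mk_one, Fin.reduceFinMk, Matrix.cons_val_zero,
      Matrix.cons_val_one, Matrix.cons_val, Matrix.of_apply, Matrix.cons_val',
      Matrix.cons_val_fin_one] <;>
    first
      | ring1
      | nlinarith

/-- The Coxeter system of the quadrilateral, as a (non-compact) polyhedron of `H3`. -/
noncomputable def Q4 : CP (Fin 4) where
  M := N4
  e := e
  c := c
  he := by
    intro i
    rw [gram]
    fin_cases i <;> rfl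
  hM := by
    intro i j hij
    rw [gram]
    have hp := h_pos
    have h2 := h_sq
    have mp := m_pos
    have m2 := m_sq
    have k1 : (1 : ℝ) ≤ m := by nlinarith
    have k2 : (1 : ℝ) ≤ 2 * h := by nlinarith
    fin_cases i <;> fin_cases j <;>
      first
        | exact absurd rfl hij
        | exact Or.inl ⟨rfl, rfl⟩
        | exact Or.inr (Or.inl ⟨rfl, neg_neg_of_pos hp, by change (-h) ^ 2 = 1 / 2; rw [neg_sq, h2]⟩)
        | exact Or.inr (Or.inr ⟨rfl, neg_le_neg k1⟩)
        | exact Or.inr (Or.inr ⟨rfl, neg_le_neg k2⟩)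
  hc := by
    constructor
    · simp only [c, lor, Matrix.cons_val_zero, Matrix.cons_val_one, Matrix.cons_val]; norm_num
    · simp only [c, Matrix.cons_val_zero]; norm_num
  hce := by
    intro i
    rw [lor_e]
    have hp := h_pos
    have h2 := h_sq
    have mp := m_pos
    have m2 := m_sq
    have k1 : m < 2 := by nlinarith
    have k2 : h < 1 := by nlinarith
    fin_cases i <;>
      simp only [c, Fin.zero_eta, Fin.mk_one, Fin.reduceFinMk, Matrix.cons_val_zero,
      Matrix.cons_val_one, Matrix.cons_val] <;> nlinarith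

/-- The homomorphism of the quadrilateral group to the group of the Lambert cube. -/
noncomputable def j : Q4.W →* Lam.L.W := j4

theorem j_simple (i : Fin 4) : j (Q4.S.simple i) = Lam.L.S.simple (iota4 i) := j4_simple i

end Quad

end Pool.Agent.EC
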