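import Pool.Agent.EC.Lor

/-! Right-angled polyhedra in hyperbolic 3-space: the reflection group is the right-angled
Coxeter group; it acts faithfully, discretely, and its translates of the polyhedron cover. -/

namespace Pool.Agent.EC

open scoped Classical in
/-- The Coxeter matrix of the right-angled Coxeter group of a graph: `m(i,j) = 2` for adjacent
vertices, `∞` (encoded by `0`) for distinct non-adjacent ones. -/
noncomputable def racM {ι : Type*} (G : SimpleGraph ι) : CoxeterMatrix ι where
  M := Matrix.of fun i j => if i = j then 1 else if G.Adj i j then 2 else 0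
  isSymm := by
    apply Matrix.IsSymm.ext
    intro i j
    simp only [Matrix.of_apply, eq_comm (a := j) (b := i), G.adj_comm j i]
  diagonal := by intro i; simp
  off_diagonal := by
    intro i j hij
    simp only [Matrix.of_apply, hij, if_false]
    split_ifs <;> decide

/-- The right-angled Coxeter group of the graph `G`. -/
abbrev Rac {ι : Type*} (G : SimpleGraph ι) : Type _ := (racM G).Group

/-- Its Coxeter system. -/
noncomputable abbrev racS {ι : Type*} (G : SimpleGraph ι) : CoxeterSystem (racM G) (Rac G) :=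
  (racM G).toCoxeterSystem

open scoped Classical in
theorem racM_apply {ι : Type*} (G : SimpleGraph ι) (i j : ι) :
    (racM G) i j = if i = j then 1 else if G.Adj i j then 2 else 0 := rfl

theorem racM_adj {ι : Type*} {G : SimpleGraph ι} {i j : ι} (h : G.Adj i j) :
    (racM G) i j = 2 := by
  rw [racM_apply]; simp [h.ne, h]

/-- Criterion for liftability to a right-angled Coxeter group. -/
theorem rac_liftable {ι : Type*} {G : SimpleGraph ι} {K : Type*} [Monoid K] {f : ι → K}
    (h1 : ∀ i, f i * f i = 1) (h2 : ∀ i j, G.Adj i j → f i * f j = f j * f i) :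
    (racM G).IsLiftable f := by
  intro i j
  rw [racM_apply]
  split_ifs with h h'
  · subst h; simp [h1]
  · rw [pow_two]
    calc f i * f j * (f i * f j) = f i * f j * (f j * f i) := by rw [h2 i j h']
      _ = f i * (f j * f j) * f i := by simp only [mul_assoc]
      _ = 1 := by rw [h1, mul_one, h1]
  · simp

/-- The homomorphism from a right-angled Coxeter group defined on generators. -/
noncomputable def racLift {ι : Type*} {G : SimpleGraph ι} {K : Type*} [Monoid K] (f : ι → K)
    (h1 : ∀ i, f i * f i = 1) (h2 : ∀ i j, G.Adj i j → f i * f j = f j * f i) : Rac G →* K :=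
  (racS G).lift ⟨f, rac_liftable h1 h2⟩

theorem racLift_simple {ι : Type*} {G : SimpleGraph ι} {K : Type*} [Monoid K] (f : ι → K)
    (h1 : ∀ i, f i * f i = 1) (h2 : ∀ i j, G.Adj i j → f i * f j = f j * f i) (i : ι) :
    racLift f h1 h2 ((racS G).simple i) = f i :=
  (racS G).lift_apply_simple _ i

theorem rac_comm {ι : Type*} {G : SimpleGraph ι} {i j : ι} (h : G.Adj i j) :
    (racS G).simple i * (racS G).simple j = (racS G).simple j * (racS G).simple i := by
  have h1 := (racS G).simple_mul_simple_pow i j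
  rw [racM_adj h, pow_two] at h1
  have h2 := eq_inv_of_mul_eq_one_left h1
  rw [mul_inv_rev, (racS G).inv_simple, (racS G).inv_simple] at h2
  exact h2

/-- The reflection in the hyperplane orthogonal to the unit spacelike vector `e`. -/
def reflL (e : V4) : V4 →ₗ[ℝ] V4 where
  toFun x := x - (2 * lor x e) • e
  map_add' x y := by rw [lor_add_left]; ext i; simp; ring
  map_smul' a x := by rw [lor_smul_left]; ext i; simp; ring

theorem reflL_apply (e x : V4) : reflL e x = x - (2 * lor x e) • e := rfl

theorem lor_refl_self {e : V4} (he : lor e e = 1) (x : V4) : lor (reflL e x) e = - lor x e := by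
  rw [reflL_apply, lor_sub_left, lor_smul_left, he]; ring

theorem lor_refl_orth {e f : V4} (hef : lor e f = 0) (x : V4) : lor (reflL e x) f = lor x f := by
  rw [reflL_apply, lor_sub_left, lor_smul_left, hef]; ring

theorem refl_refl {e : V4} (he : lor e e = 1) (x : V4) : reflL e (reflL e x) = x := by
  rw [reflL_apply e (reflL e x), lor_refl_self he, reflL_apply]
  ext i; simp

theorem lor_refl_refl {e : V4} (he : lor e e = 1) (x y : V4) :
    lor (reflL e x) (reflL e y) = lor x y := by
  rw [reflL_apply, reflL_apply, lor_sub_left, lor_sub_right, lor_sub_right, lor_smul_left,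
    lor_smul_right, lor_smul_left, lor_smul_right, he, lor_comm e y]; ring

/-- Reflection as a linear equivalence (element of the group `GL(ℝ^4)`). -/
def reflE (e : V4) (he : lor e e = 1) : V4 ≃ₗ[ℝ] V4 :=
  LinearEquiv.ofInvolutive (reflL e) (refl_refl he)

theorem reflE_apply (e : V4) (he : lor e e = 1) (x : V4) :
    reflE e he x = x - (2 * lor x e) • e := rfl

theorem fut_refl {e x : V4} (he : lor e e = 1) (hx : FutT x) : FutT (reflL e x) := by
  have h1 : lor (reflL e x) (reflL e x) = lor x x := lor_refl_refl he x x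
  refine ⟨by rw [h1]; exact hx.1, ?_⟩
  apply pos_of_lor_neg hx (by rw [h1]; exact hx.1.le)
  rw [reflL_apply, lor_sub_right, lor_smul_right]
  nlinarith [hx.1, sq_nonneg (lor x e)]

/-- The isometry group `O⁺(3,1)` of the hyperboloid, as a subgroup of `GL(ℝ^4)`. -/
def Oplus : Subgroup (V4 ≃ₗ[ℝ] V4) where
  carrier := {g | (∀ x y, lor (g x) (g y) = lor x y) ∧ ∀ x, FutT x → FutT (g x)}
  one_mem' := ⟨fun _ _ => rfl, fun _ h => h⟩
  mul_mem' := by
    rintro a b ⟨ha, ha'⟩ ⟨hb, hb'⟩
    exact ⟨fun x y => by rw [LinearEquiv.mul_apply, LinearEquiv.mul_apply, ha, hb],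
      fun x hx => ha' _ (hb' _ hx)⟩
  inv_mem' := by
    rintro a ⟨ha, ha'⟩
    have h1 : ∀ x, a (a⁻¹ x) = x := fun x => by
      rw [← LinearEquiv.mul_apply, mul_inv_cancel]; rfl
    have h2 : ∀ x y, lor (a⁻¹ x) (a⁻¹ y) = lor x y := fun x y => by
      rw [← ha, h1, h1]
    refine ⟨h2, fun x hx => ⟨by rw [h2]; exact hx.1, ?_⟩⟩
    by_contra hcon
    have hcon := not_lt.mp hcon
    -- compare with a⁻¹ x ↦ x
    have hx2 : lor (a⁻¹ x) (a⁻¹ x) < 0 := by rw [h2]; exact hx.1
    have hne : (a⁻¹ x) 0 ≠ 0 := by
      intro h0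
      unfold lor at hx2; rw [h0] at hx2
      nlinarith [sq_nonneg ((a⁻¹ x) 1), sq_nonneg ((a⁻¹ x) 2), sq_nonneg ((a⁻¹ x) 3)]
    have hpos : FutT (-(a⁻¹ x)) := ⟨by rw [lor_neg_left, lor_neg_right]; linarith, by
      simp only [Pi.neg_apply]
      rcases lt_or_eq_of_le hcon with h | h
      · linarith
      · exact absurd h hne⟩
    have := (ha' _ hpos).2
    rw [map_neg, h1] at this
    simp only [Pi.neg_apply] at this
    linarith [hx.2]

theorem Oplus.lor {g : V4 ≃ₗ[ℝ] V4} (hg : g ∈ Oplus) (x y : V4) :
    EC.lor (g x) (g y) = EC.lor x y := hg.1 x y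

theorem Oplus.fut {g : V4 ≃ₗ[ℝ] V4} (hg : g ∈ Oplus) {x : V4} (hx : FutT x) : FutT (g x) :=
  hg.2 x hx

theorem Oplus.h3 {g : V4 ≃ₗ[ℝ] V4} (hg : g ∈ Oplus) {x : V4} (hx : x ∈ H3) : g x ∈ H3 :=
  ⟨by rw [Oplus.lor hg]; exact hx.1, (Oplus.fut hg (H3.fut hx)).2⟩

theorem reflE_mem {e : V4} (he : EC.lor e e = 1) : reflE e he ∈ Oplus :=
  ⟨fun x y => lor_refl_refl he x y, fun _ hx => fut_refl he hx⟩

/-- A right-angled polyhedron: outward unit normals `e i` with the pattern of a graph, and an
interior point `c`. -/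
structure RAP (ι : Type*) where
  /-- adjacency of faces -/
  G : SimpleGraph ι
  /-- normals -/
  e : ι → V4
  /-- interior point -/
  c : V4
  he : ∀ i, EC.lor (e i) (e i) = 1
  hadj : ∀ i j, G.Adj i j → EC.lor (e i) (e j) = 0
  hnon : ∀ i j, i ≠ j → ¬ G.Adj i j → EC.lor (e i) (e j) ≤ -1
  hc : c ∈ H3
  hce : ∀ i, EC.lor c (e i) < 0

namespace RAP

variable {ι : Type*} (R : RAP ι)

theorem refl_comm {i j : ι} (h : R.G.Adj i j) :
    reflE (R.e i) (R.he i) * reflE (R.e j) (R.he j) =
      reflE (R.e j) (R.he j) * reflE (R.e i) (R.he i) := by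
  have h0 := R.hadj i j h
  have h0' : EC.lor (R.e j) (R.e i) = 0 := by rw [lor_comm]; exact h0
  apply LinearEquiv.ext
  intro x
  rw [LinearEquiv.mul_apply, LinearEquiv.mul_apply]
  simp only [reflE_apply, lor_sub_left, lor_smul_left, h0, h0']
  ext k; simp; ring

/-- The representation of the right-angled Coxeter group by reflections. -/
noncomputable def rho : Rac R.G →* (V4 ≃ₗ[ℝ] V4) :=
  racLift (fun i => reflE (R.e i) (R.he i))
    (fun i => LinearEquiv.ext fun x => refl_refl (R.he i) x) (fun _ _ h => R.refl_comm h)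

theorem rho_simple (i : ι) : R.rho ((racS R.G).simple i) = reflE (R.e i) (R.he i) :=
  racLift_simple _ _ _ i

theorem rho_mem (w : Rac R.G) : R.rho w ∈ Oplus := by
  induction w using (racS R.G).simple_induction with
  | simple i => rw [rho_simple]; exact reflE_mem _
  | one => rw [map_one]; exact Oplus.one_mem
  | mul a b ha hb => rw [map_mul]; exact Oplus.mul_mem ha hb

/-- The open polyhedral cone (future timelike part). -/
def Cone : Set V4 := {x | FutT x ∧ ∀ i, EC.lor x (R.e i) < 0}

/-- The closed polyhedron. -/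
def P : Set V4 := {x | x ∈ H3 ∧ ∀ i, EC.lor x (R.e i) ≤ 0}

theorem c_mem_cone : R.c ∈ R.Cone := ⟨H3.fut R.hc, R.hce⟩

theorem c_mem_P : R.c ∈ R.P := ⟨R.hc, fun i => (R.hce i).le⟩

/-- Opposite half-spaces of non-adjacent walls are disjoint. -/
theorem disjoint_half {i j : ι} (hij : i ≠ j) (h : ¬ R.G.Adj i j) {x : V4} (hx : FutT x)
    (hi : 0 ≤ EC.lor x (R.e i)) : EC.lor x (R.e j) < 0 := by
  have h1 := R.hnon i j hij h
  have hff : EC.lor (R.e i + R.e j) (R.e i + R.e j) ≤ 0 := by
    rw [lor_add_left, lor_add_right, lor_add_right, R.he, R.he, lor_comm (R.e j) (R.e i)]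
    linarith
  have hcf : EC.lor R.c (R.e i + R.e j) < 0 := by
    rw [lor_add_right]; linarith [R.hce i, R.hce j]
  have h2 := pos_of_lor_neg (H3.fut R.hc) hff hcf
  have h3 := lor_neg_of_fut hx hff h2
  rw [lor_add_right] at h3; linarith

theorem cone_trans_aux (n : ℕ) : ∀ (w : Rac R.G) (i : ι), (racS R.G).length w = n →
    ¬ (racS R.G).IsLeftDescent w i → ∀ x ∈ R.Cone, EC.lor (R.rho w x) (R.e i) < 0 := by
  induction n using Nat.strong_induction_on with
  | _ n ih =>
  intro w i hn hi x hx
  by_cases hw : w = 1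
  · subst hw; rw [map_one]; exact hx.2 i
  obtain ⟨j, hj⟩ := (racS R.G).exists_leftDescent_of_ne_one hw
  have hij : i ≠ j := by rintro rfl; exact hi hj
  set w' := (racS R.G).simple j * w with hw'
  have hlen : (racS R.G).length w' + 1 = (racS R.G).length w :=
    ((racS R.G).isLeftDescent_iff).mp hj
  have hww : w = (racS R.G).simple j * w' := by
    rw [hw', ← mul_assoc, (racS R.G).simple_mul_simple_self, one_mul]
  have hj' : ¬ (racS R.G).IsLeftDescent w' j := by
    intro hcon
    have := ((racS R.G).isLeftDescent_iff).mp hcon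
    rw [← hww] at this; omega
  have h1 := ih ((racS R.G).length w') (by omega) w' j rfl hj' x hx
  have h2 : R.rho w x = reflL (R.e j) (R.rho w' x) := by
    conv_lhs => rw [hww, map_mul, rho_simple]
    rfl
  have hfut : FutT (R.rho w x) := Oplus.fut (R.rho_mem w) hx.1
  by_cases hadj : R.G.Adj i j
  · -- commuting case
    have h3 : ¬ (racS R.G).IsLeftDescent w' i := by
      intro hcon
      have h4 := ((racS R.G).isLeftDescent_iff).mp hcon
      have h5 := ((racS R.G).not_isLeftDescent_iff).mp hi
      have h6 : (racS R.G).simple i * w = (racS R.G).simple j * ((racS R.G).simple i * w') := by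
        conv_lhs => rw [hww]
        rw [← mul_assoc, rac_comm hadj, mul_assoc]
      have h7 := (racS R.G).length_simple_mul ((racS R.G).simple i * w') j
      rw [← h6] at h7
      omega
    have h4 := ih ((racS R.G).length w') (by omega) w' i rfl h3 x hx
    rw [h2, lor_refl_orth (by rw [lor_comm]; exact R.hadj i j hadj)]
    exact h4
  · have h3 : 0 ≤ EC.lor (R.rho w x) (R.e j) := by
      rw [h2, lor_refl_self (R.he j)]; linarith
    exact R.disjoint_half hij.symm (fun h => hadj h.symm) hfut h3

theorem cone_neg {w : Rac R.G} {i : ι} (hi : ¬ (racS R.G).IsLeftDescent w i) {x : V4}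
    (hx : x ∈ R.Cone) : EC.lor (R.rho w x) (R.e i) < 0 :=
  R.cone_trans_aux _ w i rfl hi x hx

theorem cone_pos {w : Rac R.G} {i : ι} (hi : (racS R.G).IsLeftDescent w i) {x : V4}
    (hx : x ∈ R.Cone) : 0 < EC.lor (R.rho w x) (R.e i) := by
  have hlen := ((racS R.G).isLeftDescent_iff).mp hi
  set w' := (racS R.G).simple i * w with hw'
  have hww : w = (racS R.G).simple i * w' := by
    rw [hw', ← mul_assoc, (racS R.G).simple_mul_simple_self, one_mul]
  have hi' : ¬ (racS R.G).IsLeftDescent w' i := by
    intro hcon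
    have := ((racS R.G).isLeftDescent_iff).mp hcon
    rw [← hww] at this; omega
  have h1 := R.cone_neg hi' hx
  have h2 : R.rho w x = reflL (R.e i) (R.rho w' x) := by
    conv_lhs => rw [hww, map_mul, rho_simple]
    rfl
  rw [h2, lor_refl_self (R.he i)]; linarith

/-- The representation is faithful. -/
theorem rho_injective : Function.Injective R.rho := by
  rw [injective_iff_map_eq_one]
  intro w hw
  by_contra hne
  obtain ⟨j, hj⟩ := (racS R.G).exists_leftDescent_of_ne_one hne
  have h1 := R.cone_pos hj R.c_mem_cone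
  rw [hw] at h1
  have h2 := R.hce j
  change 0 < EC.lor R.c (R.e j) at h1
  linarith

/-- Closed version: translates of the closed polyhedron. -/
theorem P_nonneg {w : Rac R.G} {i : ι} (hi : (racS R.G).IsLeftDescent w i) {x : V4}
    (hx : x ∈ R.P) : 0 ≤ EC.lor (R.rho w x) (R.e i) := by
  have key : ∀ t : ℝ, 0 < t → 0 ≤ EC.lor (R.rho w x) (R.e i) + t * EC.lor (R.rho w R.c) (R.e i) := by
    intro t ht
    have hcone : x + t • R.c ∈ R.Cone := by
      refine ⟨⟨?_, ?_⟩, fun j => ?_⟩
      · rw [lor_add_left, lor_add_right, lor_add_right, lor_smul_left, lor_smul_left,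
          lor_smul_right, lor_smul_right, hx.1.1, R.hc.1, lor_comm R.c x]
        have := lor_le_neg_one hx.1 R.hc
        nlinarith
      · have h1 := hx.1.2
        have h2 := R.hc.2
        simp only [Pi.add_apply, Pi.smul_apply, smul_eq_mul]
        positivity
      · rw [lor_add_left, lor_smul_left]
        have h1 := hx.2 j
        have h2 := R.hce j
        nlinarith
    have := (R.cone_pos hi hcone).le
    rwa [map_add, map_smul, lor_add_left, lor_smul_left] at this
  by_contra hcon
  push Not at hcon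
  set a := EC.lor (R.rho w x) (R.e i)
  set b := EC.lor (R.rho w R.c) (R.e i)
  have hb : 0 < b := R.cone_pos hi R.c_mem_cone
  have := key (-a / (2 * b)) (by apply div_pos <;> linarith)
  have h2 : -a / (2 * b) * b = -a / 2 := by field_simp
  rw [h2] at this
  linarith

/-- Points of the closed polyhedron are identified only by their stabiliser. -/
theorem stab_aux (n : ℕ) : ∀ (w : Rac R.G), (racS R.G).length w = n → ∀ x ∈ R.P,
    R.rho w x ∈ R.P →
    R.rho w x = x ∧ w ∈ Subgroup.closure ((racS R.G).simple '' {i | EC.lor x (R.e i) = 0}) := by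
  induction n with
  | zero =>
    intro w hw x hx _
    have : w = 1 := ((racS R.G).length_eq_zero_iff).mp hw
    subst this
    exact ⟨by rw [map_one]; rfl, Subgroup.one_mem _⟩
  | succ n ih =>
    intro w hw x hx hwx
    have hne : w ≠ 1 := by rintro rfl; simp at hw
    obtain ⟨j, hj⟩ := (racS R.G).exists_leftDescent_of_ne_one hne
    have h1 := R.P_nonneg hj hx
    have h2 := hwx.2 j
    have h3 : EC.lor (R.rho w x) (R.e j) = 0 := le_antisymm h2 h1
    set w' := (racS R.G).simple j * w with hw'
    have hlen : (racS R.G).length w' = n := by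
      have := ((racS R.G).isLeftDescent_iff).mp hj
      rw [← hw'] at this; omega
    have hww : w = (racS R.G).simple j * w' := by
      rw [hw', ← mul_assoc, (racS R.G).simple_mul_simple_self, one_mul]
    have h4 : R.rho w' x = R.rho w x := by
      rw [hw', map_mul, rho_simple, LinearEquiv.mul_apply, reflE_apply, h3]; simp
    obtain ⟨h5, h6⟩ := ih w' hlen x hx (by rw [h4]; exact hwx)
    have h7 : R.rho w x = x := by rw [← h4, h5]
    refine ⟨h7, ?_⟩
    rw [h7] at h3
    rw [hww]
    exact Subgroup.mul_mem _ (Subgroup.subset_closure ⟨j, h3, rfl⟩) h6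

theorem stab {w : Rac R.G} {x : V4} (hx : x ∈ R.P) (hwx : R.rho w x ∈ R.P) :
    R.rho w x = x ∧ w ∈ Subgroup.closure ((racS R.G).simple '' {i | EC.lor x (R.e i) = 0}) :=
  R.stab_aux _ w rfl x hx hwx

/-- Faces through a point of the polyhedron are pairwise adjacent. -/
theorem face_clique {x : V4} (hx : x ∈ R.P) : R.G.IsClique {i | EC.lor x (R.e i) = 0} := by
  intro i hi j hj hij
  by_contra hcon
  have := R.disjoint_half hij hcon (H3.fut hx.1) (le_of_eq hi.symm)
  rw [hj] at this
  exact lt_irrefl _ this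

end RAP

end Pool.Agent.EC
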