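import Mathlib.Dynamics.Circle.RotationNumber.TranslationNumber
import Mathlib.Tactic

/-!
Elementary rigidity of lifts of circle homeomorphisms with maximal Euler number on a surface
of genus two.  Everything is inside the group of lifts `CircleDeg1Liftˣ` (increasing
homeomorphisms of the line commuting with `x ↦ x + 1`).
-/

set_option linter.unusedVariables false

namespace Pool.Agent.EC.Rig

open CircleDeg1Lift

/-- the group of lifts -/
abbrev HT := CircleDeg1Liftˣ

/-- the generator of the centre -/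
noncomputable def T : HT := translate (Multiplicative.ofAdd (1 : ℝ))

theorem T_apply (x : ℝ) : (T : HT) x = x + 1 := by
  rw [T, translate_apply, add_comm]

theorem T_zpow_apply (n : ℤ) (x : ℝ) : ((T ^ n : HT)) x = x + n := by
  rw [T, translate_zpow, translate_apply]
  simp [add_comm]

theorem hext {f g : HT} (h : ∀ x, f x = g x) : f = g :=
  Units.ext (CircleDeg1Lift.ext h)

theorem T_comm (f : HT) : T * f = f * T := by
  apply hext
  intro x
  simp only [Units.val_mul, mul_apply]
  rw [T_apply, T_apply, map_add_one]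

theorem T_zpow_comm (n : ℤ) (f : HT) : T ^ n * f = f * T ^ n :=
  ((Commute.zpow_left (show Commute T f from T_comm f) n)).eq

theorem smono (f : HT) : StrictMono (f : ℝ → ℝ) := by
  have h := (toOrderIso f).strictMono
  rwa [coe_toOrderIso] at h

theorem cont (f : HT) : Continuous ((f : CircleDeg1Lift) : ℝ → ℝ) := by
  have h := (toOrderIso f).continuous
  rwa [coe_toOrderIso] at h

/-- the map has a fixed point -/
def Fix (f : HT) : Prop := ∃ x : ℝ, f x = x

/-- the displacement is larger than one somewhere -/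
def Big (f : HT) : Prop := ∃ x : ℝ, x + 1 < f x

theorem apply_mul (f g : HT) (x : ℝ) : (f * g : HT) x = f (g x) := rfl

theorem apply_inv_apply (f : HT) (x : ℝ) : f ((f⁻¹ : HT) x) = x :=
  units_apply_inv_apply f x

theorem inv_apply_apply (f : HT) (x : ℝ) : (f⁻¹ : HT) (f x) = x :=
  units_inv_apply_apply f x

theorem Fix.inv {f : HT} (h : Fix f) : Fix f⁻¹ := by
  obtain ⟨x, hx⟩ := h
  refine ⟨x, ?_⟩
  conv_lhs => rw [← hx]
  exact inv_apply_apply f x

theorem Fix.conj {f : HT} (h : Fix f) (g : HT) : Fix (g * f * g⁻¹) := by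
  obtain ⟨x, hx⟩ := h
  refine ⟨g x, ?_⟩
  rw [apply_mul, apply_mul, inv_apply_apply, hx]

theorem Fix.conj' {f : HT} (h : Fix f) (g : HT) : Fix (g⁻¹ * f * g) := by
  have := h.conj g⁻¹
  rwa [inv_inv] at this

theorem Big.conj {f : HT} (h : Big f) (g : HT) : Big (g * f * g⁻¹) := by
  obtain ⟨x, hx⟩ := h
  refine ⟨g x, ?_⟩
  rw [apply_mul, apply_mul, inv_apply_apply]
  have := smono g hx
  rwa [map_add_one] at this

theorem Big.conj' {f : HT} (h : Big f) (g : HT) : Big (g⁻¹ * f * g) := by
  have := h.conj g⁻¹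
  rwa [inv_inv] at this

theorem Fix.lt {f : HT} (h : Fix f) (x : ℝ) : f x < x + 1 := by
  obtain ⟨c, hc⟩ := h
  have h1 : x ≤ c + (⌈x - c⌉ : ℤ) := by
    have := Int.le_ceil (x - c)
    linarith
  have h2 : c + (⌈x - c⌉ : ℤ) < x + 1 := by
    have := Int.ceil_lt_add_one (x - c)
    linarith
  have h3 : f x ≤ f (c + (⌈x - c⌉ : ℤ)) := (smono f).monotone h1
  rw [map_add_int, hc] at h3
  linarith

theorem Fix.gt {f : HT} (h : Fix f) (x : ℝ) : x < f x + 1 := by
  have := h.inv.lt (f x)
  rwa [inv_apply_apply] at this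

theorem fix_zpow {f : HT} {n : ℤ} (h : Fix f) (h' : Fix (f * T ^ n)) : n = 0 := by
  obtain ⟨x, hx⟩ := h'
  rw [apply_mul, T_zpow_apply, map_add_int] at hx
  have h1 := h.lt x
  have h2 := h.gt x
  have h3 : (n : ℝ) < 1 := by linarith
  have h4 : (-1 : ℝ) < n := by linarith
  have h5 : n < 1 := by exact_mod_cast h3
  have h6 : -1 < n := by exact_mod_cast h4
  omega

theorem exists_eq {f : HT} (z : ℝ) {a b : ℝ} (ha : f a ≤ a + z) (hb : b + z ≤ f b) :
    ∃ x, f x = x + z := by
  have hc : Continuous (fun x : ℝ => f x - x) := (cont f).sub continuous_id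
  have ha' : (fun x : ℝ => f x - x) a ≤ z := by simp only; linarith
  have hb' : z ≤ (fun x : ℝ => f x - x) b := by simp only; linarith
  have := mem_range_of_exists_le_of_exists_ge hc ⟨a, ha'⟩ ⟨b, hb'⟩
  obtain ⟨x, hx⟩ := this
  exact ⟨x, by simp only at hx; linarith⟩

/-- a commutator has displacement smaller than one somewhere -/
theorem comm_small (A B : HT) : ∃ x : ℝ, (A * B * A⁻¹ * B⁻¹ : HT) x < x + 1 := by
  by_contra hcon
  push Not at hcon
  have h1 : ∀ t : ℝ, (B * A : HT) t + 1 ≤ (A * B : HT) t := by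
    intro t
    have h := hcon ((B * A : HT) t)
    have e : (A * B * A⁻¹ * B⁻¹ : HT) ((B * A : HT) t) = (A * B : HT) t := by
      rw [← apply_mul]
      congr 2
      group
    rw [e] at h
    exact h
  have h2 : translationNumber ((T * (B * A) : HT) : CircleDeg1Lift) ≤ translationNumber ((A * B : HT) : CircleDeg1Lift) := by
    apply translationNumber_mono
    intro t
    have := h1 t
    show (T * (B * A) : HT) t ≤ (A * B : HT) t
    rw [apply_mul T, T_apply]
    exact this
  have h3 : translationNumber ((T * (B * A) : HT) : CircleDeg1Lift) = 1 + translationNumber ((B * A : HT) : CircleDeg1Lift) := by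
    rw [Units.val_mul, translationNumber_mul_of_commute]
    · rw [T, translationNumber_translate]
    · have := T_comm (B * A)
      have h := congrArg (fun u : HT => (u : CircleDeg1Lift)) this
      simpa [Commute, SemiconjBy] using h
  have h4 : translationNumber ((B * A : HT) : CircleDeg1Lift) = translationNumber ((A * B : HT) : CircleDeg1Lift) := by
    have h := translationNumber_conj_eq A ((B * A : HT) : CircleDeg1Lift)
    rw [← h]
    congr 1
    rw [← Units.val_mul, ← Units.val_mul]
    congr 1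
    group
  rw [h3, h4] at h2
  linarith


/-- in a product of two commutators equal to `T ^ 2`, each commutator has displacement
larger than one somewhere -/
theorem big_of_two {f g : HT} (hg : ∃ x : ℝ, g x < x + 1) (h : f * g = T ^ (2 : ℤ)) : Big f := by
  obtain ⟨x, hx⟩ := hg
  refine ⟨g x, ?_⟩
  have e : (f * g : HT) x = x + 2 := by
    rw [h, T_zpow_apply]
    norm_num
  rw [apply_mul] at e
  rw [e]
  linarith

theorem big_of_two' {f g : HT} (hf : ∃ x : ℝ, f x < x + 1) (h : f * g = T ^ (2 : ℤ)) : Big g := by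
  apply big_of_two hf
  have e : g * f = g * (f * g) * g⁻¹ := by group
  rw [e, h, ← T_zpow_comm, mul_assoc, mul_inv_cancel, mul_one]

/-- an element without integral displacement has displacement in an open integral interval -/
theorem strict_of_no_int {A : HT} (h : ∀ k : ℤ, ¬ ∃ x : ℝ, A x = x + k) :
    ∃ k : ℤ, ∀ x : ℝ, x + k < A x ∧ A x < x + k + 1 := by
  refine ⟨⌊A 0⌋, fun x => ?_⟩
  have h0 : (⌊A 0⌋ : ℝ) ≤ A 0 := Int.floor_le _
  have h1 : A 0 < (⌊A 0⌋ : ℝ) + 1 := Int.lt_floor_add_one _
  constructor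
  · by_contra hcon
    push Not at hcon
    exact h ⌊A 0⌋ (exists_eq (⌊A 0⌋ : ℝ) hcon (b := 0) (by linarith))
  · by_contra hcon
    push Not at hcon
    have := exists_eq (f := A) ((⌊A 0⌋ : ℝ) + 1) (a := 0) (b := x) (by linarith) (by linarith)
    apply h (⌊A 0⌋ + 1)
    obtain ⟨y, hy⟩ := this
    exact ⟨y, by rw [hy]; push_cast; ring⟩

/-- if a commutator has displacement larger than one somewhere then its first entry has a
point with integral displacement -/
theorem int_left {A B : HT} (h : Big (A * B * A⁻¹ * B⁻¹)) : ∃ k : ℤ, ∃ x : ℝ, A x = x + k := by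
  by_contra hcon
  push Not at hcon
  obtain ⟨k, hk⟩ := strict_of_no_int (A := A) (fun k hx => by
    obtain ⟨x, hx⟩ := hx
    exact hcon k x hx)
  obtain ⟨x, hx⟩ := h
  set w : ℝ := (A⁻¹ : HT) ((B⁻¹ : HT) x) with hw
  have e1 : A w = (B⁻¹ : HT) x := apply_inv_apply A _
  have e2 : B (A w) = x := by rw [e1]; exact apply_inv_apply B x
  have e3 : (A * B * A⁻¹ * B⁻¹ : HT) x = A (B w) := rfl
  have h1 : w < (A w) - k := by have := (hk w).1; linarith
  have h2 : B w < B (A w - k) := smono B h1
  rw [map_sub_int, e2] at h2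
  have h3 := (hk (B w)).2
  rw [e3] at hx
  linarith

theorem int_right {A B : HT} (h : Big (A * B * A⁻¹ * B⁻¹)) : ∃ k : ℤ, ∃ x : ℝ, B x = x + k := by
  by_contra hcon
  push Not at hcon
  obtain ⟨k, hk⟩ := strict_of_no_int (A := B) (fun k hx => by
    obtain ⟨x, hx⟩ := hx
    exact hcon k x hx)
  obtain ⟨x, hx⟩ := h
  set v : ℝ := (B⁻¹ : HT) x with hv
  set s : ℝ := (A⁻¹ : HT) v with hs
  have e1 : B v = x := apply_inv_apply B x
  have e2 : A s = v := apply_inv_apply A v
  have e3 : (A * B * A⁻¹ * B⁻¹ : HT) x = A (B s) := rfl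
  have h1 : v + k < x := by have := (hk v).1; rwa [e1] at this
  have h2 : B s < s + (k + 1 : ℤ) := by
    have := (hk s).2
    push_cast
    linarith
  have h3 : A (B s) < A (s + (k + 1 : ℤ)) := smono A h2
  rw [map_add_int, e2] at h3
  rw [e3] at hx
  push_cast at h3
  linarith

theorem fix_of_int {A : HT} (h : ∃ k : ℤ, ∃ x : ℝ, A x = x + k) : ∃ k : ℤ, Fix (A * T ^ k) := by
  obtain ⟨k, x, hx⟩ := h
  refine ⟨-k, x, ?_⟩
  rw [apply_mul, T_zpow_apply, map_add_int, hx]
  push_cast
  ring

/-- pairs of pants -/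
theorem pants {p q p' q' : HT} (hp : Fix p) (hq : Fix q) (hp' : Fix p') (hq' : Fix q')
    (h : p * q * p' * q' = T ^ (2 : ℤ)) : Fix (p * q * T ^ (-1 : ℤ)) := by
  obtain ⟨a, ha⟩ := hq
  obtain ⟨b, hb⟩ := hq'
  have h1 : (p * q : HT) a ≤ a + 1 := by
    rw [apply_mul, ha]
    exact (hp.lt a).le
  have h2 : (p * q : HT) ((p' * q' : HT) b) = b + 2 := by
    rw [← apply_mul]
    have e : p * q * (p' * q') = T ^ (2 : ℤ) := by rw [← h]; group
    rw [e, T_zpow_apply]
    norm_num
  have h3 : (p' * q' : HT) b < b + 1 := by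
    rw [apply_mul, hb]
    exact hp'.lt b
  obtain ⟨x, hx⟩ := exists_eq (f := p * q) 1 h1 (b := (p' * q' : HT) b) (by rw [h2]; linarith)
  refine ⟨x, ?_⟩
  rw [apply_mul, T_zpow_apply, map_add_int, hx]
  push_cast
  ring

/-- the order argument for two elements whose axes would not cross -/
theorem cross_pos {A B : HT} (hA : Fix A) (hB : Fix B) (hp : ∀ t : ℝ, t < (A * B : HT) t) (t : ℝ) :
    (A * B : HT) t < (B * A : HT) t + 1 := by
  have hBA : ∀ t : ℝ, t < (B * A : HT) t := by
    intro t
    have h1 := hp (A t)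
    have h2 : (A : HT) t < A ((B * A : HT) t) := h1
    exact (smono A).lt_iff_lt.mp h2
  by_cases hlt : ∀ t : ℝ, (A * B : HT) t < t + 1
  · have h1 := hlt t
    have h2 := hBA t
    linarith
  push Not at hlt
  obtain ⟨b, hb⟩ := hlt
  obtain ⟨a, ha⟩ := hB
  obtain ⟨w, hw⟩ := exists_eq (f := A * B) 1 (a := a) (b := b)
    (by rw [apply_mul, ha]; exact (hA.lt a).le) hb
  set w' : ℝ := B w - 1 with hw'
  have eB : B w = w' + 1 := by rw [hw']; ring
  have eA : A w' = w := by
    have h1 : A (B w) = w + 1 := hw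
    rw [eB, map_add_one] at h1
    linarith
  have hB : Fix B := ⟨a, ha⟩
  have l1 : w' < w := by
    have := hB.lt w
    rw [eB] at this
    linarith
  have l2 : w < w' + 1 := by
    have := hA.lt w'
    rwa [eA] at this
  -- a fixed point of B above w
  obtain ⟨cB, hcB, hcB1, hcB2⟩ : ∃ c : ℝ, B c = c ∧ w ≤ c ∧ c < w + 1 := by
    refine ⟨a + (⌈w - a⌉ : ℤ), ?_, ?_, ?_⟩
    · rw [map_add_int, ha]
    · have := Int.le_ceil (w - a); linarith
    · have := Int.ceil_lt_add_one (w - a); linarith
  obtain ⟨cA, hcA, hcA1, hcA2⟩ : ∃ c : ℝ, A c = c ∧ w ≤ c ∧ c < w + 1 := by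
    obtain ⟨a', ha'⟩ := hA
    refine ⟨a' + (⌈w - a'⌉ : ℤ), ?_, ?_, ?_⟩
    · rw [map_add_int, ha']
    · have := Int.le_ceil (w - a'); linarith
    · have := Int.ceil_lt_add_one (w - a'); linarith
  have l3 : w' + 1 < cB := by
    by_contra hcon
    push Not at hcon
    have h1 : B w ≤ B cB := (smono B).monotone hcB1
    rw [hcB, eB] at h1
    have h2 : cB = w' + 1 := le_antisymm hcon h1
    have h3 : B w = B cB := by rw [hcB, eB, h2]
    have h4 := (smono B).injective h3
    linarith
  have l4 : cA < w' + 1 := by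
    by_contra hcon
    push Not at hcon
    have h1 : A (w' + 1) ≤ A cA := (smono A).monotone hcon
    rw [map_add_one, eA, hcA] at h1
    linarith
  -- the claim on the fundamental domain
  have key : ∀ s : ℝ, w ≤ s → s < w + 1 → (A * B : HT) s < (B * A : HT) s + 1 := by
    intro s hs1 hs2
    rcases le_or_gt s (w' + 1) with hs | hs
    · have h1 : A w' < A s := smono A (by linarith)
      rw [eA] at h1
      have h2 : B w < B (A s) := smono B h1
      rw [eB] at h2
      have h3 : B s < B cB := smono B (by linarith)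
      rw [hcB] at h3
      have h4 : A (B s) < A (cA + 1) := smono A (by linarith)
      rw [map_add_one, hcA] at h4
      show A (B s) < B (A s) + 1
      linarith
    · have h1 : A (w' + 1) < A s := smono A hs
      rw [map_add_one, eA] at h1
      have h2 : B (w + 1) < B (A s) := smono B h1
      rw [map_add_one, eB] at h2
      have h3 : (A * B : HT) s < (A * B : HT) (w + 1) := smono (A * B) hs2
      rw [map_add_one, hw] at h3
      show (A * B : HT) s < B (A s) + 1
      linarith
  have hk := key (t - (⌊t - w⌋ : ℤ)) (by have := Int.floor_le (t - w); linarith)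
    (by have := Int.lt_floor_add_one (t - w); linarith)
  rw [map_sub_int, map_sub_int] at hk
  linarith

theorem cross_pos' {A B : HT} (hA : Fix A) (hB : Fix B) (hb : Big (A * B * A⁻¹ * B⁻¹))
    (hp : ∀ t : ℝ, t < (A * B : HT) t) : False := by
  obtain ⟨x, hx⟩ := hb
  have h1 := cross_pos hA hB hp ((B * A : HT)⁻¹ x)
  rw [apply_inv_apply] at h1
  have e0 : A * B * (B * A)⁻¹ = A * B * A⁻¹ * B⁻¹ := by group
  have e : (A * B : HT) ((B * A : HT)⁻¹ x) = (A * B * A⁻¹ * B⁻¹ : HT) x := by
    rw [← e0]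
    rfl
  rw [e] at h1
  linarith

/-- two elements with fixed points whose commutator has displacement larger than one somewhere:
the product has a fixed point -/
theorem cross {A B : HT} (hA : Fix A) (hB : Fix B) (hb : Big (A * B * A⁻¹ * B⁻¹)) :
    Fix (A * B) := by
  by_contra hcon
  have hno : ∀ t : ℝ, (A * B : HT) t ≠ t := fun t ht => hcon ⟨t, ht⟩
  have hcase : (∀ t : ℝ, t < (A * B : HT) t) ∨ (∀ t : ℝ, (A * B : HT) t < t) := by
    by_contra hc
    push Not at hc
    obtain ⟨⟨a, ha⟩, ⟨b, hb'⟩⟩ := hc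
    obtain ⟨x, hx⟩ := exists_eq (f := A * B) 0 (a := a) (b := b) (by linarith) (by linarith)
    exact hno x (by rw [hx, add_zero])
  rcases hcase with hp | hn
  · exact cross_pos' hA hB hb hp
  · apply cross_pos' hA.inv hB.inv (A := A⁻¹) (B := B⁻¹)
    · have h := hb.conj' (B * A)
      have e : (B * A)⁻¹ * (A * B * A⁻¹ * B⁻¹) * (B * A) = A⁻¹ * B⁻¹ * A⁻¹⁻¹ * B⁻¹⁻¹ := by group
      rwa [e] at h
    · intro t
      have h1 : (A * B : HT) ((A⁻¹ * B⁻¹ : HT) t) < (A⁻¹ * B⁻¹ : HT) t := hn _
      -- use the conjugate `B A`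
      have h2 := hn (A ((A⁻¹ * B⁻¹ : HT) t))
      have e1 : A ((A⁻¹ * B⁻¹ : HT) t) = (B⁻¹ : HT) t := apply_inv_apply A _
      rw [e1, apply_mul, apply_inv_apply] at h2
      have h3 := smono A⁻¹ h2
      rwa [inv_apply_apply] at h3

end Pool.Agent.EC.Rig
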