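import Pool.Agent.EC.Rig

/-!
The rigidity theorem: an action which is maximal on the genus two surface `S_x` has even Euler
number on the surface `S_y`.
-/

namespace Pool.Agent.EC.Rig

open CircleDeg1Lift

theorem tz (f : HT) (n : ℤ) (x : ℝ) : (f * T ^ n : HT) x = f x + n := by
  rw [apply_mul, T_zpow_apply, map_add_int]

theorem tzi (f : HT) (n : ℤ) (x : ℝ) : ((f * T ^ n : HT)⁻¹ : HT) x = (f⁻¹ : HT) x - n := by
  rw [mul_inv_rev, ← zpow_neg, apply_mul, T_zpow_apply]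
  push_cast
  ring

section Lifts

variable {Γ : Type*} [Group Γ] (L : Γ → HT)

/-- `f` is a lift of the transformation given by `g` -/
def Lf (g : Γ) (f : HT) : Prop := ∃ n : ℤ, f = L g * T ^ n

variable {L}

omit [Group Γ] in
theorem Lf.self (g : Γ) : Lf L g (L g) := ⟨0, by simp⟩

omit [Group Γ] in
theorem Lf.shift {g : Γ} {f : HT} (h : Lf L g f) (n : ℤ) : Lf L g (f * T ^ n) := by
  obtain ⟨k, rfl⟩ := h
  exact ⟨k + n, by rw [zpow_add, mul_assoc]⟩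

omit [Group Γ] in
theorem Lf.uniq {g : Γ} {f f' : HT} (h : Lf L g f) (h' : Lf L g f') : ∃ n : ℤ, f = f' * T ^ n := by
  obtain ⟨k, rfl⟩ := h
  obtain ⟨k', rfl⟩ := h'
  exact ⟨k - k', by rw [mul_assoc, ← zpow_add]; congr 2; ring⟩

variable (hL : ∀ g h : Γ, ∃ n : ℤ, L (g * h) = L g * L h * T ^ n)

include hL

theorem Lf.mul {g h : Γ} {f k : HT} (h1 : Lf L g f) (h2 : Lf L h k) : Lf L (g * h) (f * k) := by
  obtain ⟨a, rfl⟩ := h1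
  obtain ⟨b, rfl⟩ := h2
  obtain ⟨n, hn⟩ := hL g h
  refine ⟨a + b - n, ?_⟩
  rw [hn]
  apply hext
  intro x
  simp only [apply_mul, T_zpow_apply, map_add_int]
  push_cast
  ring

theorem Lf.one : Lf L 1 1 := by
  obtain ⟨n, hn⟩ := hL 1 1
  rw [mul_one] at hn
  have h1 : L 1 * T ^ n = 1 := by
    have : L 1 * (L 1 * T ^ n) = L 1 * 1 := by rw [mul_one, ← mul_assoc, ← hn]
    exact mul_left_cancel this
  exact ⟨n, h1.symm⟩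

theorem Lf.inv {g : Γ} {f : HT} (h : Lf L g f) : Lf L g⁻¹ f⁻¹ := by
  have h1 := Lf.mul hL (Lf.self (L := L) g⁻¹) h
  rw [inv_mul_cancel] at h1
  obtain ⟨n, hn⟩ := (Lf.one hL).uniq h1
  refine ⟨n, ?_⟩
  have h2 : 1 = (L g⁻¹ * T ^ n) * f := by
    rw [hn, mul_assoc, mul_assoc, T_zpow_comm]
  exact (eq_inv_of_mul_eq_one_left h2.symm).symm

end Lifts

/-- the word of the surface `S_x` -/
def wx (a c b d : HT) : HT := a⁻¹ * c⁻¹ * a * c * (b⁻¹ * d⁻¹ * b * d)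

/-- the word of the surface `S_y` -/
def wy (X Y Z V : HT) : HT := X⁻¹ * Y * Z⁻¹ * V⁻¹ * Z * X * Y⁻¹ * V

theorem wx_shift (a c b d : HT) (n₁ n₂ n₃ n₄ : ℤ) :
    wx (a * T ^ n₁) (c * T ^ n₂) (b * T ^ n₃) (d * T ^ n₄) = wx a c b d := by
  apply hext
  intro x
  unfold wx
  simp only [T_zpow_apply, tzi, apply_mul, map_add_int, map_sub_int]
  ring

theorem wy_shift (X Y Z V : HT) (n₁ n₂ n₃ n₄ : ℤ) :
    wy (X * T ^ n₁) (Y * T ^ n₂) (Z * T ^ n₃) (V * T ^ n₄) = wy X Y Z V := by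
  apply hext
  intro x
  unfold wy
  simp only [T_zpow_apply, tzi, apply_mul, map_add_int, map_sub_int]
  ring


/-- both commutators of a pair with product `T ^ 2` are big -/
theorem big_pair {A B C D : HT} (h : A * B * A⁻¹ * B⁻¹ * (C * D * C⁻¹ * D⁻¹) = T ^ (2 : ℤ)) :
    Big (A * B * A⁻¹ * B⁻¹) ∧ Big (C * D * C⁻¹ * D⁻¹) :=
  ⟨big_of_two (comm_small C D) h, big_of_two' (comm_small A B) h⟩

theorem fix_unique {f g : HT} (hf : Fix f) (hg : Fix g) {n : ℤ} (h : f = g * T ^ n) : f = g := by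
  have : n = 0 := fix_zpow hg (by rw [← h]; exact hf)
  rw [h, this, zpow_zero, mul_one]

theorem T_mid (n : ℤ) (f g : HT) : f * T ^ n * g = f * g * T ^ n := by
  rw [mul_assoc, T_zpow_comm, ← mul_assoc]

/-- the purely dynamical part: everything in the group of lifts -/
theorem core {al be B1 B2 C1 C2 X Y V ze alp bep : HT} {m n : ℤ}
    (hal : Fix al) (hbe : Fix be) (hB1 : Fix B1) (hB2 : Fix B2) (hC1 : Fix C1) (hC2 : Fix C2)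
    (h1 : C1⁻¹ * al * C1 = bep) (h2 : C2⁻¹ * be * C2 = alp)
    (h3 : B1⁻¹ * al * B1 = alp) (h4 : B2⁻¹ * be * B2 = bep)
    (h5 : Y = X * C1 * B2) (h6 : V = Y * B2⁻¹ * C2 * B1⁻¹ * B1⁻¹)
    (h7 : C1 * B2⁻¹ * C2 = al * B1 * T ^ m)
    (h8 : ze = B1 * B1 * al⁻¹ * bep * B2 * B2 * T ^ (-1 : ℤ))
    (h9 : X⁻¹ * ze * X = C1 * C2 * al⁻¹ * bep * C2 * alp⁻¹ * al⁻¹ * C1 * T ^ n)
    (hS : al⁻¹ * bep * be⁻¹ * alp = T ^ (2 : ℤ)) :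
    wy X Y ze V = T ^ (2 * (m - 1)) := by
  have Tc : ∀ f : HT, T ^ (2 : ℤ) * f = f * T ^ (2 : ℤ) := fun f => T_zpow_comm 2 f
  -- the two tuples
  have hSC : al⁻¹ * C1⁻¹ * al⁻¹⁻¹ * C1⁻¹⁻¹ * (be⁻¹ * C2⁻¹ * be⁻¹⁻¹ * C2⁻¹⁻¹) = T ^ (2 : ℤ) := by
    rw [← hS, ← h1, ← h2]; group
  have hSB : B1⁻¹ * al * B1⁻¹⁻¹ * al⁻¹ * (B2⁻¹ * be * B2⁻¹⁻¹ * be⁻¹) = T ^ (2 : ℤ) := by
    have e : B1⁻¹ * al * B1⁻¹⁻¹ * al⁻¹ * (B2⁻¹ * be * B2⁻¹⁻¹ * be⁻¹)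
        = alp * (al⁻¹ * bep * be⁻¹ * alp) * alp⁻¹ := by rw [← h3, ← h4]; group
    rw [e, hS, ← Tc, mul_assoc, mul_inv_cancel, mul_one]
  obtain ⟨bC1, bC2⟩ := big_pair hSC
  obtain ⟨bB1, bB2⟩ := big_pair hSB
  -- `p = B1 B1 al⁻¹` has a fixed point
  have hp1 : Fix (B1 * al⁻¹) := by
    apply cross hB1 hal.inv
    have h := bB1.conj (B1 * al⁻¹)
    have e : (B1 * al⁻¹) * (B1⁻¹ * al * B1⁻¹⁻¹ * al⁻¹) * (B1 * al⁻¹)⁻¹
        = B1 * al⁻¹ * B1⁻¹ * al⁻¹⁻¹ := by group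
    rwa [e] at h
  have hp : Fix (B1 * (B1 * al⁻¹)) := by
    apply cross hB1 hp1
    have h := bB1.conj (B1 * B1 * al⁻¹)
    have e : (B1 * B1 * al⁻¹) * (B1⁻¹ * al * B1⁻¹⁻¹ * al⁻¹) * (B1 * B1 * al⁻¹)⁻¹
        = B1 * (B1 * al⁻¹) * B1⁻¹ * (B1 * al⁻¹)⁻¹ := by group
    rwa [e] at h
  -- `q = bep B2 B2` has a fixed point
  have hq1 : Fix (be * B2) := by
    apply cross hbe hB2
    have h := bB2.conj B2
    have e : B2 * (B2⁻¹ * be * B2⁻¹⁻¹ * be⁻¹) * B2⁻¹ = be * B2 * be⁻¹ * B2⁻¹ := by group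
    rwa [e] at h
  have hq2 : Fix (be * B2 * B2) := by
    apply cross hq1 hB2
    have h := bB2.conj B2
    have e : B2 * (B2⁻¹ * be * B2⁻¹⁻¹ * be⁻¹) * B2⁻¹ = be * B2 * B2 * (be * B2)⁻¹ * B2⁻¹ := by
      group
    rwa [e] at h
  have hq : Fix (bep * B2 * B2) := by
    have h := hq2.conj' B2
    have e : B2⁻¹ * (be * B2 * B2) * B2 = bep * B2 * B2 := by rw [← h4]; group
    rwa [e] at h
  -- the curve `ze`
  have hz : Fix (B1 * (B1 * al⁻¹) * (bep * B2 * B2) * T ^ (-1 : ℤ)) := by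
    apply pants hp hq (p' := B2 * (bep * B2 * B2)⁻¹ * B2⁻¹)
      (q' := B1⁻¹ * (B1 * (B1 * al⁻¹))⁻¹ * B1)
    · exact hq.inv.conj B2
    · exact hp.inv.conj' B1
    · have e : B1 * (B1 * al⁻¹) * (bep * B2 * B2) * (B2 * (bep * B2 * B2)⁻¹ * B2⁻¹)
          * (B1⁻¹ * (B1 * (B1 * al⁻¹))⁻¹ * B1)
          = (B1⁻¹ * (B1 * (B1 * al⁻¹))⁻¹ * B1)⁻¹ * (B1⁻¹ * al * B1⁻¹⁻¹ * al⁻¹ *
            (B2⁻¹ * be * B2⁻¹⁻¹ * be⁻¹)) * (B1⁻¹ * (B1 * (B1 * al⁻¹))⁻¹ * B1) := by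
        rw [← h4]; simp [mul_assoc]
      rw [e, hSB, ← Tc, mul_assoc, inv_mul_cancel, mul_one]
  -- the curves on the second side
  have side : ∀ a c : HT, Fix a → Fix c → Big (a⁻¹ * c⁻¹ * a⁻¹⁻¹ * c⁻¹⁻¹) →
      Fix (a⁻¹ * c * c) := by
    intro a c ha hc hb
    have h1 : Fix (c * a⁻¹) := by
      apply cross hc ha.inv
      have h := hb.conj c
      have e : c * (a⁻¹ * c⁻¹ * a⁻¹⁻¹ * c⁻¹⁻¹) * c⁻¹ = c * a⁻¹ * c⁻¹ * a⁻¹⁻¹ := by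
        simp [mul_assoc]
      rwa [e] at h
    have h2 : Fix (c * (c * a⁻¹)) := by
      apply cross hc h1
      have h := hb.conj (c * c)
      have e : c * c * (a⁻¹ * c⁻¹ * a⁻¹⁻¹ * c⁻¹⁻¹) * (c * c)⁻¹
          = c * (c * a⁻¹) * c⁻¹ * (c * a⁻¹)⁻¹ := by
        simp [mul_assoc]
      rwa [e] at h
    have h := h2.conj' a
    have e : a⁻¹ * (c * (c * a⁻¹)) * a = a⁻¹ * c * c := by simp [mul_assoc]
    rwa [e] at h
  have hr : Fix (al⁻¹ * C1 * C1) := side al C1 hal hC1 bC1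
  have hs : Fix (be⁻¹ * C2 * C2) := side be C2 hbe hC2 bC2
  have hw : Fix (be⁻¹ * C2 * C2 * (al⁻¹ * C1 * C1) * T ^ (-1 : ℤ)) := by
    apply pants hs hr
      (p' := (al⁻¹ * C1 * C1)⁻¹ * (C2⁻¹ * (be⁻¹ * C2 * C2)⁻¹ * C2) * (al⁻¹ * C1 * C1))
      (q' := C1⁻¹ * (al⁻¹ * C1 * C1)⁻¹ * C1)
    · exact (hs.inv.conj' C2).conj' _
    · exact hr.inv.conj' C1
    · have e : be⁻¹ * C2 * C2 * (al⁻¹ * C1 * C1)
          * ((al⁻¹ * C1 * C1)⁻¹ * (C2⁻¹ * (be⁻¹ * C2 * C2)⁻¹ * C2) * (al⁻¹ * C1 * C1))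
          * (C1⁻¹ * (al⁻¹ * C1 * C1)⁻¹ * C1)
          = (al⁻¹ * C1⁻¹ * al⁻¹⁻¹ * C1⁻¹⁻¹)⁻¹ * (al⁻¹ * C1⁻¹ * al⁻¹⁻¹ * C1⁻¹⁻¹ *
            (be⁻¹ * C2⁻¹ * be⁻¹⁻¹ * C2⁻¹⁻¹)) * (al⁻¹ * C1⁻¹ * al⁻¹⁻¹ * C1⁻¹⁻¹) := by
        simp [mul_assoc]
      rw [e, hSC, ← Tc, mul_assoc, inv_mul_cancel, mul_one]
  have hze : Fix ze := by
    have e : ze = B1 * (B1 * al⁻¹) * (bep * B2 * B2) * T ^ (-1 : ℤ) := by
      rw [h8]; simp [mul_assoc]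
    rw [e]; exact hz
  -- exponent of `X⁻¹ ze X`
  have hΩ : C1 * C2 * al⁻¹ * bep * C2 * alp⁻¹ * al⁻¹ * C1
      = C1 * (be⁻¹ * C2 * C2 * (al⁻¹ * C1 * C1)) * C1⁻¹ * T ^ (2 : ℤ) := by
    have e1 : al⁻¹ * bep = T ^ (2 : ℤ) * (alp⁻¹ * be) := by rw [← hS]; simp [mul_assoc]
    calc C1 * C2 * al⁻¹ * bep * C2 * alp⁻¹ * al⁻¹ * C1
        = C1 * C2 * (al⁻¹ * bep) * C2 * alp⁻¹ * al⁻¹ * C1 := by simp [mul_assoc]
      _ = C1 * C2 * (T ^ (2 : ℤ) * (alp⁻¹ * be)) * C2 * alp⁻¹ * al⁻¹ * C1 := by rw [e1]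
      _ = T ^ (2 : ℤ) * (C1 * C2 * (alp⁻¹ * be) * C2 * alp⁻¹ * al⁻¹ * C1) := by
          rw [show C1 * C2 * (T ^ (2 : ℤ) * (alp⁻¹ * be)) = T ^ (2 : ℤ) * (C1 * C2 * (alp⁻¹ * be))
            by rw [← mul_assoc (C1 * C2), ← Tc (C1 * C2), mul_assoc]]
          simp only [mul_assoc]
      _ = C1 * (be⁻¹ * C2 * C2 * (al⁻¹ * C1 * C1)) * C1⁻¹ * T ^ (2 : ℤ) := by
          rw [Tc, ← h2]
          simp [mul_assoc]
  have hn : n = -3 := by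
    have hf : Fix (C1 * (be⁻¹ * C2 * C2 * (al⁻¹ * C1 * C1) * T ^ (-1 : ℤ)) * C1⁻¹) := hw.conj C1
    have e : X⁻¹ * ze * X = C1 * (be⁻¹ * C2 * C2 * (al⁻¹ * C1 * C1) * T ^ (-1 : ℤ)) * C1⁻¹
        * T ^ (n + 3) := by
      rw [h9, hΩ]
      apply hext
      intro x
      simp only [apply_mul, T_zpow_apply, map_add_int]
      push_cast
      ring
    have := fix_zpow hf (n := n + 3) (by rw [← e]; exact hze.conj' X)
    omega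
  subst hn
  -- the final computation
  have e1 : wy X Y ze V = C1 * B2 * ze⁻¹ * B1 * B1 * C2⁻¹ * C1⁻¹ * (X⁻¹ * ze * X)
      * B2⁻¹ * C2 * B1⁻¹ * B1⁻¹ := by
    rw [h6, h5]
    unfold wy
    simp [mul_assoc]
  have e2 : wy X Y ze V = (C1 * B2⁻¹ * C2) * alp⁻¹ * al⁻¹ * (C1 * B2⁻¹ * C2) * B1⁻¹ * B1⁻¹
      * T ^ (-2 : ℤ) := by
    rw [e1, h9, h8]
    apply hext
    intro x
    simp only [apply_mul, mul_inv_rev, inv_inv, ← zpow_neg, T_zpow_apply, map_add_int,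
      inv_apply_apply, apply_inv_apply]
    push_cast
    ring
  rw [e2, h7, ← h3]
  apply hext
  intro x
  simp only [apply_mul, mul_inv_rev, inv_inv, ← zpow_neg, T_zpow_apply, map_add_int,
    inv_apply_apply, apply_inv_apply]
  push_cast
  ring


theorem canon {f : HT} (h : ∃ k : ℤ, ∃ x : ℝ, (f⁻¹ : HT) x = x + k) : ∃ n : ℤ, Fix (f * T ^ n) := by
  obtain ⟨k, x, hx⟩ := h
  refine ⟨k, x, ?_⟩
  rw [tz, ← map_add_int, ← hx, apply_inv_apply]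

theorem canon' {f : HT} (h : ∃ k : ℤ, ∃ x : ℝ, f x = x + k) : ∃ n : ℤ, Fix (f * T ^ n) := by
  obtain ⟨k, x, hx⟩ := h
  refine ⟨-k, x, ?_⟩
  rw [tz, hx]
  push_cast
  ring

/-- RIGIDITY.  `L` is a set theoretic lift of a homomorphism `Γ → Homeo⁺(S¹)`.  If the Euler
number of the genus two surface with word `wx` is `2`, then the Euler number of the genus two
surface with word `wy` is even. -/
theorem even_of_max {Γ : Type*} [Group Γ] (L : Γ → HT)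
    (hL : ∀ g h : Γ, ∃ n : ℤ, L (g * h) = L g * L h * T ^ n)
    {al be B1 B2 C1 C2 X Y V ze alp bep : Γ}
    (h1 : C1⁻¹ * al * C1 = bep) (h2 : C2⁻¹ * be * C2 = alp)
    (h3 : B1⁻¹ * al * B1 = alp) (h4 : B2⁻¹ * be * B2 = bep)
    (h5 : Y = X * C1 * B2) (h6 : V = Y * B2⁻¹ * C2 * B1⁻¹ * B1⁻¹)
    (h7 : C1 * B2⁻¹ * C2 = al * B1)
    (h8 : ze = B1 * B1 * al⁻¹ * bep * B2 * B2)
    (h9 : X⁻¹ * ze * X = C1 * C2 * al⁻¹ * bep * C2 * alp⁻¹ * al⁻¹ * C1)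
    (hS : wx (L al) (L C1) (L be) (L C2) = T ^ (2 : ℤ)) :
    ∃ m : ℤ, wy (L X) (L Y) (L ze) (L V) = T ^ (2 * m) := by
  have hS1 : (L al)⁻¹ * (L C1)⁻¹ * (L al)⁻¹⁻¹ * (L C1)⁻¹⁻¹ *
      ((L be)⁻¹ * (L C2)⁻¹ * (L be)⁻¹⁻¹ * (L C2)⁻¹⁻¹) = T ^ (2 : ℤ) := by
    rw [← hS]; unfold wx; simp only [inv_inv]
  obtain ⟨b1, b2⟩ := big_pair hS1
  obtain ⟨n1, f1⟩ := canon (int_left b1)
  obtain ⟨n2, f2⟩ := canon (int_right b1)
  obtain ⟨n3, f3⟩ := canon (int_left b2)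
  obtain ⟨n4, f4⟩ := canon (int_right b2)
  have lal : Lf L al (L al * T ^ n1) := (Lf.self al).shift n1
  have lC1 : Lf L C1 (L C1 * T ^ n2) := (Lf.self C1).shift n2
  have lbe : Lf L be (L be * T ^ n3) := (Lf.self be).shift n3
  have lC2 : Lf L C2 (L C2 * T ^ n4) := (Lf.self C2).shift n4
  have hS2 := wx_shift (L al) (L C1) (L be) (L C2) n1 n2 n3 n4
  rw [hS] at hS2
  generalize L al * T ^ n1 = a at *
  generalize L C1 * T ^ n2 = c1 at *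
  generalize L be * T ^ n3 = b at *
  generalize L C2 * T ^ n4 = c2 at *
  -- canonical lifts of alp and bep
  have lalp : Lf L alp (c2⁻¹ * b * c2) := by
    rw [← h2]; exact Lf.mul hL (Lf.mul hL (Lf.inv hL lC2) lbe) lC2
  have lbep : Lf L bep (c1⁻¹ * a * c1) := by
    rw [← h1]; exact Lf.mul hL (Lf.mul hL (Lf.inv hL lC1) lal) lC1
  have falp : Fix (c2⁻¹ * b * c2) := f3.conj' c2
  have fbep : Fix (c1⁻¹ * a * c1) := f1.conj' c1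
  have g3 : ∀ u : HT, Lf L B1 u → u⁻¹ * a * u = c2⁻¹ * b * c2 := by
    intro u hu
    have l1 : Lf L alp (u⁻¹ * a * u) := by
      rw [← h3]; exact Lf.mul hL (Lf.mul hL (Lf.inv hL hu) lal) hu
    obtain ⟨n, hn⟩ := l1.uniq lalp
    exact fix_unique (f1.conj' u) falp hn
  have g4 : ∀ u : HT, Lf L B2 u → u⁻¹ * b * u = c1⁻¹ * a * c1 := by
    intro u hu
    have l1 : Lf L bep (u⁻¹ * b * u) := by
      rw [← h4]; exact Lf.mul hL (Lf.mul hL (Lf.inv hL hu) lbe) hu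
    obtain ⟨n, hn⟩ := l1.uniq lbep
    exact fix_unique (f3.conj' u) fbep hn
  have hpage : a⁻¹ * (c1⁻¹ * a * c1) * b⁻¹ * (c2⁻¹ * b * c2) = T ^ (2 : ℤ) := by
    rw [← hS2]; unfold wx; simp [mul_assoc]
  -- canonical lifts of B1 and B2
  have hSB : (L B1)⁻¹ * a * (L B1)⁻¹⁻¹ * a⁻¹ * ((L B2)⁻¹ * b * (L B2)⁻¹⁻¹ * b⁻¹)
      = T ^ (2 : ℤ) := by
    have e1 := g3 (L B1) (Lf.self B1)
    have e2 := g4 (L B2) (Lf.self B2)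
    rw [inv_inv, inv_inv, e1, e2]
    have e : c2⁻¹ * b * c2 * a⁻¹ * (c1⁻¹ * a * c1 * b⁻¹)
        = (c2⁻¹ * b * c2) * (a⁻¹ * (c1⁻¹ * a * c1) * b⁻¹ * (c2⁻¹ * b * c2))
          * (c2⁻¹ * b * c2)⁻¹ := by simp [mul_assoc]
    rw [e, hpage, ← T_zpow_comm, mul_assoc, mul_inv_cancel, mul_one]
  obtain ⟨b3, b4⟩ := big_pair hSB
  obtain ⟨n5, f5⟩ := canon (int_left b3)
  obtain ⟨n6, f6⟩ := canon (int_left b4)
  have lB1 : Lf L B1 (L B1 * T ^ n5) := (Lf.self B1).shift n5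
  have lB2 : Lf L B2 (L B2 * T ^ n6) := (Lf.self B2).shift n6
  generalize L B1 * T ^ n5 = u at *
  generalize L B2 * T ^ n6 = v at *
  -- the other letters
  have lX : Lf L X (L X) := Lf.self X
  have lY : Lf L Y (L X * c1 * v) := by
    rw [h5]; exact Lf.mul hL (Lf.mul hL lX lC1) lB2
  have lV : Lf L V (L X * c1 * v * v⁻¹ * c2 * u⁻¹ * u⁻¹) := by
    rw [h6]
    exact Lf.mul hL (Lf.mul hL (Lf.mul hL (Lf.mul hL lY (Lf.inv hL lB2)) lC2) (Lf.inv hL lB1))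
      (Lf.inv hL lB1)
  have lze : Lf L ze (u * u * a⁻¹ * (c1⁻¹ * a * c1) * v * v * T ^ (-1 : ℤ)) := by
    rw [h8]
    exact (Lf.mul hL (Lf.mul hL (Lf.mul hL (Lf.mul hL (Lf.mul hL lB1 lB1) (Lf.inv hL lal)) lbep)
      lB2) lB2).shift (-1)
  obtain ⟨m, hm⟩ : ∃ m : ℤ, c1 * v⁻¹ * c2 = a * u * T ^ m := by
    have l1 : Lf L (al * B1) (c1 * v⁻¹ * c2) := by
      rw [← h7]; exact Lf.mul hL (Lf.mul hL lC1 (Lf.inv hL lB2)) lC2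
    exact l1.uniq (Lf.mul hL lal lB1)
  obtain ⟨n, hn⟩ : ∃ n : ℤ, (L X)⁻¹ * (u * u * a⁻¹ * (c1⁻¹ * a * c1) * v * v * T ^ (-1 : ℤ)) * L X
      = c1 * c2 * a⁻¹ * (c1⁻¹ * a * c1) * c2 * (c2⁻¹ * b * c2)⁻¹ * a⁻¹ * c1 * T ^ n := by
    have l1 : Lf L (X⁻¹ * ze * X)
        ((L X)⁻¹ * (u * u * a⁻¹ * (c1⁻¹ * a * c1) * v * v * T ^ (-1 : ℤ)) * L X) :=
      Lf.mul hL (Lf.mul hL (Lf.inv hL lX) lze) lX
    rw [h9] at l1
    refine l1.uniq ?_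
    exact Lf.mul hL (Lf.mul hL (Lf.mul hL (Lf.mul hL (Lf.mul hL (Lf.mul hL (Lf.mul hL lC1 lC2)
      (Lf.inv hL lal)) lbep) lC2) (Lf.inv hL lalp)) (Lf.inv hL lal)) lC1
  have hcore := core (al := a) (be := b) (B1 := u) (B2 := v) (C1 := c1) (C2 := c2) (X := L X)
    (Y := L X * c1 * v) (V := L X * c1 * v * v⁻¹ * c2 * u⁻¹ * u⁻¹)
    (ze := u * u * a⁻¹ * (c1⁻¹ * a * c1) * v * v * T ^ (-1 : ℤ))
    (alp := c2⁻¹ * b * c2) (bep := c1⁻¹ * a * c1) (m := m) (n := n)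
    f1 f3 f5 f6 f2 f4 rfl rfl (g3 u lB1) (g4 v lB2) rfl rfl hm rfl hn hpage
  obtain ⟨k1, e1⟩ := lY
  obtain ⟨k2, e2⟩ := lze
  obtain ⟨k3, e3⟩ := lV
  rw [e3, e1, e2] at hcore
  have e0 := wy_shift (L X) (L Y) (L ze) (L V) 0 k1 k2 k3
  rw [zpow_zero, mul_one] at e0
  exact ⟨m - 1, by rw [← e0]; exact hcore⟩

end Pool.Agent.EC.Rig
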