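import Pool.Agent.EC.Ext

/-!
# Closed hyperbolic 3-manifolds, the Thurston norm and real Euler classes: the definitions

`M = H3 / Γ` is a closed orientable hyperbolic 3-manifold; `Γ` acts on the hyperboloid model `H3` of
hyperbolic 3-space through the matrices `A γ`. The classes of `H²(M; ℤ) = H²(Γ; ℤ)` are the central
extensions `ZExt Γ` of `Γ` by `ℤ`.
-/

set_option autoImplicit false

namespace Pool.Agent.EC.Stmt

open Pool.Agent.EC

/-- The linear map of `ℝ^4` given by a matrix. -/
def ap (B : Matrix (Fin 4) (Fin 4) ℝ) (x : V4) : V4 := B.mulVec x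

section

variable {Γ : Type} [Group Γ]

/-- `M = H3 / Γ` is a closed orientable hyperbolic 3-manifold with fundamental group `Γ`: the group
`Γ` acts on `ℝ^4` through the matrices `A γ`; they preserve the Lorentzian form, the upper sheet `H3`
of the hyperboloid and the orientation, and the action of `Γ` on `H3` is free, properly
discontinuous and cocompact. -/
structure HypMfd (A : Γ → Matrix (Fin 4) (Fin 4) ℝ) : Prop where
  one : A 1 = 1
  mul : ∀ γ δ, A (γ * δ) = A γ * A δ
  /-- the elements preserve the Lorentzian form -/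
  form : ∀ γ x y, lor (ap (A γ) x) (ap (A γ) y) = lor x y
  /-- the elements preserve the upper sheet of the hyperboloid -/
  sheet : ∀ γ x, x ∈ H3 → ap (A γ) x ∈ H3
  /-- the elements preserve the orientation -/
  orient : ∀ γ, (A γ).det = 1
  /-- the action is free -/
  free : ∀ γ x, x ∈ H3 → ap (A γ) x = x → γ = 1
  /-- the action is properly discontinuous -/
  proper : ∀ K : Set V4, IsCompact K → K ⊆ H3 → {γ | ∃ x ∈ K, ap (A γ) x ∈ K}.Finite
  /-- the quotient is compact -/
  cocompact : ∃ K : Set V4, IsCompact K ∧ K ⊆ H3 ∧ ∀ x ∈ H3, ∃ γ, ap (A γ) x ∈ K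

/-- A closed connected oriented surface of genus `g ≥ 1` embedded in `M = H3 / Γ`, given on the
universal covers, together with a bicollar: `SurfGroup g` acts on the plane `ℝ × ℝ` freely, properly
and cocompactly (so that `S = (ℝ × ℝ) / SurfGroup g` is the closed orientable surface of genus `g`
with fundamental group `SurfGroup g`); `f : (ℝ × ℝ) × ℝ → H3` is continuous and equivariant with
respect to the homomorphism `φ : SurfGroup g → Γ` (so that it induces a continuous map
`S × ℝ → M`) and this map is injective. The embedded surface is the image of `S × {0}`; it is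
bicollared, that is, locally flat and two-sided. -/
structure EmbSurf (A : Γ → Matrix (Fin 4) (Fin 4) ℝ) (g : ℕ) where
  /-- the action of the surface group on the universal cover of the surface -/
  act : SurfGroup g → ℝ × ℝ → ℝ × ℝ
  act_one : ∀ p, act 1 p = p
  act_mul : ∀ s t p, act (s * t) p = act s (act t p)
  continuous_act : ∀ s, Continuous (act s)
  free : ∀ s p, act s p = p → s = 1
  proper : ∀ K : Set (ℝ × ℝ), IsCompact K → {s | ∃ p ∈ K, act s p ∈ K}.Finite
  cocompact : ∃ K : Set (ℝ × ℝ), IsCompact K ∧ ∀ p, ∃ s, act s p ∈ K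
  /-- the homomorphism of fundamental groups -/
  φ : SurfGroup g →* Γ
  /-- the map of the universal covers; the surface is `t = 0` -/
  f : ℝ × ℝ → ℝ → V4
  f_mem : ∀ p t, f p t ∈ H3
  continuous_f : Continuous fun z : (ℝ × ℝ) × ℝ => f z.1 z.2
  equivariant : ∀ s p t, f (act s p) t = ap (A (φ s)) (f p t)
  injective : ∀ p q t t' γ, f p t = ap (A γ) (f q t') → t = t' ∧ ∃ s, p = act s q

/-- A closed oriented surface without sphere components embedded in `M = H3 / Γ`: finitely many
connected surfaces embedded in `M` whose images are pairwise disjoint (spheres bound balls in `M`,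
they change neither the homology class nor `χ_-`). -/
structure Surface (A : Γ → Matrix (Fin 4) (Fin 4) ℝ) where
  /-- the number of the components -/
  n : ℕ
  /-- the genera of the components -/
  g : Fin n → ℕ
  /-- the components -/
  comp : ∀ i, EmbSurf A (g i)
  disjoint : ∀ i j, i ≠ j → ∀ p q γ, (comp i).f p 0 ≠ ap (A γ) ((comp j).f q 0)

variable {A : Γ → Matrix (Fin 4) (Fin 4) ℝ}

/-- `χ_-(S)`: the sum of `max(0, -χ) = 2 g - 2` over the components. -/
def chi (S : Surface A) : ℕ := ∑ i, (2 * S.g i - 2)

/-- The value `⟨X, [S]⟩` of an integral class on (the fundamental class of) the surface. -/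
noncomputable def pair (S : Surface A) (X : ZExt Γ) : ℤ := ∑ i, X.eval (S.comp i).φ

/-- The surfaces represent the same class of `H_2(M; ℤ)`: all the classes of `H²(M; ℤ)` have the same
values on them (`H_2(M; ℤ)` is free abelian and `H²(M; ℤ) → Hom(H_2(M; ℤ), ℤ)` is surjective). -/
def Homologous (S S' : Surface A) : Prop := ∀ X : ZExt Γ, pair S X = pair S' X

/-- The Thurston norm `x([S])` of the class of `S`. -/
noncomputable def norm (S : Surface A) : ℕ :=
  sInf {k | ∃ S' : Surface A, Homologous S' S ∧ chi S' = k}

variable (A) in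
/-- The dual Thurston norm `x^*(a) = sup {⟨a, σ⟩ : σ ∈ H_2(M; ℝ), x(σ) ≤ 1}` of the real class of
`a ∈ H²(M; ℤ)`, computed on the dense set of the rational classes `σ = [S] / n` with
`x(σ) = x([S]) / n ≤ 1`. -/
noncomputable def dualNorm (a : ZExt Γ) : EReal :=
  sSup {r | ∃ (S : Surface A) (n : ℕ), 0 < n ∧ norm S ≤ n ∧
    r = (((pair S a : ℝ) / (n : ℝ) : ℝ) : EReal)}

/-- The homeomorphism `F` of the line is a lift of the homeomorphism `h` of the circle. -/
def IsLift (F : CircleDeg1Liftˣ) (h : HomeoPlus) : Prop :=
  ∀ x : ℝ, h.1 (x : UnitAddCircle) = ((F x : ℝ) : UnitAddCircle)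

/-- The real Euler class of the action `ρ` is the real class of `a`: for some lifts `F g` of the
homeomorphisms `ρ g` and some section `s` of the extension `a`, the difference of the integral
cocycles `c` (which represents the Euler class of `ρ`) and `c'` (which represents `a`) is the
coboundary of a real valued function. -/
def EulerEq (ρ : Γ →* HomeoPlus) (a : ZExt Γ) : Prop :=
  ∃ (F : Γ → CircleDeg1Liftˣ) (s : Γ → a.E) (c c' : Γ → Γ → ℤ) (b : Γ → ℝ),
    (∀ g, IsLift (F g) (ρ g)) ∧ (∀ g, a.π (s g) = g) ∧
    (∀ g h, F g * F h = F (g * h) * shift ^ c g h) ∧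
    (∀ g h, s g * s h = s (g * h) * a.t ^ c' g h) ∧
    ∀ g h, (c g h : ℝ) - c' g h = b g + b h - b (g * h)

end

/-- The first Betti number of `M = H3 / Γ` is at least one: `Γ` maps onto `ℤ`. -/
def BettiPos (Γ : Type) [Group Γ] : Prop := ∃ f : Γ →* Multiplicative ℤ, Function.Surjective f

end Pool.Agent.EC.Stmt
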