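import Pool.Agent.EC.Surf1

/-! The surface group of genus 2 inside the quadrilateral group: `theta : SurfGroup 2 →* W4` is
injective and its range is the stabiliser of a point in a 16-point action. -/

namespace Pool.Agent.EC.Surf

open scoped commutatorElement

/-! ### the surface group -/

/-- generators of the surface group of genus 2 -/
abbrev gA1 : SurfGroup 2 := PresentedGroup.of (0, false)
/-- generator -/
abbrev gB1 : SurfGroup 2 := PresentedGroup.of (0, true)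
/-- generator -/
abbrev gA2 : SurfGroup 2 := PresentedGroup.of (1, false)
/-- generator -/
abbrev gB2 : SurfGroup 2 := PresentedGroup.of (1, true)

theorem surf_rel : ⁅gA1, gB1⁆ * ⁅gA2, gB2⁆ = 1 := by
  have : (QuotientGroup.mk (SurfRel 2) : SurfGroup 2) = 1 := by
    rw [QuotientGroup.eq_one_iff]
    exact Subgroup.subset_normalClosure rfl
  refine Eq.trans ?_ this
  simp only [SurfRel, List.ofFn_succ, List.ofFn_zero, List.prod_cons, List.prod_nil, mul_one]
  rfl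

/-- A homomorphism out of the surface group of genus 2. -/
def surfLift {G : Type*} [Group G] (a b c d : G) (h : ⁅a, b⁆ * ⁅c, d⁆ = 1) : SurfGroup 2 →* G :=
  PresentedGroup.toGroup (f := fun t : Fin 2 × Bool =>
    if t.1 = 0 then (if t.2 then b else a) else (if t.2 then d else c)) (by
      intro r hr
      rw [Set.mem_singleton_iff] at hr
      subst hr
      simp only [SurfRel, List.ofFn_succ, List.ofFn_zero, List.prod_cons, List.prod_nil, mul_one,
        map_mul, map_commutatorElement, FreeGroup.lift_apply_of]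
      simpa using h)

theorem surfLift_A1 {G : Type*} [Group G] (a b c d : G) (h : ⁅a, b⁆ * ⁅c, d⁆ = 1) :
    surfLift a b c d h gA1 = a := (PresentedGroup.toGroup.of _).trans (by simp)
theorem surfLift_B1 {G : Type*} [Group G] (a b c d : G) (h : ⁅a, b⁆ * ⁅c, d⁆ = 1) :
    surfLift a b c d h gB1 = b := (PresentedGroup.toGroup.of _).trans (by simp)
theorem surfLift_A2 {G : Type*} [Group G] (a b c d : G) (h : ⁅a, b⁆ * ⁅c, d⁆ = 1) :
    surfLift a b c d h gA2 = c := (PresentedGroup.toGroup.of _).trans (by simp)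
theorem surfLift_B2 {G : Type*} [Group G] (a b c d : G) (h : ⁅a, b⁆ * ⁅c, d⁆ = 1) :
    surfLift a b c d h gB2 = d := (PresentedGroup.toGroup.of _).trans (by simp)

/-! ### the quadrilateral group -/

theorem s4_sq (i : Fin 4) : s4 i * s4 i = 1 := CoxeterSystem.simple_mul_simple_self _ i

theorem s4_inv (i : Fin 4) : (s4 i)⁻¹ = s4 i := CoxeterSystem.inv_simple _ i

theorem comm_of_sq {G : Type*} [Group G] {a b : G} (ha : a * a = 1) (hb : b * b = 1)
    (h : (a * b) ^ 2 = 1) : a * b = b * a := by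
  have ha' : a⁻¹ = a := inv_eq_of_mul_eq_one_left ha
  have hb' : b⁻¹ = b := inv_eq_of_mul_eq_one_left hb
  have : a * b = (a * b)⁻¹ := eq_inv_of_mul_eq_one_left (by rw [← pow_two, h])
  rw [this, mul_inv_rev, ha', hb']

theorem s4_comm01 : s4 0 * s4 1 = s4 1 * s4 0 :=
  comm_of_sq (s4_sq 0) (s4_sq 1) (CoxeterSystem.simple_mul_simple_pow _ 0 1)
theorem s4_comm03 : s4 0 * s4 3 = s4 3 * s4 0 :=
  comm_of_sq (s4_sq 0) (s4_sq 3) (CoxeterSystem.simple_mul_simple_pow _ 0 3)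
theorem s4_comm23 : s4 2 * s4 3 = s4 3 * s4 2 :=
  comm_of_sq (s4_sq 2) (s4_sq 3) (CoxeterSystem.simple_mul_simple_pow _ 2 3)
theorem s4_pow21 : (s4 2 * s4 1) ^ 4 = 1 := CoxeterSystem.simple_mul_simple_pow _ 2 1

theorem wu4 : wu y4 z4 = s4 2 * s4 1 * (s4 2 * s4 1) := by
  have e0 : wu y4 z4 = s4 2 * (s4 0 * s4 1) * s4 3 * s4 0 * s4 2 * s4 3 * s4 1 := by
    simp only [wu, y4, z4, mul_inv_rev, s4_inv, mul_assoc]
  rw [e0, s4_comm01]
  have e1 : s4 2 * (s4 1 * s4 0) * s4 3 * s4 0 * s4 2 * s4 3 * s4 1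
      = s4 2 * s4 1 * (s4 0 * s4 3) * s4 0 * s4 2 * s4 3 * s4 1 := by simp only [mul_assoc]
  rw [e1, s4_comm03]
  have e2 : s4 2 * s4 1 * (s4 3 * s4 0) * s4 0 * s4 2 * s4 3 * s4 1
      = s4 2 * s4 1 * s4 3 * (s4 0 * s4 0) * (s4 2 * s4 3) * s4 1 := by simp only [mul_assoc]
  rw [e2, s4_sq, mul_one, s4_comm23]
  have e3 : s4 2 * s4 1 * s4 3 * (s4 3 * s4 2) * s4 1
      = s4 2 * s4 1 * (s4 3 * s4 3) * (s4 2 * s4 1) := by simp only [mul_assoc]
  rw [e3, s4_sq, mul_one]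

theorem y4z4 : ⁅y4, z4⁻¹⁆ ^ 2 = 1 := by
  have e : ⁅y4, z4⁻¹⁆ = wu y4 z4 := by rw [commutatorElement_def, inv_inv]; rfl
  rw [e, wu4, ← pow_two, ← pow_mul]
  exact s4_pow21

/-- The surface group of genus 2 in `W4`. -/
def theta : SurfGroup 2 →* W4 :=
  surfLift (wA1 y4 z4) (wB1 y4 z4) (wA2 y4 z4) (wB2 y4 z4) (rel y4z4)

theorem theta_A1 : theta gA1 = wA1 y4 z4 := surfLift_A1 _ _ _ _ _
theorem theta_B1 : theta gB1 = wB1 y4 z4 := surfLift_B1 _ _ _ _ _
theorem theta_A2 : theta gA2 = wA2 y4 z4 := surfLift_A2 _ _ _ _ _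
theorem theta_B2 : theta gB2 = wB2 y4 z4 := surfLift_B2 _ _ _ _ _

/-! ### injectivity -/

/-- the Schreier generators in terms of the surface generators -/
abbrev Pa : SurfGroup 2 := gA2
/-- Schreier generator -/
abbrev Pd : SurfGroup 2 := gB2⁻¹
/-- Schreier generator -/
abbrev Pb : SurfGroup 2 := gA2⁻¹ * gB1 * gB2
/-- Schreier generator -/
abbrev Pc : SurfGroup 2 := gB2⁻¹ * gA1 * gB1⁻¹ * gA2

theorem P_rel : Pc * Pb * Pd * Pa * Pc⁻¹ * Pb⁻¹ * Pd⁻¹ * Pa⁻¹ = 1 := by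
  have h := surf_rel
  have e : Pc * Pb * Pd * Pa * Pc⁻¹ * Pb⁻¹ * Pd⁻¹ * Pa⁻¹
      = gB2⁻¹ * (⁅gA1, gB1⁆ * ⁅gA2, gB2⁆) * gB2⁻¹⁻¹ := by
    simp only [Pa, Pb, Pc, Pd, commutatorElement_def, mul_inv_rev, inv_inv, mul_assoc,
      mul_inv_cancel_left, inv_mul_cancel_left, inv_mul_cancel, mul_one]
  rw [e, h]; simp

/-- permutation `Y` on `SurfGroup 2 × Fin 4` -/
def YY : Equiv.Perm (SurfGroup 2 × Fin 4) := Yp Pa Pb Pc
/-- permutation `Z` on `SurfGroup 2 × Fin 4` -/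
def ZZ : Equiv.Perm (SurfGroup 2 × Fin 4) := Zp Pd (Pc * Pa⁻¹ * Pd⁻¹ * Pb⁻¹)

theorem YYZZ : ⁅YY, ZZ⁻¹⁆ ^ 2 = 1 := YZ_rel P_rel

/-- The action of `W4` on `(SurfGroup 2 × Fin 4) × Bool × Bool`. -/
def actW : W4 →* Equiv.Perm ((SurfGroup 2 × Fin 4) × Bool × Bool) := act4 YY ZZ YYZZ

theorem actW_word (w : FreeGroup (Fin 2)) (x : SurfGroup 2 × Fin 4) :
    actW (FreeGroup.lift ![y4, z4] w) (x, false, false)
      = (FreeGroup.lift ![YY, ZZ] w x, false, false) := act4_word _ _ _ _ _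

section maps
variable {G H : Type*} [Group G] [Group H] (f : G →* H) (y z : G)
theorem map_wu : f (wu y z) = wu (f y) (f z) := by simp [wu]
theorem map_wA1 : f (wA1 y z) = wA1 (f y) (f z) := by simp [wA1, map_wu]
theorem map_wB1 : f (wB1 y z) = wB1 (f y) (f z) := by simp [wB1, map_wu]
theorem map_wA2 : f (wA2 y z) = wA2 (f y) (f z) := by simp [wA2]
theorem map_wB2 : f (wB2 y z) = wB2 (f y) (f z) := by simp [wB2]
end maps

theorem actW_A1 (h : SurfGroup 2) :
    actW (theta gA1) ((h, 0), false, false) = ((gA1 * h, 0), false, false) := by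
  have e : theta gA1 = FreeGroup.lift ![y4, z4] (wA1 (FreeGroup.of 0) (FreeGroup.of 1)) := by
    rw [theta_A1, map_wA1]; simp
  rw [e, actW_word, map_wA1]
  have e2 : wA1 (FreeGroup.lift ![YY, ZZ] (FreeGroup.of 0)) (FreeGroup.lift ![YY, ZZ] (FreeGroup.of 1))
      = wA1 YY ZZ := by simp
  rw [e2, YY, ZZ, wA1_act]
  congr 2
  simp [Pa, Pb, Pc, Pd, mul_assoc]

theorem actW_B1 (h : SurfGroup 2) :
    actW (theta gB1) ((h, 0), false, false) = ((gB1 * h, 0), false, false) := by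
  have e : theta gB1 = FreeGroup.lift ![y4, z4] (wB1 (FreeGroup.of 0) (FreeGroup.of 1)) := by
    rw [theta_B1, map_wB1]; simp
  rw [e, actW_word, map_wB1]
  have e2 : wB1 (FreeGroup.lift ![YY, ZZ] (FreeGroup.of 0)) (FreeGroup.lift ![YY, ZZ] (FreeGroup.of 1))
      = wB1 YY ZZ := by simp
  rw [e2, YY, ZZ, wB1_act]
  congr 2
  simp [Pa, Pb, Pc, Pd, mul_assoc]

theorem actW_A2 (h : SurfGroup 2) :
    actW (theta gA2) ((h, 0), false, false) = ((gA2 * h, 0), false, false) := by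
  have e : theta gA2 = FreeGroup.lift ![y4, z4] (wA2 (FreeGroup.of 0) (FreeGroup.of 1)) := by
    rw [theta_A2, map_wA2]; simp
  rw [e, actW_word, map_wA2]
  have e2 : wA2 (FreeGroup.lift ![YY, ZZ] (FreeGroup.of 0)) (FreeGroup.lift ![YY, ZZ] (FreeGroup.of 1))
      = wA2 YY ZZ := by simp
  rw [e2, YY, ZZ, wA2_act]

theorem actW_B2 (h : SurfGroup 2) :
    actW (theta gB2) ((h, 0), false, false) = ((gB2 * h, 0), false, false) := by
  have e : theta gB2 = FreeGroup.lift ![y4, z4] (wB2 (FreeGroup.of 0) (FreeGroup.of 1)) := by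
    rw [theta_B2, map_wB2]; simp
  rw [e, actW_word, map_wB2]
  have e2 : wB2 (FreeGroup.lift ![YY, ZZ] (FreeGroup.of 0)) (FreeGroup.lift ![YY, ZZ] (FreeGroup.of 1))
      = wB2 YY ZZ := by simp
  rw [e2, YY, ZZ, wB2_act]
  simp [Pd]

/-- The subgroup of all `g` acting by left translation on the base sheet. -/
def goodSub : Subgroup (SurfGroup 2) where
  carrier := {g | ∀ h, actW (theta g) ((h, 0), false, false) = ((g * h, 0), false, false)}
  one_mem' := by intro h; simp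
  mul_mem' := by
    intro a b ha hb h
    rw [map_mul, map_mul, Equiv.Perm.mul_apply, hb, ha, mul_assoc]
  inv_mem' := by
    intro a ha h
    rw [map_inv, map_inv, Equiv.Perm.inv_eq_iff_eq, ha]; simp

theorem theta_act (g h : SurfGroup 2) :
    actW (theta g) ((h, 0), false, false) = ((g * h, 0), false, false) := by
  have : g ∈ goodSub := by
    have hcl : Subgroup.closure (Set.range (PresentedGroup.of : _ → SurfGroup 2)) ≤ goodSub := by
      rw [Subgroup.closure_le]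
      rintro _ ⟨⟨i, b⟩, rfl⟩
      fin_cases i <;> cases b
      · exact actW_A1
      · exact actW_B1
      · exact actW_A2
      · exact actW_B2
    apply hcl
    rw [PresentedGroup.closure_range_of]
    trivial
  exact this h

/-! ### range -/

/-- transversal of the four cosets -/
def tr : Fin 4 → W4 := ![1, y4, z4⁻¹, z4 * y4]

/-- evaluation `(h, p) ↦ t_p θ(h)` -/
def ev (x : SurfGroup 2 × Fin 4) : W4 := tr x.2 * theta x.1

theorem theta_Pa : theta Pa = y4 * y4 := theta_A2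

theorem theta_Pd : theta Pd = y4⁻¹ * z4 := by
  rw [map_inv, theta_B2, wB2]; simp

theorem theta_Pb : theta Pb = y4⁻¹ * z4⁻¹ * y4 * z4⁻¹ := by
  rw [map_mul, map_mul, map_inv, theta_A2, theta_B1, theta_B2, wA2, wB1, wB2, wu]
  simp [mul_assoc]

theorem theta_Pc : theta Pc = z4 * y4 * z4 * y4 := by
  have h1 := wu_inv y4z4
  have h2 := wu_sq y4z4
  rw [map_mul, map_mul, map_mul, map_inv, map_inv, theta_A1, theta_A2, theta_B1, theta_B2, wA1,
    wA2, wB1, wB2]
  have e : (z4⁻¹ * y4)⁻¹ * (wu y4 z4 * y4 * y4 * wu y4 z4) * (y4 * z4⁻¹ * wu y4 z4)⁻¹ * (y4 * y4)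
      = y4⁻¹ * z4 * wu y4 z4 * y4 * y4 * (wu y4 z4 * (wu y4 z4)⁻¹) * z4 * y4 := by
    simp [mul_assoc]
  rw [e, mul_inv_cancel, mul_one]
  have e2 : z4 * wu y4 z4 = y4 * z4 * y4⁻¹ := by
    rw [← h1, wu]; simp [mul_assoc]
  have e3 : y4⁻¹ * z4 * wu y4 z4 * y4 * y4 * z4 * y4
      = y4⁻¹ * (z4 * wu y4 z4) * y4 * y4 * z4 * y4 := by simp only [mul_assoc]
  rw [e3, e2]; simp [mul_assoc]

theorem theta_Pe : theta (Pc * Pa⁻¹ * Pd⁻¹ * Pb⁻¹) = z4 * z4 * z4 * y4 := by
  have h1 := wu_inv y4z4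
  rw [map_mul, map_mul, map_mul, map_inv theta Pa, map_inv theta Pd, map_inv theta Pb, theta_Pa,
    theta_Pb, theta_Pc, theta_Pd]
  have e2 : z4 * wu y4 z4 = y4 * z4 * y4⁻¹ := by
    rw [← h1, wu]; simp [mul_assoc]
  have e : z4 * y4 * z4 * y4 * (y4 * y4)⁻¹ * (y4⁻¹ * z4)⁻¹ * (y4⁻¹ * z4⁻¹ * y4 * z4⁻¹)⁻¹
      = z4 * (y4 * z4 * y4⁻¹) * (wu y4 z4)⁻¹ * z4 * y4 := by
    simp [wu, mul_assoc]
  rw [e, ← e2]; simp [mul_assoc]

theorem ev_y (x) : y4 * ev x = ev (YY x) := by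
  obtain ⟨h, p⟩ := x
  fin_cases p
  · change y4 * (1 * theta h) = y4 * theta h
    simp
  · change y4 * (y4 * theta h) = 1 * theta (Pa * h)
    rw [map_mul, theta_Pa]; simp [mul_assoc]
  · change y4 * (z4⁻¹ * theta h) = z4 * y4 * theta (Pb * h)
    rw [map_mul, theta_Pb]; simp [mul_assoc]
  · change y4 * (z4 * y4 * theta h) = z4⁻¹ * theta (Pc * h)
    rw [map_mul, theta_Pc]; simp [mul_assoc]

theorem ev_z (x) : z4 * ev x = ev (ZZ x) := by
  obtain ⟨h, p⟩ := x
  fin_cases p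
  · change z4 * (1 * theta h) = y4 * theta (Pd * h)
    rw [map_mul, theta_Pd]; simp [mul_assoc]
  · change z4 * (y4 * theta h) = z4 * y4 * theta h
    simp [mul_assoc]
  · change z4 * (z4⁻¹ * theta h) = 1 * theta h
    simp
  · change z4 * (z4 * y4 * theta h) = z4⁻¹ * theta (Pc * Pa⁻¹ * Pd⁻¹ * Pb⁻¹ * h)
    rw [map_mul, theta_Pe]; simp [mul_assoc]

theorem ev_yinv (x) : y4⁻¹ * ev x = ev (YY⁻¹ x) := by
  rw [inv_mul_eq_iff_eq_mul, ev_y]; simp

theorem ev_zinv (x) : z4⁻¹ * ev x = ev (ZZ⁻¹ x) := by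
  rw [inv_mul_eq_iff_eq_mul, ev_z]; simp

/-- `u(i, j) = s_y^i s_z^j` -/
def uu (i j : Bool) : W4 := (if i then s4 0 else 1) * (if j then s4 1 else 1)

/-- full evaluation -/
def EV (t : (SurfGroup 2 × Fin 4) × Bool × Bool) : W4 := uu t.2.1 t.2.2 * ev t.1

/-- conjugates of `y` in `W4` -/
def vy : Bool → Bool → W4
  | false, false => y4
  | true, false => y4⁻¹
  | false, true => z4⁻¹ * y4 * z4
  | true, true => z4⁻¹ * y4⁻¹ * z4

/-- conjugates of `z` in `W4` -/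
def vz : Bool → W4
  | false => z4
  | true => z4⁻¹

theorem vy_ev (i j : Bool) (x) : vy i j * ev x = ev (vY YY ZZ i j x) := by
  cases i <;> cases j <;>
    simp only [vy, vY, mul_assoc, ev_y, ev_z, ev_yinv, ev_zinv, Equiv.Perm.mul_apply]

theorem vz_ev (j : Bool) (x) : vz j * ev x = ev (vZ ZZ j x) := by
  cases j <;> simp only [vz, vZ, ev_z, ev_zinv]

theorem y4_uu (i j : Bool) : y4 * uu i j = uu i j * vy i j := by
  have c23 : s4 3 * s4 2 = s4 2 * s4 3 := s4_comm23.symm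
  cases i <;> cases j
  · simp [uu, vy]
  · have e1 : s4 1 * (z4⁻¹ * y4 * z4) = (s4 1 * s4 1) * (s4 3 * s4 2) * (s4 0 * s4 3) * s4 1 := by
      simp only [y4, z4, mul_inv_rev, s4_inv, mul_assoc]
    have e2 : y4 * s4 1 = s4 2 * (s4 3 * s4 3) * s4 0 * s4 1 := by
      rw [s4_sq]; simp [y4, mul_assoc]
    simp only [uu, vy, Bool.false_eq_true, if_false, if_true, one_mul]
    rw [e1, e2, c23, s4_comm03, s4_sq 1]
    simp only [one_mul, mul_assoc]
  · simp only [uu, vy, Bool.false_eq_true, if_false, if_true, mul_one]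
    simp only [y4, mul_inv_rev, s4_inv]
    rw [mul_assoc, s4_sq, ← mul_assoc, s4_sq]; simp
  · have e1 : s4 0 * s4 1 * (z4⁻¹ * y4⁻¹ * z4)
        = s4 0 * (s4 1 * s4 1) * s4 3 * s4 0 * (s4 2 * s4 3) * s4 1 := by
      simp only [y4, z4, mul_inv_rev, s4_inv, mul_assoc]
    have e3 : s4 0 * 1 * s4 3 * s4 0 * (s4 3 * s4 2) * s4 1
        = (s4 0 * s4 3) * (s4 0 * s4 3) * s4 2 * s4 1 := by simp only [mul_one, mul_assoc]
    have e4 : s4 3 * s4 0 * (s4 0 * s4 3) * s4 2 * s4 1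
        = s4 3 * (s4 0 * s4 0) * s4 3 * s4 2 * s4 1 := by simp only [mul_assoc]
    simp only [uu, vy, if_true]
    rw [e1, s4_sq 1, s4_comm23, e3]
    nth_rewrite 1 [s4_comm03]
    rw [e4, s4_sq 0, mul_one, s4_sq 3, one_mul, y4]
    have e5 : s4 2 * s4 0 * (s4 0 * s4 1) = s4 2 * (s4 0 * s4 0) * s4 1 := by simp only [mul_assoc]
    rw [e5, s4_sq 0, mul_one]

theorem z4_uu (i j : Bool) : z4 * uu i j = uu i j * vz j := by
  have hz : z4 * s4 0 = s4 0 * z4 := by
    have e1 : z4 * s4 0 = s4 3 * (s4 1 * s4 0) := by simp only [z4, mul_assoc]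
    have e2 : s4 3 * (s4 0 * s4 1) = (s4 3 * s4 0) * s4 1 := by simp only [mul_assoc]
    rw [e1, ← s4_comm01, e2, ← s4_comm03, z4]; simp only [mul_assoc]
  have hz1 : z4 * s4 1 = s4 1 * z4⁻¹ := by
    simp only [z4, mul_inv_rev, s4_inv]
    rw [mul_assoc, s4_sq, ← mul_assoc, s4_sq]; simp
  cases i <;> cases j
  · simp [uu, vz]
  · simp [uu, vz, hz1]
  · simp [uu, vz, hz]
  · simp only [uu, vz, if_true]
    rw [← mul_assoc, hz, mul_assoc, hz1, mul_assoc]

theorem EV_0 (t) : s4 0 * EV t = EV (pSy t) := by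
  obtain ⟨x, i, j⟩ := t
  rw [pSy_apply]
  cases i <;> simp [EV, uu, ← mul_assoc]

theorem EV_1 (t) : s4 1 * EV t = EV (pSz t) := by
  obtain ⟨x, i, j⟩ := t
  rw [pSz_apply]
  cases i <;> cases j <;> simp [EV, uu, ← mul_assoc, ← s4_comm01]

theorem EV_2 (t) : s4 2 * EV t = EV (pBy YY ZZ t) := by
  obtain ⟨x, i, j⟩ := t
  rw [pBy_apply]
  have e : s4 2 * uu i j = uu (!i) j * vy (!i) j := by
    rw [← y4_uu, y4]
    cases i <;> simp [uu, mul_assoc]
  change s4 2 * (uu i j * ev x) = uu (!i) j * ev (vY YY ZZ (!i) j x)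
  rw [← mul_assoc, e, mul_assoc, vy_ev]

theorem EV_3 (t) : s4 3 * EV t = EV (pBz ZZ t) := by
  obtain ⟨x, i, j⟩ := t
  rw [pBz_apply]
  have e : s4 3 * uu i j = uu i (!j) * vz (!j) := by
    rw [← z4_uu, z4]
    cases i <;> cases j <;> simp [uu, mul_assoc]
    · rw [s4_comm01, ← mul_assoc, s4_sq, one_mul]
    · exact s4_comm01
  change s4 3 * (uu i j * ev x) = uu i (!j) * ev (vZ ZZ (!j) x)
  rw [← mul_assoc, e, mul_assoc, vz_ev]

theorem EV_gen (k : Fin 4) (t) : s4 k * EV t = EV (gens4 YY ZZ k t) := by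
  fin_cases k
  · exact EV_0 t
  · exact EV_1 t
  · exact EV_2 t
  · exact EV_3 t

theorem EV_act (w : W4) (t) : w * EV t = EV (actW w t) := by
  induction w using N4.toCoxeterSystem.simple_induction_left with
  | one => simp
  | mul_simple_left w k ih => 
    rw [map_mul, Equiv.Perm.mul_apply, mul_assoc, ih, actW, act4_simple]
    exact EV_gen k _

theorem theta_injective : Function.Injective theta := by
  intro a b hab
  have h1 := theta_act a 1
  have h2 := theta_act b 1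
  rw [hab, h2] at h1
  simpa using h1.symm

theorem EV_base (g : SurfGroup 2) : EV ((g, 0), false, false) = theta g := by
  simp [EV, uu, ev, tr]

theorem eq_EV (w : W4) : w = EV (actW w ((1, 0), false, false)) := by
  rw [← EV_act, EV_base, map_one, mul_one]

/-- The range of `theta` is the stabiliser of the base sheet. -/
theorem mem_range_iff (w : W4) :
    w ∈ theta.range ↔ (actW w ((1, 0), false, false)).1.2 = 0 ∧
      (actW w ((1, 0), false, false)).2 = (false, false) := by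
  constructor
  · rintro ⟨g, rfl⟩
    rw [theta_act]
    exact ⟨rfl, rfl⟩
  · rintro ⟨h1, h2⟩
    refine ⟨(actW w ((1, 0), false, false)).1.1, ?_⟩
    conv_rhs => rw [eq_EV w]
    rw [← EV_base]
    congr 1
    exact Prod.ext (Prod.ext rfl h1.symm) h2.symm

end Pool.Agent.EC.Surf
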