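import Pool.Agent.EC.SurfDefs
import Pool.Agent.EC.Surf0

/-! Monomial action of the quadrilateral group `W4` induced from a pair `Y, Z` with
`[Y, Z⁻¹]² = 1`. -/

namespace Pool.Agent.EC.Surf

open scoped commutatorElement

section mono
variable {X : Type*} (Y Z : Equiv.Perm X)

/-- conjugates of `Y` -/
def vY : Bool → Bool → Equiv.Perm X
  | false, false => Y
  | true, false => Y⁻¹
  | false, true => Z⁻¹ * Y * Z
  | true, true => Z⁻¹ * Y⁻¹ * Z

/-- conjugates of `Z` -/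
def vZ : Bool → Equiv.Perm X
  | false => Z
  | true => Z⁻¹

theorem vY_mul (i j : Bool) : vY Y Z i j * vY Y Z (!i) j = 1 := by
  cases i <;> cases j <;> simp [vY, mul_assoc]

theorem vZ_mul (j : Bool) : vZ Z j * vZ Z (!j) = 1 := by
  cases j <;> simp [vZ]

/-- `s_y` -/
def pSy : Equiv.Perm (X × Bool × Bool) :=
  Function.Involutive.toPerm (fun t => (t.1, !t.2.1, t.2.2)) (fun t => by simp)

/-- `s_z` -/
def pSz : Equiv.Perm (X × Bool × Bool) :=
  Function.Involutive.toPerm (fun t => (t.1, t.2.1, !t.2.2)) (fun t => by simp)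

/-- `b_y` -/
def pBy : Equiv.Perm (X × Bool × Bool) :=
  Function.Involutive.toPerm (fun t => (vY Y Z (!t.2.1) t.2.2 t.1, !t.2.1, t.2.2)) (fun t => by
    simp only [Bool.not_not]
    have := DFunLike.congr_fun (vY_mul Y Z t.2.1 t.2.2) t.1
    exact Prod.ext this rfl)

/-- `b_z` -/
def pBz : Equiv.Perm (X × Bool × Bool) :=
  Function.Involutive.toPerm (fun t => (vZ Z (!t.2.2) t.1, t.2.1, !t.2.2)) (fun t => by
    simp only [Bool.not_not]
    have := DFunLike.congr_fun (vZ_mul Z t.2.2) t.1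
    exact Prod.ext this rfl)

theorem pSy_apply (x : X) (i j : Bool) : (pSy : Equiv.Perm (X × Bool × Bool)) (x, i, j) = (x, !i, j) := rfl
theorem pSz_apply (x : X) (i j : Bool) : (pSz : Equiv.Perm (X × Bool × Bool)) (x, i, j) = (x, i, !j) := rfl
theorem pBy_apply (x : X) (i j : Bool) : pBy Y Z (x, i, j) = (vY Y Z (!i) j x, !i, j) := rfl
theorem pBz_apply (x : X) (i j : Bool) : pBz Z (x, i, j) = (vZ Z (!j) x, i, !j) := rfl

/-- The images of the four generators. -/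
def gens4 : Fin 4 → Equiv.Perm (X × Bool × Bool) := ![pSy, pSz, pBy Y Z, pBz Z]

theorem sq_one (i : Fin 4) : gens4 Y Z i * gens4 Y Z i = 1 := by
  fin_cases i
  · ext1 ⟨x, i, j⟩
    change pSy (pSy (x, i, j)) = (x, i, j)
    simp [pSy_apply]
  · ext1 ⟨x, i, j⟩
    change pSz (pSz (x, i, j)) = (x, i, j)
    simp [pSz_apply]
  · ext1 ⟨x, i, j⟩
    change pBy Y Z (pBy Y Z (x, i, j)) = (x, i, j)
    rw [pBy_apply, pBy_apply, Bool.not_not]
    exact Prod.ext (DFunLike.congr_fun (vY_mul Y Z i j) x) rfl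
  · ext1 ⟨x, i, j⟩
    change pBz Z (pBz Z (x, i, j)) = (x, i, j)
    rw [pBz_apply, pBz_apply, Bool.not_not]
    exact Prod.ext (DFunLike.congr_fun (vZ_mul Z j) x) rfl

theorem flip_pow {G : Type*} [Group G] {a b : G} {m : ℕ} (h : (a * b) ^ m = 1) :
    (b * a) ^ m = 1 := by
  have : b * a = b * (a * b) * b⁻¹ := by simp [mul_assoc]
  rw [this, conj_pow, h]; simp

theorem comm_SySz : (pSy * pSz : Equiv.Perm (X × Bool × Bool)) ^ 2 = 1 := by
  ext1 ⟨x, i, j⟩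
  simp [pow_two, Equiv.Perm.mul_apply, pSy_apply, pSz_apply]

theorem comm_SyBz : (pSy * pBz Z : Equiv.Perm (X × Bool × Bool)) ^ 2 = 1 := by
  ext1 ⟨x, i, j⟩
  cases j <;> simp [pow_two, Equiv.Perm.mul_apply, pSy_apply, pBz_apply, vZ]

theorem comm_ByBz : (pBy Y Z * pBz Z : Equiv.Perm (X × Bool × Bool)) ^ 2 = 1 := by
  ext1 ⟨x, i, j⟩
  cases i <;> cases j <;> simp [pow_two, Equiv.Perm.mul_apply, pBy_apply, pBz_apply, vZ, vY]

theorem T_sq (h : ⁅Y, Z⁻¹⁆ ^ 2 = 1) (i j : Bool) :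
    (vY Y Z i (!j) * vY Y Z (!i) j) ^ 2 = 1 := by
  have e1 : (Y * Z⁻¹ * Y⁻¹ * Z) ^ 2 = 1 := by
    rw [← h, commutatorElement_def, inv_inv]
  have e2 : (Z⁻¹ * Y⁻¹ * Z * Y) ^ 2 = 1 := by
    have : Z⁻¹ * Y⁻¹ * Z * Y = Y⁻¹ * (Y * Z⁻¹ * Y⁻¹ * Z) * Y⁻¹⁻¹ := by simp [mul_assoc]
    rw [this, conj_pow, e1]; simp
  have e3 : (Z⁻¹ * Y * Z * Y⁻¹) ^ 2 = 1 := by
    have : Z⁻¹ * Y * Z * Y⁻¹ = (Y * Z⁻¹ * Y⁻¹ * Z)⁻¹ := by simp [mul_assoc]
    rw [this, inv_pow, e1]; simp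
  have e4 : (Y⁻¹ * Z⁻¹ * Y * Z) ^ 2 = 1 := by
    have : Y⁻¹ * Z⁻¹ * Y * Z = Y⁻¹ * (Z⁻¹ * Y * Z * Y⁻¹) * Y⁻¹⁻¹ := by simp [mul_assoc]
    rw [this, conj_pow, e3]; simp
  cases i <;> cases j
  · exact e3
  · simpa [vY, mul_assoc] using e1
  · exact e2
  · simpa [vY, mul_assoc] using e4

theorem braid_SzBy (h : ⁅Y, Z⁻¹⁆ ^ 2 = 1) :
    (pSz * pBy Y Z : Equiv.Perm (X × Bool × Bool)) ^ 4 = 1 := by
  have hs : ∀ (x : X) (i j : Bool), ((pSz * pBy Y Z : Equiv.Perm (X × Bool × Bool)) ^ 2) (x, i, j)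
      = ((vY Y Z i (!j) * vY Y Z (!i) j) x, i, j) := by
    intro x i j
    simp [pow_two, Equiv.Perm.mul_apply, pSz_apply, pBy_apply]
  ext1 ⟨x, i, j⟩
  have e : (pSz * pBy Y Z : Equiv.Perm (X × Bool × Bool)) ^ 4
      = (pSz * pBy Y Z) ^ 2 * (pSz * pBy Y Z) ^ 2 := by rw [← pow_add]
  rw [e, Equiv.Perm.mul_apply, hs, hs, Equiv.Perm.one_apply]
  have := DFunLike.congr_fun (T_sq Y Z h i j) x
  rw [pow_two] at this
  exact Prod.ext this rfl

theorem liftable4 (h : ⁅Y, Z⁻¹⁆ ^ 2 = 1) : N4.IsLiftable (gens4 Y Z) := by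
  intro i j
  fin_cases i <;> fin_cases j
  · exact (pow_one _).trans (sq_one Y Z 0)
  · exact comm_SySz
  · exact pow_zero _
  · exact comm_SyBz Z
  · exact flip_pow comm_SySz
  · exact (pow_one _).trans (sq_one Y Z 1)
  · exact braid_SzBy Y Z h
  · exact pow_zero _
  · exact pow_zero _
  · exact flip_pow (braid_SzBy Y Z h)
  · exact (pow_one _).trans (sq_one Y Z 2)
  · exact comm_ByBz Y Z
  · exact flip_pow (comm_SyBz Z)
  · exact pow_zero _
  · exact flip_pow (comm_ByBz Y Z)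
  · exact (pow_one _).trans (sq_one Y Z 3)

/-- The induced action of `W4` on `X × Bool × Bool`. -/
def act4 (h : ⁅Y, Z⁻¹⁆ ^ 2 = 1) : W4 →* Equiv.Perm (X × Bool × Bool) :=
  N4.toCoxeterSystem.lift ⟨gens4 Y Z, liftable4 Y Z h⟩

theorem act4_simple (h : ⁅Y, Z⁻¹⁆ ^ 2 = 1) (i : Fin 4) :
    act4 Y Z h (N4.toCoxeterSystem.simple i) = gens4 Y Z i :=
  CoxeterSystem.lift_apply_simple _ _ _

end mono

/-- `s_y, s_z, b_y, b_z` -/
abbrev s4 (i : Fin 4) : W4 := N4.toCoxeterSystem.simple i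

/-- `y = b_y s_y` -/
def y4 : W4 := s4 2 * s4 0
/-- `z = b_z s_z` -/
def z4 : W4 := s4 3 * s4 1

section
variable {X : Type*} (Y Z : Equiv.Perm X) (h : ⁅Y, Z⁻¹⁆ ^ 2 = 1)

theorem act4_y (x : X) : act4 Y Z h y4 (x, false, false) = (Y x, false, false) := by
  rw [y4, map_mul, act4_simple, act4_simple, Equiv.Perm.mul_apply]; rfl

theorem act4_z (x : X) : act4 Y Z h z4 (x, false, false) = (Z x, false, false) := by
  rw [z4, map_mul, act4_simple, act4_simple, Equiv.Perm.mul_apply]; rfl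

/-- On the subgroup generated by `y, z` the action on the base sheet is the given one: stated for
an arbitrary pair of equal words via homomorphisms from the free group. -/
theorem act4_word (w : FreeGroup (Fin 2)) (x : X) :
    act4 Y Z h (FreeGroup.lift ![y4, z4] w) (x, false, false)
      = (FreeGroup.lift ![Y, Z] w x, false, false) := by
  induction w using FreeGroup.induction_on generalizing x with
  | C1 => simp
  | of i => 
    fin_cases i
    · simpa using act4_y Y Z h x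
    · simpa using act4_z Y Z h x
  | inv_of i ih =>
    rw [map_inv, map_inv, map_inv, Equiv.Perm.inv_eq_iff_eq]
    rw [ih]; simp
  | mul u v hu hv => rw [map_mul, map_mul, map_mul, Equiv.Perm.mul_apply, hv, hu, Equiv.Perm.mul_apply]

end

end Pool.Agent.EC.Surf
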