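import Pool.Agent.EC.SurfRange
import Pool.Agent.EC.Gam

/-! `theta.range = comap j4 Gam`, and the surface homomorphism into `Gam`. -/

namespace Pool.Agent.EC.Surf

theorem sig_y : Lam.sig ⟨Lam.y, Lam.y_mem⟩ = Y0 := Lam.gLift_y Lam.rel_p

theorem sig_z : Lam.sig ⟨Lam.z, Lam.z_mem⟩ = Z0 := Lam.gLift_z Lam.rel_p

/-- The range of `theta` is exactly the part of `Gam` in the quadrilateral group. -/
theorem range_theta_Gam (w : W4) : w ∈ theta.range ↔ j4 w ∈ Lam.Gam := by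
  rw [mem_range_theta Lam.sig sig_y sig_z]
  constructor
  · rintro ⟨hw, h0⟩
    exact (Lam.mem_Gam_iff ⟨j4 w, hw⟩).mpr h0
  · intro h
    exact ⟨Lam.Gam_le_G h, (Lam.mem_Gam_iff ⟨j4 w, Lam.Gam_le_G h⟩).mp h⟩

/-- The surface group of `S_x` inside `Gam`. -/
noncomputable def thetaGam : SurfGroup 2 →* Lam.Gam :=
  (j4.comp theta).codRestrict Lam.Gam fun g => (range_theta_Gam _).mp ⟨g, rfl⟩

theorem thetaGam_injective : Function.Injective thetaGam := fun a b h => by
  have h1 : j4 (theta a) = j4 (theta b) := congrArg Subtype.val h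
  exact theta_injective (j4_injective h1)

theorem thetaGam_val (g : SurfGroup 2) : (thetaGam g).1 = j4 (theta g) := rfl

theorem thetaGam_A1 : (thetaGam gA1).1 = wA1 Lam.y Lam.z := by
  rw [thetaGam_val, theta_A1, map_wA1, j4_y4, j4_z4]
theorem thetaGam_B1 : (thetaGam gB1).1 = wB1 Lam.y Lam.z := by
  rw [thetaGam_val, theta_B1, map_wB1, j4_y4, j4_z4]
theorem thetaGam_A2 : (thetaGam gA2).1 = wA2 Lam.y Lam.z := by
  rw [thetaGam_val, theta_A2, map_wA2, j4_y4, j4_z4]
theorem thetaGam_B2 : (thetaGam gB2).1 = wB2 Lam.y Lam.z := by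
  rw [thetaGam_val, theta_B2, map_wB2, j4_y4, j4_z4]

end Pool.Agent.EC.Surf
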