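import Mathlib

/-!
# The genus two surface `S_x` as a product of relators in a groupoid

Arrows `Y q : q → y q`, `Z q : q → z q` for `y = (0 1)(2 3)`, `z = (0 1 3 2)`.
-/

set_option autoImplicit false

namespace Pool.Agent.EC.Sx8

open scoped commutatorElement

variable {K : Type*} [Group K]

/-- The product of the two commutators of the tuple `(be, h2, al, h1)` is the product of the two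
relators `u_X²`. -/
theorem groupoid_identity (Y0 Y1 Y2 Y3 Z0 Z1 Z2 Z3 u0 u1 u2 u3 k0 k1 : K)
    (hk0 : ∀ g, Commute k0 g) (hk1 : ∀ g, Commute k1 g)
    (h0 : u0 = Y2 * Z2⁻¹ * Y0⁻¹ * Z0) (h1 : u1 = Y3 * Z3⁻¹ * Y2⁻¹ * Z1)
    (h2 : u2 = Y0 * Z0⁻¹ * Y1⁻¹ * Z2) (h3 : u3 = Y1 * Z1⁻¹ * Y3⁻¹ * Z3)
    (r0 : u3 * u0 = k0) (r1 : u2 * u1 = k1) :
    ⁅u3 * Y2 * Y3 * u0, Y1 * Z1⁻¹ * u0⁆ * ⁅Y1 * Y0, Z0⁻¹ * Y0⁆ = k0 * k1 := by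
  have r0' : u0 * u3 = k0 := by
    calc u0 * u3 = u0 * (u3 * u0) * u0⁻¹ := by group
      _ = k0 := by rw [r0, ← (hk0 u0).eq, mul_inv_cancel_right]
  have r1' : u1 * u2 = k1 := by
    calc u1 * u2 = u1 * (u2 * u1) * u1⁻¹ := by group
      _ = k1 := by rw [r1, ← (hk1 u1).eq, mul_inv_cancel_right]
  have e3 : Z1⁻¹ * Y3⁻¹ * Y2⁻¹ * Z1 = Y1⁻¹ * u3 * (Y3⁻¹ * u1) := by rw [h3, h1]; group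
  have e2 : Z0⁻¹ * Y1⁻¹ * Y0⁻¹ * Z0 = Y0⁻¹ * u2 * (Y2⁻¹ * u0) := by rw [h2, h0]; group
  have c1 : ⁅u3 * Y2 * Y3 * u0, Y1 * Z1⁻¹ * u0⁆ = u3 * Y2 * u1 * Y1⁻¹ := by
    calc ⁅u3 * Y2 * Y3 * u0, Y1 * Z1⁻¹ * u0⁆
        = u3 * Y2 * Y3 * u0 * Y1 * (Z1⁻¹ * Y3⁻¹ * Y2⁻¹) * (u0 * u3)⁻¹ * Z1 * Y1⁻¹ := by
          rw [commutatorElement_def]; group
      _ = u3 * Y2 * Y3 * u0 * Y1 * ((Z1⁻¹ * Y3⁻¹ * Y2⁻¹) * k0⁻¹) * Z1 * Y1⁻¹ := by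
          rw [r0']; group
      _ = u3 * Y2 * Y3 * (u0 * Y1 * k0⁻¹) * (Z1⁻¹ * Y3⁻¹ * Y2⁻¹ * Z1) * Y1⁻¹ := by
          rw [← ((hk0 (Z1⁻¹ * Y3⁻¹ * Y2⁻¹)).inv_left).eq]; group
      _ = u3 * Y2 * Y3 * (k0⁻¹ * (u0 * Y1)) * (Y1⁻¹ * u3 * (Y3⁻¹ * u1)) * Y1⁻¹ := by
          rw [e3, ((hk0 (u0 * Y1)).inv_left).eq]
      _ = u3 * Y2 * Y3 * k0⁻¹ * (u0 * u3) * Y3⁻¹ * u1 * Y1⁻¹ := by group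
      _ = u3 * Y2 * u1 * Y1⁻¹ := by rw [r0']; group
  have c2 : ⁅Y1 * Y0, Z0⁻¹ * Y0⁆ = Y1 * u2 * Y2⁻¹ * u0 := by
    calc ⁅Y1 * Y0, Z0⁻¹ * Y0⁆ = Y1 * Y0 * (Z0⁻¹ * Y1⁻¹ * Y0⁻¹ * Z0) := by
          rw [commutatorElement_def]; group
      _ = Y1 * u2 * Y2⁻¹ * u0 := by rw [e2]; group
  rw [c1, c2]
  calc u3 * Y2 * u1 * Y1⁻¹ * (Y1 * u2 * Y2⁻¹ * u0) = u3 * Y2 * (u1 * u2) * Y2⁻¹ * u0 := by group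
    _ = u3 * (Y2 * k1) * Y2⁻¹ * u0 := by rw [r1']; group
    _ = u3 * (k1 * Y2) * Y2⁻¹ * u0 := by rw [(hk1 Y2).eq]
    _ = (u3 * k1) * u0 := by group
    _ = k1 * (u3 * u0) := by rw [← (hk1 u3).eq]; group
    _ = k0 * k1 := by rw [r0, (hk1 k0).eq]

end Pool.Agent.EC.Sx8
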