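import Mathlib

/-!
# MP_a825f6: a circularly ordered action of the Lambert cube group with class `X + Y`

`L = ℤ ×ₗ WithBot K` is the universal cover of the projective line of an ordered field `K`,
`T` is the deck transformation.  For an ordered field `K` with an order automorphism `σ` and
`t > 0` with `σ t = 2 t` we write down order automorphisms `x, y, z` of `L` commuting with `T`
with `[y, z⁻¹]² = T`, `[z, x⁻¹]² = T`, `[x, y⁻¹] = 1`, `[x, [y, z⁻¹]] = 1`,
`[y, [z, x⁻¹]] = 1`.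
-/

namespace Pool.Agent.EC.Up

open Function

/-! ## An abstract group computation -/

section Abstract

variable {H : Type*} [Group H]

open scoped commutatorElement

/-- The relations of the Lambert cube group from an element `g` and the semilinear data. -/
theorem rels_of (x m d g T : H) (hxm : Commute x m) (hxg : Commute x g) (hdm : Commute d m)
    (hxd : x * d * x⁻¹ = d * m) (hT : ∀ a : H, Commute T a)
    (hV : (m * g⁻¹ * m⁻¹ * g) * (m * g⁻¹ * m⁻¹ * g) = T) :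
    let y := m * x⁻¹
    let z := d * g⁻¹ * d⁻¹ * g
    ⁅y, z⁻¹⁆ * ⁅y, z⁻¹⁆ = T ∧ ⁅z, x⁻¹⁆ * ⁅z, x⁻¹⁆ = T ∧ ⁅x, y⁻¹⁆ = 1 ∧
      ⁅x, ⁅y, z⁻¹⁆⁆ = 1 ∧ ⁅y, ⁅z, x⁻¹⁆⁆ = 1 := by
  intro y z
  have hx_y : Commute x y := hxm.mul_right (Commute.inv_right (Commute.refl x))
  -- `d⁻¹ y d = x⁻¹`
  have hyd : y * d = d * x⁻¹ := by
    have h1 : x⁻¹ * d = d * m⁻¹ * x⁻¹ := by
      have : d = x⁻¹ * (d * m) * x := by rw [← hxd]; group
      have h2 : x⁻¹ * d * x * m = d := by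
        have h3 : x * m = m * x := hxm
        calc x⁻¹ * d * x * m = x⁻¹ * d * (x * m) := by group
          _ = x⁻¹ * d * (m * x) := by rw [h3]
          _ = x⁻¹ * (d * m) * x := by group
          _ = d := this.symm
      calc x⁻¹ * d = (x⁻¹ * d * x * m) * m⁻¹ * x⁻¹ := by group
        _ = d * m⁻¹ * x⁻¹ := by rw [h2]
    calc y * d = m * (x⁻¹ * d) := by simp [y, mul_assoc]
      _ = m * (d * m⁻¹ * x⁻¹) := by rw [h1]
      _ = (m * d) * m⁻¹ * x⁻¹ := by group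
      _ = (d * m) * m⁻¹ * x⁻¹ := by rw [hdm.eq]
      _ = d * x⁻¹ := by group
  -- `y` commutes with `d g d⁻¹`
  have hydg : Commute y (d * g * d⁻¹) := by
    have h1 : Commute x⁻¹ g := hxg.inv_left
    show y * (d * g * d⁻¹) = d * g * d⁻¹ * y
    have h2 : d⁻¹ * y = x⁻¹ * d⁻¹ := by
      calc d⁻¹ * y = d⁻¹ * (y * d) * d⁻¹ := by group
        _ = d⁻¹ * (d * x⁻¹) * d⁻¹ := by rw [hyd]
        _ = x⁻¹ * d⁻¹ := by group
    calc y * (d * g * d⁻¹) = (y * d) * g * d⁻¹ := by group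
      _ = d * (x⁻¹ * g) * d⁻¹ := by rw [hyd]; group
      _ = d * (g * x⁻¹) * d⁻¹ := by rw [h1.eq]
      _ = d * g * (x⁻¹ * d⁻¹) := by group
      _ = d * g * (d⁻¹ * y) := by rw [h2]
      _ = d * g * d⁻¹ * y := by group
  set V : H := m * g⁻¹ * m⁻¹ * g with hVdef
  have hxV : Commute x V := by
    rw [hVdef]
    exact ((hxm.mul_right hxg.inv_right).mul_right hxm.inv_right).mul_right hxg
  have huX : ⁅y, z⁻¹⁆ = V := by
    rw [commutatorElement_def]
    have hz : z⁻¹ = g⁻¹ * (d * g * d⁻¹) := by simp [z]; group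
    have hy1 : (d * g * d⁻¹) * y⁻¹ = y⁻¹ * (d * g * d⁻¹) := (hydg.inv_left.eq).symm
    have hxg' : x⁻¹ * g⁻¹ = g⁻¹ * x⁻¹ := (hxg.inv_left.inv_right).eq
    calc y * z⁻¹ * y⁻¹ * z⁻¹⁻¹
        = y * g⁻¹ * ((d * g * d⁻¹) * y⁻¹) * z⁻¹⁻¹ := by rw [hz]; group
      _ = y * g⁻¹ * (y⁻¹ * (d * g * d⁻¹)) * z⁻¹⁻¹ := by rw [hy1]
      _ = y * g⁻¹ * y⁻¹ * g := by rw [hz]; group
      _ = m * (x⁻¹ * g⁻¹) * x * m⁻¹ * g := by simp [y]; group
      _ = m * (g⁻¹ * x⁻¹) * x * m⁻¹ * g := by rw [hxg']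
      _ = V := by rw [hVdef]; group
  have hVm : m⁻¹ * V * m = g⁻¹ * m⁻¹ * g * m := by rw [hVdef]; group
  have huY : ⁅z, x⁻¹⁆ = d * (m⁻¹ * V * m) * d⁻¹ := by
    rw [commutatorElement_def]
    have h1 : d⁻¹ * x⁻¹ * d = m⁻¹ * x⁻¹ := by
      have h3 : m⁻¹ * y = x⁻¹ := by simp [y]
      have h4 : x⁻¹ = d⁻¹ * y * d := by
        calc x⁻¹ = d⁻¹ * (d * x⁻¹) := by group
          _ = d⁻¹ * (y * d) := by rw [hyd]
          _ = d⁻¹ * y * d := by group
      calc d⁻¹ * x⁻¹ * d = d⁻¹ * (m⁻¹ * y) * d := by rw [h3]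
        _ = (d⁻¹ * m⁻¹) * y * d := by group
        _ = (m⁻¹ * d⁻¹) * y * d := by rw [(hdm.inv_left.inv_right).eq]
        _ = m⁻¹ * (d⁻¹ * y * d) := by group
        _ = m⁻¹ * x⁻¹ := by rw [← h4]
    have h2 : x⁻¹ * d⁻¹ * x = m * d⁻¹ := by
      have h5 : x⁻¹ * d * x = d * m⁻¹ := by
        calc x⁻¹ * d * x = d * (d⁻¹ * x⁻¹ * d) * x := by group
          _ = d * (m⁻¹ * x⁻¹) * x := by rw [h1]
          _ = d * m⁻¹ := by group
      calc x⁻¹ * d⁻¹ * x = (x⁻¹ * d * x)⁻¹ := by group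
        _ = (d * m⁻¹)⁻¹ := by rw [h5]
        _ = m * d⁻¹ := by group
    have hxg1 : g * x⁻¹ = x⁻¹ * g := hxg.inv_left.eq.symm
    calc z * x⁻¹ * z⁻¹ * x⁻¹⁻¹
        = d * g⁻¹ * d⁻¹ * (g * x⁻¹) * g⁻¹ * d * g * d⁻¹ * x := by simp [z]; group
      _ = d * g⁻¹ * d⁻¹ * (x⁻¹ * g) * g⁻¹ * d * g * d⁻¹ * x := by rw [hxg1]
      _ = d * g⁻¹ * (d⁻¹ * x⁻¹ * d) * g * d⁻¹ * x := by group
      _ = d * g⁻¹ * (m⁻¹ * x⁻¹) * g * d⁻¹ * x := by rw [h1]
      _ = d * g⁻¹ * m⁻¹ * (x⁻¹ * g) * d⁻¹ * x := by group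
      _ = d * g⁻¹ * m⁻¹ * (g * x⁻¹) * d⁻¹ * x := by rw [hxg1]
      _ = d * g⁻¹ * m⁻¹ * g * (x⁻¹ * d⁻¹ * x) := by group
      _ = d * g⁻¹ * m⁻¹ * g * (m * d⁻¹) := by rw [h2]
      _ = d * (m⁻¹ * V * m) * d⁻¹ := by rw [hVm]; group
  refine ⟨?_, ?_, ?_, ?_, ?_⟩
  · rw [huX]; exact hV
  · rw [huY]
    calc d * (m⁻¹ * V * m) * d⁻¹ * (d * (m⁻¹ * V * m) * d⁻¹)
        = d * m⁻¹ * (V * V) * (m * d⁻¹) := by group
      _ = d * m⁻¹ * T * (m * d⁻¹) := by rw [hV]
      _ = T * (d * m⁻¹) * (m * d⁻¹) := by rw [(hT (d * m⁻¹)).eq]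
      _ = T := by group
  · rw [commutatorElement_eq_one_iff_commute]; exact hx_y.inv_right
  · rw [commutatorElement_eq_one_iff_commute, huX]; exact hxV
  · rw [commutatorElement_eq_one_iff_commute, huY]
    -- `y = d x⁻¹ d⁻¹`
    have hy2 : y = d * x⁻¹ * d⁻¹ := by rw [← hyd]; group
    have hc : Commute x⁻¹ (m⁻¹ * V * m) :=
      ((hxm.inv_right.mul_right hxV).mul_right hxm).inv_left
    show y * (d * (m⁻¹ * V * m) * d⁻¹) = d * (m⁻¹ * V * m) * d⁻¹ * y
    calc y * (d * (m⁻¹ * V * m) * d⁻¹)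
        = d * (x⁻¹ * (m⁻¹ * V * m)) * d⁻¹ := by rw [hy2]; group
      _ = d * ((m⁻¹ * V * m) * x⁻¹) * d⁻¹ := by rw [hc.eq]
      _ = d * (m⁻¹ * V * m) * d⁻¹ * y := by rw [hy2]; group

end Abstract

set_option linter.unusedSectionVars false

/-! ## The ordered set -/

section Cover

variable (K : Type*) [Field K] [LinearOrder K] [IsStrictOrderedRing K]

/-- The universal cover of the projective line of `K`. -/
abbrev L : Type _ := ℤ ×ₗ WithBot K

variable {K}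

/-- Points of `L`. -/
def pt (n : ℤ) (w : WithBot K) : L K := toLex (n, w)

theorem pt_lt (n m : ℤ) (w v : WithBot K) : pt n w < pt m v ↔ n < m ∨ n = m ∧ w < v := by
  simp [pt, Prod.Lex.toLex_lt_toLex]

theorem pt_inj {n m : ℤ} {w v : WithBot K} : pt n w = pt m v ↔ n = m ∧ w = v := by
  simp [pt]

theorem exists_pt (p : L K) : ∃ n w, p = pt n w := ⟨(ofLex p).1, (ofLex p).2, rfl⟩

theorem exists_pt' (p : L K) : (∃ n, p = pt n ⊥) ∨ ∃ (n : ℤ) (w : K), p = pt n (w : WithBot K) := by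
  obtain ⟨n, w, rfl⟩ := exists_pt p
  induction w using WithBot.recBotCoe with
  | bot => exact Or.inl ⟨n, rfl⟩
  | coe w => exact Or.inr ⟨n, w, rfl⟩

/-- Lift of an order automorphism of `K` (fixing infinity). -/
def lift (f : K ≃o K) : L K ≃o L K where
  toFun p := pt (ofLex p).1 ((ofLex p).2.map f)
  invFun p := pt (ofLex p).1 ((ofLex p).2.map f.symm)
  left_inv p := by
    obtain (⟨n, rfl⟩ | ⟨n, w, rfl⟩) := exists_pt' p <;> simp [pt]
  right_inv p := by
    obtain (⟨n, rfl⟩ | ⟨n, w, rfl⟩) := exists_pt' p <;> simp [pt]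
  map_rel_iff' {p q} := by
    obtain (⟨n, rfl⟩ | ⟨n, w, rfl⟩) := exists_pt' p <;>
    obtain (⟨m, rfl⟩ | ⟨m, v, rfl⟩) := exists_pt' q <;>
    simp [pt, Prod.Lex.toLex_le_toLex]

@[simp] theorem lift_bot (f : K ≃o K) (n : ℤ) : lift f (pt n ⊥) = pt n ⊥ := rfl
@[simp] theorem lift_coe (f : K ≃o K) (n : ℤ) (w : K) :
    lift f (pt n (w : WithBot K)) = pt n ((f w : K) : WithBot K) := rfl

/-- The deck transformation. -/
def T : L K ≃o L K where
  toFun p := pt ((ofLex p).1 + 1) (ofLex p).2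
  invFun p := pt ((ofLex p).1 - 1) (ofLex p).2
  left_inv p := by
    obtain ⟨n, w, rfl⟩ := exists_pt p; simp [pt]
  right_inv p := by
    obtain ⟨n, w, rfl⟩ := exists_pt p; simp [pt]
  map_rel_iff' {p q} := by
    obtain ⟨n, w, rfl⟩ := exists_pt p
    obtain ⟨m, v, rfl⟩ := exists_pt q
    simp [pt, Prod.Lex.toLex_le_toLex]

@[simp] theorem T_pt (n : ℤ) (w : WithBot K) : T (pt n w) = pt (n + 1) w := rfl
@[simp] theorem T_symm_pt (n : ℤ) (w : WithBot K) : T.symm (pt n w) = pt (n - 1) w := rfl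

/-- The value of the lift of `w ↦ -1/w` on finite points. -/
def Jc (n : ℤ) (w : K) : L K :=
  if w < 0 then pt n ((-w⁻¹ : K) : WithBot K)
  else if w = 0 then pt (n + 1) ⊥ else pt (n + 1) ((-w⁻¹ : K) : WithBot K)

/-- The lift of `w ↦ -1/w`. -/
def Jfun (p : L K) : L K :=
  WithBot.recBotCoe (C := fun _ => L K) (pt (ofLex p).1 ((0 : K) : WithBot K))
    (fun w => Jc (ofLex p).1 w) (ofLex p).2

theorem Jfun_bot (n : ℤ) : Jfun (pt n (⊥ : WithBot K)) = pt n ((0 : K) : WithBot K) := rfl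
theorem Jfun_coe (n : ℤ) (w : K) : Jfun (pt n (w : WithBot K)) = Jc n w := rfl

theorem Jc_neg {n : ℤ} {w : K} (h : w < 0) : Jc n w = pt n ((-w⁻¹ : K) : WithBot K) := if_pos h
theorem Jc_zero {n : ℤ} : Jc n (0 : K) = pt (n + 1) ⊥ := by simp [Jc]
theorem Jc_pos {n : ℤ} {w : K} (h : 0 < w) : Jc n w = pt (n + 1) ((-w⁻¹ : K) : WithBot K) := by
  simp [Jc, h.not_gt, h.ne']

theorem Jfun_Jfun (p : L K) : Jfun (Jfun p) = T p := by
  obtain (⟨n, rfl⟩ | ⟨n, w, rfl⟩) := exists_pt' p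
  · rw [Jfun_bot, Jfun_coe, Jc_zero, T_pt]
  · rw [Jfun_coe, T_pt]
    rcases lt_trichotomy w 0 with h | h | h
    · rw [Jc_neg h, Jfun_coe, Jc_pos (by rw [Left.neg_pos_iff]; exact inv_lt_zero.2 h)]
      simp
    · subst h; rw [Jc_zero, Jfun_bot]
    · rw [Jc_pos h, Jfun_coe, Jc_neg (by rw [Left.neg_neg_iff]; exact inv_pos.2 h)]
      simp

theorem Jc_mono {n : ℤ} {w v : K} (h : w < v) : Jc n w < Jc n v := by
  rcases lt_trichotomy w 0 with hw | hw | hw
  · rcases lt_trichotomy v 0 with hv | hv | hv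
    · rw [Jc_neg hw, Jc_neg hv, pt_lt]
      right
      refine ⟨rfl, ?_⟩
      rw [WithBot.coe_lt_coe, neg_lt_neg_iff]
      exact (inv_lt_inv_of_neg hv hw).2 h
    · subst hv; rw [Jc_neg hw, Jc_zero, pt_lt]; left; omega
    · rw [Jc_neg hw, Jc_pos hv, pt_lt]; left; omega
  · subst hw
    rw [Jc_zero, Jc_pos h, pt_lt]
    right; exact ⟨rfl, WithBot.bot_lt_coe _⟩
  · have hv : 0 < v := hw.trans h
    rw [Jc_pos hw, Jc_pos hv, pt_lt]
    right
    refine ⟨rfl, ?_⟩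
    rw [WithBot.coe_lt_coe, neg_lt_neg_iff]
    exact (inv_lt_inv₀ hv hw).2 h

theorem Jc_lower (n : ℤ) (w : K) : pt n ((0 : K) : WithBot K) < Jc n w := by
  rcases lt_trichotomy w 0 with hw | hw | hw
  · rw [Jc_neg hw, pt_lt]
    right
    refine ⟨rfl, ?_⟩
    rw [WithBot.coe_lt_coe, Left.neg_pos_iff]
    exact inv_lt_zero.2 hw
  · subst hw; rw [Jc_zero, pt_lt]; left; omega
  · rw [Jc_pos hw, pt_lt]; left; omega

theorem Jc_upper (n : ℤ) (w : K) : Jc n w < pt (n + 1) ((0 : K) : WithBot K) := by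
  rcases lt_trichotomy w 0 with hw | hw | hw
  · rw [Jc_neg hw, pt_lt]; left; omega
  · subst hw; rw [Jc_zero, pt_lt]; right; exact ⟨rfl, WithBot.bot_lt_coe _⟩
  · rw [Jc_pos hw, pt_lt]
    right
    refine ⟨rfl, ?_⟩
    rw [WithBot.coe_lt_coe, Left.neg_neg_iff]
    exact inv_pos.2 hw

theorem pt0_le {n m : ℤ} (h : n ≤ m) :
    (pt n ((0 : K) : WithBot K) : L K) ≤ pt m ((0 : K) : WithBot K) := by
  rcases h.eq_or_lt with rfl | h
  · exact le_rfl
  · exact le_of_lt ((pt_lt _ _ _ _).2 (Or.inl h))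

theorem Jfun_strictMono : StrictMono (Jfun : L K → L K) := by
  intro p q hpq
  obtain (⟨n, rfl⟩ | ⟨n, w, rfl⟩) := exists_pt' p <;>
  obtain (⟨m, rfl⟩ | ⟨m, v, rfl⟩) := exists_pt' q <;>
  rw [pt_lt] at hpq
  · rcases hpq with h | ⟨rfl, h⟩
    · rw [Jfun_bot, Jfun_bot, pt_lt]; exact Or.inl h
    · exact absurd h (lt_irrefl _)
  · have hnm : n ≤ m := by rcases hpq with h | ⟨h, _⟩ <;> omega
    rw [Jfun_bot, Jfun_coe]
    exact (pt0_le hnm).trans_lt (Jc_lower m v)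
  · have hnm : n + 1 ≤ m := by
      rcases hpq with h | ⟨rfl, h⟩
      · omega
      · exact absurd h (not_lt_bot)
    rw [Jfun_bot, Jfun_coe]
    exact (Jc_upper n w).trans_le (pt0_le hnm)
  · rw [Jfun_coe, Jfun_coe]
    rcases hpq with h | ⟨rfl, h⟩
    · exact (Jc_upper n w).trans_le ((pt0_le (by omega)).trans (Jc_lower m v).le)
    · exact Jc_mono (WithBot.coe_lt_coe.1 h)

/-- The lift of `w ↦ -1/w` as an order automorphism. -/
noncomputable def J : L K ≃o L K :=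
  Jfun_strictMono.orderIsoOfRightInverse Jfun (fun p => Jfun (T.symm p)) (by
    intro p
    show Jfun (Jfun (T.symm p)) = p
    rw [Jfun_Jfun]; exact T.apply_symm_apply p)

theorem J_bot (n : ℤ) : J (pt n (⊥ : WithBot K)) = pt n ((0 : K) : WithBot K) := rfl
theorem J_coe (n : ℤ) (w : K) : J (pt n (w : WithBot K)) = Jc n w := rfl

theorem J_mul_J : (J * J : L K ≃o L K) = T :=
  RelIso.ext fun p => Jfun_Jfun p

theorem T_comm_J : Commute (T : L K ≃o L K) J := by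
  show T * J = J * T
  rw [← J_mul_J]; group

theorem T_comm_lift (f : K ≃o K) : Commute (T : L K ≃o L K) (lift f) := by
  refine RelIso.ext fun p => ?_
  obtain (⟨n, rfl⟩ | ⟨n, w, rfl⟩) := exists_pt' p <;> rfl

theorem mul_pt (f g : L K ≃o L K) (p : L K) : (f * g) p = f (g p) := rfl

theorem ext_pt {f g : L K ≃o L K} (h0 : ∀ n, f (pt n ⊥) = g (pt n ⊥))
    (h1 : ∀ (n : ℤ) (w : K), f (pt n (w : WithBot K)) = g (pt n (w : WithBot K))) : f = g := by
  refine RelIso.ext fun p => ?_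
  obtain (⟨n, rfl⟩ | ⟨n, w, rfl⟩) := exists_pt' p
  · exact h0 n
  · exact h1 n w

/-- The order automorphism `w ↦ c w + s` of `K`. -/
def affK (c s : K) (hc : 0 < c) : K ≃o K where
  toFun w := c * w + s
  invFun w := c⁻¹ * (w - s)
  left_inv w := by field_simp; ring
  right_inv w := by field_simp; ring
  map_rel_iff' {a b} := by
    simp [mul_le_mul_iff_right₀ hc]

/-- The lift of `w ↦ c w + s`. -/
def aff (c s : K) (hc : 0 < c) : L K ≃o L K := lift (affK c s hc)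

@[simp] theorem aff_bot (c s : K) (hc : 0 < c) (n : ℤ) : aff c s hc (pt n ⊥) = pt n ⊥ := rfl
@[simp] theorem aff_coe (c s : K) (hc : 0 < c) (n : ℤ) (w : K) :
    aff c s hc (pt n (w : WithBot K)) = pt n ((c * w + s : K) : WithBot K) := rfl

theorem aff_mul (c s c' s' : K) (hc : 0 < c) (hc' : 0 < c') :
    aff c s hc * aff c' s' hc' = aff (c * c') (c * s' + s) (mul_pos hc hc') := by
  refine ext_pt (fun n => rfl) (fun n w => ?_)
  rw [mul_pt, aff_coe, aff_coe, aff_coe]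
  congr 2; ring

theorem aff_congr {c s c' s' : K} {hc : 0 < c} {hc' : 0 < c'} (h : c = c') (h' : s = s') :
    aff c s hc = aff c' s' hc' := by
  subst h; subst h'; rfl

theorem aff_one : aff (1 : K) 0 one_pos = 1 := by
  refine ext_pt (fun n => rfl) (fun n w => ?_)
  rw [aff_coe]; simp

theorem aff_inv (c s : K) (hc : 0 < c) :
    (aff c s hc)⁻¹ = aff c⁻¹ (-(c⁻¹ * s)) (inv_pos.2 hc) := by
  rw [inv_eq_iff_mul_eq_one, aff_mul, ← aff_one]
  exact aff_congr (by field_simp) (by field_simp; ring)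

theorem T_comm_aff (c s : K) (hc : 0 < c) : Commute (T : L K ≃o L K) (aff c s hc) :=
  T_comm_lift _

theorem J_mul_aff (c : K) (hc : 0 < c) :
    J * aff c 0 hc = aff c⁻¹ 0 (inv_pos.2 hc) * J := by
  refine ext_pt (fun n => ?_) (fun n w => ?_)
  · rw [mul_pt, mul_pt, aff_bot, J_bot, aff_coe]; simp
  · rw [mul_pt, mul_pt, aff_coe, J_coe, J_coe, add_zero]
    rcases lt_trichotomy w 0 with h | h | h
    · rw [Jc_neg h, Jc_neg (mul_neg_of_pos_of_neg hc h), aff_coe]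
      congr 2; rw [mul_inv]; ring
    · subst h; rw [mul_zero, Jc_zero, aff_bot]
    · rw [Jc_pos h, Jc_pos (mul_pos hc h), aff_coe]
      congr 2; rw [mul_inv]; ring

theorem braid_aux {w : K} (hw : w ≠ 0) (h1 : w - 1 ≠ 0) :
    -((1 * -w⁻¹ + 1)⁻¹ : K) = 1 * -(1 * w + -1)⁻¹ + -1 := by
  have h2 : (1 * -w⁻¹ + 1 : K) = (w - 1) / w := by field_simp; ring
  have h3 : (1 * w + -1 : K) = w - 1 := by ring
  rw [h2, h3, inv_div]
  field_simp
  ring

theorem braid : J * aff 1 1 one_pos * J =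
    T * (aff 1 (-1) one_pos * J * aff 1 (-1) one_pos : L K ≃o L K) := by
  refine ext_pt (fun n => ?_) (fun n w => ?_)
  · rw [mul_pt, mul_pt, mul_pt, mul_pt, mul_pt, J_bot, aff_bot, J_bot, aff_coe, J_coe, aff_coe,
      Jc_pos (by norm_num), T_pt]
    simp
  · rw [mul_pt, mul_pt, mul_pt, mul_pt, mul_pt, J_coe, aff_coe, J_coe]
    rcases lt_trichotomy w 0 with h | h | h
    · have h2 : (1 : K) * w + -1 < 0 := by linarith
      have h3 : (0 : K) < 1 * (-w⁻¹) + 1 := by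
        have := inv_lt_zero.2 h; linarith
      rw [Jc_neg h, Jc_neg h2, aff_coe, J_coe, aff_coe, Jc_pos h3, T_pt,
        braid_aux h.ne (by intro h5; linarith)]
    · subst h
      rw [Jc_zero, aff_bot, J_bot, Jc_neg (by norm_num), aff_coe, T_pt]
      congr 2; norm_num
    · rw [Jc_pos h, aff_coe, J_coe]
      rcases lt_trichotomy w 1 with h1 | h1 | h1
      · have h2 : (1 : K) * w + -1 < 0 := by linarith
        have h3 : (1 * (-w⁻¹) + 1 : K) < 0 := by
          have := (one_lt_inv₀ h).2 h1; linarith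
        rw [Jc_neg h2, Jc_neg h3, aff_coe, T_pt, braid_aux h.ne' (by intro h5; linarith)]
      · subst h1
        have h2 : ((1 : K) * 1 + -1 : K) = 0 := by ring
        have h3 : (1 * (-(1 : K)⁻¹) + 1 : K) = 0 := by norm_num
        rw [h2, h3, Jc_zero, Jc_zero, aff_bot, T_pt]
      · have h2 : (0 : K) < 1 * w + -1 := by linarith
        have h3 : (0 : K) < 1 * (-w⁻¹) + 1 := by
          have := (inv_lt_one₀ h).2 h1; linarith
        rw [Jc_pos h2, Jc_pos h3, aff_coe, T_pt, braid_aux h.ne' (by intro h5; linarith)]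

/-! ### The element `V` -/

/-- `M₂`. -/
def m2 : L K ≃o L K := aff 2 0 two_pos

/-- The lift of `w ↦ (w - 2) / (-2 w + 5)`. -/
noncomputable def g0 : L K ≃o L K :=
  aff (1 / 4) (-1 / 2) (by norm_num) * J * aff 1 (-5 / 2) one_pos

theorem J_inv_conj : (J : L K ≃o L K)⁻¹ * aff 1 1 one_pos * J =
    aff 1 (-1) one_pos * J * aff 1 (-1) one_pos := by
  have h : (J : L K ≃o L K)⁻¹ = T⁻¹ * J := by
    rw [← J_mul_J]; group
  rw [h, mul_assoc, mul_assoc, ← mul_assoc J, braid]; group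

theorem V_eq : (m2 * g0⁻¹ * m2⁻¹ * g0 : L K ≃o L K) =
    aff 1 3 one_pos * J * aff 1 (-3) one_pos := by
  have e1 : (g0 : L K ≃o L K)⁻¹ = aff 1 (5 / 2) one_pos * J⁻¹ * aff 4 2 (by norm_num) := by
    rw [g0, mul_inv_rev, mul_inv_rev, aff_inv, aff_inv, ← mul_assoc]
    congr 1
    · congr 1
      exact aff_congr (by norm_num) (by norm_num)
    · exact aff_congr (by norm_num) (by norm_num)
  have e2 : (m2 : L K ≃o L K)⁻¹ = aff (1 / 2) 0 (by norm_num) := by
    rw [m2, aff_inv]; exact aff_congr (by norm_num) (by norm_num)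
  have e3 : (aff 4 2 (by norm_num) * (m2⁻¹ * aff (1 / 4) (-1 / 2) (by norm_num)) : L K ≃o L K)
      = aff 1 1 one_pos * aff (1 / 2) 0 (by norm_num) := by
    rw [e2, aff_mul, aff_mul, aff_mul]; exact aff_congr (by norm_num) (by norm_num)
  have e4 : (aff (1 / 2) 0 (by norm_num) * J : L K ≃o L K) = J * aff 2 0 two_pos := by
    rw [J_mul_aff]; congr 1; exact aff_congr (by norm_num) rfl
  calc (m2 * g0⁻¹ * m2⁻¹ * g0 : L K ≃o L K)
      = m2 * aff 1 (5 / 2) one_pos * J⁻¹ *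
          (aff 4 2 (by norm_num) * (m2⁻¹ * aff (1 / 4) (-1 / 2) (by norm_num))) * J *
          aff 1 (-5 / 2) one_pos := by
        rw [e1, g0]; simp only [mul_assoc]
    _ = m2 * aff 1 (5 / 2) one_pos * (J⁻¹ * aff 1 1 one_pos *
          (aff (1 / 2) 0 (by norm_num) * J)) * aff 1 (-5 / 2) one_pos := by
        rw [e3]; simp only [mul_assoc]
    _ = m2 * aff 1 (5 / 2) one_pos * ((J⁻¹ * aff 1 1 one_pos * J) *
          aff 2 0 two_pos) * aff 1 (-5 / 2) one_pos := by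
        rw [e4]; simp only [mul_assoc]
    _ = (m2 * aff 1 (5 / 2) one_pos * aff 1 (-1) one_pos) * J *
          (aff 1 (-1) one_pos * aff 2 0 two_pos * aff 1 (-5 / 2) one_pos) := by
        rw [J_inv_conj]; simp only [mul_assoc]
    _ = (aff 1 3 one_pos * aff 2 0 two_pos) * J *
          (aff 2 0 two_pos * aff 1 (-3) one_pos) := by
        congr 1
        · congr 1
          rw [m2, aff_mul, aff_mul, aff_mul]; exact aff_congr (by norm_num) (by norm_num)
        · rw [aff_mul, aff_mul, aff_mul]; exact aff_congr (by norm_num) (by norm_num)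
    _ = aff 1 3 one_pos * (aff 2 0 two_pos * (J * aff 2 0 two_pos)) *
          aff 1 (-3) one_pos := by simp only [mul_assoc]
    _ = aff 1 3 one_pos * (aff 2 0 two_pos * (aff 2⁻¹ 0 (by norm_num) * J)) *
          aff 1 (-3) one_pos := by rw [J_mul_aff]
    _ = aff 1 3 one_pos * ((aff 2 0 two_pos * aff 2⁻¹ 0 (by norm_num)) * J) *
          aff 1 (-3) one_pos := by simp only [mul_assoc]
    _ = aff 1 3 one_pos * J * aff 1 (-3) one_pos := by
        have : (aff 2 0 two_pos * aff 2⁻¹ 0 (by norm_num) : L K ≃o L K) = 1 := by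
          rw [aff_mul, ← aff_one]; exact aff_congr (by norm_num) (by norm_num)
        rw [this, one_mul]

theorem V_sq : (m2 * g0⁻¹ * m2⁻¹ * g0 : L K ≃o L K) * (m2 * g0⁻¹ * m2⁻¹ * g0) = T := by
  rw [V_eq]
  have h : (aff 1 (-3) one_pos * aff 1 3 one_pos : L K ≃o L K) = 1 := by
    rw [aff_mul, ← aff_one]; exact aff_congr (by norm_num) (by norm_num)
  have h' : (aff 1 3 one_pos * aff 1 (-3) one_pos : L K ≃o L K) = 1 := by
    rw [aff_mul, ← aff_one]; exact aff_congr (by norm_num) (by norm_num)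
  calc (aff 1 3 one_pos * J * aff 1 (-3) one_pos : L K ≃o L K) *
        (aff 1 3 one_pos * J * aff 1 (-3) one_pos)
      = aff 1 3 one_pos * J * (aff 1 (-3) one_pos * aff 1 3 one_pos) * J *
        aff 1 (-3) one_pos := by simp only [mul_assoc]
    _ = aff 1 3 one_pos * (J * J) * aff 1 (-3) one_pos := by rw [h]; simp only [mul_assoc, one_mul]
    _ = T * (aff 1 3 one_pos * aff 1 (-3) one_pos) := by
        rw [J_mul_J, ← (T_comm_aff _ _ _).eq, mul_assoc]
    _ = T := by rw [h', mul_one]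

/-! ### Semilinear part -/

section Semi

variable (σ : K ≃+* K) (hm : ∀ {a b : K}, σ a ≤ σ b ↔ a ≤ b)

/-- The lift of a field automorphism. -/
def sl : L K ≃o L K := lift ⟨σ.toEquiv, hm⟩

theorem sl_bot (n : ℤ) : sl σ hm (pt n ⊥) = pt n ⊥ := rfl
theorem sl_coe (n : ℤ) (w : K) :
    sl σ hm (pt n (w : WithBot K)) = pt n ((σ w : K) : WithBot K) := rfl

include hm in
theorem sl_lt {a b : K} (h : a < b) : σ a < σ b := by
  rw [lt_iff_le_not_ge] at h ⊢
  rw [hm, hm]; exact h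

theorem sl_comm_J : Commute (sl σ hm) J := by
  refine ext_pt (fun n => ?_) (fun n w => ?_)
  · rw [mul_pt, mul_pt, sl_bot, J_bot, sl_coe, map_zero]
  · rw [mul_pt, mul_pt, sl_coe, J_coe, J_coe]
    rcases lt_trichotomy w 0 with h | h | h
    · have h2 : σ w < 0 := by simpa using sl_lt σ hm h
      rw [Jc_neg h, Jc_neg h2, sl_coe, map_neg, map_inv₀]
    · subst h; rw [map_zero, Jc_zero, sl_bot]
    · have h2 : 0 < σ w := by simpa using sl_lt σ hm h
      rw [Jc_pos h, Jc_pos h2, sl_coe, map_neg, map_inv₀]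

include hm in
theorem sl_pos {c : K} (hc : 0 < c) : 0 < σ c := by
  simpa using sl_lt σ hm hc

theorem sl_mul_aff (c s : K) (hc : 0 < c) :
    sl σ hm * aff c s hc = aff (σ c) (σ s) (sl_pos σ hm hc) * sl σ hm := by
  refine ext_pt (fun n => rfl) (fun n w => ?_)
  rw [mul_pt, mul_pt, sl_coe, aff_coe, aff_coe, sl_coe, map_add, map_mul]

theorem sl_comm_m2 : Commute (sl σ hm) (m2 : L K ≃o L K) := by
  show sl σ hm * m2 = m2 * sl σ hm
  rw [m2, sl_mul_aff]; congr 1; exact aff_congr (map_ofNat σ 2) (map_zero σ)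

theorem sl_comm_g0 : Commute (sl σ hm) (g0 : L K ≃o L K) := by
  have s2 : σ 2 = 2 := map_ofNat σ 2
  have s4 : σ 4 = 4 := map_ofNat σ 4
  have s5 : σ 5 = 5 := map_ofNat σ 5
  have h1 : Commute (sl σ hm) (aff (1 / 4) (-1 / 2) (by norm_num) : L K ≃o L K) := by
    show sl σ hm * _ = _ * sl σ hm
    rw [sl_mul_aff]; congr 1; exact aff_congr (by simp [s4]) (by simp [s2])
  have h2 : Commute (sl σ hm) (aff 1 (-5 / 2) one_pos : L K ≃o L K) := by
    show sl σ hm * _ = _ * sl σ hm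
    rw [sl_mul_aff]; congr 1; exact aff_congr (by simp) (by simp [s2, s5])
  exact (h1.mul_right (sl_comm_J σ hm)).mul_right h2

end Semi

open scoped commutatorElement

theorem T_comm_g0 : Commute (T : L K ≃o L K) g0 :=
  ((T_comm_aff _ _ _).mul_right T_comm_J).mul_right (T_comm_aff _ _ _)

/-- The action over an ordered field with a scaling automorphism. -/
theorem exists_over (σ : K ≃+* K) (hm : ∀ {a b : K}, σ a ≤ σ b ↔ a ≤ b)
    (t : K) (ht : 0 < t) (hσ : σ t = 2 * t) :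
    ∃ X Y Z : L K ≃o L K, Commute T X ∧ Commute T Y ∧ Commute T Z ∧
      ⁅Y, Z⁻¹⁆ * ⁅Y, Z⁻¹⁆ = T ∧ ⁅Z, X⁻¹⁆ * ⁅Z, X⁻¹⁆ = T ∧ ⁅X, Y⁻¹⁆ = 1 ∧
      ⁅X, ⁅Y, Z⁻¹⁆⁆ = 1 ∧ ⁅Y, ⁅Z, X⁻¹⁆⁆ = 1 := by
  let x : L K ≃o L K := sl σ hm
  let d : L K ≃o L K := aff t 0 ht
  have hxm : Commute x m2 := sl_comm_m2 σ hm
  have hxg : Commute x g0 := sl_comm_g0 σ hm
  have hdm : Commute d m2 := by
    show aff t 0 ht * aff 2 0 two_pos = aff 2 0 two_pos * aff t 0 ht
    rw [aff_mul, aff_mul]; exact aff_congr (by ring) (by ring)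
  have hxd : x * d * x⁻¹ = d * m2 := by
    have h1 : x * d = (d * m2) * x := by
      show sl σ hm * aff t 0 ht = (aff t 0 ht * aff 2 0 two_pos) * sl σ hm
      rw [sl_mul_aff, aff_mul]; congr 1
      exact aff_congr (by rw [hσ]; ring) (by rw [map_zero]; ring)
    rw [h1]; group
  have hTx : Commute T x := T_comm_lift _
  have hTm : Commute T (m2 : L K ≃o L K) := T_comm_aff _ _ _
  have hTd : Commute T d := T_comm_aff _ _ _
  have hTg : Commute T (g0 : L K ≃o L K) := T_comm_g0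
  -- work in the centraliser of `T`
  let C : Subgroup (L K ≃o L K) := Subgroup.centralizer {T}
  have hC : ∀ a : L K ≃o L K, Commute T a → a ∈ C := fun a ha => by
    rw [Subgroup.mem_centralizer_singleton_iff]; exact ha.symm.eq
  let x' : C := ⟨x, hC _ hTx⟩
  let m' : C := ⟨m2, hC _ hTm⟩
  let d' : C := ⟨d, hC _ hTd⟩
  let g' : C := ⟨g0, hC _ hTg⟩
  let T' : C := ⟨T, hC _ (Commute.refl _)⟩
  have key := rels_of x' m' d' g' T' (Subtype.ext hxm.eq) (Subtype.ext hxg.eq)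
    (Subtype.ext hdm.eq) (Subtype.ext hxd)
    (fun a => Subtype.ext (by
      have := (Subgroup.mem_centralizer_singleton_iff).1 a.2
      exact this.symm))
    (Subtype.ext V_sq)
  obtain ⟨k1, k2, k3, k4, k5⟩ := key
  refine ⟨x, m2 * x⁻¹, d * g0⁻¹ * d⁻¹ * g0, hTx, hTm.mul_right hTx.inv_right,
    (((hTd.mul_right hTg.inv_right).mul_right hTd.inv_right).mul_right hTg), ?_, ?_, ?_, ?_, ?_⟩
  · exact congrArg Subtype.val k1
  · exact congrArg Subtype.val k2
  · exact congrArg Subtype.val k3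
  · exact congrArg Subtype.val k4
  · exact congrArg Subtype.val k5

end Cover

/-! ## The ordered field -/

open scoped commutatorElement

/-- Laurent series over `ℚ`, ordered by the sign of the lowest coefficient. -/
abbrev KK : Type := Lex (HahnSeries ℤ ℚ)

/-- Rescaling `t ↦ c t` on Laurent series. -/
noncomputable def resc (c : ℚ) (_hc : c ≠ 0) (f : HahnSeries ℤ ℚ) : HahnSeries ℤ ℚ where
  coeff n := c ^ n * f.coeff n
  isPWO_support' := f.isPWO_support.mono (by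
    intro n hn
    simp only [Function.mem_support, ne_eq, mul_eq_zero, not_or] at hn
    simpa using hn.2)

theorem resc_coeff (c : ℚ) (hc : c ≠ 0) (f : HahnSeries ℤ ℚ) (n : ℤ) :
    (resc c hc f).coeff n = c ^ n * f.coeff n := rfl

theorem resc_support (c : ℚ) (hc : c ≠ 0) (f : HahnSeries ℤ ℚ) :
    (resc c hc f).support = f.support := by
  ext n
  simp [resc_coeff, hc, zpow_ne_zero]

theorem resc_mul (c : ℚ) (hc : c ≠ 0) (f g : HahnSeries ℤ ℚ) :
    resc c hc (f * g) = resc c hc f * resc c hc g := by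
  ext n
  rw [resc_coeff, HahnSeries.coeff_mul, HahnSeries.coeff_mul, Finset.mul_sum]
  refine Finset.sum_congr ?_ ?_
  · ext p; simp [resc_coeff, hc, zpow_ne_zero]
  · intro p hp
    rw [Finset.mem_antidiagonal] at hp
    rw [resc_coeff, resc_coeff, ← hp.2.2, zpow_add₀ hc]; ring

theorem resc_add (c : ℚ) (hc : c ≠ 0) (f g : HahnSeries ℤ ℚ) :
    resc c hc (f + g) = resc c hc f + resc c hc g := by
  ext n
  rw [resc_coeff, HahnSeries.coeff_add, HahnSeries.coeff_add, resc_coeff, resc_coeff]; ring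

/-- The ring automorphism `t ↦ 2 t`. -/
noncomputable def sig : KK ≃+* KK where
  toFun f := toLex (resc 2 two_ne_zero (ofLex f))
  invFun f := toLex (resc 2⁻¹ (by norm_num) (ofLex f))
  left_inv f := by
    apply ofLex.injective
    ext n
    simp only [ofLex_toLex, resc_coeff]
    rw [← mul_assoc, ← mul_zpow]; norm_num
  right_inv f := by
    apply ofLex.injective
    ext n
    simp only [ofLex_toLex, resc_coeff]
    rw [← mul_assoc, ← mul_zpow]; norm_num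
  map_mul' f g := by
    apply ofLex.injective
    simp only [ofLex_mul, ofLex_toLex]
    exact resc_mul _ _ _ _
  map_add' f g := by
    apply ofLex.injective
    simp only [ofLex_add, ofLex_toLex]
    exact resc_add _ _ _ _

theorem sig_strictMono : StrictMono sig := by
  intro f g h
  rw [HahnSeries.lt_iff] at h ⊢
  obtain ⟨i, h1, h2⟩ := h
  refine ⟨i, fun j hj => ?_, ?_⟩
  · show (2 : ℚ) ^ j * _ = 2 ^ j * _
    rw [h1 j hj]
  · show (2 : ℚ) ^ i * _ < 2 ^ i * _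
    exact mul_lt_mul_of_pos_left h2 (zpow_pos two_pos _)

/-- The infinitesimal `t`. -/
noncomputable def tt : KK := toLex (HahnSeries.single 1 1)

theorem tt_pos : 0 < tt := by
  rw [← HahnSeries.leadingCoeff_pos_iff]
  simp [tt]

theorem sig_tt : sig tt = 2 * tt := by
  apply ofLex.injective
  ext n
  show (2 : ℚ) ^ n * (HahnSeries.single (1 : ℤ) (1 : ℚ)).coeff n =
    ((2 : HahnSeries ℤ ℚ) * HahnSeries.single (1 : ℤ) (1 : ℚ)).coeff n
  rw [two_mul, HahnSeries.coeff_add]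
  by_cases h : n = 1
  · subst h; simp; norm_num
  · simp [HahnSeries.coeff_single_of_ne h]

theorem T_gt {K : Type*} [Field K] [LinearOrder K] [IsStrictOrderedRing K] (p : L K) :
    p < T p := by
  obtain ⟨n, w, rfl⟩ := exists_pt p
  rw [T_pt, pt_lt]; left; omega

theorem T_pow {K : Type*} [Field K] [LinearOrder K] [IsStrictOrderedRing K]
    (k : ℕ) (n : ℤ) (w : WithBot K) : (T ^ k : L K ≃o L K) (pt n w) = pt (n + k) w := by
  induction k with
  | zero => simp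
  | succ k ih =>
    rw [pow_succ', mul_pt, ih, T_pt]; congr 1; push_cast; ring

theorem T_cof {K : Type*} [Field K] [LinearOrder K] [IsStrictOrderedRing K] (p q : L K) :
    ∃ n : ℕ, q ≤ (T ^ n : L K ≃o L K) p := by
  obtain ⟨n, w, rfl⟩ := exists_pt p
  obtain ⟨m, v, rfl⟩ := exists_pt q
  refine ⟨(m - n + 1).toNat, le_of_lt ?_⟩
  rw [T_pow, pt_lt]; left; omega

/-- **Main output.**  A linear order with automorphisms satisfying the lifted relations of the
Lambert cube group with Euler class `X + Y`. -/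
theorem exists_action :
    ∃ (Λ : Type) (_ : LinearOrder Λ) (T X Y Z : Λ ≃o Λ), (∀ p, p < T p) ∧
      (∀ p q, ∃ n : ℕ, q ≤ (T ^ n : Λ ≃o Λ) p) ∧
      Commute T X ∧ Commute T Y ∧ Commute T Z ∧
      ⁅Y, Z⁻¹⁆ * ⁅Y, Z⁻¹⁆ = T ∧ ⁅Z, X⁻¹⁆ * ⁅Z, X⁻¹⁆ = T ∧ ⁅X, Y⁻¹⁆ = 1 ∧
      ⁅X, ⁅Y, Z⁻¹⁆⁆ = 1 ∧ ⁅Y, ⁅Z, X⁻¹⁆⁆ = 1 := by
  obtain ⟨X, Y, Z, h⟩ := exists_over sig (fun {a b} => sig_strictMono.le_iff_le) tt tt_pos sig_tt
  exact ⟨L KK, inferInstance, T, X, Y, Z, T_gt, T_cof, h⟩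

end Pool.Agent.EC.Up
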