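import Pool.Agent.EC.Rigid
import Pool.Agent.EC.Lift

/-! The words of the surfaces `S_x`, `S_y` in a group with the relations of `G`. -/

set_option linter.unusedSimpArgs false

namespace Pool.Agent.EC.Words

open scoped commutatorElement

variable {K : Type*} [Group K]

/-- `u_X` -/
def uu (y z : K) : K := y * z⁻¹ * y⁻¹ * z
/-- `u_Y` -/
def vv (z x : K) : K := z * x⁻¹ * z⁻¹ * x
def al (y : K) : K := y * y
def be (y z : K) : K := uu y z * y * y * uu y z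
def h1 (y z : K) : K := z⁻¹ * y
def h2 (y z : K) : K := y * z⁻¹ * uu y z
def kk (x y z : K) : K := y * (x⁻¹ * z * x)⁻¹
def z4 (z : K) : K := z * z * z * z
def AA (x z : K) : K := z * z * vv z x
def BB (x z : K) : K := z * AA x z * z⁻¹

section abstract_words

variable {x y z u v : K}

theorem aux_inv (hu : u * u = 1) : u⁻¹ = u := (eq_inv_of_mul_eq_one_left hu).symm

theorem aux_e1 (e : z⁻¹ * y = u * (y * z⁻¹)) (c : K) : z⁻¹ * (y * c) = u * (y * (z⁻¹ * c)) := by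
  rw [← mul_assoc, e]; simp only [mul_assoc]

theorem aux_e2 (hu : u * u = 1) (e : z⁻¹ * y = u * (y * z⁻¹)) :
    z⁻¹ * y⁻¹ = y⁻¹ * (u * z⁻¹) := by
  have h := congrArg (fun t => y⁻¹ * u * t * y⁻¹) e
  simp only [mul_assoc, mul_inv_cancel, mul_one] at h
  rw [← mul_assoc u u, hu, one_mul, inv_mul_cancel_left] at h
  exact h.symm

theorem aux_e2' (hu : u * u = 1) (e : z⁻¹ * y = u * (y * z⁻¹)) (c : K) :
    z⁻¹ * (y⁻¹ * c) = y⁻¹ * (u * (z⁻¹ * c)) := by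
  rw [← mul_assoc, aux_e2 hu e]; simp only [mul_assoc]

theorem aux_sq (hu : u * u = 1) (c : K) : u * (u * c) = c := by rw [← mul_assoc, hu, one_mul]

theorem w_R1 (hu : u * u = 1) (e : z⁻¹ * y = u * (y * z⁻¹)) :
    ((u * y * y * u) * (y * z⁻¹ * u) * (u * y * y * u)⁻¹ * (y * z⁻¹ * u)⁻¹) *
      ((y * y) * (z⁻¹ * y) * (y * y)⁻¹ * (z⁻¹ * y)⁻¹) = 1 := by
  simp only [mul_inv_rev, inv_inv, aux_inv hu, mul_assoc, e, aux_e1 e, aux_e2 hu e, aux_e2' hu e,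
    aux_sq hu, inv_mul_cancel_left, mul_inv_cancel_left, mul_inv_cancel, inv_mul_cancel, mul_one,
    hu]

theorem w_R2 (hu : u * u = 1) (hv : v * v = 1) (c : v * y = y * v) :
    (y * (v * z)⁻¹) * (y * y) * (y * (v * z)⁻¹)⁻¹ =
      (y * z⁻¹ * u) * (u * y * y * u) * (y * z⁻¹ * u)⁻¹ := by
  have c' : ∀ t, v * (y * t) = y * (v * t) := fun t => by rw [← mul_assoc, c, mul_assoc]
  simp only [mul_inv_rev, inv_inv, aux_inv hu, aux_inv hv, mul_assoc, c, c', aux_sq hv,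
    aux_sq hu]

theorem w_z4 (hu : u * u = 1) (e : z⁻¹ * y = u * (y * z⁻¹)) :
    (z * z * z * z)⁻¹ = (z⁻¹ * y) * (y * y)⁻¹ * (y * z⁻¹ * u) * (y * z⁻¹ * u) *
      (u * y * y * u)⁻¹ * (z⁻¹ * y) := by
  simp only [mul_inv_rev, inv_inv, aux_inv hu, mul_assoc, e, aux_e1 e, aux_e2 hu e, aux_e2' hu e,
    aux_sq hu, inv_mul_cancel_left, mul_inv_cancel_left, mul_inv_cancel, inv_mul_cancel, mul_one,
    hu]

theorem w_P (hu : u * u = 1) (e : z⁻¹ * y = u * (y * z⁻¹)) :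
    (y * z⁻¹ * u) * (y * z⁻¹ * u) * (u * y * y * u)⁻¹ * (z⁻¹ * y) =
      y * z⁻¹ * z⁻¹ * z⁻¹ := by
  simp only [mul_inv_rev, inv_inv, aux_inv hu, mul_assoc, e, aux_e1 e, aux_e2 hu e, aux_e2' hu e,
    aux_sq hu, inv_mul_cancel_left, mul_inv_cancel_left, mul_inv_cancel, inv_mul_cancel, mul_one,
    hu]

theorem w_e (c : v * y = y * v) :
    (z⁻¹ * y) * (y * (v * z)⁻¹)⁻¹ * (y * z⁻¹ * u) = z⁻¹ * y * v * u := by
  have c' : ∀ t, v * (y * t) = y * (v * t) := fun t => by rw [← mul_assoc, c, mul_assoc]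
  simp only [mul_inv_rev, inv_inv, mul_assoc, inv_mul_cancel_left, mul_inv_cancel_left, c']

theorem w_x (hu : u * u = 1) (hv : v * v = 1) (e : z⁻¹ * y = u * (y * z⁻¹))
    (c : v * y = y * v) :
    ((v * z) * (v * z) * (v * z) * (v * z))⁻¹ =
      (z⁻¹ * y * v * u) * (u * y * y * u)⁻¹ * (z⁻¹ * y * v * u) * (y * (v * z)⁻¹) * (y * y)⁻¹ *
        (y * (v * z)⁻¹) := by
  have c1 : y⁻¹ * v = v * y⁻¹ := by
    have h := congrArg (fun t => y⁻¹ * t * y⁻¹) c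
    simp only [mul_assoc, mul_inv_cancel, mul_one, inv_mul_cancel_left] at h
    exact h
  have c' : ∀ t, y * (v * t) = v * (y * t) := fun t => by rw [← mul_assoc, ← c, mul_assoc]
  have c1' : ∀ t, y⁻¹ * (v * t) = v * (y⁻¹ * t) := fun t => by rw [← mul_assoc, c1, mul_assoc]
  have e3 : u * (y * z⁻¹) = z⁻¹ * y := e.symm
  have e3' : ∀ t, u * (y * (z⁻¹ * t)) = z⁻¹ * (y * t) := fun t => (aux_e1 e t).symm
  have e4' : ∀ t, y⁻¹ * (u * (z⁻¹ * t)) = z⁻¹ * (y⁻¹ * t) := fun t => (aux_e2' hu e t).symm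
  simp only [mul_inv_rev, inv_inv, aux_inv hu, aux_inv hv, mul_assoc, aux_sq hu, aux_sq hv,
    inv_mul_cancel_left, mul_inv_cancel_left, mul_inv_cancel, inv_mul_cancel, mul_one,
    hu, hv, ← c, c', c1, c1', e3', e4']

theorem w_A (hu : u * u = 1) (hv : v * v = 1) (e : z⁻¹ * y = u * (y * z⁻¹)) :
    (z * z * v)⁻¹ = (y * (v * z)⁻¹)⁻¹ *
      ((y * z⁻¹ * u) * (y * z⁻¹ * u) * (u * y * y * u)⁻¹ * (z⁻¹ * y)) := by
  rw [w_P hu e]
  simp only [mul_inv_rev, inv_inv, aux_inv hv, mul_assoc, inv_mul_cancel_left,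
    mul_inv_cancel_left]

theorem w_B (hu : u * u = 1) (hv : v * v = 1) (e : z⁻¹ * y = u * (y * z⁻¹))
    (c : v * y = y * v) :
    z * (z * z * v) * z⁻¹ = ((y * z⁻¹ * u) * (y * z⁻¹ * u) * (u * y * y * u)⁻¹ * (z⁻¹ * y))⁻¹ *
      (y * (v * z)⁻¹)⁻¹ * (y * z⁻¹ * u) * (z⁻¹ * y) := by
  have c' : ∀ t, v * (y * t) = y * (v * t) := fun t => by rw [← mul_assoc, c, mul_assoc]
  rw [w_P hu e]
  simp only [mul_inv_rev, inv_inv, aux_inv hv, mul_assoc, inv_mul_cancel_left,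
    mul_inv_cancel_left, e, aux_e1 e, aux_sq hu, c']

end abstract_words

section rel

open Pool.Agent.EC.Lam Pool.Agent.EC.Rigid

variable {x y z : K}

theorem uu_sq (r : GRel x y z) : uu y z * uu y z = 1 := r.hX

theorem vv_sq (r : GRel x y z) : vv z x * vv z x = 1 := r.hY

theorem vv_comm (r : GRel x y z) : vv z x * y = y * vv z x := r.cY

theorem rel_e (r : GRel x y z) : z⁻¹ * y = uu y z * (y * z⁻¹) := by
  have h := aux_inv (uu_sq r)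
  rw [← h, uu]; group

theorem rel_xz (r : GRel x y z) : x⁻¹ * z * x = vv z x * z := by
  have h := aux_inv (vv_sq r)
  rw [← h, vv]; group

/-- the genus two relation of `S_x` -/
theorem R1 (r : GRel x y z) :
    (be y z * h2 y z * (be y z)⁻¹ * (h2 y z)⁻¹) * (al y * h1 y z * (al y)⁻¹ * (h1 y z)⁻¹) = 1 :=
  w_R1 (uu_sq r) (rel_e r)

theorem R1' (r : GRel x y z) : ⁅be y z, h2 y z⁆ * ⁅al y, h1 y z⁆ = 1 := by
  rw [commutatorElement_def, commutatorElement_def]; exact R1 r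

theorem R2 (r : GRel x y z) :
    kk x y z * al y * (kk x y z)⁻¹ = h2 y z * be y z * (h2 y z)⁻¹ := by
  rw [kk, rel_xz r]
  exact w_R2 (uu_sq r) (vv_sq r) (vv_comm r)

theorem Rz4 (r : GRel x y z) :
    (z4 z)⁻¹ = h1 y z * (al y)⁻¹ * h2 y z * h2 y z * (be y z)⁻¹ * h1 y z :=
  w_z4 (uu_sq r) (rel_e r)

theorem Rx (r : GRel x y z) :
    x⁻¹ * (z4 z)⁻¹ * x = (h1 y z * (kk x y z)⁻¹ * h2 y z) * (be y z)⁻¹ *
      (h1 y z * (kk x y z)⁻¹ * h2 y z) * kk x y z * (al y)⁻¹ * kk x y z := by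
  have h : x⁻¹ * (z4 z)⁻¹ * x =
      ((x⁻¹ * z * x) * (x⁻¹ * z * x) * (x⁻¹ * z * x) * (x⁻¹ * z * x))⁻¹ := by
    rw [z4]; group
  rw [h, kk, rel_xz r]
  have e := w_e (z := z) (u := uu y z) (vv_comm r)
  rw [h1, h2, e]
  exact w_x (uu_sq r) (vv_sq r) (rel_e r) (vv_comm r)

theorem RA (r : GRel x y z) :
    (AA x z)⁻¹ = (kk x y z)⁻¹ * (h2 y z * h2 y z * (be y z)⁻¹ * h1 y z) := by
  rw [kk, rel_xz r]
  exact w_A (uu_sq r) (vv_sq r) (rel_e r)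

theorem RB (r : GRel x y z) :
    BB x z = (h2 y z * h2 y z * (be y z)⁻¹ * h1 y z)⁻¹ * (kk x y z)⁻¹ * h2 y z * h1 y z := by
  rw [kk, rel_xz r]
  exact w_B (uu_sq r) (vv_sq r) (rel_e r) (vv_comm r)

/-- the genus two relation of `S_y` -/
theorem Sy (r : GRel x y z) :
    ((AA x z)⁻¹ * BB x z * (AA x z)⁻¹⁻¹ * (BB x z)⁻¹) * (z4 z * x⁻¹ * (z4 z)⁻¹ * x⁻¹⁻¹) = 1 := by
  have h := word_id (c := h1 y z) (R2 r)
  rw [← RA r, ← RB r, ← Rz4 r, ← Rx r, inv_inv (z4 z)] at h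
  calc ((AA x z)⁻¹ * BB x z * (AA x z)⁻¹⁻¹ * (BB x z)⁻¹) * (z4 z * x⁻¹ * (z4 z)⁻¹ * x⁻¹⁻¹)
      = (((AA x z)⁻¹ * BB x z * (AA x z)⁻¹⁻¹ * (BB x z)⁻¹) * z4 z) * (x⁻¹ * (z4 z)⁻¹ * x) := by
        group
    _ = 1 := by rw [h, inv_mul_cancel]

theorem Sy' (r : GRel x y z) : ⁅(AA x z)⁻¹, BB x z⁆ * ⁅z4 z, x⁻¹⁆ = 1 := by
  rw [commutatorElement_def, commutatorElement_def]; exact Sy r

/-- **Parity theorem** for a group `Γ` embedded in a group with the relations of `G`. -/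
theorem even_of_max {Γ : Type*} [Group Γ] (i : Γ →* K) (hi : Function.Injective i)
    (r : GRel x y z) {L : Γ → Rigid.G} (hL : IsLift L) {a b c d k x' w A B : Γ}
    (hal : i a = al y) (hbe : i b = be y z) (hh1 : i c = h1 y z) (hh2 : i d = h2 y z)
    (hk : i k = kk x y z) (hx : i x' = x) (hw : i w = z4 z) (hA : i A = AA x z)
    (hB : i B = BB x z)
    (hmax : ⁅L b, L d⁆ * ⁅L a, L c⁆ = T ^ (2 : ℤ)) :
    ∃ n : ℤ, ⁅L A⁻¹, L B⁆ * ⁅L w, L x'⁻¹⁆ = T ^ (2 * n) := by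
  simp only [commutatorElement_def] at hmax ⊢
  refine hL.even_of_max (k := k) (x := x') ?_ ?_ ?_ ?_ ?_ hmax
  · apply hi; simp only [map_mul, map_inv, hal, hbe, hh2, hk]; exact R2 r
  · apply hi; simp only [map_mul, map_inv, hal, hbe, hh2, hh1, hw]; exact Rz4 r
  · apply hi; simp only [map_mul, map_inv, hal, hbe, hh2, hh1, hk, hx, hw]; exact Rx r
  · apply hi; simp only [map_mul, map_inv, hbe, hh2, hh1, hk, hA]; exact RA r
  · apply hi; simp only [map_mul, map_inv, hbe, hh2, hh1, hk, hB]; exact RB r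

end rel

end Pool.Agent.EC.Words
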